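import Mathlib
set_option autoImplicit false
set_option maxHeartbeats 4000000

namespace Pool.Agent.AntiSearch

/-- adjacency from a list of bit masks -/
def adjM (M : List ℕ) (i j : ℕ) : Bool := (M.getD i 0).testBit j

/-- can `v` be the image of vertex `l.length` ? -/
def ok (M : List ℕ) (l : List ℕ) (v : ℕ) : Bool :=
  (List.range l.length).all fun i =>
    (l.getD i 0 != v) && (adjM M i l.length != adjM M (l.getD i 0) v)

/-- exhaustive search: no antimorphism extending `l` satisfies `fin` -/
def search (M : List ℕ) (N : ℕ) (fin : List ℕ → Bool) : ℕ → List ℕ → Bool
  | 0, l => ! fin l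
  | n + 1, l => (List.range N).all fun v => !(ok M l v) || search M N fin n (l ++ [v])

theorem search_sound (M : List ℕ) (N : ℕ) (fin : List ℕ → Bool) (s : ℕ → ℕ)
    (hlt : ∀ i, i < N → s i < N) (hinj : ∀ i j, i < j → j < N → s i ≠ s j)
    (hadj : ∀ i j, i < j → j < N → adjM M i j ≠ adjM M (s i) (s j)) :
    ∀ n k, n + k = N → search M N fin n ((List.range k).map s) = true →
      fin ((List.range N).map s) = false := by
  intro n
  induction n with
  | zero =>
    intro k hk h
    simp only [search] at h
    have : k = N := by omega
    rw [this] at h
    simpa using h
  | succ n ih =>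
    intro k hk h
    simp only [search, List.all_eq_true, List.mem_range] at h
    have h1 := h (s k) (hlt k (by omega))
    have hok : ok M ((List.range k).map s) (s k) = true := by
      simp only [ok, List.all_eq_true, List.mem_range, List.length_map, List.length_range]
      intro i hi
      have hget : ((List.range k).map s).getD i 0 = s i := by
        rw [List.getD_eq_getElem _ _ (by simpa using hi)]
        simp
      rw [hget, Bool.and_eq_true, bne_iff_ne, bne_iff_ne]
      exact ⟨hinj i k hi (by omega), hadj i k hi (by omega)⟩
    rw [hok] at h1
    simp only [Bool.not_true, Bool.false_or] at h1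
    apply ih (k + 1) (by omega)
    rw [List.range_succ, List.map_append]
    simpa using h1

end Pool.Agent.AntiSearch
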