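import Mathlib
set_option autoImplicit false
set_option maxHeartbeats 4000000

namespace Pool.Agent.Arc6

open Finset

/-- the uniform matroid of rank 3 on six points -/
def UI : IndepMatroid (Fin 6) :=
  IndepMatroid.ofFinset Set.univ (fun I => I.card ≤ 3) (by simp)
    (fun I J hJ hIJ => (Finset.card_le_card hIJ).trans hJ)
    (fun I J hI hJ hlt => by
      obtain ⟨e, he, heI⟩ := Finset.exists_mem_notMem_of_card_lt_card hlt
      exact ⟨e, he, heI, by rw [Finset.card_insert_of_notMem heI]; omega⟩)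
    (fun I _ => Set.subset_univ _)

def U : Matroid (Fin 6) := UI.matroid

lemma U_indep (I : Finset (Fin 6)) : U.Indep (I : Set (Fin 6)) ↔ I.card ≤ 3 := by
  change UI.Indep _ ↔ _
  exact IndepMatroid.ofFinset_indep _ _ _ _ _ _

lemma U_E : U.E = Set.univ := rfl

lemma U_loopless : U.Loopless := by
  rw [Matroid.loopless_iff_forall_isNonloop]
  intro e _
  rw [← Matroid.indep_singleton]
  have := U_indep {e}
  simpa using this

abbrev F7 := ZMod 7

instance : Fact (Nat.Prime 7) := ⟨by norm_num⟩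

def det3 (u v w : Fin 3 → F7) : F7 :=
  u 0 * v 1 * w 2 - u 0 * v 2 * w 1 - u 1 * v 0 * w 2 + u 1 * v 2 * w 0 + u 2 * v 0 * w 1
    - u 2 * v 1 * w 0

/-- a complete 6-arc -/
def phiC : Fin 6 → (Fin 3 → F7) := ![![1, 0, 0], ![0, 1, 0], ![0, 0, 1], ![1, 1, 1], ![1, 2, 3], ![1, 3, 4]]

/-- an incomplete 6-arc -/
def phiI : Fin 6 → (Fin 3 → F7) := ![![1, 0, 0], ![0, 1, 0], ![0, 0, 1], ![1, 1, 1], ![1, 2, 3], ![1, 3, 2]]

def w0 : Fin 3 → F7 := ![1, 5, 6]

lemma arcC : ∀ i j k : Fin 6, i ≠ j → i ≠ k → j ≠ k → det3 (phiC i) (phiC j) (phiC k) ≠ 0 := by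
  decide +kernel

lemma arcI : ∀ i j k : Fin 6, i ≠ j → i ≠ k → j ≠ k → det3 (phiI i) (phiI j) (phiI k) ≠ 0 := by
  decide +kernel

lemma extI : ∀ i j : Fin 6, i ≠ j → det3 w0 (phiI i) (phiI j) ≠ 0 := by
  decide +kernel

lemma completeC' : ∀ a b c : F7, ∃ i j : Fin 6, i ≠ j ∧ det3 ![a, b, c] (phiC i) (phiC j) = 0 := by
  decide +kernel

lemma completeC (w : Fin 3 → F7) : ∃ i j : Fin 6, i ≠ j ∧ det3 w (phiC i) (phiC j) = 0 := by
  obtain ⟨i, j, hij, h⟩ := completeC' (w 0) (w 1) (w 2)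
  refine ⟨i, j, hij, ?_⟩
  simpa [det3] using h

lemma det3_eq (u v w : Fin 3 → F7) : Matrix.det (Matrix.of ![u, v, w]) = det3 u v w := by
  rw [Matrix.det_fin_three]
  simp [det3]

lemma indep_iff (φ : Fin 6 → (Fin 3 → F7))
    (harc : ∀ i j k : Fin 6, i ≠ j → i ≠ k → j ≠ k → det3 (φ i) (φ j) (φ k) ≠ 0)
    (I : Set (Fin 6)) : U.Indep I ↔ LinearIndepOn F7 φ I := by
  classical
  have hI : I = ((Set.toFinset I : Finset (Fin 6)) : Set (Fin 6)) := by simp
  generalize Set.toFinset I = J at hI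
  subst hI
  rw [U_indep]
  constructor
  · intro hJ
    obtain ⟨K, hJK, _, hK⟩ := Finset.exists_subsuperset_card_eq (Finset.subset_univ J) hJ
      (by decide : 3 ≤ (univ : Finset (Fin 6)).card)
    refine LinearIndepOn.mono ?_ (by exact_mod_cast hJK)
    obtain ⟨a, b, c, hab, hac, hbc, rfl⟩ := Finset.card_eq_three.1 hK
    have h1 : LinearIndependent F7 ![φ a, φ b, φ c] := by
      have := Matrix.linearIndependent_rows_of_det_ne_zero (A := Matrix.of ![φ a, φ b, φ c])
        (by rw [det3_eq]; exact harc a b c hab hac hbc)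
      exact this
    have h2 : LinearIndependent F7 (φ ∘ ![a, b, c]) := by
      convert h1 using 1
      ext i
      fin_cases i <;> rfl
    have h3 : (((({a, b, c} : Finset (Fin 6))) : Set (Fin 6))) = Set.range ![a, b, c] := by
      ext x
      simp [eq_comm]
      tauto
    rw [h3]
    have hinj : Function.Injective ![a, b, c] := by
      intro i j hij
      fin_cases i <;> fin_cases j <;> simp_all
    exact (linearIndepOn_range_iff hinj φ).mpr h2
  · intro h
    have h1 : LinearIndependent F7 (fun x : (J : Set (Fin 6)) => φ x) := h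
    have := h1.fintype_card_le_finrank
    simpa using this


lemma pair_indep (i j : Fin 6) : U.Indep {i, j} := by
  classical
  have := (U_indep {i, j}).mpr ((Finset.card_le_two (a := i) (b := j)).trans (by norm_num))
  simpa using this

lemma pair_flat (i j : Fin 6) (hij : i ≠ j) : U.IsFlat {i, j} := by
  classical
  rw [Matroid.isFlat_iff_closure_eq]
  apply subset_antisymm
  · intro x hx
    by_contra hxn
    have h3 : U.Indep (insert x {i, j}) := by
      have := (U_indep {x, i, j}).mpr Finset.card_le_three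
      simpa using this
    rw [(pair_indep i j).mem_closure_iff] at hx
    rcases hx with hx | hx
    · exact hx.not_indep h3
    · exact hxn hx
  · exact Matroid.subset_closure _ _ (by rw [U_E]; exact Set.subset_univ _)

lemma pair_rk (i j : Fin 6) (hij : i ≠ j) : U.eRk {i, j} = ((2 : ℕ) : ℕ∞) := by
  rw [(pair_indep i j).eRk_eq_encard, Set.encard_pair hij]
  rfl

/-- the alternating form `det(w, ·, ·)` -/
noncomputable def frm (w : Fin 3 → F7) : (Fin 3 → F7) [⋀^Fin 2]→ₗ[F7] F7 :=
  (Matrix.detRowAlternating (n := Fin 3) (R := F7)).curryLeft w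

lemma frm_apply (w : Fin 3 → F7) (v : Fin 2 → (Fin 3 → F7)) : frm w v = det3 w (v 0) (v 1) := by
  unfold frm
  rw [AlternatingMap.curryLeft_apply_apply, ← det3_eq]
  change Matrix.det (Matrix.vecCons w v) = _
  congr 1
  ext i j
  fin_cases i <;> rfl

lemma exists_frm (l : (Fin 3 → F7) [⋀^Fin 2]→ₗ[F7] F7) : ∃ w, l = frm w := by
  let e : Fin 3 → (Fin 3 → F7) := fun i => Pi.single i 1
  refine ⟨![l ![e 1, e 2], - l ![e 0, e 2], l ![e 0, e 1]], ?_⟩
  apply Module.Basis.ext_alternating (Pi.basisFun F7 (Fin 3))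
  intro v hv
  have hswap : ∀ i j, l ![e j, e i] = - l ![e i, e j] := by
    intro i j
    have := l.map_swap ![e i, e j] (i := 0) (j := 1) (by decide)
    rw [← this]
    congr 1
    ext a b
    fin_cases a <;> rfl
  have hv2 : (fun i => (Pi.basisFun F7 (Fin 3)) (v i)) = ![e (v 0), e (v 1)] := by
    ext a b
    fin_cases a <;> simp [e]
  rw [hv2, frm_apply]
  have hne : v 0 ≠ v 1 := fun h => absurd (hv h) (by decide)
  generalize v 0 = a at *
  generalize v 1 = b at *
  fin_cases a <;> fin_cases b <;> first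
    | exact absurd rfl hne
    | simp [det3, e, Pi.single_apply, hswap 0 1, hswap 0 2, hswap 1 2]

theorem frozen :
    ¬ (∀ (F : Type) [Field F] [Fintype F] (n : ℕ) (M : Matroid (Fin n)),
      M.E = Set.univ → M.Loopless →
      ∀ (k : ℕ), 2 ≤ k →
      ∀ (d₁ d₂ : ℕ) (φ₁ : Fin n → (Fin d₁ → F)) (φ₂ : Fin n → (Fin d₂ → F)),
        (∀ I : Set (Fin n), M.Indep I ↔ LinearIndepOn F φ₁ I) →
        (∀ I : Set (Fin n), M.Indep I ↔ LinearIndepOn F φ₂ I) →
        ∀ c : ℕ,
          (∃ L : Fin c → ((Fin d₁ → F) [⋀^Fin k]→ₗ[F] F),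
              ∀ X : Set (Fin n), M.IsFlat X → M.eRk X = (k : ℕ∞) →
                ∃ i : Fin c, ∃ e : Fin k → Fin n,
                  Function.Injective e ∧ M.IsBasis (Set.range e) X ∧ L i (φ₁ ∘ e) ≠ 0) ↔
          (∃ L : Fin c → ((Fin d₂ → F) [⋀^Fin k]→ₗ[F] F),
              ∀ X : Set (Fin n), M.IsFlat X → M.eRk X = (k : ℕ∞) →
                ∃ i : Fin c, ∃ e : Fin k → Fin n,
                  Function.Injective e ∧ M.IsBasis (Set.range e) X ∧ L i (φ₂ ∘ e) ≠ 0)) := by
  intro hall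
  have h := hall F7 6 U U_E U_loopless 2 le_rfl 3 3 phiI phiC (indep_iff phiI arcI)
    (indep_iff phiC arcC) 1
  obtain ⟨L, hL⟩ := h.mp ⟨fun _ => frm w0, by
    intro X hX hr
    obtain ⟨I, hI⟩ := U.exists_isBasis X (by rw [U_E]; exact Set.subset_univ _)
    have hc : I.encard = 2 := by
      rw [← hI.eRk_eq_encard, hr]; rfl
    obtain ⟨x, y, hxy, rfl⟩ := Set.encard_eq_two.mp hc
    refine ⟨0, ![x, y], ?_, ?_, ?_⟩
    · intro a b hab
      fin_cases a <;> fin_cases b <;> simp_all
    · have hr : Set.range ![x, y] = {x, y} := by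
        ext z; simp [eq_comm]; tauto
      rw [hr]; exact hI
    · rw [frm_apply]
      exact extI x y hxy⟩
  obtain ⟨w, hw⟩ := exists_frm (L 0)
  obtain ⟨i, j, hij, h0⟩ := completeC w
  obtain ⟨t, e, he, hB, hne⟩ := hL {i, j} (pair_flat i j hij) (pair_rk i j hij)
  have ht : t = 0 := Subsingleton.elim _ _
  rw [ht, hw, frm_apply] at hne
  apply hne
  have hmem : ∀ a, e a = i ∨ e a = j := by
    intro a
    have := hB.subset (Set.mem_range_self a)
    simpa using this
  have hne01 : e 0 ≠ e 1 := fun h => absurd (he h) (by decide)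
  change det3 w (phiC (e 0)) (phiC (e 1)) = 0
  rcases hmem 0 with h1 | h1 <;> rcases hmem 1 with h2 | h2
  · exact absurd (h1.trans h2.symm) hne01
  · rw [h1, h2]; exact h0
  · rw [h1, h2]
    have : det3 w (phiC j) (phiC i) = - det3 w (phiC i) (phiC j) := by unfold det3; ring
    rw [this, h0, neg_zero]
  · exact absurd (h1.trans h2.symm) hne01

end Pool.Agent.Arc6
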