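import Mathlib
set_option autoImplicit false
set_option maxHeartbeats 4000000

namespace Pool.Agent.BackForth

/-- A back-and-forth construction. `Good` is a family of finite lists of pairs, closed under
extension on either side; `Good l` implies that `l` is the graph of a partial injection.
Then, starting from a good list, there is a bijection all of whose finite pieces are below a
good list extending the given one. -/
theorem exists_equiv {A B : Type} [Countable A] [Countable B] [Nonempty A] [Nonempty B]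
    (Good : List (A × B) → Prop)
    (hinj : ∀ l, Good l → ∀ p ∈ l, ∀ q ∈ l, (p.1 = q.1 ↔ p.2 = q.2))
    (forth : ∀ l, Good l → ∀ a, ∃ b, Good ((a, b) :: l))
    (back : ∀ l, Good l → ∀ b, ∃ a, Good ((a, b) :: l))
    (l0 : List (A × B)) (h0 : Good l0) :
    ∃ e : A ≃ B, (∀ p ∈ l0, e p.1 = p.2) ∧
      ∀ s : Finset A, ∃ l, Good l ∧ ∀ a ∈ s, (a, e a) ∈ l := by
  classical
  obtain ⟨ea, hea⟩ := exists_surjective_nat A
  obtain ⟨eb, heb⟩ := exists_surjective_nat B
  -- the chain of good lists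
  let step : {l // Good l} → ℕ → {l // Good l} := fun l n =>
    let l1 : {l // Good l} := ⟨(ea n, (forth l.1 l.2 (ea n)).choose) :: l.1,
      (forth l.1 l.2 (ea n)).choose_spec⟩
    ⟨((back l1.1 l1.2 (eb n)).choose, eb n) :: l1.1, (back l1.1 l1.2 (eb n)).choose_spec⟩
  let L : ℕ → {l // Good l} := fun n => Nat.rec ⟨l0, h0⟩ (fun n l => step l n) n
  have hL0 : (L 0).1 = l0 := rfl
  have hLs : ∀ n, L (n + 1) = step (L n) n := fun n => rfl
  have hsub1 : ∀ n, ∀ p ∈ (L n).1, p ∈ (L (n + 1)).1 := by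
    intro n p hp
    rw [hLs]
    simp only [step, List.mem_cons]
    exact Or.inr (Or.inr hp)
  have hsub : ∀ m n, m ≤ n → ∀ p ∈ (L m).1, p ∈ (L n).1 := by
    intro m n hmn
    induction hmn with
    | refl => exact fun p hp => hp
    | step _ ih => exact fun p hp => hsub1 _ p (ih p hp)
  have ha : ∀ n, ∃ b, (ea n, b) ∈ (L (n + 1)).1 := by
    intro n
    rw [hLs]
    exact ⟨(forth (L n).1 (L n).2 (ea n)).choose,
      List.mem_cons_of_mem _ List.mem_cons_self⟩
  have hb : ∀ n, ∃ a, (a, eb n) ∈ (L (n + 1)).1 := by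
    intro n
    rw [hLs]
    exact ⟨_, List.mem_cons_self⟩
  let R : A → B → Prop := fun a b => ∃ n, (a, b) ∈ (L n).1
  have hR1 : ∀ a, ∃ b, R a b := by
    intro a
    obtain ⟨n, rfl⟩ := hea a
    obtain ⟨b, hb⟩ := ha n
    exact ⟨b, n + 1, hb⟩
  have hR2 : ∀ b, ∃ a, R a b := by
    intro b
    obtain ⟨n, rfl⟩ := heb b
    obtain ⟨a, ha⟩ := hb n
    exact ⟨a, n + 1, ha⟩
  have hR3 : ∀ a b a' b', R a b → R a' b' → (a = a' ↔ b = b') := by
    rintro a b a' b' ⟨n, hn⟩ ⟨m, hm⟩
    exact hinj _ (L (max n m)).2 _ (hsub _ _ (le_max_left _ _) _ hn) _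
      (hsub _ _ (le_max_right _ _) _ hm)
  choose f hf using hR1
  choose g hg using hR2
  let e : A ≃ B :=
    { toFun := f
      invFun := g
      left_inv := fun a => ((hR3 _ _ _ _ (hg (f a)) (hf a)).mpr rfl)
      right_inv := fun b => ((hR3 _ _ _ _ (hf (g b)) (hg b)).mp rfl) }
  refine ⟨e, ?_, ?_⟩
  · intro p hp
    have : R p.1 p.2 := ⟨0, hp⟩
    exact (hR3 _ _ _ _ (hf p.1) this).mp rfl
  · intro s
    have hf' := hf
    choose N hN using hf'
    refine ⟨(L (s.sup N)).1, (L (s.sup N)).2, ?_⟩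
    intro a ha
    exact hsub _ _ (Finset.le_sup ha) _ (hN a)

end Pool.Agent.BackForth
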