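import Mathlib

set_option autoImplicit false
set_option maxHeartbeats 4000000
open MeasureTheory Real

namespace Pool.Agent.BddCompl

noncomputable abbrev μ : Measure ℝ := volume.restrict (Set.Icc (0:ℝ) 1)

/-- continuous folding map -/
noncomputable def q (t : ℝ) : ℝ := |2 * min t (1/4) - 1/4| + (max t (1/4) - 1/4)

lemma q_cont : Continuous q := by
  unfold q
  fun_prop

lemma q_of_ge {t : ℝ} (h : 1/4 ≤ t) : q t = t := by
  unfold q
  rw [min_eq_right h, max_eq_left h]
  norm_num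

lemma q_of_le {t : ℝ} (h : t ≤ 1/4) : q t = |2 * t - 1/4| := by
  unfold q
  rw [min_eq_left h, max_eq_right h]
  norm_num

lemma q_mem {t : ℝ} (h0 : 0 ≤ t) (h1 : t ≤ 1) : 0 ≤ q t ∧ q t ≤ 1 := by
  rcases le_total t (1/4) with h | h
  · rw [q_of_le h]
    refine ⟨abs_nonneg _, ?_⟩
    rw [abs_le]; constructor <;> linarith
  · rw [q_of_ge h]; exact ⟨h0, h1⟩

lemma int_q (F : ℝ → ℝ) (hF : Continuous F) : ∫ t in (0:ℝ)..1, F (q t) = ∫ t in (0:ℝ)..1, F t := by
  have hc : Continuous fun t => F (q t) := hF.comp q_cont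
  have hi : ∀ a b : ℝ, IntervalIntegrable (fun t => F (q t)) volume a b := fun a b => hc.intervalIntegrable a b
  have hi' : ∀ a b : ℝ, IntervalIntegrable F volume a b := fun a b => hF.intervalIntegrable a b
  rw [← intervalIntegral.integral_add_adjacent_intervals (hi 0 (1/4)) (hi (1/4) 1),
    ← intervalIntegral.integral_add_adjacent_intervals (hi 0 (1/8)) (hi (1/8) (1/4)),
    ← intervalIntegral.integral_add_adjacent_intervals (hi' 0 (1/4)) (hi' (1/4) 1)]
  have h1 : ∫ t in (0:ℝ)..(1/8), F (q t) = ∫ t in (0:ℝ)..(1/8), F (1/4 - 2 * t) := by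
    apply intervalIntegral.integral_congr
    intro t ht
    rw [Set.uIcc_of_le (by norm_num)] at ht
    simp only
    rw [q_of_le (by linarith [ht.2]), abs_of_nonpos (by linarith [ht.2])]
    congr 1; ring
  have h2 : ∫ t in (1/8:ℝ)..(1/4), F (q t) = ∫ t in (1/8:ℝ)..(1/4), F (2 * t - 1/4) := by
    apply intervalIntegral.integral_congr
    intro t ht
    rw [Set.uIcc_of_le (by norm_num)] at ht
    simp only
    rw [q_of_le (by linarith [ht.2]), abs_of_nonneg (by linarith [ht.1])]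
  have h3 : ∫ t in (1/4:ℝ)..1, F (q t) = ∫ t in (1/4:ℝ)..1, F t := by
    apply intervalIntegral.integral_congr
    intro t ht
    rw [Set.uIcc_of_le (by norm_num)] at ht
    simp only
    rw [q_of_ge ht.1]
  have h4 : ∫ t in (0:ℝ)..(1/8), F (1/4 - 2 * t) = (1/2) * ∫ t in (0:ℝ)..(1/4), F t := by
    rw [intervalIntegral.integral_comp_sub_mul (f := F) (by norm_num : (2:ℝ) ≠ 0) (1/4)]
    norm_num
  have h5 : ∫ t in (1/8:ℝ)..(1/4), F (2 * t - 1/4) = (1/2) * ∫ t in (0:ℝ)..(1/4), F t := by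
    rw [intervalIntegral.integral_comp_mul_sub (f := F) (by norm_num : (2:ℝ) ≠ 0) (1/4)]
    norm_num
  rw [h1, h2, h3, h4, h5]; ring

noncomputable def c (n : ℕ) : ℝ := if n = 0 then 1 else √2

lemma c_pos (n : ℕ) : 0 < c n := by unfold c; split_ifs <;> positivity

lemma c_le (n : ℕ) : c n ≤ √2 := by
  unfold c
  split_ifs
  · rw [Real.one_le_sqrt]; norm_num
  · exact le_rfl

noncomputable def f (n : ℕ) (t : ℝ) : ℝ := c n * cos (n * π * q t)

lemma f_cont (n : ℕ) : Continuous (f n) := by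
  unfold f
  have := q_cont
  fun_prop

lemma f_abs (n : ℕ) (t : ℝ) : |f n t| ≤ √2 := by
  unfold f
  rw [abs_mul, abs_of_pos (c_pos n)]
  calc c n * |cos (n * π * q t)| ≤ √2 * 1 := mul_le_mul (c_le n) (abs_cos_le_one _) (abs_nonneg _) (Real.sqrt_nonneg _)
    _ = √2 := mul_one _

instance : IsFiniteMeasure μ := by unfold μ; infer_instance

lemma memLp_of_bdd (g : ℝ → ℝ) (hg : Measurable g) (C : ℝ) (hC : ∀ t, |g t| ≤ C) : MemLp g 2 μ :=
  MemLp.of_bound hg.aestronglyMeasurable C (Filter.Eventually.of_forall (by simpa using hC))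

noncomputable def φ (n : ℕ) : Lp ℝ 2 μ := (memLp_of_bdd (f n) (f_cont n).measurable √2 (f_abs n)).toLp

lemma φ_coe (n : ℕ) : (φ n : ℝ → ℝ) =ᵐ[μ] f n := MemLp.coeFn_toLp _

lemma inner_eq (u v : Lp ℝ 2 μ) : inner ℝ u v = ∫ t, (v : ℝ → ℝ) t * (u : ℝ → ℝ) t ∂μ := by
  rw [L2.inner_def]
  rfl

lemma int_cos (k : ℤ) (hk : k ≠ 0) : ∫ t in (0:ℝ)..1, cos (k * π * t) = 0 := by
  have hk' : (k * π : ℝ) ≠ 0 := mul_ne_zero (by exact_mod_cast hk) Real.pi_ne_zero
  rw [intervalIntegral.integral_comp_mul_left (f := cos) hk']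
  simp [Real.sin_int_mul_pi]

lemma int_cos_cos (m n : ℕ) : ∫ t in (0:ℝ)..1, (c n * cos (n * π * t)) * (c m * cos (m * π * t)) = if n = m then 1 else 0 := by
  have h : ∀ t : ℝ, (c n * cos (n * π * t)) * (c m * cos (m * π * t)) =
      (c n * c m / 2) * cos (((n:ℤ) - m : ℤ) * π * t) + (c n * c m / 2) * cos (((n:ℤ) + m : ℤ) * π * t) := by
    intro t
    push_cast
    have e1 : ((n:ℝ) - m) * π * t = n * π * t - m * π * t := by ring
    have e2 : ((n:ℝ) + m) * π * t = n * π * t + m * π * t := by ring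
    rw [e1, e2, cos_sub, cos_add]; ring
  simp_rw [h]
  rw [intervalIntegral.integral_add (by apply Continuous.intervalIntegrable; fun_prop)
    (by apply Continuous.intervalIntegrable; fun_prop),
    intervalIntegral.integral_const_mul, intervalIntegral.integral_const_mul]
  by_cases hnm : n = m
  · subst hnm
    by_cases hn : n = 0
    · subst hn
      simp [c]
      norm_num
    · rw [int_cos ((n:ℤ)+n) (by omega)]
      simp [c, hn]
  · rw [int_cos ((n:ℤ)+m) (by omega), int_cos ((n:ℤ)-m) (by omega)]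
    simp [hnm]

lemma toInterval (g : ℝ → ℝ) : ∫ t, g t ∂μ = ∫ t in (0:ℝ)..1, g t := by
  rw [intervalIntegral.integral_of_le (by norm_num), ← integral_Icc_eq_integral_Ioc]

lemma inner_φ (m n : ℕ) : inner ℝ (φ m) (φ n) = if m = n then (1:ℝ) else 0 := by
  rw [inner_eq]
  have : ∫ t, (φ n : ℝ → ℝ) t * (φ m : ℝ → ℝ) t ∂μ = ∫ t, f n t * f m t ∂μ := by
    apply integral_congr_ae
    filter_upwards [φ_coe n, φ_coe m] with t h1 h2
    rw [h1, h2]
  rw [this, toInterval]
  have h2 := int_q (fun s => (c n * cos (n * π * s)) * (c m * cos (m * π * s))) (by fun_prop)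
  unfold f
  rw [h2, int_cos_cos]
  simp [eq_comm]

lemma φ_orth : Orthonormal ℝ φ := by
  rw [orthonormal_iff_ite]
  exact inner_φ

/-- any function orthogonal to all `φ n` integrates to zero against `h ∘ q` -/
lemma int_pow (g : ℝ → ℝ) (hg : Integrable g μ) (h0 : ∀ n : ℕ, ∫ t, g t * cos (n * π * q t) ∂μ = 0) (j : ℕ) :
    ∀ n : ℤ, ∫ t, g t * (cos (π * q t) ^ j * cos (n * (π * q t))) ∂μ = 0 := by
  induction j with
  | zero =>
    intro n
    rcases Int.eq_nat_or_neg n with ⟨k, rfl | rfl⟩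
    · have := h0 k
      simpa [mul_assoc] using this
    · have := h0 k
      simpa [mul_assoc] using this
  | succ j ih =>
    intro n
    have hcm : ∀ k : ℤ, Integrable (fun t => g t * (cos (π * q t) ^ j * cos (k * (π * q t)))) μ := by
      intro k
      have hc : Continuous fun t => (cos (π * q t) ^ j * cos (k * (π * q t))) := by
        have := q_cont; fun_prop
      refine Integrable.mul_bdd (c := 1) hg hc.aestronglyMeasurable (Filter.Eventually.of_forall fun t => ?_)
      rw [Real.norm_eq_abs, abs_mul, abs_pow]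
      exact mul_le_one₀ (pow_le_one₀ (abs_nonneg _) (abs_cos_le_one _)) (abs_nonneg _) (abs_cos_le_one _)
    have e : ∀ t, g t * (cos (π * q t) ^ (j+1) * cos (n * (π * q t))) =
        (1/2) * (g t * (cos (π * q t) ^ j * cos ((n+1 : ℤ) * (π * q t)))) +
        (1/2) * (g t * (cos (π * q t) ^ j * cos ((n-1 : ℤ) * (π * q t)))) := by
      intro t
      push_cast
      have e1 : ((n:ℝ) + 1) * (π * q t) = n * (π * q t) + π * q t := by ring
      have e2 : ((n:ℝ) - 1) * (π * q t) = n * (π * q t) - π * q t := by ring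
      rw [e1, e2, cos_sub, cos_add, pow_succ]; ring
    simp_rw [e]
    rw [integral_add ((hcm _).const_mul _) ((hcm _).const_mul _), integral_const_mul, integral_const_mul, ih, ih]
    simp

lemma int_poly (g : ℝ → ℝ) (hg : Integrable g μ) (h0 : ∀ n : ℕ, ∫ t, g t * cos (n * π * q t) ∂μ = 0) (p : Polynomial ℝ) :
    ∫ t, g t * p.eval (cos (π * q t)) ∂μ = 0 := by
  have hi : ∀ k : ℕ, Integrable (fun t => g t * (p.coeff k * cos (π * q t) ^ k)) μ := by
    intro k
    have hc : Continuous fun t => (p.coeff k * cos (π * q t) ^ k) := by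
      have := q_cont; fun_prop
    refine Integrable.mul_bdd (c := |p.coeff k|) hg hc.aestronglyMeasurable (Filter.Eventually.of_forall fun t => ?_)
    rw [Real.norm_eq_abs, abs_mul, abs_pow]
    exact mul_le_of_le_one_right (abs_nonneg _) (pow_le_one₀ (abs_nonneg _) (abs_cos_le_one _))
  have e : ∀ t, g t * p.eval (cos (π * q t)) = ∑ k ∈ Finset.range (p.natDegree + 1), g t * (p.coeff k * cos (π * q t) ^ k) := by
    intro t
    rw [Polynomial.eval_eq_sum_range, Finset.mul_sum]
  simp_rw [e]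
  rw [integral_finsetSum _ (fun k _ => hi k)]
  apply Finset.sum_eq_zero
  intro k _
  have h1 := int_pow g hg h0 k 0
  simp only [Int.cast_zero, zero_mul, cos_zero, mul_one] at h1
  have e2 : ∀ t, g t * (p.coeff k * cos (π * q t) ^ k) = p.coeff k * (g t * cos (π * q t) ^ k) := by intro t; ring
  simp_rw [e2]
  rw [integral_const_mul, h1, mul_zero]

lemma int_cont (g : ℝ → ℝ) (hg : Integrable g μ) (h0 : ∀ n : ℕ, ∫ t, g t * cos (n * π * q t) ∂μ = 0)
    (h : ℝ → ℝ) (hh : Continuous h) :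
    ∫ t, g t * h (q t) ∂μ = 0 := by
  have hI : 0 ≤ ∫ t, |g t| ∂μ := integral_nonneg fun t => abs_nonneg _
  -- bound: for all ε
  have key : ∀ ε > 0, |∫ t, g t * h (q t) ∂μ| ≤ ε * ∫ t, |g t| ∂μ := by
    intro ε hε
    have hcont : Continuous fun y : ℝ => h (arccos y / π) := by
      have := Real.continuous_arccos
      fun_prop
    obtain ⟨p, hp⟩ := exists_polynomial_near_of_continuousOn (-1) 1 (fun y : ℝ => h (arccos y / π)) hcont.continuousOn ε hε
    have hqq : ∀ᵐ t ∂μ, |p.eval (cos (π * q t)) - h (q t)| ≤ ε := by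
      refine (ae_restrict_iff' measurableSet_Icc).2 (Filter.Eventually.of_forall fun t ht => ?_)
      have hq := q_mem ht.1 ht.2
      have h1 := hp (cos (π * q t)) ⟨neg_one_le_cos _, cos_le_one _⟩
      rw [arccos_cos (mul_nonneg pi_pos.le hq.1) (by nlinarith [pi_pos, hq.2]), mul_div_cancel_left₀ _ pi_ne_zero] at h1
      exact h1.le
    obtain ⟨B, hB⟩ := (isCompact_Icc (a := (0:ℝ)) (b := 1)).exists_bound_of_continuousOn (hh.comp q_cont).continuousOn
    have hint1 : Integrable (fun t => g t * h (q t)) μ := by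
      refine Integrable.mul_bdd (c := B) hg (hh.comp q_cont).aestronglyMeasurable ?_
      refine (ae_restrict_iff' measurableSet_Icc).2 (Filter.Eventually.of_forall fun t ht => ?_)
      exact hB t ht
    have hpc : Continuous fun t => p.eval (cos (π * q t)) := by
      have := q_cont
      exact p.continuous.comp (by fun_prop)
    obtain ⟨B', hB'⟩ := (isCompact_Icc (a := (0:ℝ)) (b := 1)).exists_bound_of_continuousOn hpc.continuousOn
    have hint2 : Integrable (fun t => g t * p.eval (cos (π * q t))) μ := by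
      refine Integrable.mul_bdd (c := B') hg hpc.aestronglyMeasurable ?_
      refine (ae_restrict_iff' measurableSet_Icc).2 (Filter.Eventually.of_forall fun t ht => ?_)
      exact hB' t ht
    have e1 : ∫ t, g t * h (q t) ∂μ = ∫ t, (g t * h (q t) - g t * p.eval (cos (π * q t))) ∂μ := by
      rw [integral_sub hint1 hint2, int_poly g hg h0 p, sub_zero]
    have e2 : ε * ∫ t, |g t| ∂μ = ∫ t, ε * |g t| ∂μ := by rw [integral_const_mul]
    rw [e1, e2, ← Real.norm_eq_abs]
    refine norm_integral_le_of_norm_le (hg.abs.const_mul ε) ?_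
    filter_upwards [hqq] with t ht
    rw [Real.norm_eq_abs, ← mul_sub, abs_mul, mul_comm, abs_sub_comm]
    exact mul_le_mul_of_nonneg_right ht (abs_nonneg _)
  by_contra hne
  have hpos : 0 < |∫ t, g t * h (q t) ∂μ| := abs_pos.2 hne
  have h2 := key (|∫ t, g t * h (q t) ∂μ| / (2 * (∫ t, |g t| ∂μ + 1))) (by positivity)
  have h3 : |∫ t, g t * h (q t) ∂μ| / (2 * (∫ t, |g t| ∂μ + 1)) * ∫ t, |g t| ∂μ ≤ |∫ t, g t * h (q t) ∂μ| / 2 := by
    rw [div_mul_eq_mul_div, div_le_div_iff₀ (by positivity) (by norm_num)]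
    nlinarith
  linarith

lemma zero_on (g : ℝ → ℝ) (hg : Integrable g μ) (h0 : ∀ n : ℕ, ∫ t, g t * cos (n * π * q t) ∂μ = 0) :
    ∀ᵐ t, t ∈ Set.Ioo (1/4:ℝ) 1 → g t = 0 := by
  have hloc : LocallyIntegrableOn g (Set.Ioo (1/4:ℝ) 1) volume := by
    have : IntegrableOn g (Set.Ioo (1/4:ℝ) 1) volume :=
      IntegrableOn.mono_set (t := Set.Icc (0:ℝ) 1) hg (fun x hx => ⟨by linarith [hx.1], hx.2.le⟩)
    exact this.locallyIntegrableOn
  refine IsOpen.ae_eq_zero_of_integral_contDiff_smul_eq_zero (E := ℝ) (F := ℝ) isOpen_Ioo hloc ?_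
  intro h hsm hcs hsub
  have h1 := int_cont g hg h0 h hsm.continuous
  have hzero : ∀ t, t ∉ Set.Ioo (1/4:ℝ) 1 → h t = 0 := by
    intro t ht
    by_contra hne
    exact ht (hsub (subset_tsupport _ hne))
  have h2 : ∫ t, h t • g t = ∫ t, g t * h (q t) ∂μ := by
    rw [← setIntegral_eq_integral_of_forall_compl_eq_zero (s := Set.Icc (0:ℝ) 1) (f := fun t => h t • g t)]
    · apply setIntegral_congr_fun measurableSet_Icc
      intro t ht
      simp only [smul_eq_mul]
      rw [mul_comm]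
      congr 1
      rcases le_total (1/4) t with h4 | h4
      · rw [q_of_ge h4]
      · have ha : h t = 0 := hzero t (fun hh => by linarith [hh.1])
        have hb : h (q t) = 0 := by
          apply hzero
          intro hh
          have := hh.1
          rw [q_of_le h4] at this
          have : |2 * t - 1/4| ≤ 1/4 := by rw [abs_le]; constructor <;> linarith [ht.1]
          linarith
        rw [ha, hb]
    · intro t ht
      rw [hzero t (fun hh => ht ⟨by linarith [hh.1], hh.2.le⟩)]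
      simp
  rw [h2, h1]

/-- odd functions on [0,1/4] -/
noncomputable def s (k : ℕ) (t : ℝ) : ℝ := Set.indicator (Set.Icc (0:ℝ) (1/4)) (fun t => sin ((k+1) * (8 * π) * t)) t

lemma s_meas (k : ℕ) : Measurable (s k) := by
  unfold s
  exact Measurable.indicator (by fun_prop) measurableSet_Icc

lemma s_abs (k : ℕ) (t : ℝ) : |s k t| ≤ 1 := by
  unfold s
  rw [Set.indicator_apply]
  split_ifs
  · exact abs_sin_le_one _
  · simp

noncomputable def σ (k : ℕ) : Lp ℝ 2 μ := (memLp_of_bdd (s k) (s_meas k) 1 (s_abs k)).toLp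

lemma σ_coe (k : ℕ) : (σ k : ℝ → ℝ) =ᵐ[μ] s k := MemLp.coeFn_toLp _

lemma int_s (k : ℕ) (F : ℝ → ℝ) : ∫ t, s k t * F t ∂μ = ∫ t in (0:ℝ)..(1/4), sin ((k+1) * (8 * π) * t) * F t := by
  rw [intervalIntegral.integral_of_le (by norm_num), ← integral_Icc_eq_integral_Ioc]
  have : ∀ t, s k t * F t = Set.indicator (Set.Icc (0:ℝ) (1/4)) (fun t => sin ((k+1) * (8 * π) * t) * F t) t := by
    intro t
    unfold s
    rw [Set.indicator_apply, Set.indicator_apply]
    split_ifs <;> simp
  simp_rw [this]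
  rw [integral_indicator measurableSet_Icc, Measure.restrict_restrict measurableSet_Icc]
  congr 2
  rw [Set.inter_eq_left]
  exact fun x hx => ⟨hx.1, by linarith [hx.2]⟩

lemma σ_perp (k n : ℕ) : inner ℝ (φ n) (σ k) = (0:ℝ) := by
  rw [inner_eq]
  have : ∫ t, (σ k : ℝ → ℝ) t * (φ n : ℝ → ℝ) t ∂μ = ∫ t, s k t * f n t ∂μ := by
    apply integral_congr_ae
    filter_upwards [φ_coe n, σ_coe k] with t h1 h2
    rw [h1, h2]
  rw [this, int_s]
  have h1 := intervalIntegral.integral_comp_sub_left (a := 0) (b := 1/4) (fun t => sin ((k+1) * (8 * π) * t) * f n t) (1/4)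
  simp only [sub_zero, sub_self] at h1
  have h2 : ∫ t in (0:ℝ)..(1/4), sin ((k+1) * (8 * π) * (1/4 - t)) * f n (1/4 - t) =
      - ∫ t in (0:ℝ)..(1/4), sin ((k+1) * (8 * π) * t) * f n t := by
    rw [← intervalIntegral.integral_neg]
    apply intervalIntegral.integral_congr
    intro t ht
    rw [Set.uIcc_of_le (by norm_num)] at ht
    simp only
    have e1 : sin ((k+1) * (8 * π) * (1/4 - t)) = - sin ((k+1) * (8 * π) * t) := by
      have : ((k:ℝ)+1) * (8 * π) * (1/4 - t) = - ((k+1) * (8 * π) * t) + ((k+1 : ℕ) : ℤ) * (2 * π) := by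
        push_cast; ring
      rw [this, sin_add_int_mul_two_pi, sin_neg]
    have e2 : f n (1/4 - t) = f n t := by
      unfold f
      rw [q_of_le (by linarith [ht.1]), q_of_le (by linarith [ht.2])]
      congr 3
      rw [← abs_neg]; congr 1; ring
    rw [e1, e2]; ring
  linarith

lemma σ_inner (k l : ℕ) (h : k ≠ l) : inner ℝ (σ k) (σ l) = (0:ℝ) := by
  rw [inner_eq]
  have : ∫ t, (σ l : ℝ → ℝ) t * (σ k : ℝ → ℝ) t ∂μ = ∫ t, s l t * s k t ∂μ := by
    apply integral_congr_ae
    filter_upwards [σ_coe l, σ_coe k] with t h1 h2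
    rw [h1, h2]
  rw [this, int_s]
  have e1 : ∫ t in (0:ℝ)..(1/4), sin ((l+1) * (8 * π) * t) * s k t =
     ∫ t in (0:ℝ)..(1/4), ((1/2) * cos ((((l:ℤ) - k : ℤ) * (8*π)) * t) - (1/2) * cos ((((l:ℤ) + k + 2 : ℤ) * (8*π)) * t)) := by
    apply intervalIntegral.integral_congr
    intro t ht
    rw [Set.uIcc_of_le (by norm_num)] at ht
    simp only
    unfold s
    rw [Set.indicator_of_mem ht]
    push_cast
    have e1 : ((l:ℝ) - k) * (8*π) * t = (l+1) * (8*π) * t - (k+1) * (8*π) * t := by ring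
    have e2 : ((l:ℝ) + k + 2) * (8*π) * t = (l+1) * (8*π) * t + (k+1) * (8*π) * t := by ring
    rw [e1, e2, cos_sub, cos_add]; ring
  have e3 : ∀ m : ℤ, m ≠ 0 → ∫ t in (0:ℝ)..(1/4), cos ((m * (8*π)) * t) = 0 := by
    intro m hm
    have hk' : (m * (8 * π) : ℝ) ≠ 0 := mul_ne_zero (by exact_mod_cast hm) (by positivity)
    rw [intervalIntegral.integral_comp_mul_left (f := cos) hk']
    have : (m:ℝ) * (8 * π) * (1/4) = ((2*m : ℤ):ℝ) * π := by push_cast; ring
    rw [integral_cos, this, Real.sin_int_mul_pi]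
    simp
  rw [e1, intervalIntegral.integral_sub (by apply Continuous.intervalIntegrable; fun_prop)
    (by apply Continuous.intervalIntegrable; fun_prop),
    intervalIntegral.integral_const_mul, intervalIntegral.integral_const_mul, e3 _ (by omega), e3 _ (by omega)]
  simp

lemma σ_ne (k : ℕ) : σ k ≠ 0 := by
  intro h
  have h1 : inner ℝ (σ k) (σ k) = (0:ℝ) := by rw [h]; simp
  rw [inner_eq] at h1
  have : ∫ t, (σ k : ℝ → ℝ) t * (σ k : ℝ → ℝ) t ∂μ = ∫ t, s k t * s k t ∂μ := by
    apply integral_congr_ae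
    filter_upwards [σ_coe k] with t h1
    rw [h1]
  rw [this, int_s] at h1
  have e1 : ∫ t in (0:ℝ)..(1/4), sin ((k+1) * (8 * π) * t) * s k t =
     ∫ t in (0:ℝ)..(1/4), ((1/2) - (1/2) * cos ((((k:ℤ) + k + 2 : ℤ) * (8*π)) * t)) := by
    apply intervalIntegral.integral_congr
    intro t ht
    rw [Set.uIcc_of_le (by norm_num)] at ht
    simp only
    unfold s
    rw [Set.indicator_of_mem ht]
    push_cast
    have e2 : ((k:ℝ) + k + 2) * (8*π) * t = (k+1) * (8*π) * t + (k+1) * (8*π) * t := by ring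
    rw [e2, cos_add]
    have := sin_sq_add_cos_sq ((k+1) * (8*π) * t)
    nlinarith
  have e3 : ∀ m : ℤ, m ≠ 0 → ∫ t in (0:ℝ)..(1/4), cos ((m * (8*π)) * t) = 0 := by
    intro m hm
    have hk' : (m * (8 * π) : ℝ) ≠ 0 := mul_ne_zero (by exact_mod_cast hm) (by positivity)
    rw [intervalIntegral.integral_comp_mul_left (f := cos) hk']
    have : (m:ℝ) * (8 * π) * (1/4) = ((2*m : ℤ):ℝ) * π := by push_cast; ring
    rw [integral_cos, this, Real.sin_int_mul_pi]
    simp
  rw [e1, intervalIntegral.integral_sub (by simp)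
    (by apply Continuous.intervalIntegrable; fun_prop),
    intervalIntegral.integral_const_mul, e3 _ (by omega)] at h1
  norm_num at h1

lemma σ_li : LinearIndependent ℝ σ :=
  linearIndependent_of_ne_zero_of_inner_eq_zero σ_ne (fun k l h => σ_inner k l h)

lemma σ_mem (k : ℕ) : σ k ∈ Submodule.orthogonal (Submodule.span ℝ (Set.range φ)) := by
  rw [Submodule.mem_orthogonal]
  intro u hu
  induction hu using Submodule.span_induction with
  | mem x hx => obtain ⟨n, rfl⟩ := hx; exact σ_perp k n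
  | zero => simp
  | add x y _ _ hx hy => rw [inner_add_left, hx, hy, add_zero]
  | smul a x _ hx => rw [inner_smul_left, hx, mul_zero]

theorem main :
    ¬ (∀ (M : ℝ) (φ : ℕ → MeasureTheory.Lp ℝ 2 (volume.restrict (Set.Icc (0:ℝ) 1))),
      Orthonormal ℝ φ →
      (∀ n, ∀ᵐ x ∂(volume.restrict (Set.Icc (0:ℝ) 1)), |(φ n : ℝ → ℝ) x| ≤ M) →
      ¬ FiniteDimensional ℝ (Submodule.orthogonal (Submodule.span ℝ (Set.range φ))) →
      ∃ ψ : ℕ → MeasureTheory.Lp ℝ 2 (volume.restrict (Set.Icc (0:ℝ) 1)),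
        (∀ k, ∀ᵐ x ∂(volume.restrict (Set.Icc (0:ℝ) 1)), |(ψ k : ℝ → ℝ) x| ≤ M) ∧
        Orthonormal ℝ (Sum.elim φ ψ) ∧
        (Submodule.span ℝ (Set.range (Sum.elim φ ψ))).topologicalClosure = ⊤) := by
  intro H
  have hA : ∀ n, ∀ᵐ x ∂(volume.restrict (Set.Icc (0:ℝ) 1)), |(φ n : ℝ → ℝ) x| ≤ √2 := by
    intro n
    filter_upwards [φ_coe n] with t ht
    rw [ht]; exact f_abs n t
  have hB : ¬ FiniteDimensional ℝ (Submodule.orthogonal (Submodule.span ℝ (Set.range φ))) := by
    intro hfd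
    have hli : LinearIndependent ℝ (fun k : ℕ => (⟨σ k, σ_mem k⟩ : Submodule.orthogonal (Submodule.span ℝ (Set.range φ)))) := by
      have h1 := σ_li
      exact LinearIndependent.of_comp (Submodule.subtype _) (by simpa [Function.comp_def] using h1)
    exact (LinearIndependent.finite_of_isNoetherian hli).false
  obtain ⟨ψ, hb, ho, -⟩ := H √2 φ φ_orth hA hB
  · -- contradiction with ψ 0
    set g : Lp ℝ 2 μ := ψ 0 with hgdef
    have hgn : ‖g‖ = 1 := by
      have := ho.1 (Sum.inr 0); simpa using this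
    have hperp : ∀ n, inner ℝ (φ n) g = (0:ℝ) := by
      intro n
      have := ho.2 (show (Sum.inl n : ℕ ⊕ ℕ) ≠ Sum.inr 0 by simp)
      simpa using this
    have hmem : MemLp (g : ℝ → ℝ) 2 μ := Lp.memLp g
    have hint : Integrable (g : ℝ → ℝ) μ := hmem.integrable (by norm_num)
    have h0 : ∀ n : ℕ, ∫ t, (g : ℝ → ℝ) t * cos (n * π * q t) ∂μ = 0 := by
      intro n
      have h1 := hperp n
      rw [inner_eq] at h1
      have : ∫ t, (g : ℝ → ℝ) t * (φ n : ℝ → ℝ) t ∂μ = ∫ t, c n * ((g : ℝ → ℝ) t * cos (n * π * q t)) ∂μ := by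
        apply integral_congr_ae
        filter_upwards [φ_coe n] with t h1
        rw [h1]; unfold f; ring
      rw [this, integral_const_mul] at h1
      exact (mul_eq_zero.1 h1).resolve_left (c_pos n).ne'
    have hz := zero_on g hint h0
    have hz' : ∀ᵐ t ∂μ, t ∈ Set.Ioo (1/4:ℝ) 1 → (g : ℝ → ℝ) t = 0 := ae_restrict_of_ae hz
    have hne1 : ∀ᵐ t ∂μ, t ≠ 1 := ae_restrict_of_ae (by
      have : (volume : Measure ℝ) {(1:ℝ)} = 0 := by simp
      exact (measure_eq_zero_iff_ae_notMem.1 this).mono (fun t ht => by simpa using ht))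
    have hin : ∀ᵐ t ∂μ, t ∈ Set.Icc (0:ℝ) 1 := ae_restrict_mem measurableSet_Icc
    have hsq : ∫ t, (g : ℝ → ℝ) t * (g : ℝ → ℝ) t ∂μ = 1 := by
      rw [← inner_eq, real_inner_self_eq_norm_sq, hgn]; norm_num
    have hle : ∫ t, (g : ℝ → ℝ) t * (g : ℝ → ℝ) t ∂μ ≤ ∫ t, Set.indicator (Set.Icc (0:ℝ) (1/4)) (fun _ => (2:ℝ)) t ∂μ := by
      apply integral_mono_ae
      · exact hmem.integrable_mul hmem
      · exact (integrable_const (2:ℝ)).indicator measurableSet_Icc
      · filter_upwards [hz', hne1, hin, hb 0] with t h1 h2 h3 h4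
        rw [Set.indicator_apply]
        split_ifs with h5
        · have := Real.sq_sqrt (show (0:ℝ) ≤ 2 by norm_num)
          have h6 : |(g : ℝ → ℝ) t| ^ 2 ≤ √2 ^ 2 := pow_le_pow_left₀ (abs_nonneg _) h4 2
          rw [sq_abs] at h6
          nlinarith
        · have : (g : ℝ → ℝ) t = 0 := by
            apply h1
            refine ⟨?_, lt_of_le_of_ne h3.2 h2⟩
            by_contra hc
            exact h5 ⟨h3.1, not_lt.1 hc⟩
          rw [this]; simp
    rw [hsq, integral_indicator measurableSet_Icc, Measure.restrict_restrict measurableSet_Icc] at hle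
    have hIcc : Set.Icc (0:ℝ) (1/4) ∩ Set.Icc 0 1 = Set.Icc 0 (1/4) := by
      rw [Set.inter_eq_left]
      exact fun x hx => ⟨hx.1, by linarith [hx.2]⟩
    rw [hIcc] at hle
    norm_num at hle
end Pool.Agent.BddCompl
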