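import Mathlib
set_option autoImplicit false
set_option maxHeartbeats 4000000

open MeasureTheory Filter

namespace Pool.Agent.CoinBC

/-- the fair coin -/
noncomputable abbrev coin : Measure Bool := (PMF.uniformOfFintype Bool).toMeasure

lemma coin_singleton (b : Bool) : coin {b} = 2⁻¹ := by
  unfold coin
  rw [PMF.toMeasure_apply_singleton _ _ (MeasurableSet.singleton b)]
  simp

/-- Borel–Cantelli for fair coins: infinitely many of the disjoint blocks `F m` (of bounded size)
show the prescribed pattern. -/
theorem io_pattern {ι : Type} (F : ℕ → Finset ι) (k : ℕ)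
    (hk : ∀ m, (F m).card ≤ k) (hdisj : ∀ m m', m ≠ m' → Disjoint (F m) (F m')) (P : ι → Bool) :
    ∀ᵐ f ∂(Measure.infinitePi (fun _ : ι => coin)), ∀ N, ∃ m, N ≤ m ∧ ∀ i ∈ F m, f i = P i := by
  classical
  set μ := Measure.infinitePi (fun _ : ι => coin) with hμ
  let s : ℕ → Set (ι → Bool) := fun m => Set.pi (F m : Set ι) (fun i => {P i})
  have hsm : ∀ m, MeasurableSet (s m) := by
    intro m
    exact MeasurableSet.pi (Finset.countable_toSet _) (fun i _ => MeasurableSet.singleton _)
  have hmeas : ∀ T : Finset ι, μ (Set.pi (T : Set ι) (fun i => {P i})) = (2⁻¹ : ENNReal) ^ T.card := by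
    intro T
    rw [hμ, Measure.infinitePi_pi _ (fun i _ => MeasurableSet.singleton _)]
    simp only [coin_singleton, Finset.prod_const]
  have hind : ProbabilityTheory.iIndepSet s μ := by
    rw [ProbabilityTheory.iIndepSet_iff_meas_biInter hsm]
    intro S
    have h1 : (⋂ i ∈ S, s i) = Set.pi ((S.biUnion F : Finset ι) : Set ι) (fun i => {P i}) := by
      ext f
      simp only [s, Set.mem_iInter, Set.mem_pi, Finset.mem_coe, Finset.mem_biUnion,
        Set.mem_singleton_iff]
      constructor
      · rintro h i ⟨m, hm, hi⟩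
        exact h m hm i hi
      · intro h m hm i hi
        exact h i ⟨m, hm, hi⟩
    rw [h1, hmeas, Finset.card_biUnion (fun m _ m' _ h => hdisj m m' h)]
    simp only [s, hmeas, Finset.prod_pow_eq_pow_sum]
  have hsum : (∑' m, μ (s m)) = ⊤ := by
    have hge : ∀ m, (2⁻¹ : ENNReal) ^ k ≤ μ (s m) := by
      intro m
      simp only [s, hmeas]
      exact pow_le_pow_of_le_one (by simp) (by simp) (hk m)
    have h2 : (∑' _m : ℕ, (2⁻¹ : ENNReal) ^ k) = ⊤ := by
      rw [ENNReal.tsum_const_eq_top_of_ne_zero]
      simp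
    rw [eq_top_iff, ← h2]
    exact ENNReal.tsum_le_tsum hge
  have hlim := ProbabilityTheory.measure_limsup_eq_one hsm hind hsum
  have : IsProbabilityMeasure μ := by rw [hμ]; infer_instance
  have hae : ∀ᵐ f ∂μ, f ∈ limsup s atTop := by
    rw [← prob_compl_eq_zero_iff (MeasurableSet.measurableSet_limsup hsm)] at hlim
    exact hlim
  filter_upwards [hae] with f hf N
  rw [mem_limsup_iff_frequently_mem, frequently_atTop] at hf
  obtain ⟨m, hm, h⟩ := hf N
  refine ⟨m, hm, fun i hi => ?_⟩
  have := h i (by exact_mod_cast hi)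
  simpa using this

end Pool.Agent.CoinBC
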