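import Mathlib

set_option autoImplicit false

/-! A checked backtracking search for proper colourings of graphs on `0, …, n-1`. -/

namespace Pool.Agent.ColorSearch

/-- may vertex `i` get colour `c`, given the colours `cs` of the vertices `0, …, i-1`? -/
def okAt (adj : ℕ → ℕ → Bool) (i : ℕ) (cs : List ℕ) (c : ℕ) : Bool :=
  (List.range i).all (fun j => !(adj i j && (cs.getD j 0 == c)))

/-- is there an extension of `cs` to `r` more vertices? -/
def search (adj : ℕ → ℕ → Bool) (k : ℕ) : ℕ → ℕ → List ℕ → Bool
  | 0, _, _ => true
  | r + 1, i, cs => (List.range k).any (fun c => okAt adj i cs c && search adj k r (i + 1) (cs ++ [c]))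

lemma search_complete (adj : ℕ → ℕ → Bool) (k n : ℕ) (col : ℕ → ℕ) (hk : ∀ i < n, col i < k)
    (hc : ∀ i < n, ∀ j < i, adj i j = true → col i ≠ col j) :
    ∀ r i, i + r = n → search adj k r i ((List.range i).map col) = true := by
  intro r
  induction r with
  | zero => intro i _; rfl
  | succ r ih =>
    intro i hi
    rw [search, List.any_eq_true]
    refine ⟨col i, List.mem_range.2 (hk i (by omega)), ?_⟩
    rw [Bool.and_eq_true]
    constructor
    · rw [okAt, List.all_eq_true]
      intro j hj
      rw [List.mem_range] at hj
      by_cases h : adj i j = true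
      · have h1 := hc i (by omega) j hj h
        have h2 : ((List.range i).map col).getD j 0 = col j := by
          simp [List.getD_eq_getElem?_getD, hj]
        rw [h2]
        have : (col j == col i) = false := by
          rw [beq_eq_false_iff_ne]; exact fun h => h1 h.symm
        rw [this]; simp
      · rw [Bool.not_eq_true] at h
        rw [h]; simp
    · have := ih (i + 1) (by omega)
      rw [List.range_succ, List.map_append] at this
      exact this

/-- if the search fails there is no proper colouring -/
lemma not_colorable {n k : ℕ} (adj : ℕ → ℕ → Bool) (hs : search adj k n 0 [] = false)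
    (G : SimpleGraph (Fin n)) (hG : ∀ i j : Fin n, adj i.val j.val = true → G.Adj i j) :
    ¬ G.Colorable k := by
  rintro ⟨c⟩
  have := search_complete adj k n (fun i => if h : i < n then (c ⟨i, h⟩).val else 0)
    (by
      intro i hi
      simp only [hi, dite_true]
      exact (c ⟨i, hi⟩).isLt)
    (by
      intro i hi j hj hadj
      have hj' : j < n := by omega
      simp only [hi, hj', dite_true]
      intro h
      exact c.valid (hG ⟨i, hi⟩ ⟨j, hj'⟩ hadj) (Fin.ext h))
    n 0 (by omega)
  simp only [List.range_zero, List.map_nil] at this
  rw [hs] at this
  exact absurd this (by decide)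

/-- graph on `Fin n` given by a list of bit masks (assumed symmetric and irreflexive) -/
def adjM (M : List ℕ) (i j : ℕ) : Bool := (M.getD i 0).testBit j

end Pool.Agent.ColorSearch
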