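import Mathlib

set_option autoImplicit false
set_option maxHeartbeats 4000000
open MeasureTheory ProbabilityTheory Set
open scoped ENNReal

namespace Pool.Agent.EntPow
noncomputable section

def u : ℝ → ℝ≥0∞ := (Icc (0:ℝ) 1).indicator (fun _ => 1)
def v : ℝ → ℝ≥0∞ := (Icc (0:ℝ) 20).indicator (fun _ => ENNReal.ofReal (1/20))

lemma u_meas : Measurable u := measurable_const.indicator measurableSet_Icc
lemma v_meas : Measurable v := measurable_const.indicator measurableSet_Icc

def μu : Measure ℝ := volume.withDensity u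
def μv : Measure ℝ := volume.withDensity v

lemma lint_u : ∫⁻ x, u x = 1 := by
  rw [u, lintegral_indicator measurableSet_Icc]; simp

lemma lint_v : ∫⁻ x, v x = 1 := by
  rw [v, lintegral_indicator measurableSet_Icc, lintegral_const, Measure.restrict_apply MeasurableSet.univ,
    univ_inter, Real.volume_Icc, ← ENNReal.ofReal_mul (by norm_num)]
  norm_num

instance : IsProbabilityMeasure μu := ⟨by
  rw [μu, withDensity_apply _ MeasurableSet.univ, Measure.restrict_univ, lint_u]⟩
instance : IsProbabilityMeasure μv := ⟨by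
  rw [μv, withDensity_apply _ MeasurableSet.univ, Measure.restrict_univ, lint_v]⟩

def T (x : ℝ) : ℝ := (1/20) * max 0 (min 1 x - max 0 (x - 20))

lemma T_nonneg (x : ℝ) : 0 ≤ T x := by unfold T; positivity
lemma T_meas : Measurable T := by unfold T; fun_prop
lemma T_cont : Continuous T := by unfold T; fun_prop

lemma conv_uv : μu.conv μv = volume.withDensity (fun x => ENNReal.ofReal (T x)) := by
  rw [μu, μv, conv_withDensity_eq_lconvolution u_meas v_meas]
  congr 1
  ext x
  rw [lconvolution_def]
  have h1 : ∀ y, u y * v (-y + x) = (Icc (max 0 (x - 20)) (min 1 x)).indicator (fun _ => ENNReal.ofReal (1/20)) y := by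
    intro y
    unfold u v
    by_cases hy : y ∈ Icc (max 0 (x - 20)) (min 1 x)
    · rw [indicator_of_mem hy]
      simp only [mem_Icc, max_le_iff, le_min_iff] at hy
      rw [indicator_of_mem (by simp only [mem_Icc]; constructor <;> linarith [hy.1.1, hy.2.1]), one_mul,
        indicator_of_mem (by simp only [mem_Icc]; constructor <;> linarith [hy.1.2, hy.2.2])]
    · rw [indicator_of_notMem hy]
      simp only [mem_Icc, max_le_iff, le_min_iff, not_and_or, not_le] at hy
      by_cases h0 : y ∈ Icc (0:ℝ) 1
      · rw [indicator_of_notMem (s := Icc (0:ℝ) 20), mul_zero]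
        simp only [mem_Icc, not_and_or, not_le]
        simp only [mem_Icc] at h0
        rcases hy with (h | h) | (h | h)
        · linarith [h0.1]
        · right; linarith
        · linarith [h0.2]
        · left; linarith
      · rw [indicator_of_notMem h0, zero_mul]
  simp_rw [h1]
  rw [lintegral_indicator measurableSet_Icc, lintegral_const, Measure.restrict_apply MeasurableSet.univ,
    univ_inter, Real.volume_Icc]
  unfold T
  rw [ENNReal.ofReal_mul (by norm_num)]
  congr 1
  rcases le_total 0 (min 1 x - max 0 (x - 20)) with h | h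
  · rw [max_eq_right h]
  · rw [max_eq_left h, ENNReal.ofReal_of_nonpos h, ENNReal.ofReal_zero]

/-- density of sum of three -/
def f3 (x : ℝ) : ℝ≥0∞ := ∫⁻ y, ENNReal.ofReal (T y) * u (-y + x)

lemma conv_3 : (μu.conv μv).conv μu = volume.withDensity f3 := by
  rw [conv_uv, μu, conv_withDensity_eq_lconvolution T_meas.ennreal_ofReal u_meas]
  rfl

lemma f3_meas : Measurable f3 := by
  have : f3 = (fun x => ENNReal.ofReal (T x)) ⋆ₗ u := by
    ext x; rw [lconvolution_def]; rfl
  rw [this]
  exact measurable_lconvolution _ T_meas.ennreal_ofReal u_meas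

lemma T_le (y : ℝ) : T y ≤ 1/20 := by
  unfold T
  have h1 : min 1 y - max 0 (y - 20) ≤ 1 := by
    have := min_le_left 1 y
    have := le_max_left 0 (y - 20)
    linarith
  have : max 0 (min 1 y - max 0 (y - 20)) ≤ 1 := max_le zero_le_one h1
  linarith

lemma T_le_left (y : ℝ) (hy : 0 ≤ y) : T y ≤ y / 20 := by
  unfold T
  have h1 : min 1 y - max 0 (y - 20) ≤ y := by
    have := min_le_right 1 y
    have := le_max_left 0 (y - 20)
    linarith
  have : max 0 (min 1 y - max 0 (y - 20)) ≤ y := max_le hy h1
  linarith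

lemma T_le_right (y : ℝ) (hy : y ≤ 21) : T y ≤ (21 - y) / 20 := by
  unfold T
  have h1 : min 1 y - max 0 (y - 20) ≤ 21 - y := by
    have := min_le_left 1 y
    have := le_max_right 0 (y - 20)
    linarith
  have : max 0 (min 1 y - max 0 (y - 20)) ≤ 21 - y := max_le (by linarith) h1
  linarith

lemma T_neg (y : ℝ) (hy : y < 0) : T y = 0 := by
  unfold T
  have h1 : min 1 y - max 0 (y - 20) ≤ 0 := by
    have := min_le_right 1 y
    have := le_max_left 0 (y - 20)
    linarith
  rw [max_eq_left h1, mul_zero]

lemma T_big (y : ℝ) (hy : 21 < y) : T y = 0 := by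
  unfold T
  have h1 : min 1 y - max 0 (y - 20) ≤ 0 := by
    have := min_le_left 1 y
    have := le_max_right 0 (y - 20)
    linarith
  rw [max_eq_left h1, mul_zero]

lemma f3_le (x : ℝ) : f3 x ≤ ENNReal.ofReal (1/20) := by
  calc f3 x ≤ ∫⁻ y, ENNReal.ofReal (1/20) * u (-y + x) := by
        apply lintegral_mono; intro y
        exact mul_le_mul_left (ENNReal.ofReal_le_ofReal (T_le y)) _
    _ = ENNReal.ofReal (1/20) * ∫⁻ y, u (-y + x) := by
        rw [lintegral_const_mul]
        exact u_meas.comp (by fun_prop)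
    _ = ENNReal.ofReal (1/20) := by
        have h1 : ∫⁻ y, u (-y + x) = 1 := by
          have : ∀ y, u (-y + x) = u (x - y) := fun y => by ring_nf
          simp_rw [this]
          rw [lintegral_sub_left_eq_self u x, lint_u]
        rw [h1, mul_one]

lemma f3_left (x : ℝ) (hx : 0 ≤ x) : f3 x ≤ ENNReal.ofReal (x^2/40) := by
  have h1 : ∀ y, ENNReal.ofReal (T y) * u (-y + x) ≤ (Icc 0 x).indicator (fun y => ENNReal.ofReal (y/20)) y := by
    intro y
    by_cases hy : y ∈ Icc 0 x
    · rw [indicator_of_mem hy]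
      have h2 : u (-y + x) ≤ 1 := by
        unfold u
        exact indicator_le_self' (fun _ _ => bot_le) _
      calc ENNReal.ofReal (T y) * u (-y + x) ≤ ENNReal.ofReal (y/20) * 1 :=
            mul_le_mul' (ENNReal.ofReal_le_ofReal (T_le_left y hy.1)) h2
        _ = _ := mul_one _
    · rw [indicator_of_notMem hy]
      simp only [mem_Icc, not_and_or, not_le] at hy
      rcases hy with h | h
      · rw [T_neg y h]; simp
      · have : u (-y + x) = 0 := by
          unfold u
          rw [indicator_of_notMem]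
          simp only [mem_Icc, not_and_or, not_le]
          left; linarith
        rw [this, mul_zero]
  calc f3 x ≤ ∫⁻ y, (Icc 0 x).indicator (fun y => ENNReal.ofReal (y/20)) y := lintegral_mono h1
    _ = ∫⁻ y in Icc 0 x, ENNReal.ofReal (y/20) := lintegral_indicator measurableSet_Icc _
    _ = ENNReal.ofReal (∫ y in Icc 0 x, y/20) := by
        rw [← ofReal_integral_eq_lintegral_ofReal]
        · exact (Continuous.integrableOn_Icc (by fun_prop))
        · filter_upwards [ae_restrict_mem measurableSet_Icc] with y hy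
          have := hy.1
          simp only [Pi.zero_apply]
          positivity
    _ = _ := by
        congr 1
        rw [integral_Icc_eq_integral_Ioc, ← intervalIntegral.integral_of_le hx]
        rw [intervalIntegral.integral_div, integral_id]
        ring

lemma f3_right (x : ℝ) (hx : x ≤ 22) : f3 x ≤ ENNReal.ofReal ((22 - x)^2/40) := by
  have h1 : ∀ y, ENNReal.ofReal (T y) * u (-y + x) ≤ (Icc (x-1) 21).indicator (fun y => ENNReal.ofReal ((21-y)/20)) y := by
    intro y
    by_cases hy : y ∈ Icc (x-1) 21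
    · rw [indicator_of_mem hy]
      have h2 : u (-y + x) ≤ 1 := by
        unfold u
        exact indicator_le_self' (fun _ _ => bot_le) _
      calc ENNReal.ofReal (T y) * u (-y + x) ≤ ENNReal.ofReal ((21-y)/20) * 1 :=
            mul_le_mul' (ENNReal.ofReal_le_ofReal (T_le_right y hy.2)) h2
        _ = _ := mul_one _
    · rw [indicator_of_notMem hy]
      simp only [mem_Icc, not_and_or, not_le] at hy
      rcases hy with h | h
      · have : u (-y + x) = 0 := by
          unfold u
          rw [indicator_of_notMem]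
          simp only [mem_Icc, not_and_or, not_le]
          right; linarith
        rw [this, mul_zero]
      · rw [T_big y h]; simp
  calc f3 x ≤ ∫⁻ y, (Icc (x-1) 21).indicator (fun y => ENNReal.ofReal ((21-y)/20)) y := lintegral_mono h1
    _ = ∫⁻ y in Icc (x-1) 21, ENNReal.ofReal ((21-y)/20) := lintegral_indicator measurableSet_Icc _
    _ = ENNReal.ofReal (∫ y in Icc (x-1) 21, (21-y)/20) := by
        rw [← ofReal_integral_eq_lintegral_ofReal]
        · exact (Continuous.integrableOn_Icc (by fun_prop))
        · filter_upwards [ae_restrict_mem measurableSet_Icc] with y hy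
          have := hy.2
          simp only [Pi.zero_apply]
          have : 0 ≤ 21 - y := by linarith
          positivity
    _ = _ := by
        congr 1
        rw [integral_Icc_eq_integral_Ioc, ← intervalIntegral.integral_of_le (by linarith)]
        rw [intervalIntegral.integral_div, intervalIntegral.integral_sub (by simp) (by simp), integral_id,
          intervalIntegral.integral_const, smul_eq_mul]
        ring

lemma f3_neg (x : ℝ) (hx : x < 0) : f3 x = 0 := by
  unfold f3
  rw [lintegral_eq_zero_iff]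
  · filter_upwards with y
    simp only [Pi.zero_apply, mul_eq_zero]
    by_cases h : y < 0
    · left; rw [T_neg y h]; simp
    · right
      unfold u
      rw [indicator_of_notMem]
      simp only [mem_Icc, not_and_or, not_le]
      left; linarith
  · exact T_meas.ennreal_ofReal.mul (u_meas.comp (by fun_prop))

lemma f3_big (x : ℝ) (hx : 22 < x) : f3 x = 0 := by
  unfold f3
  rw [lintegral_eq_zero_iff]
  · filter_upwards with y
    simp only [Pi.zero_apply, mul_eq_zero]
    by_cases h : 21 < y
    · left; rw [T_big y h]; simp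
    · right
      unfold u
      rw [indicator_of_notMem]
      simp only [mem_Icc, not_and_or, not_le]
      right; linarith
  · exact T_meas.ennreal_ofReal.mul (u_meas.comp (by fun_prop))

def F3 (x : ℝ) : ℝ := (f3 x).toReal

lemma F3_meas : Measurable F3 := f3_meas.ennreal_toReal
lemma F3_nonneg (x : ℝ) : 0 ≤ F3 x := ENNReal.toReal_nonneg
lemma f3_ne (x : ℝ) : f3 x ≠ ⊤ := ((f3_le x).trans_lt ENNReal.ofReal_lt_top).ne
lemma ofReal_F3 (x : ℝ) : ENNReal.ofReal (F3 x) = f3 x := ENNReal.ofReal_toReal (f3_ne x)
lemma F3_le (x : ℝ) : F3 x ≤ 1/20 := by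
  have := ENNReal.toReal_mono ENNReal.ofReal_ne_top (f3_le x)
  rwa [ENNReal.toReal_ofReal (by norm_num)] at this
lemma F3_left (x : ℝ) (hx : 0 ≤ x) : F3 x ≤ x^2/40 := by
  have := ENNReal.toReal_mono ENNReal.ofReal_ne_top (f3_left x hx)
  rwa [ENNReal.toReal_ofReal (by positivity)] at this
lemma F3_right (x : ℝ) (hx : x ≤ 22) : F3 x ≤ (22-x)^2/40 := by
  have := ENNReal.toReal_mono ENNReal.ofReal_ne_top (f3_right x hx)
  rwa [ENNReal.toReal_ofReal (by positivity)] at this
lemma F3_out (x : ℝ) (hx : x ∉ Icc (0:ℝ) 22) : F3 x = 0 := by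
  unfold F3
  simp only [mem_Icc, not_and_or, not_le] at hx
  rcases hx with h | h
  · rw [f3_neg x h]; rfl
  · rw [f3_big x h]; rfl

lemma lint_f3 : ∫⁻ x, f3 x = 1 := by
  have h : ((μu.conv μv).conv μu) univ = 1 := measure_univ
  rw [conv_3, withDensity_apply _ MeasurableSet.univ, Measure.restrict_univ] at h
  exact h

lemma F3_int : Integrable F3 := by
  refine ⟨F3_meas.aestronglyMeasurable, ?_⟩
  rw [hasFiniteIntegral_iff_ofReal (Filter.Eventually.of_forall F3_nonneg)]
  simp_rw [ofReal_F3]
  rw [lint_f3]; exact ENNReal.one_lt_top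

lemma int_F3 : ∫ x, F3 x = 1 := by
  rw [integral_eq_lintegral_of_nonneg_ae (Filter.Eventually.of_forall F3_nonneg) F3_meas.aestronglyMeasurable]
  simp_rw [ofReal_F3]
  rw [lint_f3]; rfl


/-! ### entropies -/

lemma ent_pdf {Ω : Type} [MeasurableSpace Ω] (P : Measure Ω) [IsProbabilityMeasure P] (Y : Ω → ℝ)
    (F : ℝ → ℝ) (hF : Measurable F) (h0 : ∀ x, 0 ≤ F x)
    (h : P.map Y = volume.withDensity (fun x => ENNReal.ofReal (F x))) :
    (fun x => (pdf Y P volume x).toReal) =ᵐ[volume] F := by
  have h1 : pdf Y P volume =ᵐ[volume] (fun x => ENNReal.ofReal (F x)) := by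
    rw [pdf_def, h]
    exact Measure.rnDeriv_withDensity volume hF.ennreal_ofReal
  filter_upwards [h1] with x hx
  rw [hx, ENNReal.toReal_ofReal (h0 x)]

lemma bound_negMulLog (x : ℝ) (h0 : 0 ≤ x) (h1 : x ≤ 1) : |x * Real.log x| ≤ 1 := by
  rcases h0.eq_or_lt with h | h
  · rw [← h]; simp
  · have h2 : Real.log x ≤ 0 := Real.log_nonpos h0 h1
    have h3 := Real.one_sub_inv_le_log_of_pos h
    rw [abs_mul, abs_of_pos h, abs_of_nonpos h2]
    have h4 : x * (-Real.log x) ≤ x * (x⁻¹ - 1) := mul_le_mul_of_nonneg_left (by linarith) h.le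
    have h5 : x * (x⁻¹ - 1) = 1 - x := by field_simp
    linarith

lemma int_log (F : ℝ → ℝ) (hF : Measurable F) (h0 : ∀ x, 0 ≤ F x) (h1 : ∀ x, F x ≤ 1) (a b : ℝ)
    (hout : ∀ x, x ∉ Icc a b → F x = 0) : Integrable (fun x => F x * Real.log (F x)) := by
  have h2 : (fun x => F x * Real.log (F x)) = (Icc a b).indicator (fun x => F x * Real.log (F x)) := by
    ext x
    by_cases hx : x ∈ Icc a b
    · rw [indicator_of_mem hx]
    · rw [indicator_of_notMem hx, hout x hx, zero_mul]
  rw [h2, integrable_indicator_iff measurableSet_Icc]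
  refine Measure.integrableOn_of_bounded (M := 1) (by simp) ?_ ?_
  · exact (hF.mul (Real.measurable_log.comp hF)).aestronglyMeasurable
  · filter_upwards with x
    exact bound_negMulLog _ (h0 x) (h1 x)

def V (x : ℝ) : ℝ := (Icc (0:ℝ) 20).indicator (fun _ => (1/20:ℝ)) x

lemma V_meas : Measurable V := measurable_const.indicator measurableSet_Icc
lemma V_nonneg (x : ℝ) : 0 ≤ V x := by unfold V; exact indicator_nonneg (fun _ _ => by norm_num) _
lemma V_le (x : ℝ) : V x ≤ 1 := by
  unfold V; exact indicator_le' (fun _ _ => by norm_num) (fun _ _ => zero_le_one) x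
lemma V_out (x : ℝ) (hx : x ∉ Icc (0:ℝ) 20) : V x = 0 := by unfold V; exact indicator_of_notMem hx _
lemma V_eq : μv = volume.withDensity (fun x => ENNReal.ofReal (V x)) := by
  rw [μv]; congr 1; ext x
  unfold v V
  by_cases hx : x ∈ Icc (0:ℝ) 20
  · rw [indicator_of_mem hx, indicator_of_mem hx]
  · rw [indicator_of_notMem hx, indicator_of_notMem hx, ENNReal.ofReal_zero]

lemma ent_V : ∫ x, V x * Real.log (V x) = - Real.log 20 := by
  have h1 : ∀ x, V x * Real.log (V x) = (Icc (0:ℝ) 20).indicator (fun _ => (1/20) * Real.log (1/20)) x := by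
    intro x
    by_cases hx : x ∈ Icc (0:ℝ) 20
    · unfold V; rw [indicator_of_mem hx, indicator_of_mem hx]
    · rw [V_out x hx, indicator_of_notMem hx, zero_mul]
  simp_rw [h1]
  rw [integral_indicator measurableSet_Icc, setIntegral_const, Measure.real, Real.volume_Icc, smul_eq_mul,
    ENNReal.toReal_ofReal (by norm_num), one_div, Real.log_inv]
  ring

lemma T_out (x : ℝ) (hx : x ∉ Icc (0:ℝ) 21) : T x = 0 := by
  simp only [mem_Icc, not_and_or, not_le] at hx
  rcases hx with h | h
  · exact T_neg x h
  · exact T_big x h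

lemma T_1 (x : ℝ) (h0 : 0 ≤ x) (h1 : x ≤ 1) : T x = x / 20 := by
  unfold T
  rw [min_eq_right h1, max_eq_left (by linarith : x - 20 ≤ 0), sub_zero, max_eq_right h0]; ring
lemma T_2 (x : ℝ) (h0 : 1 ≤ x) (h1 : x ≤ 20) : T x = 1 / 20 := by
  unfold T
  rw [min_eq_left h0, max_eq_left (by linarith : x - 20 ≤ 0), sub_zero, max_eq_right zero_le_one]; ring
lemma T_3 (x : ℝ) (h0 : 20 ≤ x) (h1 : x ≤ 21) : T x = (21 - x) / 20 := by
  unfold T
  rw [min_eq_left (by linarith), max_eq_right (by linarith : 0 ≤ x - 20), max_eq_right (by linarith)]; ring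

lemma int_xlogx : ∫ x in (0:ℝ)..1, x * Real.log x = -1/4 := by
  have hd : ∀ x ∈ Ioo (0:ℝ) 1, HasDerivAt (fun x : ℝ => (x/2) * (x * Real.log x) - x^2/4) (x * Real.log x) x := by
    intro x hx
    have h1 : HasDerivAt (fun x : ℝ => x / 2) (1/2) x := (hasDerivAt_id x).div_const 2
    have h2 : HasDerivAt (fun x : ℝ => x * Real.log x) (1 * Real.log x + x * x⁻¹) x :=
      (hasDerivAt_id x).mul (Real.hasDerivAt_log hx.1.ne')
    have h3 : HasDerivAt (fun x : ℝ => x^2/4) ((2 * x)/4) x := by
      have := (hasDerivAt_pow 2 x).div_const 4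
      simpa using this
    have h4 := (h1.mul h2).sub h3
    have hx0 : x ≠ 0 := hx.1.ne'
    have e1 : x * Real.log x = 1/2 * (x * Real.log x) + x/2 * (1 * Real.log x + x * x⁻¹) - 2 * x / 4 := by
      rw [mul_inv_cancel₀ hx0]; ring
    rw [e1]
    exact h4
  have hc : Continuous (fun x : ℝ => (x/2) * (x * Real.log x) - x^2/4) := by
    have := Real.continuous_mul_log
    fun_prop
  have hi : IntervalIntegrable (fun x : ℝ => x * Real.log x) volume 0 1 := Real.continuous_mul_log.intervalIntegrable _ _
  rw [intervalIntegral.integral_eq_sub_of_hasDerivAt_of_le zero_le_one hc.continuousOn hd hi]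
  norm_num

lemma ent_T : ∫ x, T x * Real.log (T x) = - (Real.log 20 + 1/40) := by
  have hcont : Continuous (fun x => T x * Real.log (T x)) := Real.continuous_mul_log.comp T_cont
  have h1 : ∫ x, T x * Real.log (T x) = ∫ x in Icc (0:ℝ) 21, T x * Real.log (T x) := by
    rw [← integral_indicator measurableSet_Icc]
    congr 1; ext x
    by_cases hx : x ∈ Icc (0:ℝ) 21
    · rw [indicator_of_mem hx]
    · rw [indicator_of_notMem hx, T_out x hx, zero_mul]
  rw [h1, integral_Icc_eq_integral_Ioc, ← intervalIntegral.integral_of_le (by norm_num)]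
  have hI : ∀ a b : ℝ, IntervalIntegrable (fun x => T x * Real.log (T x)) volume a b := fun a b => hcont.intervalIntegrable _ _
  rw [← intervalIntegral.integral_add_adjacent_intervals (hI 0 20) (hI 20 21),
    ← intervalIntegral.integral_add_adjacent_intervals (hI 0 1) (hI 1 20)]
  have e1 : ∫ x in (0:ℝ)..1, T x * Real.log (T x) = -(1/80) - (1/40) * Real.log 20 := by
    have : ∫ x in (0:ℝ)..1, T x * Real.log (T x) = ∫ x in (0:ℝ)..1, ((1/20) * (x * Real.log x) - (Real.log 20/20) * x) := by
      apply intervalIntegral.integral_congr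
      intro x hx
      rw [uIcc_of_le zero_le_one] at hx
      simp only
      rw [T_1 x hx.1 hx.2]
      rcases hx.1.eq_or_lt with h | h
      · rw [← h]; simp
      · rw [Real.log_div h.ne' (by norm_num)]; ring
    rw [this, intervalIntegral.integral_sub, intervalIntegral.integral_const_mul, intervalIntegral.integral_const_mul, int_xlogx, integral_id]
    · ring
    · exact (Real.continuous_mul_log.const_mul _).intervalIntegrable _ _ 
    · exact (continuous_const.mul continuous_id).intervalIntegrable _ _
  have e2 : ∫ x in (1:ℝ)..20, T x * Real.log (T x) = -(19/20) * Real.log 20 := by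
    have : ∫ x in (1:ℝ)..20, T x * Real.log (T x) = ∫ x in (1:ℝ)..20, (1/20) * Real.log (1/20) := by
      apply intervalIntegral.integral_congr
      intro x hx
      rw [uIcc_of_le (by norm_num)] at hx
      simp only
      rw [T_2 x hx.1 hx.2]
    rw [this, intervalIntegral.integral_const, smul_eq_mul, one_div, Real.log_inv]
    ring
  have e3 : ∫ x in (20:ℝ)..21, T x * Real.log (T x) = -(1/80) - (1/40) * Real.log 20 := by
    have h2 : ∫ x in (20:ℝ)..21, T x * Real.log (T x) = ∫ x in (20:ℝ)..21, T (21 - x) * Real.log (T (21 - x)) := by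
      apply intervalIntegral.integral_congr
      intro x hx
      rw [uIcc_of_le (by norm_num)] at hx
      simp only
      rw [T_3 x hx.1 hx.2, T_1 (21 - x) (by linarith [hx.2]) (by linarith [hx.1])]
    rw [h2, intervalIntegral.integral_comp_sub_left (fun x => T x * Real.log (T x)) 21]
    norm_num only
    rw [e1]
  rw [e1, e2, e3]; ring

/-- Gibbs pointwise -/
lemma gibbs (f g : ℝ) (hf : 0 ≤ f) (hg : 0 < g) : -(f * Real.log f) ≤ -(f * Real.log g) + g - f := by
  rcases hf.eq_or_lt with h | h
  · rw [← h]; simp; exact hg.le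
  · have h1 := Real.log_le_sub_one_of_pos (div_pos hg h)
    rw [Real.log_div hg.ne' h.ne'] at h1
    have h2 := mul_le_mul_of_nonneg_left h1 h.le
    have h3 : f * (g / f - 1) = g - f := by field_simp
    rw [h3] at h2
    nlinarith

lemma ent_F3 : -∫ x, F3 x * Real.log (F3 x) ≤ Real.log 20 + (1/60) * Real.log 6 + (1/10) * Real.log (6/5) := by
  have hint := int_log F3 F3_meas F3_nonneg (fun x => (F3_le x).trans (by norm_num)) 0 22 F3_out
  have h1 : ∫ x, F3 x * Real.log (F3 x) = ∫ x in Icc (0:ℝ) 22, F3 x * Real.log (F3 x) := by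
    rw [← integral_indicator measurableSet_Icc]
    congr 1; ext x
    by_cases hx : x ∈ Icc (0:ℝ) 22
    · rw [indicator_of_mem hx]
    · rw [indicator_of_notMem hx, F3_out x hx, zero_mul]
  have h1' : ∫ x, F3 x = ∫ x in Icc (0:ℝ) 22, F3 x := by
    rw [← integral_indicator measurableSet_Icc]
    congr 1; ext x
    by_cases hx : x ∈ Icc (0:ℝ) 22
    · rw [indicator_of_mem hx]
    · rw [indicator_of_notMem hx, F3_out x hx]
  rw [int_F3] at h1'
  rw [integral_Icc_eq_integral_Ioc, ← intervalIntegral.integral_of_le (by norm_num)] at h1 h1'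
  have hI : ∀ a b : ℝ, IntervalIntegrable (fun x => F3 x * Real.log (F3 x)) volume a b := fun a b => hint.intervalIntegrable
  have hJ : ∀ a b : ℝ, IntervalIntegrable F3 volume a b := fun a b => F3_int.intervalIntegrable
  have hl6 : 0 ≤ Real.log 6 := Real.log_nonneg (by norm_num)
  have hl65 : 0 ≤ Real.log (6/5) := Real.log_nonneg (by norm_num)
  -- piece bound
  have piece : ∀ (a b c : ℝ) (B : ℝ → ℝ) (hB : Continuous B) (hc : 1 ≤ c) (hab : a ≤ b)
      (hFB : ∀ x ∈ Icc a b, F3 x ≤ B x),
      -∫ x in a..b, F3 x * Real.log (F3 x) ≤ (Real.log 20 - 1) * (∫ x in a..b, F3 x)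
        + Real.log c * (∫ x in a..b, B x) + (b - a) * (1/(20*c)) := by
    intro a b c B hB hc hab hFB
    have hlc : 0 ≤ Real.log c := Real.log_nonneg hc
    rw [← intervalIntegral.integral_neg]
    have h2 : ∫ x in a..b, -(F3 x * Real.log (F3 x)) ≤ ∫ x in a..b, ((Real.log 20 - 1) * F3 x + Real.log c * B x + 1/(20*c)) := by
      apply intervalIntegral.integral_mono_on hab (hI a b).neg
      · exact (((hJ a b).const_mul _).add ((hB.intervalIntegrable a b).const_mul _)).add (intervalIntegrable_const)
      · intro x hx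
        change -(F3 x * Real.log (F3 x)) ≤ _
        have h3 := gibbs (F3 x) (1/(20*c)) (F3_nonneg x) (by positivity)
        have h4 : Real.log (1/(20*c)) = -(Real.log 20 + Real.log c) := by
          rw [one_div, Real.log_inv, Real.log_mul (by norm_num) (by linarith)]
        rw [h4] at h3
        have h5 := mul_le_mul_of_nonneg_left (hFB x hx) hlc
        nlinarith
    refine h2.trans (le_of_eq ?_)
    rw [intervalIntegral.integral_add, intervalIntegral.integral_add, intervalIntegral.integral_const_mul,
      intervalIntegral.integral_const_mul, intervalIntegral.integral_const, smul_eq_mul]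
    · exact (hJ a b).const_mul _
    · exact (hB.intervalIntegrable a b).const_mul _
    · exact ((hJ a b).const_mul _).add ((hB.intervalIntegrable a b).const_mul _)
    · exact intervalIntegrable_const
  have p1 := piece 0 1 6 (fun x => x^2/40) (by fun_prop) (by norm_num) (by norm_num) (fun x hx => F3_left x hx.1)
  have p2 := piece 1 2 (6/5) (fun x => 1/20) (by fun_prop) (by norm_num) (by norm_num) (fun x hx => F3_le x)
  have p3 := piece 2 20 1 (fun x => 1/20) (by fun_prop) (by norm_num) (by norm_num) (fun x hx => F3_le x)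
  have p4 := piece 20 21 (6/5) (fun x => 1/20) (by fun_prop) (by norm_num) (by norm_num) (fun x hx => F3_le x)
  have p5 := piece 21 22 6 (fun x => (22-x)^2/40) (by fun_prop) (by norm_num) (by norm_num) (fun x hx => F3_right x hx.2)
  have i1 : ∫ x in (0:ℝ)..1, x^2/40 = 1/120 := by
    rw [intervalIntegral.integral_div, integral_pow]; norm_num
  have i5 : ∫ x in (21:ℝ)..22, (22-x)^2/40 = 1/120 := by
    rw [intervalIntegral.integral_comp_sub_left (fun x => x^2/40) 22]
    norm_num only
    rw [intervalIntegral.integral_div, integral_pow]; norm_num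
  rw [i1] at p1
  rw [i5] at p5
  rw [intervalIntegral.integral_const, smul_eq_mul] at p2 p3 p4
  rw [Real.log_one] at p3
  rw [← intervalIntegral.integral_add_adjacent_intervals (hI 0 21) (hI 21 22),
    ← intervalIntegral.integral_add_adjacent_intervals (hI 0 20) (hI 20 21),
    ← intervalIntegral.integral_add_adjacent_intervals (hI 0 2) (hI 2 20),
    ← intervalIntegral.integral_add_adjacent_intervals (hI 0 1) (hI 1 2)] at h1
  rw [← intervalIntegral.integral_add_adjacent_intervals (hJ 0 21) (hJ 21 22),
    ← intervalIntegral.integral_add_adjacent_intervals (hJ 0 20) (hJ 20 21),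
    ← intervalIntegral.integral_add_adjacent_intervals (hJ 0 2) (hJ 2 20),
    ← intervalIntegral.integral_add_adjacent_intervals (hJ 0 1) (hJ 1 2)] at h1'
  rw [h1]
  have h6 : (Real.log 20 - 1) * 1 = (Real.log 20 - 1) * (∫ (x : ℝ) in (0:ℝ)..1, F3 x) + (Real.log 20 - 1) * (∫ (x : ℝ) in (1:ℝ)..2, F3 x)
    + (Real.log 20 - 1) * (∫ (x : ℝ) in (2:ℝ)..20, F3 x) + (Real.log 20 - 1) * (∫ (x : ℝ) in (20:ℝ)..21, F3 x)
    + (Real.log 20 - 1) * (∫ (x : ℝ) in (21:ℝ)..22, F3 x) := by
    refine (congrArg (fun t => (Real.log 20 - 1) * t) h1').trans ?_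
    ring
  rw [mul_one] at h6
  linarith

lemma numeric : Real.exp (2 * (Real.log 20 + (1/60) * Real.log 6 + (1/10) * Real.log (6/5))) + Real.exp (2 * Real.log 20)
    < 2 * Real.exp (2 * (Real.log 20 + 1/40)) := by
  have h1 : Real.exp (2 * Real.log 20) = 400 := by
    rw [two_mul, Real.exp_add, Real.exp_log (by norm_num)]; norm_num
  have h2 : Real.exp (2 * (Real.log 20 + 1/40)) = 400 * Real.exp (1/20) := by
    rw [mul_add, Real.exp_add, h1]; norm_num
  have h3 : Real.exp (2 * (Real.log 20 + (1/60) * Real.log 6 + (1/10) * Real.log (6/5))) = 400 * Real.exp ((1/30) * Real.log 6 + (1/5) * Real.log (6/5)) := by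
    rw [← h1, ← Real.exp_add]; congr 1; ring
  have h4 : (1/30) * Real.log 6 + (1/5) * Real.log (6/5) < Real.log (441/400) := by
    have h5 : Real.log 6 + 6 * Real.log (6/5) < 30 * Real.log (441/400) := by
      have e1 : Real.log 6 + 6 * Real.log (6/5) = Real.log (6 * (6/5)^6) := by
        rw [Real.log_mul (by norm_num) (by norm_num), Real.log_pow]; norm_num
      have e2 : 30 * Real.log (441/400) = Real.log ((441/400)^30) := by
        rw [Real.log_pow]; norm_num
      rw [e1, e2]
      apply Real.log_lt_log (by norm_num)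
      norm_num
    linarith
  have h5 : Real.exp ((1/30) * Real.log 6 + (1/5) * Real.log (6/5)) < 441/400 := by
    have := Real.exp_lt_exp.2 h4
    rwa [Real.exp_log (by norm_num)] at this
  have h6 : (841/800 : ℝ) ≤ Real.exp (1/20) := by
    have := Real.quadratic_le_exp_of_nonneg (x := 1/20) (by norm_num)
    refine le_trans ?_ this
    norm_num
  rw [h1, h2, h3]
  nlinarith


/-! ### the example -/

def ms : Fin 3 → Measure ℝ := ![μu, μv, μu]

instance ms_prob (i : Fin 3) : IsProbabilityMeasure (ms i) := by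
  fin_cases i
  · exact inferInstanceAs (IsProbabilityMeasure μu)
  · exact inferInstanceAs (IsProbabilityMeasure μv)
  · exact inferInstanceAs (IsProbabilityMeasure μu)

def PP : Measure (Fin 3 → ℝ) := Measure.pi ms
instance : IsProbabilityMeasure PP := inferInstanceAs (IsProbabilityMeasure (Measure.pi ms))

def X (i : Fin 3) (ω : Fin 3 → ℝ) : ℝ := ω i

lemma X_meas (i : Fin 3) : Measurable (X i) := measurable_pi_apply i
lemma X_map (i : Fin 3) : PP.map (X i) = ms i := (measurePreserving_eval ms i).map_eq
lemma X_indep : iIndepFun X PP := iIndepFun_pi (X := fun i => (id : ℝ → ℝ)) (μ := ms) (fun i => aemeasurable_id)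

lemma X_pdf (i : Fin 3) : HasPDF (X i) PP volume := by
  fin_cases i
  · exact hasPDF_of_map_eq_withDensity (X_meas 0).aemeasurable u u_meas.aemeasurable (X_map 0)
  · exact hasPDF_of_map_eq_withDensity (X_meas 1).aemeasurable v v_meas.aemeasurable (X_map 1)
  · exact hasPDF_of_map_eq_withDensity (X_meas 2).aemeasurable u u_meas.aemeasurable (X_map 2)

lemma map01 : PP.map (X 0 + X 1) = volume.withDensity (fun x => ENNReal.ofReal (T x)) := by
  have h := (X_indep.indepFun (show (0 : Fin 3) ≠ 1 by decide)).map_add_eq_map_conv_map₀ (X_meas 0).aemeasurable (X_meas 1).aemeasurable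
  rw [h, X_map, X_map]
  exact conv_uv

lemma map12 : PP.map (X 1 + X 2) = volume.withDensity (fun x => ENNReal.ofReal (T x)) := by
  have h := (X_indep.indepFun (show (1 : Fin 3) ≠ 2 by decide)).map_add_eq_map_conv_map₀ (X_meas 1).aemeasurable (X_meas 2).aemeasurable
  rw [h, X_map, X_map]
  show μv.conv μu = _
  rw [Measure.conv_comm]
  exact conv_uv

lemma map012 : PP.map (X 0 + X 1 + X 2) = volume.withDensity (fun x => ENNReal.ofReal (F3 x)) := by
  have hi := X_indep.indepFun_add_left X_meas 0 1 2 (by decide) (by decide)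
  have h := hi.map_add_eq_map_conv_map₀ ((X_meas 0).add (X_meas 1)).aemeasurable (X_meas 2).aemeasurable
  rw [h, map01, X_map, ← conv_uv]
  show (μu.conv μv).conv μu = _
  rw [conv_3]
  congr 1; ext x
  exact (ofReal_F3 x).symm

theorem main :
    ¬ (∀ (Ω : Type) [MeasurableSpace Ω] (P : Measure Ω) [IsProbabilityMeasure P]
      (X : Fin 3 → Ω → ℝ),
      (∀ i, Measurable (X i)) →
      (∀ i, HasPDF (X i) P volume) →
      iIndepFun X P →
      ∀ H : (Ω → ℝ) → ℝ,
        (∀ Y : Ω → ℝ, H Y = -∫ x, (pdf Y P volume x).toReal * Real.log (pdf Y P volume x).toReal) →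
        (∀ Y ∈ ({X 1, X 0 + X 1, X 1 + X 2, X 0 + X 1 + X 2} : Set (Ω → ℝ)),
          Integrable (fun x => (pdf Y P volume x).toReal * Real.log (pdf Y P volume x).toReal)) →
        Real.exp (2 * H (X 0 + X 1 + X 2)) + Real.exp (2 * H (X 1))
          ≥ Real.exp (2 * H (X 0 + X 1)) + Real.exp (2 * H (X 1 + X 2))) := by
  intro HH
  have e1 := ent_pdf PP (X 1) V V_meas V_nonneg ((X_map 1).trans V_eq)
  have e2 := ent_pdf PP (X 0 + X 1) T T_meas T_nonneg map01
  have e3 := ent_pdf PP (X 1 + X 2) T T_meas T_nonneg map12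
  have e4 := ent_pdf PP (X 0 + X 1 + X 2) F3 F3_meas F3_nonneg map012
  have key : ∀ (Y : (Fin 3 → ℝ) → ℝ) (F : ℝ → ℝ), (fun x => (pdf Y PP volume x).toReal) =ᵐ[volume] F →
      (fun x => (pdf Y PP volume x).toReal * Real.log (pdf Y PP volume x).toReal) =ᵐ[volume] (fun x => F x * Real.log (F x)) := by
    intro Y F h
    filter_upwards [h] with x hx
    rw [hx]
  have h := HH (Fin 3 → ℝ) PP X X_meas X_pdf X_indep (fun Y => -∫ x, (pdf Y PP volume x).toReal * Real.log (pdf Y PP volume x).toReal)
    (fun Y => rfl) (by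
      intro Y hY
      simp only [mem_insert_iff, mem_singleton_iff] at hY
      rcases hY with rfl | rfl | rfl | rfl
      · exact (int_log V V_meas V_nonneg V_le 0 20 V_out).congr (key _ _ e1).symm
      · exact (int_log T T_meas T_nonneg (fun x => (T_le x).trans (by norm_num)) 0 21 T_out).congr (key _ _ e2).symm
      · exact (int_log T T_meas T_nonneg (fun x => (T_le x).trans (by norm_num)) 0 21 T_out).congr (key _ _ e3).symm
      · exact (int_log F3 F3_meas F3_nonneg (fun x => (F3_le x).trans (by norm_num)) 0 22 F3_out).congr (key _ _ e4).symm)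
  rw [integral_congr_ae (key _ _ e1), integral_congr_ae (key _ _ e2), integral_congr_ae (key _ _ e3),
    integral_congr_ae (key _ _ e4), ent_V, ent_T, neg_neg, neg_neg] at h
  have h2 := ent_F3
  have h3 := numeric
  have h4 := Real.exp_le_exp.2 (mul_le_mul_of_nonneg_left h2 (show (0:ℝ) ≤ 2 by norm_num))
  linarith

end
end Pool.Agent.EntPow
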