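import Mathlib

set_option autoImplicit false
set_option maxHeartbeats 4000000

namespace Pool.Agent.GHmat

def tbl : List (List ℕ) :=
  [[0,0,0,0,0,0,0,0,0,0,0,0,0,0,0,0],
   [0,6,5,1,0,4,7,3,2,6,7,1,2,4,5,3],
   [0,5,3,6,2,7,1,6,2,7,3,4,0,5,1,4],
   [0,3,6,5,2,3,6,7,0,1,4,7,2,1,4,5],
   [0,0,2,2,4,6,6,4,5,7,7,5,1,3,3,1],
   [0,4,7,1,6,0,3,5,5,1,2,4,3,7,6,2],
   [0,7,1,6,4,1,5,2,7,0,6,3,3,4,2,5],
   [0,1,4,5,6,5,0,3,7,4,3,2,1,2,7,6],
   [0,2,0,2,7,5,7,5,1,3,1,3,6,6,4,4],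
   [0,6,7,3,5,1,2,6,1,5,4,2,4,0,3,7],
   [0,7,3,4,5,2,4,1,3,6,2,5,6,1,7,0],
   [0,1,6,7,7,4,3,0,3,2,5,6,4,5,2,1],
   [0,2,2,0,3,3,1,1,4,4,6,6,5,7,5,7],
   [0,4,5,3,1,7,4,2,6,2,1,7,5,3,0,6],
   [0,5,1,4,1,6,2,7,4,3,5,0,7,2,6,3],
   [0,3,4,7,3,2,5,4,6,5,0,1,7,6,1,2]]

/-- elements of the dihedral group of order 8, numbered 0..7 -/
def el (m : ℕ) : DihedralGroup 4 :=
  if m < 4 then DihedralGroup.r (m : ZMod 4) else DihedralGroup.sr ((m - 4 : ℕ) : ZMod 4)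

def H (i j : Fin 16) : DihedralGroup 4 := el ((tbl.getD i.val []).getD j.val 0)

lemma rows : ∀ i j : Fin 16, i ≠ j → ∀ g : DihedralGroup 4,
    (Finset.univ.filter (fun k : Fin 16 => H i k * (H j k)⁻¹ = g)).card = 2 := by
  decide +kernel

lemma cols : (Finset.univ.filter (fun k : Fin 16 => H k 1 * (H k 6)⁻¹ = DihedralGroup.r 1)).card = 4 := by
  decide +kernel

lemma natcard {p : Fin 16 → Prop} [DecidablePred p] :
    Nat.card {k : Fin 16 // p k} = (Finset.univ.filter p).card := by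
  rw [Nat.card_eq_fintype_card, Fintype.card_subtype]

lemma cardD : Nat.card (DihedralGroup 4) = 8 := by
  rw [DihedralGroup.nat_card]

theorem main :
    ∃ (N : Type) (_ : Group N) (_ : Finite N) (v : ℕ) (H : Fin v → Fin v → N),
      Nat.card N ∣ v ∧
      (∀ i j : Fin v, i ≠ j → ∀ g : N,
        Nat.card {k : Fin v // H i k * (H j k)⁻¹ = g} = v / Nat.card N) ∧
      ¬ (∀ i j : Fin v, i ≠ j → ∀ g : N,
        Nat.card {k : Fin v // H k i * (H k j)⁻¹ = g} = v / Nat.card N) := by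
  refine ⟨DihedralGroup 4, inferInstance, inferInstance, 16, H, ?_, ?_, ?_⟩
  · rw [cardD]; exact ⟨2, rfl⟩
  · intro i j hij g
    rw [cardD, natcard, rows i j hij g]
  · intro h
    have := h 1 6 (by decide) (DihedralGroup.r 1)
    rw [cardD, natcard, cols] at this
    omega

end Pool.Agent.GHmat
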