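import Mathlib

set_option autoImplicit false

namespace Pool.Agent.Lib.Harm

/-- one new sum `s`: is it wasted? -/
def bad (m S s : ℕ) : Bool := Nat.blt s m || (Nat.blt (m + 23) s || S.testBit s)

/-- process the sums of `x` with all members of `L` -/
def upd (m x : ℕ) : List ℕ → ℕ → ℕ → (ℕ → ℕ → Bool) → Bool
  | [], S, w, k => k S w
  | a :: L, S, w, k =>
    bif bad m S (a + x) then upd m x L (S ||| 1 <<< (a + x)) (w + 1) k
    else upd m x L (S ||| 1 <<< (a + x)) w k

/-- exhaustive search; `true` means there is no solution extending the given state -/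
def go (m : ℕ) : ℕ → ℕ → ℕ → List ℕ → ℕ → ℕ → Bool
  | 0, _, k, _, S, _ => !(Nat.beq k 0) || !(Nat.beq ((S >>> m) % 2 ^ 24) (2 ^ 24 - 1))
  | fuel + 1, x, k, L, S, w =>
    (bif (Nat.ble m x && !(S.testBit x)) then true else go m fuel (x + 1) k L S w) &&
    (match k with
      | 0 => true
      | k + 1 => upd m x L S w (fun S' w' =>
          bif Nat.blt 4 w' then true else go m fuel (x + 1) k (x :: L) S' w'))

set_option maxRecDepth 100000 in
theorem go_all : (List.range 24).all (fun m => go m 23 1 7 [0] 0 0) = true := by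
  decide +kernel

end Pool.Agent.Lib.Harm
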