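import Mathlib
import Pool.Agent.Lib.Harm0

set_option autoImplicit false

namespace Pool.Agent.Lib.Harm

lemma testBit_upd (S s t : ℕ) : (S ||| 1 <<< s).testBit t = true ↔ S.testBit t = true ∨ t = s := by
  rw [Nat.testBit_or, Nat.one_shiftLeft, Nat.testBit_two_pow]
  simp only [Bool.or_eq_true, decide_eq_true_eq]
  constructor
  · rintro (h | h)
    · exact Or.inl h
    · exact Or.inr h.symm
  · rintro (h | h)
    · exact Or.inl h
    · exact Or.inr h.symm

lemma bad_iff (m S s : ℕ) : bad m S s = true ↔ s < m ∨ m + 23 < s ∨ S.testBit s = true := by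
  unfold bad
  rw [Bool.or_eq_true, Bool.or_eq_true, Nat.blt_eq, Nat.blt_eq]

/-- the number of represented elements of the target interval -/
def cnt (m S : ℕ) : ℕ := ((Finset.Icc m (m + 23)).filter (fun s => S.testBit s = true)).card

lemma cnt_bad (m S s : ℕ) (h : bad m S s = true) : cnt m (S ||| 1 <<< s) = cnt m S := by
  unfold cnt
  congr 1
  apply Finset.filter_congr
  intro t ht
  rw [Finset.mem_Icc] at ht
  rw [testBit_upd]
  rw [bad_iff] at h
  constructor
  · rintro (h1 | rfl)
    · exact h1
    · rcases h with h | h | h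
      · omega
      · omega
      · exact h
  · exact Or.inl

lemma cnt_good (m S s : ℕ) (h : bad m S s = false) : cnt m (S ||| 1 <<< s) = cnt m S + 1 := by
  have hb : ¬ (bad m S s = true) := by simp [h]
  rw [bad_iff] at hb
  push Not at hb
  obtain ⟨h1, h2, h3⟩ := hb
  unfold cnt
  have : (Finset.Icc m (m + 23)).filter (fun t => (S ||| 1 <<< s).testBit t = true) =
      insert s ((Finset.Icc m (m + 23)).filter (fun t => S.testBit t = true)) := by
    ext t
    simp only [Finset.mem_filter, Finset.mem_Icc, Finset.mem_insert, testBit_upd]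
    constructor
    · rintro ⟨h4, h5 | h5⟩
      · exact Or.inr ⟨h4, h5⟩
      · exact Or.inl h5
    · rintro (rfl | ⟨h4, h5⟩)
      · exact ⟨⟨h1, h2⟩, Or.inr rfl⟩
      · exact ⟨h4, Or.inl h5⟩
  rw [this, Finset.card_insert_of_notMem]
  simp only [Finset.mem_filter, not_and]
  intro _
  exact h3

lemma upd_spec (m x : ℕ) (L : List ℕ) : ∀ (S w : ℕ) (k : ℕ → ℕ → Bool),
    ∃ S' w', upd m x L S w k = k S' w' ∧
      (∀ s, S'.testBit s = true ↔ S.testBit s = true ∨ ∃ a ∈ L, a + x = s) ∧
      w' + cnt m S' = w + cnt m S + L.length := by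
  induction L with
  | nil =>
    intro S w k
    exact ⟨S, w, rfl, by simp, by simp⟩
  | cons a L ih =>
    intro S w k
    cases hb : bad m S (a + x) with
    | true =>
      obtain ⟨S', w', h1, h2, h3⟩ := ih (S ||| 1 <<< (a + x)) (w + 1) k
      refine ⟨S', w', ?_, ?_, ?_⟩
      · rw [← h1]; simp [upd, hb]
      · intro s
        rw [h2, testBit_upd]
        simp only [List.mem_cons, exists_eq_or_imp]
        constructor
        · rintro ((h | h) | h)
          · exact Or.inl h
          · exact Or.inr (Or.inl h.symm)
          · exact Or.inr (Or.inr h)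
        · rintro (h | h | h)
          · exact Or.inl (Or.inl h)
          · exact Or.inl (Or.inr h.symm)
          · exact Or.inr h
      · rw [h3, cnt_bad m S _ hb]
        simp only [List.length_cons]; omega
    | false =>
      obtain ⟨S', w', h1, h2, h3⟩ := ih (S ||| 1 <<< (a + x)) w k
      refine ⟨S', w', ?_, ?_, ?_⟩
      · rw [← h1]; simp [upd, hb]
      · intro s
        rw [h2, testBit_upd]
        simp only [List.mem_cons, exists_eq_or_imp]
        constructor
        · rintro ((h | h) | h)
          · exact Or.inl h
          · exact Or.inr (Or.inl h.symm)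
          · exact Or.inr (Or.inr h)
        · rintro (h | h | h)
          · exact Or.inl (Or.inl h)
          · exact Or.inl (Or.inr h.symm)
          · exact Or.inr h
      · rw [h3, cnt_good m S _ hb]
        simp only [List.length_cons]; omega

/-- waste bound -/
lemma waste (A B : Finset ℕ) (m : ℕ) (hA : A.card = 8) (hB : B ⊆ A)
    (hI : ∀ s, m ≤ s → s ≤ m + 23 → ∃ a ∈ A, ∃ b ∈ A, a ≠ b ∧ a + b = s)
    (S : ℕ) (hS : ∀ s, (∃ a ∈ B, ∃ b ∈ B, a ≠ b ∧ a + b = s) → S.testBit s = true) :
    B.card.choose 2 ≤ cnt m S + 4 := by
  classical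
  -- pairs not inside `B`
  have h1 : (Finset.Icc m (m + 23)) ⊆
      ((Finset.Icc m (m + 23)).filter (fun s => S.testBit s = true)) ∪
      ((A.powersetCard 2 \ B.powersetCard 2).image (fun P => P.sum id)) := by
    intro s hs
    rw [Finset.mem_union]
    by_cases hb : S.testBit s = true
    · left
      exact Finset.mem_filter.2 ⟨hs, hb⟩
    · right
      rw [Finset.mem_Icc] at hs
      obtain ⟨a, ha, b, hb', hab, hsum⟩ := hI s hs.1 hs.2
      rw [Finset.mem_image]
      refine ⟨{a, b}, ?_, ?_⟩
      · rw [Finset.mem_sdiff, Finset.mem_powersetCard, Finset.mem_powersetCard]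
        refine ⟨⟨?_, Finset.card_pair hab⟩, ?_⟩
        · intro z hz
          simp only [Finset.mem_insert, Finset.mem_singleton] at hz
          rcases hz with rfl | rfl <;> assumption
        · rintro ⟨h, _⟩
          apply hb
          apply hS
          exact ⟨a, h (by simp), b, h (by simp), hab, hsum⟩
      · rw [Finset.sum_pair hab]
        exact hsum
  have h2 := Finset.card_le_card h1
  have h3 := h2.trans (Finset.card_union_le _ _)
  have h4 : (Finset.Icc m (m + 23)).card = 24 := by simp; omega
  have h5 : ((A.powersetCard 2 \ B.powersetCard 2).image (fun P => P.sum id)).card ≤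
      28 - B.card.choose 2 := by
    refine Finset.card_image_le.trans ?_
    rw [Finset.card_sdiff_of_subset (Finset.powersetCard_mono hB), Finset.card_powersetCard,
      Finset.card_powersetCard, hA]
    have : Nat.choose 8 2 = 28 := by decide
    omega
  have h6 : B.card.choose 2 ≤ 28 := by
    have : B.card ≤ 8 := hA ▸ Finset.card_le_card hB
    calc B.card.choose 2 ≤ Nat.choose 8 2 := Nat.choose_le_choose 2 this
      _ = 28 := by decide
  unfold cnt
  omega

lemma go_false (A : Finset ℕ) (m : ℕ) (hA : A.card = 8) (hlt : ∀ a ∈ A, a < 24)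
    (hI : ∀ s, m ≤ s → s ≤ m + 23 → ∃ a ∈ A, ∃ b ∈ A, a ≠ b ∧ a + b = s) :
    ∀ (fuel x k : ℕ) (L : List ℕ) (S w : ℕ), x + fuel = 24 → L.Nodup →
      L.toFinset = A.filter (· < x) → k = (A.filter (x ≤ ·)).card →
      (∀ s, S.testBit s = true ↔ ∃ a ∈ L, ∃ b ∈ L, a ≠ b ∧ a + b = s) →
      w + cnt m S = L.length.choose 2 → go m fuel x k L S w = false := by
  intro fuel
  induction fuel with
  | zero =>
    intro x k L S w hx hnd hL hk hS hw
    have hx : x = 24 := by omega
    subst hx
    have hk0 : k = 0 := by
      rw [hk, Finset.card_eq_zero, Finset.filter_eq_empty_iff]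
      intro a ha
      have := hlt a ha
      omega
    have hmem : ∀ a, a ∈ L ↔ a ∈ A := by
      intro a
      rw [← List.mem_toFinset, hL, Finset.mem_filter]
      exact ⟨fun h => h.1, fun h => ⟨h, hlt a h⟩⟩
    have hS2 : (S >>> m) % 2 ^ 24 = 2 ^ 24 - 1 := by
      apply Nat.eq_of_testBit_eq
      intro i
      rw [Nat.testBit_mod_two_pow, Nat.testBit_two_pow_sub_one, Nat.testBit_shiftRight]
      by_cases hi : i < 24
      · have : S.testBit (m + i) = true := by
          rw [hS]
          obtain ⟨a, ha, b, hb, hab, hs⟩ := hI (m + i) (by omega) (by omega)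
          exact ⟨a, (hmem a).2 ha, b, (hmem b).2 hb, hab, hs⟩
        simp [hi, this]
      · simp [hi]
    subst hk0
    simp only [go]
    rw [hS2]
    rfl
  | succ fuel ih =>
    intro x k L S w hx hnd hL hk hS hw
    have hmem : ∀ a, a ∈ L ↔ a ∈ A ∧ a < x := by
      intro a
      rw [← List.mem_toFinset, hL, Finset.mem_filter]
    by_cases hxA : x ∈ A
    · -- include
      have hxL : x ∉ L := by
        rw [hmem]; omega
      have hk' : k = (A.filter (x + 1 ≤ ·)).card + 1 := by
        rw [hk]
        have : A.filter (x ≤ ·) = insert x (A.filter (x + 1 ≤ ·)) := by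
          ext a
          simp only [Finset.mem_filter, Finset.mem_insert]
          constructor
          · rintro ⟨h1, h2⟩
            by_cases h : a = x
            · exact Or.inl h
            · exact Or.inr ⟨h1, by omega⟩
          · rintro (rfl | ⟨h1, h2⟩)
            · exact ⟨hxA, le_refl _⟩
            · exact ⟨h1, by omega⟩
        rw [this, Finset.card_insert_of_notMem]
        simp
      subst hk'
      obtain ⟨S', w', h1, h2, h3⟩ := upd_spec m x L S w (fun S' w' =>
          bif Nat.blt 4 w' then true else go m fuel (x + 1) (A.filter (x + 1 ≤ ·)).card (x :: L) S' w')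
      have hL' : (x :: L).toFinset = A.filter (· < x + 1) := by
        ext a
        rw [List.mem_toFinset, List.mem_cons, hmem, Finset.mem_filter]
        constructor
        · rintro (rfl | ⟨h1, h2⟩)
          · exact ⟨hxA, by omega⟩
          · exact ⟨h1, by omega⟩
        · rintro ⟨h1, h2⟩
          by_cases h : a = x
          · exact Or.inl h
          · exact Or.inr ⟨h1, by omega⟩
      have hS' : ∀ s, S'.testBit s = true ↔
          ∃ a ∈ (x :: L), ∃ b ∈ (x :: L), a ≠ b ∧ a + b = s := by
        intro s
        rw [h2, hS]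
        constructor
        · rintro (⟨a, ha, b, hb, hab, hs⟩ | ⟨a, ha, hs⟩)
          · exact ⟨a, List.mem_cons_of_mem _ ha, b, List.mem_cons_of_mem _ hb, hab, hs⟩
          · refine ⟨a, List.mem_cons_of_mem _ ha, x, List.mem_cons_self, ?_, hs⟩
            rintro rfl
            exact hxL ha
        · rintro ⟨a, ha, b, hb, hab, hs⟩
          rw [List.mem_cons] at ha hb
          rcases ha with rfl | ha <;> rcases hb with rfl | hb
          · exact absurd rfl hab
          · exact Or.inr ⟨b, hb, by omega⟩
          · exact Or.inr ⟨a, ha, hs⟩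
          · exact Or.inl ⟨a, ha, b, hb, hab, hs⟩
      have hw' : w' + cnt m S' = (x :: L).length.choose 2 := by
        rw [h3, hw, List.length_cons, Nat.choose_succ_succ' L.length 1]
        simp; omega
      have hcard : (x :: L).toFinset.card = (x :: L).length :=
        List.toFinset_card_of_nodup (List.nodup_cons.2 ⟨hxL, hnd⟩)
      have hwaste : w' ≤ 4 := by
        have := waste A (x :: L).toFinset m hA (by rw [hL']; exact Finset.filter_subset _ _) hI S'
          (by
            rintro s ⟨a, ha, b, hb, hab, hs⟩
            rw [List.mem_toFinset] at ha hb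
            exact (hS' s).2 ⟨a, ha, b, hb, hab, hs⟩)
        rw [hcard] at this
        omega
      have hrec := ih (x + 1) _ (x :: L) S' w' (by omega) (List.nodup_cons.2 ⟨hxL, hnd⟩) hL' rfl
        hS' hw'
      have hblt : Nat.blt 4 w' = false := by
        rw [Bool.eq_false_iff]
        intro h
        rw [Nat.blt_eq] at h
        omega
      have hfin : upd m x L S w (fun S' w' =>
          bif Nat.blt 4 w' then true else go m fuel (x + 1) (A.filter (x + 1 ≤ ·)).card
            (x :: L) S' w') = false := by
        rw [h1, hblt]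
        simpa using hrec
      show (_ && _) = false
      rw [Bool.and_eq_false_iff]
      right
      exact hfin
    · -- exclude
      have hcond : (Nat.ble m x && !(S.testBit x)) = false := by
        rw [Bool.and_eq_false_iff]
        by_cases hmx : m ≤ x
        · right
          obtain ⟨a, ha, b, hb, hab, hs⟩ := hI x hmx (by omega)
          have : S.testBit x = true := by
            rw [hS]
            have hax : a ≠ x := by rintro rfl; exact hxA ha
            have hbx : b ≠ x := by rintro rfl; exact hxA hb
            exact ⟨a, (hmem a).2 ⟨ha, by omega⟩, b, (hmem b).2 ⟨hb, by omega⟩, hab, hs⟩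
          simp [this]
        · left
          rw [Bool.eq_false_iff]
          intro h
          rw [Nat.ble_eq] at h
          exact hmx h
      have hL' : L.toFinset = A.filter (· < x + 1) := by
        rw [hL]
        ext a
        simp only [Finset.mem_filter]
        constructor
        · rintro ⟨h1, h2⟩; exact ⟨h1, by omega⟩
        · rintro ⟨h1, h2⟩
          refine ⟨h1, ?_⟩
          have : a ≠ x := by rintro rfl; exact hxA h1
          omega
      have hk' : k = (A.filter (x + 1 ≤ ·)).card := by
        rw [hk]
        congr 1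
        ext a
        simp only [Finset.mem_filter]
        constructor
        · rintro ⟨h1, h2⟩
          have : a ≠ x := by rintro rfl; exact hxA h1
          exact ⟨h1, by omega⟩
        · rintro ⟨h1, h2⟩; exact ⟨h1, by omega⟩
      have hrec := ih (x + 1) k L S w (by omega) hnd hL' hk' hS hw
      show (_ && _) = false
      rw [Bool.and_eq_false_iff]
      left
      rw [hcond]
      exact hrec

/-- No 8 labels in `[0,23]`, one of them `0`, have 24 consecutive integers among their pairwise sums. -/
theorem no_labels (A : Finset ℕ) (m : ℕ) (hA : A.card = 8) (hlt : ∀ a ∈ A, a < 24) (h0 : 0 ∈ A)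
    (hI : ∀ s, m ≤ s → s ≤ m + 23 → ∃ a ∈ A, ∃ b ∈ A, a ≠ b ∧ a + b = s) : False := by
  have hm : m < 24 := by
    obtain ⟨a, ha, b, hb, hab, hs⟩ := hI (m + 23) (by omega) (le_refl _)
    have := hlt a ha
    have := hlt b hb
    omega
  have h1 := go_false A m hA hlt hI 23 1 7 [0] 0 0 rfl (by simp) ?_ ?_ ?_ ?_
  · have h2 := go_all
    rw [List.all_eq_true] at h2
    have h3 := h2 m (List.mem_range.2 hm)
    rw [h1] at h3
    exact absurd h3 (by decide)
  · ext a
    simp only [List.toFinset_cons, List.toFinset_nil, Finset.mem_insert, Finset.notMem_empty,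
      or_false, Finset.mem_filter]
    constructor
    · rintro rfl; exact ⟨h0, by omega⟩
    · rintro ⟨_, h⟩; omega
  · have : A.filter (1 ≤ ·) = A.erase 0 := by
      ext a
      simp only [Finset.mem_filter, Finset.mem_erase]
      constructor
      · rintro ⟨h1, h2⟩; exact ⟨by omega, h1⟩
      · rintro ⟨h1, h2⟩; exact ⟨h2, by omega⟩
    rw [this, Finset.card_erase_of_mem h0, hA]
  · intro s
    simp
  · simp [cnt]

end Pool.Agent.Lib.Harm
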