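import Mathlib
set_option maxHeartbeats 4000000
set_option autoImplicit false
namespace Pool.Agent.Hered

open scoped DirectSum

theorem projective_of_coords {R M P : Type} [Ring R] [AddCommGroup M] [Module R M]
    [AddCommGroup P] [Module R P]
    (p : ℕ → M →ₗ[R] P)
    (h1 : ∀ n, ∀ N : Submodule R P, N ≤ LinearMap.range (p n) → Module.Projective R N)
    (h2 : ∀ x, ∃ n0, ∀ n, n0 ≤ n → p n x = 0)
    (h3 : ∀ x, (∀ n, p n x = 0) → x = 0) : Module.Projective R M := by
  classical
  let Mn : ℕ → Submodule R M := fun n =>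
    { carrier := {x | ∀ j, n < j → p j x = 0}
      add_mem' := by
        intro a b ha hb j hj
        rw [map_add, ha j hj, hb j hj, add_zero]
      zero_mem' := by
        intro j hj
        exact map_zero _
      smul_mem' := by
        intro c x hx j hj
        rw [map_smul, hx j hj, smul_zero] }
  have hMn : ∀ n x, x ∈ Mn n ↔ ∀ j, n < j → p j x = 0 := fun n x => Iff.rfl
  let Nn : ℕ → Submodule R P := fun n => (Mn n).map (p n)
  have hN : ∀ n, Module.Projective R (Nn n) := fun n => h1 n _ (LinearMap.map_le_range)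
  have hsec : ∀ n, ∃ σ : Nn n →ₗ[R] M, (∀ y, σ y ∈ Mn n) ∧ ∀ y, p n (σ y) = (y : P) := by
    intro n
    haveI := hN n
    let q : Mn n →ₗ[R] Nn n := (p n).restrict (fun x hx => Submodule.mem_map_of_mem hx)
    have hq : Function.Surjective q := by
      rintro ⟨y, hy⟩
      obtain ⟨x, hx, rfl⟩ := hy
      exact ⟨⟨x, hx⟩, rfl⟩
    obtain ⟨g, hg⟩ := Module.projective_lifting_property q LinearMap.id hq
    refine ⟨(Mn n).subtype ∘ₗ g, fun y => (g y).2, fun y => ?_⟩
    have := congrArg (fun f => ((f y : Nn n) : P)) hg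
    exact this
  choose σ hσ1 hσ2 using hsec
  let Φ : (⨁ n, Nn n) →ₗ[R] M := DirectSum.toModule R ℕ M σ
  have hΦof : ∀ n (y : Nn n), Φ (DirectSum.lof R ℕ (fun n => Nn n) n y) = σ n y := by
    intro n y
    exact DirectSum.toModule_lof (M := fun n => Nn n) R n y
  have hinj : Function.Injective Φ := by
    rw [injective_iff_map_eq_zero]
    intro y hy
    by_contra hne
    have hsup : (DFinsupp.support y).Nonempty := by
      rw [Finset.nonempty_iff_ne_empty]
      intro h
      exact hne (DFinsupp.support_eq_empty.mp h)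
    obtain ⟨n, hn, hmax⟩ := (DFinsupp.support y).exists_max_image id hsup
    have hsum : Φ y = ∑ j ∈ DFinsupp.support y, σ j (y j) := by
      conv_lhs => rw [← DirectSum.sum_support_of y]
      rw [map_sum]
      apply Finset.sum_congr rfl
      intro j _
      exact hΦof j (y j)
    have h4 : p n (Φ y) = (y n : P) := by
      rw [hsum, map_sum, Finset.sum_eq_single n]
      · exact hσ2 n _
      · intro j hj hjn
        have hjle : j ≤ n := hmax j hj
        exact hσ1 j _ n (lt_of_le_of_ne hjle hjn)
      · intro h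
        exact absurd hn h
    rw [hy, map_zero] at h4
    have : y n = 0 := by
      apply Subtype.ext
      exact h4.symm
    exact (DFinsupp.mem_support_iff.mp hn) this
  have hsur : Function.Surjective Φ := by
    have key : ∀ n, ∀ x : M, (∀ j, n ≤ j → p j x = 0) → x ∈ LinearMap.range Φ := by
      intro n
      induction n with
      | zero =>
        intro x hx
        have : x = 0 := h3 x (fun j => hx j (Nat.zero_le _))
        rw [this]
        exact Submodule.zero_mem _
      | succ n ih =>
        intro x hx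
        have hxM : x ∈ Mn n := fun j hj => hx j hj
        let y : Nn n := ⟨p n x, Submodule.mem_map_of_mem hxM⟩
        have h5 : x - σ n y ∈ LinearMap.range Φ := by
          apply ih
          intro j hj
          rw [map_sub]
          rcases Nat.eq_or_lt_of_le hj with h | h
          · subst h
            rw [hσ2]
            exact sub_self _
          · rw [hx j h, hσ1 n y j h, sub_zero]
        have h6 : σ n y ∈ LinearMap.range Φ := ⟨_, hΦof n y⟩
        have := Submodule.add_mem _ h5 h6
        rwa [sub_add_cancel] at this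
    intro x
    obtain ⟨n0, hn0⟩ := h2 x
    exact key n0 x hn0
  exact Module.Projective.of_equiv (LinearEquiv.ofBijective Φ ⟨hinj, hsur⟩)

abbrev K := ZMod 2
abbrev IA := IncidenceAlgebra K ℕ

theorem IA_zero (f : IA) {a b : ℕ} (h : b < a) : f a b = 0 :=
  IncidenceAlgebra.apply_eq_zero_of_not_le (not_le.mpr h) f

/-- finitary matrices plus scalars -/
def Rr : Subring IA where
  carrier := {f | ∃ c : K, ∃ N : ℕ, ∀ i j, N ≤ j → f i j = if i = j then c else 0}
  mul_mem' := by
    rintro f g ⟨c, N, hf⟩ ⟨d, M, hg⟩
    refine ⟨c * d, max N M, fun i j hj => ?_⟩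
    rw [IncidenceAlgebra.mul_apply]
    have h1 : ∀ x ∈ Finset.Icc i j, f i x * g x j = if x = j then f i j * d else 0 := by
      intro x hx
      rw [hg x j ((le_max_right _ _).trans hj)]
      split_ifs with h
      · rw [h]
      · exact mul_zero _
    rw [Finset.sum_congr rfl h1, Finset.sum_ite_eq', hf i j ((le_max_left _ _).trans hj)]
    by_cases hij : i = j
    · subst hij
      simp
    · simp [hij]
  one_mem' := ⟨1, 0, fun i j _ => by rw [IncidenceAlgebra.one_apply]⟩
  add_mem' := by
    rintro f g ⟨c, N, hf⟩ ⟨d, M, hg⟩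
    refine ⟨c + d, max N M, fun i j hj => ?_⟩
    rw [IncidenceAlgebra.add_apply, hf i j ((le_max_left _ _).trans hj),
      hg i j ((le_max_right _ _).trans hj)]
    split_ifs <;> simp
  zero_mem' := ⟨0, 0, fun i j _ => by rw [IncidenceAlgebra.zero_apply]; simp⟩
  neg_mem' := by
    rintro f ⟨c, N, hf⟩
    refine ⟨-c, N, fun i j hj => ?_⟩
    rw [IncidenceAlgebra.neg_apply, hf i j hj]
    split_ifs <;> simp

theorem mem_Rr (f : IA) : f ∈ Rr ↔ ∃ c : K, ∃ N : ℕ, ∀ i j, N ≤ j → f i j = if i = j then c else 0 :=
  Iff.rfl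

/-- entries -/
def ent (x : Rr) (i j : ℕ) : K := (x : IA) i j

theorem ent_ext (x y : Rr) (h : ∀ i j, ent x i j = ent y i j) : x = y := by
  apply Subtype.ext
  apply IncidenceAlgebra.ext
  intro a b _
  exact h a b

theorem ent_zero (x : Rr) {a b : ℕ} (h : b < a) : ent x a b = 0 := IA_zero _ h

/-- matrix units (0 if `j < i`) -/
def E (i j : ℕ) : Rr :=
  ⟨⟨fun a b => if a = i ∧ b = j ∧ i ≤ j then 1 else 0, by
      intro a b h
      rw [if_neg]
      rintro ⟨rfl, rfl, h2⟩
      exact h h2⟩,
    ⟨0, j + 1, fun a b hb => by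
      rw [IncidenceAlgebra.coe_mk, if_neg]
      · simp
      · rintro ⟨_, rfl, _⟩
        omega⟩⟩

theorem ent_E (i j a b : ℕ) : ent (E i j) a b = if a = i ∧ b = j ∧ i ≤ j then 1 else 0 := rfl

theorem ent_mul (x y : Rr) (a b : ℕ) :
    ent (x * y) a b = ∑ k ∈ Finset.Icc a b, ent x a k * ent y k b :=
  IncidenceAlgebra.mul_apply _ _ _ _

theorem ent_add (x y : Rr) (a b : ℕ) : ent (x + y) a b = ent x a b + ent y a b := rfl
theorem ent_sub (x y : Rr) (a b : ℕ) : ent (x - y) a b = ent x a b - ent y a b := rfl
theorem ent_zero' (a b : ℕ) : ent 0 a b = 0 := rfl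
theorem ent_one (a b : ℕ) : ent 1 a b = if a = b then 1 else 0 := rfl

theorem ent_E_mul (i m : ℕ) (x : Rr) (a b : ℕ) :
    ent (E i m * x) a b = if a = i ∧ i ≤ m then ent x m b else 0 := by
  rw [ent_mul]
  by_cases h : a = i ∧ i ≤ m
  · rw [if_pos h]
    obtain ⟨rfl, him⟩ := h
    have h1 : ∀ k ∈ Finset.Icc a b, ent (E a m) a k * ent x k b
        = if k = m then ent x m b else 0 := by
      intro k hk
      rw [ent_E]
      by_cases hkm : k = m
      · subst hkm
        simp [him]
      · simp [hkm]
    rw [Finset.sum_congr rfl h1, Finset.sum_ite_eq']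
    by_cases hmb : m ≤ b
    · rw [if_pos (Finset.mem_Icc.mpr ⟨him, hmb⟩)]
    · rw [if_neg (fun h => hmb (Finset.mem_Icc.mp h).2), ent_zero x (not_le.mp hmb)]
  · rw [if_neg h]
    apply Finset.sum_eq_zero
    intro k hk
    rw [ent_E, if_neg, zero_mul]
    rintro ⟨h1, h2, h3⟩
    exact h ⟨h1, h3⟩

theorem ent_mul_E (m j : ℕ) (x : Rr) (a b : ℕ) :
    ent (x * E m j) a b = if b = j ∧ m ≤ j then ent x a m else 0 := by
  rw [ent_mul]
  by_cases h : b = j ∧ m ≤ j
  · rw [if_pos h]
    obtain ⟨rfl, hmj⟩ := h
    have h1 : ∀ k ∈ Finset.Icc a b, ent x a k * ent (E m b) k b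
        = if k = m then ent x a m else 0 := by
      intro k hk
      rw [ent_E]
      by_cases hkm : k = m
      · subst hkm
        simp [hmj]
      · simp [hkm]
    rw [Finset.sum_congr rfl h1, Finset.sum_ite_eq']
    by_cases ham : a ≤ m
    · rw [if_pos (Finset.mem_Icc.mpr ⟨ham, hmj⟩)]
    · rw [if_neg (fun h => ham (Finset.mem_Icc.mp h).1), ent_zero x (not_le.mp ham)]
  · rw [if_neg h]
    apply Finset.sum_eq_zero
    intro k hk
    rw [ent_E, if_neg, mul_zero]
    rintro ⟨h1, h2, h3⟩
    exact h ⟨h2, h3⟩

/-- right multiplication -/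
noncomputable def rmul (e : Rr) : Rr →ₗ[Rr] Rr := LinearMap.toSpanSingleton Rr Rr e

theorem rmul_apply (e x : Rr) : rmul e x = x * e := by
  simp [rmul, LinearMap.toSpanSingleton_apply]

/-- submodules of a column are projective -/
theorem proj_col (n : ℕ) (N : Submodule Rr Rr) (hN : ∀ x ∈ N, ∀ a b, b ≠ n → ent x a b = 0) :
    Module.Projective Rr N := by
  classical
  by_cases hne : ∃ m, ∃ x ∈ N, ent x m n ≠ 0
  · have hbdd : ∀ m, (∃ x ∈ N, ent x m n ≠ 0) → m ≤ n := by
      rintro m ⟨x, hx, hxm⟩
      by_contra h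
      exact hxm (ent_zero x (not_le.mp h))
    obtain ⟨m, ⟨x, hxN, hxm⟩, hmax⟩ : ∃ m, (∃ x ∈ N, ent x m n ≠ 0) ∧
        ∀ k, (∃ x ∈ N, ent x k n ≠ 0) → k ≤ m := by
      obtain ⟨m0, hm0⟩ := hne
      refine ⟨Nat.findGreatest (fun m => ∃ x ∈ N, ent x m n ≠ 0) n, ?_, ?_⟩
      · exact Nat.findGreatest_spec (P := fun m => ∃ x ∈ N, ent x m n ≠ 0) (hbdd m0 hm0) hm0
      · intro k hk
        exact Nat.le_findGreatest (hbdd k hk) hk
    have hmn : m ≤ n := hbdd m ⟨x, hxN, hxm⟩
    have hx1 : ent x m n = 1 := by
      have : ∀ z : K, z ≠ 0 → z = 1 := by decide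
      exact this _ hxm
    have hE : E m n ∈ N := by
      have h1 : E m m * x = E m n := by
        apply ent_ext
        intro a b
        rw [ent_E_mul, ent_E]
        by_cases ha : a = m
        · by_cases hb : b = n
          · subst ha; subst hb
            simp [hmn, hx1]
          · simp [ha, hb, hN x hxN m b hb]
        · simp [ha]
      rw [← h1]
      exact N.smul_mem (E m m) hxN
    -- maps
    let s : Rr →ₗ[Rr] N := LinearMap.toSpanSingleton Rr N ⟨E m n, hE⟩
    let i : N →ₗ[Rr] Rr :=
      { toFun := fun y => ⟨⟨fun a b => if b = m ∧ a ≤ m then ent y.1 a n else 0, by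
            intro a b h
            rw [if_neg]
            rintro ⟨rfl, h2⟩
            exact h h2⟩,
          ⟨0, m + 1, fun a b hb => by
            rw [IncidenceAlgebra.coe_mk, if_neg]
            · simp
            · rintro ⟨rfl, _⟩
              omega⟩⟩
        map_add' := by
          intro y z
          apply ent_ext
          intro a b
          rw [ent_add]
          show (if b = m ∧ a ≤ m then ent (y.1 + z.1) a n else 0) =
            (if b = m ∧ a ≤ m then ent y.1 a n else 0) + (if b = m ∧ a ≤ m then ent z.1 a n else 0)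
          rw [ent_add]
          split_ifs <;> simp
        map_smul' := by
          intro r y
          apply ent_ext
          intro a b
          rw [RingHom.id_apply, smul_eq_mul, ent_mul]
          show (if b = m ∧ a ≤ m then ent (r * y.1) a n else 0) =
            ∑ k ∈ Finset.Icc a b, ent r a k * (if b = m ∧ k ≤ m then ent y.1 k n else 0)
          by_cases hbm : b = m
          · subst hbm
            have h2 : ∑ k ∈ Finset.Icc a b, ent r a k * (if b = b ∧ k ≤ b then ent y.1 k n else 0)
              = ∑ k ∈ Finset.Icc a n, ent r a k * ent y.1 k n := by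
              have h3 : ∀ k ∈ Finset.Icc a b, ent r a k * (if b = b ∧ k ≤ b then ent y.1 k n else 0)
                = ent r a k * ent y.1 k n := by
                intro k hk
                rw [if_pos ⟨rfl, (Finset.mem_Icc.mp hk).2⟩]
              rw [Finset.sum_congr rfl h3]
              apply Finset.sum_subset
              · intro k hk
                rw [Finset.mem_Icc] at hk ⊢
                omega
              · intro k hk hk2
                rw [Finset.mem_Icc] at hk hk2
                have : ent y.1 k n = 0 := by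
                  by_contra h
                  have := hmax k ⟨y.1, y.2, h⟩
                  omega
                rw [this, mul_zero]
            rw [h2, ent_mul]
            by_cases ha : a ≤ b
            · rw [if_pos ⟨rfl, ha⟩]
            · rw [if_neg (fun h => ha h.2)]
              symm
              apply Finset.sum_eq_zero
              intro k hk
              rw [Finset.mem_Icc] at hk
              have : ent y.1 k n = 0 := by
                by_contra h
                have := hmax k ⟨y.1, y.2, h⟩
                omega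
              rw [this, mul_zero]
          · rw [if_neg (fun h => hbm h.1)]
            symm
            apply Finset.sum_eq_zero
            intro k hk
            rw [if_neg (fun h => hbm h.1), mul_zero] }
    apply Module.Projective.of_split i s
    apply LinearMap.ext
    intro y
    apply Subtype.ext
    show (s (i y) : Rr) = y.1
    have h5 : (s (i y) : Rr) = i y * E m n := by
      simp [s, LinearMap.toSpanSingleton_apply]
    rw [h5]
    apply ent_ext
    intro a b
    rw [ent_mul_E]
    show (if b = n ∧ m ≤ n then (if m = m ∧ a ≤ m then ent y.1 a n else 0) else 0) = ent y.1 a b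
    by_cases hb : b = n
    · subst hb
      rw [if_pos ⟨rfl, hmn⟩]
      by_cases ha : a ≤ m
      · rw [if_pos ⟨rfl, ha⟩]
      · rw [if_neg (fun h => ha h.2)]
        by_contra h
        have := hmax a ⟨y.1, y.2, fun h' => h h'.symm⟩
        omega
    · rw [if_neg (fun h => hb h.1), hN y.1 y.2 a b hb]
  · push Not at hne
    have hbot : N = ⊥ := by
      rw [eq_bot_iff]
      intro x hx
      rw [Submodule.mem_bot]
      apply ent_ext
      intro a b
      rw [ent_zero']
      by_cases hb : b = n
      · subst hb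
        exact hne a x hx
      · exact hN x hx a b hb
    subst hbot
    infer_instance

theorem proj_fin (L : Submodule Rr Rr) (hL : ∀ x ∈ L, ∃ N, ∀ i j, N ≤ j → ent x i j = 0) :
    Module.Projective Rr L := by
  apply projective_of_coords (p := fun n => (rmul (E n n)) ∘ₗ L.subtype)
  · intro n N hN
    apply proj_col n N
    intro x hx a b hb
    obtain ⟨y, hy⟩ := hN hx
    rw [← hy]
    show ent (rmul (E n n) y.1) a b = 0
    rw [rmul_apply, ent_mul_E, if_neg (fun h => hb h.1)]
  · rintro ⟨x, hx⟩
    obtain ⟨N, hN⟩ := hL x hx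
    refine ⟨N, fun n hn => ?_⟩
    show rmul (E n n) x = 0
    rw [rmul_apply]
    apply ent_ext
    intro a b
    rw [ent_mul_E, ent_zero']
    split_ifs
    · exact hN a n hn
    · rfl
  · rintro ⟨x, hx⟩ h
    apply Subtype.ext
    show x = 0
    apply ent_ext
    intro a b
    have h1 : rmul (E b b) x = 0 := h b
    rw [rmul_apply] at h1
    have h2 := congrArg (fun z => ent z a b) h1
    simp only [ent_mul_E, ent_zero'] at h2
    rw [ent_zero']
    simpa using h2

/-- the idempotent `Σ_{j ≥ N} e_jj` -/
def F (N : ℕ) : Rr :=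
  ⟨⟨fun a b => if a = b ∧ N ≤ a then 1 else 0, by
      intro a b h
      rw [if_neg]
      rintro ⟨rfl, _⟩
      exact h le_rfl⟩,
    ⟨1, N, fun a b hb => by
      rw [IncidenceAlgebra.coe_mk]
      by_cases h : a = b
      · subst h; simp [hb]
      · simp [h]⟩⟩

theorem ent_F (N a b : ℕ) : ent (F N) a b = if a = b ∧ N ≤ a then 1 else 0 := rfl

theorem ent_F_mul (N : ℕ) (x : Rr) (a b : ℕ) :
    ent (F N * x) a b = if N ≤ a then ent x a b else 0 := by
  rw [ent_mul]
  have h1 : ∀ k ∈ Finset.Icc a b, ent (F N) a k * ent x k b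
      = if k = a then (if N ≤ a then ent x a b else 0) else 0 := by
    intro k hk
    rw [ent_F]
    by_cases hka : k = a
    · subst hka
      by_cases hN : N ≤ k
      · simp [hN]
      · simp [hN]
    · simp [hka, Ne.symm hka, fun h : a = k => hka h.symm]
  rw [Finset.sum_congr rfl h1, Finset.sum_ite_eq']
  by_cases hab : a ≤ b
  · rw [if_pos (Finset.mem_Icc.mpr ⟨le_rfl, hab⟩)]
  · rw [if_neg (fun h => hab (Finset.mem_Icc.mp h).2), ent_zero x (not_le.mp hab)]
    simp

theorem ent_mul_F (N : ℕ) (x : Rr) (a b : ℕ) :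
    ent (x * F N) a b = if N ≤ b then ent x a b else 0 := by
  rw [ent_mul]
  have h1 : ∀ k ∈ Finset.Icc a b, ent x a k * ent (F N) k b
      = if k = b then (if N ≤ b then ent x a b else 0) else 0 := by
    intro k hk
    rw [ent_F]
    by_cases hka : k = b
    · subst hka
      by_cases hN : N ≤ k
      · simp [hN]
      · simp [hN]
    · simp [hka]
  rw [Finset.sum_congr rfl h1, Finset.sum_ite_eq']
  by_cases hab : a ≤ b
  · rw [if_pos (Finset.mem_Icc.mpr ⟨hab, le_rfl⟩)]
  · rw [if_neg (fun h => hab (Finset.mem_Icc.mp h).1), ent_zero x (not_le.mp hab)]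
    simp

theorem hereditary (L : Submodule Rr Rr) : Module.Projective Rr L := by
  classical
  by_cases hc : ∀ x ∈ L, ∃ N, ∀ i j, N ≤ j → ent x i j = 0
  · exact proj_fin L hc
  · push Not at hc
    obtain ⟨x, hxL, hx⟩ := hc
    obtain ⟨c, N, hcN⟩ := x.2
    have hc1 : c = 1 := by
      by_contra h
      have h0 : c = 0 := by
        have : ∀ z : K, z ≠ 1 → z = 0 := by decide
        exact this c h
      obtain ⟨i, j, hj, hne⟩ := hx N
      apply hne
      have := hcN i j hj
      rw [h0] at this
      show (x : IA) i j = 0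
      rw [this]
      simp
    subst hc1
    have hFL : F N ∈ L := by
      have h1 : F N * x = F N := by
        apply ent_ext
        intro a b
        rw [ent_F_mul, ent_F]
        by_cases ha : N ≤ a
        · rw [if_pos ha]
          by_cases hab : a ≤ b
          · have h2 : ent x a b = if a = b then 1 else 0 := hcN a b (ha.trans hab)
            rw [h2]
            by_cases h3 : a = b
            · simp [h3, h3 ▸ ha]
            · simp [h3]
          · rw [ent_zero x (not_le.mp hab), if_neg]
            rintro ⟨rfl, _⟩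
            exact hab le_rfl
        · simp [ha]
      rw [← h1]
      exact L.smul_mem (F N) hxL
    have hFF : F N * F N = F N := by
      apply ent_ext
      intro a b
      rw [ent_F_mul, ent_F]
      by_cases ha : N ≤ a <;> simp [ha]
    let L' : Submodule Rr Rr := L ⊓ LinearMap.ker (rmul (F N))
    have hL' : Module.Projective Rr L' := by
      apply proj_fin
      rintro y ⟨_, hy⟩
      refine ⟨N, fun i j hj => ?_⟩
      have h1 : y * F N = 0 := by
        rw [← rmul_apply]
        exact hy
      have h2 := congrArg (fun z => ent z i j) h1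
      simp only [ent_mul_F, ent_zero'] at h2
      rwa [if_pos hj] at h2
    have hmem : ∀ y ∈ L, y - y * F N ∈ L' := by
      intro y hy
      refine ⟨?_, ?_⟩
      · exact L.sub_mem hy (L.smul_mem y hFL)
      · rw [SetLike.mem_coe, LinearMap.mem_ker, rmul_apply, sub_mul, mul_assoc, hFF, sub_self]
    let i1 : L →ₗ[Rr] L' :=
      LinearMap.codRestrict L' ((LinearMap.id - rmul (F N)) ∘ₗ L.subtype) (by
        rintro ⟨y, hy⟩
        have : ((LinearMap.id - rmul (F N)) ∘ₗ L.subtype) ⟨y, hy⟩ = y - y * F N := by
          show y - rmul (F N) y = _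
          rw [rmul_apply]
        rw [this]
        exact hmem y hy)
    let i : L →ₗ[Rr] (L' × Rr) := i1.prod (rmul (F N) ∘ₗ L.subtype)
    let s : (L' × Rr) →ₗ[Rr] L :=
      LinearMap.coprod (Submodule.inclusion inf_le_left) (LinearMap.toSpanSingleton Rr L ⟨F N, hFL⟩)
    apply Module.Projective.of_split i s
    apply LinearMap.ext
    rintro ⟨y, hy⟩
    apply Subtype.ext
    show ((s (i ⟨y, hy⟩) : L) : Rr) = y
    have h7 : ((s (i ⟨y, hy⟩) : L) : Rr) = (y - rmul (F N) y) + (rmul (F N) y) * F N := by
      simp [s, i, i1, LinearMap.coprod_apply, LinearMap.toSpanSingleton_apply]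
    rw [h7, rmul_apply, mul_assoc, hFF, sub_add_cancel]

theorem main :
    ¬ (∀ (R : Type) [Ring R], (∀ I : Submodule R R, Module.Projective R I) →
      (∃ n : ℕ, ∀ l : List R, l.length = n →
          (∀ x ∈ l, ∀ J : TwoSidedIdeal R,
            ((∃ y : R, y ∉ J) ∧ ∀ a b : R, (∀ r : R, a * r * b ∈ J) → a ∈ J ∨ b ∈ J) →
              x ∈ J) →
          l.prod = 0) ∧
      ∀ (S : Type) [Ring S] (f : R →+* S), Function.Surjective f →
        (∀ x : R, f x = 0 ↔
          ∀ J : TwoSidedIdeal R,
            ((∃ y : R, y ∉ J) ∧ ∀ a b : R, (∀ r : R, a * r * b ∈ J) → a ∈ J ∨ b ∈ J) →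
              x ∈ J) →
        ∀ I : Submodule S S, Module.Projective S I) := by
  intro H
  obtain ⟨⟨n, hn⟩, -⟩ := H Rr hereditary
  have key : ∀ n, ∃ l : List Rr, l.length = n ∧ (∀ x ∈ l, ∃ i, x = E i (i+1)) ∧
      ent l.prod 0 n = 1 := by
    intro n
    induction n with
    | zero => exact ⟨[], rfl, by simp, by rw [List.prod_nil, ent_one]; simp⟩
    | succ n ih =>
      obtain ⟨l, h1, h2, h3⟩ := ih
      refine ⟨l ++ [E n (n+1)], by simp [h1], ?_, ?_⟩
      · intro x hx
        rw [List.mem_append] at hx
        rcases hx with hx | hx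
        · exact h2 x hx
        · exact ⟨n, by simpa using hx⟩
      · rw [List.prod_append, List.prod_singleton, ent_mul_E]
        simp [h3]
  obtain ⟨l, h1, h2, h3⟩ := key n
  have h4 := hn l h1 (by
    intro x hx J hJ
    obtain ⟨i, rfl⟩ := h2 x hx
    have h5 : ∀ r : Rr, E i (i+1) * r * E i (i+1) ∈ J := by
      intro r
      have : E i (i+1) * r * E i (i+1) = 0 := by
        apply ent_ext
        intro a b
        rw [ent_mul_E, ent_E_mul, ent_zero', ent_zero r (Nat.lt_succ_self i)]
        simp
      rw [this]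
      exact J.zero_mem
    rcases hJ.2 _ _ h5 with h | h <;> exact h)
  rw [h4, ent_zero'] at h3
  exact zero_ne_one h3

end Pool.Agent.Hered
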