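import Mathlib

set_option autoImplicit false
set_option maxHeartbeats 4000000
open Filter Topology
open scoped ZeroAtInfty

namespace Pool.Agent.ProjApprox

abbrev C0 : Type := ZeroAtInftyContinuousMap ℕ ℝ

lemma abs_le' (x : C0) (n : ℕ) : |x n| ≤ ‖x‖ := by
  rw [← ZeroAtInftyContinuousMap.norm_toBCF_eq_norm]
  exact x.toBCF.norm_coe_le_norm n

lemma norm_le' (x : C0) {C : ℝ} (hC : 0 ≤ C) (h : ∀ n, |x n| ≤ C) : ‖x‖ ≤ C := by
  rw [← ZeroAtInftyContinuousMap.norm_toBCF_eq_norm]
  exact (BoundedContinuousFunction.norm_le hC).2 h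

lemma tend (x : C0) : Tendsto (fun n => x n) atTop (𝓝 0) := by
  have := x.zero_at_infty'
  rwa [cocompact_eq_atTop (α := ℕ)] at this

noncomputable def b (n : ℕ) : ℝ := (1/2)^n

lemma b_pos (n : ℕ) : 0 < b n := by unfold b; positivity

lemma b_sum : HasSum b 2 := hasSum_geometric_two

lemma b_tail (N : ℕ) : HasSum (fun i => b (i + N)) (2 * (1/2)^N) := by
  have h := hasSum_geometric_two.mul_right ((1/2 : ℝ)^N)
  have e : (fun i => b (i + N)) = fun i => (1/2 : ℝ)^i * (1/2)^N := by
    ext i; unfold b; rw [pow_add]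
  rw [e]; exact h

lemma summ (x : C0) : Summable (fun n => b n * x n) := by
  refine Summable.of_norm_bounded (g := fun n => b n * ‖x‖) (b_sum.summable.mul_right _) ?_
  intro n
  rw [norm_mul, Real.norm_of_nonneg (b_pos n).le]
  exact mul_le_mul_of_nonneg_left (abs_le' x n) (b_pos n).le

noncomputable def f : C0 →L[ℝ] ℝ :=
  LinearMap.mkContinuous
    { toFun := fun x => ∑' n, b n * x n
      map_add' := by
        intro x y
        rw [← (summ x).tsum_add (summ y)]
        congr 1; ext n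
        rw [ZeroAtInftyContinuousMap.add_apply]; ring
      map_smul' := by
        intro c x
        rw [RingHom.id_apply, smul_eq_mul, ← tsum_mul_left]
        congr 1; ext n
        rw [ZeroAtInftyContinuousMap.smul_apply, smul_eq_mul]; ring } 2
    (by
      intro x
      simp only [LinearMap.coe_mk, AddHom.coe_mk]
      refine tsum_of_norm_bounded (b_sum.mul_right ‖x‖) ?_
      intro n
      rw [norm_mul, Real.norm_of_nonneg (b_pos n).le]
      exact mul_le_mul_of_nonneg_left (abs_le' x n) (b_pos n).le)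

lemma f_apply (x : C0) : f x = ∑' n, b n * x n := rfl

lemma f_tail (x : C0) (N : ℕ) : |f x - ∑ n ∈ Finset.range N, b n * x n| ≤ 2 * (1/2)^N * ‖x‖ := by
  rw [f_apply, ← (summ x).sum_add_tsum_nat_add N, add_sub_cancel_left]
  refine tsum_of_norm_bounded (E := ℝ) ((b_tail N).mul_right ‖x‖) ?_
  intro n
  rw [norm_mul, Real.norm_of_nonneg (b_pos _).le]
  exact mul_le_mul_of_nonneg_left (abs_le' x _) (b_pos _).le

/-- unit vectors -/
noncomputable def e (n : ℕ) : C0 :=
  { toFun := fun m => if m = n then 1 else 0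
    continuous_toFun := continuous_of_discreteTopology
    zero_at_infty' := by
      rw [cocompact_eq_atTop (α := ℕ)]
      apply tendsto_const_nhds.congr'
      filter_upwards [eventually_gt_atTop n] with m hm
      rw [if_neg hm.ne'] }

lemma e_apply (n m : ℕ) : e n m = if m = n then 1 else 0 := rfl

lemma f_e (n : ℕ) : f (e n) = b n := by
  rw [f_apply, tsum_eq_single n]
  · rw [e_apply, if_pos rfl, mul_one]
  · intro m hm
    rw [e_apply, if_neg hm, mul_zero]

/-- evaluation -/
noncomputable def ev0 (n : ℕ) : C0 →L[ℝ] ℝ :=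
  LinearMap.mkContinuous
    { toFun := fun x => x n
      map_add' := fun x y => by rw [ZeroAtInftyContinuousMap.add_apply]
      map_smul' := fun c x => by rw [ZeroAtInftyContinuousMap.smul_apply]; rfl } 1
    (by intro x; rw [one_mul]; exact abs_le' x n)

lemma ev0_apply (n : ℕ) (x : C0) : ev0 n x = x n := rfl

def W : Type := WithLp 1 (C0 × ℝ)
noncomputable instance : NormedAddCommGroup W := inferInstanceAs (NormedAddCommGroup (WithLp 1 (C0 × ℝ)))
noncomputable instance : NormedSpace ℝ W := inferInstanceAs (NormedSpace ℝ (WithLp 1 (C0 × ℝ)))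
instance : CompleteSpace W := inferInstanceAs (CompleteSpace (WithLp 1 (C0 × ℝ)))

def fs (x : W) : C0 := WithLp.fst (p := 1) (α := C0) (β := ℝ) x
def sn (x : W) : ℝ := WithLp.snd (p := 1) (α := C0) (β := ℝ) x

lemma norm_W (x : W) : ‖x‖ = ‖fs x‖ + ‖sn x‖ := WithLp.prod_norm_eq_of_L1 (α := C0) (β := ℝ) x

noncomputable def fstW : W →L[ℝ] C0 :=
  LinearMap.mkContinuous (𝕜 := ℝ)
    { toFun := fs
      map_add' := fun x y => rfl
      map_smul' := fun c x => rfl } 1 (by
        intro x; rw [one_mul, norm_W]; exact le_add_of_nonneg_right (norm_nonneg _))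

noncomputable def sndW : W →L[ℝ] ℝ :=
  LinearMap.mkContinuous (𝕜 := ℝ)
    { toFun := sn
      map_add' := fun x y => rfl
      map_smul' := fun c x => rfl } 1 (by
        intro x; rw [one_mul, norm_W]; exact le_add_of_nonneg_left (norm_nonneg _))

noncomputable def D : W →L[ℝ] ℝ := sndW - f.comp fstW

lemma D_apply (x : W) : D x = sn x - f (fs x) := rfl

noncomputable abbrev E : Submodule ℝ W := LinearMap.ker (D : W →ₗ[ℝ] ℝ)

lemma mem_E (x : W) : x ∈ E ↔ sn x = f (fs x) := by
  rw [LinearMap.mem_ker]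
  show D x = 0 ↔ _
  rw [D_apply, sub_eq_zero]

lemma snd_eq (x : E) : sn (x : W) = f (fs (x : W)) := (mem_E _).1 x.2

lemma norm_E (x : E) : ‖x‖ = ‖fs (x : W)‖ + |f (fs (x : W))| := by
  rw [← snd_eq]
  exact norm_W (x : W)

def mkW (x : C0) (r : ℝ) : W := (WithLp.toLp 1 (x, r) : WithLp 1 (C0 × ℝ))

noncomputable def mk (x : C0) : E := ⟨mkW x (f x), (mem_E (mkW x (f x))).2 rfl⟩

lemma mk_fst (x : C0) : fs (mk x : W) = x := rfl

lemma E_ext (x y : E) (h : fs (x : W) = fs (y : W)) : x = y := by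
  have h1 := snd_eq x
  have h2 := snd_eq y
  have h3 : ‖x - y‖ = 0 := by
    rw [norm_E]
    have : fs ((x - y : E) : W) = fs (x : W) - fs (y : W) := rfl
    rw [this, h, sub_self, map_zero]; simp
  exact sub_eq_zero.1 (norm_eq_zero.1 h3)

/-- coordinate projection E → C0 -/
noncomputable def π : E →L[ℝ] C0 := fstW.comp E.subtypeL

lemma π_apply (x : E) : π x = fs (x : W) := rfl

noncomputable def ev (n : ℕ) : E →L[ℝ] ℝ := (ev0 n).comp π

lemma ev_apply (n : ℕ) (x : E) : ev n x = π x n := rfl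

noncomputable def ê (n : ℕ) : E := mk (e n)

lemma π_ê (n : ℕ) : π (ê n) = e n := rfl

noncomputable def P (N : ℕ) : E →L[ℝ] E := ∑ n ∈ Finset.range N, (ev n).smulRight (ê n)

lemma P_apply (N : ℕ) (x : E) : P N x = ∑ n ∈ Finset.range N, π x n • ê n := by
  simp [P, ev_apply]

lemma π_P (N : ℕ) (x : E) (m : ℕ) : π (P N x) m = if m < N then π x m else 0 := by
  have h1 : π (P N x) m = ev m (P N x) := rfl
  rw [h1, P_apply, map_sum]
  have h2 : ∀ n, ev m (π x n • ê n) = if m = n then π x n else 0 := by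
    intro n
    rw [map_smul, ev_apply, π_ê, e_apply, smul_eq_mul]
    split_ifs <;> simp
  simp_rw [h2]
  simp

lemma f_P (N : ℕ) (x : E) : f (π (P N x)) = ∑ n ∈ Finset.range N, b n * π x n := by
  rw [P_apply, map_sum, map_sum]
  apply Finset.sum_congr rfl
  intro n _
  rw [map_smul, map_smul, π_ê, f_e, smul_eq_mul, mul_comm]

lemma norm_E' (x : E) : ‖x‖ = ‖π x‖ + |f (π x)| := norm_E x

lemma norm_P (N : ℕ) (x : E) : ‖P N x‖ ≤ (1 + 2 * (1/2)^N) * ‖x‖ := by
  rw [norm_E' (P N x)]
  have h1 : ‖π (P N x)‖ ≤ ‖π x‖ := by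
    apply norm_le' _ (norm_nonneg _)
    intro m
    rw [π_P]
    split_ifs
    · exact abs_le' _ _
    · simp
  have h2 := f_tail (π x) N
  rw [← f_P] at h2
  have h3 : |f (π (P N x))| ≤ |f (π x)| + 2 * (1/2)^N * ‖π x‖ := by
    have := abs_sub_abs_le_abs_sub (f (π (P N x))) (f (π x))
    rw [abs_sub_comm] at this
    linarith
  have h4 : ‖π x‖ ≤ ‖x‖ := by rw [norm_E' x]; linarith [abs_nonneg (f (π x))]
  have h5 : (0:ℝ) ≤ 2 * (1/2)^N := by positivity
  have h6 : 2 * (1/2:ℝ)^N * ‖π x‖ ≤ 2 * (1/2)^N * ‖x‖ := mul_le_mul_of_nonneg_left h4 h5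
  have h7 := norm_E' x
  linarith

lemma P_tend (x : E) : Tendsto (fun N => P N x) atTop (𝓝 x) := by
  rw [Metric.tendsto_atTop]
  intro ε hε
  have h1 := tend (π x)
  rw [Metric.tendsto_atTop] at h1
  obtain ⟨N1, hN1⟩ := h1 (ε/4) (by linarith)
  have h2 : Tendsto (fun N : ℕ => 2 * (1/2:ℝ)^N * ‖π x‖) atTop (𝓝 0) := by
    have := ((tendsto_pow_atTop_nhds_zero_of_lt_one (r := (1/2:ℝ)) (by norm_num) (by norm_num)).const_mul 2).mul_const ‖π x‖
    simpa using this
  rw [Metric.tendsto_atTop] at h2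
  obtain ⟨N2, hN2⟩ := h2 (ε/4) (by linarith)
  refine ⟨max N1 N2, fun N hN => ?_⟩
  rw [dist_eq_norm, norm_E']
  have h3 : ‖π (P N x - x)‖ ≤ ε/4 := by
    apply norm_le' _ (by linarith)
    intro m
    rw [map_sub, ZeroAtInftyContinuousMap.sub_apply, π_P]
    split_ifs with h
    · simp; linarith
    · have := hN1 m (by omega)
      rw [Real.dist_eq, sub_zero] at this
      rw [zero_sub, abs_neg]; exact this.le
  have h4 : |f (π (P N x - x))| ≤ ε/4 := by
    rw [map_sub, map_sub, f_P, abs_sub_comm]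
    refine (f_tail (π x) N).trans ?_
    have := hN2 N (by omega)
    rw [Real.dist_eq, sub_zero] at this
    exact (le_abs_self _).trans this.le
  linarith

lemma P_comp (N : ℕ) : (P N).comp (P N) = P N := by
  ext1 x
  rw [ContinuousLinearMap.comp_apply]
  apply E_ext
  rw [← π_apply, ← π_apply]
  apply ZeroAtInftyContinuousMap.ext
  intro m
  rw [π_P, π_P]
  split_ifs <;> rfl

lemma P_fin (N : ℕ) : FiniteDimensional ℝ (LinearMap.range (P N : E →ₗ[ℝ] E)) := by
  have hle : LinearMap.range (P N : E →ₗ[ℝ] E) ≤ Submodule.span ℝ (ê '' (Set.Iio N)) := by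
    rintro _ ⟨x, rfl⟩
    show P N x ∈ _
    rw [P_apply]
    apply Submodule.sum_mem
    intro n hn
    apply Submodule.smul_mem
    apply Submodule.subset_span
    exact ⟨n, Finset.mem_range.1 hn, rfl⟩
  have : FiniteDimensional ℝ (Submodule.span ℝ (ê '' (Set.Iio N))) :=
    FiniteDimensional.span_of_finite ℝ ((Set.finite_Iio N).image _)
  exact Submodule.finiteDimensional_of_le hle

instance : CompleteSpace E := by
  have hc : IsClosed (E : Set W) := D.isClosed_ker
  exact hc.completeSpace_coe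

instance : TopologicalSpace.SeparableSpace E := by
  rw [← TopologicalSpace.isSeparable_univ_iff]
  have h1 : TopologicalSpace.IsSeparable (closure (Submodule.span ℝ (Set.range ê) : Set E)) :=
    ((Set.countable_range ê).isSeparable.span (R := ℝ)).closure
  refine h1.mono ?_
  intro x _
  refine mem_closure_of_tendsto (P_tend x) (Eventually.of_forall fun N => ?_)
  rw [P_apply]
  apply Submodule.sum_mem
  intro n hn
  apply Submodule.smul_mem
  apply Submodule.subset_span
  exact ⟨n, rfl⟩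

lemma approx (δ : ℝ) (hδ : 0 < δ) (Q : Set E) (hQ : IsCompact Q) (ε : ℝ) (hε : 0 < ε) :
    ∃ u : E →L[ℝ] E, FiniteDimensional ℝ (LinearMap.range (u : E →ₗ[ℝ] E)) ∧
          u.comp u = u ∧ ‖u‖ ≤ 1 + δ ∧ ∀ x ∈ Q, ‖u x - x‖ ≤ ε := by
  obtain ⟨t, htQ, htf, hcov⟩ := hQ.finite_cover_balls (e := ε/8) (by linarith)
  -- large N for each center
  have h1 : ∀ y : E, ∀ᶠ N in atTop, ‖P N y - y‖ ≤ ε/4 := by
    intro y
    have := P_tend y
    rw [tendsto_iff_norm_sub_tendsto_zero] at this
    exact (this.eventually (gt_mem_nhds (show (0:ℝ) < ε/4 by linarith))).mono (fun N h => h.le)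
  have h2 : ∀ᶠ N in atTop, ∀ y ∈ t, ‖P N y - y‖ ≤ ε/4 := by
    rw [Filter.eventually_all_finite htf]
    intro y _; exact h1 y
  have h3 : ∀ᶠ N : ℕ in atTop, 2 * (1/2:ℝ)^N ≤ δ := by
    have := ((tendsto_pow_atTop_nhds_zero_of_lt_one (r := (1/2:ℝ)) (by norm_num) (by norm_num)).const_mul 2)
    rw [mul_zero] at this
    exact (this.eventually (gt_mem_nhds hδ)).mono (fun N h => h.le)
  obtain ⟨N, hN2, hN3⟩ := (h2.and h3).exists
  refine ⟨P N, P_fin N, P_comp N, ?_, ?_⟩
  · apply ContinuousLinearMap.opNorm_le_bound _ (by linarith)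
    intro x
    refine (norm_P N x).trans ?_
    apply mul_le_mul_of_nonneg_right _ (norm_nonneg _)
    linarith
  · intro x hx
    have hx' := hcov hx
    simp only [Set.mem_iUnion, Metric.mem_ball] at hx'
    obtain ⟨y, hy, hxy⟩ := hx'
    rw [dist_eq_norm] at hxy
    have h4 : P N x - x = P N (x - y) + (P N y - y) - (x - y) := by rw [map_sub]; abel
    rw [h4]
    have h5 : ‖P N (x - y)‖ ≤ 3 * ‖x - y‖ := by
      refine (norm_P N (x - y)).trans ?_
      apply mul_le_mul_of_nonneg_right _ (norm_nonneg _)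
      have : (1/2:ℝ)^N ≤ 1 := pow_le_one₀ (by norm_num) (by norm_num)
      linarith
    have h6 := norm_sub_le (P N (x - y) + (P N y - y)) (x - y)
    have h7 := norm_add_le (P N (x - y)) (P N y - y)
    have h8 := hN2 y hy
    linarith

/-- key: near identity norm one projection preserves f -/
lemma key (u : E →L[ℝ] E) (hu : u.comp u = u) (hn : ‖u‖ ≤ 1)
    (h0 : ‖u (ê 0) - ê 0‖ ≤ 1/100) (h1 : ‖u (ê 1) - ê 1‖ ≤ 1/100) (k : E) (hk : u k = 0) : f (π k) = 0 := by
  have huu : ∀ x, u (u x) = u x := fun x => by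
    have := congrArg (fun v : E →L[ℝ] E => v x) hu
    simpa using this
  have hmin : ∀ (z : E) (t : ℝ), ‖u z‖ ≤ ‖u z + t • k‖ := by
    intro z t
    have h2 : u z = u (u z + t • k) := by rw [map_add, map_smul, hk, smul_zero, add_zero, huu]
    calc ‖u z‖ = ‖u (u z + t • k)‖ := by rw [← h2]
      _ ≤ ‖u‖ * ‖u z + t • k‖ := u.le_opNorm _
      _ ≤ 1 * ‖u z + t • k‖ := mul_le_mul_of_nonneg_right hn (norm_nonneg _)
      _ = ‖u z + t • k‖ := one_mul _
  -- peak lemma
  have peak : ∀ (y : E) (M : ℝ), (9/10 ≤ π y 1) → (∀ n, n ≠ 1 → |π y n| ≤ 8/10) → ‖π y‖ = π y 1 := by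
    intro y M hy hyn
    apply le_antisymm
    · apply norm_le' _ (by linarith)
      intro n
      by_cases h : n = 1
      · subst h; rw [abs_of_nonneg (by linarith)]
      · have := hyn n h; linarith
    · exact (le_abs_self _).trans (abs_le' _ _)
  have πle : ∀ x : E, ‖π x‖ ≤ ‖x‖ := fun x => by rw [norm_E' x]; linarith [abs_nonneg (f (π x))]
  have fle : ∀ x : E, |f (π x)| ≤ ‖x‖ := fun x => by rw [norm_E' x]; linarith [norm_nonneg (π x)]
  -- choose τ
  obtain ⟨τ, hτ, hτk⟩ : ∃ τ : ℝ, 0 < τ ∧ τ * ‖k‖ ≤ 1/100 := by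
    refine ⟨1 / (100 * (‖k‖ + 1)), by positivity, ?_⟩
    rw [div_mul_eq_mul_div, div_le_iff₀ (by positivity)]
    linarith [norm_nonneg k]
  have hτc : ∀ s : ℝ, |s| = τ → ∀ n, |s * π k n| ≤ 1/100 := by
    intro s hs n
    rw [abs_mul, hs]
    refine (mul_le_mul_of_nonneg_left ((abs_le' _ n).trans (πle k)) hτ.le).trans hτk
  have hτf : ∀ s : ℝ, |s| = τ → |s * f (π k)| ≤ 1/100 := by
    intro s hs
    rw [abs_mul, hs]
    refine (mul_le_mul_of_nonneg_left (fle k) hτ.le).trans hτk
  -- coordinates of y = u ê1, y' = u ê1 - 3/4 u ê0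
  have hd0 : ∀ n, |π (u (ê 0)) n - e 0 n| ≤ 1/100 := by
    intro n
    have h := (abs_le' (π (u (ê 0) - ê 0)) n).trans (πle _)
    rw [map_sub, ZeroAtInftyContinuousMap.sub_apply, π_ê] at h
    linarith
  have hd1 : ∀ n, |π (u (ê 1)) n - e 1 n| ≤ 1/100 := by
    intro n
    have h := (abs_le' (π (u (ê 1) - ê 1)) n).trans (πle _)
    rw [map_sub, ZeroAtInftyContinuousMap.sub_apply, π_ê] at h
    linarith
  have hf0 : |f (π (u (ê 0))) - 1| ≤ 1/100 := by
    have h := fle (u (ê 0) - ê 0)
    rw [map_sub, map_sub, π_ê, f_e] at h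
    have : b 0 = 1 := by norm_num [b]
    rw [this] at h; linarith
  have hf1 : |f (π (u (ê 1))) - 1/2| ≤ 1/100 := by
    have h := fle (u (ê 1) - ê 1)
    rw [map_sub, map_sub, π_ê, f_e] at h
    have : b 1 = 1/2 := by norm_num [b]
    rw [this] at h; linarith
  -- first: y
  have main1 : ∀ s : ℝ, |s| = τ → 0 ≤ s * π k 1 + s * f (π k) := by
    intro s hs
    have hm := hmin (ê 1) s
    rw [norm_E', norm_E'] at hm
    have hy : ‖π (u (ê 1))‖ = π (u (ê 1)) 1 := by
      apply peak _ 0
      · have := hd1 1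
        rw [e_apply, if_pos rfl, _root_.abs_le] at this
        linarith [this.1]
      · intro n hn
        have := hd1 n
        rw [e_apply, if_neg hn, sub_zero] at this
        linarith
    have hys : ‖π (u (ê 1) + s • k)‖ = π (u (ê 1)) 1 + s * π k 1 := by
      have hval : ∀ n, π (u (ê 1) + s • k) n = π (u (ê 1)) n + s * π k n := by
        intro n
        rw [map_add, map_smul, ZeroAtInftyContinuousMap.add_apply, ZeroAtInftyContinuousMap.smul_apply, smul_eq_mul]
      rw [← hval]
      apply peak _ 0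
      · rw [hval]
        have h2 := hd1 1
        rw [e_apply, if_pos rfl, _root_.abs_le] at h2
        have h3 := hτc s hs 1
        rw [_root_.abs_le] at h3
        linarith [h2.1, h3.1]
      · intro n hn
        rw [hval]
        have h2 := hd1 n
        rw [e_apply, if_neg hn, sub_zero] at h2
        have h3 := hτc s hs n
        have := abs_add_le (π (u (ê 1)) n) (s * π k n)
        linarith
    have hfs : |f (π (u (ê 1) + s • k))| = f (π (u (ê 1))) + s * f (π k) := by
      rw [map_add, map_smul, map_add, map_smul, smul_eq_mul]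
      apply abs_of_nonneg
      have h3 := hτf s hs
      rw [_root_.abs_le] at h3 hf1
      linarith [hf1.1, h3.1]
    have hfy : |f (π (u (ê 1)))| = f (π (u (ê 1))) := by
      apply abs_of_nonneg
      rw [_root_.abs_le] at hf1
      linarith [hf1.1]
    rw [hy, hys, hfs, hfy] at hm
    linarith
  have main2 : ∀ s : ℝ, |s| = τ → 0 ≤ s * π k 1 - s * f (π k) := by
    intro s hs
    have hm := hmin (ê 1 - (3/4 : ℝ) • ê 0) s
    rw [norm_E', norm_E'] at hm
    set z := u (ê 1 - (3/4 : ℝ) • ê 0) with hz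
    have hzn : ∀ n, π z n = π (u (ê 1)) n - 3/4 * π (u (ê 0)) n := by
      intro n
      rw [hz, map_sub, map_smul, map_sub, map_smul, ZeroAtInftyContinuousMap.sub_apply,
        ZeroAtInftyContinuousMap.smul_apply, smul_eq_mul]
    have hzf : f (π z) = f (π (u (ê 1))) - 3/4 * f (π (u (ê 0))) := by
      rw [hz, map_sub, map_smul, map_sub, map_smul, map_sub, map_smul, smul_eq_mul]
    have hz1 : 98/100 ≤ π z 1 := by
      rw [hzn]
      have h2 := hd1 1
      have h3 := hd0 1
      rw [e_apply, if_pos rfl, _root_.abs_le] at h2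
      rw [e_apply, if_neg (by norm_num), _root_.abs_le] at h3
      linarith [h2.1, h3.2]
    have hzo : ∀ n, n ≠ 1 → |π z n| ≤ 78/100 := by
      intro n hn
      rw [hzn]
      have h2 := hd1 n
      have h3 := hd0 n
      rw [e_apply, if_neg hn, sub_zero, _root_.abs_le] at h2
      rw [e_apply, _root_.abs_le] at h3
      rw [_root_.abs_le]
      split_ifs at h3
      · constructor <;> linarith [h2.1, h2.2, h3.1, h3.2]
      · constructor <;> linarith [h2.1, h2.2, h3.1, h3.2]
    have hzf' : f (π z) ≤ -1/5 := by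
      rw [hzf]
      rw [_root_.abs_le] at hf0 hf1
      linarith [hf0.1, hf1.2]
    have hy : ‖π z‖ = π z 1 := by
      apply peak _ 0
      · linarith
      · intro n hn
        have := hzo n hn; linarith
    have hys : ‖π (z + s • k)‖ = π z 1 + s * π k 1 := by
      have hval : ∀ n, π (z + s • k) n = π z n + s * π k n := by
        intro n
        rw [map_add, map_smul, ZeroAtInftyContinuousMap.add_apply, ZeroAtInftyContinuousMap.smul_apply, smul_eq_mul]
      rw [← hval]
      apply peak _ 0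
      · rw [hval]
        have h3 := hτc s hs 1
        rw [_root_.abs_le] at h3
        linarith [h3.1]
      · intro n hn
        rw [hval]
        have h2 := hzo n hn
        have h3 := hτc s hs n
        have := abs_add_le (π z n) (s * π k n)
        linarith
    have hfs : |f (π (z + s • k))| = -(f (π z) + s * f (π k)) := by
      rw [map_add, map_smul, map_add, map_smul, smul_eq_mul]
      apply abs_of_nonpos
      have h3 := hτf s hs
      rw [_root_.abs_le] at h3
      linarith [h3.2]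
    have hfy : |f (π z)| = -f (π z) := by
      apply abs_of_nonpos
      linarith
    rw [hy, hys, hfs, hfy] at hm
    linarith
  have a1 := main1 τ (abs_of_pos hτ)
  have a2 := main1 (-τ) (by rw [abs_neg, abs_of_pos hτ])
  have a3 := main2 τ (abs_of_pos hτ)
  have a4 := main2 (-τ) (by rw [abs_neg, abs_of_pos hτ])
  have : τ * f (π k) = 0 := by linarith
  exact (mul_eq_zero.1 this).resolve_left hτ.ne'

lemma no_proj (u : E →L[ℝ] E) (hfd : FiniteDimensional ℝ (LinearMap.range (u : E →ₗ[ℝ] E)))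
    (hu : u.comp u = u) (hn : ‖u‖ ≤ 1)
    (h0 : ‖u (ê 0) - ê 0‖ ≤ 1/100) (h1 : ‖u (ê 1) - ê 1‖ ≤ 1/100) : False := by
  have huu : ∀ x, u (u x) = u x := fun x => by
    have := congrArg (fun v : E →L[ℝ] E => v x) hu
    simpa using this
  have hf : ∀ x, f (π (u x)) = f (π x) := by
    intro x
    have := key u hu hn h0 h1 (x - u x) (by rw [map_sub, huu, sub_self])
    rw [map_sub, map_sub, sub_eq_zero] at this
    exact this.symm
  have hπ : ∀ x, ‖π (u x)‖ ≤ ‖π x‖ := by
    intro x
    have h2 : ‖u x‖ ≤ ‖x‖ := by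
      refine (u.le_opNorm x).trans ?_
      exact mul_le_of_le_one_left (norm_nonneg _) hn
    rw [norm_E', norm_E', hf] at h2
    linarith
  -- x N = sum of first N unit vectors
  let X : ℕ → E := fun N => ∑ n ∈ Finset.range N, ê n
  have hXv : ∀ N m, π (X N) m = if m < N then 1 else 0 := by
    intro N m
    have h1 : π (X N) m = ev m (X N) := rfl
    rw [h1, map_sum]
    have h2 : ∀ n, ev m (ê n) = if m = n then 1 else 0 := by
      intro n
      rw [ev_apply, π_ê, e_apply]
    simp_rw [h2]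
    simp
  have hXn : ∀ N, ‖π (X N)‖ ≤ 1 := by
    intro N
    apply norm_le' _ zero_le_one
    intro m
    rw [hXv]
    split_ifs <;> simp
  have hXf : ∀ N, f (π (X N)) = ∑ n ∈ Finset.range N, b n := by
    intro N
    rw [map_sum, map_sum]
    apply Finset.sum_congr rfl
    intro n _
    rw [π_ê, f_e]
  let F := LinearMap.range (u : E →ₗ[ℝ] E)
  let Y : ℕ → F := fun N => ⟨u (X N), ⟨X N, rfl⟩⟩
  have hYb : ∀ N, Y N ∈ Metric.closedBall (0 : F) 3 := by
    intro N
    rw [mem_closedBall_zero_iff]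
    show ‖u (X N)‖ ≤ 3
    rw [norm_E', hf, hXf]
    have h2 := (hπ (X N)).trans (hXn N)
    have h3 : |∑ n ∈ Finset.range N, b n| ≤ 2 := by
      rw [abs_of_nonneg (Finset.sum_nonneg fun n _ => (b_pos n).le)]
      exact sum_le_hasSum _ (fun n _ => (b_pos n).le) b_sum
    linarith
  have : ProperSpace F := FiniteDimensional.proper ℝ F
  obtain ⟨y, -, φ, hφ, hy⟩ := tendsto_subseq_of_bounded (Metric.isBounded_closedBall) hYb
  have hy' : Tendsto (fun N => u (X (φ N))) atTop (𝓝 (y : E)) :=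
    (continuous_subtype_val.tendsto y).comp hy
  have hyf : f (π (y : E)) = 2 := by
    have h2 : Tendsto (fun N => f (π (u (X (φ N))))) atTop (𝓝 (f (π (y : E)))) :=
      ((f.continuous.comp π.continuous).tendsto _).comp hy'
    have h3 : Tendsto (fun N => f (π (u (X (φ N))))) atTop (𝓝 2) := by
      have h4 := b_sum.tendsto_sum_nat.comp hφ.tendsto_atTop
      refine h4.congr ?_
      intro N
      rw [hf, hXf]; rfl
    exact tendsto_nhds_unique h2 h3
  have hyn : ‖π (y : E)‖ ≤ 1 := by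
    have h2 : Tendsto (fun N => ‖π (u (X (φ N)))‖) atTop (𝓝 ‖π (y : E)‖) :=
      ((continuous_norm.comp π.continuous).tendsto _).comp hy'
    exact le_of_tendsto h2 (Eventually.of_forall fun N => (hπ _).trans (hXn _))
  -- all coordinates are one
  have hone : ∀ n, π (y : E) n = 1 := by
    have hsum : HasSum (fun n => b n * (1 - π (y : E) n)) 0 := by
      have h2 := b_sum.sub (summ (π (y:E))).hasSum
      rw [← f_apply, hyf, sub_self] at h2
      have e1 : (fun n => b n * (1 - π (y : E) n)) = fun n => b n - b n * π (y : E) n := by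
        ext n; ring
      rw [e1]; exact h2
    intro n
    have hnn : ∀ n, 0 ≤ b n * (1 - π (y : E) n) := by
      intro n
      apply mul_nonneg (b_pos n).le
      have := (le_abs_self _).trans ((abs_le' (π (y : E)) n).trans hyn)
      linarith
    have h3 := (hasSum_zero_iff_of_nonneg hnn).1 hsum
    have h4 := congrFun h3 n
    simp only [Pi.zero_apply] at h4
    have := (mul_eq_zero.1 h4).resolve_left (b_pos n).ne'
    linarith
  have h2 := tend (π (y : E))
  simp_rw [hone] at h2
  exact one_ne_zero (tendsto_nhds_unique tendsto_const_nhds h2)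

theorem main :
    ¬ (∀ (𝕜 : Type) [RCLike 𝕜] (E : Type) [NormedAddCommGroup E] [NormedSpace 𝕜 E]
      [CompleteSpace E] [TopologicalSpace.SeparableSpace E] (lam : ℝ), 1 ≤ lam →
      (∀ δ : ℝ, 0 < δ → ∀ Q : Set E, IsCompact Q → ∀ ε : ℝ, 0 < ε →
        ∃ u : E →L[𝕜] E, FiniteDimensional 𝕜 (LinearMap.range (u : E →ₗ[𝕜] E)) ∧
          u.comp u = u ∧ ‖u‖ ≤ lam + δ ∧ ∀ x ∈ Q, ‖u x - x‖ ≤ ε) →
      (∀ Q : Set E, IsCompact Q → ∀ ε : ℝ, 0 < ε →
        ∃ u : E →L[𝕜] E, FiniteDimensional 𝕜 (LinearMap.range (u : E →ₗ[𝕜] E)) ∧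
          u.comp u = u ∧ ‖u‖ ≤ lam ∧ ∀ x ∈ Q, ‖u x - x‖ ≤ ε)) := by
  intro H
  obtain ⟨u, hfd, hu, hn, hQ⟩ := H ℝ E 1 le_rfl (fun δ hδ Q hQ ε hε => approx δ hδ Q hQ ε hε)
    {ê 0, ê 1} (Set.Finite.isCompact (by simp)) (1/100) (by norm_num)
  exact no_proj u hfd hu hn (hQ _ (by simp)) (hQ _ (by simp))

end Pool.Agent.ProjApprox
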