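import Mathlib

set_option autoImplicit false
set_option maxHeartbeats 4000000

namespace Pool.Agent.MinLen

open Polynomial

noncomputable def P : ℤ[X] := X^4 + X^3 + X^2 + 1
noncomputable def T : ℤ[X] := X^3 - X^2 + 1

lemma P_natDegree : P.natDegree = 4 := by unfold P; compute_degree!
lemma T_natDegree : T.natDegree = 3 := by unfold T; compute_degree!
lemma P_monic : P.Monic := by unfold P; monicity!

lemma P_eval (x : ℤ) : P.eval x = x^4 + x^3 + x^2 + 1 := by simp [P]

lemma P_irr : Irreducible P := by
  rw [P_monic.irreducible_iff_natDegree']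
  refine ⟨?_, ?_⟩
  · intro h
    have := congrArg natDegree h
    rw [P_natDegree, natDegree_one] at this
    omega
  · intro f g hf hg hfg hmem
    rw [P_natDegree, Finset.mem_Ioc] at hmem
    have hdeg : f.natDegree + g.natDegree = 4 := by
      rw [← hf.natDegree_mul hg, hfg, P_natDegree]
    have hev : ∀ x : ℤ, f.eval x * g.eval x = x^4 + x^3 + x^2 + 1 := by
      intro x
      rw [← P_eval, ← hfg, eval_mul]
    have h12 : g.natDegree = 1 ∨ g.natDegree = 2 := by omega
    rcases h12 with h1 | h2
    · have hg1 : g = X + C (g.coeff 0) := by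
        conv_lhs => rw [g.as_sum_range_C_mul_X_pow, h1]
        have : g.coeff 1 = 1 := by
          have := hg.coeff_natDegree
          rwa [h1] at this
        simp [Finset.sum_range_succ, this, add_comm]
      have h3 := hev (-(g.coeff 0))
      have h4 : g.eval (-(g.coeff 0)) = 0 := by
        conv_lhs => rw [hg1]
        simp
      rw [h4, mul_zero] at h3
      have h5 : 0 ≤ (g.coeff 0)^2 * ((g.coeff 0)^2 - g.coeff 0 + 1) := by
        apply mul_nonneg (sq_nonneg _)
        nlinarith [sq_nonneg (2 * g.coeff 0 - 1)]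
      nlinarith
    · have hf2 : f.natDegree = 2 := by omega
      have form : ∀ p : ℤ[X], p.Monic → p.natDegree = 2 →
          ∀ x : ℤ, p.eval x = x^2 + p.coeff 1 * x + p.coeff 0 := by
        intro p hp hd x
        have hc : p.coeff 2 = 1 := by
          have := hp.coeff_natDegree
          rwa [hd] at this
        rw [eval_eq_sum_range, hd]
        simp [Finset.sum_range_succ, hc]
        ring
      have e0 := hev 0
      have e1 := hev 1
      have em := hev (-1)
      rw [form f hf hf2, form g hg h2] at e0 e1 em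
      set d := f.coeff 1
      set e := f.coeff 0
      set b := g.coeff 1
      set c := g.coeff 0
      have hec : e * c = 1 := by linarith
      rcases Int.eq_one_or_neg_one_of_mul_eq_one' hec with ⟨h, h'⟩ | ⟨h, h'⟩
      · rw [h, h'] at e1 em
        have q1 : 2 * (b + d) + d * b = 0 := by linarith
        have q2 : -2 * (b + d) + d * b = -2 := by linarith
        omega
      · rw [h, h'] at e1 em
        have q1 : d * b = 4 := by linarith
        have q2 : d * b = 2 := by linarith
        omega

/-- length -/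
noncomputable def len (F : ℤ[X]) : ℤ := ∑ i ∈ F.support, |F.coeff i|

lemma P_root_norm {α : ℂ} (h : α^4 + α^3 + α^2 + 1 = 0) : ‖α‖ ≠ 1 := by
  intro hn
  set β := (starRingEnd ℂ) α with hβ
  have hab : α * β = 1 := by
    rw [Complex.mul_conj, Complex.normSq_eq_norm_sq, hn]
    simp
  have h2 : β^4 + β^3 + β^2 + 1 = 0 := by
    have := congrArg (starRingEnd ℂ) h
    simpa using this
  have h3 : 1 + α + α^2 + α^4 = 0 := by
    have e1 : α^4 * β^4 = 1 := by rw [← mul_pow, hab, one_pow]
    have e2 : α^4 * β^3 = α := by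
      have : α^4 * β^3 = α * (α * β)^3 := by ring
      rw [this, hab]; ring
    have e3 : α^4 * β^2 = α^2 := by
      have : α^4 * β^2 = α^2 * (α * β)^2 := by ring
      rw [this, hab]; ring
    linear_combination α^4 * h2 - e1 - e2 - e3
  have h4 : α * ((α - 1) * (α + 1)) = 0 := by linear_combination h - h3
  rcases mul_eq_zero.1 h4 with h5 | h5
  · rw [h5] at h
    norm_num at h
  · rcases mul_eq_zero.1 h5 with h6 | h6
    · have : α = 1 := by linear_combination h6
      rw [this] at h
      norm_num at h
    · have : α = -1 := by linear_combination h6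
      rw [this] at h
      norm_num at h

lemma T_root_norm {α : ℂ} (h : α^3 - α^2 + 1 = 0) : ‖α‖ ≠ 1 := by
  intro hn
  set β := (starRingEnd ℂ) α with hβ
  have hab : α * β = 1 := by
    rw [Complex.mul_conj, Complex.normSq_eq_norm_sq, hn]
    simp
  have h2 : β^3 - β^2 + 1 = 0 := by
    have := congrArg (starRingEnd ℂ) h
    simpa using this
  have h3 : 1 - α + α^3 = 0 := by
    have e1 : α^3 * β^3 = 1 := by rw [← mul_pow, hab, one_pow]
    have e2 : α^3 * β^2 = α := by
      have : α^3 * β^2 = α * (α * β)^2 := by ring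
      rw [this, hab]; ring
    linear_combination α^3 * h2 - e1 + e2
  have h4 : α * (1 - α) = 0 := by linear_combination h - h3
  rcases mul_eq_zero.1 h4 with h5 | h5
  · rw [h5] at h
    norm_num at h
  · have : α = 1 := by linear_combination -h5
    rw [this] at h
    norm_num at h

lemma lower (S : ℤ[X]) (hS : S ≠ 0) : 4 ≤ len (P * S) := by
  have hP0 : P ≠ 0 := P_monic.ne_zero
  set F := P * S with hF
  have hF0 : F ≠ 0 := mul_ne_zero hP0 hS
  -- root
  obtain ⟨α, hα⟩ : ∃ α : ℂ, aeval α P = 0 := by
    apply IsAlgClosed.exists_aeval_eq_zero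
    rw [degree_eq_natDegree hP0, P_natDegree]
    norm_num
  have hα' : α^4 + α^3 + α^2 + 1 = 0 := by
    simpa [P] using hα
  have hn1 := P_root_norm hα'
  have hα0 : α ≠ 0 := by
    rintro rfl
    norm_num at hα'
  have hFα : aeval α F = 0 := by
    rw [hF, map_mul, hα, zero_mul]
  have hge1 : ∀ i ∈ F.support, 1 ≤ |F.coeff i| := by
    intro i hi
    exact Int.one_le_abs (mem_support_iff.1 hi)
  -- parity
  have hpar : (2 : ℤ) ∣ len F := by
    have h1 : F.eval 1 = ∑ i ∈ F.support, F.coeff i := by
      rw [eval_eq_sum, Polynomial.sum]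
      simp
    have h2 : F.eval 1 = 4 * S.eval 1 := by
      rw [hF, eval_mul, P_eval]
      norm_num
    have h3 : (2 : ℤ) ∣ len F - F.eval 1 := by
      rw [h1]
      unfold len
      rw [← Finset.sum_sub_distrib]
      apply Finset.dvd_sum
      intro i _
      rcases abs_cases (F.coeff i) with ⟨h, _⟩ | ⟨h, _⟩ <;> rw [h] <;> omega
    have h4 : (2 : ℤ) ∣ F.eval 1 := by
      rw [h2]; exact ⟨2 * S.eval 1, by ring⟩
    have := dvd_add h3 h4
    rwa [sub_add_cancel] at this
  have hcard : (F.support.card : ℤ) ≤ len F := by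
    unfold len
    have := Finset.sum_le_sum hge1
    simpa using this
  have hcpos : 0 < F.support.card := by
    rw [Finset.card_pos]
    exact support_nonempty.2 hF0
  by_contra hlt
  push Not at hlt
  have hlen : len F = 2 := by omega
  have hc12 : F.support.card = 1 ∨ F.support.card = 2 := by omega
  rcases hc12 with h1 | h2
  · obtain ⟨k, x, hx, hFx⟩ := card_support_eq_one.1 h1
    rw [hFx] at hFα
    simp [hα0, hx] at hFα
  · have hall : ∀ i ∈ F.support, |F.coeff i| - 1 = 0 := by
      have : ∑ i ∈ F.support, (|F.coeff i| - 1) = 0 := by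
        rw [Finset.sum_sub_distrib]
        simp only [Finset.sum_const, nsmul_eq_mul, mul_one]
        rw [h2]
        have : ∑ i ∈ F.support, |F.coeff i| = 2 := hlen
        rw [this]; norm_num
      exact (Finset.sum_eq_zero_iff_of_nonneg (fun i hi => by linarith [hge1 i hi])).1 this
    obtain ⟨k, m, hkm, x, y, hx, hy, hFx⟩ := card_support_eq_two.1 h2
    have hck : F.coeff k = x := by
      rw [hFx]
      simp [coeff_X_pow, hkm.ne]
    have hcm : F.coeff m = y := by
      rw [hFx]
      simp [coeff_X_pow, hkm.ne']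
    have hxk : |x| = 1 := by
      have := hall k (mem_support_iff.2 (by rw [hck]; exact hx))
      rw [hck] at this; linarith
    have hym : |y| = 1 := by
      have := hall m (mem_support_iff.2 (by rw [hcm]; exact hy))
      rw [hcm] at this; linarith
    rw [hFx] at hFα
    have h3 : (x : ℂ) * α^k + (y : ℂ) * α^m = 0 := by simpa using hFα
    have h4 : (x : ℂ) * α^k = -((y : ℂ) * α^m) := by linear_combination h3
    have h5 := congrArg norm h4
    have hxn : ‖(x : ℂ)‖ = 1 := by
      rw [Complex.norm_intCast]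
      exact_mod_cast hxk
    have hyn : ‖(y : ℂ)‖ = 1 := by
      rw [Complex.norm_intCast]
      exact_mod_cast hym
    rw [norm_neg, norm_mul, norm_mul, hxn, hyn, one_mul, one_mul, norm_pow, norm_pow] at h5
    have h6 : ‖α‖^(m - k) = 1 := by
      have hpos : 0 < ‖α‖^k := pow_pos (norm_pos_iff.2 hα0) k
      have h7 : ‖α‖^m = ‖α‖^k * ‖α‖^(m-k) := by
        rw [← pow_add]; congr 1; omega
      rw [h7] at h5
      have h8 : ‖α‖^k * ‖α‖^(m-k) = ‖α‖^k * 1 := by rw [← h5, mul_one]
      exact mul_left_cancel₀ hpos.ne' h8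
    exact hn1 ((pow_eq_one_iff_of_nonneg (norm_nonneg _) (by omega)).1 h6)

lemma upper : len (P * T) = 4 := by
  have h : P * T = X^7 + 2 * X^3 + 1 := by unfold P T; ring
  rw [h]
  unfold len
  have hsub : (X^7 + 2 * X^3 + 1 : ℤ[X]).support ⊆ Finset.range 8 := by
    intro i hi
    rw [Finset.mem_range]
    have h1 := le_natDegree_of_mem_supp i hi
    have h2 : (X^7 + 2 * X^3 + 1 : ℤ[X]).natDegree ≤ 7 := by compute_degree
    omega
  rw [Finset.sum_subset hsub (fun i _ hi => by rw [notMem_support_iff.1 hi, abs_zero])]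
  have hc : ∀ i, (X^7 + 2 * X^3 + 1 : ℤ[X]).coeff i = (if i = 7 then 1 else 0) + 2 * (if i = 3 then 1 else 0) + (if i = 0 then 1 else 0) := by
    intro i
    rw [coeff_add, coeff_add, coeff_X_pow, coeff_one]
    have : (2 : ℤ[X]) = C 2 := rfl
    rw [this, coeff_C_mul, coeff_X_pow]
  simp only [hc]
  decide

theorem main :
    ∃ P T : Polynomial ℤ, P.Monic ∧ Irreducible P ∧ T ≠ 0 ∧
      (∀ S : Polynomial ℤ, S ≠ 0 →
        ∑ i ∈ (P * T).support, |(P * T).coeff i| ≤
          ∑ i ∈ (P * S).support, |(P * S).coeff i|) ∧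
      ∃ z : ℂ, z ≠ 0 ∧ Polynomial.aeval z T = 0 ∧ ∀ n : ℕ, 0 < n → z ^ n ≠ 1 := by
  have hT0 : T ≠ 0 := by
    intro h
    have := T_natDegree
    rw [h, natDegree_zero] at this
    omega
  refine ⟨P, T, P_monic, P_irr, hT0, ?_, ?_⟩
  · intro S hS
    have h1 := lower S hS
    have h2 := upper
    unfold len at h1 h2
    rw [h2]
    exact h1
  · obtain ⟨z, hz⟩ : ∃ z : ℂ, aeval z T = 0 := by
      apply IsAlgClosed.exists_aeval_eq_zero
      rw [degree_eq_natDegree hT0, T_natDegree]
      norm_num
    have hz' : z^3 - z^2 + 1 = 0 := by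
      simpa [T] using hz
    refine ⟨z, ?_, hz, ?_⟩
    · rintro rfl
      norm_num at hz'
    · intro n hn h
      have h1 := congrArg norm h
      rw [norm_pow, norm_one] at h1
      exact T_root_norm hz' ((pow_eq_one_iff_of_nonneg (norm_nonneg _) (by omega)).1 h1)

end Pool.Agent.MinLen
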