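import Mathlib

set_option autoImplicit false
set_option maxHeartbeats 4000000

namespace Pool.Agent.MinRank

open Matrix

lemma det4 (M : Matrix (Fin 4) (Fin 4) ℝ) : M.det =
  M 0 0 * (M 1 1 * (M 2 2 * M 3 3 - M 2 3 * M 3 2) - M 1 2 * (M 2 1 * M 3 3 - M 2 3 * M 3 1) + M 1 3 * (M 2 1 * M 3 2 - M 2 2 * M 3 1))
  - M 0 1 * (M 1 0 * (M 2 2 * M 3 3 - M 2 3 * M 3 2) - M 1 2 * (M 2 0 * M 3 3 - M 2 3 * M 3 0) + M 1 3 * (M 2 0 * M 3 2 - M 2 2 * M 3 0))
  + M 0 2 * (M 1 0 * (M 2 1 * M 3 3 - M 2 3 * M 3 1) - M 1 1 * (M 2 0 * M 3 3 - M 2 3 * M 3 0) + M 1 3 * (M 2 0 * M 3 1 - M 2 1 * M 3 0))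
  - M 0 3 * (M 1 0 * (M 2 1 * M 3 2 - M 2 2 * M 3 1) - M 1 1 * (M 2 0 * M 3 2 - M 2 2 * M 3 0) + M 1 2 * (M 2 0 * M 3 1 - M 2 1 * M 3 0)) := by
  rw [Matrix.det_succ_row_zero]
  simp [Fin.sum_univ_succ, Matrix.det_fin_three, Fin.succAbove]
  ring

/-- incidence of the Moebius-Kantor configuration -/
def inc (i j : Fin 8) : Bool := i - j == 0 || i - j == 1 || i - j == 3

lemma final (P Q X : ℝ) (hX : X ≠ 0) (h : P + Q = X) (h' : P * Q = X ^ 2) : False := by
  have h1 : (P - Q) ^ 2 = -3 * X ^ 2 := by subst h; linear_combination (-4 : ℝ) * h'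
  have h2 : 0 < X ^ 2 := by positivity
  nlinarith [sq_nonneg (P - Q)]

/-- No real matrix with the complementary pattern of the Moebius-Kantor configuration has all
4 x 4 minors equal to zero. -/
lemma real_impossible (C : Matrix (Fin 8) (Fin 8) ℝ)
    (hz : ∀ i j, inc i j = true → C i j = 0) (hn : ∀ i j, inc i j = false → C i j ≠ 0)
    (hm : ∀ R S : Fin 4 → Fin 8, (C.submatrix R S).det = 0) : False := by
  have m0 := hm ![0, 1, 2, 3] ![0, 1, 4, 5]
  have m1 := hm ![0, 1, 2, 7] ![0, 1, 2, 7]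
  have m2 := hm ![0, 1, 6, 7] ![0, 3, 5, 6]
  have m3 := hm ![0, 3, 5, 7] ![0, 2, 4, 5]
  have m4 := hm ![1, 3, 4, 7] ![0, 1, 3, 4]
  rw [det4] at m0 m1 m2 m3 m4
  simp only [Matrix.submatrix_apply, Matrix.cons_val_zero, Matrix.cons_val_one, Matrix.cons_val] at m0 m1 m2 m3 m4
  -- zeros
  have z00 := hz 0 0 (by decide)
  have z05 := hz 0 5 (by decide)
  have z07 := hz 0 7 (by decide)
  have z10 := hz 1 0 (by decide)
  have z11 := hz 1 1 (by decide)
  have z16 := hz 1 6 (by decide)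
  have z21 := hz 2 1 (by decide)
  have z22 := hz 2 2 (by decide)
  have z27 := hz 2 7 (by decide)
  have z30 := hz 3 0 (by decide)
  have z32 := hz 3 2 (by decide)
  have z33 := hz 3 3 (by decide)
  have z41 := hz 4 1 (by decide)
  have z43 := hz 4 3 (by decide)
  have z44 := hz 4 4 (by decide)
  have z52 := hz 5 2 (by decide)
  have z54 := hz 5 4 (by decide)
  have z55 := hz 5 5 (by decide)
  have z63 := hz 6 3 (by decide)
  have z65 := hz 6 5 (by decide)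
  have z66 := hz 6 6 (by decide)
  have z74 := hz 7 4 (by decide)
  have z76 := hz 7 6 (by decide)
  have z77 := hz 7 7 (by decide)
  have n20 := hn 2 0 (by decide)
  have n17 := hn 1 7 (by decide)
  have n06 := hn 0 6 (by decide)
  have n60 := hn 6 0 (by decide)
  have n50 := hn 5 0 (by decide)
  have n40 := hn 4 0 (by decide)
  have n01 := hn 0 1 (by decide)
  have n15 := hn 1 5 (by decide)
  have n34 := hn 3 4 (by decide)
  have n72 := hn 7 2 (by decide)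
  have n73 := hn 7 3 (by decide)
  simp only [z00, z05, z07, z10, z11, z16, z21, z22, z27, z30, z32, z33, z41, z43, z44, z52, z54, z55,
    z63, z65, z66, z74, z76, z77, zero_mul, mul_zero, sub_zero, zero_sub, add_zero, zero_add] at m0 m1 m2 m3 m4
  have r0 : C 0 1 * C 1 4 * C 3 5 - C 0 1 * C 1 5 * C 3 4 + C 0 4 * C 1 5 * C 3 1 = 0 := by
    apply mul_left_cancel₀ n20
    linear_combination m0
  have r1 : C 0 2 * C 7 1 = C 0 1 * C 7 2 := by
    apply mul_left_cancel₀ (mul_ne_zero n17 n20)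
    linear_combination m1
  have r2 : C 1 3 * C 7 5 = C 1 5 * C 7 3 := by
    apply mul_left_cancel₀ (mul_ne_zero n06 n60)
    linear_combination m2
  have r3 : C 0 2 * C 3 4 * C 7 5 = - (C 0 4 * C 3 5 * C 7 2) := by
    apply mul_left_cancel₀ n50
    linear_combination m3
  have r4 : C 1 3 * C 3 4 * C 7 1 = - (C 1 4 * C 3 1 * C 7 3) := by
    apply mul_left_cancel₀ n40
    linear_combination m4
  have key : C 0 1 * C 1 5 * C 3 4 ^ 2 = C 1 4 * C 3 5 * C 0 4 * C 3 1 := by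
    apply mul_left_cancel₀ (mul_ne_zero n72 n73)
    linear_combination (-(C 1 3 * C 7 5 * C 3 4 ^ 2)) * r1 + (-(C 0 1 * C 7 2 * C 3 4 ^ 2)) * r2
      + (C 1 3 * C 3 4 * C 7 1) * r3 + (-(C 0 4 * C 3 5 * C 7 2)) * r4
  have hX : C 0 1 * C 1 5 * C 3 4 ≠ 0 := mul_ne_zero (mul_ne_zero n01 n15) n34
  have e1 : (C 0 1 * C 1 4 * C 3 5) * (C 0 4 * C 1 5 * C 3 1) = (C 0 1 * C 1 5 * C 3 4) ^ 2 := by
    linear_combination (-(C 0 1 * C 1 5)) * key
  exact final _ _ _ hX (by linarith) e1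

end Pool.Agent.MinRank
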