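import Pool.Agent.Lib.ProjApprox

set_option autoImplicit false
set_option maxHeartbeats 1000000
open Filter Topology

namespace Pool.Agent.MonoBasis
open Pool.Agent.ProjApprox

noncomputable section

/-! ### E has no monotone basis -/

lemma no_basis (g : ℕ → E) (hb : ∀ x : E, ∃! a : ℕ → ℝ,
        Tendsto (fun n : ℕ => ∑ i ∈ Finset.range n, a i • g i) atTop (𝓝 x))
    (hm : ∀ (a : ℕ → ℝ) (n m : ℕ), n ≤ m →
        ‖∑ i ∈ Finset.range n, a i • g i‖ ≤ ‖∑ i ∈ Finset.range m, a i • g i‖) : False := by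
  choose A hA hU using hb
  have hadd : ∀ x y, A (x + y) = A x + A y := by
    intro x y
    symm
    apply hU
    have := (hA x).add (hA y)
    refine this.congr (fun n => ?_)
    rw [← Finset.sum_add_distrib]
    refine Finset.sum_congr rfl (fun i _ => ?_)
    rw [Pi.add_apply, add_smul]
  have hsmul : ∀ (c : ℝ) x, A (c • x) = c • A x := by
    intro c x
    symm
    apply hU
    have := (hA x).const_smul c
    refine this.congr (fun n => ?_)
    rw [Finset.smul_sum]
    refine Finset.sum_congr rfl (fun i _ => ?_)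
    rw [Pi.smul_apply, smul_eq_mul, mul_smul]
  have hbd : ∀ n x, ‖∑ i ∈ Finset.range n, A x i • g i‖ ≤ ‖x‖ := by
    intro n x
    refine ge_of_tendsto (hA x).norm ?_
    filter_upwards [eventually_ge_atTop n] with m hnm
    exact hm _ _ _ hnm
  let u : ℕ → (E →L[ℝ] E) := fun n => LinearMap.mkContinuous
    { toFun := fun x => ∑ i ∈ Finset.range n, A x i • g i
      map_add' := fun x y => by
        rw [hadd, ← Finset.sum_add_distrib]
        refine Finset.sum_congr rfl (fun i _ => ?_)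
        rw [Pi.add_apply, add_smul]
      map_smul' := fun c x => by
        rw [hsmul, RingHom.id_apply, Finset.smul_sum]
        refine Finset.sum_congr rfl (fun i _ => ?_)
        rw [Pi.smul_apply, smul_eq_mul, mul_smul] } 1
    (fun x => by rw [one_mul]; exact hbd n x)
  have hu : ∀ n x, u n x = ∑ i ∈ Finset.range n, A x i • g i := fun n x => rfl
  have huu : ∀ n x, u n (u n x) = u n x := by
    intro n x
    have h1 : (fun i => if i < n then A x i else 0) = A (u n x) := by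
      apply hU
      refine tendsto_const_nhds.congr' ?_
      filter_upwards [eventually_ge_atTop n] with m hnm
      rw [hu]
      rw [← Finset.sum_subset (Finset.range_mono hnm)]
      · refine Finset.sum_congr rfl (fun i hi => ?_)
        rw [if_pos (Finset.mem_range.1 hi)]
      · intro i _ hi
        rw [Finset.mem_range] at hi
        rw [if_neg hi, zero_smul]
    rw [hu n (u n x), ← h1, hu n x]
    refine Finset.sum_congr rfl (fun i hi => ?_)
    simp only
    rw [if_pos (Finset.mem_range.1 hi)]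
  have hfd : ∀ n, FiniteDimensional ℝ (LinearMap.range (u n : E →ₗ[ℝ] E)) := by
    intro n
    have hle : LinearMap.range (u n : E →ₗ[ℝ] E) ≤ Submodule.span ℝ (g '' (Set.Iio n)) := by
      rintro _ ⟨x, rfl⟩
      show u n x ∈ _
      rw [hu]
      apply Submodule.sum_mem
      intro i hi
      apply Submodule.smul_mem
      apply Submodule.subset_span
      exact ⟨i, Finset.mem_range.1 hi, rfl⟩
    have : FiniteDimensional ℝ (Submodule.span ℝ (g '' (Set.Iio n))) :=
      FiniteDimensional.span_of_finite ℝ ((Set.finite_Iio n).image _)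
    exact Submodule.finiteDimensional_of_le hle
  have h1 : ∀ y : E, ∀ᶠ n in atTop, ‖u n y - y‖ ≤ 1/100 := by
    intro y
    have h : Tendsto (fun n : ℕ => ∑ i ∈ Finset.range n, A y i • g i) atTop (𝓝 y) := hA y
    rw [tendsto_iff_norm_sub_tendsto_zero] at h
    exact (h.eventually (gt_mem_nhds (show (0:ℝ) < 1/100 by norm_num))).mono (fun N h => h.le)
  obtain ⟨n, hn0, hn1⟩ := ((h1 (ê 0)).and (h1 (ê 1))).exists
  refine no_proj (u n) (hfd n) ?_ ?_ hn0 hn1
  · ext1 x; exact huu n x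
  · refine ContinuousLinearMap.opNorm_le_bound _ zero_le_one (fun x => ?_)
    rw [one_mul]; exact hbd n x

lemma not_fd : ¬ FiniteDimensional ℝ E := by
  intro h
  refine no_proj (ContinuousLinearMap.id ℝ E) ?_ ?_ ?_ ?_ ?_
  · infer_instance
  · ext1 x; rfl
  · exact ContinuousLinearMap.norm_id_le
  · simp
  · simp

/-! ### states -/

def st : ℕ → ℕ × ℕ
  | 0 => (0, 0)
  | k+1 => if (st k).2 < (st k).1 then ((st k).1, (st k).2 + 1) else ((st k).1 + 1, 0)

lemma st_inv (k : ℕ) : (st k).2 ≤ (st k).1 ∧ 2 * k = (st k).1 * ((st k).1 + 1) + 2 * (st k).2 := by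
  induction k with
  | zero => simp [st]
  | succ k ih =>
    obtain ⟨h1, h2⟩ := ih
    rw [st]
    split_ifs with h
    · simp only
      constructor
      · omega
      · rw [mul_add 2 k 1, h2]; ring
    · simp only
      have h3 : (st k).2 = (st k).1 := by omega
      rw [h3] at h2
      constructor
      · omega
      · rw [mul_add 2 k 1, h2]; ring

def lam (n : ℕ) : ℝ := 1 - (5/6)^n

lemma lam_nonneg (n : ℕ) : 0 ≤ lam n := by
  unfold lam
  have : (5/6:ℝ)^n ≤ 1 := pow_le_one₀ (by norm_num) (by norm_num)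
  linarith

lemma lam_le_one (n : ℕ) : lam n ≤ 1 := by
  unfold lam
  have : 0 ≤ (5/6:ℝ)^n := by positivity
  linarith

lemma lam_mono (n : ℕ) : lam n ≤ lam (n+1) := by
  unfold lam
  have : 0 ≤ (5/6:ℝ)^n := by positivity
  rw [pow_succ]; linarith

lemma lam_tend : Tendsto lam atTop (𝓝 1) := by
  have := (tendsto_pow_atTop_nhds_zero_of_lt_one (r := (5/6:ℝ)) (by norm_num) (by norm_num)).const_sub 1
  rw [sub_zero] at this
  exact this

lemma lam_key (n : ℕ) : lam (n+1) * (1 + 2 * (1/2)^n) + 2 * (lam (n+1) - lam n) ≤ 1 := by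
  have h1 : 4 * (1 - (5/6:ℝ)^(n+1)) ≤ (5/3)^n := by
    rcases Nat.lt_or_ge n 3 with h | h
    · interval_cases n <;> norm_num
    · have h3 : (5/3:ℝ)^3 ≤ (5/3)^n := pow_le_pow_right₀ (by norm_num) h
      have h4 : 0 ≤ (5/6:ℝ)^(n+1) := by positivity
      have h5 : (4:ℝ) ≤ (5/3)^3 := by norm_num
      linarith
  have h2 : (5/6:ℝ)^n = (1/2)^n * (5/3)^n := by rw [← mul_pow]; norm_num
  have h3 : (0:ℝ) < (1/2)^n := by positivity
  unfold lam
  rw [pow_succ] at h1 ⊢
  have h4 := mul_le_mul_of_nonneg_left h1 h3.le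
  rw [← h2] at h4
  nlinarith

def dc (n i j : ℕ) : ℝ := if j < i then lam (n+1) else if j < n then lam n else 0

lemma dc_nonneg (n i j : ℕ) : 0 ≤ dc n i j := by
  unfold dc; split_ifs
  · exact lam_nonneg _
  · exact lam_nonneg _
  · exact le_rfl

lemma dc_le (n i j : ℕ) : dc n i j ≤ lam (n+1) := by
  unfold dc; split_ifs
  · exact le_rfl
  · exact lam_mono _
  · exact lam_nonneg _

lemma dc_ge (n i j : ℕ) (h : j < n) : lam n ≤ dc n i j := by
  unfold dc; split_ifs
  · exact lam_mono _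
  · exact le_rfl

def Dg (n i : ℕ) : E →L[ℝ] E := ∑ j ∈ Finset.range n, dc n i j • (ev j).smulRight (ê j)

lemma Dg_apply (n i : ℕ) (x : E) : Dg n i x = ∑ j ∈ Finset.range n, (dc n i j * ev j x) • ê j := by
  unfold Dg
  rw [ContinuousLinearMap.sum_apply]
  refine Finset.sum_congr rfl (fun j _ => ?_)
  rw [ContinuousLinearMap.smul_apply, ContinuousLinearMap.smulRight_apply, smul_smul]

lemma ev_ê (j k : ℕ) : ev j (ê k) = if j = k then 1 else 0 := by
  rw [ev_apply, π_ê, e_apply]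

lemma ev_Dg (n i : ℕ) (h : i ≤ n) (x : E) (j : ℕ) : ev j (Dg n i x) = dc n i j * ev j x := by
  rw [Dg_apply, map_sum]
  simp_rw [map_smul, ev_ê, smul_eq_mul]
  simp only [mul_ite, mul_one, mul_zero]
  rw [Finset.sum_ite_eq]
  split_ifs with h1
  · rfl
  · rw [Finset.mem_range, not_lt] at h1
    have : dc n i j = 0 := by
      unfold dc
      rw [if_neg (by omega), if_neg (by omega)]
    rw [this, zero_mul]

lemma f_Dg (n i : ℕ) (x : E) : f (π (Dg n i x)) = ∑ j ∈ Finset.range n, b j * (dc n i j * ev j x) := by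
  rw [Dg_apply, map_sum, map_sum]
  apply Finset.sum_congr rfl
  intro j _
  rw [map_smul, map_smul, π_ê, f_e, smul_eq_mul, mul_comm]

lemma Dg_norm (n i : ℕ) (h : i ≤ n) (x : E) : ‖Dg n i x‖ ≤ ‖x‖ := by
  rw [norm_E' (Dg n i x), norm_E' x]
  have h1 : ‖π (Dg n i x)‖ ≤ lam (n+1) * ‖π x‖ := by
    apply norm_le' _ (mul_nonneg (lam_nonneg _) (norm_nonneg _))
    intro j
    rw [← ev_apply, ev_Dg n i h, abs_mul, abs_of_nonneg (dc_nonneg _ _ _), ev_apply]
    exact mul_le_mul (dc_le _ _ _) (abs_le' _ _) (abs_nonneg _) (lam_nonneg _)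
  have h2 : |f (π (Dg n i x)) - lam (n+1) * f (π x)| ≤
      (2 * (lam (n+1) - lam n)) * ‖π x‖ + lam (n+1) * (2 * (1/2)^n * ‖π x‖) := by
    have e1 : f (π (Dg n i x)) - lam (n+1) * f (π x) =
        ∑ j ∈ Finset.range n, b j * ((dc n i j - lam (n+1)) * π x j)
        - lam (n+1) * (f (π x) - ∑ j ∈ Finset.range n, b j * π x j) := by
      rw [f_Dg, mul_sub, Finset.mul_sum, ← sub_add, ]
      have : ∑ j ∈ Finset.range n, b j * (dc n i j * ev j x) = ∑ j ∈ Finset.range n, b j * ((dc n i j - lam (n+1)) * π x j) + ∑ j ∈ Finset.range n, lam (n+1) * (b j * π x j) := by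
        rw [← Finset.sum_add_distrib]
        refine Finset.sum_congr rfl (fun j _ => ?_)
        rw [ev_apply]; ring
      rw [this]; ring
    rw [e1]
    refine (abs_sub _ _).trans ?_
    apply add_le_add
    · refine (Finset.abs_sum_le_sum_abs _ _).trans ?_
      have h3 : ∀ j ∈ Finset.range n, |b j * ((dc n i j - lam (n+1)) * π x j)| ≤ b j * ((lam (n+1) - lam n) * ‖π x‖) := by
        intro j hj
        rw [abs_mul, abs_mul, abs_of_pos (b_pos j)]
        apply mul_le_mul_of_nonneg_left _ (b_pos j).le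
        apply mul_le_mul _ (abs_le' _ _) (abs_nonneg _) (sub_nonneg.2 (lam_mono n))
        rw [abs_sub_comm, abs_of_nonneg (sub_nonneg.2 (dc_le _ _ _))]
        have := dc_ge n i j (Finset.mem_range.1 hj)
        linarith
      refine (Finset.sum_le_sum h3).trans ?_
      rw [← Finset.sum_mul]
      have h4 : ∑ j ∈ Finset.range n, b j ≤ 2 := sum_le_hasSum _ (fun n _ => (b_pos n).le) b_sum
      have h5 : 0 ≤ (lam (n+1) - lam n) * ‖π x‖ := mul_nonneg (sub_nonneg.2 (lam_mono n)) (norm_nonneg _)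
      nlinarith
    · rw [abs_mul, abs_of_nonneg (lam_nonneg _)]
      exact mul_le_mul_of_nonneg_left (f_tail _ _) (lam_nonneg _)
  have h3 : |f (π (Dg n i x))| ≤ lam (n+1) * |f (π x)| + ((2 * (lam (n+1) - lam n)) * ‖π x‖ + lam (n+1) * (2 * (1/2)^n * ‖π x‖)) := by
    have h4 := abs_sub_abs_le_abs_sub (f (π (Dg n i x))) (lam (n+1) * f (π x))
    rw [abs_mul, abs_of_nonneg (lam_nonneg _)] at h4
    linarith
  have h4 := lam_key n
  have h5 : 0 ≤ ‖π x‖ := norm_nonneg _
  have h6 := mul_le_mul_of_nonneg_right h4 h5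
  have h7 : lam (n+1) * |f (π x)| ≤ |f (π x)| := mul_le_of_le_one_left (abs_nonneg _) (lam_le_one _)
  nlinarith

def DD (k : ℕ) : E →L[ℝ] E := Dg (st k).1 (st k).2
def sg (k : ℕ) : ℕ := (st k).2

lemma DD_zero (x : E) : DD 0 x = 0 := by
  unfold DD
  rw [Dg_apply]
  simp [st]

lemma DD_norm (k : ℕ) (x : E) : ‖DD k x‖ ≤ ‖x‖ := Dg_norm _ _ (st_inv k).1 x

lemma DD_step (k j : ℕ) (hj : j ≠ sg k) (x : E) : ev j (DD (k+1) x) = ev j (DD k x) := by
  unfold DD
  rw [ev_Dg _ _ (st_inv _).1, ev_Dg _ _ (st_inv _).1]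
  congr 1
  unfold sg at hj
  have h1 := (st_inv k).1
  rw [st]
  split_ifs with h
  · simp only
    unfold dc
    by_cases h2 : j < (st k).2
    · rw [if_pos (by omega), if_pos h2]
    · rw [if_neg (by omega), if_neg h2]
  · simp only
    unfold dc
    by_cases h2 : j < (st k).2
    · rw [if_neg (by omega), if_pos (by omega), if_pos h2]
    · rw [if_neg (by omega), if_neg (by omega), if_neg h2, if_neg (by omega)]

lemma n_tend : Tendsto (fun k => (st k).1) atTop atTop := by
  rw [tendsto_atTop]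
  intro N
  filter_upwards [eventually_ge_atTop ((N+1)^2)] with k hk
  by_contra hlt
  rw [not_le] at hlt
  obtain ⟨h1, h2⟩ := st_inv k
  nlinarith

lemma dc_tend (j : ℕ) : Tendsto (fun k => dc (st k).1 (st k).2 j) atTop (𝓝 1) := by
  refine tendsto_of_tendsto_of_tendsto_of_le_of_le' (lam_tend.comp n_tend) tendsto_const_nhds ?_ ?_
  · filter_upwards [n_tend.eventually_gt_atTop j] with k hk
    exact dc_ge _ _ _ hk
  · exact Eventually.of_forall (fun k => (dc_le _ _ _).trans (lam_le_one _))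

lemma DD_ê (k j : ℕ) : DD k (ê j) = dc (st k).1 (st k).2 j • ê j := by
  apply E_ext
  rw [← π_apply, ← π_apply]
  apply ZeroAtInftyContinuousMap.ext
  intro m
  rw [← ev_apply, ← ev_apply]
  unfold DD
  rw [ev_Dg _ _ (st_inv _).1, map_smul, ev_ê]
  by_cases h : m = j
  · subst h; simp
  · simp [h]

lemma DD_tend (x : E) : Tendsto (fun k => DD k x) atTop (𝓝 x) := by
  rw [Metric.tendsto_atTop]
  intro ε hε
  obtain ⟨N, hN⟩ : ∃ N, ‖P N x - x‖ < ε/4 := by
    have := P_tend x
    rw [Metric.tendsto_atTop] at this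
    obtain ⟨N, hN⟩ := this (ε/4) (by linarith)
    exact ⟨N, by have := hN N le_rfl; rwa [dist_eq_norm] at this⟩
  have h1 : Tendsto (fun k => DD k (P N x)) atTop (𝓝 (P N x)) := by
    have h2 : ∀ k, DD k (P N x) = ∑ n ∈ Finset.range N, π x n • (dc (st k).1 (st k).2 n • ê n) := by
      intro k
      rw [P_apply, map_sum]
      refine Finset.sum_congr rfl (fun n _ => ?_)
      rw [map_smul, DD_ê]
    simp_rw [h2]
    rw [P_apply]
    apply tendsto_finsetSum
    intro n _
    apply Tendsto.const_smul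
    have h3 := (dc_tend n).smul_const (ê n)
    rwa [one_smul] at h3
  rw [Metric.tendsto_atTop] at h1
  obtain ⟨K, hK⟩ := h1 (ε/4) (by linarith)
  refine ⟨K, fun k hk => ?_⟩
  have h2 := hK k hk
  rw [dist_eq_norm] at h2 ⊢
  have h3 : DD k x - x = (DD k (P N x) - P N x) - DD k (P N x - x) + (P N x - x) := by
    rw [map_sub]; abel
  rw [h3]
  have h4 := DD_norm k (P N x - x)
  have h5 := norm_add_le ((DD k (P N x) - P N x) - DD k (P N x - x)) (P N x - x)
  have h6 := norm_sub_le (DD k (P N x) - P N x) (DD k (P N x - x))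
  linarith

/-! ### the space B0 -/

abbrev CE : Type := C(OnePoint ℕ, E)

def B0 : Submodule ℝ CE where
  carrier := {z | z ((0 : ℕ) : OnePoint ℕ) = 0 ∧
    ∀ m j, j ≠ sg m → ev j (z ((m + 1 : ℕ) : OnePoint ℕ)) = ev j (z ((m : ℕ) : OnePoint ℕ))}
  add_mem' := by
    rintro x y ⟨hx0, hx⟩ ⟨hy0, hy⟩
    refine ⟨?_, fun m j hj => ?_⟩
    · rw [ContinuousMap.add_apply, hx0, hy0, add_zero]
    · rw [ContinuousMap.add_apply, ContinuousMap.add_apply, map_add, map_add, hx m j hj, hy m j hj]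
  zero_mem' := by
    refine ⟨rfl, fun m j hj => rfl⟩
  smul_mem' := by
    rintro c x ⟨hx0, hx⟩
    refine ⟨?_, fun m j hj => ?_⟩
    · rw [ContinuousMap.smul_apply, hx0, smul_zero]
    · rw [ContinuousMap.smul_apply, ContinuousMap.smul_apply, map_smul, map_smul, hx m j hj]

lemma B0_closed : IsClosed (B0 : Set CE) := by
  have : (B0 : Set CE) = {z | z ((0 : ℕ) : OnePoint ℕ) = 0} ∩
    ⋂ m : ℕ, ⋂ j : ℕ, {z | j ≠ sg m → ev j (z ((m + 1 : ℕ) : OnePoint ℕ)) = ev j (z ((m : ℕ) : OnePoint ℕ))} := by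
    ext z
    simp only [Set.mem_inter_iff, Set.mem_iInter]
    rfl
  rw [this]
  have hev : ∀ p : OnePoint ℕ, Continuous (fun z : CE => z p) := fun p => by fun_prop
  apply IsClosed.inter
  · exact isClosed_eq (hev _) continuous_const
  · apply isClosed_iInter; intro m
    apply isClosed_iInter; intro j
    by_cases h : j = sg m
    · have : {z : CE | j ≠ sg m → ev j (z ((m + 1 : ℕ) : OnePoint ℕ)) = ev j (z ((m : ℕ) : OnePoint ℕ))} = Set.univ := by
        ext z; simp [h]
      rw [this]; exact isClosed_univ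
    · have : {z : CE | j ≠ sg m → ev j (z ((m + 1 : ℕ) : OnePoint ℕ)) = ev j (z ((m : ℕ) : OnePoint ℕ))} = {z : CE | ev j (z ((m + 1 : ℕ) : OnePoint ℕ)) = ev j (z ((m : ℕ) : OnePoint ℕ))} := by
        ext z; simp [h]
      rw [this]
      exact isClosed_eq ((ev j).continuous.comp (hev _)) ((ev j).continuous.comp (hev _))

def BT : Type := B0
instance : NormedAddCommGroup BT := inferInstanceAs (NormedAddCommGroup B0)
instance : NormedSpace ℝ BT := inferInstanceAs (NormedSpace ℝ B0)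
instance : CompleteSpace BT := B0_closed.completeSpace_coe

def toC (z : BT) : CE := Subtype.val (p := fun z => z ∈ B0) z
def mkB (z : CE) (h : z ∈ B0) : BT := (⟨z, h⟩ : B0)
lemma toC_mem (z : BT) : toC z ∈ B0 := Subtype.property (p := fun z => z ∈ B0) z

def bvC (k : ℕ) : CE := OnePoint.continuousMapMkNat (fun m => if k < m then ê (sg k) else 0) (ê (sg k))
  (by
    refine tendsto_const_nhds.congr' ?_
    filter_upwards [eventually_gt_atTop k] with m hm
    rw [if_pos hm])

lemma bvC_nat (k m : ℕ) : bvC k ((m : ℕ) : OnePoint ℕ) = if k < m then ê (sg k) else 0 := rfl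
lemma bvC_inf (k : ℕ) : bvC k OnePoint.infty = ê (sg k) := rfl

def bv (k : ℕ) : BT := mkB (bvC k) (by
  refine ⟨?_, fun m j hj => ?_⟩
  · rw [bvC_nat, if_neg (by omega)]
  · rw [bvC_nat, bvC_nat]
    by_cases h : k < m
    · rw [if_pos h, if_pos (by omega)]
    · rw [if_neg h]
      split_ifs with h2
      · have : k = m := by omega
        subst this
        rw [ev_ê, if_neg hj, map_zero]
      · rfl)

def S (a : ℕ → ℝ) (n : ℕ) : E := ∑ k ∈ Finset.range n, a k • ê (sg k)

/-- evaluation at a point -/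
def evp (p : OnePoint ℕ) : BT →L[ℝ] E := LinearMap.mkContinuous (𝕜 := ℝ)
  { toFun := fun z => toC z p
    map_add' := fun x y => rfl
    map_smul' := fun c x => rfl } 1 (by
      intro x; rw [one_mul]; exact ContinuousMap.norm_coe_le_norm (toC x) p)

lemma evp_apply (p : OnePoint ℕ) (z : BT) : evp p z = (toC z) p := rfl

lemma evp_le (p : OnePoint ℕ) (z : BT) : ‖evp p z‖ ≤ ‖z‖ := ContinuousMap.norm_coe_le_norm (toC z) p

lemma norm_le_B0 (z : BT) (C : ℝ) (hC : 0 ≤ C) (h0 : ∀ m : ℕ, ‖evp (m : OnePoint ℕ) z‖ ≤ C) (h1 : ‖evp OnePoint.infty z‖ ≤ C) : ‖z‖ ≤ C := by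
  show ‖toC z‖ ≤ C
  rw [ContinuousMap.norm_le _ hC]
  intro p
  induction p using OnePoint.rec with
  | infty => exact h1
  | coe m => exact h0 m

lemma evp_sum_nat (a : ℕ → ℝ) (n m : ℕ) :
    evp ((m : ℕ) : OnePoint ℕ) (∑ k ∈ Finset.range n, a k • bv k) = S a (min n m) := by
  rw [map_sum]
  have h1 : ∀ k, evp ((m : ℕ) : OnePoint ℕ) (a k • bv k) = if k < m then a k • ê (sg k) else 0 := by
    intro k
    rw [map_smul]
    show a k • bvC k ((m : ℕ) : OnePoint ℕ) = _
    rw [bvC_nat]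
    split_ifs
    · rfl
    · rw [smul_zero]
  simp_rw [h1]
  unfold S
  rw [← Finset.sum_filter]
  apply Finset.sum_congr _ (fun _ _ => rfl)
  ext k
  simp only [Finset.mem_filter, Finset.mem_range]
  omega

lemma evp_sum_inf (a : ℕ → ℝ) (n : ℕ) :
    evp OnePoint.infty (∑ k ∈ Finset.range n, a k • bv k) = S a n := by
  rw [map_sum]
  refine Finset.sum_congr rfl (fun k _ => ?_)
  rw [map_smul]
  show a k • bvC k OnePoint.infty = _
  rw [bvC_inf]

lemma mono_B0 (a : ℕ → ℝ) (n m : ℕ) (h : n ≤ m) :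
    ‖∑ i ∈ Finset.range n, a i • bv i‖ ≤ ‖∑ i ∈ Finset.range m, a i • bv i‖ := by
  apply norm_le_B0 _ _ (norm_nonneg _)
  · intro l
    rw [evp_sum_nat]
    have : S a (min n l) = evp ((min n l : ℕ) : OnePoint ℕ) (∑ i ∈ Finset.range m, a i • bv i) := by
      rw [evp_sum_nat]; congr 1; omega
    rw [this]; exact evp_le _ _
  · rw [evp_sum_inf]
    have : S a n = evp ((n : ℕ) : OnePoint ℕ) (∑ i ∈ Finset.range m, a i • bv i) := by
      rw [evp_sum_nat]; congr 1; omega
    rw [this]; exact evp_le _ _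

def co (z : BT) (k : ℕ) : ℝ := ev (sg k) (evp ((k + 1 : ℕ) : OnePoint ℕ) z) - ev (sg k) (evp ((k : ℕ) : OnePoint ℕ) z)

lemma S_co (z : BT) (n : ℕ) : S (co z) n = evp ((n : ℕ) : OnePoint ℕ) z := by
  induction n with
  | zero =>
    unfold S
    rw [Finset.sum_range_zero]
    exact (toC_mem z).1.symm
  | succ n ih =>
    have h1 : S (co z) (n+1) = S (co z) n + co z n • ê (sg n) := by
      unfold S; rw [Finset.sum_range_succ]
    rw [h1, ih]
    apply E_ext
    rw [← π_apply, ← π_apply]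
    apply ZeroAtInftyContinuousMap.ext
    intro j
    rw [← ev_apply, ← ev_apply, map_add, map_smul, ev_ê]
    by_cases h : j = sg n
    · rw [if_pos h]; unfold co; rw [h]; simp
    · rw [if_neg h, smul_zero, add_zero]
      exact ((toC_mem z).2 n j h).symm

lemma evp_tend (z : BT) : Tendsto (fun n : ℕ => evp (n : OnePoint ℕ) z) atTop (𝓝 (evp OnePoint.infty z)) := by
  have := (OnePoint.continuous_iff_from_nat (toC z)).1 (toC z).continuous
  exact this

lemma expand (z : BT) : Tendsto (fun n : ℕ => ∑ i ∈ Finset.range n, co z i • bv i) atTop (𝓝 z) := by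
  rw [Metric.tendsto_atTop]
  intro ε hε
  have h := evp_tend z
  rw [Metric.tendsto_atTop] at h
  obtain ⟨N, hN⟩ := h (ε/4) (by linarith)
  refine ⟨N, fun n hn => ?_⟩
  rw [dist_eq_norm]
  refine lt_of_le_of_lt (b := ε/2) ?_ (by linarith)
  apply norm_le_B0 _ _ (by linarith)
  · intro m
    rw [map_sub, evp_sum_nat, S_co]
    rcases le_or_gt m n with h | h
    · rw [min_eq_right h, sub_self, norm_zero]; linarith
    · rw [min_eq_left h.le]
      have h1 := hN n hn
      have h2 := hN m (by omega)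
      rw [← dist_eq_norm]
      have h3 := dist_triangle_right (evp ((n:ℕ) : OnePoint ℕ) z) (evp ((m:ℕ) : OnePoint ℕ) z) (evp OnePoint.infty z)
      linarith
  · rw [map_sub, evp_sum_inf, S_co, ← dist_eq_norm]
    have h1 := hN n hn
    linarith

lemma expand_unique (z : BT) (a : ℕ → ℝ) (ha : Tendsto (fun n : ℕ => ∑ i ∈ Finset.range n, a i • bv i) atTop (𝓝 z)) :
    a = co z := by
  have h1 : ∀ m : ℕ, S a m = evp ((m : ℕ) : OnePoint ℕ) z := by
    intro m
    have h2 := ((evp ((m:ℕ) : OnePoint ℕ)).continuous.tendsto z).comp ha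
    have h3 : Tendsto (fun n : ℕ => S a m) atTop (𝓝 (evp ((m:ℕ) : OnePoint ℕ) z)) := by
      refine h2.congr' ?_
      filter_upwards [eventually_ge_atTop m] with n hn
      simp only [Function.comp]
      rw [evp_sum_nat, min_eq_right hn]
    exact tendsto_nhds_unique tendsto_const_nhds h3
  funext k
  unfold co
  rw [← h1, ← h1]
  have h2 : S a (k+1) = S a k + a k • ê (sg k) := by
    unfold S; rw [Finset.sum_range_succ]
  rw [h2, map_add, map_smul, ev_ê, if_pos rfl]
  simp

/-! ### embedding -/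

def JC (x : E) : CE := OnePoint.continuousMapMkNat (fun m => DD m x) x (DD_tend x)

def J0 (x : E) : BT := mkB (JC x) ⟨DD_zero x, fun m j hj => DD_step m j hj x⟩

lemma J0_nat (x : E) (m : ℕ) : evp (m : OnePoint ℕ) (J0 x) = DD m x := rfl
lemma J0_inf (x : E) : evp OnePoint.infty (J0 x) = x := rfl

lemma B0_ext (z w : BT) (h0 : ∀ m : ℕ, evp (m : OnePoint ℕ) z = evp (m : OnePoint ℕ) w) (h1 : evp OnePoint.infty z = evp OnePoint.infty w) : z = w := by
  have : ‖z - w‖ ≤ 0 := by
    apply norm_le_B0 _ _ le_rfl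
    · intro m; rw [map_sub, h0, sub_self, norm_zero]
    · rw [map_sub, h1, sub_self, norm_zero]
  have h2 : ‖z - w‖ = 0 := le_antisymm this (norm_nonneg _)
  exact sub_eq_zero.1 (norm_eq_zero.1 h2)

def J : E →L[ℝ] BT := LinearMap.mkContinuous
  { toFun := J0
    map_add' := fun x y => by
      apply B0_ext
      · intro m; rw [map_add, J0_nat, J0_nat, J0_nat, map_add]
      · rw [map_add, J0_inf, J0_inf, J0_inf]
    map_smul' := fun c x => by
      apply B0_ext
      · intro m; rw [RingHom.id_apply, map_smul, J0_nat, J0_nat, map_smul]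
      · rw [RingHom.id_apply, map_smul, J0_inf, J0_inf] } 1
  (fun x => by
    rw [one_mul]
    apply norm_le_B0 _ _ (norm_nonneg _)
    · intro m; exact DD_norm m x
    · exact le_rfl)

lemma J_inf (x : E) : evp OnePoint.infty (J x) = x := rfl

lemma J_norm (x : E) : ‖J x‖ ≤ ‖x‖ := by
  apply norm_le_B0 _ _ (norm_nonneg _)
  · intro m; exact DD_norm m x
  · exact le_rfl

def PP : BT →L[ℝ] BT := J.comp (evp OnePoint.infty)

lemma PP_apply (z : BT) : PP z = J (evp OnePoint.infty z) := rfl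

def FF : Submodule ℝ BT := LinearMap.ker ((PP - ContinuousLinearMap.id ℝ BT : BT →L[ℝ] BT) : BT →ₗ[ℝ] BT)

lemma mem_FF (z : BT) : z ∈ FF ↔ J (evp OnePoint.infty z) = z := by
  unfold FF
  rw [LinearMap.mem_ker]
  show PP z - z = 0 ↔ _
  rw [sub_eq_zero, PP_apply]

lemma J_mem (x : E) : J x ∈ FF := by
  rw [mem_FF, J_inf]

lemma FF_closed : IsClosed (FF : Set BT) := (PP - ContinuousLinearMap.id ℝ BT).isClosed_ker


lemma fd_aux {V : Type} [AddCommGroup V] [Module ℝ V] (F : Submodule ℝ V) (h : FiniteDimensional ℝ F)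
   {U : Type} [AddCommGroup U] [Module ℝ U] (j : U →ₗ[ℝ] V) (hj : ∀ x, j x ∈ F) (hi : Function.Injective j) : FiniteDimensional ℝ U := by
  let JL : U →ₗ[ℝ] F := LinearMap.codRestrict F j hj
  have hinj : Function.Injective JL := by
    intro x y hxy
    exact hi (congrArg Subtype.val hxy)
  exact FiniteDimensional.of_injective JL hinj

lemma FF_nfd : ¬ FiniteDimensional ℝ FF := by
  intro h
  apply not_fd
  refine fd_aux FF h (J : E →ₗ[ℝ] BT) J_mem ?_
  intro x y h1
  have h2 := congrArg (evp OnePoint.infty) h1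
  exact h2

lemma B0_nfd : ¬ FiniteDimensional ℝ BT := by
  intro h
  apply FF_nfd
  exact FiniteDimensional.finiteDimensional_submodule FF

def Concl (B : Type) [NormedAddCommGroup B] [NormedSpace ℝ B] (F : Submodule ℝ B) : Prop :=
      ∃ f : ℕ → B, (∀ i : ℕ, f i ∈ F) ∧
        (∀ x ∈ F, ∃! a : ℕ → ℝ,
          Tendsto (fun n : ℕ => ∑ i ∈ Finset.range n, a i • f i) atTop (𝓝 x)) ∧
        (∀ (a : ℕ → ℝ) (n m : ℕ), n ≤ m →
          ‖∑ i ∈ Finset.range n, a i • f i‖ ≤ ‖∑ i ∈ Finset.range m, a i • f i‖)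

def BasisHyp (B : Type) [NormedAddCommGroup B] [NormedSpace ℝ B] : Prop :=
    (∃ e : ℕ → B,
      (∀ x : B, ∃! a : ℕ → ℝ,
        Tendsto (fun n : ℕ => ∑ i ∈ Finset.range n, a i • e i) atTop (𝓝 x)) ∧
      (∀ (a : ℕ → ℝ) (n m : ℕ), n ≤ m →
        ‖∑ i ∈ Finset.range n, a i • e i‖ ≤ ‖∑ i ∈ Finset.range m, a i • e i‖))

lemma basisHyp : BasisHyp BT := ⟨bv, fun z => ⟨co z, expand z, fun a ha => expand_unique z a ha⟩, mono_B0⟩

def ProjHyp (B : Type) [NormedAddCommGroup B] [NormedSpace ℝ B] (F : Submodule ℝ B) : Prop :=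
  (∃ P : B →L[ℝ] B, (∀ x : B, P x ∈ F) ∧ (∀ x ∈ F, P x = x) ∧ ‖P‖ ≤ 1)

lemma PP_mem (x : BT) : PP x ∈ FF := by rw [PP_apply]; exact J_mem _
lemma PP_id (x : BT) (hx : x ∈ FF) : PP x = x := by rw [PP_apply]; exact (mem_FF x).1 hx
lemma PP_norm : ‖PP‖ ≤ 1 := by
  refine ContinuousLinearMap.opNorm_le_bound _ zero_le_one (fun x => ?_)
  rw [one_mul, PP_apply]
  exact (J_norm _).trans (evp_le _ _)

lemma projHyp : ProjHyp BT FF := ⟨PP, PP_mem, PP_id, PP_norm⟩

lemma no_concl : ¬ Concl BT FF := by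
  rintro ⟨f, hf, hb, hm⟩
  -- transfer to E
  let g : ℕ → E := fun i => evp OnePoint.infty (f i)
  have hJg : ∀ i, J (g i) = f i := fun i => (mem_FF (f i)).1 (hf i)
  have hsum : ∀ (a : ℕ → ℝ) (n : ℕ), J (∑ i ∈ Finset.range n, a i • g i) = ∑ i ∈ Finset.range n, a i • f i := by
    intro a n
    rw [map_sum]
    refine Finset.sum_congr rfl (fun i _ => ?_)
    rw [map_smul, hJg]
  have hJn : ∀ x, ‖J x‖ = ‖x‖ := by
    intro x
    apply le_antisymm (J_norm x)
    exact evp_le OnePoint.infty (J x)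
  apply no_basis g
  · intro x
    obtain ⟨a, ha, hau⟩ := hb (J x) (J_mem x)
    refine ⟨a, ?_, ?_⟩
    · have h2 := ((evp OnePoint.infty).continuous.tendsto (J x)).comp ha
      rw [J_inf] at h2
      refine h2.congr (fun n => ?_)
      simp only [Function.comp]
      rw [← hsum, J_inf]
    · intro c hc
      apply hau
      have h2 := (J.continuous.tendsto x).comp hc
      refine h2.congr (fun n => ?_)
      simp only [Function.comp]
      rw [hsum]
  · intro a n m hnm
    have := hm a n m hnm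
    rwa [← hsum, ← hsum, hJn, hJn] at this

theorem main0 : ¬ (∀ (B : Type) [NormedAddCommGroup B] [NormedSpace ℝ B] [CompleteSpace B],
    ¬ FiniteDimensional ℝ B → BasisHyp B →
    ∀ F : Submodule ℝ B, IsClosed (F : Set B) → ¬ FiniteDimensional ℝ F →
      ProjHyp B F → Concl B F) := by
  intro H
  exact no_concl (H BT B0_nfd basisHyp FF FF_closed FF_nfd projHyp)

theorem main :
    ¬ (∀ (B : Type) [NormedAddCommGroup B] [NormedSpace ℝ B] [CompleteSpace B],
    ¬ FiniteDimensional ℝ B →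
    (∃ e : ℕ → B,
      (∀ x : B, ∃! a : ℕ → ℝ,
        Tendsto (fun n : ℕ => ∑ i ∈ Finset.range n, a i • e i) atTop (𝓝 x)) ∧
      (∀ (a : ℕ → ℝ) (n m : ℕ), n ≤ m →
        ‖∑ i ∈ Finset.range n, a i • e i‖ ≤ ‖∑ i ∈ Finset.range m, a i • e i‖)) →
    ∀ F : Submodule ℝ B, IsClosed (F : Set B) → ¬ FiniteDimensional ℝ F →
      (∃ P : B →L[ℝ] B, (∀ x : B, P x ∈ F) ∧ (∀ x ∈ F, P x = x) ∧ ‖P‖ ≤ 1) →
      ∃ f : ℕ → B, (∀ i : ℕ, f i ∈ F) ∧
        (∀ x ∈ F, ∃! a : ℕ → ℝ,
          Tendsto (fun n : ℕ => ∑ i ∈ Finset.range n, a i • f i) atTop (𝓝 x)) ∧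
        (∀ (a : ℕ → ℝ) (n m : ℕ), n ≤ m →
          ‖∑ i ∈ Finset.range n, a i • f i‖ ≤ ‖∑ i ∈ Finset.range m, a i • f i‖)) := main0
end
end Pool.Agent.MonoBasis
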