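import Mathlib
set_option autoImplicit false
set_option maxHeartbeats 4000000

namespace Pool.Agent.OddSym

open Finset

variable {G : Type} [Group G] [Fintype G] [DecidableEq G]

omit [DecidableEq G] in
/-- squaring is injective in a finite group of odd order -/
lemma sq_inj (hodd : Odd (Fintype.card G)) {a b : G} (h : a * a = b * b) : a = b := by
  have hco : (Nat.card G).Coprime 2 := by
    rw [Nat.card_eq_fintype_card]
    exact Nat.Coprime.symm (Nat.coprime_two_left.mpr hodd)
  have := (powCoprime hco).injective (a₁ := a) (a₂ := b) (by simpa [powCoprime, sq] using h)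
  exact this

/-- the reflection about `g` -/
def refl (g x : G) : G := g * x⁻¹ * g

omit [Fintype G] [DecidableEq G] in
lemma refl_refl (g x : G) : refl g (refl g x) = x := by
  unfold refl; group

omit [DecidableEq G] in
lemma refl_bij (hodd : Odd (Fintype.card G)) (x : G) :
    Function.Bijective (fun g => refl g x) := by
  rw [Finite.injective_iff_bijective.symm]
  intro a b h
  have h' : (x⁻¹ * a) * (x⁻¹ * a) = (x⁻¹ * b) * (x⁻¹ * b) := by
    have : x⁻¹ * refl a x = x⁻¹ * refl b x := by
      simpa using h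
    unfold refl at this
    simpa [mul_assoc] using this
  have := sq_inj hodd h'
  exact mul_left_cancel this

/-- the maximal monochromatic symmetric set of colour `c` about `g` -/
def S {r : ℕ} (χ : G → Fin r) (g : G) (c : Fin r) : Finset G :=
  univ.filter (fun x => χ x = c ∧ χ (refl g x) = c)

omit [DecidableEq G] in
lemma sum_S (hodd : Odd (Fintype.card G)) {r : ℕ} (χ : G → Fin r) (c : Fin r) :
    ∑ g : G, (S χ g c).card = (univ.filter (fun x => χ x = c)).card ^ 2 := by
  have h1 : ∀ g : G, (S χ g c).card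
      = ∑ x : G, if (χ x = c ∧ χ (refl g x) = c) then 1 else 0 := by
    intro g; unfold S; rw [Finset.card_filter]
  simp_rw [h1]
  rw [Finset.sum_comm]
  have h2 : ∀ x : G, (∑ g : G, if (χ x = c ∧ χ (refl g x) = c) then 1 else 0)
      = if χ x = c then (univ.filter (fun x => χ x = c)).card else 0 := by
    intro x
    by_cases hx : χ x = c
    · simp only [hx, true_and, if_true]
      rw [Finset.card_filter]
      exact (refl_bij hodd x).sum_comp (fun y => if χ y = c then 1 else 0)
    · simp [hx]
  simp_rw [h2]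
  rw [← Finset.sum_filter, Finset.sum_const, smul_eq_mul, sq]

/-- parity of `S χ g c` -/
lemma S_parity (hodd : Odd (Fintype.card G)) {r : ℕ} (χ : G → Fin r) (g : G) (c : Fin r) :
    (Odd (S χ g c).card ↔ χ g = c) := by
  have hfix : ∀ x : G, refl g x = x → x = g := by
    intro x hx
    have : (x⁻¹ * g) * (x⁻¹ * g) = 1 * 1 := by
      have h3 : x⁻¹ * refl g x = x⁻¹ * x := by rw [hx]
      unfold refl at h3
      simpa [mul_assoc] using h3
    have h4 := sq_inj hodd this
    have : g = x := by
      have := congrArg (fun y => x * y) h4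
      simpa using this
    exact this.symm
  have hmem : ∀ x, x ∈ S χ g c ↔ (χ x = c ∧ χ (refl g x) = c) := by
    intro x; simp [S]
  have hgg : refl g g = g := by unfold refl; group
  have hsum : ∑ x ∈ (S χ g c).erase g, (1 : ZMod 2) = 0 := by
    refine Finset.sum_involution (fun x _ => refl g x) ?_ ?_ ?_ ?_
    · intro a ha; decide
    · intro a ha _ h
      exact (Finset.mem_erase.mp ha).1 (hfix a h)
    · intro a ha
      rw [Finset.mem_erase, hmem] at ha ⊢
      refine ⟨?_, ha.2.2, ?_⟩
      · intro h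
        have h5 : refl g (refl g a) = refl g g := by rw [h]
        rw [refl_refl, hgg] at h5
        exact ha.1 h5
      · rw [refl_refl]; exact ha.2.1
    · intro a ha; exact refl_refl g a
  have heven : Even ((S χ g c).erase g).card := by
    rw [Finset.sum_const, nsmul_eq_mul, mul_one] at hsum
    rw [even_iff_two_dvd]
    exact (ZMod.natCast_eq_zero_iff _ 2).mp hsum
  by_cases hg : χ g = c
  · have hgS : g ∈ S χ g c := by rw [hmem, hgg]; exact ⟨hg, hg⟩
    have : (S χ g c).card = ((S χ g c).erase g).card + 1 := by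
      rw [Finset.card_erase_of_mem hgS]
      have := Finset.card_pos.mpr ⟨g, hgS⟩
      omega
    simp only [hg, iff_true, this]
    exact heven.add_one
  · have hgS : g ∉ S χ g c := by rw [hmem]; intro h; exact hg h.1
    rw [Finset.erase_eq_of_notMem hgS] at heven
    simp only [hg, iff_false, Nat.not_odd_iff_even]
    exact heven

theorem main (hodd : Odd (Fintype.card G)) (r : ℕ) (hr : 1 < r) (χ : G → Fin r) :
    ∃ (g : G) (c : Fin r), Fintype.card G < (S χ g c).card * r ^ 2 := by
  by_contra hcon
  push Not at hcon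
  set n := Fintype.card G with hn
  have hnpos : 0 < n := Fintype.card_pos
  let a : Fin r → ℕ := fun c => (univ.filter (fun x => χ x = c)).card
  -- each colour class has at most n / r elements
  have hle : ∀ c, a c * r ≤ n := by
    intro c
    have h1 : a c ^ 2 * r ^ 2 ≤ n ^ 2 := by
      have : a c ^ 2 = ∑ g : G, (S χ g c).card := (sum_S hodd χ c).symm
      rw [this, Finset.sum_mul]
      calc ∑ g : G, (S χ g c).card * r ^ 2 ≤ ∑ _g : G, n := Finset.sum_le_sum (fun g _ => hcon g c)
        _ = n ^ 2 := by rw [Finset.sum_const, Finset.card_univ, smul_eq_mul, sq]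
    have h2 : (a c * r) ^ 2 ≤ n ^ 2 := by rw [mul_pow]; exact h1
    exact (Nat.pow_le_pow_iff_left (by norm_num)).mp h2
  have hsum : ∑ c : Fin r, a c = n := by
    have := Finset.card_eq_sum_card_fiberwise (f := χ) (s := (univ : Finset G)) (t := univ)
      (fun x _ => by simp)
    rw [hn, ← Finset.card_univ, this]
  have heq : ∀ c, a c * r = n := by
    have h3 : ∑ c : Fin r, a c * r = ∑ _c : Fin r, n := by
      rw [← Finset.sum_mul, hsum, Finset.sum_const, Finset.card_univ, Fintype.card_fin, smul_eq_mul,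
        mul_comm]
    intro c
    exact (Finset.sum_eq_sum_iff_of_le (fun c _ => hle c)).mp h3 c (Finset.mem_univ c)
  have heq2 : ∀ c g, (S χ g c).card * r ^ 2 = n := by
    intro c g
    have h4 : ∑ g : G, (S χ g c).card * r ^ 2 = ∑ _g : G, n := by
      rw [← Finset.sum_mul, sum_S hodd χ c, Finset.sum_const, Finset.card_univ, smul_eq_mul, ← hn]
      have := heq c
      calc a c ^ 2 * r ^ 2 = (a c * r) * (a c * r) := by ring
        _ = n * n := by rw [this]
    exact (Finset.sum_eq_sum_iff_of_le (fun g _ => hcon g c)).mp h4 g (Finset.mem_univ g)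
  -- two different colours
  have h0 : (1 : G) = 1 := rfl
  obtain ⟨c', hc'⟩ : ∃ c' : Fin r, c' ≠ χ 1 := by
    haveI : Nontrivial (Fin r) := Fin.nontrivial_iff_two_le.mpr hr
    exact exists_ne _
  have hA := heq2 (χ 1) 1
  have hB := heq2 c' 1
  have hcard : (S χ 1 (χ 1)).card = (S χ 1 c').card := by
    have : (S χ 1 (χ 1)).card * r ^ 2 = (S χ 1 c').card * r ^ 2 := by rw [hA, hB]
    exact Nat.eq_of_mul_eq_mul_right (by positivity) this
  have hodd1 : Odd (S χ 1 (χ 1)).card := (S_parity hodd χ 1 (χ 1)).mpr rfl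
  rw [hcard] at hodd1
  exact hc' ((S_parity hodd χ 1 c').mp hodd1).symm

end Pool.Agent.OddSym

open Pool.Agent.OddSym in
theorem Pool.Agent.OddSym.frozen :
    ∀ (G : Type) [Group G] [Fintype G], Odd (Fintype.card G) →
      ∀ r : ℕ, 1 < r → ∀ χ : G → Fin r,
        ∃ (A : Finset G) (g : G) (c : Fin r),
          (∀ a ∈ A, χ a = c) ∧
          (∀ x : G, x ∈ A ↔ g * x⁻¹ * g ∈ A) ∧
          (1 : ℝ) / ((r : ℝ) ^ 2) < (A.card : ℝ) / (Fintype.card G : ℝ) := by
  intro G _ _ hodd r hr χ
  classical
  obtain ⟨g, c, h⟩ := main hodd r hr χ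
  refine ⟨S χ g c, g, c, ?_, ?_, ?_⟩
  · intro a ha
    simp only [S, Finset.mem_filter] at ha
    exact ha.2.1
  · intro x
    have hm : ∀ x, x ∈ S χ g c ↔ (χ x = c ∧ χ (refl g x) = c) := by
      intro x; simp [S]
    change x ∈ S χ g c ↔ refl g x ∈ S χ g c
    rw [hm, hm, refl_refl]
    exact ⟨fun h => ⟨h.2, h.1⟩, fun h => ⟨h.2, h.1⟩⟩
  · have hn : (0 : ℝ) < Fintype.card G := by exact_mod_cast Fintype.card_pos
    have hr2 : (0 : ℝ) < (r : ℝ) ^ 2 := by positivity
    rw [div_lt_div_iff₀ hr2 hn]
    have : ((Fintype.card G : ℕ) : ℝ) < (((S χ g c).card * r ^ 2 : ℕ) : ℝ) := by exact_mod_cast h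
    push_cast at this
    linarith
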