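import Mathlib
set_option autoImplicit false
set_option maxHeartbeats 4000000

open Filter Topology MeasureTheory intervalIntegral

namespace Pool.Agent.OrthUnif

abbrev E := C(ℝ, ℝ)

lemma ii (f g : E) : IntervalIntegrable (fun t => f t * g t) volume 0 1 :=
  (f.continuous.mul g.continuous).intervalIntegrable _ _

/-- the inner product -/
noncomputable def B : E →ₗ[ℝ] E →ₗ[ℝ] ℝ :=
  LinearMap.mk₂ ℝ (fun f g => ∫ t in (0 : ℝ)..1, f t * g t)
    (by
      intro f g h
      rw [← intervalIntegral.integral_add (ii f h) (ii g h)]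
      congr 1; funext t; simp [add_mul])
    (by
      intro c f g
      rw [smul_eq_mul, ← intervalIntegral.integral_const_mul]
      congr 1; funext t; simp [mul_assoc])
    (by
      intro f g h
      rw [← intervalIntegral.integral_add (ii f g) (ii f h)]
      congr 1; funext t; simp [mul_add])
    (by
      intro c f g
      rw [smul_eq_mul, ← intervalIntegral.integral_const_mul]
      congr 1; funext t; simp; ring)

lemma B_apply (f g : E) : B f g = ∫ t in (0 : ℝ)..1, f t * g t := rfl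

lemma B_comm (f g : E) : B f g = B g f := by
  rw [B_apply, B_apply]; congr 1; funext t; ring

lemma B_nonneg (f : E) : 0 ≤ B f f := by
  rw [B_apply]
  apply intervalIntegral.integral_nonneg (by norm_num)
  intro t _
  exact mul_self_nonneg _

lemma B_zero (f : E) (h : B f f = 0) : ∀ t ∈ Set.Icc (0 : ℝ) 1, f t = 0 := by
  by_contra hne
  push Not at hne
  obtain ⟨t, ht, h1⟩ := hne
  have : 0 < ∫ t in (0 : ℝ)..1, f t * f t := by
    apply intervalIntegral.integral_pos (by norm_num) (f.continuous.mul f.continuous).continuousOn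
    · intro x _; exact mul_self_nonneg _
    · exact ⟨t, ht, mul_self_pos.mpr h1⟩
  rw [B_apply] at h
  linarith

/-- projection on the span of an orthogonal family -/
noncomputable def P (F : Finset E) (p : E) : E := ∑ x ∈ F, (B p x / B x x) • x

def Orth (F : Finset E) : Prop := (∀ x ∈ F, ∀ y ∈ F, x ≠ y → B x y = 0) ∧ ∀ x ∈ F, B x x ≠ 0

lemma P_orth (F : Finset E) (hF : Orth F) (p y : E) (hy : y ∈ F) : B (p - P F p) y = 0 := by
  rw [map_sub, LinearMap.sub_apply, P, map_sum, LinearMap.sum_apply]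
  rw [Finset.sum_eq_single y]
  · rw [map_smul, LinearMap.smul_apply, smul_eq_mul, div_mul_cancel₀ _ (hF.2 y hy), sub_self]
  · intro x hx hxy
    rw [map_smul, LinearMap.smul_apply, hF.1 x hx y hy hxy, smul_zero]
  · intro h; exact absurd hy h

lemma P_span (F : Finset E) (p : E) : P F p ∈ Submodule.span ℝ (F : Set E) := by
  apply Submodule.sum_mem
  intro x hx
  exact Submodule.smul_mem _ _ (Submodule.subset_span hx)

def one : E := ContinuousMap.const ℝ 1

def Good (s : Finset E) : Prop := Orth s ∧ ∀ x ∈ s, x 0 = 0 ∨ B x one = 0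

lemma P_one_zero (s : Finset E) (hs : Good s) : (P s one) 0 = 0 := by
  rw [P, ContinuousMap.coe_sum, Finset.sum_apply]
  apply Finset.sum_eq_zero
  intro x hx
  rcases hs.2 x hx with h | h
  · simp [h]
  · rw [B_comm] at h; simp [h]

/-- a sharp function at `0` -/
noncomputable def q (n : ℕ) : E := ⟨fun t => (1 - t) ^ n, by fun_prop⟩

lemma q_int (n : ℕ) : ∫ t in (0 : ℝ)..1, (1 - t) ^ n = 1 / ((n : ℝ) + 1) := by
  rw [intervalIntegral.integral_comp_sub_left (fun t => t ^ n) 1]
  simp

lemma q_tendsto (g : E) : Tendsto (fun n => B (q n) g) atTop (𝓝 0) := by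
  obtain ⟨C, hC⟩ := (isCompact_Icc (a := (0 : ℝ)) (b := 1)).exists_bound_of_continuousOn
    g.continuous.continuousOn
  have hC0 : 0 ≤ C := (norm_nonneg _).trans (hC 0 (by simp))
  apply squeeze_zero_norm (a := fun n : ℕ => C * (1 / ((n : ℝ) + 1)))
  · intro n
    rw [B_apply, ← q_int, ← intervalIntegral.integral_const_mul]
    apply intervalIntegral.norm_integral_le_of_norm_le (by norm_num)
    · filter_upwards with t ht
      have h1 : 0 ≤ (1 - t) ^ n := pow_nonneg (by linarith [ht.2]) n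
      rw [norm_mul, mul_comm]
      apply mul_le_mul (hC t ⟨ht.1.le, ht.2⟩) _ (norm_nonneg _) hC0
      show ‖(1 - t) ^ n‖ ≤ _
      rw [Real.norm_of_nonneg h1]
    · apply Continuous.intervalIntegrable; fun_prop
  · have := tendsto_one_div_add_atTop_nhds_zero_nat (𝕜 := ℝ)
    simpa using this.const_mul C

lemma qq_tendsto : Tendsto (fun n => B (q n) (q n)) atTop (𝓝 0) := by
  apply squeeze_zero (fun n => B_nonneg _) (g := fun n : ℕ => 1 / ((n : ℝ) + 1)) _
    tendsto_one_div_add_atTop_nhds_zero_nat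
  intro n
  rw [B_apply, ← q_int]
  apply intervalIntegral.integral_mono_on (by norm_num) (ii _ _)
  · apply Continuous.intervalIntegrable; fun_prop
  · intro t ht
    show (1 - t) ^ n * (1 - t) ^ n ≤ _
    have h1 : 0 ≤ (1 - t) ^ n := pow_nonneg (by linarith [ht.2]) n
    have h2 : (1 - t) ^ n ≤ 1 := pow_le_one₀ (by linarith [ht.2]) (by linarith [ht.1])
    nlinarith

/-- the corrected sharp functions -/
noncomputable def σ (F : Finset E) (n : ℕ) : E := q n - P F (q n)

lemma Pq_tendsto (F : Finset E) (Λ : E →ₗ[ℝ] ℝ) :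
    Tendsto (fun n => Λ (P F (q n))) atTop (𝓝 0) := by
  have h1 : (fun n => Λ (P F (q n))) = fun n => ∑ x ∈ F, (B (q n) x / B x x) * Λ x := by
    funext n
    rw [P, map_sum]
    apply Finset.sum_congr rfl
    intro x _
    rw [map_smul, smul_eq_mul]
  rw [h1]
  have h2 : (0 : ℝ) = ∑ x ∈ F, (0 / B x x) * Λ x := by simp
  rw [h2]
  apply tendsto_finsetSum
  intro x _
  exact ((q_tendsto x).div_const _).mul_const _

lemma σ_tendsto (F : Finset E) (g : E) : Tendsto (fun n => B (σ F n) g) atTop (𝓝 0) := by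
  have h1 := (q_tendsto g).sub (Pq_tendsto F (B.flip g))
  simp only [sub_zero] at h1
  refine h1.congr (fun n => ?_)
  simp [σ]

lemma σ0_tendsto (F : Finset E) : Tendsto (fun n => (σ F n) 0) atTop (𝓝 1) := by
  let Λ : E →ₗ[ℝ] ℝ :=
    { toFun := fun f => f 0, map_add' := fun f g => rfl, map_smul' := fun c f => rfl }
  have h1 := (tendsto_const_nhds (x := (1 : ℝ)) (f := atTop (α := ℕ))).sub (Pq_tendsto F Λ)
  simp only [sub_zero] at h1
  refine h1.congr (fun n => ?_)
  show 1 - (P F (q n)) 0 = (q n - P F (q n)) 0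
  simp [q]

lemma σσ_tendsto (F : Finset E) (hF : Orth F) : Tendsto (fun n => B (σ F n) (σ F n)) atTop (𝓝 0) := by
  apply squeeze_zero (fun n => B_nonneg _) _ qq_tendsto
  intro n
  have h1 : B (σ F n) (P F (q n)) = 0 := by
    rw [P, map_sum]
    apply Finset.sum_eq_zero
    intro x hx
    rw [map_smul, σ, P_orth F hF _ x hx, smul_zero]
  have h2 : B (σ F n) (σ F n) = B (σ F n) (q n) := by
    have h4 : B (σ F n) (σ F n) = B (σ F n) (q n - P F (q n)) := rfl
    rw [h4, map_sub, h1, sub_zero]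
  have h3 : B (q n) (q n) = B (σ F n) (σ F n) + B (P F (q n)) (P F (q n)) := by
    have e : q n = σ F n + P F (q n) := by rw [σ]; abel
    conv_lhs => rw [e]
    rw [map_add, map_add, LinearMap.add_apply, LinearMap.add_apply, h1, B_comm (P F (q n)) (σ F n), h1]
    ring
  linarith [B_nonneg (P F (q n))]


lemma P_add (F : Finset E) (f g : E) : P F (f + g) = P F f + P F g := by
  simp only [P, map_add, LinearMap.add_apply, add_div, add_smul, Finset.sum_add_distrib]

lemma P_smul (F : Finset E) (c : ℝ) (f : E) : P F (c • f) = c • P F f := by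
  simp only [P, map_smul, LinearMap.smul_apply, smul_eq_mul, mul_div_assoc, Finset.smul_sum, smul_smul]

lemma P_zero (F : Finset E) (f : E) (h : ∀ x ∈ F, B f x = 0) : P F f = 0 := by
  rw [P]
  apply Finset.sum_eq_zero
  intro x hx
  rw [h x hx]; simp

lemma B_eq_zero (f g : E) (h : ∀ t ∈ Set.Icc (0 : ℝ) 1, f t = 0) : B f g = 0 := by
  rw [B_apply]
  rw [intervalIntegral.integral_congr (g := fun _ => (0 : ℝ))]
  · simp
  · intro t ht
    rw [Set.uIcc_of_le (by norm_num)] at ht
    simp [h t ht]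

lemma ins (s : Finset E) (hs : Good s) (u : E) (hu : ∀ x ∈ s, B u x = 0)
    (hu' : u 0 = 0 ∨ B u one = 0) : ∃ s', Good s' ∧ s ⊆ s' ∧ (B u u ≠ 0 → s ⊂ s') ∧
      (∃ u' ∈ Submodule.span ℝ (s' : Set E), ∀ t ∈ Set.Icc (0 : ℝ) 1, u' t = u t) ∧
      (∀ z, (∀ x ∈ s, B z x = 0) → B z u = 0 → ∀ x ∈ s', B z x = 0) := by
  classical
  by_cases h : B u u = 0
  · refine ⟨s, hs, subset_rfl, fun h' => absurd h h', ⟨0, Submodule.zero_mem _, ?_⟩, fun z hz _ => hz⟩
    intro t ht
    rw [B_zero u h t ht]; rfl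
  · have hus : u ∉ s := fun hm => h (hu u hm)
    refine ⟨insert u s, ⟨⟨?_, ?_⟩, ?_⟩, Finset.subset_insert _ _, fun _ => Finset.ssubset_insert hus,
      ⟨u, Submodule.subset_span (by simp), fun _ _ => rfl⟩, ?_⟩
    · intro x hx y hy hxy
      rcases Finset.mem_insert.mp hx with h1 | h1 <;> rcases Finset.mem_insert.mp hy with h2 | h2
      · exact absurd (h1.trans h2.symm) hxy
      · rw [h1]; exact hu y h2
      · rw [B_comm, h2]; exact hu x h1
      · exact hs.1.1 x h1 y h2 hxy
    · intro x hx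
      rcases Finset.mem_insert.mp hx with rfl | hx
      · exact h
      · exact hs.1.2 x hx
    · intro x hx
      rcases Finset.mem_insert.mp hx with rfl | hx
      · exact hu'
      · exact hs.2 x hx
    · intro z hz hzu x hx
      rcases Finset.mem_insert.mp hx with rfl | hx
      · exact hzu
      · exact hz x hx

lemma step (s : Finset E) (hs : Good s) (p : E) (ε : ℝ) (hε : 0 < ε) :
    ∃ s', Good s' ∧ s ⊂ s' ∧ ∃ y ∈ Submodule.span ℝ (s' : Set E),
      ∀ t ∈ Set.Icc (0 : ℝ) 1, |p t - y t| < ε := by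
  classical
  -- the component of `1` orthogonal to `s`
  set o : E := one - P s one with ho
  have ho0 : B o o ≠ 0 := by
    intro h
    have := B_zero o h 0 (by simp)
    rw [ho, ContinuousMap.sub_apply, P_one_zero s hs] at this
    simp [one] at this
  have hos : ∀ x ∈ s, B o x = 0 := fun x hx => P_orth s hs.1 one x hx
  have hF : Orth (insert o s) := by
    constructor
    · intro x hx y hy hxy
      rcases Finset.mem_insert.mp hx with rfl | hx <;> rcases Finset.mem_insert.mp hy with rfl | hy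
      · exact absurd rfl hxy
      · exact hos y hy
      · rw [B_comm]; exact hos x hx
      · exact hs.1.1 x hx y hy hxy
    · intro x hx
      rcases Finset.mem_insert.mp hx with rfl | hx
      · exact ho0
      · exact hs.1.2 x hx
  set F := insert o s with hFdef
  -- anything orthogonal to `F` is orthogonal to `one`
  have hone : ∀ z : E, (∀ x ∈ F, B z x = 0) → B z one = 0 := by
    intro z hz
    have e : one = o + P s one := by rw [ho]; abel
    rw [e, map_add, hz o (by simp [hFdef])]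
    rw [P, map_sum, Finset.sum_eq_zero, add_zero]
    intro x hx
    rw [map_smul, hz x (by simp [hFdef, hx]), smul_zero]
  have hσF : ∀ n, ∀ x ∈ F, B (σ F n) x = 0 := fun n x hx => P_orth F hF _ x hx
  -- step 0
  obtain ⟨p', hp', hw⟩ : ∃ p' : E, (∀ t ∈ Set.Icc (0 : ℝ) 1, |p t - p' t| < ε) ∧
      B (p' - P F p') (p' - P F p') ≠ 0 := by
    by_cases h : B (p - P F p) (p - P F p) = 0
    · have h1 : ∀ᶠ n in atTop, (σ F n) 0 ≠ 0 := (σ0_tendsto F).eventually_ne one_ne_zero
      obtain ⟨n, hn⟩ := h1.exists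
      obtain ⟨C, hC⟩ := (isCompact_Icc (a := (0 : ℝ)) (b := 1)).exists_bound_of_continuousOn
        (σ F n).continuous.continuousOn
      have hC0 : 0 ≤ C := (norm_nonneg _).trans (hC 0 (by simp))
      set c : ℝ := ε / (C + 1) with hc
      have hcpos : 0 < c := by positivity
      refine ⟨p + c • σ F n, ?_, ?_⟩
      · intro t ht
        have h2 := hC t ht
        rw [Real.norm_eq_abs] at h2
        rw [ContinuousMap.add_apply, ContinuousMap.smul_apply, smul_eq_mul]
        rw [show p t - (p t + c * (σ F n) t) = -(c * (σ F n) t) by ring, abs_neg, abs_mul,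
          abs_of_pos hcpos]
        calc c * |(σ F n) t| ≤ c * C := by gcongr
          _ < c * (C + 1) := by nlinarith
          _ = ε := by rw [hc]; field_simp
      · have e : p + c • σ F n - P F (p + c • σ F n) = (p - P F p) + c • σ F n := by
          rw [P_add, P_smul, P_zero F (σ F n) (hσF n)]
          simp; abel
        have h3 : B (p - P F p) (σ F n) = 0 := B_eq_zero _ _ (B_zero _ h)
        have h4 : B (σ F n) (σ F n) ≠ 0 := fun h5 => hn (B_zero _ h5 0 (by simp))
        rw [e]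
        simp only [map_add, LinearMap.add_apply, map_smul, LinearMap.smul_apply, smul_eq_mul, h, h3,
          B_comm (σ F n) (p - P F p)]
        simp only [mul_zero, zero_add, add_zero]
        have : c * (c * B (σ F n) (σ F n)) ≠ 0 := mul_ne_zero hcpos.ne' (mul_ne_zero hcpos.ne' h4)
        simpa using this
    · exact ⟨p, fun t _ => by simpa using hε, h⟩
  set w : E := p' - P F p' with hwdef
  set A : ℝ := B w w with hA
  have hApos : 0 < A := lt_of_le_of_ne (B_nonneg w) (Ne.symm hw)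
  have hwF : ∀ x ∈ F, B w x = 0 := fun x hx => P_orth F hF p' x hx
  set r : E := p' - P s p' with hr
  have hrs : ∀ x ∈ s, B r x = 0 := fun x hx => P_orth s hs.1 p' x hx
  have hBP : ∀ (z : E) (F' : Finset E), (∀ x ∈ F', B z x = 0) → ∀ f, B z (P F' f) = 0 := by
    intro z F' hz f
    rw [P, map_sum]
    apply Finset.sum_eq_zero
    intro x hx
    rw [map_smul, hz x hx, smul_zero]
  have hwr : B w r = A := by
    have h1 : B w r = B w p' := by
      rw [hr, map_sub, hBP w s (fun x hx => hwF x (by simp [hFdef, hx])) p', sub_zero]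
    have h2 : A = B w p' := by
      have h4 : B w w = B w (p' - P F p') := rfl
      rw [hA, h4, map_sub, hBP w F hwF p', sub_zero]
    rw [h1, h2]
  -- the functions τ
  let τ : ℕ → E := fun n => ((σ F n) 0)⁻¹ • σ F n
  have hinv : Tendsto (fun n => ((σ F n) 0)⁻¹) atTop (𝓝 1) := by
    have := (σ0_tendsto F).inv₀ one_ne_zero
    simpa using this
  have ha : Tendsto (fun n => B (τ n) w) atTop (𝓝 0) := by
    have := hinv.mul (σ_tendsto F w)
    simp only [mul_zero] at this
    exact this.congr (fun n => by simp [τ])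
  have hd : Tendsto (fun n => B (τ n) r) atTop (𝓝 0) := by
    have := hinv.mul (σ_tendsto F r)
    simp only [mul_zero] at this
    exact this.congr (fun n => by simp [τ])
  have hb : Tendsto (fun n => B (τ n) (τ n)) atTop (𝓝 0) := by
    have := (hinv.mul hinv).mul (σσ_tendsto F hF)
    simp only [mul_zero] at this
    exact this.congr (fun n => by simp [τ, mul_assoc])
  let Φ : ℕ → ℝ → ℝ := fun n x => x ^ 2 * A + 2 * x * (r 0 - x * w 0) * B (τ n) w +
    (r 0 - x * w 0) ^ 2 * B (τ n) (τ n) - x * A - (r 0 - x * w 0) * B (τ n) r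
  have hΦ : ∀ x : ℝ, Tendsto (fun n => Φ n x) atTop (𝓝 (x ^ 2 * A - x * A)) := by
    intro x
    have := ((((tendsto_const_nhds (x := x ^ 2 * A) (f := atTop (α := ℕ))).add
      (ha.const_mul (2 * x * (r 0 - x * w 0)))).add (hb.const_mul ((r 0 - x * w 0) ^ 2))).sub
      (tendsto_const_nhds (x := x * A))).sub (hd.const_mul (r 0 - x * w 0))
    simpa using this
  have e1 : ∀ᶠ n in atTop, Φ n (1 / 2) < 0 := (hΦ (1 / 2)).eventually_lt_const (by nlinarith)
  have e2 : ∀ᶠ n in atTop, 0 < Φ n 2 := (hΦ 2).eventually_const_lt (by nlinarith)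
  have e3 : ∀ᶠ n in atTop, (σ F n) 0 ≠ 0 := (σ0_tendsto F).eventually_ne one_ne_zero
  obtain ⟨n, ⟨hn1, hn2⟩, hn3⟩ := ((e1.and e2).and e3).exists
  have hcont : ContinuousOn (Φ n) (Set.Icc (1 / 2) 2) := by
    apply Continuous.continuousOn
    simp only [Φ]
    fun_prop
  obtain ⟨x, -, hx⟩ := intermediate_value_Icc (by norm_num : (1 / 2 : ℝ) ≤ 2) hcont
    (Set.mem_Icc.mpr ⟨hn1.le, hn2.le⟩)
  set v : E := x • w + (r 0 - x * w 0) • τ n with hv
  have hτ0 : (τ n) 0 = 1 := by
    simp only [τ, ContinuousMap.smul_apply, smul_eq_mul]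
    exact inv_mul_cancel₀ hn3
  have hv0 : v 0 = r 0 := by
    rw [hv, ContinuousMap.add_apply, ContinuousMap.smul_apply, ContinuousMap.smul_apply, hτ0]
    simp
  have hvF : ∀ y ∈ F, B v y = 0 := by
    intro y hy
    rw [hv]
    simp [τ, hwF y hy, hσF n y hy]
  have hvr : B v v = B v r := by
    have h1 : B v v - B v r = Φ n x := by
      simp only [Φ, hv, map_add, map_smul, LinearMap.add_apply, LinearMap.smul_apply, smul_eq_mul,
        hwr, B_comm w (τ n), ← hA]
      ring
    linarith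
  have hu0 : (r - v) 0 = 0 := by rw [ContinuousMap.sub_apply, hv0, sub_self]
  have hus : ∀ y ∈ s, B (r - v) y = 0 := by
    intro y hy
    rw [map_sub, LinearMap.sub_apply, hrs y hy, hvF y (by simp [hFdef, hy]), sub_zero]
  obtain ⟨s1, g1, g2, g3, ⟨u', g4, g5⟩, g6⟩ := ins s hs (r - v) hus (Or.inl hu0)
  have hvs1 : ∀ y ∈ s1, B v y = 0 := by
    apply g6 v (fun y hy => hvF y (by simp [hFdef, hy]))
    rw [map_sub, hvr, sub_self]
  obtain ⟨s2, k1, k2, k3, ⟨v', k4, k5⟩, k6⟩ := ins s1 g1 v hvs1 (Or.inr (hone v hvF))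
  refine ⟨s2, k1, ?_, P s p' + u' + v', ?_, ?_⟩
  · by_cases h1 : B (r - v) (r - v) = 0
    · by_cases h2 : B v v = 0
      · exfalso
        have h3 : ∀ t ∈ Set.Icc (0 : ℝ) 1, r t = 0 := by
          intro t ht
          have a1 := B_zero _ h1 t ht
          have a2 := B_zero _ h2 t ht
          rw [ContinuousMap.sub_apply, a2, sub_zero] at a1
          exact a1
        have h4 : B r w = 0 := B_eq_zero _ _ h3
        rw [B_comm, hwr] at h4
        linarith
      · exact lt_of_le_of_lt g2 (k3 h2)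
    · exact lt_of_lt_of_le (g3 h1) k2
  · apply Submodule.add_mem _ (Submodule.add_mem _ _ _) k4
    · exact Submodule.span_mono (by exact_mod_cast g2.trans k2) (P_span s p')
    · exact Submodule.span_mono (by exact_mod_cast k2) g4
  · intro t ht
    have h1 : (P s p' + u' + v') t = p' t := by
      rw [ContinuousMap.add_apply, ContinuousMap.add_apply, g5 t ht, k5 t ht, ContinuousMap.sub_apply,
        hr, ContinuousMap.sub_apply]
      ring
    rw [h1]
    exact hp' t ht


lemma good_empty : Good (∅ : Finset E) := by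
  refine ⟨⟨?_, ?_⟩, ?_⟩ <;> intro x hx <;> simp at hx

/-- a sequence of globally continuous functions dense in `C[0,1]` -/
lemma dense_seq : ∃ d : ℕ → E, ∀ g : ℝ → ℝ, ContinuousOn g (Set.Icc (0 : ℝ) 1) → ∀ ε > 0,
    ∃ n, ∀ t ∈ Set.Icc (0 : ℝ) 1, |g t - d n t| < ε := by
  let C := C(Set.Icc (0 : ℝ) 1, ℝ)
  refine ⟨fun n => ⟨Set.IccExtend (zero_le_one' ℝ) (TopologicalSpace.denseSeq C n),
    (TopologicalSpace.denseSeq C n).continuous.Icc_extend'⟩, ?_⟩
  intro g hg ε hε
  let g' : C := ⟨fun t => g t, continuousOn_iff_continuous_domRestrict.mp hg⟩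
  have := (TopologicalSpace.denseRange_denseSeq C).exists_dist_lt g' hε
  obtain ⟨n, hn⟩ := this
  refine ⟨n, fun t ht => ?_⟩
  have h1 := (ContinuousMap.dist_lt_iff hε).mp hn ⟨t, ht⟩
  rw [Real.dist_eq] at h1
  show |g t - Set.IccExtend (zero_le_one' ℝ) (TopologicalSpace.denseSeq C n) t| < ε
  rw [Set.IccExtend_of_mem _ _ ht]
  exact h1

theorem main : ¬ (∀ φ : ℕ → ℝ → ℝ,
      (∀ n, ContinuousOn (φ n) (Set.Icc (0:ℝ) 1)) →
      (∀ n, ∃ t ∈ Set.Icc (0:ℝ) 1, φ n t ≠ 0) →
      (∀ m n : ℕ, m ≠ n → ∫ t in (0:ℝ)..1, φ m t * φ n t = 0) →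
      (∀ g : ℝ → ℝ, ContinuousOn g (Set.Icc (0:ℝ) 1) → ∀ ε : ℝ, ε > 0 →
        ∃ s : Finset ℕ, ∃ c : ℕ → ℝ,
          ∀ t ∈ Set.Icc (0:ℝ) 1, |g t - ∑ i ∈ s, c i * φ i t| < ε) →
      ∀ f : ℝ → ℝ, ContinuousOn f (Set.Icc (0:ℝ) 1) → ∀ ε : ℝ, ε > 0 →
        ∃ s : Finset ℕ, (∀ i ∈ s, ∫ t in (0:ℝ)..1, f t * φ i t ≠ 0) ∧
          ∃ c : ℕ → ℝ, ∀ t ∈ Set.Icc (0:ℝ) 1, |f t - ∑ i ∈ s, c i * φ i t| < ε) := by
  classical
  intro hyp
  obtain ⟨d, hd⟩ := dense_seq
  -- the chain
  let next : ℕ → {s : Finset E // Good s} → {s : Finset E // Good s} := fun m s =>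
    ⟨(step s.1 s.2 (d (Nat.unpair m).1) (1 / ((m : ℝ) + 1)) Nat.one_div_pos_of_nat).choose,
      (step s.1 s.2 (d (Nat.unpair m).1) (1 / ((m : ℝ) + 1)) Nat.one_div_pos_of_nat).choose_spec.1⟩
  let S : ℕ → {s : Finset E // Good s} := fun n => Nat.rec ⟨∅, good_empty⟩ (fun m s => next m s) n
  have hS : ∀ m, (S m).1 ⊂ (S (m + 1)).1 ∧ ∃ y ∈ Submodule.span ℝ ((S (m + 1)).1 : Set E),
      ∀ t ∈ Set.Icc (0 : ℝ) 1, |d (Nat.unpair m).1 t - y t| < 1 / ((m : ℝ) + 1) := fun m =>
    (step (S m).1 (S m).2 (d (Nat.unpair m).1) (1 / ((m : ℝ) + 1)) Nat.one_div_pos_of_nat).choose_spec.2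
  have hmono : StrictMono (fun m => (S m).1) := strictMono_nat_of_lt_succ (fun m => (hS m).1)
  let U : Set E := ⋃ m, ((S m).1 : Set E)
  have hUc : U.Countable := Set.countable_iUnion (fun m => (S m).1.countable_toSet)
  have hUi : U.Infinite := by
    intro hfin
    have h1 : ∀ m, (S m).1 ⊆ hfin.toFinset := by
      intro m x hx
      rw [Set.Finite.mem_toFinset]
      exact Set.mem_iUnion.mpr ⟨m, hx⟩
    have h2 : ∀ m, m ≤ ((S m).1).card := by
      intro m
      induction m with
      | zero => exact Nat.zero_le _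
      | succ m ih => exact lt_of_le_of_lt ih (Finset.card_lt_card (hS m).1)
    have h3 := h2 (hfin.toFinset.card + 1)
    have h4 := Finset.card_le_card (h1 (hfin.toFinset.card + 1))
    omega
  have hUi' : Infinite U := hUi.to_subtype
  have hUc' : Countable U := hUc.to_subtype
  obtain ⟨e⟩ : Nonempty (ℕ ≃ U) := nonempty_equiv_of_countable
  have hpair : ∀ x ∈ U, ∀ y ∈ U, ∃ m, x ∈ (S m).1 ∧ y ∈ (S m).1 := by
    intro x hx y hy
    obtain ⟨a, ha⟩ := Set.mem_iUnion.mp hx
    obtain ⟨b, hb⟩ := Set.mem_iUnion.mp hy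
    exact ⟨max a b, hmono.monotone (le_max_left a b) ha, hmono.monotone (le_max_right a b) hb⟩
  have hgood : ∀ x ∈ U, B x x ≠ 0 ∧ (x 0 = 0 ∨ B x one = 0) := by
    intro x hx
    obtain ⟨m, h1, -⟩ := hpair x hx x hx
    exact ⟨(S m).2.1.2 x h1, (S m).2.2 x h1⟩
  have key := hyp (fun n => ((e n : E) : ℝ → ℝ)) (fun n => (e n).1.continuous.continuousOn)
    (fun n => by
      by_contra hne
      push Not at hne
      exact (hgood _ (e n).2).1 (B_eq_zero _ _ hne))
    (fun m n hmn => by
      obtain ⟨k, h1, h2⟩ := hpair _ (e m).2 _ (e n).2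
      have h3 : (e m).1 ≠ (e n).1 := fun h => hmn (e.injective (Subtype.ext h))
      exact (S k).2.1.1 _ h1 _ h2 h3)
    (fun g hg ε hε => by
      obtain ⟨n, hn⟩ := hd g hg (ε / 2) (by positivity)
      obtain ⟨k, hk⟩ := exists_nat_gt (2 / ε)
      obtain ⟨y, hy1, hy2⟩ := (hS (Nat.pair n k)).2
      rw [Nat.unpair_pair] at hy2
      have hy3 : y ∈ Submodule.span ℝ (Set.range (fun n => (e n : E))) := by
        refine Submodule.span_mono ?_ hy1
        intro x hx
        have hxU : x ∈ U := Set.mem_iUnion.mpr ⟨Nat.pair n k + 1, hx⟩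
        exact ⟨e.symm ⟨x, hxU⟩, by simp⟩
      rw [Finsupp.mem_span_range_iff_exists_finsupp] at hy3
      obtain ⟨c, hc⟩ := hy3
      refine ⟨c.support, c, fun t ht => ?_⟩
      have h1 : ∑ i ∈ c.support, c i * (e i : E) t = y t := by
        rw [← hc, Finsupp.sum, ContinuousMap.coe_sum, Finset.sum_apply]
        rfl
      rw [h1]
      have h2 := hn t ht
      have h3 := hy2 t ht
      have h4 : (1 : ℝ) / ((Nat.pair n k : ℝ) + 1) ≤ ε / 2 := by
        rw [div_le_iff₀ (by positivity)]
        have h5 : (k : ℝ) ≤ (Nat.pair n k : ℝ) := by exact_mod_cast Nat.right_le_pair n k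
        have h6 : 2 / ε < (Nat.pair n k : ℝ) + 1 := by linarith
        rw [div_lt_iff₀ hε] at h6
        nlinarith
      calc |g t - y t| = |(g t - d n t) + (d n t - y t)| := by ring_nf
        _ ≤ |g t - d n t| + |d n t - y t| := abs_add_le _ _
        _ < ε := by linarith)
    (fun _ => 1) continuousOn_const (1 / 2) (by norm_num)
  obtain ⟨s, h1, c, h2⟩ := key
  have h3 := h2 0 (by simp)
  have h4 : ∑ i ∈ s, c i * (e i : E) 0 = 0 := by
    apply Finset.sum_eq_zero
    intro i hi
    rcases (hgood _ (e i).2).2 with h | h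
    · rw [h, mul_zero]
    · exfalso
      apply h1 i hi
      rw [B_comm] at h
      exact h
  rw [h4] at h3
  norm_num at h3

end Pool.Agent.OrthUnif
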