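import Mathlib

set_option autoImplicit false
set_option maxHeartbeats 4000000
open Filter Topology

namespace Pool.Agent.SigmaE

noncomputable section

lemma cnt (S : Finset ℕ) (M r : ℕ) (hM : 0 < M) (u v : ℝ) (huv : u ≤ v)
    (hS : ∀ n ∈ S, n % M = r ∧ u < n ∧ (n : ℝ) < v) : (S.card : ℝ) ≤ (v - u) / M + 1 := by
  have hMR : (0:ℝ) < M := by exact_mod_cast hM
  rcases S.eq_empty_or_nonempty with h | h
  · rw [h]; simp only [Finset.card_empty, Nat.cast_zero]
    have : 0 ≤ (v-u)/M := div_nonneg (by linarith) hMR.le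
    linarith
  · set a := S.min' h with ha
    have haS : a ∈ S := S.min'_mem h
    have hle : ∀ n ∈ S, a ≤ n := fun n hn => S.min'_le n hn
    have hcard : S.card ≤ (Finset.range (⌊(v-u)/M⌋₊ + 1)).card := by
      refine Finset.card_le_card_of_injOn (fun n => (n - a)/M) ?_ ?_
      · intro n hn
        have hn' := Finset.mem_coe.1 hn
        rw [Finset.mem_coe, Finset.mem_range]
        apply Nat.lt_succ_of_le
        apply Nat.le_floor
        have h1 : (((n - a)/M : ℕ) : ℝ) ≤ ((n - a : ℕ) : ℝ) / M := Nat.cast_div_le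
        have h2 : ((n - a : ℕ) : ℝ) = n - a := by
          rw [Nat.cast_sub (hle n hn')]
        rw [h2] at h1
        refine h1.trans ?_
        apply div_le_div_of_nonneg_right _ hMR.le
        have h3 := (hS n hn').2.2
        have h4 := (hS a haS).2.1
        linarith
      · intro n hn n' hn' hnn
        have hn1 := Finset.mem_coe.1 hn
        have hn1' := Finset.mem_coe.1 hn'
        have hd : ∀ m ∈ S, m = a + M * ((m - a)/M) := by
          intro m hm
          have h1 : M ∣ m - a := (Nat.modEq_iff_dvd' (hle m hm)).1 (by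
            show a % M = m % M
            rw [(hS a haS).1, (hS m hm).1])
          rw [Nat.mul_div_cancel' h1]
          have := hle m hm
          omega
        have hnn' : (n - a)/M = (n' - a)/M := hnn
        rw [hd n hn1, hd n' hn1', hnn']
    rw [Finset.card_range] at hcard
    have h5 : (S.card : ℝ) ≤ (⌊(v-u)/M⌋₊ : ℝ) + 1 := by exact_mod_cast hcard
    have h6 : (⌊(v-u)/M⌋₊ : ℝ) ≤ (v-u)/M := Nat.floor_le (div_nonneg (by linarith) hMR.le)
    linarith

def sK (K n : ℕ) : ℝ := ∑ d ∈ (Finset.Ioc 0 K).filter (· ∣ n), (1 : ℝ) / d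
def R (K N n : ℕ) : ℝ := ∑ d ∈ (Finset.Ioc K N).filter (· ∣ n), (n : ℝ) / d

lemma sK_nonneg (K n : ℕ) : 0 ≤ sK K n := Finset.sum_nonneg (fun d _ => by positivity)
lemma R_nonneg (K N n : ℕ) : 0 ≤ R K N n := Finset.sum_nonneg (fun d _ => by positivity)

lemma sK_mod (K n : ℕ) : sK K n = sK K (n % K.factorial) := by
  unfold sK
  congr 1
  apply Finset.filter_congr
  intro d hd
  rw [Finset.mem_Ioc] at hd
  exact (Nat.dvd_mod_iff (Nat.dvd_factorial hd.1 hd.2)).symm

lemma sigma_split (K N n : ℕ) (hn : 1 ≤ n) (hnN : n ≤ N) :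
    ((ArithmeticFunction.sigma 1 n : ℕ) : ℝ) = n * sK K n + R K N n := by
  have h1 : (ArithmeticFunction.sigma 1 n : ℕ) = ∑ d ∈ n.divisors, n / d := by
    rw [ArithmeticFunction.sigma_one_apply]
    exact (Nat.sum_div_divisors n (fun d => d)).symm
  rw [h1]
  push_cast
  have h2 : ∑ d ∈ n.divisors, (((n / d : ℕ)) : ℝ) = ∑ d ∈ n.divisors, (n : ℝ) / d := by
    apply Finset.sum_congr rfl
    intro d hd
    exact Nat.cast_div_charZero (Nat.dvd_of_mem_divisors hd)
  rw [h2, ← Finset.sum_filter_add_sum_filter_not n.divisors (fun d => d ≤ K)]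
  congr 1
  · unfold sK
    rw [Finset.mul_sum]
    apply Finset.sum_congr
    · ext d
      simp only [Finset.mem_filter, Nat.mem_divisors, Finset.mem_Ioc]
      constructor
      · rintro ⟨⟨h3, _⟩, h4⟩
        exact ⟨⟨Nat.pos_of_dvd_of_pos h3 hn, h4⟩, h3⟩
      · rintro ⟨⟨h3, h4⟩, h5⟩
        exact ⟨⟨h5, by omega⟩, h4⟩
    · intro d _
      rw [mul_one_div]
  · unfold R
    apply Finset.sum_congr
    · ext d
      simp only [Finset.mem_filter, Nat.mem_divisors, Finset.mem_Ioc]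
      constructor
      · rintro ⟨⟨h3, _⟩, h4⟩
        exact ⟨⟨by omega, (Nat.le_of_dvd hn h3).trans hnN⟩, h3⟩
      · rintro ⟨⟨h3, h4⟩, h5⟩
        exact ⟨⟨h5, by omega⟩, by omega⟩
    · intro d _
      rfl

lemma sum_R (K N : ℕ) (hK : 0 < K) : ∑ n ∈ Finset.Ioc 0 N, R K N n ≤ (N:ℝ)^2 / K := by
  have hKR : (0:ℝ) < K := by exact_mod_cast hK
  have h1 : ∑ n ∈ Finset.Ioc 0 N, R K N n
      = ∑ d ∈ Finset.Ioc K N, ∑ n ∈ Finset.Ioc 0 N, (if d ∣ n then (n:ℝ)/d else 0) := by
    rw [Finset.sum_comm]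
    apply Finset.sum_congr rfl
    intro n _
    unfold R
    rw [Finset.sum_filter]
  rw [h1]
  have h2 : ∀ d ∈ Finset.Ioc K N, ∑ n ∈ Finset.Ioc 0 N, (if d ∣ n then (n:ℝ)/d else 0) ≤ (N:ℝ)^2 * ((d:ℝ)^2)⁻¹ := by
    intro d hd
    rw [Finset.mem_Ioc] at hd
    have hdR : (0:ℝ) < d := by
      have : 0 < d := by omega
      exact_mod_cast this
    rw [← Finset.sum_filter]
    have h3 : ∀ n ∈ (Finset.Ioc 0 N).filter (d ∣ ·), (n:ℝ)/d ≤ (N:ℝ)/d := by
      intro n hn
      rw [Finset.mem_filter, Finset.mem_Ioc] at hn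
      apply div_le_div_of_nonneg_right _ hdR.le
      exact_mod_cast hn.1.2
    refine (Finset.sum_le_card_nsmul _ _ _ h3).trans ?_
    rw [Nat.Ioc_filter_dvd_card_eq_div, nsmul_eq_mul]
    have h4 : ((N / d : ℕ) : ℝ) ≤ (N:ℝ)/d := Nat.cast_div_le
    calc ((N / d : ℕ) : ℝ) * ((N:ℝ)/d) ≤ ((N:ℝ)/d) * ((N:ℝ)/d) :=
          mul_le_mul_of_nonneg_right h4 (by positivity)
      _ = (N:ℝ)^2 * ((d:ℝ)^2)⁻¹ := by field_simp
  refine (Finset.sum_le_sum h2).trans ?_
  rw [← Finset.mul_sum]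
  rcases le_total K N with h | h
  · have h5 := sum_Ioc_inv_sq_le_sub (α := ℝ) hK.ne' h
    have h6 : (0:ℝ) ≤ (N:ℝ)⁻¹ := by positivity
    calc (N:ℝ)^2 * ∑ d ∈ Finset.Ioc K N, ((d:ℝ)^2)⁻¹ ≤ (N:ℝ)^2 * (K:ℝ)⁻¹ :=
          mul_le_mul_of_nonneg_left (by linarith) (by positivity)
      _ = (N:ℝ)^2 / K := by rw [div_eq_mul_inv]
  · rw [Finset.Ioc_eq_empty (by omega)]
    simp only [Finset.sum_empty, mul_zero]
    positivity

lemma U (k : ℕ) : ∃ X : ℕ, ∀ x : ℕ, X ≤ x →
    (Nat.card {n : ℕ // (x : ℝ) < (n : ℝ) + ((ArithmeticFunction.sigma 1 n : ℕ) : ℝ) ∧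
      (n : ℝ) + ((ArithmeticFunction.sigma 1 n : ℕ) : ℝ) < (x : ℝ) + x / ((k:ℝ)+1)} : ℝ) ≤ 4 * (x / ((k:ℝ)+1)) := by
  classical
  set K : ℕ := 4 * (k+1)^2 with hK
  have hKpos : 0 < K := by positivity
  set M : ℕ := K.factorial with hM
  have hMpos : 0 < M := Nat.factorial_pos _
  have hMR : (0:ℝ) < M := by exact_mod_cast hMpos
  refine ⟨M * (k+1) + 1, fun x hx => ?_⟩
  have hkR : (0:ℝ) < (k:ℝ)+1 := by positivity
  have hx1 : 1 ≤ x := by omega
  have hxR : (1:ℝ) ≤ x := by exact_mod_cast hx1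
  set y : ℝ := x / ((k:ℝ)+1) with hy
  have hy0 : 0 < y := by positivity
  have hyx : y ≤ x := by
    rw [hy, div_le_iff₀ hkR]
    nlinarith
  have hMy : (M:ℝ) ≤ y := by
    rw [hy, le_div_iff₀ hkR]
    have : M * (k+1) ≤ x := by omega
    exact_mod_cast this
  set N := 2 * x with hN
  have hNR : (N:ℝ) = 2 * x := by rw [hN]; push_cast; ring
  set A := (Finset.Ioc 0 N).filter (fun n => y < R K N n) with hA
  set B := (Finset.Ioc 0 N).filter (fun n => (x:ℝ) - y < n * (1 + sK K n) ∧ n * (1 + sK K n) < (x:ℝ) + y) with hB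
  have hAc : (A.card : ℝ) ≤ y := by
    have h1 : (A.card : ℝ) * y ≤ ∑ n ∈ A, R K N n := by
      rw [← nsmul_eq_mul]
      apply Finset.card_nsmul_le_sum
      intro n hn
      exact (Finset.mem_filter.1 hn).2.le
    have h2 : ∑ n ∈ A, R K N n ≤ ∑ n ∈ Finset.Ioc 0 N, R K N n :=
      Finset.sum_le_sum_of_subset_of_nonneg (Finset.filter_subset _ _) (fun n _ _ => R_nonneg K N n)
    have h3 := sum_R K N hKpos
    have h4 : (N:ℝ)^2 / K = y * y := by
      rw [hNR, hK, hy]
      push_cast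
      field_simp
      ring
    rw [h4] at h3
    exact le_of_mul_le_mul_right (h1.trans (h2.trans h3)) hy0
  have hBc : (B.card : ℝ) ≤ 3 * y := by
    have hmap : ∀ n ∈ B, n % M ∈ Finset.range M := fun n _ => Finset.mem_range.2 (Nat.mod_lt _ hMpos)
    have h1 := Finset.card_eq_sum_card_fiberwise (f := fun n => n % M) (t := Finset.range M) (s := B) hmap
    have h2 : ∀ r ∈ Finset.range M, ((B.filter (fun n => n % M = r)).card : ℝ) ≤ 2 * y / M + 1 := by
      intro r hr
      have hs0 := sK_nonneg K r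
      have hs1 : 0 < 1 + sK K r := by linarith
      have h3 := cnt (B.filter (fun n => n % M = r)) M r hMpos ((x - y)/(1 + sK K r)) ((x + y)/(1 + sK K r))
        (div_le_div_of_nonneg_right (by linarith) hs1.le) (by
          intro n hn
          rw [Finset.mem_filter] at hn
          obtain ⟨hnB, hnr⟩ := hn
          have h4 := (Finset.mem_filter.1 hnB).2
          have h5 : sK K n = sK K r := by rw [sK_mod, ← hM, hnr]
          rw [h5] at h4
          refine ⟨hnr, ?_, ?_⟩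
          · rw [div_lt_iff₀ hs1]; exact h4.1
          · rw [lt_div_iff₀ hs1]; exact h4.2)
      refine h3.trans ?_
      have h6 : ((x:ℝ) + y)/(1 + sK K r) - (x - y)/(1 + sK K r) ≤ 2 * y := by
        rw [← sub_div, div_le_iff₀ hs1]
        nlinarith
      have := div_le_div_of_nonneg_right h6 hMR.le
      linarith
    have h7 : (B.card : ℝ) = ∑ r ∈ Finset.range M, ((B.filter (fun n => n % M = r)).card : ℝ) := by
      exact_mod_cast h1
    rw [h7]
    refine (Finset.sum_le_sum h2).trans ?_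
    rw [Finset.sum_const, Finset.card_range, nsmul_eq_mul]
    have h8 : (M:ℝ) * (2 * y / M + 1) = 2 * y + M := by field_simp
    rw [h8]
    linarith
  have hsub : {n : ℕ | (x : ℝ) < (n : ℝ) + ((ArithmeticFunction.sigma 1 n : ℕ) : ℝ) ∧
      (n : ℝ) + ((ArithmeticFunction.sigma 1 n : ℕ) : ℝ) < (x : ℝ) + y} ⊆ ((A ∪ B : Finset ℕ) : Set ℕ) := by
    rintro n ⟨h1, h2⟩
    have hσ0 : (0:ℝ) ≤ ((ArithmeticFunction.sigma 1 n : ℕ) : ℝ) := Nat.cast_nonneg _
    have hn1 : 1 ≤ n := by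
      rcases Nat.eq_zero_or_pos n with h | h
      · exfalso
        subst h
        simp at h1
        linarith
      · exact h
    have hnN : n ≤ N := by
      have : (n:ℝ) ≤ N := by rw [hNR]; linarith
      exact_mod_cast this
    have hsp := sigma_split K N n hn1 hnN
    rw [Finset.mem_coe, Finset.mem_union]
    by_cases hR : y < R K N n
    · left
      exact Finset.mem_filter.2 ⟨Finset.mem_Ioc.2 ⟨hn1, hnN⟩, hR⟩
    · right
      push Not at hR
      have hR0 := R_nonneg K N n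
      refine Finset.mem_filter.2 ⟨Finset.mem_Ioc.2 ⟨hn1, hnN⟩, ?_, ?_⟩
      · rw [hsp] at h1
        linarith
      · rw [hsp] at h2
        linarith
  have hcardeq : Nat.card {n : ℕ // (x : ℝ) < (n : ℝ) + ((ArithmeticFunction.sigma 1 n : ℕ) : ℝ) ∧
      (n : ℝ) + ((ArithmeticFunction.sigma 1 n : ℕ) : ℝ) < (x : ℝ) + y} =
      ({n : ℕ | (x : ℝ) < (n : ℝ) + ((ArithmeticFunction.sigma 1 n : ℕ) : ℝ) ∧
      (n : ℝ) + ((ArithmeticFunction.sigma 1 n : ℕ) : ℝ) < (x : ℝ) + y}).ncard := Nat.card_coe_set_eq _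
  rw [hcardeq]
  have h9 := Set.ncard_le_ncard hsub (Finset.finite_toSet _)
  rw [Set.ncard_coe_finset] at h9
  have h10 := h9.trans (Finset.card_union_le A B)
  have h11 : (({n : ℕ | (x : ℝ) < (n : ℝ) + ((ArithmeticFunction.sigma 1 n : ℕ) : ℝ) ∧
      (n : ℝ) + ((ArithmeticFunction.sigma 1 n : ℕ) : ℝ) < (x : ℝ) + y}).ncard : ℝ) ≤ A.card + B.card := by
    exact_mod_cast h10
  linarith

theorem main :
    ¬ ∀ F : ℕ → ℝ, Tendsto F atTop atTop →
      (∀ ε : ℝ, 0 < ε →
        Tendsto (fun N : ℕ =>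
          (((Finset.range N).filter
            (fun n => ε ≤ |F n / ((ArithmeticFunction.sigma 1 n : ℕ) : ℝ)|)).card : ℝ) / (N : ℝ))
          atTop (𝓝 0)) →
      ∀ C : ℝ, ∀ N : ℕ, ∃ x : ℕ, N < x ∧
        C * F x < (Nat.card {n : ℕ //
          (x : ℝ) < (n : ℝ) + ((ArithmeticFunction.sigma 1 n : ℕ) : ℝ) ∧
          (n : ℝ) + ((ArithmeticFunction.sigma 1 n : ℕ) : ℝ) < (x : ℝ) + F x} : ℝ) := by
  classical
  intro H
  choose X hX using U
  let κ : ℕ → ℕ := fun x => Nat.findGreatest (fun k => X k ≤ x ∧ (k+1)^2 ≤ x) x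
  have hspec : ∀ x, X 0 + 1 ≤ x → X (κ x) ≤ x ∧ (κ x + 1)^2 ≤ x := by
    intro x hx
    exact Nat.findGreatest_spec (P := fun k => X k ≤ x ∧ (k+1)^2 ≤ x) (Nat.zero_le x) ⟨by omega, by simp; omega⟩
  have hκ : ∀ m, ∀ᶠ x in atTop, m ≤ κ x := by
    intro m
    filter_upwards [eventually_ge_atTop (X m), eventually_ge_atTop ((m+1)^2), eventually_ge_atTop m] with x h1 h2 h3
    exact Nat.le_findGreatest h3 ⟨h1, h2⟩
  have hκR : Tendsto (fun x => ((κ x : ℕ) : ℝ) + 1) atTop atTop := by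
    apply tendsto_atTop_add_const_right
    exact tendsto_natCast_atTop_atTop.comp (tendsto_atTop.2 hκ)
  let F : ℕ → ℝ := fun x => x / ((κ x : ℝ) + 1)
  have hF1 : Tendsto F atTop atTop := by
    refine tendsto_atTop_mono' _ ?_ hκR
    filter_upwards [eventually_ge_atTop (X 0 + 1)] with x hx
    have h1 := (hspec x hx).2
    have h2 : ((κ x : ℝ) + 1)^2 ≤ x := by exact_mod_cast h1
    show (κ x : ℝ) + 1 ≤ x / ((κ x : ℝ) + 1)
    rw [le_div_iff₀ (by positivity)]
    nlinarith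
  have hF2 : ∀ ε : ℝ, 0 < ε →
        Tendsto (fun N : ℕ =>
          (((Finset.range N).filter
            (fun n => ε ≤ |F n / ((ArithmeticFunction.sigma 1 n : ℕ) : ℝ)|)).card : ℝ) / (N : ℝ))
          atTop (𝓝 0) := by
    intro ε hε
    obtain ⟨n0, hn0⟩ := eventually_atTop.1 ((hκR.eventually_gt_atTop (1/ε)).and (eventually_ge_atTop 1))
    have hbd : ∀ N : ℕ, (((Finset.range N).filter
            (fun n => ε ≤ |F n / ((ArithmeticFunction.sigma 1 n : ℕ) : ℝ)|)).card : ℝ) ≤ n0 := by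
      intro N
      have hsub : (Finset.range N).filter
            (fun n => ε ≤ |F n / ((ArithmeticFunction.sigma 1 n : ℕ) : ℝ)|) ⊆ Finset.range n0 := by
        intro n hn
        rw [Finset.mem_filter] at hn
        rw [Finset.mem_range]
        by_contra hge
        push Not at hge
        obtain ⟨h1, h2⟩ := hn0 n hge
        have hnR : (1:ℝ) ≤ n := by exact_mod_cast h2
        have hσ : (n:ℝ) ≤ ((ArithmeticFunction.sigma 1 n : ℕ) : ℝ) := by
          have h3 : n ≤ ArithmeticFunction.sigma 1 n := by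
            rw [ArithmeticFunction.sigma_one_apply]
            exact Finset.single_le_sum (f := fun d => d) (fun d _ => Nat.zero_le d)
              (Nat.mem_divisors_self n (by omega))
          exact_mod_cast h3
        have hκp : (0:ℝ) < (κ n : ℝ) + 1 := by positivity
        have h4 : F n / ((ArithmeticFunction.sigma 1 n : ℕ) : ℝ) ≤ 1 / ((κ n : ℝ) + 1) := by
          show (n:ℝ) / ((κ n : ℝ) + 1) / ((ArithmeticFunction.sigma 1 n : ℕ) : ℝ) ≤ _
          rw [div_div, div_le_div_iff₀ (by positivity) hκp]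
          nlinarith
        have h5 : 0 ≤ F n / ((ArithmeticFunction.sigma 1 n : ℕ) : ℝ) := by
          show 0 ≤ (n:ℝ) / ((κ n : ℝ) + 1) / ((ArithmeticFunction.sigma 1 n : ℕ) : ℝ)
          positivity
        have h6 := hn.2
        rw [abs_of_nonneg h5] at h6
        have h7 : 1 / ((κ n : ℝ) + 1) < ε := by
          rw [div_lt_iff₀ hκp]
          rw [div_lt_iff₀ hε] at h1
          linarith
        linarith
      have := Finset.card_le_card hsub
      rw [Finset.card_range] at this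
      exact_mod_cast this
    have hz : Tendsto (fun N : ℕ => (n0:ℝ) / (N:ℝ)) atTop (𝓝 0) :=
      tendsto_const_div_atTop_nhds_zero_nat _
    refine squeeze_zero (fun N => by positivity) (fun N => ?_) hz
    exact div_le_div_of_nonneg_right (hbd N) (Nat.cast_nonneg _)
  obtain ⟨x, hx, hlt⟩ := H F hF1 hF2 4 (X 0 + 1)
  have h1 := hX (κ x) x (hspec x (by omega)).1
  exact absurd hlt (not_lt.2 h1)

end

end Pool.Agent.SigmaE
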