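import Mathlib
import Pool.Agent.Lib.SigmaE

set_option autoImplicit false
set_option maxHeartbeats 4000000
open Filter Topology

namespace Pool.Agent.PhiP

noncomputable section

open Pool.Agent.SigmaE (cnt)

lemma prod_bd (s : Finset ℕ) (hs : ∀ p ∈ s, 1 ≤ p) :
    1 - ∑ p ∈ s, ((p:ℝ))⁻¹ ≤ ∏ p ∈ s, (1 - (p:ℝ)⁻¹) ∧ 0 ≤ ∏ p ∈ s, (1 - (p:ℝ)⁻¹) ∧
      ∏ p ∈ s, (1 - (p:ℝ)⁻¹) ≤ 1 := by
  induction s using Finset.induction_on with
  | empty => simp
  | insert a s ha ih =>
    obtain ⟨h1, h2, h3⟩ := ih (fun p hp => hs p (Finset.mem_insert_of_mem hp))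
    have ha1 : (1:ℝ) ≤ a := by exact_mod_cast hs a (Finset.mem_insert_self a s)
    have hi0 : 0 ≤ (a:ℝ)⁻¹ := by positivity
    have hi1 : (a:ℝ)⁻¹ ≤ 1 := inv_le_one_of_one_le₀ ha1
    rw [Finset.sum_insert ha, Finset.prod_insert ha]
    refine ⟨by nlinarith, mul_nonneg (by linarith) h2, by nlinarith⟩

def P (K n : ℕ) : ℝ := ∏ p ∈ (Finset.Ioc 0 K).filter (fun p => p.Prime ∧ p ∣ n), (1 - (p:ℝ)⁻¹)
def c (K : ℕ) : ℝ := ∏ p ∈ (Finset.Ioc 0 K).filter (fun p => p.Prime), (1 - (p:ℝ)⁻¹)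
def r (K n : ℕ) : ℝ := ∑ d ∈ n.divisors.filter (fun d => K < d), ((d:ℝ))⁻¹

lemma r_nonneg (K n : ℕ) : 0 ≤ r K n := Finset.sum_nonneg (fun d _ => by positivity)

lemma P_nonneg (K n : ℕ) : 0 ≤ P K n :=
  (prod_bd _ (fun p hp => (Finset.mem_filter.1 hp).2.1.one_le)).2.1

lemma P_le_one (K n : ℕ) : P K n ≤ 1 :=
  (prod_bd _ (fun p hp => (Finset.mem_filter.1 hp).2.1.one_le)).2.2

lemma P_mod (K n : ℕ) : P K n = P K (n % K.factorial) := by
  unfold P
  congr 1
  apply Finset.filter_congr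
  intro d hd
  rw [Finset.mem_Ioc] at hd
  rw [Nat.dvd_mod_iff (Nat.dvd_factorial hd.1 hd.2)]

lemma c_pos (K : ℕ) : 0 < c K := by
  unfold c
  apply Finset.prod_pos
  intro p hp
  have hp2 : (1:ℝ) < p := by exact_mod_cast (Finset.mem_filter.1 hp).2.one_lt
  have := inv_lt_one_of_one_lt₀ hp2
  linarith

lemma c_le_P (K n : ℕ) : c K ≤ P K n := by
  unfold c
  rw [← Finset.prod_filter_mul_prod_filter_not ((Finset.Ioc 0 K).filter (fun p => p.Prime)) (fun p => p ∣ n)]
  have h1 : ∏ x ∈ (((Finset.Ioc 0 K).filter (fun p => p.Prime)).filter (fun p => p ∣ n)), (1 - (x:ℝ)⁻¹) = P K n := by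
    unfold P
    rw [Finset.filter_filter]
  rw [h1]
  have h2 := (prod_bd (((Finset.Ioc 0 K).filter (fun p => p.Prime)).filter (fun p => ¬ p ∣ n))
    (fun p hp => (Finset.mem_filter.1 (Finset.mem_filter.1 hp).1).2.one_le)).2.2
  exact mul_le_of_le_one_right (P_nonneg K n) h2

lemma tot (K n : ℕ) (hn : 1 ≤ n) : (n:ℝ) * P K n * (1 - r K n) ≤ (Nat.totient n : ℝ) ∧
    (Nat.totient n : ℝ) ≤ n * P K n := by
  have h1 : (Nat.totient n : ℝ) = n * ∏ p ∈ n.primeFactors, (1 - (p:ℝ)⁻¹) := by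
    have := Nat.totient_eq_mul_prod_factors n
    have h2 := congrArg (fun q : ℚ => (q : ℝ)) this
    push_cast at h2
    exact h2
  have h3 : ∏ p ∈ n.primeFactors, (1 - (p:ℝ)⁻¹) = P K n * ∏ p ∈ n.primeFactors.filter (fun p => ¬ p ≤ K), (1 - (p:ℝ)⁻¹) := by
    rw [← Finset.prod_filter_mul_prod_filter_not n.primeFactors (fun p => p ≤ K)]
    congr 1
    unfold P
    apply Finset.prod_congr _ (fun _ _ => rfl)
    ext p
    simp only [Finset.mem_filter, Nat.mem_primeFactors, Finset.mem_Ioc]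
    constructor
    · rintro ⟨⟨h4, h5, _⟩, h6⟩
      exact ⟨⟨h4.pos, h6⟩, h4, h5⟩
    · rintro ⟨⟨_, h6⟩, h4, h5⟩
      exact ⟨⟨h4, h5, by omega⟩, h6⟩
  obtain ⟨q1, q2, q3⟩ := prod_bd (n.primeFactors.filter (fun p => ¬ p ≤ K))
    (fun p hp => (Nat.prime_of_mem_primeFactors (Finset.mem_filter.1 hp).1).one_le)
  have h7 : ∑ p ∈ n.primeFactors.filter (fun p => ¬ p ≤ K), ((p:ℝ))⁻¹ ≤ r K n := by
    unfold r
    apply Finset.sum_le_sum_of_subset_of_nonneg
    · intro p hp
      rw [Finset.mem_filter, Nat.mem_primeFactors] at hp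
      rw [Finset.mem_filter, Nat.mem_divisors]
      exact ⟨⟨hp.1.2.1, hp.1.2.2⟩, not_le.1 hp.2⟩
    · intro p _ _
      positivity
  have hP := P_nonneg K n
  have hnR : (0:ℝ) ≤ n := Nat.cast_nonneg _
  rw [h1, h3]
  constructor
  · rw [mul_assoc]
    apply mul_le_mul_of_nonneg_left _ hnR
    apply mul_le_mul_of_nonneg_left _ hP
    linarith
  · apply mul_le_mul_of_nonneg_left _ hnR
    exact mul_le_of_le_one_right hP q3

lemma sum_r (K N : ℕ) (hK : 0 < K) : ∑ n ∈ Finset.Ioc 0 N, r K n ≤ (N:ℝ) / K := by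
  have hKR : (0:ℝ) < K := by exact_mod_cast hK
  have h1 : ∑ n ∈ Finset.Ioc 0 N, r K n
      = ∑ d ∈ Finset.Ioc K N, ∑ n ∈ Finset.Ioc 0 N, (if d ∣ n then ((d:ℝ))⁻¹ else 0) := by
    rw [Finset.sum_comm]
    apply Finset.sum_congr rfl
    intro n hn
    rw [Finset.mem_Ioc] at hn
    unfold r
    rw [← Finset.sum_filter]
    apply Finset.sum_congr _ (fun _ _ => rfl)
    ext d
    simp only [Finset.mem_filter, Nat.mem_divisors, Finset.mem_Ioc]
    constructor
    · rintro ⟨⟨h3, _⟩, h4⟩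
      exact ⟨⟨h4, (Nat.le_of_dvd hn.1 h3).trans hn.2⟩, h3⟩
    · rintro ⟨⟨h3, h4⟩, h5⟩
      exact ⟨⟨h5, by omega⟩, h3⟩
  rw [h1]
  have h2 : ∀ d ∈ Finset.Ioc K N, ∑ n ∈ Finset.Ioc 0 N, (if d ∣ n then ((d:ℝ))⁻¹ else 0) ≤ (N:ℝ) * ((d:ℝ)^2)⁻¹ := by
    intro d hd
    rw [Finset.mem_Ioc] at hd
    have hdR : (0:ℝ) < d := by
      have : 0 < d := by omega
      exact_mod_cast this
    rw [← Finset.sum_filter, Finset.sum_const, Nat.Ioc_filter_dvd_card_eq_div, nsmul_eq_mul]
    have h4 : ((N / d : ℕ) : ℝ) ≤ (N:ℝ)/d := Nat.cast_div_le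
    calc ((N / d : ℕ) : ℝ) * ((d:ℝ))⁻¹ ≤ ((N:ℝ)/d) * ((d:ℝ))⁻¹ :=
          mul_le_mul_of_nonneg_right h4 (by positivity)
      _ = (N:ℝ) * ((d:ℝ)^2)⁻¹ := by field_simp
  refine (Finset.sum_le_sum h2).trans ?_
  rw [← Finset.mul_sum]
  rcases le_total K N with h | h
  · have h5 := sum_Ioc_inv_sq_le_sub (α := ℝ) hK.ne' h
    have h6 : (0:ℝ) ≤ (N:ℝ)⁻¹ := by positivity
    calc (N:ℝ) * ∑ d ∈ Finset.Ioc K N, ((d:ℝ)^2)⁻¹ ≤ (N:ℝ) * (K:ℝ)⁻¹ :=
          mul_le_mul_of_nonneg_left (by linarith) (by positivity)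
      _ = (N:ℝ) / K := by rw [div_eq_mul_inv]
  · rw [Finset.Ioc_eq_empty (by omega)]
    simp only [Finset.sum_empty, mul_zero]
    positivity

lemma markov (K N : ℕ) (hK : 0 < K) (w : ℝ) (hw : 0 < w) :
    (((Finset.Ioc 0 N).filter (fun n => w ≤ r K n)).card : ℝ) * w ≤ (N:ℝ) / K := by
  rw [← nsmul_eq_mul]
  refine le_trans ?_ (sum_r K N hK)
  refine le_trans (Finset.card_nsmul_le_sum _ (fun n => r K n) w (fun n hn => (Finset.mem_filter.1 hn).2)) ?_
  exact Finset.sum_le_sum_of_subset_of_nonneg (Finset.filter_subset _ _) (fun n _ _ => r_nonneg K n)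

lemma U (k : ℕ) : ∃ X : ℕ, ∀ x : ℕ, X ≤ x →
    ((Set.ncard {n : ℕ | (x : ℝ) < (n : ℝ) + (Nat.totient n : ℝ) ∧
      (n : ℝ) + (Nat.totient n : ℝ) < (x : ℝ) + x / ((k:ℝ)+1)} : ℕ) : ℝ) ≤ 4 * (x / ((k:ℝ)+1)) := by
  classical
  set K : ℕ := 4 * (k+1)^2 with hK
  have hKpos : 0 < K := by positivity
  set M : ℕ := K.factorial with hM
  have hMpos : 0 < M := Nat.factorial_pos _
  have hMR : (0:ℝ) < M := by exact_mod_cast hMpos
  refine ⟨M * (k+1) + 1, fun x hx => ?_⟩
  have hkR : (0:ℝ) < (k:ℝ)+1 := by positivity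
  have hx1 : 1 ≤ x := by omega
  have hxR : (1:ℝ) ≤ x := by exact_mod_cast hx1
  set y : ℝ := x / ((k:ℝ)+1) with hy
  have hy0 : 0 < y := by positivity
  have hyx : y ≤ x := by
    rw [hy, div_le_iff₀ hkR]
    nlinarith
  have hMy : (M:ℝ) ≤ y := by
    rw [hy, le_div_iff₀ hkR]
    have : M * (k+1) ≤ x := by omega
    exact_mod_cast this
  set N := 2 * x with hN
  have hNR : (N:ℝ) = 2 * x := by rw [hN]; push_cast; ring
  have hNpos : (0:ℝ) < N := by rw [hNR]; linarith
  set A := (Finset.Ioc 0 N).filter (fun n => y / N ≤ r K n) with hA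
  set B := (Finset.Ioc 0 N).filter (fun n => (x:ℝ) < n * (1 + P K n) ∧ n * (1 + P K n) < (x:ℝ) + 2 * y) with hB
  have hAc : (A.card : ℝ) ≤ y := by
    have h1 := markov K N hKpos (y / N) (by positivity)
    rw [← hA] at h1
    have h4 : (N:ℝ) / K = y * (y / N) := by
      rw [hNR, hK, hy]
      push_cast
      field_simp
      ring
    rw [h4] at h1
    exact le_of_mul_le_mul_right h1 (by positivity)
  have hBc : (B.card : ℝ) ≤ 3 * y := by
    have hmap : ∀ n ∈ B, n % M ∈ Finset.range M := fun n _ => Finset.mem_range.2 (Nat.mod_lt _ hMpos)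
    have h1 := Finset.card_eq_sum_card_fiberwise (f := fun n => n % M) (t := Finset.range M) (s := B) hmap
    have h2 : ∀ r ∈ Finset.range M, ((B.filter (fun n => n % M = r)).card : ℝ) ≤ 2 * y / M + 1 := by
      intro r hr
      have hs0 := P_nonneg K r
      have hs1 : 0 < 1 + P K r := by linarith
      have h3 := cnt (B.filter (fun n => n % M = r)) M r hMpos (x/(1 + P K r)) ((x + 2 * y)/(1 + P K r))
        (div_le_div_of_nonneg_right (by linarith) hs1.le) (by
          intro n hn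
          rw [Finset.mem_filter] at hn
          obtain ⟨hnB, hnr⟩ := hn
          have h4 := (Finset.mem_filter.1 hnB).2
          have h5 : P K n = P K r := by rw [P_mod, ← hM, hnr]
          rw [h5] at h4
          refine ⟨hnr, ?_, ?_⟩
          · rw [div_lt_iff₀ hs1]; exact h4.1
          · rw [lt_div_iff₀ hs1]; exact h4.2)
      refine h3.trans ?_
      have h6 : ((x:ℝ) + 2 * y)/(1 + P K r) - x/(1 + P K r) ≤ 2 * y := by
        rw [← sub_div, div_le_iff₀ hs1]
        nlinarith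
      have := div_le_div_of_nonneg_right h6 hMR.le
      linarith
    have h7 : (B.card : ℝ) = ∑ r ∈ Finset.range M, ((B.filter (fun n => n % M = r)).card : ℝ) := by
      exact_mod_cast h1
    rw [h7]
    refine (Finset.sum_le_sum h2).trans ?_
    rw [Finset.sum_const, Finset.card_range, nsmul_eq_mul]
    have h8 : (M:ℝ) * (2 * y / M + 1) = 2 * y + M := by field_simp
    rw [h8]
    linarith
  have hsub : {n : ℕ | (x : ℝ) < (n : ℝ) + (Nat.totient n : ℝ) ∧
      (n : ℝ) + (Nat.totient n : ℝ) < (x : ℝ) + y} ⊆ ((A ∪ B : Finset ℕ) : Set ℕ) := by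
    rintro n ⟨h1, h2⟩
    have hσ0 : (0:ℝ) ≤ (Nat.totient n : ℝ) := Nat.cast_nonneg _
    have hn1 : 1 ≤ n := by
      rcases Nat.eq_zero_or_pos n with h | h
      · exfalso
        subst h
        simp at h1
        linarith
      · exact h
    have hnN : n ≤ N := by
      have : (n:ℝ) ≤ N := by rw [hNR]; linarith
      exact_mod_cast this
    obtain ⟨t1, t2⟩ := tot K n hn1
    rw [Finset.mem_coe, Finset.mem_union]
    by_cases hR : y / N ≤ r K n
    · left
      exact Finset.mem_filter.2 ⟨Finset.mem_Ioc.2 ⟨hn1, hnN⟩, hR⟩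
    · right
      push Not at hR
      have hR0 := r_nonneg K n
      refine Finset.mem_filter.2 ⟨Finset.mem_Ioc.2 ⟨hn1, hnN⟩, ?_, ?_⟩
      · linarith
      · have hnR : (n:ℝ) ≤ N := by exact_mod_cast hnN
        have hn0 : (0:ℝ) ≤ n := Nat.cast_nonneg _
        have h3 : (n:ℝ) * r K n ≤ y := by
          rw [lt_div_iff₀ hNpos] at hR
          nlinarith
        have h4 : (n:ℝ) * P K n * r K n ≤ y := by
          have h5 := P_le_one K n
          have h6 := P_nonneg K n
          have h7 : (n:ℝ) * P K n * r K n = ((n:ℝ) * r K n) * P K n := by ring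
          rw [h7]
          have h8 : 0 ≤ (n:ℝ) * r K n := mul_nonneg hn0 hR0
          exact (mul_le_of_le_one_right h8 h5).trans h3
        nlinarith
  have h9 := Set.ncard_le_ncard hsub (Finset.finite_toSet _)
  rw [Set.ncard_coe_finset] at h9
  have h10 := h9.trans (Finset.card_union_le A B)
  have h11 : (({n : ℕ | (x : ℝ) < (n : ℝ) + (Nat.totient n : ℝ) ∧
      (n : ℝ) + (Nat.totient n : ℝ) < (x : ℝ) + y}).ncard : ℝ) ≤ A.card + B.card := by
    exact_mod_cast h10
  linarith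

theorem main :
    ∃ F : ℕ → ℝ, Tendsto F atTop atTop ∧
      (∃ A : Set ℕ,
        Tendsto (fun N : ℕ => ((A ∩ Set.Iio N).ncard : ℝ) / (N : ℝ)) atTop (𝓝 1) ∧
        Tendsto (fun n : ℕ => F n / (Nat.totient n : ℝ)) (atTop ⊓ 𝓟 A) (𝓝 0)) ∧
      ¬ (∀ C : ℝ, Set.Infinite {x : ℕ |
          ((Set.ncard {n : ℕ | (x : ℝ) < (n : ℝ) + (Nat.totient n : ℝ) ∧
              (n : ℝ) + (Nat.totient n : ℝ) < (x : ℝ) + F x} : ℕ) : ℝ) > C * F x}) := by
  classical
  choose X hX using U
  let κ : ℕ → ℕ := fun x => Nat.findGreatest (fun k => X k ≤ x ∧ (k+1)^2 ≤ x) x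
  have hspec : ∀ x, X 0 + 1 ≤ x → X (κ x) ≤ x ∧ (κ x + 1)^2 ≤ x := by
    intro x hx
    exact Nat.findGreatest_spec (P := fun k => X k ≤ x ∧ (k+1)^2 ≤ x) (Nat.zero_le x) ⟨by omega, by simp; omega⟩
  have hκ : ∀ m, ∀ᶠ x in atTop, m ≤ κ x := by
    intro m
    filter_upwards [eventually_ge_atTop (X m), eventually_ge_atTop ((m+1)^2), eventually_ge_atTop m] with x h1 h2 h3
    exact Nat.le_findGreatest h3 ⟨h1, h2⟩
  have hκR : Tendsto (fun x => ((κ x : ℕ) : ℝ) + 1) atTop atTop := by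
    apply tendsto_atTop_add_const_right
    exact tendsto_natCast_atTop_atTop.comp (tendsto_atTop.2 hκ)
  have hsq : Tendsto (fun x => Real.sqrt (((κ x : ℕ) : ℝ) + 1)) atTop atTop :=
    Real.tendsto_sqrt_atTop.comp hκR
  let F : ℕ → ℝ := fun x => x / ((κ x : ℝ) + 1)
  have hF1 : Tendsto F atTop atTop := by
    refine tendsto_atTop_mono' _ ?_ hκR
    filter_upwards [eventually_ge_atTop (X 0 + 1)] with x hx
    have h1 := (hspec x hx).2
    have h2 : ((κ x : ℝ) + 1)^2 ≤ x := by exact_mod_cast h1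
    show (κ x : ℝ) + 1 ≤ x / ((κ x : ℝ) + 1)
    rw [le_div_iff₀ (by positivity)]
    nlinarith
  let A : Set ℕ := {n | (n:ℝ) ≤ Real.sqrt ((κ n : ℝ) + 1) * Nat.totient n}
  refine ⟨F, hF1, ⟨A, ?_, ?_⟩, ?_⟩
  · rw [Metric.tendsto_nhds]
    intro δ hδ
    obtain ⟨K, hK⟩ := exists_nat_gt (4 / δ)
    have hKR : (0:ℝ) < K := lt_trans (by positivity) hK
    have hKpos : 0 < K := by exact_mod_cast hKR
    have hcK := c_pos K
    obtain ⟨n0, hn0⟩ := eventually_atTop.1 (hsq.eventually_ge_atTop (2 / c K))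
    have hbad : ∀ N : ℕ, (((Finset.range N).filter (fun n => n ∉ A)).card : ℝ) ≤ n0 + 2 * N / K := by
      intro N
      have hsub : (Finset.range N).filter (fun n => n ∉ A) ⊆
          Finset.range n0 ∪ (Finset.Ioc 0 N).filter (fun n => (1/2 : ℝ) ≤ r K n) := by
        intro n hn
        rw [Finset.mem_filter, Finset.mem_range] at hn
        rw [Finset.mem_union, Finset.mem_range]
        by_cases hnn : n < n0
        · left; exact hnn
        · right
          have hnA : ¬ ((n:ℝ) ≤ Real.sqrt ((κ n : ℝ) + 1) * Nat.totient n) := hn.2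
          push Not at hnA
          have hn1 : 1 ≤ n := by
            rcases Nat.eq_zero_or_pos n with h | h
            · exfalso
              rw [h] at hnA
              simp at hnA
            · exact h
          rw [Finset.mem_filter, Finset.mem_Ioc]
          refine ⟨⟨hn1, hn.1.le⟩, ?_⟩
          by_contra hr
          push Not at hr
          have h1 := (tot K n hn1).1
          have h2 := c_le_P K n
          have h3 := hn0 n (not_lt.1 hnn)
          have hnR : (1:ℝ) ≤ n := by exact_mod_cast hn1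
          have h4 : (n:ℝ) * c K * (1/2) ≤ Nat.totient n := by
            refine le_trans ?_ h1
            apply mul_le_mul
            · exact mul_le_mul_of_nonneg_left h2 (by linarith)
            · linarith
            · norm_num
            · exact mul_nonneg (by linarith) (P_nonneg K n)
          have h5 : (2 / c K) * Nat.totient n ≤ Real.sqrt ((κ n : ℝ) + 1) * Nat.totient n :=
            mul_le_mul_of_nonneg_right h3 (Nat.cast_nonneg _)
          have h6 : (n:ℝ) ≤ (2 / c K) * Nat.totient n := by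
            have h7 : (2 / c K) * ((n:ℝ) * c K * (1/2)) = n := by field_simp
            calc (n:ℝ) = (2 / c K) * ((n:ℝ) * c K * (1/2)) := h7.symm
              _ ≤ (2 / c K) * Nat.totient n := mul_le_mul_of_nonneg_left h4 (by positivity)
          linarith
      have h1 := (Finset.card_le_card hsub).trans (Finset.card_union_le _ _)
      rw [Finset.card_range] at h1
      have h2 := markov K N hKpos (1/2) (by norm_num)
      have h3 : (((Finset.range N).filter (fun n => n ∉ A)).card : ℝ) ≤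
          n0 + (((Finset.Ioc 0 N).filter (fun n => (1/2 : ℝ) ≤ r K n)).card : ℝ) := by
        exact_mod_cast h1
      have h4 : (2:ℝ) * N / K = 2 * (N / K) := by ring
      rw [h4]
      linarith
    filter_upwards [tendsto_natCast_atTop_atTop.eventually_gt_atTop ((4 * n0 + 4) / δ), eventually_ge_atTop 1] with N hN hN1
    have hNR : (1:ℝ) ≤ N := by exact_mod_cast hN1
    have hNpos : (0:ℝ) < N := by linarith
    have hup : (A ∩ Set.Iio N).ncard ≤ N := by
      have h1 := Set.ncard_le_ncard (Set.inter_subset_right (s := A) (t := Set.Iio N)) (Set.finite_Iio N)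
      have h2 : (Set.Iio N).ncard = N := by
        have : Set.Iio N = ((Finset.range N : Finset ℕ) : Set ℕ) := by ext; simp
        rw [this, Set.ncard_coe_finset, Finset.card_range]
      rw [h2] at h1
      exact h1
    have hlow : N ≤ (A ∩ Set.Iio N).ncard + ((Finset.range N).filter (fun n => n ∉ A)).card := by
      have h1 : (A ∩ Set.Iio N) = (((Finset.range N).filter (fun n => n ∈ A) : Finset ℕ) : Set ℕ) := by
        ext n; simp [and_comm]
      rw [h1, Set.ncard_coe_finset]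
      have := Finset.card_filter_add_card_filter_not (s := Finset.range N) (fun n => n ∈ A)
      rw [Finset.card_range] at this
      omega
    have hlowR : (N:ℝ) ≤ (A ∩ Set.Iio N).ncard + (((Finset.range N).filter (fun n => n ∉ A)).card : ℝ) := by
      exact_mod_cast hlow
    have hupR : ((A ∩ Set.Iio N).ncard : ℝ) ≤ N := by exact_mod_cast hup
    have hb := hbad N
    rw [Real.dist_eq]
    have h5 : ((A ∩ Set.Iio N).ncard : ℝ) / N - 1 = -(((N:ℝ) - (A ∩ Set.Iio N).ncard) / N) := by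
      field_simp
      ring
    rw [h5, abs_neg, abs_of_nonneg (div_nonneg (by linarith) hNpos.le), div_lt_iff₀ hNpos]
    have h6 : 2 * (N:ℝ) / K < δ / 2 * N := by
      rw [div_lt_iff₀ hKR]
      rw [div_lt_iff₀ hδ] at hK
      nlinarith
    have h7 : (n0:ℝ) < δ / 2 * N := by
      rw [div_lt_iff₀ hδ] at hN
      have : (0:ℝ) ≤ n0 := Nat.cast_nonneg _
      nlinarith
    nlinarith
  · have hz : Tendsto (fun n : ℕ => 1 / Real.sqrt ((κ n : ℝ) + 1)) (atTop ⊓ 𝓟 A) (𝓝 0) := by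
      have h1 : Tendsto (fun n : ℕ => 1 / Real.sqrt ((κ n : ℝ) + 1)) atTop (𝓝 0) :=
        tendsto_const_nhds.div_atTop hsq
      exact h1.mono_left inf_le_left
    refine squeeze_zero' ?_ ?_ hz
    · exact Eventually.of_forall (fun n => by positivity)
    · rw [eventually_inf_principal]
      filter_upwards [eventually_ge_atTop 1] with n hn hnA
      have hnA' : (n:ℝ) ≤ Real.sqrt ((κ n : ℝ) + 1) * Nat.totient n := hnA
      have hφ : (0:ℝ) < Nat.totient n := by exact_mod_cast Nat.totient_pos.2 hn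
      have hκp : (0:ℝ) < (κ n : ℝ) + 1 := by positivity
      have hs : 0 < Real.sqrt ((κ n : ℝ) + 1) := Real.sqrt_pos.2 hκp
      have hss : Real.sqrt ((κ n : ℝ) + 1) * Real.sqrt ((κ n : ℝ) + 1) = (κ n : ℝ) + 1 := Real.mul_self_sqrt hκp.le
      show (n:ℝ) / ((κ n : ℝ) + 1) / (Nat.totient n : ℝ) ≤ 1 / Real.sqrt ((κ n : ℝ) + 1)
      rw [div_div, div_le_div_iff₀ (by positivity) hs, one_mul]
      calc (n:ℝ) * Real.sqrt ((κ n : ℝ) + 1) ≤ (Real.sqrt ((κ n : ℝ) + 1) * Nat.totient n) * Real.sqrt ((κ n : ℝ) + 1) :=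
            mul_le_mul_of_nonneg_right hnA' hs.le
        _ = (Real.sqrt ((κ n : ℝ) + 1) * Real.sqrt ((κ n : ℝ) + 1)) * Nat.totient n := by ring
        _ = ((κ n : ℝ) + 1) * Nat.totient n := by rw [hss]
  · intro h
    have hinf := h 4
    apply hinf
    refine (Set.finite_Iio (X 0 + 1)).subset ?_
    intro x hx
    rw [Set.mem_Iio]
    by_contra hge
    push Not at hge
    have h1 := hX (κ x) x (hspec x hge).1
    exact absurd hx (not_lt.2 h1)

end

end Pool.Agent.PhiP
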