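import Mathlib

set_option autoImplicit false
set_option maxHeartbeats 4000000
open scoped ENNReal Topology
open Filter

namespace Pool.Agent.PolyIndex

section abstr
variable {k : ℕ}

noncomputable def U {E : Type} [NormedAddCommGroup E] [NormedSpace ℂ E]
    (A : ContinuousMultilinearMap ℂ (fun _ : Fin k => E) E) : ℝ :=
  sSup {s : ℝ | ∃ x : E, ‖x‖ ≤ 1 ∧ s = ‖A (fun _ => x)‖}

noncomputable def V {E : Type} [NormedAddCommGroup E] [NormedSpace ℂ E]
    (A : ContinuousMultilinearMap ℂ (fun _ : Fin k => E) E) : ℝ :=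
  sSup {s : ℝ | ∃ (x : E) (φ : E →L[ℂ] ℂ), ‖x‖ = 1 ∧ ‖φ‖ = 1 ∧ φ x = 1 ∧
                  s = ‖φ (A (fun _ => x))‖}

noncomputable def NN (k : ℕ) (E : Type) [NormedAddCommGroup E] [NormedSpace ℂ E] : ℝ :=
  sInf {r : ℝ | ∃ A : ContinuousMultilinearMap ℂ (fun _ : Fin k => E) E, U A = 1 ∧ r = V A}

variable {E : Type} [NormedAddCommGroup E] [NormedSpace ℂ E]
    (A : ContinuousMultilinearMap ℂ (fun _ : Fin k => E) E)

lemma norm_A_le (x : E) (hx : ‖x‖ ≤ 1) : ‖A (fun _ => x)‖ ≤ ‖A‖ := by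
  refine (A.le_opNorm _).trans ?_
  refine mul_le_of_le_one_right (norm_nonneg _) ?_
  exact Finset.prod_le_one (fun _ _ => norm_nonneg _) (fun _ _ => hx)

lemma bddU : BddAbove {s : ℝ | ∃ x : E, ‖x‖ ≤ 1 ∧ s = ‖A (fun _ => x)‖} := by
  refine ⟨‖A‖, ?_⟩
  rintro s ⟨x, hx, rfl⟩
  exact norm_A_le A x hx

lemma le_U (x : E) (hx : ‖x‖ ≤ 1) : ‖A (fun _ => x)‖ ≤ U A :=
  le_csSup (bddU A) ⟨x, hx, rfl⟩

lemma U_le (C : ℝ) (h : ∀ x : E, ‖x‖ ≤ 1 → ‖A (fun _ => x)‖ ≤ C) : U A ≤ C := by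
  apply csSup_le
  · exact ⟨_, 0, by simp, rfl⟩
  · rintro s ⟨x, hx, rfl⟩; exact h x hx

lemma bddV : BddAbove {s : ℝ | ∃ (x : E) (φ : E →L[ℂ] ℂ), ‖x‖ = 1 ∧ ‖φ‖ = 1 ∧ φ x = 1 ∧
                  s = ‖φ (A (fun _ => x))‖} := by
  refine ⟨‖A‖, ?_⟩
  rintro s ⟨x, φ, hx, hφ, -, rfl⟩
  refine (φ.le_opNorm _).trans ?_
  rw [hφ, one_mul]
  exact norm_A_le A x hx.le

lemma le_V (x : E) (φ : E →L[ℂ] ℂ) (hx : ‖x‖ = 1) (hφ : ‖φ‖ = 1) (h : φ x = 1) :
    ‖φ (A (fun _ => x))‖ ≤ V A :=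
  le_csSup (bddV A) ⟨x, φ, hx, hφ, h, rfl⟩

lemma V_nonneg : 0 ≤ V A := by
  apply Real.sSup_nonneg
  rintro s ⟨x, φ, -, -, -, rfl⟩; exact norm_nonneg _

lemma U_nonneg : 0 ≤ U A := by
  apply Real.sSup_nonneg
  rintro s ⟨x, -, rfl⟩; exact norm_nonneg _

lemma V_le (C : ℝ) (hC : 0 ≤ C) (h : ∀ (x : E) (φ : E →L[ℂ] ℂ), ‖x‖ = 1 → ‖φ‖ = 1 → φ x = 1 →
    ‖φ (A (fun _ => x))‖ ≤ C) : V A ≤ C := by
  apply Real.sSup_le _ hC
  rintro s ⟨x, φ, hx, hφ, h1, rfl⟩; exact h x φ hx hφ h1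

lemma NN_nonneg (k : ℕ) (E : Type) [NormedAddCommGroup E] [NormedSpace ℂ E] : 0 ≤ NN k E := by
  apply Real.sInf_nonneg
  rintro s ⟨A, -, rfl⟩; exact V_nonneg A

lemma NN_le (h : U A = 1) : NN k E ≤ V A := by
  apply csInf_le
  · refine ⟨0, ?_⟩
    rintro s ⟨A, -, rfl⟩; exact V_nonneg A
  · exact ⟨A, h, rfl⟩

lemma NN_mul_U_le_V : NN k E * U A ≤ V A := by
  rcases (U_nonneg A).eq_or_lt with h | hu
  · rw [← h, mul_zero]; exact V_nonneg A
  · set u := U A with hudef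
    set Q : ContinuousMultilinearMap ℂ (fun _ : Fin k => E) E := ((u⁻¹ : ℝ) : ℂ) • A with hQ
    have hnorm : ∀ x : E, ‖Q (fun _ => x)‖ = u⁻¹ * ‖A (fun _ => x)‖ := by
      intro x
      rw [hQ, ContinuousMultilinearMap.smul_apply, norm_smul]
      congr 1
      rw [Complex.norm_real, Real.norm_of_nonneg (by positivity)]
    have h1 : U Q = 1 := by
      apply le_antisymm
      · apply U_le
        intro x hx
        rw [hnorm, inv_mul_le_iff₀ hu, mul_one]
        exact le_U A x hx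
      · have : U A ≤ u * U Q := by
          apply U_le
          intro x hx
          have h2 := le_U Q x hx
          rw [hnorm, inv_mul_le_iff₀ hu] at h2
          exact h2
        rw [← hudef] at this
        by_contra hc
        push Not at hc
        nlinarith
    have h2 : V Q ≤ u⁻¹ * V A := by
      apply V_le _ _ (by have := V_nonneg A; positivity)
      intro x φ hx hφ h
      have h3 := le_V A x φ hx hφ h
      rw [hQ, ContinuousMultilinearMap.smul_apply, map_smul, norm_smul, Complex.norm_real,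
        Real.norm_of_nonneg (by positivity)]
      exact mul_le_mul_of_nonneg_left h3 (by positivity)
    have h3 := NN_le Q h1
    have h4 := h3.trans h2
    rw [← div_eq_inv_mul, le_div_iff₀ hu] at h4
    exact h4

lemma exists_U_one (E : Type) [NormedAddCommGroup E] [NormedSpace ℂ E] [Nontrivial E] (k : ℕ) :
    ∃ A : ContinuousMultilinearMap ℂ (fun _ : Fin k => E) E, U A = 1 := by
  obtain ⟨u, hu⟩ := exists_ne (0 : E)
  obtain ⟨v, hv⟩ : ∃ v : E, ‖v‖ = 1 := by
    refine ⟨((‖u‖⁻¹ : ℝ) : ℂ) • u, ?_⟩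
    rw [norm_smul, Complex.norm_real, Real.norm_of_nonneg (by positivity)]
    exact inv_mul_cancel₀ (norm_ne_zero_iff.2 hu)
  obtain ⟨φ, hφ, h1⟩ := exists_dual_vector' ℂ v
  refine ⟨((ContinuousMultilinearMap.mkPiAlgebra ℂ (Fin k) ℂ).compContinuousLinearMap (fun _ => φ)).smulRight v, ?_⟩
  have hval : ∀ x : E, (((ContinuousMultilinearMap.mkPiAlgebra ℂ (Fin k) ℂ).compContinuousLinearMap (fun _ => φ)).smulRight v) (fun _ => x) = (φ x ^ k) • v := by
    intro x
    simp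
  apply le_antisymm
  · apply U_le
    intro x hx
    rw [hval, norm_smul, hv, mul_one, norm_pow]
    apply pow_le_one₀ (norm_nonneg _)
    refine (φ.le_opNorm _).trans ?_
    rw [hφ, one_mul]; exact hx
  · have h2 := le_U (((ContinuousMultilinearMap.mkPiAlgebra ℂ (Fin k) ℂ).compContinuousLinearMap (fun _ => φ)).smulRight v) v hv.le
    rw [hval, h1, hv] at h2
    simpa [hv] using h2

end abstr

section summand
variable {k : ℕ} {X Z : Type} [NormedAddCommGroup X] [NormedSpace ℂ X] [NormedAddCommGroup Z] [NormedSpace ℂ Z]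
  (e : X →L[ℂ] Z) (π : Z →L[ℂ] X) (hπe : ∀ x, π (e x) = x) (hπ : ∀ z, ‖π z‖ ≤ ‖z‖)
  (hmax : ∀ x z, ‖e x + (z - e (π z))‖ ≤ max ‖x‖ ‖z‖)

include hπe hπ hmax

lemma norm_e (x : X) : ‖e x‖ = ‖x‖ := by
  apply le_antisymm
  · have := hmax x 0
    simpa using this
  · have := hπ (e x)
    rwa [hπe] at this

lemma lemmaA (A : ContinuousMultilinearMap ℂ (fun _ : Fin k => X) X) (hU : U A = 1) :
    NN k Z ≤ V A := by
  set A' : ContinuousMultilinearMap ℂ (fun _ : Fin k => Z) Z :=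
    (e.compContinuousMultilinearMap A).compContinuousLinearMap (fun _ => π) with hA'
  have hval : ∀ z : Z, A' (fun _ => z) = e (A (fun _ => π z)) := by
    intro z; simp [hA']
  have hU' : U A' = 1 := by
    apply le_antisymm
    · apply U_le
      intro z hz
      rw [hval, norm_e e π hπe hπ hmax, ← hU]
      exact le_U A _ ((hπ z).trans hz)
    · rw [← hU]
      apply U_le
      intro x hx
      have := le_U A' (e x) (by rw [norm_e e π hπe hπ hmax]; exact hx)
      rwa [hval, norm_e e π hπe hπ hmax, hπe] at this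
  refine (NN_le A' hU').trans ?_
  apply V_le _ _ (V_nonneg A)
  intro z Φ hz hΦ h1
  rw [hval]
  set ψ : X →L[ℂ] ℂ := Φ.comp e with hψ
  have hψe : ∀ x, Φ (e x) = ψ x := fun x => rfl
  rw [hψe]
  set z' := z - e (π z) with hz'
  have hzz : Φ z = ψ (π z) + Φ z' := by
    rw [← hψe, ← map_add]; congr 1; rw [hz']; abel
  -- bound
  have hb : ∀ x : X, ‖x‖ ≤ 1 → ‖ψ x‖ + (Φ z').re ≤ 1 := by
    intro x hx
    obtain ⟨c, hc, hcx⟩ : ∃ c : ℂ, ‖c‖ = 1 ∧ c * ψ x = ‖ψ x‖ := by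
      by_cases h0 : ψ x = 0
      · exact ⟨1, by simp, by simp [h0]⟩
      · refine ⟨(‖ψ x‖ : ℂ) / ψ x, ?_, ?_⟩
        · rw [norm_div, Complex.norm_real, norm_norm]
          exact div_self (norm_ne_zero_iff.2 h0)
        · field_simp
    have h2 := hmax (c • x) z
    rw [norm_smul, hc, one_mul, hz] at h2
    have h3 : ‖Φ (e (c • x) + (z - e (π z)))‖ ≤ 1 := by
      refine (Φ.le_opNorm _).trans ?_
      rw [hΦ, one_mul]
      exact h2.trans (max_le hx le_rfl)
    rw [map_add, hψe, map_smul, smul_eq_mul, hcx] at h3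
    have h4 := (Complex.re_le_norm _).trans h3
    rw [Complex.add_re, Complex.ofReal_re] at h4
    exact h4
  have hre : 1 = (ψ (π z)).re + (Φ z').re := by
    have := congrArg Complex.re hzz
    rw [h1] at this
    simpa using this
  have hle : (ψ (π z)).re ≤ ‖ψ (π z)‖ := Complex.re_le_norm _
  -- ψ has norm a
  have ha : ‖ψ‖ ≤ (ψ (π z)).re := by
    have h0 : 0 ≤ (ψ (π z)).re := by
      have := hb 0 (by simp)
      simp at this
      linarith
    apply ContinuousLinearMap.opNorm_le_bound _ h0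
    intro x
    by_cases hx0 : x = 0
    · rw [hx0]; simp
    · have hxp : 0 < ‖x‖ := norm_pos_iff.2 hx0
      have h2 := hb (((‖x‖⁻¹ : ℝ) : ℂ) • x) (by
        rw [norm_smul, Complex.norm_real, Real.norm_of_nonneg (by positivity)]
        exact (inv_mul_cancel₀ hxp.ne').le)
      rw [map_smul, norm_smul, Complex.norm_real, Real.norm_of_nonneg (by positivity)] at h2
      have h3 : ‖x‖⁻¹ * ‖ψ x‖ ≤ (ψ (π z)).re := by linarith
      rw [inv_mul_le_iff₀ hxp] at h3
      linarith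
  by_cases hψ0 : ψ = 0
  · rw [hψ0]; simp; exact V_nonneg A
  · have hpos : 0 < ‖ψ‖ := norm_pos_iff.2 hψ0
    have h5 : ‖ψ (π z)‖ ≤ ‖ψ‖ * ‖π z‖ := ψ.le_opNorm _
    have h6 : ‖π z‖ ≤ 1 := (hπ z).trans hz.le
    have h7 : ‖π z‖ = 1 := by nlinarith
    have h8 : ‖ψ (π z)‖ = ‖ψ‖ := by
      rw [h7, mul_one] at h5
      linarith
    have h9 : (ψ (π z)).re = ‖ψ (π z)‖ := by
      rw [h7, mul_one] at h5
      linarith
    have h10 : ψ (π z) = ‖ψ‖ := by
      have : ψ (π z) = ‖ψ (π z)‖ := by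
        apply Complex.ext
        · rw [Complex.ofReal_re]; exact h9
        · rw [Complex.ofReal_im]
          have := Complex.sq_norm (ψ (π z))
          rw [Complex.normSq_apply, ← h9] at this
          nlinarith
      rw [this, h8]
    have hle1 : ‖ψ‖ ≤ 1 := by
      apply ContinuousLinearMap.opNorm_le_bound _ zero_le_one
      intro x
      rw [← hψe]
      refine (Φ.le_opNorm _).trans ?_
      rw [hΦ, norm_e e π hπe hπ hmax]
    set χ : X →L[ℂ] ℂ := ((‖ψ‖⁻¹ : ℝ) : ℂ) • ψ with hχ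
    have hχn : ‖χ‖ = 1 := by
      rw [hχ, norm_smul, Complex.norm_real, Real.norm_of_nonneg (by positivity)]
      exact inv_mul_cancel₀ hpos.ne'
    have hχv : χ (π z) = 1 := by
      rw [hχ, ContinuousLinearMap.smul_apply, h10, smul_eq_mul]
      push_cast
      exact inv_mul_cancel₀ (by exact_mod_cast hpos.ne')
    have h11 := le_V A (π z) χ h7 hχn hχv
    have h12 : ‖ψ (A (fun _ => π z))‖ = ‖ψ‖ * ‖χ (A (fun _ => π z))‖ := by
      rw [hχ, ContinuousLinearMap.smul_apply, norm_smul, Complex.norm_real, Real.norm_of_nonneg (by positivity),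
        ← mul_assoc, mul_inv_cancel₀ hpos.ne', one_mul]
    rw [h12]
    calc ‖ψ‖ * ‖χ (A (fun _ => π z))‖ ≤ 1 * V A := mul_le_mul hle1 h11 (norm_nonneg _) zero_le_one
      _ = V A := one_mul _

lemma lemmaB [Nontrivial X] (A : ContinuousMultilinearMap ℂ (fun _ : Fin k => Z) Z) (z : Z) (hz : ‖z‖ ≤ 1) :
    NN k X * ‖π (A (fun _ => z))‖ ≤ V A := by
  rcases (NN_nonneg k X).eq_or_lt with h | hN
  · rw [← h, zero_mul]; exact V_nonneg A
  obtain ⟨u, hu, hzu⟩ : ∃ u : X, ‖u‖ = 1 ∧ π z = (‖π z‖ : ℂ) • u := by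
    by_cases h0 : π z = 0
    · obtain ⟨u, hu⟩ := exists_ne (0 : X)
      refine ⟨((‖u‖⁻¹ : ℝ) : ℂ) • u, ?_, by simp [h0]⟩
      rw [norm_smul, Complex.norm_real, Real.norm_of_nonneg (by positivity)]
      exact inv_mul_cancel₀ (norm_ne_zero_iff.2 hu)
    · refine ⟨((‖π z‖⁻¹ : ℝ) : ℂ) • π z, ?_, ?_⟩
      · rw [norm_smul, Complex.norm_real, Real.norm_of_nonneg (by positivity)]
        exact inv_mul_cancel₀ (norm_ne_zero_iff.2 h0)
      · rw [smul_smul]
        push_cast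
        rw [mul_inv_cancel₀ (by exact_mod_cast norm_ne_zero_iff.2 h0), one_smul]
  set z' := z - e (π z) with hz'
  have hπz' : π z' = 0 := by rw [hz', map_sub, hπe, sub_self]
  set g : ℂ → X := fun ζ => π (A (fun _ => e (ζ • u) + z')) with hg
  have hdiff : Differentiable ℂ g := by
    have h1 : Differentiable ℂ (fun ζ : ℂ => (fun _ : Fin k => e (ζ • u) + z')) := by
      rw [differentiable_pi]
      intro i
      exact (e.differentiable.comp (differentiable_id.smul_const u)).add_const z'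
    have h2 : Differentiable ℂ (fun m : (∀ _ : Fin k, Z) => A m) := (A.contDiff (n := 1)).differentiable (by norm_num)
    exact π.differentiable.comp (h2.comp h1)
  have hfront : ∀ ζ ∈ frontier (Metric.ball (0:ℂ) 1), ‖g ζ‖ ≤ V A / NN k X := by
    intro ζ hζ
    rw [frontier_ball _ one_ne_zero, mem_sphere_zero_iff_norm] at hζ
    set x0 := ζ • u with hx0
    have hx0n : ‖x0‖ = 1 := by rw [hx0, norm_smul, hζ, hu, one_mul]
    obtain ⟨φ0, hφ0, h0⟩ := exists_dual_vector' ℂ x0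
    rw [hx0n] at h0
    have h0' : φ0 x0 = 1 := by simpa using h0
    set T : X →L[ℂ] Z := e + φ0.smulRight z' with hT
    have hTv : ∀ x, T x = e x + φ0 x • z' := fun x => rfl
    have hTn : ∀ x, ‖x‖ = 1 → ‖T x‖ = 1 := by
      intro x hx
      apply le_antisymm
      · have h1 := hmax x (φ0 x • z)
        have h2 : φ0 x • z - e (π (φ0 x • z)) = φ0 x • z' := by
          rw [hz', map_smul, map_smul, smul_sub]
        rw [h2] at h1
        rw [hTv]
        refine h1.trans (max_le hx.le ?_)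
        rw [norm_smul]
        have h3 : ‖φ0 x‖ ≤ 1 := by
          refine (φ0.le_opNorm _).trans ?_
          rw [hφ0, hx, one_mul]
        calc ‖φ0 x‖ * ‖z‖ ≤ 1 * 1 := mul_le_mul h3 hz (norm_nonneg _) zero_le_one
          _ = 1 := one_mul 1
      · have h1 := hπ (T x)
        rw [hTv, map_add, hπe, map_smul, hπz', smul_zero, add_zero, hx] at h1
        exact h1
    set Q : ContinuousMultilinearMap ℂ (fun _ : Fin k => X) X :=
      (π.compContinuousMultilinearMap A).compContinuousLinearMap (fun _ => T) with hQ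
    have hQv : ∀ x, Q (fun _ => x) = π (A (fun _ => T x)) := by intro x; simp [hQ]
    have h1 : ‖g ζ‖ ≤ U Q := by
      have := le_U Q x0 hx0n.le
      rw [hQv, hTv, h0', one_smul] at this
      exact this
    have h2 : V Q ≤ V A := by
      apply V_le _ _ (V_nonneg A)
      intro x φ hx hφ hφx
      rw [hQv]
      have h3 : (φ.comp π) (T x) = 1 := by
        rw [ContinuousLinearMap.comp_apply, hTv, map_add, hπe, map_smul, hπz', smul_zero, add_zero, hφx]
      have h4 : ‖φ.comp π‖ = 1 := by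
        apply le_antisymm
        · apply ContinuousLinearMap.opNorm_le_bound _ zero_le_one
          intro w
          rw [ContinuousLinearMap.comp_apply]
          refine (φ.le_opNorm _).trans ?_
          rw [hφ]
          exact mul_le_mul_of_nonneg_left (hπ w) zero_le_one
        · have h5 := (φ.comp π).le_opNorm (T x)
          rw [h3, hTn x hx, mul_one, norm_one] at h5
          exact h5
      exact le_V A (T x) (φ.comp π) (hTn x hx) h4 h3
    have h3 := NN_mul_U_le_V Q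
    rw [le_div_iff₀ hN]
    nlinarith
  have hfin := Complex.norm_le_of_forall_mem_frontier_norm_le (Metric.isBounded_ball) (hdiff.diffContOnCl) hfront
    (z := (‖π z‖ : ℂ)) (by
      rw [closure_ball _ one_ne_zero, mem_closedBall_zero_iff, Complex.norm_real, norm_norm]
      exact (hπ z).trans hz)
  have h1 : g (‖π z‖ : ℂ) = π (A (fun _ => z)) := by
    simp only [hg]
    congr 2
    ext i
    rw [← hzu, hz']
    abel
  rw [h1, le_div_iff₀ hN] at hfin
  linarith

end summand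

theorem abs_main {k : ℕ} {Λ : Type} [Nonempty Λ] (X : Λ → Type) [∀ i, NormedAddCommGroup (X i)]
      [∀ i, NormedSpace ℂ (X i)] [∀ i, Nontrivial (X i)] (Z : Type) [NormedAddCommGroup Z] [NormedSpace ℂ Z]
      (e : ∀ i, X i →L[ℂ] Z) (π : ∀ i, Z →L[ℂ] X i) (hπe : ∀ i x, π i (e i x) = x) (hπ : ∀ i z, ‖π i z‖ ≤ ‖z‖)
      (hmax : ∀ i x z, ‖e i x + (z - e i (π i z))‖ ≤ max ‖x‖ ‖z‖)
      (hsup : ∀ z C, 0 ≤ C → (∀ i, ‖π i z‖ ≤ C) → ‖z‖ ≤ C) :
      NN k Z = ⨅ i, NN k (X i) := by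
  have hbdd : BddBelow (Set.range fun i => NN k (X i)) := ⟨0, by rintro _ ⟨i, rfl⟩; exact NN_nonneg k (X i)⟩
  have hle : ∀ i, NN k Z ≤ NN k (X i) := by
    intro i
    obtain ⟨A0, hA0⟩ := exists_U_one (X i) k
    apply le_csInf
    · exact ⟨_, A0, hA0, rfl⟩
    · rintro r ⟨A, hA, rfl⟩
      exact lemmaA (e i) (π i) (hπe i) (hπ i) (hmax i) A hA
  apply le_antisymm
  · exact le_ciInf hle
  · have i0 : Λ := Classical.arbitrary Λ
    have hZ : Nontrivial Z := by
      obtain ⟨u, hu⟩ := exists_ne (0 : X i0)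
      refine ⟨⟨e i0 u, 0, fun h => hu ?_⟩⟩
      have := hπe i0 u
      rw [h, map_zero] at this
      exact this.symm
    obtain ⟨A0, hA0⟩ := exists_U_one Z k
    apply le_csInf
    · exact ⟨_, A0, hA0, rfl⟩
    · rintro r ⟨A, hA, rfl⟩
      set N := ⨅ i, NN k (X i) with hNdef
      have hN0 : 0 ≤ N := Real.iInf_nonneg (fun i => NN_nonneg k (X i))
      rcases hN0.eq_or_lt with h | hN
      · rw [← h]; exact V_nonneg A
      have h1 : U A ≤ V A / N := by
        apply U_le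
        intro z hz
        apply hsup _ _ (by have := V_nonneg A; positivity)
        intro i
        rw [le_div_iff₀ hN]
        have h2 := lemmaB (e i) (π i) (hπe i) (hπ i) (hmax i) A z hz
        have h3 : N ≤ NN k (X i) := ciInf_le hbdd i
        have h4 : 0 ≤ ‖π i (A (fun _ => z))‖ := norm_nonneg _
        nlinarith
      rw [hA, le_div_iff₀ hN, one_mul] at h1
      exact h1

open Classical in
theorem main :
    ∀ (Λ : Type) [Nonempty Λ] (X : Λ → Type) [∀ i, NormedAddCommGroup (X i)]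
      [∀ i, NormedSpace ℂ (X i)] [∀ i, CompleteSpace (X i)] [∀ i, Nontrivial (X i)]
      (C : Submodule ℂ (lp X ∞)),
      (∀ f : lp X ∞, f ∈ C ↔ Tendsto (fun i => ‖f i‖) cofinite (𝓝 0)) →
      ∀ k : ℕ, 1 ≤ k →
        (sInf {r : ℝ | ∃ A : ContinuousMultilinearMap ℂ (fun _ : Fin k => C) C,
            sSup {s : ℝ | ∃ x : C, ‖x‖ ≤ 1 ∧ s = ‖A (fun _ => x)‖} = 1 ∧
            r = sSup {s : ℝ | ∃ (x : C) (φ : C →L[ℂ] ℂ), ‖x‖ = 1 ∧ ‖φ‖ = 1 ∧ φ x = 1 ∧
                  s = ‖φ (A (fun _ => x))‖}}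
          = ⨅ i, sInf {r : ℝ | ∃ A : ContinuousMultilinearMap ℂ (fun _ : Fin k => X i) (X i),
            sSup {s : ℝ | ∃ x : X i, ‖x‖ ≤ 1 ∧ s = ‖A (fun _ => x)‖} = 1 ∧
            r = sSup {s : ℝ | ∃ (x : X i) (φ : X i →L[ℂ] ℂ), ‖x‖ = 1 ∧ ‖φ‖ = 1 ∧ φ x = 1 ∧
                  s = ‖φ (A (fun _ => x))‖}}) ∧
        (sInf {r : ℝ | ∃ A : ContinuousMultilinearMap ℂ (fun _ : Fin k => lp X ∞) (lp X ∞),
            sSup {s : ℝ | ∃ x : lp X ∞, ‖x‖ ≤ 1 ∧ s = ‖A (fun _ => x)‖} = 1 ∧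
            r = sSup {s : ℝ | ∃ (x : lp X ∞) (φ : lp X ∞ →L[ℂ] ℂ), ‖x‖ = 1 ∧ ‖φ‖ = 1 ∧
                  φ x = 1 ∧ s = ‖φ (A (fun _ => x))‖}}
          = ⨅ i, sInf {r : ℝ | ∃ A : ContinuousMultilinearMap ℂ (fun _ : Fin k => X i) (X i),
            sSup {s : ℝ | ∃ x : X i, ‖x‖ ≤ 1 ∧ s = ‖A (fun _ => x)‖} = 1 ∧
            r = sSup {s : ℝ | ∃ (x : X i) (φ : X i →L[ℂ] ℂ), ‖x‖ = 1 ∧ ‖φ‖ = 1 ∧ φ x = 1 ∧
                  s = ‖φ (A (fun _ => x))‖}}) := by
  intro Λ _ X _ _ _ _ C hC k hk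
  let eI : ∀ i, X i →L[ℂ] lp X ∞ := fun i => lp.singleContinuousLinearMap ℂ X ∞ i
  let πI : ∀ i, lp X ∞ →L[ℂ] X i := fun i => lp.evalCLM ℂ X ∞ i
  have heI : ∀ i x, eI i x = lp.single ∞ i x := fun i x => rfl
  have hπI : ∀ i (z : lp X ∞), πI i z = z i := fun i z => rfl
  have h1 : ∀ i x, πI i (eI i x) = x := by
    intro i x
    rw [hπI, heI, lp.single_apply_self]
  have h2 : ∀ i z, ‖πI i z‖ ≤ ‖z‖ := by
    intro i z
    rw [hπI]
    exact lp.norm_apply_le_norm ENNReal.top_ne_zero z i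
  have h3 : ∀ i x z, ‖eI i x + (z - eI i (πI i z))‖ ≤ max ‖x‖ ‖z‖ := by
    intro i x z
    apply lp.norm_le_of_forall_le (le_max_of_le_left (norm_nonneg _))
    intro j
    rw [lp.coeFn_add, Pi.add_apply, lp.coeFn_sub, Pi.sub_apply, heI, heI, hπI]
    by_cases hj : j = i
    · subst hj
      rw [lp.single_apply_self, lp.single_apply_self, sub_self, add_zero]
      exact le_max_left _ _
    · rw [lp.single_apply_ne _ _ _ hj, lp.single_apply_ne _ _ _ hj, zero_add, sub_zero]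
      exact le_max_of_le_right (lp.norm_apply_le_norm ENNReal.top_ne_zero z j)
  have h4 : ∀ (z : lp X ∞) (c : ℝ), 0 ≤ c → (∀ i, ‖πI i z‖ ≤ c) → ‖z‖ ≤ c := by
    intro z c hc h
    exact lp.norm_le_of_forall_le hc (fun i => h i)
  have hmem : ∀ i x, eI i x ∈ C := by
    intro i x
    rw [hC]
    apply tendsto_const_nhds.congr'
    have : {i}ᶜ ∈ (cofinite : Filter Λ) := by
      rw [mem_cofinite]; simp
    filter_upwards [this] with j hj
    rw [heI, lp.single_apply_ne _ _ _ (by simpa using hj), norm_zero]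
  constructor
  · let eC : ∀ i, X i →L[ℂ] C := fun i => (eI i).codRestrict C (hmem i)
    let πC : ∀ i, C →L[ℂ] X i := fun i => (πI i).comp C.subtypeL
    refine abs_main (k := k) X C eC πC ?_ ?_ ?_ ?_
    · intro i x; exact h1 i x
    · intro i z; exact h2 i z
    · intro i x z
      have := h3 i x z
      exact this
    · intro z c hc h
      exact h4 z c hc h
  · exact abs_main (k := k) X (lp X ∞) eI πI h1 h2 h3 h4

end Pool.Agent.PolyIndex
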