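import Mathlib
import Pool.Agent.Lib.CoinBC
import Pool.Agent.Lib.BackForth
set_option autoImplicit false
set_option maxHeartbeats 4000000

open MeasureTheory Filter

namespace Pool.Agent.RandRado

/-! ### bits -/

lemma bits0 (p : ℕ → Bool) (B : ℕ) :
    ∃ M : ℕ, (∀ j < B, M.testBit j = p j) ∧ ∀ j, B ≤ j → M.testBit j = false := by
  induction B with
  | zero => exact ⟨0, by simp, by simp⟩
  | succ B ih =>
    obtain ⟨M, h1, h2⟩ := ih
    by_cases hB : p B = true
    · refine ⟨M ||| 2 ^ B, ?_, ?_⟩
      · intro j hj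
        rw [Nat.testBit_or, Nat.testBit_two_pow]
        rcases Nat.lt_succ_iff_lt_or_eq.mp hj with h | h
        · rw [h1 j h]; simp [show B ≠ j by omega]
        · subst h; simp [hB]
      · intro j hj
        rw [Nat.testBit_or, Nat.testBit_two_pow, h2 j (by omega)]
        simp [show B ≠ j by omega]
    · refine ⟨M, ?_, fun j hj => h2 j (by omega)⟩
      intro j hj
      rcases Nat.lt_succ_iff_lt_or_eq.mp hj with h | h
      · exact h1 j h
      · subst h; rw [h2 j le_rfl]; simpa using (Bool.not_eq_true _ ▸ hB : p j = false).symm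

lemma bits (p : ℕ → Bool) (B N : ℕ) : ∃ M : ℕ, N ≤ M ∧ ∀ j < B, M.testBit j = p j := by
  obtain ⟨M, h1, _⟩ := bits0 p B
  refine ⟨M ||| 2 ^ (B + N), ?_, ?_⟩
  · have h3 : 2 ^ (B + N) ≤ M ||| 2 ^ (B + N) := Nat.right_le_or
    have h4 : B + N < 2 ^ (B + N) := Nat.lt_two_pow_self
    omega
  · intro j hj
    rw [Nat.testBit_or, Nat.testBit_two_pow, h1 j hj]
    simp [show B + N ≠ j by omega]

/-! ### the structure -/

abbrev Om := ℕ ⊕ (ℕ × ℕ × Bool)

def al (n i k : ℕ) : Bool :=
  if Nat.pair i k < n then n.testBit (3 * Nat.pair i k + 1) else k.testBit (2 * n)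

def be (n i k : ℕ) : Bool :=
  if Nat.pair i k < n then n.testBit (3 * Nat.pair i k + 2) else k.testBit (2 * n + 1)

/-- the colour of the pair `n`, `(i,k,s)` -/
def be' (n i k : ℕ) (s : Bool) : Bool := if al n i k then be n i k else xor (be n i k) s

def E (n m : ℕ) : Bool := (decide (m < n) && n.testBit (3 * m)) || (decide (n < m) && m.testBit (3 * n))

lemma E_symm (n m : ℕ) : E n m = E m n := by unfold E; rw [Bool.or_comm]

abbrev T := ℕ × ℕ × ℕ × Bool × Bool

def ty : Om → Om → T
  | Sum.inl n, Sum.inl m => (0, 0, 0, decide (n = m), E n m)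
  | Sum.inl n, Sum.inr (i, k, s) => (1, i, 0, al n i k, be' n i k s)
  | Sum.inr (i, k, s), Sum.inl n => (2, i, 0, al n i k, be' n i k s)
  | Sum.inr (i, k, s), Sum.inr (j, l, t) =>
      (3, i, j, decide (i = j ∧ k = l), decide (i = j ∧ k = l ∧ s = t))

/-- all types between members of `l` match -/
def Good (l : List (Om × Om)) : Prop := ∀ p ∈ l, ∀ q ∈ l, ty p.1 q.1 = ty p.2 q.2

lemma ty_eq_iff (x y : Om) : x = y ↔ ((ty x y).1 = 0 ∧ (ty x y).2.2.2.1 = true) ∨
    ((ty x y).1 = 3 ∧ (ty x y).2.2.2.2 = true) := by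
  rcases x with n | ⟨i, k, s⟩ <;> rcases y with m | ⟨j, l, t⟩ <;> simp [ty]

lemma good_inj (l : List (Om × Om)) (hl : Good l) :
    ∀ p ∈ l, ∀ q ∈ l, (p.1 = q.1 ↔ p.2 = q.2) := by
  intro p hp q hq
  rw [ty_eq_iff, ty_eq_iff p.2 q.2, hl p hp q hq]

lemma good_swap (l : List (Om × Om)) (hl : Good l) : Good (l.map Prod.swap) := by
  intro p hp q hq
  rw [List.mem_map] at hp hq
  obtain ⟨p', hp', rfl⟩ := hp
  obtain ⟨q', hq', rfl⟩ := hq
  exact (hl p' hp' q' hq').symm

/-- extension conditions reduce to a one-sided check because the two sides determine each other -/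
lemma good_cons (l : List (Om × Om)) (hl : Good l) (a b : Om) (haa : ty a a = ty b b)
    (h : ∀ q ∈ l, ty a q.1 = ty b q.2 ∧ ty q.1 a = ty q.2 b) : Good ((a, b) :: l) := by
  intro p hp q hq
  rcases List.mem_cons.mp hp with rfl | hp <;> rcases List.mem_cons.mp hq with rfl | hq
  · exact haa
  · exact (h q hq).1
  · exact (h p hp).2
  · exact hl p hp q hq


lemma bitsL (c : List (ℕ × Bool)) (hc : ∀ x ∈ c, ∀ y ∈ c, x.1 = y.1 → x.2 = y.2) (N : ℕ) :
    ∃ M : ℕ, N ≤ M ∧ ∀ x ∈ c, M.testBit x.1 = x.2 := by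
  classical
  obtain ⟨B, hB⟩ : ∃ B : ℕ, ∀ x ∈ c, x.1 < B := by
    refine ⟨(c.map Prod.fst).sum + 1, fun x hx => ?_⟩
    have : x.1 ≤ (c.map Prod.fst).sum := List.le_sum_of_mem (List.mem_map_of_mem hx)
    omega
  obtain ⟨M, h1, h2⟩ := bits (fun j => decide (∃ x ∈ c, x.1 = j ∧ x.2 = true)) B N
  refine ⟨M, h1, fun x hx => ?_⟩
  rw [h2 _ (hB x hx)]
  by_cases h : x.2 = true
  · rw [h]; simp only [decide_eq_true_eq]; exact ⟨x, hx, rfl, h⟩
  · have h' : x.2 = false := by simpa using h
    rw [h']
    simp only [decide_eq_false_iff_not]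
    rintro ⟨y, hy, h3, h4⟩
    rw [hc y hy x hx h3] at h4
    exact h h4

/-- constraints on the new `inl m` from a pair `q` -/
def cons1 (n : ℕ) : Om × Om → List (ℕ × Bool)
  | (Sum.inl n', Sum.inl m') => [(3 * m', E n n')]
  | (Sum.inr (i, k, s), Sum.inr (j, k', s')) =>
      [(3 * Nat.pair j k' + 1, al n i k),
       (3 * Nat.pair j k' + 2, if al n i k then be n i k else xor (be' n i k s) s')]
  | _ => []

/-- constraints on the new `k'` from a pair `q` -/
def cons2 (i k : ℕ) (s : Bool) : Om × Om → List (ℕ × Bool)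
  | (Sum.inl n', Sum.inl m') => [(2 * m', al n' i k), (2 * m' + 1, be' n' i k s)]
  | _ => []

def bnd : Om → ℕ
  | Sum.inl m => m
  | Sum.inr (i, k, _) => Nat.pair i k + k

lemma exists_bnd (l : List (Om × Om)) : ∃ N : ℕ, ∀ q ∈ l, bnd q.2 < N := by
  refine ⟨(l.map (fun q => bnd q.2)).sum + 1, fun x hx => ?_⟩
  have : bnd x.2 ≤ (l.map (fun q => bnd q.2)).sum :=
    List.le_sum_of_mem (List.mem_map_of_mem (f := fun q => bnd q.2) hx)
  omega

lemma forth (l : List (Om × Om)) (hl : Good l) (a : Om) : ∃ b, Good ((a, b) :: l) := by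
  by_cases hdom : ∃ b, (a, b) ∈ l
  · obtain ⟨b, hb⟩ := hdom
    refine ⟨b, ?_⟩
    intro p hp q hq
    have hp' : p ∈ l := by rcases List.mem_cons.mp hp with rfl | h; exacts [hb, h]
    have hq' : q ∈ l := by rcases List.mem_cons.mp hq with rfl | h; exacts [hb, h]
    exact hl p hp' q hq'
  obtain ⟨N, hN⟩ := exists_bnd l
  rcases a with n | ⟨i, k, s⟩
  · -- a new point of `Y`
    obtain ⟨M, hM1, hM2⟩ := bitsL (l.flatMap (cons1 n)) (by
      intro x hx y hy hxy
      rw [List.mem_flatMap] at hx hy
      obtain ⟨q, hq, hx⟩ := hx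
      obtain ⟨r, hr, hy⟩ := hy
      have hqr := hl q hq r hr
      obtain ⟨q1 | ⟨i1, k1, s1⟩, q2 | ⟨i2, k2, s2⟩⟩ := q <;>
        obtain ⟨r1 | ⟨i3, k3, s3⟩, r2 | ⟨i4, k4, s4⟩⟩ := r <;> simp [cons1] at hx hy
      · subst hx; subst hy
        simp only at hxy ⊢
        have : q2 = r2 := by omega
        subst this
        simp [ty] at hqr
        rw [hqr.1]
      · subst hx
        rcases hy with rfl | rfl <;> simp only at hxy <;> omega
      · subst hy
        rcases hx with rfl | rfl <;> simp only at hxy <;> omega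
      · simp [ty] at hqr
        obtain ⟨e1, e2, h1, h2⟩ := hqr
        rcases hx with rfl | rfl <;> rcases hy with rfl | rfl <;> simp only at hxy
        · have : Nat.pair i2 k2 = Nat.pair i4 k4 := by omega
          rw [Nat.pair_eq_pair] at this
          obtain ⟨rfl, rfl⟩ := this
          subst e1; subst e2
          simp at h1
          subst h1
          rfl
        · omega
        · omega
        · have : Nat.pair i2 k2 = Nat.pair i4 k4 := by omega
          rw [Nat.pair_eq_pair] at this
          obtain ⟨rfl, rfl⟩ := this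
          subst e1; subst e2
          simp at h1
          subst h1
          simp at h2
          simp only [be']
          split
          · rfl
          · cases s1 <;> cases s3 <;> cases s2 <;> cases s4 <;> simp at h2 ⊢) N
    refine ⟨Sum.inl M, good_cons l hl _ _ (by simp [ty, E]) ?_⟩
    intro q hq
    have hb := hN q hq
    have hc : ∀ x ∈ cons1 n q, M.testBit x.1 = x.2 := fun x hx =>
      hM2 x (List.mem_flatMap.mpr ⟨q, hq, hx⟩)
    have hqq := hl q hq q hq
    obtain ⟨q1 | ⟨i1, k1, s1⟩, q2 | ⟨i2, k2, s2⟩⟩ := q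
    · simp only [cons1, List.mem_singleton, forall_eq] at hc
      simp only [bnd] at hb
      have hne : n ≠ q1 := by rintro rfl; exact hdom ⟨_, hq⟩
      have h1 : E M q2 = E n q1 := by
        rw [← hc]
        simp [E, show q2 < M by omega, show ¬ M < q2 by omega]
      constructor
      · simp [ty, h1, hne, show M ≠ q2 by omega]
      · simp [ty, E_symm q1, E_symm q2, h1, hne.symm, show q2 ≠ M by omega]
    · simp [ty] at hqq
    · simp [ty] at hqq
    · simp only [cons1, List.mem_cons, List.not_mem_nil, or_false, forall_eq_or_imp, forall_eq] at hc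
      simp only [bnd] at hb
      simp [ty] at hqq
      subst hqq
      have hlt : Nat.pair i1 k2 < M := by omega
      have h1 : al M i1 k2 = al n i1 k1 := by
        rw [← hc.1]; simp [al, hlt]
      have h2 : be M i1 k2 = M.testBit (3 * Nat.pair i1 k2 + 2) := by
        simp [be, hlt]
      have h3 : be' M i1 k2 s2 = be' n i1 k1 s1 := by
        unfold be'
        rw [h1, h2, hc.2]
        by_cases h : al n i1 k1 = true
        · simp [h]
        · simp only [h, be']
          cases s1 <;> cases s2 <;> simp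
      constructor
      · simp [ty, h1, h3]
      · simp [ty, h1, h3]
  · -- a point of `X`
    by_cases hpart : ∃ b, (Sum.inr (i, k, !s), b) ∈ l
    · obtain ⟨b, hb⟩ := hpart
      have hbb := hl _ hb _ hb
      rcases b with m | ⟨i', k', t⟩
      · simp [ty] at hbb
      simp [ty] at hbb
      subst hbb
      refine ⟨Sum.inr (i, k', !t), good_cons l hl _ _ (by simp [ty]) ?_⟩
      intro q hq
      have hqq := hl q hq _ hb
      have hqq' := hl _ hb q hq
      obtain ⟨q1 | ⟨i1, k1, s1⟩, q2 | ⟨i2, k2, s2⟩⟩ := q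
      · simp only [ty, Prod.mk.injEq, true_and] at hqq
        obtain ⟨h1, h2⟩ := hqq
        have h3 : be' q1 i k s = be' q2 i k' (!t) := by
          unfold be' at h2 ⊢
          rw [← h1] at h2 ⊢
          by_cases h : al q1 i k = true
          · simpa [h] using h2
          · simp only [h] at h2 ⊢
            generalize be q1 i k = x at h2 ⊢
            generalize be q2 i k' = y at h2 ⊢
            revert h2
            cases x <;> cases y <;> cases s <;> cases t <;> simp
        constructor
        · simp [ty, h1, h3]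
        · simp [ty, h1, h3]
      · simp [ty] at hqq
      · simp [ty] at hqq
      · simp only [ty, Prod.mk.injEq, true_and, decide_eq_decide] at hqq hqq'
        obtain ⟨rfl, h1, h2⟩ := hqq
        obtain ⟨-, h3, h4⟩ := hqq'
        have h5 : ¬ (i = i1 ∧ k = k1 ∧ s = s1) := by
          rintro ⟨rfl, rfl, rfl⟩
          exact hdom ⟨_, hq⟩
        have h6 : ¬ (i = i1 ∧ k' = k2 ∧ (!t) = s2) := by
          rintro ⟨rfl, rfl, rfl⟩
          have h7 := h3.mpr ⟨rfl, rfl⟩
          have h8 : ¬ (s = s1) := fun h => h5 ⟨rfl, h7.2, h⟩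
          have h9 : (!s) = s1 := by cases s <;> cases s1 <;> simp_all
          have := (h4.mp ⟨rfl, h7.2, h9⟩).2.2
          cases t <;> simp at this
        constructor
        · simp only [ty, Prod.mk.injEq, true_and, decide_eq_decide]
          exact ⟨h3, iff_of_false h5 h6⟩
        · simp only [ty, Prod.mk.injEq, true_and, decide_eq_decide]
          exact ⟨h1, iff_of_false (fun h => h5 ⟨h.1.symm, h.2.1.symm, h.2.2.symm⟩)
            (fun h => h6 ⟨h.1.symm, h.2.1.symm, h.2.2.symm⟩)⟩
    · obtain ⟨M, hM1, hM2⟩ := bitsL (l.flatMap (cons2 i k s)) (by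
        intro x hx y hy hxy
        rw [List.mem_flatMap] at hx hy
        obtain ⟨q, hq, hx⟩ := hx
        obtain ⟨r, hr, hy⟩ := hy
        have hqr := hl q hq r hr
        obtain ⟨q1 | ⟨i1, k1, s1⟩, q2 | ⟨i2, k2, s2⟩⟩ := q <;>
          obtain ⟨r1 | ⟨i3, k3, s3⟩, r2 | ⟨i4, k4, s4⟩⟩ := r <;> simp [cons2] at hx hy
        have h12 : q2 = r2 := by
          rcases hx with rfl | rfl <;> rcases hy with rfl | rfl <;> simp only at hxy <;> omega
        subst h12
        simp [ty] at hqr
        obtain ⟨rfl, -⟩ := hqr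
        rcases hx with rfl | rfl <;> rcases hy with rfl | rfl <;> simp only at hxy ⊢ <;> omega) N
      refine ⟨Sum.inr (i, M, false), good_cons l hl _ _ (by simp [ty]) ?_⟩
      intro q hq
      have hb := hN q hq
      have hc : ∀ x ∈ cons2 i k s q, M.testBit x.1 = x.2 := fun x hx =>
        hM2 x (List.mem_flatMap.mpr ⟨q, hq, hx⟩)
      have hqq := hl q hq q hq
      obtain ⟨q1 | ⟨i1, k1, s1⟩, q2 | ⟨i2, k2, s2⟩⟩ := q
      · simp only [cons2, List.mem_cons, List.not_mem_nil, or_false, forall_eq_or_imp,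
          forall_eq] at hc
        simp only [bnd] at hb
        have hle : ¬ Nat.pair i M < q2 := by
          have := Nat.right_le_pair i M
          omega
        have h1 : al q2 i M = al q1 i k := by
          rw [← hc.1]; simp [al, hle]
        have h2 : be' q2 i M false = be' q1 i k s := by
          rw [← hc.2]
          simp [be', be, hle]
        constructor
        · simp [ty, h1, h2]
        · simp [ty, h1, h2]
      · simp [ty] at hqq
      · simp [ty] at hqq
      · simp only [ty, Prod.mk.injEq, true_and, decide_eq_decide] at hqq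
        simp only [bnd] at hb
        obtain ⟨rfl, -⟩ := hqq
        have h5 : ¬ (i = i1 ∧ k = k1) := by
          rintro ⟨rfl, rfl⟩
          by_cases h : s1 = s
          · subst h; exact hdom ⟨_, hq⟩
          · have : s1 = !s := by cases s <;> cases s1 <;> simp_all
            subst this
            exact hpart ⟨_, hq⟩
        have h6 : ¬ (M = k2) := by omega
        constructor
        · simp only [ty, Prod.mk.injEq, true_and, decide_eq_decide]
          exact ⟨iff_of_false h5 (fun h => h6 h.2),
            iff_of_false (fun h => h5 ⟨h.1, h.2.1⟩) (fun h => h6 h.2.1)⟩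
        · simp only [ty, Prod.mk.injEq, true_and, decide_eq_decide]
          exact ⟨iff_of_false (fun h => h5 ⟨h.1.symm, h.2.symm⟩) (fun h => h6 h.2.symm),
            iff_of_false (fun h => h5 ⟨h.1.symm, h.2.1.symm⟩) (fun h => h6 h.2.1.symm)⟩

lemma back (l : List (Om × Om)) (hl : Good l) (b : Om) : ∃ a, Good ((a, b) :: l) := by
  obtain ⟨a, ha⟩ := forth _ (good_swap l hl) b
  refine ⟨a, ?_⟩
  have := good_swap _ ha
  simpa using this

end Pool.Agent.RandRado
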