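import Mathlib
import Pool.Agent.Lib.RandRado
set_option autoImplicit false
set_option maxHeartbeats 4000000

open MeasureTheory Filter

namespace Pool.Agent.RandRado

/-! ### the group -/

def G : Subgroup (Equiv.Perm Om) where
  carrier := {g | ∀ x y, ty (g x) (g y) = ty x y}
  mul_mem' := by
    intro a b ha hb x y
    simp only [Equiv.Perm.mul_apply]
    rw [ha, hb]
  one_mem' := by intro x y; rfl
  inv_mem' := by
    intro a ha x y
    have := ha (a⁻¹ x) (a⁻¹ y)
    simpa using this.symm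

lemma ty_swap (x y x' y' : Om) (h : ty x y = ty x' y') : ty y x = ty y' x' := by
  rcases x with n | ⟨i, k, s⟩ <;> rcases y with m | ⟨j, l, t⟩ <;>
    rcases x' with n' | ⟨i', k', s'⟩ <;> rcases y' with m' | ⟨j', l', t'⟩ <;>
    simp only [ty, Prod.mk.injEq, decide_eq_decide] at h ⊢
  · refine ⟨trivial, trivial, trivial, ?_, ?_⟩
    · rw [eq_comm, h.2.2.2.1, eq_comm]
    · rw [E_symm, h.2.2.2.2, E_symm]
  all_goals try (simp at h; done)
  · exact ⟨trivial, h.2⟩
  · exact ⟨trivial, h.2⟩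
  · refine ⟨trivial, h.2.2.1, h.2.1, ?_, ?_⟩
    · rw [eq_comm (a := j), eq_comm (a := l), h.2.2.2.1, eq_comm (a := i'), eq_comm (a := k')]
    · rw [eq_comm (a := j), eq_comm (a := l), eq_comm (a := t), h.2.2.2.2,
        eq_comm (a := i'), eq_comm (a := k'), eq_comm (a := s')]

lemma ty_diag (x y x' y' : Om) (h : ty x y = ty x' y') : ty x x = ty x' x' := by
  rcases x with n | ⟨i, k, s⟩ <;> rcases y with m | ⟨j, l, t⟩ <;>
    rcases x' with n' | ⟨i', k', s'⟩ <;> rcases y' with m' | ⟨j', l', t'⟩ <;>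
    simp [ty, E] at h ⊢ <;> exact h.1

lemma trans (x y x' y' : Om) (h : ty x y = ty x' y') : ∃ g ∈ G, g x = x' ∧ g y = y' := by
  have h0 : Good [(x, x'), (y, y')] := by
    intro p hp q hq
    simp only [List.mem_cons, List.not_mem_nil, or_false] at hp hq
    rcases hp with rfl | rfl <;> rcases hq with rfl | rfl
    · exact ty_diag _ _ _ _ h
    · exact h
    · exact ty_swap _ _ _ _ h
    · exact ty_diag _ _ _ _ (ty_swap _ _ _ _ h)
  obtain ⟨e, he, hs⟩ := BackForth.exists_equiv Good good_inj forth back _ h0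
  refine ⟨e, ?_, he (x, x') (by simp), he (y, y') (by simp)⟩
  intro a b
  obtain ⟨l, hl, hm⟩ := hs {a, b}
  exact (hl _ (hm a (by simp)) _ (hm b (by simp))).symm

/-! ### graphs with the extension property -/

def Ext {W : Type} (Γ : SimpleGraph W) : Prop :=
  ∀ (F : Finset W) (d : W → Prop), ∃ z, z ∉ F ∧ ∀ w ∈ F, (Γ.Adj z w ↔ d w)

theorem iso_of_ext {A B : Type} [Countable A] [Countable B] [Nonempty A] [Nonempty B]
    (Γ : SimpleGraph A) (Δ : SimpleGraph B) (hΓ : Ext Γ) (hΔ : Ext Δ) : Nonempty (Γ ≃g Δ) := by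
  classical
  have key : ∀ {A B : Type} (Γ : SimpleGraph A) (Δ : SimpleGraph B), Ext Δ →
      ∀ l : List (A × B), (∀ p ∈ l, ∀ q ∈ l, (p.1 = q.1 ↔ p.2 = q.2) ∧ (Γ.Adj p.1 q.1 ↔ Δ.Adj p.2 q.2)) →
      ∀ a, ∃ b, (∀ p ∈ (a, b) :: l, ∀ q ∈ (a, b) :: l,
        (p.1 = q.1 ↔ p.2 = q.2) ∧ (Γ.Adj p.1 q.1 ↔ Δ.Adj p.2 q.2)) := by
    intro A B Γ Δ hΔ l hl a
    by_cases hdom : ∃ b, (a, b) ∈ l
    · obtain ⟨b, hb⟩ := hdom
      refine ⟨b, ?_⟩
      intro p hp q hq
      have hp' : p ∈ l := by rcases List.mem_cons.mp hp with rfl | h; exacts [hb, h]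
      have hq' : q ∈ l := by rcases List.mem_cons.mp hq with rfl | h; exacts [hb, h]
      exact hl p hp' q hq'
    obtain ⟨z, hz1, hz2⟩ := hΔ (l.map Prod.snd).toFinset (fun w => ∃ p ∈ l, p.2 = w ∧ Γ.Adj a p.1)
    have hz3 : ∀ q ∈ l, z ≠ q.2 := by
      rintro q hq rfl
      exact hz1 (List.mem_toFinset.mpr (List.mem_map_of_mem hq))
    have hz4 : ∀ q ∈ l, a ≠ q.1 := by
      rintro q hq rfl
      exact hdom ⟨_, hq⟩
    have hz5 : ∀ q ∈ l, (Γ.Adj a q.1 ↔ Δ.Adj z q.2) := by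
      intro q hq
      rw [hz2 q.2 (List.mem_toFinset.mpr (List.mem_map_of_mem hq))]
      constructor
      · intro h; exact ⟨q, hq, rfl, h⟩
      · rintro ⟨p, hp, h1, h2⟩
        rwa [((hl p hp q hq).1.mpr h1)] at h2
    refine ⟨z, ?_⟩
    intro p hp q hq
    rcases List.mem_cons.mp hp with rfl | hp <;> rcases List.mem_cons.mp hq with rfl | hq
    · simp
    · exact ⟨iff_of_false (hz4 q hq) (hz3 q hq), hz5 q hq⟩
    · exact ⟨iff_of_false (hz4 p hp).symm (hz3 p hp).symm, by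
        rw [Γ.adj_comm, Δ.adj_comm]; exact hz5 p hp⟩
    · exact hl p hp q hq
  obtain ⟨e, -, hs⟩ := BackForth.exists_equiv (A := A) (B := B)
    (fun l => ∀ p ∈ l, ∀ q ∈ l, (p.1 = q.1 ↔ p.2 = q.2) ∧ (Γ.Adj p.1 q.1 ↔ Δ.Adj p.2 q.2))
    (fun l hl p hp q hq => (hl p hp q hq).1)
    (fun l hl a => key Γ Δ hΔ l hl a)
    (fun l hl b => by
      obtain ⟨a, ha⟩ := key Δ Γ hΓ (l.map Prod.swap) (by
        intro p hp q hq
        rw [List.mem_map] at hp hq
        obtain ⟨p', hp', rfl⟩ := hp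
        obtain ⟨q', hq', rfl⟩ := hq
        exact ⟨(hl p' hp' q' hq').1.symm, (hl p' hp' q' hq').2.symm⟩) b
      refine ⟨a, ?_⟩
      intro p hp q hq
      have hsw : ∀ r ∈ (a, b) :: l, r.swap ∈ (b, a) :: l.map Prod.swap := by
        intro r hr
        rcases List.mem_cons.mp hr with rfl | hr
        · simp
        · exact List.mem_cons_of_mem _ (List.mem_map_of_mem hr)
      have := ha p.swap (hsw p hp) q.swap (hsw q hq)
      exact ⟨this.1.symm, this.2.symm⟩)
    [] (by simp)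
  refine ⟨⟨e, ?_⟩⟩
  intro a b
  obtain ⟨l, hl, hm⟩ := hs {a, b}
  exact (hl _ (hm a (by simp)) _ (hm b (by simp))).2.symm

lemma rado_ext : Ext (SimpleGraph.fromRel (fun i j : ℕ => Nat.testBit j i = true)) := by
  classical
  intro F d
  obtain ⟨B, hB⟩ : ∃ B : ℕ, ∀ x ∈ F, x < B := by
    refine ⟨F.sup id + 1, fun x hx => ?_⟩
    have : id x ≤ F.sup id := Finset.le_sup hx
    simp only [id] at this
    omega
  obtain ⟨M, h1, h2⟩ := bits (fun j => decide (d j)) B B
  refine ⟨M, fun h => ?_, fun w hw => ?_⟩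
  · have := hB M h; omega
  · have hw' := hB w hw
    have h3 : Nat.testBit w M = false := by
      apply Nat.testBit_lt_two_pow
      have : M < 2 ^ M := Nat.lt_two_pow_self
      omega
    simp only [SimpleGraph.fromRel_adj, h2 w hw', h3]
    simp
    omega

/-! ### the special invariant graph -/

def ga (t : T) : Bool := if t.1 = 3 then false else t.2.2.2.2

lemma ga_symm (x y : Om) : ga (ty x y) = ga (ty y x) := by
  rcases x with n | ⟨i, k, s⟩ <;> rcases y with m | ⟨j, l, t⟩ <;> simp [ga, ty]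
  rw [E_symm]

def Gam : SimpleGraph Om where
  Adj x y := x ≠ y ∧ ga (ty x y) = true
  symm := ⟨by intro x y h; exact ⟨h.1.symm, by rw [ga_symm]; exact h.2⟩⟩
  loopless := ⟨by intro x h; exact h.1 rfl⟩

lemma gam_ext : Ext Gam := by
  classical
  intro F d
  obtain ⟨B, hB⟩ : ∃ B : ℕ, ∀ x ∈ F, bnd x < B := by
    refine ⟨F.sup bnd + 1, fun x hx => ?_⟩
    have : bnd x ≤ F.sup bnd := Finset.le_sup hx
    omega
  let D : Om → Bool := fun x => decide (d x)
  obtain ⟨M, h1, h2⟩ := bits (fun j =>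
    if j % 3 = 0 then D (Sum.inl (j / 3))
    else if j % 3 = 1 then
      (D (Sum.inr ((Nat.unpair (j / 3)).1, (Nat.unpair (j / 3)).2, false)) ==
       D (Sum.inr ((Nat.unpair (j / 3)).1, (Nat.unpair (j / 3)).2, true)))
    else D (Sum.inr ((Nat.unpair (j / 3)).1, (Nat.unpair (j / 3)).2, false))) (3 * B) B
  refine ⟨Sum.inl M, fun h => ?_, fun w hw => ?_⟩
  · have := hB _ h
    simp only [bnd] at this
    omega
  · have hw' := hB w hw
    rcases w with m | ⟨i, k, s⟩
    · simp only [bnd] at hw'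
      have h3 := h2 (3 * m) (by omega)
      simp only [show 3 * m % 3 = 0 by omega, show 3 * m / 3 = m by omega, if_true] at h3
      simp [Gam, ga, ty, E, h3, show m < M by omega, show ¬ M < m by omega, D]
      omega
    · simp only [bnd] at hw'
      have hlt : Nat.pair i k < B := by omega
      have h3 := h2 (3 * Nat.pair i k + 1) (by omega)
      have h4 := h2 (3 * Nat.pair i k + 2) (by omega)
      simp only [show (3 * Nat.pair i k + 1) % 3 = 1 by omega,
        show (3 * Nat.pair i k + 1) / 3 = Nat.pair i k by omega,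
        show (3 * Nat.pair i k + 2) % 3 = 2 by omega,
        show (3 * Nat.pair i k + 2) / 3 = Nat.pair i k by omega, Nat.unpair_pair] at h3 h4
      simp at h3 h4
      have hal : al M i k = M.testBit (3 * Nat.pair i k + 1) := by
        simp [al, show Nat.pair i k < M by omega]
      have hbe : be M i k = M.testBit (3 * Nat.pair i k + 2) := by
        simp [be, show Nat.pair i k < M by omega]
      have h5 : be' M i k s = D (Sum.inr (i, k, s)) := by
        unfold be'
        rw [hal, hbe, h4, h3]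
        cases s
        · simp
        · cases D (Sum.inr (i, k, false)) <;> cases D (Sum.inr (i, k, true)) <;> simp
      simp [Gam, ga, ty, h5, D]


/-! ### the random graph -/

abbrev Orb := {S : Set (Sym2 Om) // ∃ e : Sym2 Om, ¬ e.IsDiag ∧
            S = {e' : Sym2 Om | ∃ g ∈ G, Sym2.map (⇑g) e = e'}}

/-- the orbit of a pair -/
def orb (x y : Om) (h : x ≠ y) : Orb :=
  ⟨{e' : Sym2 Om | ∃ g ∈ G, Sym2.map (⇑g) s(x, y) = e'}, s(x, y), by simpa using h, rfl⟩

lemma mem_orb (x y : Om) (h : x ≠ y) : s(x, y) ∈ (orb x y h).1 :=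
  ⟨1, G.one_mem, by simp⟩

lemma orb_mem_iff (S : Orb) (x y : Om) (h : x ≠ y) (hS : s(x, y) ∈ S.1) : S = orb x y h := by
  obtain ⟨S, e, he, rfl⟩ := S
  obtain ⟨g, hg, hge⟩ := hS
  apply Subtype.ext
  ext e'
  simp only [orb, Set.mem_ofPred_eq]
  constructor
  · rintro ⟨g', hg', rfl⟩
    refine ⟨g' * g⁻¹, G.mul_mem hg' (G.inv_mem hg), ?_⟩
    rw [← hge, Sym2.map_map]
    congr 1
    funext z
    simp
  · rintro ⟨g', hg', rfl⟩
    refine ⟨g' * g, G.mul_mem hg' hg, ?_⟩
    rw [← hge, Sym2.map_map]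
    rfl

lemma orb_eq (x y x' y' : Om) (h : x ≠ y) (h' : x' ≠ y') (ht : ty x y = ty x' y') :
    orb x y h = orb x' y' h' := by
  obtain ⟨g, hg, h1, h2⟩ := trans x y x' y' ht
  have : s(x', y') ∈ (orb x y h).1 := ⟨g, hg, by simp [h1, h2]⟩
  exact orb_mem_iff _ _ _ _ this

/-- membership in the orbit determines the type up to swapping -/
lemma ty_of_orb (x y x' y' : Om) (h : x ≠ y) (h' : x' ≠ y') (ho : orb x y h = orb x' y' h') :
    ty x y = ty x' y' ∨ ty x y = ty y' x' := by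
  have h1 : s(x', y') ∈ (orb x y h).1 := by rw [ho]; exact mem_orb _ _ _
  obtain ⟨g, hg, hge⟩ := h1
  simp only [Sym2.map_mk, Sym2.eq_iff] at hge
  rcases hge with ⟨h2, h3⟩ | ⟨h2, h3⟩
  · left; rw [← h2, ← h3]; exact (hg x y).symm
  · right; rw [← h2, ← h3]; exact (hg x y).symm

/-- a point `n` with `al n i 0 = false`, `be n i 0 = b` -/
lemma exists_pt (i : ℕ) (b : Bool) : ∃ n, al n i 0 = false ∧ be n i 0 = b := by
  obtain ⟨M, h1, h2⟩ := bitsL [(3 * Nat.pair i 0 + 1, false), (3 * Nat.pair i 0 + 2, b)] (by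
    intro x hx y hy hxy
    simp only [List.mem_cons, List.not_mem_nil, or_false] at hx hy
    rcases hx with rfl | rfl <;> rcases hy with rfl | rfl <;> simp at hxy ⊢) (Nat.pair i 0 + 1)
  refine ⟨M, ?_, ?_⟩
  · rw [al, if_pos (by omega)]
    exact h2 (3 * Nat.pair i 0 + 1, false) (by simp)
  · rw [be, if_pos (by omega)]
    exact h2 (3 * Nat.pair i 0 + 2, b) (by simp)

noncomputable def pt (i : ℕ) (b : Bool) : ℕ := (exists_pt i b).choose

lemma pt_al (i : ℕ) (b : Bool) : al (pt i b) i 0 = false := (exists_pt i b).choose_spec.1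
lemma pt_be (i : ℕ) (b : Bool) : be (pt i b) i 0 = b := (exists_pt i b).choose_spec.2

noncomputable def AB (i : ℕ) (b : Bool) : Orb :=
  orb (Sum.inl (pt i b)) (Sum.inr (i, 0, false)) (by simp)

lemma AB_inj (i j : ℕ) (b c : Bool) (h : AB i b = AB j c) : i = j := by
  rcases ty_of_orb _ _ _ _ _ _ h with h | h
  · simp [ty] at h; exact h.1
  · simp [ty] at h

/-- the random graph -/
def RG (c : Orb → Bool) : SimpleGraph Om :=
  SimpleGraph.fromRel (fun x y : Om => ∃ S : Orb, s(x, y) ∈ S.1 ∧ c S = true)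

lemma RG_adj (c : Orb → Bool) (x y : Om) (h : x ≠ y) : (RG c).Adj x y ↔ c (orb x y h) = true := by
  have hs : ∀ S : Orb, s(x, y) ∈ S.1 → S = orb x y h := fun S hS => orb_mem_iff S x y h hS
  simp only [RG, SimpleGraph.fromRel_adj]
  constructor
  · rintro ⟨-, ⟨S, h1, h2⟩ | ⟨S, h1, h2⟩⟩
    · rwa [hs S h1] at h2
    · rw [Sym2.eq_swap] at h1
      rwa [hs S h1] at h2
  · intro h1
    exact ⟨h, Or.inl ⟨_, mem_orb _ _ _, h1⟩⟩

lemma twins (c : Orb → Bool) (i : ℕ) (h : ∀ b, c (AB i b) = true) (z : Om)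
    (h1 : z ≠ Sum.inr (i, 0, false)) (h2 : z ≠ Sum.inr (i, 0, true)) :
    (RG c).Adj z (Sum.inr (i, 0, false)) ↔ (RG c).Adj z (Sum.inr (i, 0, true)) := by
  rw [RG_adj c _ _ h1, RG_adj c _ _ h2]
  rcases z with n | ⟨j, l, t⟩
  · by_cases ha : al n i 0 = true
    · rw [orb_eq _ _ _ _ h1 h2 (by simp [ty, be', ha])]
    · have ha' : al n i 0 = false := by simpa using ha
      have key : ∀ s : Bool, ∀ hs : (Sum.inl n : Om) ≠ Sum.inr (i, 0, s),
          c (orb (Sum.inl n) (Sum.inr (i, 0, s)) hs) = true := by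
        intro s hs
        have := h (xor (be n i 0) s)
        rw [← this]
        congr 1
        unfold AB
        apply orb_eq
        simp [ty, be', ha', pt_al, pt_be]
      exact iff_of_true (key _ _) (key _ _)
  · rw [orb_eq _ _ _ _ h1 h2 (by
      simp only [ty, Prod.mk.injEq, true_and, decide_eq_decide]
      have h3 : ¬ (j = i ∧ l = 0) := by
        rintro ⟨rfl, rfl⟩
        cases t
        · exact h1 rfl
        · exact h2 rfl
      exact iff_of_false (fun h => h3 ⟨h.1, h.2.1⟩) (fun h => h3 ⟨h.1, h.2.1⟩))]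

lemma no_twins {W : Type} (Δ : SimpleGraph W) (h : Ext Δ) (u v : W) (huv : u ≠ v) :
    ∃ z, z ≠ u ∧ z ≠ v ∧ ¬ (Δ.Adj z u ↔ Δ.Adj z v) := by
  classical
  obtain ⟨z, h1, h2⟩ := h {u, v} (fun w => w = u)
  simp only [Finset.mem_insert, Finset.mem_singleton, not_or] at h1
  refine ⟨z, h1.1, h1.2, ?_⟩
  rw [h2 u (by simp), h2 v (by simp)]
  intro h3
  exact huv (h3.mp rfl).symm

lemma not_iso (c : Orb → Bool) (i : ℕ) (h : ∀ b, c (AB i b) = true) :
    ¬ Nonempty (RG c ≃g SimpleGraph.fromRel (fun i j : ℕ => Nat.testBit j i = true)) := by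
  rintro ⟨e⟩
  obtain ⟨z, h1, h2, h3⟩ := no_twins _ rado_ext (e (Sum.inr (i, 0, false)))
    (e (Sum.inr (i, 0, true))) (by simp)
  apply h3
  have h4 : e (e.symm z) = z := by simp
  rw [← h4, e.map_adj_iff, e.map_adj_iff]
  apply twins c i h
  · rintro h5; rw [← h4, h5] at h1; exact h1 rfl
  · rintro h5; rw [← h4, h5] at h2; exact h2 rfl

lemma measure_zero :
    (Measure.infinitePi (fun _ : Orb => (PMF.uniformOfFintype Bool).toMeasure))
      {c : Orb → Bool | Nonempty (RG c ≃g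
        SimpleGraph.fromRel (fun i j : ℕ => Nat.testBit j i = true))} = 0 := by
  classical
  have := CoinBC.io_pattern (ι := Orb) (fun i => {AB i false, AB i true}) 2
    (fun m => Finset.card_le_two) (by
      intro m m' hm
      rw [Finset.disjoint_left]
      intro a ha hb
      simp only [Finset.mem_insert, Finset.mem_singleton] at ha hb
      rcases ha with rfl | rfl <;> rcases hb with h | h <;> exact hm (AB_inj _ _ _ _ h))
    (fun _ => true)
  rw [← compl_compl {c : Orb → Bool | Nonempty (RG c ≃g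
        SimpleGraph.fromRel (fun i j : ℕ => Nat.testBit j i = true))}]
  rw [← mem_ae_iff]
  filter_upwards [this] with f hf
  obtain ⟨i, -, hi⟩ := hf 0
  exact not_iso f i (by
    intro b
    cases b
    · exact hi _ (by simp)
    · exact hi _ (by simp))

theorem main : ¬ (∀ (Ω : Type) [Countable Ω] (G : Subgroup (Equiv.Perm Ω)),
    (∃ Γ : SimpleGraph Ω, (∀ g ∈ G, ∀ x y : Ω, Γ.Adj (g x) (g y) ↔ Γ.Adj x y) ∧
        Nonempty (Γ ≃g SimpleGraph.fromRel (fun i j : ℕ => Nat.testBit j i = true))) ↔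
    (Measure.infinitePi
        (fun _ : {S : Set (Sym2 Ω) // ∃ e : Sym2 Ω, ¬ e.IsDiag ∧
            S = {e' : Sym2 Ω | ∃ g ∈ G, Sym2.map (⇑g) e = e'}} =>
          (PMF.uniformOfFintype Bool).toMeasure))
      {c : {S : Set (Sym2 Ω) // ∃ e : Sym2 Ω, ¬ e.IsDiag ∧
            S = {e' : Sym2 Ω | ∃ g ∈ G, Sym2.map (⇑g) e = e'}} → Bool |
        Nonempty (SimpleGraph.fromRel
            (fun x y : Ω => ∃ S : {S : Set (Sym2 Ω) // ∃ e : Sym2 Ω, ¬ e.IsDiag ∧
                S = {e' : Sym2 Ω | ∃ g ∈ G, Sym2.map (⇑g) e = e'}},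
              s(x, y) ∈ S.1 ∧ c S = true)
          ≃g SimpleGraph.fromRel (fun i j : ℕ => Nat.testBit j i = true))} > 0) := by
  intro H
  have h1 := (H Om G).mp ⟨Gam, by
    intro g hg x y
    simp only [Gam]
    rw [hg x y]
    simp, iso_of_ext _ _ gam_ext rado_ext⟩
  exact absurd measure_zero (ne_of_gt h1)

end Pool.Agent.RandRado
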