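import Mathlib
import Pool.Agent.Lib.CoinBC
import Pool.Agent.Lib.BackForth
set_option autoImplicit false
set_option maxHeartbeats 4000000

open MeasureTheory Filter

namespace Pool.Agent.RandSub

abbrev V := ℕ →₀ ZMod 2

/-- vectors with support in `range n` -/
noncomputable def W (n : ℕ) : Finset V :=
  (Finset.range n).powerset.image (fun s => ∑ i ∈ s, Finsupp.single i 1)

lemma mem_W (n : ℕ) (v : V) : v ∈ W n ↔ ∀ i, n ≤ i → v i = 0 := by
  unfold W
  rw [Finset.mem_image]
  constructor
  · rintro ⟨s, hs, rfl⟩ i hi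
    rw [Finset.mem_powerset] at hs
    rw [Finsupp.finsetSum_apply]
    apply Finset.sum_eq_zero
    intro j hj
    rw [Finsupp.single_apply, if_neg]
    intro h
    have := hs hj
    rw [Finset.mem_range] at this
    omega
  · intro h
    refine ⟨v.support, ?_, ?_⟩
    · rw [Finset.mem_powerset]
      intro i hi
      rw [Finset.mem_range]
      by_contra hcon
      exact (Finsupp.mem_support_iff.mp hi) (h i (by omega))
    · have h2 : ∀ x : ZMod 2, x ≠ 0 → x = 1 := by decide
      conv_rhs => rw [← Finsupp.sum_single v]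
      unfold Finsupp.sum
      apply Finset.sum_congr rfl
      intro i hi
      rw [h2 _ (Finsupp.mem_support_iff.mp hi)]

/-- the extension property of a colouring -/
def Ext (f : V → Bool) : Prop :=
  ∀ (n : ℕ) (T : Finset V), ∃ m, n ≤ m ∧ ∀ w ∈ W n, f (Finsupp.single m 1 + w) = decide (w ∈ T)

theorem ae_ext : ∀ᵐ f ∂(Measure.infinitePi (fun _ : V => CoinBC.coin)), Ext f := by
  classical
  unfold Ext
  rw [ae_all_iff]; intro n
  rw [ae_all_iff]; intro T
  let F : ℕ → Finset V := fun m => (W n).image (fun w => Finsupp.single (n + m) 1 + w)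
  have hco : ∀ m, ∀ v ∈ F m, v (n + m) = 1 ∧ ∀ m', m' ≠ m → v (n + m') = 0 := by
    intro m v hv
    rw [Finset.mem_image] at hv
    obtain ⟨w, hw, rfl⟩ := hv
    rw [mem_W] at hw
    refine ⟨?_, ?_⟩
    · simp [hw (n + m) (by omega)]
    · intro m' hm'
      rw [Finsupp.add_apply, hw (n + m') (by omega), Finsupp.single_apply, if_neg (by omega)]
      simp
  have hdisj : ∀ m m', m ≠ m' → Disjoint (F m) (F m') := by
    intro m m' hmm
    rw [Finset.disjoint_left]
    intro v hv hv'
    have h1 := (hco m v hv).1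
    have h2 := (hco m' v hv').2 m hmm
    rw [h1] at h2
    exact absurd h2 (by decide)
  have := CoinBC.io_pattern F (W n).card (fun m => Finset.card_image_le) hdisj
    (fun v => decide (v.filter (fun i => i < n) ∈ T))
  filter_upwards [this] with f hf
  obtain ⟨m, _, h⟩ := hf 0
  refine ⟨n + m, by omega, ?_⟩
  intro w hw
  rw [h _ (Finset.mem_image_of_mem _ hw)]
  congr 2
  ext i
  rw [mem_W] at hw
  rw [Finsupp.filter_apply]
  split_ifs with hi
  · rw [Finsupp.add_apply, Finsupp.single_apply, if_neg (by omega), zero_add]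
  · rw [hw i (by omega)]

/-- partial isomorphisms -/
noncomputable def S1 (s : List (V × V)) : V := (s.map Prod.fst).sum
noncomputable def S2 (s : List (V × V)) : V := (s.map Prod.snd).sum

def Good (f : V → Bool) (l : List (V × V)) : Prop :=
  ∀ s : List (V × V), s ⊆ l → ((S1 s = 0 ↔ S2 s = 0) ∧ f (S1 s) = f (S2 s))

lemma S1_append (s t : List (V × V)) : S1 (s ++ t) = S1 s + S1 t := by simp [S1]
lemma S2_append (s t : List (V × V)) : S2 (s ++ t) = S2 s + S2 t := by simp [S2]
lemma S1_cons (p : V × V) (t : List (V × V)) : S1 (p :: t) = p.1 + S1 t := by simp [S1]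
lemma S2_cons (p : V × V) (t : List (V × V)) : S2 (p :: t) = p.2 + S2 t := by simp [S2]

lemma two (v : V) : v + v = 0 := by
  ext i
  have : ∀ x : ZMod 2, x + x = 0 := by decide
  exact this (v i)

lemma eq_of_add (v w : V) (h : v + w = 0) : v = w := by
  have : v + w + w = w := by rw [h, zero_add]
  rwa [add_assoc, two, add_zero] at this

lemma decomp (a b : V) (l s : List (V × V)) (hs : s ⊆ (a, b) :: l) :
    ∃ t, t ⊆ l ∧ ((S1 s = S1 t ∧ S2 s = S2 t) ∨ (S1 s = a + S1 t ∧ S2 s = b + S2 t)) := by
  induction s with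
  | nil => exact ⟨[], by simp, Or.inl ⟨rfl, rfl⟩⟩
  | cons p s ih =>
    rw [List.cons_subset] at hs
    obtain ⟨t, ht, h⟩ := ih hs.2
    rcases List.mem_cons.mp hs.1 with hp | hp
    · rw [hp]
      rcases h with ⟨h1, h2⟩ | ⟨h1, h2⟩
      · exact ⟨t, ht, Or.inr ⟨by rw [S1_cons, h1], by rw [S2_cons, h2]⟩⟩
      · refine ⟨t, ht, Or.inl ⟨?_, ?_⟩⟩
        · rw [S1_cons, h1, ← add_assoc, two, zero_add]
        · rw [S2_cons, h2, ← add_assoc, two, zero_add]
    · refine ⟨p :: t, List.cons_subset.mpr ⟨hp, ht⟩, ?_⟩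
      rcases h with ⟨h1, h2⟩ | ⟨h1, h2⟩
      · exact Or.inl ⟨by rw [S1_cons, S1_cons, h1], by rw [S2_cons, S2_cons, h2]⟩
      · refine Or.inr ⟨?_, ?_⟩
        · rw [S1_cons, S1_cons, h1, add_left_comm]
        · rw [S2_cons, S2_cons, h2, add_left_comm]

lemma finite_S2 (l : List (V × V)) : {w : V | ∃ s, s ⊆ l ∧ S2 s = w}.Finite := by
  induction l with
  | nil =>
    apply Set.Finite.subset (Set.finite_singleton (0 : V))
    rintro w ⟨s, hs, rfl⟩
    rw [List.subset_nil] at hs
    rw [hs]; rfl
  | cons p l ih =>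
    apply Set.Finite.subset (ih.union (ih.image (fun w => p.2 + w)))
    rintro w ⟨s, hs, rfl⟩
    obtain ⟨t, ht, h⟩ := decomp p.1 p.2 l s hs
    rcases h with ⟨_, h2⟩ | ⟨_, h2⟩
    · exact Or.inl ⟨t, ht, h2.symm⟩
    · exact Or.inr ⟨S2 t, ⟨t, ht, rfl⟩, h2.symm⟩

lemma forth (f : V → Bool) (hf : Ext f) (l : List (V × V)) (hl : Good f l) (a : V) :
    ∃ b, Good f ((a, b) :: l) := by
  classical
  by_cases hdep : ∃ s0, s0 ⊆ l ∧ S1 s0 = a
  · obtain ⟨s0, hs0, rfl⟩ := hdep
    refine ⟨S2 s0, ?_⟩
    intro s hs
    obtain ⟨t, ht, h⟩ := decomp _ _ l s hs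
    rcases h with ⟨h1, h2⟩ | ⟨h1, h2⟩
    · rw [h1, h2]; exact hl t ht
    · rw [h1, h2, ← S1_append, ← S2_append]
      exact hl _ (List.append_subset.mpr ⟨hs0, ht⟩)
  · push Not at hdep
    -- the finite set of second sums
    set F := (finite_S2 l).toFinset with hF
    have hmemF : ∀ w, w ∈ F ↔ ∃ s, s ⊆ l ∧ S2 s = w := by intro w; simp [hF]
    -- the pattern
    let T : Finset V := F.filter (fun w => ∃ s, s ⊆ l ∧ S2 s = w ∧ f (a + S1 s) = true)
    -- a bound for the supports
    obtain ⟨n, hn⟩ : ∃ n, ∀ w ∈ F, w ∈ W n := by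
      refine ⟨F.sup (fun w => w.support.sup id + 1), ?_⟩
      intro w hw
      rw [mem_W]
      intro i hi
      by_contra hne
      have h1 : i ≤ w.support.sup id := Finset.le_sup (f := id) (Finsupp.mem_support_iff.mpr hne)
      have h2 : w.support.sup id + 1 ≤ F.sup (fun w => w.support.sup id + 1) :=
        Finset.le_sup (f := fun w : V => w.support.sup id + 1) hw
      omega
    obtain ⟨m, hm, hpat⟩ := hf n T
    refine ⟨Finsupp.single m 1, ?_⟩
    intro s hs
    obtain ⟨t, ht, h⟩ := decomp _ _ l s hs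
    rcases h with ⟨h1, h2⟩ | ⟨h1, h2⟩
    · rw [h1, h2]; exact hl t ht
    · rw [h1, h2]
      have htF : S2 t ∈ F := (hmemF _).mpr ⟨t, ht, rfl⟩
      have htW := hn _ htF
      constructor
      · constructor
        · intro h0
          exact absurd (eq_of_add _ _ h0).symm (hdep t ht)
        · intro h0
          exfalso
          rw [mem_W] at htW
          have := congrArg (fun v : V => v m) h0
          simp [htW m hm] at this
      · rw [hpat _ htW]
        have key : S2 t ∈ T ↔ f (a + S1 t) = true := by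
          simp only [T, Finset.mem_filter]
          constructor
          · rintro ⟨_, s', hs', he, hf'⟩
            have h3 := (hl (s' ++ t) (List.append_subset.mpr ⟨hs', ht⟩)).1
            rw [S1_append, S2_append, he, two] at h3
            have h4 := eq_of_add _ _ (h3.mpr rfl)
            rw [← h4]; exact hf'
          · intro h3
            exact ⟨htF, t, ht, rfl, h3⟩
        by_cases hT : S2 t ∈ T
        · rw [key.mp hT]; simp [hT]
        · have : f (a + S1 t) = false := by
            rw [← Bool.not_eq_true]; exact fun h5 => hT (key.mpr h5)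
          rw [this]; simp [hT]

lemma good_swap (f : V → Bool) (l : List (V × V)) (hl : Good f l) : Good f (l.map Prod.swap) := by
  intro s hs
  have h1 : s.map Prod.swap ⊆ l := by
    intro p hp
    rw [List.mem_map] at hp
    obtain ⟨q, hq, rfl⟩ := hp
    have := hs hq
    rw [List.mem_map] at this
    obtain ⟨r, hr, rfl⟩ := this
    simpa using hr
  have h2 := hl _ h1
  have e1 : S1 (s.map Prod.swap) = S2 s := by unfold S1 S2; rw [List.map_map]; rfl
  have e2 : S2 (s.map Prod.swap) = S1 s := by unfold S1 S2; rw [List.map_map]; rfl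
  rw [e1, e2] at h2
  exact ⟨h2.1.symm, h2.2.symm⟩

lemma back (f : V → Bool) (hf : Ext f) (l : List (V × V)) (hl : Good f l) (b : V) :
    ∃ a, Good f ((a, b) :: l) := by
  obtain ⟨a, ha⟩ := forth f hf _ (good_swap f l hl) b
  refine ⟨a, ?_⟩
  have := good_swap f _ ha
  simpa using this

theorem exists_aut (f : V → Bool) (hf : Ext f) :
    ∃ e : V ≃+ V, e ≠ AddEquiv.refl V ∧ ∀ v, f (e v) = f v := by
  classical
  -- two distinct nonzero vectors of the same colour
  obtain ⟨a, b, ha, hb, hab, hfab⟩ : ∃ a b : V, a ≠ 0 ∧ b ≠ 0 ∧ a ≠ b ∧ f a = f b := by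
    let x : ℕ → V := fun i => Finsupp.single i 1
    have hx0 : ∀ i, x i ≠ 0 := by intro i; simp [x]
    have hx : ∀ i j, i ≠ j → x i ≠ x j := by
      intro i j hij h
      have := congrArg (fun v : V => v i) h
      simp [x, Finsupp.single_apply, hij, Ne.symm hij] at this
    by_cases h01 : f (x 0) = f (x 1)
    · exact ⟨x 0, x 1, hx0 _, hx0 _, hx _ _ (by norm_num), h01⟩
    · by_cases h02 : f (x 0) = f (x 2)
      · exact ⟨x 0, x 2, hx0 _, hx0 _, hx _ _ (by norm_num), h02⟩
      · refine ⟨x 1, x 2, hx0 _, hx0 _, hx _ _ (by norm_num), ?_⟩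
        revert h01 h02
        cases f (x 0) <;> cases f (x 1) <;> cases f (x 2) <;> simp
  have h0 : Good f [(a, b)] := by
    intro s hs
    obtain ⟨t, ht, h⟩ := decomp a b [] s hs
    rw [List.subset_nil] at ht
    subst ht
    have e1 : S1 [] = 0 := rfl
    have e2 : S2 [] = 0 := rfl
    rw [e1, e2, add_zero, add_zero] at h
    rcases h with ⟨h1, h2⟩ | ⟨h1, h2⟩
    · rw [h1, h2]; simp
    · rw [h1, h2]; simp [ha, hb, hfab]
  obtain ⟨e, he0, he⟩ := BackForth.exists_equiv (Good f)
    (by
      intro l hl p hp q hq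
      have := (hl [p, q] (by
        intro r hr
        simp only [List.mem_cons, List.not_mem_nil, or_false] at hr
        rcases hr with rfl | rfl
        · exact hp
        · exact hq)).1
      simp only [S1, S2, List.map_cons, List.map_nil, List.sum_cons, List.sum_nil, add_zero] at this
      constructor
      · intro h
        rw [h, two] at this
        exact eq_of_add _ _ (this.mp rfl)
      · intro h
        rw [h, two] at this
        exact eq_of_add _ _ (this.mpr rfl))
    (forth f hf) (back f hf) [(a, b)] h0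
  have hadd : ∀ x y, e (x + y) = e x + e y := by
    intro x y
    obtain ⟨l, hl, hmem⟩ := he {x, y, x + y}
    have h1 := (hl [(x, e x), (y, e y), (x + y, e (x + y))] (by
      intro r hr
      simp only [List.mem_cons, List.not_mem_nil, or_false] at hr
      rcases hr with rfl | rfl | rfl
      · exact hmem x (by simp)
      · exact hmem y (by simp)
      · exact hmem (x + y) (by simp))).1
    simp only [S1, S2, List.map_cons, List.map_nil, List.sum_cons, List.sum_nil, add_zero] at h1
    have h2 : x + (y + (x + y)) = 0 := by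
      rw [← add_assoc]; exact two _
    have h3 := h1.mp h2
    rw [← add_assoc] at h3
    exact (eq_of_add _ _ h3).symm
  refine ⟨{ e with map_add' := hadd }, ?_, ?_⟩
  · intro h
    have h1 := he0 (a, b) (by simp)
    have h2 : e a = a := by
      have := congrArg (fun g : V ≃+ V => g a) h
      simpa using this
    simp only at h1
    rw [h2] at h1
    exact hab h1
  · intro v
    obtain ⟨l, hl, hmem⟩ := he {v}
    have h1 := (hl [(v, e v)] (by
      intro r hr
      simp only [List.mem_cons, List.not_mem_nil, or_false] at hr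
      rw [hr]; exact hmem v (by simp))).2
    simp only [S1, S2, List.map_cons, List.map_nil, List.sum_cons, List.sum_nil, add_zero] at h1
    exact h1.symm


theorem frozen :
    ¬ (∀ (G : Type) [Group G] [Countable G] [Infinite G],
      Measure.infinitePi (fun _ : G => (PMF.uniformOfFintype Bool).toMeasure)
        {f : G → Bool | ∃ φ : MulAut G, φ ≠ 1 ∧ ∀ g : G, f (φ g) = f g} = 0) := by
  intro hall
  have : Infinite V := by
    apply Infinite.of_injective (fun i : ℕ => (Finsupp.single i 1 : V))
    intro i j hij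
    have := congrArg (fun v : V => v i) hij
    by_contra hne
    simp [Finsupp.single_apply, Ne.symm hne] at this
  have : Infinite (Multiplicative V) := this
  have hc : Countable V := inferInstance
  have : Countable (Multiplicative V) := hc
  have h0 := hall (Multiplicative V)
  have h1 : ∀ᵐ f ∂(Measure.infinitePi (fun _ : Multiplicative V => CoinBC.coin)),
      ¬ ∃ φ : MulAut (Multiplicative V), φ ≠ 1 ∧ ∀ g, f (φ g) = f g := by
    rw [ae_iff]
    simpa using h0
  have h2 : ∀ᵐ f ∂(Measure.infinitePi (fun _ : Multiplicative V => CoinBC.coin)), Ext f := ae_ext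
  obtain ⟨f, hf1, hf2⟩ := (h1.and h2).exists
  obtain ⟨e, he, hfe⟩ := exists_aut f hf2
  apply hf1
  refine ⟨AddEquiv.toMultiplicative e, ?_, ?_⟩
  · intro h
    apply he
    ext1 v
    have := congrArg (fun g : MulAut (Multiplicative V) => Multiplicative.toAdd (g (Multiplicative.ofAdd v))) h
    simpa using this
  · intro g
    exact hfe g

end Pool.Agent.RandSub
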