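import Mathlib

set_option autoImplicit false
set_option maxHeartbeats 4000000
open Filter Topology Cardinal Set
open scoped ENNReal

namespace Pool.Agent.RangeBorel

lemma exists_nonBorel : ∃ S : Set ℝ, ¬ MeasurableSet S := by
  by_contra hcon
  push Not at hcon
  have h1 : (inferInstance : MeasurableSpace ℝ) = MeasurableSpace.generateFrom (TopologicalSpace.countableBasis ℝ) := by
    rw [← (TopologicalSpace.isBasis_countableBasis ℝ).borel_eq_generateFrom]
    exact BorelSpace.measurable_eq
  have h2 : #{ t | @MeasurableSet ℝ (MeasurableSpace.generateFrom (TopologicalSpace.countableBasis ℝ)) t } ≤ 𝔠 := by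
    apply MeasurableSpace.cardinal_measurableSet_le_continuum
    exact ((TopologicalSpace.countable_countableBasis ℝ).le_aleph0).trans aleph0_le_continuum
  have h3 : { t | @MeasurableSet ℝ (MeasurableSpace.generateFrom (TopologicalSpace.countableBasis ℝ)) t } = Set.univ := by
    ext t
    simp only [Set.mem_ofPred_eq, Set.mem_univ, iff_true]
    rw [← h1]; exact hcon t
  rw [h3, mk_univ, Cardinal.mk_set, Cardinal.mk_real] at h2
  exact absurd h2 (not_le.2 (Cardinal.cantor 𝔠))

variable (S : Set ℝ)

abbrev L : Type := lp (fun _ : S => ℝ) 1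

noncomputable def ind (ab : ℚ × ℚ) (t : ℝ) : ℝ := if (ab.1 : ℝ) < t ∧ t < ab.2 then 1 else 0

lemma ind_abs (ab : ℚ × ℚ) (t : ℝ) : |ind ab t| ≤ 1 := by
  unfold ind; split_ifs <;> simp

lemma summ (x : L S) : Summable (fun s : S => ‖x s‖) := by
  have := (lp.memℓp x).summable (by norm_num)
  simpa using this

lemma norm_eq (x : L S) : ‖x‖ = ∑' s : S, ‖x s‖ := by
  rw [lp.norm_eq_tsum_rpow (by norm_num)]
  simp

lemma summ' (ab : ℚ × ℚ) (x : L S) : Summable (fun s : S => ind ab s * x s) := by
  refine Summable.of_norm_bounded (summ S x) ?_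
  intro s
  rw [norm_mul]
  exact mul_le_of_le_one_left (norm_nonneg _) (ind_abs ab s)

noncomputable def φ (ab : ℚ × ℚ) : L S →L[ℝ] ℝ :=
  LinearMap.mkContinuous
    { toFun := fun x => ∑' s : S, ind ab s * x s
      map_add' := by
        intro x y
        rw [← (summ' S ab x).tsum_add (summ' S ab y)]
        congr 1; ext s
        rw [lp.coeFn_add, Pi.add_apply]; ring
      map_smul' := by
        intro c x
        rw [RingHom.id_apply, smul_eq_mul, ← tsum_mul_left]
        congr 1; ext s
        rw [lp.coeFn_smul, Pi.smul_apply, smul_eq_mul]; ring } 1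
    (by
      intro x
      simp only [LinearMap.coe_mk, AddHom.coe_mk]
      rw [one_mul, norm_eq]
      refine tsum_of_norm_bounded (summ S x).hasSum ?_
      intro s
      rw [norm_mul]
      exact mul_le_of_le_one_left (norm_nonneg _) (ind_abs ab s))

lemma φ_apply (ab : ℚ × ℚ) (x : L S) : φ S ab x = ∑' s : S, ind ab s * x s := rfl

noncomputable def U : L S →L[ℝ] (ℚ × ℚ → ℝ) := ContinuousLinearMap.pi (φ S)

lemma U_apply (x : L S) (ab : ℚ × ℚ) : U S x ab = φ S ab x := rfl

noncomputable def J (t : ℝ) : ℚ × ℚ → ℝ := fun ab => ind ab t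

lemma J_meas : Measurable J := by
  rw [measurable_pi_iff]
  intro ab
  have : (fun t => J t ab) = Set.indicator (Set.Ioo (ab.1 : ℝ) ab.2) (fun _ => (1:ℝ)) := by
    ext t
    rw [Set.indicator_apply]
    simp only [J, ind, Set.mem_Ioo]
  rw [this]
  exact measurable_const.indicator measurableSet_Ioo

lemma preim : J ⁻¹' (Set.range (U S)) = S := by
  classical
  ext t
  constructor
  · rintro ⟨x, hx⟩
    by_contra ht
    have hab : ∀ n : ℕ, ∃ ab : ℚ × ℚ, t - 1/(n+1) < ab.1 ∧ (ab.1 : ℝ) < t ∧ t < ab.2 ∧ (ab.2 : ℝ) < t + 1/(n+1) := by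
      intro n
      have hn : (0:ℝ) < 1/(n+1) := by positivity
      obtain ⟨a, ha1, ha2⟩ := exists_rat_btwn (show t - 1/(n+1) < t by linarith)
      obtain ⟨b, hb1, hb2⟩ := exists_rat_btwn (show t < t + 1/(n+1) by linarith)
      exact ⟨(a, b), ha1, ha2, hb1, hb2⟩
    choose ab h1 h2 h3 h4 using hab
    have hval : ∀ n, ∑' s : S, ind (ab n) s * x s = 1 := by
      intro n
      have := congrFun hx (ab n)
      rw [U_apply, φ_apply] at this
      rw [this]
      simp [J, ind, h2, h3]
    have hlim : Tendsto (fun n => ∑' s : S, ind (ab n) s * x s) atTop (𝓝 (∑' s : S, (0:ℝ))) := by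
      apply tendsto_tsum_of_dominated_convergence (summ S x)
      · intro s
        have hne : (s : ℝ) ≠ t := fun h => ht (h ▸ s.2)
        apply tendsto_const_nhds.congr'
        have hpos : 0 < |(s : ℝ) - t| := abs_pos.2 (sub_ne_zero.2 hne)
        obtain ⟨N, hN⟩ := exists_nat_one_div_lt hpos
        filter_upwards [eventually_ge_atTop N] with n hn
        have hle : (1:ℝ)/(n+1) ≤ 1/(N+1) := by
          apply one_div_le_one_div_of_le (by positivity)
          have : (N:ℝ) ≤ n := by exact_mod_cast hn
          linarith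
        have : ind (ab n) s = 0 := by
          unfold ind
          rw [if_neg]
          rintro ⟨ha, hb⟩
          have hb1 := h1 n
          have hb2 := h4 n
          have : |(s:ℝ) - t| < 1/(n+1) := by
            rw [abs_lt]; constructor <;> linarith
          linarith
        rw [this, zero_mul]
      · refine Filter.Eventually.of_forall fun n s => ?_
        rw [norm_mul]
        exact mul_le_of_le_one_left (norm_nonneg _) (ind_abs _ s)
    simp_rw [hval] at hlim
    rw [tsum_zero] at hlim
    exact one_ne_zero (tendsto_nhds_unique tendsto_const_nhds hlim)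
  · intro ht
    refine ⟨lp.single 1 (⟨t, ht⟩ : S) (1:ℝ), ?_⟩
    funext ab
    rw [U_apply, φ_apply, tsum_eq_single (⟨t, ht⟩ : S)]
    · rw [lp.single_apply_self]
      simp [J]
    · intro s hs
      rw [lp.single_apply_ne _ _ _ hs, mul_zero]

theorem main :
    ¬ (∀ (E E₁ : Type) [AddCommGroup E] [Module ℝ E] [UniformSpace E] [IsUniformAddGroup E]
      [ContinuousSMul ℝ E] [CompleteSpace E] [T2Space E] [(uniformity E).IsCountablyGenerated]
      [AddCommGroup E₁] [Module ℝ E₁] [UniformSpace E₁] [IsUniformAddGroup E₁]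
      [ContinuousSMul ℝ E₁] [CompleteSpace E₁] [T2Space E₁] [(uniformity E₁).IsCountablyGenerated]
      (U : E →L[ℝ] E₁), @MeasurableSet E₁ (borel E₁) (Set.range U)) := by
  intro H
  obtain ⟨S, hS⟩ := exists_nonBorel
  have h1 := H (L S) (ℚ × ℚ → ℝ) (U S)
  have h2 : MeasurableSet (Set.range (U S)) := by
    have e : (MeasurableSpace.pi : MeasurableSpace (ℚ × ℚ → ℝ)) = borel (ℚ × ℚ → ℝ) := BorelSpace.measurable_eq
    rw [e]; exact h1
  have h3 := J_meas h2
  rw [preim] at h3
  exact hS h3

end Pool.Agent.RangeBorel
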