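import Mathlib
set_option autoImplicit false
set_option maxHeartbeats 4000000

open Filter Topology

namespace Pool.Agent.RangeNonexp

abbrev H := lp (fun _ : ℕ => ℝ) 2
abbrev X := ℝ × H

/-- reflexivity of a Hilbert space -/
lemma refl_H : Function.Surjective (NormedSpace.inclusionInDoubleDual ℝ H) := by
  intro Φ
  -- Φ ∘ toDual is a bounded functional on H
  let g : StrongDual ℝ H := Φ.comp
    (InnerProductSpace.toDualMap ℝ H).toContinuousLinearMap
  refine ⟨(InnerProductSpace.toDual ℝ H).symm g, ?_⟩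
  ext f
  rw [NormedSpace.dual_def]
  obtain ⟨y, rfl⟩ := (InnerProductSpace.toDual ℝ H).surjective f
  rw [InnerProductSpace.toDual_apply_apply, real_inner_comm, InnerProductSpace.toDual_symm_apply]
  rfl

lemma refl_X : Function.Surjective (NormedSpace.inclusionInDoubleDual ℝ X) := by
  intro Φ
  let g : StrongDual ℝ (StrongDual ℝ H) := Φ.comp
    ((ContinuousLinearMap.compL ℝ X H ℝ).flip (ContinuousLinearMap.snd ℝ ℝ H))
  obtain ⟨h, hh⟩ := refl_H g
  refine ⟨(Φ (ContinuousLinearMap.fst ℝ ℝ H), h), ?_⟩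
  ext φ
  rw [NormedSpace.dual_def]
  have h1 : φ = (φ (1, 0)) • (ContinuousLinearMap.fst ℝ ℝ H) +
      (φ.comp (ContinuousLinearMap.inr ℝ ℝ H)).comp (ContinuousLinearMap.snd ℝ ℝ H) := by
    ext x
    · simp
      exact (map_zero φ).symm ▸ rfl
    · simp
  have h2 : Φ ((φ.comp (ContinuousLinearMap.inr ℝ ℝ H)).comp (ContinuousLinearMap.snd ℝ ℝ H)) =
      φ (0, h) := by
    have h3 := congrArg (fun F => F (φ.comp (ContinuousLinearMap.inr ℝ ℝ H))) hh
    simp only [NormedSpace.dual_def] at h3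
    have h4 : (φ.comp (ContinuousLinearMap.inr ℝ ℝ H)) h = φ (0, h) := rfl
    rw [← h4, h3]
    rfl
  conv_rhs => rw [h1]
  rw [map_add, map_smul, h2]
  have h5 : ((Φ (ContinuousLinearMap.fst ℝ ℝ H), h) : X) =
      (Φ (ContinuousLinearMap.fst ℝ ℝ H)) • ((1, 0) : X) + (0, h) := by
    ext <;> simp
  rw [h5, map_add, map_smul]
  simp [mul_comm]

def C : Set X := {p | p.1 = 1 ∧ ‖p.2‖ ≤ 1}

lemma C_closed : IsClosed C := by
  apply IsClosed.inter
  · exact isClosed_eq continuous_fst continuous_const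
  · exact isClosed_le (continuous_norm.comp continuous_snd) continuous_const

lemma C_convex : Convex ℝ C := by
  intro x hx y hy a b ha hb hab
  refine ⟨?_, ?_⟩
  · simp [hx.1, hy.1, hab]
  · calc ‖(a • x + b • y).2‖ = ‖a • x.2 + b • y.2‖ := rfl
      _ ≤ ‖a • x.2‖ + ‖b • y.2‖ := norm_add_le _ _
      _ = a * ‖x.2‖ + b * ‖y.2‖ := by
        rw [norm_smul, norm_smul, Real.norm_of_nonneg ha, Real.norm_of_nonneg hb]
      _ ≤ a * 1 + b * 1 := by
        gcongr
        · exact hx.2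
        · exact hy.2
      _ = 1 := by linarith

lemma C_bdd : Bornology.IsBounded C := by
  rw [isBounded_iff_forall_norm_le]
  refine ⟨1, fun x hx => ?_⟩
  rw [Prod.norm_def]
  apply max_le
  · rw [hx.1]; simp
  · exact hx.2

lemma C_compact : IsCompact ((toWeakSpace ℝ X) '' C) := by
  have h1 : closure ((toWeakSpace ℝ X) '' C) = (toWeakSpace ℝ X) '' C := by
    rw [← C_convex.toWeakSpace_closure ℝ, C_closed.closure_eq]
  rw [← h1]
  apply NormedSpace.isCompact_closure_of_isBounded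
  · have : (toWeakSpace ℝ X) ⁻¹' ((toWeakSpace ℝ X) '' C) = C :=
      Set.preimage_image_eq _ (toWeakSpace ℝ X).injective
    rw [this]
    exact C_bdd
  · intro Φ _
    obtain ⟨x, hx⟩ := refl_X Φ
    exact ⟨toWeakSpace ℝ X x, hx⟩

lemma dist_C (x y : X) (hx : x ∈ C) (hy : y ∈ C) : dist x y = ‖x.2 - y.2‖ := by
  rw [Prod.dist_eq, hx.1, hy.1, dist_self, dist_eq_norm]
  exact max_eq_right (norm_nonneg _)

lemma normal : ∀ K : Set X, K ⊆ C → Convex ℝ K → (∃ a ∈ K, ∃ b ∈ K, a ≠ b) →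
        ∃ x ∈ K, ∃ r : ℝ, r < Metric.diam K ∧ ∀ y ∈ K, dist x y ≤ r := by
  rintro K hK hconv ⟨a, ha, b, hb, hab⟩
  have hbd : Bornology.IsBounded K := C_bdd.subset hK
  set δ := ‖a.2 - b.2‖ with hδ
  have hδ0 : 0 < δ := by
    rw [hδ, ← dist_C a b (hK ha) (hK hb)]
    exact dist_pos.mpr hab
  set d := Metric.diam K with hd
  have hdd : δ ≤ d := by
    rw [hδ, ← dist_C a b (hK ha) (hK hb)]
    exact Metric.dist_le_diam_of_mem hbd ha hb
  refine ⟨(1 / 2 : ℝ) • a + (1 / 2 : ℝ) • b, hconv ha hb (by norm_num) (by norm_num) (by norm_num),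
    Real.sqrt (d ^ 2 - δ ^ 2 / 4), ?_, ?_⟩
  · rw [Real.sqrt_lt' (by linarith)]
    nlinarith
  · intro y hy
    have hm : (1 / 2 : ℝ) • a + (1 / 2 : ℝ) • b ∈ C :=
      C_convex (hK ha) (hK hb) (by norm_num) (by norm_num) (by norm_num)
    rw [dist_C _ _ hm (hK hy)]
    apply Real.le_sqrt_of_sq_le
    have h1 : ‖a.2 - y.2‖ ≤ d := by
      rw [← dist_C a y (hK ha) (hK hy)]; exact Metric.dist_le_diam_of_mem hbd ha hy
    have h2 : ‖b.2 - y.2‖ ≤ d := by
      rw [← dist_C b y (hK hb) (hK hy)]; exact Metric.dist_le_diam_of_mem hbd hb hy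
    have h3 := parallelogram_law_with_norm ℝ (a.2 - y.2) (b.2 - y.2)
    have h4 : a.2 - y.2 - (b.2 - y.2) = a.2 - b.2 := by abel
    have h5 : a.2 - y.2 + (b.2 - y.2) = (2 : ℝ) • (((1 / 2 : ℝ) • a + (1 / 2 : ℝ) • b).2 - y.2) := by
      simp only [Prod.snd_add, Prod.smul_snd]
      module
    rw [h4, h5, norm_smul, ← hδ, Real.norm_of_nonneg (by norm_num : (0 : ℝ) ≤ 2)] at h3
    have h6 : ‖a.2 - y.2‖ ^ 2 ≤ d ^ 2 := pow_le_pow_left₀ (norm_nonneg _) h1 2
    have h7 : ‖b.2 - y.2‖ ^ 2 ≤ d ^ 2 := pow_le_pow_left₀ (norm_nonneg _) h2 2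
    generalize ‖((1 / 2 : ℝ) • a + (1 / 2 : ℝ) • b).2 - y.2‖ = w at h3 ⊢
    nlinarith

noncomputable def k (n : ℕ) : H := (1 + 1 / ((n : ℝ) + 1)) • lp.single 2 n (1 : ℝ)

def K : Set H := Set.range k

lemma k_norm (n : ℕ) : ‖k n‖ = 1 + 1 / ((n : ℝ) + 1) := by
  have : (0 : ℝ) < 1 / ((n : ℝ) + 1) := Nat.one_div_pos_of_nat
  rw [k, norm_smul, lp.norm_single (by norm_num), Real.norm_of_nonneg (by linarith)]
  simp

lemma k_dist (n m : ℕ) (h : n ≠ m) : 1 ≤ dist (k n) (k m) := by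
  rw [dist_eq_norm]
  have h1 : ‖(k n - k m) n‖ ≤ ‖k n - k m‖ := lp.norm_apply_le_norm (by norm_num) _ _
  refine le_trans ?_ h1
  have h2 : (k n - k m) n = 1 + 1 / ((n : ℝ) + 1) := by
    have h3 : (lp.single 2 m (1 : ℝ) : H) n = 0 := by
      rw [lp.single_apply_ne]; exact h
    simp only [k, lp.coeFn_sub, Pi.sub_apply, lp.coeFn_smul, Pi.smul_apply, h3, lp.single_apply_self]
    simp
  have : (0 : ℝ) < 1 / ((n : ℝ) + 1) := Nat.one_div_pos_of_nat
  rw [h2, Real.norm_of_nonneg (by linarith)]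
  linarith

lemma K_closed : IsClosed K := by
  apply Metric.isClosed_of_pairwise_le_dist one_pos
  rintro _ ⟨n, rfl⟩ _ ⟨m, rfl⟩ hne
  exact k_dist n m (fun h => hne (by rw [h]))

lemma K_ne : K.Nonempty := ⟨k 0, 0, rfl⟩

lemma psi_pos (x : H) (hx : ‖x‖ ≤ 1) : 0 < Metric.infDist x K := by
  rw [← K_closed.notMem_iff_infDist_pos K_ne]
  rintro ⟨n, rfl⟩
  rw [k_norm] at hx
  have : (0 : ℝ) < 1 / ((n : ℝ) + 1) := Nat.one_div_pos_of_nat
  linarith

lemma psi_le (n : ℕ) : Metric.infDist (lp.single 2 n (1 : ℝ) : H) K ≤ 1 / ((n : ℝ) + 1) := by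
  have h1 := Metric.infDist_le_dist_of_mem (x := (lp.single 2 n (1 : ℝ) : H)) (s := K) ⟨n, rfl⟩
  refine h1.trans (le_of_eq ?_)
  have : (0 : ℝ) < 1 / ((n : ℝ) + 1) := Nat.one_div_pos_of_nat
  rw [dist_comm, dist_eq_norm, k]
  have h2 : (1 + 1 / ((n : ℝ) + 1)) • (lp.single 2 n (1 : ℝ) : H) - lp.single 2 n (1 : ℝ) =
      (1 / ((n : ℝ) + 1)) • (lp.single 2 n (1 : ℝ) : H) := by module
  rw [h2, norm_smul, lp.norm_single (by norm_num), Real.norm_of_nonneg (by linarith)]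
  simp

noncomputable def f (p : X) : X := (1 - Metric.infDist p.2 K, p.2)

theorem main : ¬ (∀ (X : Type) [NormedAddCommGroup X] [NormedSpace ℝ X] [CompleteSpace X],
    Function.Surjective (NormedSpace.inclusionInDoubleDual ℝ X) →
    ∀ (C : Set X), IsClosed C → Convex ℝ C → IsCompact ((toWeakSpace ℝ X) '' C) →
    (∀ K : Set X, K ⊆ C → Convex ℝ K → (∃ a ∈ K, ∃ b ∈ K, a ≠ b) →
        ∃ x ∈ K, ∃ r : ℝ, r < Metric.diam K ∧ ∀ y ∈ K, dist x y ≤ r) →
    ∀ f : X → X, (∀ x ∈ C, ∀ y ∈ C, dist (f x) (f y) ≤ dist x y) →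
    IsClosed {z : X | ∃ x ∈ C, z = x - f x}) := by
  intro hyp
  have key := hyp X refl_X C C_closed C_convex C_compact normal f (by
    intro x hx y hy
    rw [dist_C x y hx hy, Prod.dist_eq]
    apply max_le
    · have := (Metric.lipschitz_infDist_pt K).dist_le_mul x.2 y.2
      simp only [f, Real.dist_eq] at this ⊢
      rw [show 1 - Metric.infDist x.2 K - (1 - Metric.infDist y.2 K) =
        -(Metric.infDist x.2 K - Metric.infDist y.2 K) by ring, abs_neg]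
      simpa [dist_eq_norm] using this
    · simp [f, dist_eq_norm])
  have hlim : Tendsto (fun n : ℕ => ((Metric.infDist (lp.single 2 n (1 : ℝ) : H) K, 0) : X))
      atTop (𝓝 ((0 : ℝ), (0 : H))) := by
    apply Tendsto.prodMk_nhds _ tendsto_const_nhds
    exact squeeze_zero (fun n => Metric.infDist_nonneg) psi_le tendsto_one_div_add_atTop_nhds_zero_nat
  have hmem : ((0 : ℝ), (0 : H)) ∈ {z : X | ∃ x ∈ C, z = x - f x} := by
    apply key.mem_of_tendsto hlim
    filter_upwards with n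
    refine ⟨(1, lp.single 2 n (1 : ℝ)), ⟨rfl, ?_⟩, ?_⟩
    · show ‖(lp.single 2 n (1 : ℝ) : H)‖ ≤ 1
      rw [lp.norm_single (by norm_num)]
      simp
    · ext <;> simp [f]
  obtain ⟨x, hx, h0⟩ := hmem
  have h1 := congrArg Prod.fst h0
  simp only [f, Prod.fst_sub] at h1
  have h2 := psi_pos x.2 hx.2
  rw [hx.1] at h1
  linarith

end Pool.Agent.RangeNonexp
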