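import Mathlib

set_option autoImplicit false
set_option maxHeartbeats 4000000
open Filter Topology MeasureTheory Set

namespace Pool.Agent.ResolventCond

noncomputable section

abbrev C0 := ZeroAtInftyContinuousMap ℕ ℂ

lemma norm_le' {x : C0} {r : ℝ} (hr : 0 ≤ r) (h : ∀ n, ‖x n‖ ≤ r) : ‖x‖ ≤ r := by
  rw [← ZeroAtInftyContinuousMap.norm_toBCF_eq_norm]
  exact (BoundedContinuousFunction.norm_le hr).2 h

lemma abs_le' (x : C0) (n : ℕ) : ‖x n‖ ≤ ‖x‖ := by
  rw [← ZeroAtInftyContinuousMap.norm_toBCF_eq_norm]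
  exact x.toBCF.norm_coe_le_norm n

lemma tend (x : C0) : Tendsto (fun n => x n) atTop (𝓝 0) := by
  have := x.zero_at_infty'
  rwa [cocompact_eq_cofinite, Nat.cofinite_eq_atTop] at this

def mkC (g : ℕ → ℂ) (hg : Tendsto g atTop (𝓝 0)) : C0 where
  toFun := g
  continuous_toFun := continuous_of_discreteTopology
  zero_at_infty' := by rwa [cocompact_eq_cofinite, Nat.cofinite_eq_atTop]

def mulSeq (u : ℕ → ℂ) (hu : ∀ k, ‖u k‖ ≤ 1) : C0 →L[ℂ] C0 :=
  LinearMap.mkContinuous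
    { toFun := fun x => mkC (fun k => u k * x k) (by
        refine squeeze_zero_norm (fun k => ?_) (tend_zero_iff_norm_tendsto_zero x)
        · rw [norm_mul]
          exact mul_le_of_le_one_left (norm_nonneg _) (hu k))
      map_add' := fun x y => by ext k; simp [mkC, mul_add]
      map_smul' := fun c x => by ext k; simp [mkC]; ring }
    1 (fun x => by
      rw [one_mul]
      refine norm_le' (norm_nonneg _) (fun k => ?_)
      simp only [mkC, LinearMap.coe_mk, AddHom.coe_mk]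
      change ‖u k * x k‖ ≤ ‖x‖
      rw [norm_mul]
      exact (mul_le_of_le_one_left (norm_nonneg _) (hu k)).trans (abs_le' x k))
where
  tend_zero_iff_norm_tendsto_zero (x : C0) : Tendsto (fun n => ‖x n‖) atTop (𝓝 0) := by
    have := (tend x).norm
    simpa using this

lemma mulSeq_apply (u : ℕ → ℂ) (hu : ∀ k, ‖u k‖ ≤ 1) (x : C0) (k : ℕ) :
    mulSeq u hu x k = u k * x k := rfl

lemma nexp (k : ℕ) (t : ℝ) : ‖Complex.exp (((k : ℝ) * t : ℝ) * Complex.I)‖ ≤ 1 := by
  rw [Complex.norm_exp_ofReal_mul_I]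

def T (t : ℝ) : C0 →L[ℂ] C0 :=
  (Complex.exp (-(t : ℂ))) • mulSeq (fun k => Complex.exp (((k : ℝ) * t : ℝ) * Complex.I)) (fun k => nexp k t)

lemma T_apply (t : ℝ) (x : C0) (k : ℕ) :
    T t x k = Complex.exp (-(t : ℂ)) * (Complex.exp (((k : ℝ) * t : ℝ) * Complex.I) * x k) := rfl

lemma T_zero : T 0 = 1 := by
  ext x k
  rw [T_apply]; simp

lemma T_add (s t : ℝ) : T (s + t) = T s * T t := by
  ext x k
  rw [T_apply, ContinuousLinearMap.mul_apply, T_apply, T_apply]
  push_cast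
  rw [neg_add, Complex.exp_add, mul_add, add_mul, Complex.exp_add]
  ring

lemma T_norm (t : ℝ) (x : C0) : ‖T t x‖ ≤ Real.exp (-t) * ‖x‖ := by
  refine norm_le' (by positivity) (fun k => ?_)
  rw [T_apply, norm_mul, norm_mul, Complex.norm_exp_ofReal_mul_I, Complex.norm_exp]
  simp only [Complex.neg_re, Complex.ofReal_re, one_mul]
  exact mul_le_mul_of_nonneg_left (abs_le' x k) (by positivity)

lemma T_cont (x : C0) : Continuous (fun t : ℝ => T t x) := by
  have h1 : Continuous (fun t : ℝ => mulSeq (fun k => Complex.exp (((k : ℝ) * t : ℝ) * Complex.I)) (fun k => nexp k t) x) := by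
    rw [continuous_iff_continuousAt]
    intro t0
    rw [ContinuousAt, Metric.tendsto_nhds]
    intro ε hε
    have hN : ∀ᶠ k in atTop, ‖x k‖ < ε / 4 := by
      have := (tend x).norm
      rw [norm_zero] at this
      exact this.eventually_lt_const (by linarith)
    obtain ⟨N, hN⟩ := eventually_atTop.1 hN
    have hfin : ∀ᶠ t in 𝓝 t0, ∀ k ∈ Finset.range N,
        ‖Complex.exp (((k : ℝ) * t : ℝ) * Complex.I) * x k - Complex.exp (((k : ℝ) * t0 : ℝ) * Complex.I) * x k‖ < ε / 2 := by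
      rw [Filter.eventually_all_finset]
      intro k _
      have hc : Continuous (fun t : ℝ => Complex.exp (((k : ℝ) * t : ℝ) * Complex.I) * x k) := by
        fun_prop
      have := (hc.tendsto t0)
      rw [Metric.tendsto_nhds] at this
      have h2 := this (ε/2) (by linarith)
      filter_upwards [h2] with t ht
      rwa [dist_eq_norm] at ht
    filter_upwards [hfin] with t ht
    rw [dist_eq_norm]
    refine lt_of_le_of_lt (norm_le' (r := ε/2) (by linarith) (fun k => ?_)) (by linarith)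
    rw [ZeroAtInftyContinuousMap.sub_apply, mulSeq_apply, mulSeq_apply]
    by_cases hk : k < N
    · exact (ht k (Finset.mem_range.2 hk)).le
    · have h3 := hN k (not_lt.1 hk)
      rw [← sub_mul, norm_mul]
      have h4 : ‖Complex.exp (((k : ℝ) * t : ℝ) * Complex.I) - Complex.exp (((k : ℝ) * t0 : ℝ) * Complex.I)‖ ≤ 2 := by
        refine (norm_sub_le _ _).trans ?_
        have := nexp k t
        have := nexp k t0
        linarith
      nlinarith [norm_nonneg (x k)]
  have h2 : Continuous (fun t : ℝ => Complex.exp (-(t : ℂ))) := by fun_prop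
  exact h2.smul h1

def ev (k : ℕ) : C0 →L[ℂ] ℂ :=
  LinearMap.mkContinuous
    { toFun := fun x => x k
      map_add' := fun x y => rfl
      map_smul' := fun c x => rfl } 1 (fun x => by rw [one_mul]; exact abs_le' x k)

lemma ev_apply (k : ℕ) (x : C0) : ev k x = x k := rfl

lemma integrable_aux (a s : ℝ) (ha : 0 < a) (x : C0) :
    IntegrableOn (fun t : ℝ => Complex.exp (-(((a : ℂ) + (s : ℂ) * Complex.I) * (t : ℂ))) • T t x) (Ioi (0:ℝ)) := by
  have hdom : IntegrableOn (fun t : ℝ => Real.exp (-(a+1) * t) * ‖x‖) (Ioi (0:ℝ)) := by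
    have := integrableOn_exp_mul_Ioi (a := -(a+1)) (by linarith) 0
    exact this.mul_const _
  refine Integrable.mono' hdom ?_ ?_
  · have h0 : Continuous (fun t : ℝ => Complex.exp (-(((a : ℂ) + (s : ℂ) * Complex.I) * (t : ℂ)))) := by
      fun_prop
    have : Continuous (fun t : ℝ => Complex.exp (-(((a : ℂ) + (s : ℂ) * Complex.I) * (t : ℂ))) • T t x) :=
      h0.smul (T_cont x)
    exact this.aestronglyMeasurable
  · refine Eventually.of_forall (fun t => ?_)
    rw [norm_smul, Complex.norm_exp]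
    have h1 := T_norm t x
    have h2 : (-(((a : ℂ) + (s : ℂ) * Complex.I) * (t : ℂ))).re = - (a * t) := by simp
    rw [h2]
    calc Real.exp (-(a*t)) * ‖T t x‖ ≤ Real.exp (-(a*t)) * (Real.exp (-t) * ‖x‖) := by gcongr
      _ = Real.exp (-(a+1) * t) * ‖x‖ := by
        rw [← mul_assoc, ← Real.exp_add]; ring_nf

lemma ev_R (a s : ℝ) (ha : 0 < a) (x : C0) (k : ℕ) :
    ev k (∫ t in Ioi (0:ℝ), Complex.exp (-(((a : ℂ) + (s : ℂ) * Complex.I) * (t : ℂ))) • T t x)
      = x k / ((a + 1 : ℂ) + ((s - k : ℝ) : ℂ) * Complex.I) := by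
  rw [← ContinuousLinearMap.integral_comp_comm _ (integrable_aux a s ha x)]
  have h1 : ∀ t : ℝ, ev k (Complex.exp (-(((a : ℂ) + (s : ℂ) * Complex.I) * (t : ℂ))) • T t x)
      = Complex.exp (-((a + 1 : ℂ) + ((s - k : ℝ) : ℂ) * Complex.I) * t) * x k := by
    intro t
    rw [map_smul, ev_apply, T_apply, smul_eq_mul, ← mul_assoc, ← mul_assoc, ← Complex.exp_add, ← Complex.exp_add]
    congr 2
    push_cast
    ring
  simp_rw [h1]
  rw [integral_mul_const, integral_exp_mul_complex_Ioi]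
  · simp only [Complex.ofReal_zero, mul_zero, Complex.exp_zero]
    rw [neg_div_neg_eq]
    ring
  · simp
    linarith

def x0 : C0 := mkC (fun k => ((Real.sqrt (k+1))⁻¹ : ℝ)) (by
  have h : Tendsto (fun k : ℕ => Real.sqrt ((k:ℝ)+1)) atTop atTop := by
    refine Real.tendsto_sqrt_atTop.comp ?_
    exact tendsto_atTop_add_const_right _ _ tendsto_natCast_atTop_atTop
  have h2 := h.inv_tendsto_atTop
  have h3 := (Complex.continuous_ofReal.tendsto 0).comp h2
  rw [Complex.ofReal_zero] at h3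
  exact h3)

lemma x0_apply (k : ℕ) : x0 k = ((Real.sqrt (k+1))⁻¹ : ℝ) := rfl

lemma lower (a s : ℝ) (ha : 0 < a) (hs : 1 < s) :
    (1 / ((a+1)^2 + 1)) * (1/2) * s⁻¹ ≤
    ‖(∫ t in Ioi (0:ℝ), Complex.exp (-(((a : ℂ) + (s : ℂ) * Complex.I) * (t : ℂ))) • T t x0)‖ ^ 2 := by
  set R := (∫ t in Ioi (0:ℝ), Complex.exp (-(((a : ℂ) + (s : ℂ) * Complex.I) * (t : ℂ))) • T t x0) with hR
  set k := ⌊s⌋₊ with hk
  have h1 : ‖ev k R‖ ≤ ‖R‖ := abs_le' R k
  have h2 := ev_R a s ha x0 k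
  rw [← hR] at h2
  rw [h2, norm_div, x0_apply, Complex.norm_real, Real.norm_of_nonneg (by positivity)] at h1
  have hk1 : (k:ℝ) ≤ s := Nat.floor_le (by linarith)
  have hk2 : s < k + 1 := Nat.lt_floor_add_one s
  have hn : ‖((a + 1 : ℂ) + ((s - k : ℝ) : ℂ) * Complex.I)‖^2 = (a+1)^2 + (s-k)^2 := by
    rw [← Complex.normSq_eq_norm_sq]
    have : ((a + 1 : ℂ) + ((s - k : ℝ) : ℂ) * Complex.I) = ((a + 1 : ℝ) : ℂ) + ((s - k : ℝ) : ℂ) * Complex.I := by
      push_cast; ring
    rw [this, Complex.normSq_add_mul_I]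
  have h3 : ((Real.sqrt (k+1))⁻¹ / ‖((a + 1 : ℂ) + ((s - k : ℝ) : ℂ) * Complex.I)‖)^2 ≤ ‖R‖^2 := by
    have h0 : 0 ≤ ((Real.sqrt (k+1))⁻¹ / ‖((a + 1 : ℂ) + ((s - k : ℝ) : ℂ) * Complex.I)‖) := by positivity
    exact pow_le_pow_left₀ h0 h1 2
  refine le_trans ?_ h3
  rw [div_pow, hn, inv_pow, Real.sq_sqrt (by positivity)]
  have e1 : (s-k)^2 ≤ 1 := by nlinarith
  have e2 : (1/2) * s⁻¹ ≤ ((k:ℝ)+1)⁻¹ := by
    rw [← one_div, ← one_div, div_mul_div_comm, one_mul]
    apply div_le_div_of_nonneg_left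
    · norm_num
    · positivity
    · linarith
  calc (1 / ((a+1)^2 + 1)) * (1/2) * s⁻¹ = (1 / ((a+1)^2 + 1)) * ((1/2) * s⁻¹) := by ring
    _ ≤ (1 / ((a+1)^2 + (s-k)^2)) * ((k:ℝ)+1)⁻¹ := by
      apply mul_le_mul
      · apply div_le_div_of_nonneg_left <;> nlinarith [sq_nonneg (s-k)]
      · exact e2
      · have : 0 < s := by linarith
        positivity
      · positivity
    _ = _ := by
      field_simp

lemma lint_top (a : ℝ) (ha : 0 < a) :
    (∫⁻ s : ℝ, ((‖∫ t in Set.Ioi (0 : ℝ),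
                    Complex.exp (-(((a : ℂ) + (s : ℂ) * Complex.I) * (t : ℂ))) • T t x0‖₊ : ENNReal)) ^ 2) = ⊤ := by
  set c : ℝ := (1 / ((a+1)^2 + 1)) * (1/2) with hc
  have hcpos : 0 < c := by positivity
  have h1 : ∫⁻ s in Ioi (1:ℝ), ENNReal.ofReal (c * s⁻¹) = ⊤ := by
    by_contra hne
    have hni : ¬ IntegrableOn (fun s : ℝ => s⁻¹) (Ioi (1:ℝ)) := not_integrableOn_Ioi_inv
    apply hni
    have hmeas : AEStronglyMeasurable (fun s : ℝ => c * s⁻¹) (volume.restrict (Ioi (1:ℝ))) := by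
      exact (measurable_const.mul measurable_inv).aestronglyMeasurable
    have hint : IntegrableOn (fun s : ℝ => c * s⁻¹) (Ioi (1:ℝ)) := by
      refine ⟨hmeas, ?_⟩
      rw [hasFiniteIntegral_iff_norm]
      refine lt_of_le_of_lt ?_ (lt_top_iff_ne_top.2 hne)
      refine setLIntegral_mono' measurableSet_Ioi (fun s hs => ?_)
      rw [Real.norm_of_nonneg]
      have : (0:ℝ) < s := lt_trans one_pos hs
      positivity
    have := hint.const_mul c⁻¹
    refine this.congr (Eventually.of_forall (fun s => ?_))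
    simp only
    rw [← mul_assoc, inv_mul_cancel₀ hcpos.ne', one_mul]
  rw [eq_top_iff, ← h1]
  refine le_trans ?_ (setLIntegral_le_lintegral (Ioi (1:ℝ)) _)
  refine setLIntegral_mono' measurableSet_Ioi (fun s hs => ?_)
  have h2 := lower a s ha hs
  rw [← hc] at h2
  calc ENNReal.ofReal (c * s⁻¹) ≤ ENNReal.ofReal (‖(∫ t in Ioi (0:ℝ), Complex.exp (-(((a : ℂ) + (s : ℂ) * Complex.I) * (t : ℂ))) • T t x0)‖ ^ 2) :=
        ENNReal.ofReal_le_ofReal h2
    _ = _ := by
      rw [ENNReal.ofReal_pow (norm_nonneg _), ofReal_norm]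
      rfl

theorem main :
    ¬ (∀ (X : Type) [NormedAddCommGroup X] [NormedSpace ℂ X] [CompleteSpace X]
      (T : ℝ → (X →L[ℂ] X)),
      T 0 = 1 →
      (∀ s t : ℝ, 0 ≤ s → 0 ≤ t → T (s + t) = T s * T t) →
      (∀ x : X, ContinuousOn (fun t : ℝ => T t x) (Set.Ici (0 : ℝ))) →
      (∃ M : ℝ, ∀ t : ℝ, 0 ≤ t → ‖T t‖ ≤ M) →
      ∀ x : X,
        (Tendsto (fun t : ℝ => T t x) atTop (𝓝 0) ↔
          Tendsto
            (fun a : ℝ => ENNReal.ofReal a *
              ∫⁻ s : ℝ,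
                ((‖∫ t in Set.Ioi (0 : ℝ),
                    Complex.exp (-(((a : ℂ) + (s : ℂ) * Complex.I) * (t : ℂ))) • T t x‖₊ : ENNReal)) ^ 2)
            (𝓝[>] (0 : ℝ)) (𝓝 0))) := by
  intro H
  have h1 := H C0 T T_zero (fun s t _ _ => T_add s t) (fun x => (T_cont x).continuousOn)
    ⟨1, fun t ht => by
      refine ContinuousLinearMap.opNorm_le_bound _ zero_le_one (fun x => ?_)
      refine (T_norm t x).trans ?_
      have : Real.exp (-t) ≤ 1 := Real.exp_le_one_iff.2 (by linarith)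
      exact mul_le_mul_of_nonneg_right this (norm_nonneg _)⟩ x0
  have h2 : Tendsto (fun t : ℝ => T t x0) atTop (𝓝 0) := by
    refine squeeze_zero_norm (fun t => T_norm t x0) ?_
    have h3 : Tendsto (fun t : ℝ => Real.exp (-t)) atTop (𝓝 0) := Real.tendsto_exp_neg_atTop_nhds_zero
    simpa using h3.mul_const ‖x0‖
  have h3 := h1.1 h2
  have h4 : ∀ᶠ a in 𝓝[>] (0:ℝ), ENNReal.ofReal a * ∫⁻ s : ℝ,
                ((‖∫ t in Set.Ioi (0 : ℝ),
                    Complex.exp (-(((a : ℂ) + (s : ℂ) * Complex.I) * (t : ℂ))) • T t x0‖₊ : ENNReal)) ^ 2 = ⊤ := by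
    filter_upwards [self_mem_nhdsWithin] with a ha
    have ha' : 0 < a := ha
    rw [lint_top a ha', ENNReal.mul_top]
    simpa using ha'
  have h5 : Tendsto (fun a : ℝ => (⊤ : ENNReal)) (𝓝[>] (0:ℝ)) (𝓝 0) := h3.congr' h4
  have h6 := tendsto_nhds_unique h5 tendsto_const_nhds
  exact ENNReal.zero_ne_top h6

end

end Pool.Agent.ResolventCond
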