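import Mathlib
import Pool.Agent.Lib.ProjApprox

set_option autoImplicit false
set_option maxHeartbeats 4000000
open Filter Topology

namespace Pool.Agent.RiemSum
open Pool.Agent.ProjApprox (C0 abs_le' norm_le' tend e e_apply ev0 ev0_apply)

def lay (t : ℝ) (k : ℕ) : Prop := ∃ i : ℕ, i < 256^k ∧ t = (2 * (i:ℝ) + 1) / (2 * 256^k)

lemma lay_unique_aux {t : ℝ} {k l : ℕ} (hk : lay t k) (hl : lay t l) (h : k < l) : False := by
  obtain ⟨i, -, hi⟩ := hk
  obtain ⟨j, -, hj⟩ := hl
  obtain ⟨d, rfl⟩ : ∃ d, l = k + (d + 1) := ⟨l - k - 1, by omega⟩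
  rw [hi, div_eq_div_iff (by positivity) (by positivity)] at hj
  have h1 : ((2 * i + 1) * 256 ^ (d+1) : ℝ) = 2 * j + 1 := by
    have h2 : (0:ℝ) < 2 * 256^k := by positivity
    have h3 : (2 * 256^k : ℝ) * ((2 * i + 1) * 256 ^ (d+1)) = (2 * 256^k) * (2 * j + 1) := by
      rw [pow_add] at hj
      linarith
    exact mul_left_cancel₀ h2.ne' h3
  have h2 : (2 * i + 1) * 256 ^ (d+1) = 2 * j + 1 := by exact_mod_cast h1
  have h3 : (2 * i + 1) * 256 ^ (d+1) = 2 * ((2 * i + 1) * 256 ^ d * 128) := by rw [pow_succ]; ring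
  omega

lemma lay_unique {t : ℝ} {k l : ℕ} (hk : lay t k) (hl : lay t l) : k = l := by
  rcases lt_trichotomy k l with h | h | h
  · exact (lay_unique_aux hk hl h).elim
  · exact h
  · exact (lay_unique_aux hl hk h).elim

lemma lay_lt {t : ℝ} {k : ℕ} (hk : lay t k) : 0 ≤ t ∧ t < 1 := by
  obtain ⟨i, hi, rfl⟩ := hk
  refine ⟨by positivity, ?_⟩
  rw [div_lt_one (by positivity)]
  have : (i:ℝ) + 1 ≤ 256^k := by exact_mod_cast hi
  linarith

abbrev Ix : Type := Fin 3 ⊕ (ℕ × Finset ℕ)

noncomputable def g (k : ℕ) (D : Finset ℕ) (t : ℝ) : ℝ :=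
  (if ⌊t * 256^(k+1)⌋₊ ∈ D then 1 else 0) - (D.card : ℝ) / 256^(k+1)

open Classical in
noncomputable def val (t : ℝ) : Ix → ℝ
  | Sum.inl 0 => if ∃ k, lay t k then 0 else 1
  | Sum.inl 1 => if ∃ k, Even k ∧ lay t k then 1 else 0
  | Sum.inl 2 => if ∃ k, ¬ Even k ∧ lay t k then 1 else 0
  | Sum.inr (k, D) => if (∃ k', k < k' ∧ lay t k') ∧ D ⊆ Finset.range (256^(k+1)) then g k D t else 0

lemma g_abs (k : ℕ) (D : Finset ℕ) (hD : D ⊆ Finset.range (256^(k+1))) (t : ℝ) : |g k D t| ≤ 1 := by
  have h1 : (D.card : ℝ) / 256^(k+1) ≤ 1 := by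
    rw [div_le_one (by positivity)]
    have := Finset.card_le_card hD
    rw [Finset.card_range] at this
    exact_mod_cast this
  have h0 : 0 ≤ (D.card : ℝ) / 256^(k+1) := by positivity
  unfold g
  rw [abs_le]
  split_ifs <;> constructor <;> linarith

lemma val_abs (t : ℝ) (ix : Ix) : |val t ix| ≤ 1 := by
  rcases ix with i | ⟨k, D⟩
  · fin_cases i <;> (simp only [val]; split_ifs <;> simp)
  · simp only [val]
    split_ifs with h
    · exact g_abs k D h.2 t
    · simp

lemma val_fin (t : ℝ) : {ix : Ix | val t ix ≠ 0}.Finite := by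
  classical
  by_cases h : ∃ k, lay t k
  · obtain ⟨k', hk'⟩ := h
    have hfin : ((Set.range (Sum.inl : Fin 3 → Ix)) ∪ ((fun kD : ℕ × Finset ℕ => (Sum.inr kD : Ix)) ''
        ((Set.Iio k') ×ˢ (↑(Finset.range (256^k')).powerset : Set (Finset ℕ))))).Finite :=
      (Set.finite_range _).union (((Set.finite_Iio _).prod (Finset.finite_toSet _)).image _)
    refine hfin.subset ?_
    rintro (i | ⟨k, D⟩) hix
    · exact Or.inl ⟨i, rfl⟩
    · right
      refine ⟨(k, D), ?_, rfl⟩
      simp only [Set.mem_ofPred_eq, val] at hix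
      have h1 := (ite_ne_right_iff.1 hix).1
      obtain ⟨⟨k'', hk1, hk2⟩, hD⟩ := h1
      have : k'' = k' := lay_unique hk2 hk'
      subst this
      refine ⟨hk1, ?_⟩
      rw [Finset.mem_coe, Finset.mem_powerset]
      refine hD.trans ?_
      intro c hc
      rw [Finset.mem_range] at hc ⊢
      exact hc.trans_le (Nat.pow_le_pow_right (by norm_num) hk1)
  · refine (Set.finite_range (Sum.inl : Fin 3 → Ix)).subset ?_
    rintro (i | ⟨k, D⟩) hix
    · exact ⟨i, rfl⟩
    · exfalso
      simp only [Set.mem_ofPred_eq, val] at hix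
      have h1 := (ite_ne_right_iff.1 hix).1
      obtain ⟨⟨k'', hk1, hk2⟩, hD⟩ := h1
      exact h ⟨k'', hk2⟩

noncomputable def Fv (t : ℝ) (m : ℕ) : ℝ := ((Encodable.decode₂ Ix m).map (val t)).getD 0

lemma Fv_enc (t : ℝ) (ix : Ix) : Fv t (Encodable.encode ix) = val t ix := by
  unfold Fv
  rw [Encodable.encodek₂]
  rfl

lemma Fv_none (t : ℝ) (m : ℕ) (h : Encodable.decode₂ Ix m = none) : Fv t m = 0 := by
  unfold Fv; rw [h]; rfl

noncomputable def F (t : ℝ) : C0 :=
  { toFun := Fv t
    continuous_toFun := continuous_of_discreteTopology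
    zero_at_infty' := by
      rw [cocompact_eq_atTop (α := ℕ), ← Nat.cofinite_eq_atTop]
      apply tendsto_const_nhds.congr'
      rw [Filter.EventuallyEq, Filter.eventually_cofinite]
      refine ((val_fin t).image Encodable.encode).subset ?_
      intro m hm
      simp only [Set.mem_ofPred_eq] at hm
      rcases h : Encodable.decode₂ Ix m with _ | ix
      · exact absurd (Fv_none t m h).symm hm
      · have h2 : Encodable.encode ix = m := Encodable.mem_decode₂.1 h
        refine ⟨ix, ?_, h2⟩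
        intro h0
        apply hm
        rw [← h2, Fv_enc, h0] }

lemma F_enc (t : ℝ) (ix : Ix) : F t (Encodable.encode ix) = val t ix := Fv_enc t ix

lemma F_none (t : ℝ) (m : ℕ) (h : Encodable.decode₂ Ix m = none) : F t m = 0 := Fv_none t m h

lemma F_norm (t : ℝ) : ‖F t‖ ≤ 1 := by
  apply norm_le' _ zero_le_one
  intro m
  rcases h : Encodable.decode₂ Ix m with _ | ix
  · rw [F_none t m h]; simp
  · have h2 : Encodable.encode ix = m := Encodable.mem_decode₂.1 h
    rw [← h2, F_enc]; exact val_abs t ix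

lemma sum_coord (n : ℕ) (w : ℕ → ℝ) (t : ℕ → ℝ) (m : ℕ) :
    (∑ i ∈ Finset.range n, w i • F (t i)) m = ∑ i ∈ Finset.range n, w i * F (t i) m := by
  have : (∑ i ∈ Finset.range n, w i • F (t i)) m = ev0 m (∑ i ∈ Finset.range n, w i • F (t i)) := rfl
  rw [this, map_sum]
  apply Finset.sum_congr rfl
  intro i _
  rw [map_smul]; rfl

/-- target vectors -/
noncomputable def v (j : Fin 3) : C0 := e (Encodable.encode (Sum.inl j : Ix))

lemma v_enc (j : Fin 3) (ix : Ix) : v j (Encodable.encode ix) = if ix = Sum.inl j then 1 else 0 := by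
  unfold v
  rw [e_apply]
  simp only [Encodable.encode_inj]

lemma v_none (j : Fin 3) (m : ℕ) (h : Encodable.decode₂ Ix m = none) : v j m = 0 := by
  unfold v
  rw [e_apply, if_neg]
  intro h2
  rw [h2, Encodable.encodek₂] at h
  exact absurd h (by simp)

/-- sum over blocks -/
lemma sum_div (C R : ℕ) (hR : 0 < R) (h : ℕ → ℝ) :
    ∑ i ∈ Finset.range (C * R), h (i / R) = R * ∑ q ∈ Finset.range C, h q := by
  induction C with
  | zero => simp
  | succ C ih =>
    rw [add_mul, one_mul, Finset.sum_range_add, ih, Finset.sum_range_succ, mul_add]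
    congr 1
    have : ∀ j ∈ Finset.range R, h ((C * R + j) / R) = h C := by
      intro j hj
      rw [Finset.mem_range] at hj
      congr 1
      rw [mul_comm, Nat.mul_add_div hR, Nat.div_eq_of_lt hj, add_zero]
    rw [Finset.sum_congr rfl this]
    simp

noncomputable def tg (l i : ℕ) : ℝ := (2 * (i:ℝ) + 1) / (2 * 256^l)

lemma tg_lay (l i : ℕ) (hi : i < 256^l) : lay (tg l i) l := ⟨i, hi, rfl⟩

lemma floor_tg (k d i : ℕ) : ⌊tg (k + 1 + d) i * 256^(k+1)⌋₊ = i / 256^d := by
  have h1 : tg (k+1+d) i * 256^(k+1) = ((2 * i + 1 : ℕ) : ℝ) / ((2 * 256^d : ℕ) : ℝ) := by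
    unfold tg
    rw [pow_add]
    push_cast
    field_simp
  rw [h1, Nat.floor_div_eq_div]
  have hR : 0 < 256^d := by positivity
  generalize 256^d = R at hR
  rw [← Nat.div_div_eq_div_mul]
  congr 1
  omega

/-- the Riemann sum of layer `l` -/
noncomputable def SL (l : ℕ) : C0 := ∑ i ∈ Finset.range (256^l), ((1:ℝ)/256^l) • F (tg l i)

def par (l : ℕ) : Fin 3 := if Even l then 1 else 2

lemma SL_eq (l : ℕ) : SL l = v (par l) := by
  classical
  apply ZeroAtInftyContinuousMap.ext
  intro m
  rcases h : Encodable.decode₂ Ix m with _ | ix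
  · rw [v_none _ m h, SL, sum_coord]
    apply Finset.sum_eq_zero
    intro i _
    rw [F_none _ m h, mul_zero]
  · have h2 : Encodable.encode ix = m := Encodable.mem_decode₂.1 h
    rw [← h2, v_enc, SL, sum_coord]
    simp_rw [F_enc]
    have hpos : (0:ℝ) < 256^l := by positivity
    have hsum1 : ∑ i ∈ Finset.range (256^l), ((1:ℝ)/256^l) * 1 = 1 := by
      rw [Finset.sum_const, Finset.card_range, nsmul_eq_mul]
      push_cast
      field_simp
    have hconst : ∀ c : ℝ, (∀ i ∈ Finset.range (256^l), val (tg l i) ix = c) →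
        ∑ i ∈ Finset.range (256^l), ((1:ℝ)/256^l) * val (tg l i) ix = c := by
      intro c hc
      rw [Finset.sum_congr rfl (fun i hi => by rw [hc i hi])]
      rw [← Finset.sum_mul]
      rw [← Finset.sum_mul, mul_one] at hsum1
      rw [hsum1, one_mul]
    rcases ix with j | ⟨k, D⟩
    · fin_cases j
      · -- default
        have h3 : ((Sum.inl (0 : Fin 3)) : Ix) ≠ Sum.inl (par l) := by
          intro h; have := Sum.inl_injective h; unfold par at this; split_ifs at this <;> simp at this
        show ∑ i ∈ Finset.range (256^l), ((1:ℝ)/256^l) * val (tg l i) (Sum.inl (0 : Fin 3)) = if (Sum.inl (0 : Fin 3) : Ix) = Sum.inl (par l) then 1 else 0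
        rw [if_neg h3]
        apply hconst
        intro i hi
        show (if ∃ k, lay (tg l i) k then (0:ℝ) else 1) = 0
        rw [if_pos ⟨l, tg_lay l i (Finset.mem_range.1 hi)⟩]
      · show ∑ i ∈ Finset.range (256^l), ((1:ℝ)/256^l) * val (tg l i) (Sum.inl (1 : Fin 3)) = if (Sum.inl (1 : Fin 3) : Ix) = Sum.inl (par l) then 1 else 0
        by_cases hl : Even l
        · rw [if_pos (by unfold par; rw [if_pos hl])]
          apply hconst
          intro i hi
          show (if ∃ k, Even k ∧ lay (tg l i) k then (1:ℝ) else 0) = 1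
          rw [if_pos ⟨l, hl, tg_lay l i (Finset.mem_range.1 hi)⟩]
        · rw [if_neg (by unfold par; rw [if_neg hl]; intro h; have := Sum.inl_injective h; simp at this)]
          apply hconst
          intro i hi
          show (if ∃ k, Even k ∧ lay (tg l i) k then (1:ℝ) else 0) = 0
          rw [if_neg]
          rintro ⟨k, hk, hlk⟩
          exact hl (lay_unique hlk (tg_lay l i (Finset.mem_range.1 hi)) ▸ hk)
      · show ∑ i ∈ Finset.range (256^l), ((1:ℝ)/256^l) * val (tg l i) (Sum.inl (2 : Fin 3)) = if (Sum.inl (2 : Fin 3) : Ix) = Sum.inl (par l) then 1 else 0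
        by_cases hl : Even l
        · rw [if_neg (by unfold par; rw [if_pos hl]; intro h; have := Sum.inl_injective h; simp at this)]
          apply hconst
          intro i hi
          show (if ∃ k, ¬ Even k ∧ lay (tg l i) k then (1:ℝ) else 0) = 0
          rw [if_neg]
          rintro ⟨k, hk, hlk⟩
          exact hk (lay_unique hlk (tg_lay l i (Finset.mem_range.1 hi)) ▸ hl)
        · rw [if_pos (by unfold par; rw [if_neg hl])]
          apply hconst
          intro i hi
          show (if ∃ k, ¬ Even k ∧ lay (tg l i) k then (1:ℝ) else 0) = 1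
          rw [if_pos ⟨l, hl, tg_lay l i (Finset.mem_range.1 hi)⟩]
    · rw [if_neg (by simp)]
      by_cases hc : k < l ∧ D ⊆ Finset.range (256^(k+1))
      · obtain ⟨d, rfl⟩ : ∃ d, l = k + 1 + d := ⟨l - (k+1), by omega⟩
        have h3 : ∀ i ∈ Finset.range (256^(k+1+d)), ((1:ℝ)/256^(k+1+d)) * val (tg (k+1+d) i) (Sum.inr (k, D)) =
            ((1:ℝ)/256^(k+1+d)) * ((if i / 256^d ∈ D then 1 else 0) - (D.card : ℝ) / 256^(k+1)) := by
          intro i hi
          congr 1
          show (if (∃ k', k < k' ∧ lay (tg (k+1+d) i) k') ∧ D ⊆ Finset.range (256^(k+1)) then g k D (tg (k+1+d) i) else 0) = _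
          rw [if_pos ⟨⟨k+1+d, hc.1, tg_lay _ i (Finset.mem_range.1 hi)⟩, hc.2⟩, g, floor_tg]
        rw [Finset.sum_congr rfl h3, ← Finset.mul_sum]
        have h4 := sum_div (256^(k+1)) (256^d) (by positivity) (fun q => (if q ∈ D then (1:ℝ) else 0) - (D.card : ℝ) / 256^(k+1))
        rw [← pow_add] at h4
        rw [h4, Finset.sum_sub_distrib, Finset.sum_const, Finset.card_range]
        have h5 : ∑ q ∈ Finset.range (256^(k+1)), (if q ∈ D then (1:ℝ) else 0) = D.card := by
          rw [← Finset.sum_filter]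
          have : Finset.filter (fun q => q ∈ D) (Finset.range (256^(k+1))) = D := by
            ext q
            rw [Finset.mem_filter]
            exact ⟨fun h => h.2, fun h => ⟨hc.2 h, h⟩⟩
          rw [this]; simp
        rw [h5, nsmul_eq_mul]
        push_cast
        have : (256:ℝ)^(k+1) * ((D.card : ℝ) / 256^(k+1)) = D.card := by field_simp
        rw [this]; simp
      · apply hconst
        intro i hi
        show (if (∃ k', k < k' ∧ lay (tg l i) k') ∧ D ⊆ Finset.range (256^(k+1)) then g k D (tg l i) else 0) = 0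
        rw [if_neg]
        rintro ⟨⟨k', h1, h2⟩, h3⟩
        have : k' = l := lay_unique h2 (tg_lay l i (Finset.mem_range.1 hi))
        subst this
        exact hc ⟨h1, h3⟩

end Pool.Agent.RiemSum
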