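import Mathlib
import Pool.Agent.Lib.RiemSum

set_option autoImplicit false
set_option maxHeartbeats 4000000
open Filter Topology

namespace Pool.Agent.RiemSum
open Pool.Agent.ProjApprox (C0 abs_le' norm_le' tend e e_apply ev0 ev0_apply)

lemma geom (k : ℕ) : 255 * ∑ l ∈ Finset.range (k+1), 256^l ≤ 256^(k+1) := by
  induction k with
  | zero => simp
  | succ k ih =>
    rw [Finset.sum_range_succ, mul_add]
    have : 256^(k+1+1) = 256 * 256^(k+1) := by rw [pow_succ]; ring
    omega

open Classical in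
lemma far (n : ℕ) (x t : ℕ → ℝ) (h0 : x 0 = 0) (h1 : x n = 1) (hx : ∀ i, i < n → x i < x (i+1))
    (ht : ∀ i, i < n → x i ≤ t i ∧ t i ≤ x (i+1)) :
    1/64 ≤ ‖∑ i ∈ Finset.range n, (x (i+1) - x i) • F (t i) - ((1/2:ℝ) • v 1 + (1/2:ℝ) • v 2)‖ := by
  by_contra hcon
  push Not at hcon
  let w : ℕ → ℝ := fun i => x (i+1) - x i
  have hw : ∀ i, i < n → 0 < w i := fun i hi => sub_pos.2 (hx i hi)
  have hmono : ∀ i j, i ≤ j → j ≤ n → x i ≤ x j := by
    intro i j hij hjn
    induction j, hij using Nat.le_induction with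
    | base => exact le_rfl
    | succ j hij ih => exact (ih (by omega)).trans (hx j (by omega)).le
  have hw1 : ∑ i ∈ Finset.range n, w i = 1 := by
    have := Finset.sum_range_sub x n
    rw [h0, h1, sub_zero] at this
    exact this
  have hcoord : ∀ ix : Ix, |∑ i ∈ Finset.range n, w i * val (t i) ix -
      ((1/2:ℝ) * (if ix = Sum.inl 1 then 1 else 0) + (1/2:ℝ) * (if ix = Sum.inl 2 then 1 else 0))| < 1/64 := by
    intro ix
    have h2 := (abs_le' (∑ i ∈ Finset.range n, (x (i+1) - x i) • F (t i) - ((1/2:ℝ) • v 1 + (1/2:ℝ) • v 2)) (Encodable.encode ix)).trans_lt hcon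
    rw [ZeroAtInftyContinuousMap.sub_apply, ZeroAtInftyContinuousMap.add_apply, ZeroAtInftyContinuousMap.smul_apply,
      ZeroAtInftyContinuousMap.smul_apply, v_enc, v_enc] at h2
    rw [sum_coord n w t] at h2
    simp_rw [F_enc] at h2
    exact h2
  let Z := (Finset.range n).filter (fun i => ¬ ∃ k, lay (t i) k)
  let Ev := (Finset.range n).filter (fun i => ∃ k, Even k ∧ lay (t i) k)
  let Od := (Finset.range n).filter (fun i => ∃ k, ¬ Even k ∧ lay (t i) k)
  let A : ℕ → Finset ℕ := fun k => (Finset.range n).filter (fun i => ∃ k', k' ≤ k ∧ lay (t i) k')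
  let G : ℕ → Finset ℕ := fun k => (Finset.range n).filter (fun i => ∃ k', k < k' ∧ lay (t i) k')
  have hZ : ∑ i ∈ Z, w i < 1/64 := by
    have h2 := hcoord (Sum.inl 0)
    rw [if_neg (by simp), if_neg (by simp)] at h2
    have h3 : ∑ i ∈ Z, w i = ∑ i ∈ Finset.range n, w i * val (t i) (Sum.inl 0) := by
      rw [Finset.sum_filter]
      apply Finset.sum_congr rfl
      intro i _
      show _ = w i * (if ∃ k, lay (t i) k then (0:ℝ) else 1)
      split_ifs <;> simp_all
    rw [h3]
    have := (abs_lt.1 h2).2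
    linarith
  have hEv : ∑ i ∈ Ev, w i < 1/2 + 1/64 := by
    have h2 := hcoord (Sum.inl 1)
    rw [if_pos rfl, if_neg (by simp)] at h2
    have h3 : ∑ i ∈ Ev, w i = ∑ i ∈ Finset.range n, w i * val (t i) (Sum.inl 1) := by
      rw [Finset.sum_filter]
      apply Finset.sum_congr rfl
      intro i _
      show _ = w i * (if ∃ k, Even k ∧ lay (t i) k then (1:ℝ) else 0)
      split_ifs <;> simp
    rw [h3]
    have := (abs_lt.1 h2).2
    linarith
  have hOd : ∑ i ∈ Od, w i < 1/2 + 1/64 := by
    have h2 := hcoord (Sum.inl 2)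
    rw [if_neg (by simp), if_pos rfl] at h2
    have h3 : ∑ i ∈ Od, w i = ∑ i ∈ Finset.range n, w i * val (t i) (Sum.inl 2) := by
      rw [Finset.sum_filter]
      apply Finset.sum_congr rfl
      intro i _
      show _ = w i * (if ∃ k, ¬ Even k ∧ lay (t i) k then (1:ℝ) else 0)
      split_ifs <;> simp
    rw [h3]
    have := (abs_lt.1 h2).2
    linarith
  have hsplit : ∀ k, ∑ i ∈ A k, w i + ∑ i ∈ G k, w i + ∑ i ∈ Z, w i = 1 := by
    intro k
    rw [Finset.sum_filter, Finset.sum_filter, Finset.sum_filter, ← Finset.sum_add_distrib, ← Finset.sum_add_distrib, ← hw1]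
    apply Finset.sum_congr rfl
    intro i _
    by_cases ha : ∃ k', lay (t i) k'
    · obtain ⟨k', hk'⟩ := ha
      have hz : ¬ ¬ ∃ k, lay (t i) k := not_not.2 ⟨k', hk'⟩
      rw [if_neg hz]
      rcases le_or_gt k' k with hle | hgt
      · rw [if_pos ⟨k', hle, hk'⟩, if_neg]
        · ring
        · rintro ⟨k'', h3, h4⟩
          have := lay_unique h4 hk'
          omega
      · rw [if_neg, if_pos ⟨k', hgt, hk'⟩]
        · ring
        · rintro ⟨k'', h3, h4⟩
          have := lay_unique h4 hk'
          omega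
    · rw [if_neg, if_neg, if_pos ha]
      · ring
      · rintro ⟨k'', -, h4⟩; exact ha ⟨k'', h4⟩
      · rintro ⟨k'', -, h4⟩; exact ha ⟨k'', h4⟩
  have hsub : ∀ (P Q : Finset ℕ), P ⊆ Q → Q ⊆ Finset.range n → ∑ i ∈ P, w i ≤ ∑ i ∈ Q, w i := by
    intro P Q hPQ hQ
    apply Finset.sum_le_sum_of_subset_of_nonneg hPQ
    intro i hi _
    exact (hw i (Finset.mem_range.1 (hQ hi))).le
  -- existence of k
  have hex : ∃ k, 1/4 ≤ ∑ i ∈ A k, w i := by
    have hk : ∀ i : ℕ, ∃ kk : ℕ, ∀ k, lay (t i) k → k ≤ kk := by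
      intro i
      by_cases h : ∃ k, lay (t i) k
      · obtain ⟨k, hk⟩ := h
        exact ⟨k, fun k' hk' => (lay_unique hk' hk).le⟩
      · exact ⟨0, fun k hk => absurd ⟨k, hk⟩ h⟩
    choose kk hkk using hk
    refine ⟨(Finset.range n).sup kk, ?_⟩
    have hG : G ((Finset.range n).sup kk) = ∅ := by
      rw [Finset.eq_empty_iff_forall_notMem]
      intro i hi
      obtain ⟨hi1, k', hk1, hk2⟩ := Finset.mem_filter.1 hi
      have h3 := hkk i k' hk2
      have h4 : kk i ≤ (Finset.range n).sup kk := Finset.le_sup hi1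
      omega
    have h3 := hsplit ((Finset.range n).sup kk)
    rw [hG, Finset.sum_empty] at h3
    linarith
  obtain ⟨k, hk1, hk2⟩ : ∃ k, 1/4 ≤ ∑ i ∈ A k, w i ∧ ∑ i ∈ A k, w i < 3/4 + 1/64 := by
    refine ⟨Nat.find hex, Nat.find_spec hex, ?_⟩
    set k := Nat.find hex with hkdef
    let A' := (Finset.range n).filter (fun i => ∃ k', k' < k ∧ lay (t i) k')
    have hA' : ∑ i ∈ A', w i < 1/4 := by
      rcases Nat.eq_zero_or_pos k with h | h
      · have : A' = ∅ := by
          rw [Finset.eq_empty_iff_forall_notMem]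
          intro i hi
          obtain ⟨hi1, k', hk1, hk2⟩ := Finset.mem_filter.1 hi
          omega
        rw [this]; norm_num
      · have h3 := Nat.find_min hex (show k - 1 < Nat.find hex by omega)
        push Not at h3
        refine lt_of_le_of_lt ?_ h3
        apply hsub
        · intro i hi
          obtain ⟨hi1, k', hk1, hk2⟩ := Finset.mem_filter.1 hi
          exact Finset.mem_filter.2 ⟨hi1, k', by omega, hk2⟩
        · exact Finset.filter_subset _ _
    let Wk := (Finset.range n).filter (fun i => lay (t i) k)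
    have hWk : ∑ i ∈ Wk, w i < 1/2 + 1/64 := by
      by_cases he : Even k
      · refine lt_of_le_of_lt ?_ hEv
        apply hsub
        · intro i hi
          obtain ⟨hi1, hi2⟩ := Finset.mem_filter.1 hi
          exact Finset.mem_filter.2 ⟨hi1, k, he, hi2⟩
        · exact Finset.filter_subset _ _
      · refine lt_of_le_of_lt ?_ hOd
        apply hsub
        · intro i hi
          obtain ⟨hi1, hi2⟩ := Finset.mem_filter.1 hi
          exact Finset.mem_filter.2 ⟨hi1, k, he, hi2⟩
        · exact Finset.filter_subset _ _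
    have h4 : ∑ i ∈ A k, w i ≤ ∑ i ∈ A', w i + ∑ i ∈ Wk, w i := by
      have hs : A k ⊆ A' ∪ Wk := by
        intro i hi
        obtain ⟨hi1, k', hk1, hk2⟩ := Finset.mem_filter.1 hi
        rcases hk1.lt_or_eq with h | h
        · exact Finset.mem_union_left _ (Finset.mem_filter.2 ⟨hi1, k', h, hk2⟩)
        · subst h
          exact Finset.mem_union_right _ (Finset.mem_filter.2 ⟨hi1, hk2⟩)
      have h5 := hsub _ _ hs (Finset.union_subset (Finset.filter_subset _ _) (Finset.filter_subset _ _))
      have h6 := Finset.sum_union_inter (s₁ := A') (s₂ := Wk) (f := w)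
      have h7 : 0 ≤ ∑ i ∈ A' ∩ Wk, w i := by
        apply Finset.sum_nonneg
        intro i hi
        exact (hw i (Finset.mem_range.1 (Finset.filter_subset _ _ (Finset.mem_inter.1 hi).1))).le
      linarith
    linarith
  -- cells
  set C : ℕ := 256^(k+1) with hC
  have hCpos : (0:ℝ) < C := by rw [hC]; positivity
  let Cells : ℕ → Finset ℕ := fun i => Finset.Ico (⌊x i * C⌋₊ + 1) ⌊x (i+1) * C⌋₊
  have hxnn : ∀ i, i ≤ n → 0 ≤ x i := fun i hi => by rw [← h0]; exact hmono 0 i (Nat.zero_le _) hi
  have hcell1 : ∀ i c, c ∈ Cells i → x i * C < c := by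
    intro i c hc
    have h2 := (Finset.mem_Ico.1 hc).1
    have h3 : ((⌊x i * C⌋₊ : ℝ) + 1) ≤ c := by exact_mod_cast h2
    exact (Nat.lt_floor_add_one _).trans_le h3
  have hcell2 : ∀ i c, i < n → c ∈ Cells i → (c:ℝ) + 1 ≤ x (i+1) * C := by
    intro i c hi hc
    have h2 := (Finset.mem_Ico.1 hc).2
    have h3 : ((c : ℝ) + 1) ≤ ⌊x (i+1) * C⌋₊ := by exact_mod_cast h2
    exact h3.trans (Nat.floor_le (mul_nonneg (hxnn _ hi) hCpos.le))
  let E := (A k).biUnion Cells
  have hAn : ∀ i ∈ A k, i < n := fun i hi => Finset.mem_range.1 (Finset.mem_filter.1 hi).1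
  have hEc : (E.card : ℝ) = ∑ i ∈ A k, ((Cells i).card : ℝ) := by
    have : E.card = ∑ i ∈ A k, (Cells i).card := by
      apply Finset.card_biUnion
      have key : ∀ i j, i < j → j < n → Disjoint (Cells i) (Cells j) := by
        intro i j hij hjn
        rw [Finset.disjoint_left]
        intro c hc1 hc2
        have h2 := hcell2 i c (by omega) hc1
        have h3 := hcell1 j c hc2
        have h4 : x (i+1) * C ≤ x j * C := mul_le_mul_of_nonneg_right (hmono _ _ hij hjn.le) hCpos.le
        linarith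
      intro i hi j hj hij
      rcases lt_or_gt_of_ne hij with h | h
      · exact key i j h (hAn j hj)
      · exact (key j i h (hAn i hi)).symm
    rw [this]; push_cast; rfl
  have hEge : C * ∑ i ∈ A k, w i - 2 * (A k).card ≤ E.card := by
    rw [hEc, Finset.mul_sum]
    have h2 : ∑ i ∈ A k, ((C:ℝ) * w i - 2) ≤ ∑ i ∈ A k, ((Cells i).card : ℝ) := by
      apply Finset.sum_le_sum
      intro i hi
      rw [Nat.card_Ico]
      have h3 : (⌊x (i+1) * C⌋₊ : ℝ) - ((⌊x i * C⌋₊ + 1 : ℕ) : ℝ) ≤ ((⌊x (i+1) * C⌋₊ - (⌊x i * C⌋₊ + 1) : ℕ) : ℝ) := by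
        rcases le_total (⌊x i * C⌋₊ + 1) ⌊x (i+1) * C⌋₊ with h | h
        · rw [Nat.cast_sub h]
        · rw [Nat.sub_eq_zero_of_le h]
          have : (⌊x (i+1) * C⌋₊ : ℝ) ≤ ((⌊x i * C⌋₊ + 1 : ℕ) : ℝ) := by exact_mod_cast h
          push_cast at this ⊢
          linarith
      have h4 := Nat.lt_floor_add_one (x (i+1) * C)
      have h5 : (⌊x i * C⌋₊ : ℝ) ≤ x i * C := Nat.floor_le (mul_nonneg (hxnn _ (hAn i hi).le) hCpos.le)
      push_cast at h3 ⊢
      show (C:ℝ) * (x (i+1) - x i) - 2 ≤ _
      nlinarith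
    rw [Finset.sum_sub_distrib, Finset.sum_const, nsmul_eq_mul] at h2
    linarith
  -- number of tags
  have hAcard : 255 * (A k).card ≤ 2 * C := by
    let Pts : Finset ℝ := (Finset.range (k+1)).biUnion (fun l => (Finset.range (256^l)).image (tg l))
    have hP : 255 * Pts.card ≤ C := by
      have h2 : Pts.card ≤ ∑ l ∈ Finset.range (k+1), 256^l := by
        refine Finset.card_biUnion_le.trans ?_
        apply Finset.sum_le_sum
        intro l _
        exact Finset.card_image_le.trans (by rw [Finset.card_range])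
      have h3 := geom k
      omega
    have h2 : (A k).card ≤ (Pts ×ˢ Finset.range 2).card := by
      apply Finset.card_le_card_of_injOn (fun i => (t i, i % 2))
      · intro i hi
        obtain ⟨hi1, k', hk3, i', hi', hti⟩ := Finset.mem_filter.1 (Finset.mem_coe.1 hi)
        rw [Finset.mem_coe, Finset.mem_product]
        refine ⟨?_, ?_⟩
        · rw [Finset.mem_biUnion]
          refine ⟨k', Finset.mem_range.2 (by omega), ?_⟩
          rw [Finset.mem_image]
          exact ⟨i', Finset.mem_range.2 hi', hti.symm⟩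
        · exact Finset.mem_range.2 (Nat.mod_lt _ (by norm_num))
      · have key : ∀ i j, i < j → j < n → t i = t j → i % 2 = j % 2 → False := by
          intro i j hij hjn h3 h4
          have h5 : i + 2 ≤ j := by omega
          have h6 := (ht i (by omega)).2
          have h7 := hx (i+1) (by omega)
          have h8 := hmono (i+2) j h5 hjn.le
          have h9 := (ht j hjn).1
          have : x (i + 1 + 1) = x (i+2) := rfl
          linarith
        intro i hi j hj hij
        have hi' := hAn i (Finset.mem_coe.1 hi)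
        have hj' := hAn j (Finset.mem_coe.1 hj)
        simp only [Prod.mk.injEq] at hij
        rcases lt_trichotomy i j with h | h | h
        · exact (key i j h hj' hij.1 hij.2).elim
        · exact h
        · exact (key j i h hi' hij.1.symm hij.2.symm).elim
    rw [Finset.card_product, Finset.card_range] at h2
    omega
  have hAcard' : 255 * ((A k).card : ℝ) ≤ 2 * C := by exact_mod_cast hAcard
  have hEfrac : 1/5 ≤ (E.card : ℝ) / C := by
    rw [le_div_iff₀ hCpos]
    nlinarith
  have hEsub : E ⊆ Finset.range C := by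
    intro c hc
    obtain ⟨i, hi, hci⟩ := Finset.mem_biUnion.1 hc
    have h2 := hcell2 i c (hAn i hi) hci
    have h3 : x (i+1) ≤ 1 := by rw [← h1]; exact hmono _ _ (hAn i hi) le_rfl
    have h4 : x (i+1) * C ≤ 1 * C := mul_le_mul_of_nonneg_right h3 hCpos.le
    have h5 : (c:ℝ) < C := by linarith
    exact Finset.mem_range.2 (by exact_mod_cast h5)
  let D := Finset.range C \ E
  have hDcard : (D.card : ℝ) / C = 1 - (E.card : ℝ) / C := by
    have h2 : D.card = C - E.card := by
      rw [Finset.card_sdiff_of_subset hEsub, Finset.card_range]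
    have h3 : E.card ≤ C := by
      have := Finset.card_le_card hEsub
      rwa [Finset.card_range] at this
    rw [h2, Nat.cast_sub h3]
    field_simp
  have hDsub : D ⊆ Finset.range (256^(k+1)) := Finset.sdiff_subset
  have hval : ∑ i ∈ Finset.range n, w i * val (t i) (Sum.inr (k, D)) = (∑ i ∈ G k, w i) * ((E.card : ℝ) / C) := by
    rw [Finset.sum_mul, Finset.sum_filter]
    apply Finset.sum_congr rfl
    intro j hj
    have hjn := Finset.mem_range.1 hj
    show w j * (if (∃ k', k < k' ∧ lay (t j) k') ∧ D ⊆ Finset.range (256^(k+1)) then g k D (t j) else 0) = _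
    by_cases hg : ∃ k', k < k' ∧ lay (t j) k'
    · rw [if_pos ⟨hg, hDsub⟩, if_pos hg]
      congr 1
      obtain ⟨k', hk3, hk4⟩ := hg
      have ht01 := lay_lt hk4
      have hmem : ⌊t j * 256^(k+1)⌋₊ ∈ D := by
        have hcast : t j * 256^(k+1) = t j * (C:ℝ) := by rw [hC]; push_cast; rfl
        rw [hcast]
        have hc1 : (⌊t j * C⌋₊ : ℝ) ≤ t j * C := Nat.floor_le (mul_nonneg ht01.1 hCpos.le)
        have hc2 := Nat.lt_floor_add_one (t j * C)
        rw [Finset.mem_sdiff]
        constructor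
        · have h2 : t j * C < 1 * C := mul_lt_mul_of_pos_right ht01.2 hCpos
          have h3 : (⌊t j * C⌋₊ : ℝ) < C := by linarith
          exact Finset.mem_range.2 (by exact_mod_cast h3)
        · intro hE
          obtain ⟨i, hi, hci⟩ := Finset.mem_biUnion.1 hE
          have h2 := hcell1 i _ hci
          have h3 := hcell2 i _ (hAn i hi) hci
          have h4 : x i * C < t j * C := h2.trans_le hc1
          have h5 : t j * C < x (i+1) * C := hc2.trans_le h3
          have h6 : x i < t j := lt_of_mul_lt_mul_right h4 hCpos.le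
          have h7 : t j < x (i+1) := lt_of_mul_lt_mul_right h5 hCpos.le
          rcases lt_trichotomy i j with h | h | h
          · have h8 := hmono (i+1) j h hjn.le
            have h9 := (ht j hjn).1
            linarith
          · subst h
            obtain ⟨-, k'', hk5, hk6⟩ := Finset.mem_filter.1 hi
            have := lay_unique hk6 hk4
            omega
          · have h8 := hmono (j+1) i h (hAn i hi).le
            have h9 := (ht j hjn).2
            linarith
      rw [g, if_pos hmem]
      have : (256:ℝ)^(k+1) = (C:ℝ) := by rw [hC]; push_cast; rfl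
      rw [this, hDcard]; ring
    · rw [if_neg (fun h => hg h.1), if_neg hg, mul_zero]
  have hfin := hcoord (Sum.inr (k, D))
  rw [if_neg (by simp), if_neg (by simp), hval] at hfin
  have hg1 := hsplit k
  have hgge : 1/5 ≤ ∑ i ∈ G k, w i := by linarith
  have h8 := (abs_lt.1 hfin).2
  nlinarith

theorem main :
    ¬ (∀ f : ℝ → ZeroAtInftyContinuousMap ℕ ℝ,
      (∃ M : ℝ, ∀ s ∈ Set.Icc (0:ℝ) 1, ‖f s‖ ≤ M) →
      Convex ℝ {v : ZeroAtInftyContinuousMap ℕ ℝ |
        ∃ (n : ℕ → ℕ) (x t : ℕ → ℕ → ℝ),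
          (∀ k, x k 0 = 0 ∧ x k (n k) = 1 ∧
            (∀ i, i < n k → x k i < x k (i+1)) ∧
            (∀ i, i < n k → x k i ≤ t k i ∧ t k i ≤ x k (i+1))) ∧
          (∀ ε : ℝ, 0 < ε → ∃ K : ℕ, ∀ k, K ≤ k → ∀ i, i < n k → x k (i+1) - x k i < ε) ∧
          Filter.Tendsto
            (fun k => ∑ i ∈ Finset.range (n k), (x k (i+1) - x k i) • f (t k i))
            Filter.atTop (nhds v)}) := by
  intro H
  have hconv := H F ⟨1, fun s _ => F_norm s⟩
  have hmem : ∀ (L : ℕ → ℕ), (∀ k, k ≤ L k) → (∀ k, par (L k) = par (L 0)) → v (par (L 0)) ∈ {v : ZeroAtInftyContinuousMap ℕ ℝ |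
        ∃ (n : ℕ → ℕ) (x t : ℕ → ℕ → ℝ),
          (∀ k, x k 0 = 0 ∧ x k (n k) = 1 ∧
            (∀ i, i < n k → x k i < x k (i+1)) ∧
            (∀ i, i < n k → x k i ≤ t k i ∧ t k i ≤ x k (i+1))) ∧
          (∀ ε : ℝ, 0 < ε → ∃ K : ℕ, ∀ k, K ≤ k → ∀ i, i < n k → x k (i+1) - x k i < ε) ∧
          Filter.Tendsto
            (fun k => ∑ i ∈ Finset.range (n k), (x k (i+1) - x k i) • F (t k i))
            Filter.atTop (nhds v)} := by
    intro L hL hpar
    refine ⟨fun k => 256^(L k), fun k i => (i:ℝ)/256^(L k), fun k i => tg (L k) i, ?_, ?_, ?_⟩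
    · intro k
      refine ⟨by simp, ?_, ?_, ?_⟩
      · push_cast
        field_simp
      · intro i _
        push_cast
        apply div_lt_div_of_pos_right _ (by positivity)
        linarith
      · intro i _
        unfold tg
        push_cast
        constructor
        · rw [div_le_div_iff₀ (by positivity) (by positivity)]
          have : (0:ℝ) < 256^(L k) := by positivity
          nlinarith
        · rw [div_le_div_iff₀ (by positivity) (by positivity)]
          have : (0:ℝ) < 256^(L k) := by positivity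
          nlinarith
    · intro ε hε
      have h1 : Tendsto (fun k : ℕ => (1/256:ℝ)^k) atTop (𝓝 0) :=
        tendsto_pow_atTop_nhds_zero_of_lt_one (by norm_num) (by norm_num)
      obtain ⟨K, hK⟩ := (h1.eventually (gt_mem_nhds hε)).exists_forall_of_atTop
      refine ⟨K, fun k hk i _ => ?_⟩
      have h2 : (((i+1 : ℕ)):ℝ)/256^(L k) - (i:ℝ)/256^(L k) = (1/256:ℝ)^(L k) := by
        push_cast
        rw [div_sub_div_same, add_sub_cancel_left, one_div_pow]
      rw [h2]
      exact hK (L k) (hk.trans (hL k))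
    · have h1 : ∀ k, ∑ i ∈ Finset.range (256^(L k)), ((((i+1 : ℕ)):ℝ)/256^(L k) - (i:ℝ)/256^(L k)) • F (tg (L k) i) = v (par (L 0)) := by
        intro k
        rw [← hpar k, ← SL_eq, SL]
        apply Finset.sum_congr rfl
        intro i _
        congr 1
        push_cast
        rw [div_sub_div_same, add_sub_cancel_left]
      exact tendsto_const_nhds.congr (fun k => (h1 k).symm)
  have hm1 := hmem (fun k => 2 * k) (fun k => by show k ≤ 2 * k; omega) (fun k => by simp [par])
  have hm2 := hmem (fun k => 2 * k + 1) (fun k => by show k ≤ 2 * k + 1; omega) (fun k => by simp [par])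
  have hp1 : par ((fun k => 2 * k) 0) = 1 := by simp [par]
  have hp2 : par ((fun k => 2 * k + 1) 0) = 2 := by simp [par]
  rw [hp1] at hm1
  rw [hp2] at hm2
  obtain ⟨n, x, t, hxt, -, hlim⟩ := hconv hm1 hm2 (show (0:ℝ) ≤ 1/2 by norm_num) (show (0:ℝ) ≤ 1/2 by norm_num) (by norm_num)
  rw [tendsto_iff_norm_sub_tendsto_zero] at hlim
  obtain ⟨k, hk⟩ := (hlim.eventually (gt_mem_nhds (show (0:ℝ) < 1/64 by norm_num))).exists
  obtain ⟨h0, h1, hx, ht⟩ := hxt k
  have := far (n k) (x k) (t k) h0 h1 hx ht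
  linarith

end Pool.Agent.RiemSum
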