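import Mathlib
import Pool.Agent.Lib.AntiSearch
set_option autoImplicit false
set_option maxHeartbeats 4000000

namespace Pool.Agent.SelfComp17

open Pool.Agent.AntiSearch

def M17 : List ℕ := [94266, 57461, 114922, 98773, 66475, 1879, 3758, 7516, 15032, 30064, 60128,
  120256, 109441, 87811, 44551, 89102, 47133]

def fin4 (l : List ℕ) : Bool :=
  (List.range 17).all fun i => l.getD (l.getD (l.getD (l.getD i 0) 0) 0) 0 == i

theorem search_true : search M17 17 fin4 17 [] = true := by decide +kernel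

def G17 : SimpleGraph (Fin 17) where
  Adj a b := adjM M17 a.val b.val = true
  symm := ⟨by decide +kernel⟩
  loopless := ⟨by decide +kernel⟩

instance : DecidableRel G17.Adj := fun a b => inferInstanceAs (Decidable (adjM M17 a.val b.val = true))

theorem reg : G17.IsRegularOfDegree 8 := by
  unfold SimpleGraph.IsRegularOfDegree
  decide +kernel

def perm9 : Equiv.Perm (Fin 17) where
  toFun x := 9 * x
  invFun x := 2 * x
  left_inv := by decide +kernel
  right_inv := by decide +kernel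

def iso9 : G17 ≃g G17ᶜ where
  toEquiv := perm9
  map_rel_iff' := by
    intro a b
    revert a b
    simp only [SimpleGraph.compl_adj]
    decide +kernel

theorem no_four (σ : G17 ≃g G17ᶜ) (h : ∀ v, σ (σ (σ (σ v))) = v) : False := by
  let s : ℕ → ℕ := fun i => if hi : i < 17 then (σ ⟨i, hi⟩).val else 0
  have hs : ∀ i (hi : i < 17), s i = (σ ⟨i, hi⟩).val := by
    intro i hi; simp [s, hi]
  have hlt : ∀ i, i < 17 → s i < 17 := by
    intro i hi; rw [hs i hi]; exact (σ ⟨i, hi⟩).isLt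
  have hinj : ∀ i j, i < j → j < 17 → s i ≠ s j := by
    intro i j hij hj h1
    rw [hs i (by omega), hs j hj] at h1
    have h2 := σ.injective (Fin.ext h1)
    have h3 : i = j := congrArg Fin.val h2
    omega
  have hadj : ∀ i j, i < j → j < 17 → adjM M17 i j ≠ adjM M17 (s i) (s j) := by
    intro i j hij hj h1
    rw [hs i (by omega), hs j hj] at h1
    have hi : i < 17 := by omega
    have h2 : G17ᶜ.Adj (σ ⟨i, hi⟩) (σ ⟨j, hj⟩) ↔ G17.Adj ⟨i, hi⟩ ⟨j, hj⟩ := σ.map_rel_iff
    have hne : (σ ⟨i, hi⟩) ≠ (σ ⟨j, hj⟩) := by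
      intro h3
      have h4 := σ.injective h3
      have h5 : i = j := congrArg Fin.val h4
      omega
    rw [SimpleGraph.compl_adj] at h2
    have h3 : G17.Adj ⟨i, hi⟩ ⟨j, hj⟩ ↔ G17.Adj (σ ⟨i, hi⟩) (σ ⟨j, hj⟩) := by
      change adjM M17 i j = true ↔ adjM M17 (σ ⟨i, hi⟩).val (σ ⟨j, hj⟩).val = true
      rw [h1]
    tauto
  have h1 := search_sound M17 17 fin4 s hlt hinj hadj 17 0 (by norm_num) (by simpa using search_true)
  have hget : ∀ i, i < 17 → ((List.range 17).map s).getD i 0 = s i := by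
    intro i hi
    rw [List.getD_eq_getElem _ _ (by simpa using hi)]
    simp
  have h2 : fin4 ((List.range 17).map s) = true := by
    unfold fin4
    rw [List.all_eq_true]
    intro i hi
    rw [List.mem_range] at hi
    rw [hget i hi, hget (s i) (hlt i hi), hget (s (s i)) (hlt _ (hlt i hi)),
      hget (s (s (s i))) (hlt _ (hlt _ (hlt i hi))), beq_iff_eq]
    have key := h ⟨i, hi⟩
    have e1 : s i = (σ ⟨i, hi⟩).val := hs i hi
    have e2 : s (s i) = (σ (σ ⟨i, hi⟩)).val := by
      rw [hs (s i) (hlt i hi)]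
      congr 2
      exact Fin.ext e1
    have e3 : s (s (s i)) = (σ (σ (σ ⟨i, hi⟩))).val := by
      rw [hs (s (s i)) (hlt _ (hlt i hi))]
      congr 2
      exact Fin.ext e2
    have e4 : s (s (s (s i))) = (σ (σ (σ (σ ⟨i, hi⟩)))).val := by
      rw [hs (s (s (s i))) (hlt _ (hlt _ (hlt i hi)))]
      congr 2
      exact Fin.ext e3
    rw [e4, key]
  rw [h1] at h2
  exact absurd h2 (by decide)

theorem frozen :
    ¬ (∀ (V : Type) [Fintype V] [DecidableEq V] (G : SimpleGraph V) [DecidableRel G.Adj],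
      (∃ d : ℕ, G.IsRegularOfDegree d) →
      Nonempty (G ≃g Gᶜ) →
      ∃ σ : G ≃g Gᶜ,
        (∀ u v : V, σ u = u → σ v = v → u = v) ∧
        (∀ v : V, σ v ≠ v → σ (σ v) ≠ v ∧ σ (σ (σ (σ v))) = v)) := by
  intro hall
  obtain ⟨σ, _, h⟩ := hall (Fin 17) G17 ⟨8, reg⟩ ⟨iso9⟩
  apply no_four σ
  intro v
  by_cases hv : σ v = v
  · rw [hv, hv, hv, hv]
  · exact (h v hv).2

end Pool.Agent.SelfComp17
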