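import Mathlib
set_option autoImplicit false
set_option maxHeartbeats 4000000

namespace Pool.Agent.SevenSq

open Finset

variable {G : Type} [Group G] [Fintype G]

/-- number of `x` whose colour agrees with that of `u² x` -/
def H (χ : G → Fin 2) (u : G) : ℕ := (univ.filter (fun x => χ (u * u * x) = χ x)).card

lemma H_eq (χ : G → Fin 2) (u p : G) :
    H χ u = ∑ x : G, if χ (u * u * (p * x)) = χ (p * x) then 1 else 0 := by
  unfold H
  rw [Finset.card_filter]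
  exact (Equiv.sum_comp (Equiv.mulLeft p) (fun x => if χ (u * u * x) = χ x then 1 else 0)).symm

lemma seven (χ : G → Fin 2) (a b c : G) :
    Fintype.card G ≤ H χ (c⁻¹ * b⁻¹ * a) + H χ (b * c) + H χ (b * c⁻¹ * b⁻¹)
      + H χ (b * a⁻¹ * c * b⁻¹) + H χ (b * a * b⁻¹) + H χ b⁻¹ + H χ (a⁻¹ * b) := by
  set u0 := c⁻¹ * b⁻¹ * a with hu0
  set u1 := b * c with hu1
  set u2 := b * c⁻¹ * b⁻¹ with hu2
  set u3 := b * a⁻¹ * c * b⁻¹ with hu3
  set u4 := b * a * b⁻¹ with hu4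
  set u5 := b⁻¹ with hu5
  set u6 := a⁻¹ * b with hu6
  rw [H_eq χ u0 1, H_eq χ u1 (u0 * u0), H_eq χ u2 (u1 * u1 * (u0 * u0)),
    H_eq χ u3 (u2 * u2 * (u1 * u1 * (u0 * u0))),
    H_eq χ u4 (u3 * u3 * (u2 * u2 * (u1 * u1 * (u0 * u0)))),
    H_eq χ u5 (u4 * u4 * (u3 * u3 * (u2 * u2 * (u1 * u1 * (u0 * u0))))),
    H_eq χ u6 (u5 * u5 * (u4 * u4 * (u3 * u3 * (u2 * u2 * (u1 * u1 * (u0 * u0)))))),
    ← Finset.sum_add_distrib, ← Finset.sum_add_distrib, ← Finset.sum_add_distrib,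
    ← Finset.sum_add_distrib, ← Finset.sum_add_distrib, ← Finset.sum_add_distrib,
    ← Finset.card_univ, Finset.card_eq_sum_ones]
  apply Finset.sum_le_sum
  intro x _
  have hprod : u6 * u6 * (u5 * u5 * (u4 * u4 * (u3 * u3 * (u2 * u2 * (u1 * u1 * (u0 * u0)))))) = 1 := by
    rw [hu0, hu1, hu2, hu3, hu4, hu5, hu6]; group
  have hlast : u6 * u6 * (u5 * u5 * (u4 * u4 * (u3 * u3 * (u2 * u2 * (u1 * u1 * (u0 * u0))))) * x) = x := by
    rw [← mul_assoc, hprod, one_mul]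
  rw [hlast]
  simp only [one_mul, mul_assoc]
  by_contra hcon
  push Not at hcon
  have hlt := Nat.lt_one_iff.mp hcon
  simp only [Nat.add_eq_zero_iff, ite_eq_right_iff, one_ne_zero, imp_false] at hlt
  obtain ⟨⟨⟨⟨⟨⟨h0, h1⟩, h2⟩, h3⟩, h4⟩, h5⟩, h6⟩ := hlt
  generalize χ x = y0 at *
  generalize χ (u0 * (u0 * x)) = y1 at *
  generalize χ (u1 * (u1 * (u0 * (u0 * x)))) = y2 at *
  generalize χ (u2 * (u2 * (u1 * (u1 * (u0 * (u0 * x)))))) = y3 at *
  generalize χ (u3 * (u3 * (u2 * (u2 * (u1 * (u1 * (u0 * (u0 * x)))))))) = y4 at *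
  generalize χ (u4 * (u4 * (u3 * (u3 * (u2 * (u2 * (u1 * (u1 * (u0 * (u0 * x)))))))))) = y5 at *
  generalize χ (u5 * (u5 * (u4 * (u4 * (u3 * (u3 * (u2 * (u2 * (u1 * (u1 * (u0 * (u0 * x)))))))))))) = y6 at *
  revert h0 h1 h2 h3 h4 h5 h6
  clear hcon
  revert y0 y1 y2 y3 y4 y5 y6
  decide


lemma sum_H_left (χ : G → Fin 2) (p q : G) : ∑ u : G, H χ (p * u * q) = ∑ u : G, H χ u := by
  have h1 : ∑ u : G, H χ (p * u * q) = ∑ u : G, H χ (u * q) :=
    Equiv.sum_comp (Equiv.mulLeft p) (fun u => H χ (u * q))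
  have h2 : ∑ u : G, H χ (u * q) = ∑ u : G, H χ u :=
    Equiv.sum_comp (Equiv.mulRight q) (fun u => H χ u)
  rw [h1, h2]

lemma sum_H_inv (χ : G → Fin 2) (p q : G) : ∑ u : G, H χ (p * u⁻¹ * q) = ∑ u : G, H χ u := by
  rw [← sum_H_left χ p q]
  exact Equiv.sum_comp (Equiv.inv G) (fun u => H χ (p * u * q))

lemma bound (χ : G → Fin 2) : Fintype.card G ^ 2 ≤ 7 * ∑ u : G, H χ u := by
  set n := Fintype.card G with hn
  have hnpos : 0 < n := Fintype.card_pos
  set T := ∑ u : G, H χ u with hT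
  have hsum : ∑ a : G, ∑ b : G, ∑ c : G, n ≤
      ∑ a : G, ∑ b : G, ∑ c : G, (H χ (c⁻¹ * b⁻¹ * a) + H χ (b * c) + H χ (b * c⁻¹ * b⁻¹)
      + H χ (b * a⁻¹ * c * b⁻¹) + H χ (b * a * b⁻¹) + H χ b⁻¹ + H χ (a⁻¹ * b)) :=
    Finset.sum_le_sum fun a _ => Finset.sum_le_sum fun b _ => Finset.sum_le_sum fun c _ =>
      seven χ a b c
  have hleft : ∑ _a : G, ∑ _b : G, ∑ _c : G, n = n ^ 4 := by
    simp only [Finset.sum_const, Finset.card_univ, smul_eq_mul, ← hn]; ring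
  have e0 : ∑ a : G, ∑ b : G, ∑ c : G, H χ (c⁻¹ * b⁻¹ * a) = n ^ 2 * T := by
    have : ∀ a b : G, ∑ c : G, H χ (c⁻¹ * b⁻¹ * a) = T := by
      intro a b
      have := sum_H_inv χ 1 (b⁻¹ * a)
      simp only [one_mul] at this
      simpa [mul_assoc] using this
    simp only [this, Finset.sum_const, Finset.card_univ, smul_eq_mul, ← hn]; ring
  have e1 : ∑ a : G, ∑ b : G, ∑ c : G, H χ (b * c) = n ^ 2 * T := by
    have : ∀ b : G, ∑ c : G, H χ (b * c) = T := by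
      intro b
      have := sum_H_left χ b 1
      simpa using this
    simp only [this, Finset.sum_const, Finset.card_univ, smul_eq_mul, ← hn]; ring
  have e2 : ∑ a : G, ∑ b : G, ∑ c : G, H χ (b * c⁻¹ * b⁻¹) = n ^ 2 * T := by
    have : ∀ b : G, ∑ c : G, H χ (b * c⁻¹ * b⁻¹) = T := fun b => sum_H_inv χ b b⁻¹
    simp only [this, Finset.sum_const, Finset.card_univ, smul_eq_mul, ← hn]; ring
  have e3 : ∑ a : G, ∑ b : G, ∑ c : G, H χ (b * a⁻¹ * c * b⁻¹) = n ^ 2 * T := by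
    have : ∀ a b : G, ∑ c : G, H χ (b * a⁻¹ * c * b⁻¹) = T := fun a b =>
      sum_H_left χ (b * a⁻¹) b⁻¹
    simp only [this, Finset.sum_const, Finset.card_univ, smul_eq_mul, ← hn]; ring
  have e4 : ∑ a : G, ∑ b : G, ∑ c : G, H χ (b * a * b⁻¹) = n ^ 2 * T := by
    rw [Finset.sum_comm]
    have : ∀ b : G, ∑ a : G, ∑ c : G, H χ (b * a * b⁻¹) = n * T := by
      intro b
      simp only [Finset.sum_const, Finset.card_univ, smul_eq_mul, ← hn, ← Finset.mul_sum]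
      rw [sum_H_left χ b b⁻¹]
    rw [Finset.sum_congr rfl (fun b _ => this b)]
    simp only [Finset.sum_const, Finset.card_univ, smul_eq_mul, ← hn]; ring
  have e5 : ∑ a : G, ∑ b : G, ∑ c : G, H χ b⁻¹ = n ^ 2 * T := by
    simp only [Finset.sum_const, Finset.card_univ, smul_eq_mul, ← hn, ← Finset.mul_sum]
    have := sum_H_inv χ 1 1
    simp only [one_mul, mul_one] at this
    rw [this]; ring
  have e6 : ∑ a : G, ∑ b : G, ∑ c : G, H χ (a⁻¹ * b) = n ^ 2 * T := by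
    have : ∀ a : G, ∑ b : G, H χ (a⁻¹ * b) = T := by
      intro a
      have := sum_H_left χ a⁻¹ 1
      simpa using this
    simp only [Finset.sum_const, Finset.card_univ, smul_eq_mul, ← hn, ← Finset.mul_sum, this]; ring
  simp only [Finset.sum_add_distrib] at hsum
  rw [e0, e1, e2, e3, e4, e5, e6, hleft] at hsum
  have h4 : n ^ 2 * n ^ 2 ≤ n ^ 2 * (7 * T) := by
    calc n ^ 2 * n ^ 2 = n ^ 4 := by ring
      _ ≤ _ := hsum
      _ = n ^ 2 * (7 * T) := by ring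
  exact Nat.le_of_mul_le_mul_left h4 (by positivity)

/-- number of `x` with the same colour as its reflection about `g` -/
def R (χ : G → Fin 2) (g : G) : ℕ := (univ.filter (fun x => χ (g * x⁻¹ * g) = χ x)).card

lemma sum_R (χ : G → Fin 2) : ∑ g : G, R χ g = ∑ u : G, H χ u := by
  unfold R H
  simp_rw [Finset.card_filter]
  rw [Finset.sum_comm, Finset.sum_comm (f := fun u x => if χ (u * u * x) = χ x then 1 else 0)]
  apply Finset.sum_congr rfl
  intro x _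
  rw [← Equiv.sum_comp (Equiv.mulRight x)]
  apply Finset.sum_congr rfl
  intro u _
  have : u * x * x⁻¹ * (u * x) = u * u * x := by group
  simp only [Equiv.coe_mulRight, this]

lemma exists_R (χ : G → Fin 2) : ∃ g : G, Fintype.card G ≤ 7 * R χ g := by
  by_contra hcon
  push Not at hcon
  have h1 : ∑ g : G, 7 * R χ g < ∑ _g : G, Fintype.card G :=
    Finset.sum_lt_sum_of_nonempty ⟨1, Finset.mem_univ 1⟩ (fun g _ => hcon g)
  rw [← Finset.mul_sum, sum_R, Finset.sum_const, Finset.card_univ, smul_eq_mul] at h1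
  have := bound χ
  rw [sq] at this
  omega

theorem frozen :
    ¬ (∀ ε : ℝ, 0 < ε → ∀ r : ℕ, 1 < r →
      ∃ (G : Type) (_ : Group G) (_ : Fintype G), ∃ χ : G → Fin r,
        ∀ c : G, ∀ i : Fin r,
          ((Finset.univ.filter (fun x : G => χ x = i ∧ χ (c * x⁻¹ * c) = i)).card : ℝ)
            < ε * (Fintype.card G : ℝ)) := by
  intro hall
  obtain ⟨G, _, _, χ, hχ⟩ := hall (1 / 14) (by norm_num) 2 (by norm_num)
  obtain ⟨g, hg⟩ := exists_R χ
  have hR : R χ g = (Finset.univ.filter (fun x : G => χ x = 0 ∧ χ (g * x⁻¹ * g) = 0)).card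
      + (Finset.univ.filter (fun x : G => χ x = 1 ∧ χ (g * x⁻¹ * g) = 1)).card := by
    unfold R
    rw [Finset.card_filter, Finset.card_filter, Finset.card_filter, ← Finset.sum_add_distrib]
    apply Finset.sum_congr rfl
    intro x _
    generalize χ x = p
    generalize χ (g * x⁻¹ * g) = q
    revert p q
    decide
  have h0 := hχ g 0
  have h1 := hχ g 1
  have h2 : ((Fintype.card G : ℕ) : ℝ) ≤ ((7 * R χ g : ℕ) : ℝ) := by exact_mod_cast hg
  rw [hR] at h2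
  push_cast at h2
  linarith

end Pool.Agent.SevenSq
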