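import Mathlib
set_option autoImplicit false
set_option maxHeartbeats 4000000

open Filter Topology

namespace Pool.Agent.SimIsom

noncomputable abbrev H := lp (fun _ : ℕ => ℂ) 2

lemma norm_sq (x : H) : ‖x‖ ^ 2 = ∑' n, ‖x n‖ ^ 2 := by
  have := lp.norm_rpow_eq_tsum (p := 2) (by norm_num) x
  simpa using this

lemma summ (x : H) : Summable (fun n => ‖x n‖ ^ 2) := by
  have := (lp.memℓp x).summable (by norm_num)
  simpa using this

lemma mem_of_summ (f : ℕ → ℂ) (h : Summable (fun n => ‖f n‖ ^ 2)) : Memℓp f 2 := by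
  apply memℓp_gen
  simpa using h

lemma diag_summ (d : ℕ → ℂ) (C : ℝ) (hd : ∀ n, ‖d n‖ ≤ C) (x : H) :
    Summable (fun n => ‖d n * x n‖ ^ 2) := by
  apply Summable.of_nonneg_of_le (fun n => by positivity) _ ((summ x).mul_left (C ^ 2))
  intro n
  rw [norm_mul, mul_pow]
  exact mul_le_mul_of_nonneg_right (pow_le_pow_left₀ (norm_nonneg _) (hd n) 2) (by positivity)

/-- diagonal operators -/
noncomputable def diag (d : ℕ → ℂ) (C : ℝ) (hd : ∀ n, ‖d n‖ ≤ C) : H →L[ℂ] H :=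
  LinearMap.mkContinuous
    { toFun := fun x => ⟨fun n => d n * x n, mem_of_summ _ (diag_summ d C hd x)⟩
      map_add' := by
        intro x y
        ext n
        show d n * (x n + y n) = d n * x n + d n * y n
        ring
      map_smul' := by
        intro c x
        ext n
        simp [mul_left_comm] } C (by
    intro x
    have hC : 0 ≤ C := (norm_nonneg _).trans (hd 0)
    apply le_of_sq_le_sq _ (by positivity)
    rw [norm_sq, mul_pow, norm_sq, ← tsum_mul_left]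
    apply Summable.tsum_le_tsum _ (diag_summ d C hd x) ((summ x).mul_left (C ^ 2))
    intro n
    show ‖d n * x n‖ ^ 2 ≤ _
    rw [norm_mul, mul_pow]
    exact mul_le_mul_of_nonneg_right (pow_le_pow_left₀ (norm_nonneg _) (hd n) 2) (by positivity))

lemma diag_apply (d : ℕ → ℂ) (C : ℝ) (hd : ∀ n, ‖d n‖ ≤ C) (x : H) (n : ℕ) :
    (diag d C hd x) n = d n * x n := rfl

lemma diag_norm (d : ℕ → ℂ) (C : ℝ) (hd : ∀ n, ‖d n‖ ≤ C) : ‖diag d C hd‖ ≤ C :=
  LinearMap.mkContinuous_norm_le _ ((norm_nonneg _).trans (hd 0)) _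

def sf (x : ℕ → ℂ) (n : ℕ) : ℂ := if n < 2 then 0 else x (n - 2)

lemma sf_hasSum (x : H) : HasSum (fun n => ‖sf x n‖ ^ 2) (‖x‖ ^ 2) := by
  rw [norm_sq]
  have h := (summ x).hasSum
  rw [← hasSum_nat_add_iff' 2]
  simp [sf, Finset.sum_range_succ]
  exact h

/-- the shift by two -/
noncomputable def S : H →L[ℂ] H :=
  LinearMap.mkContinuous
    { toFun := fun x => ⟨sf x, mem_of_summ _ (sf_hasSum x).summable⟩
      map_add' := by
        intro x y
        ext n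
        simp only [sf, lp.coeFn_add, Pi.add_apply]
        split_ifs <;> simp
      map_smul' := by
        intro c x
        ext n
        simp only [sf, lp.coeFn_smul, Pi.smul_apply, RingHom.id_apply]
        split_ifs <;> simp } 1 (by
    intro x
    apply le_of_sq_le_sq _ (by positivity)
    rw [norm_sq, one_mul]
    exact (sf_hasSum x).tsum_eq.le)

lemma S_apply (x : H) (n : ℕ) : (S x) n = if n < 2 then 0 else x (n - 2) := rfl

lemma S_norm (x : H) : ‖S x‖ = ‖x‖ := by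
  have h : ‖S x‖ ^ 2 = ‖x‖ ^ 2 := by
    rw [norm_sq]
    exact (sf_hasSum x).tsum_eq
  exact (pow_left_inj₀ (norm_nonneg _) (norm_nonneg _) (by norm_num)).mp h

noncomputable def l : ℕ → ℂ := fun n => if n = 0 then 1 / 2 else if n = 1 then 2 else 1
noncomputable def li : ℕ → ℂ := fun n => if n = 0 then 2 else if n = 1 then 1 / 2 else 1
noncomputable def m : ℕ → ℂ := fun n => if n = 0 then 1 else if n = 1 then 2 else if n % 2 = 0 then 2 else 1
noncomputable def mi : ℕ → ℂ :=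
  fun n => if n = 0 then 1 else if n = 1 then 1 / 2 else if n % 2 = 0 then 1 / 2 else 1

lemma hl (n : ℕ) : ‖l n‖ ≤ 2 := by unfold l; split_ifs <;> norm_num
lemma hli (n : ℕ) : ‖li n‖ ≤ 2 := by unfold li; split_ifs <;> norm_num
lemma hm (n : ℕ) : ‖m n‖ ≤ 2 := by unfold m; split_ifs <;> norm_num
lemma hmi (n : ℕ) : ‖mi n‖ ≤ 1 := by unfold mi; split_ifs <;> norm_num

lemma ext' {x y : H} (h : ∀ n, x n = y n) : x = y := by
  apply Subtype.ext
  funext n
  exact h n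

noncomputable def L : (H →L[ℂ] H)ˣ where
  val := diag l 2 hl
  inv := diag li 2 hli
  val_inv := by
    ext1 x
    apply ext'
    intro n
    show l n * (li n * x n) = x n
    rw [← mul_assoc]
    have : l n * li n = 1 := by unfold l li; split_ifs <;> norm_num
    rw [this, one_mul]
  inv_val := by
    ext1 x
    apply ext'
    intro n
    show li n * (l n * x n) = x n
    rw [← mul_assoc]
    have : li n * l n = 1 := by unfold l li; split_ifs <;> norm_num
    rw [this, one_mul]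

noncomputable def M : (H →L[ℂ] H)ˣ where
  val := diag m 2 hm
  inv := diag mi 1 hmi
  val_inv := by
    ext1 x
    apply ext'
    intro n
    show m n * (mi n * x n) = x n
    rw [← mul_assoc]
    have : m n * mi n = 1 := by unfold m mi; split_ifs <;> norm_num
    rw [this, one_mul]
  inv_val := by
    ext1 x
    apply ext'
    intro n
    show mi n * (m n * x n) = x n
    rw [← mul_assoc]
    have : mi n * m n = 1 := by unfold m mi; split_ifs <;> norm_num
    rw [this, one_mul]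

noncomputable def T : H →L[ℂ] H := (↑L⁻¹ : H →L[ℂ] H) * S * (↑L : H →L[ℂ] H)

lemma T_M : T = (↑M⁻¹ : H →L[ℂ] H) * S * (↑M : H →L[ℂ] H) := by
  ext1 x
  apply ext'
  intro n
  show li n * (if n < 2 then 0 else l (n - 2) * x (n - 2)) =
    mi n * (if n < 2 then 0 else m (n - 2) * x (n - 2))
  split_ifs with h
  · simp
  · rw [← mul_assoc, ← mul_assoc]
    congr 1
    obtain ⟨k, rfl⟩ : ∃ k, n = k + 2 := ⟨n - 2, by omega⟩
    simp only [Nat.add_sub_cancel]
    have e1 : (k + 2) % 2 = k % 2 := by omega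
    unfold l li m mi
    rw [e1]
    rcases Nat.eq_zero_or_pos k with rfl | hk
    · norm_num
    · by_cases h1 : k = 1
      · subst h1; norm_num
      · simp only [show ¬ (k + 2 = 0) by omega, show ¬ (k + 2 = 1) by omega, show ¬ (k = 0) by omega,
          h1, if_false]
        split_ifs <;> norm_num

lemma T_pow (n : ℕ) (x : H) : ‖(T ^ (n + 1)) x‖ = ‖(↑L : H →L[ℂ] H) x‖ := by
  have h1 : T ^ (n + 1) = (↑L⁻¹ : H →L[ℂ] H) * S ^ (n + 1) * (↑L : H →L[ℂ] H) := by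
    rw [T, Units.conj_pow']
  have h2 : ∀ y : H, (↑L⁻¹ : H →L[ℂ] H) (S y) = S y := by
    intro y
    apply ext'
    intro k
    show li k * (if k < 2 then 0 else y (k - 2)) = if k < 2 then 0 else y (k - 2)
    split_ifs with h
    · simp
    · simp [li, show ¬ (k = 0) by omega, show ¬ (k = 1) by omega]
  have h3 : ∀ (k : ℕ) (y : H), ‖(S ^ k) y‖ = ‖y‖ := by
    intro k
    induction k with
    | zero => intro y; simp
    | succ k ih =>
      intro y
      rw [pow_succ']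
      show ‖S ((S ^ k) y)‖ = _
      rw [S_norm, ih]
  rw [h1, pow_succ']
  show ‖(↑L⁻¹ : H →L[ℂ] H) (S ((S ^ n) ((↑L : H →L[ℂ] H) x)))‖ = _
  rw [h2, S_norm, h3]

theorem main : ¬ (∀ (H : Type) [NormedAddCommGroup H] [InnerProductSpace ℂ H] [CompleteSpace H]
      (T S : H →L[ℂ] H) (L : (H →L[ℂ] H)ˣ),
      (∀ x : H, ‖S x‖ = ‖x‖) →
      T = (↑L⁻¹ : H →L[ℂ] H) * S * (↑L : H →L[ℂ] H) →
      (∀ x : H, Tendsto (fun n : ℕ => ‖(T ^ n) x‖) atTop (𝓝 ‖(↑L : H →L[ℂ] H) x‖)) →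
      ‖(↑L : H →L[ℂ] H)‖ * ‖(↑L⁻¹ : H →L[ℂ] H)‖ =
        sInf {r : ℝ | ∃ (M : (H →L[ℂ] H)ˣ) (S' : H →L[ℂ] H),
          (∀ x : H, ‖S' x‖ = ‖x‖) ∧
          T = (↑M⁻¹ : H →L[ℂ] H) * S' * (↑M : H →L[ℂ] H) ∧
          r = ‖(↑M : H →L[ℂ] H)‖ * ‖(↑M⁻¹ : H →L[ℂ] H)‖}) := by
  intro hyp
  have key := hyp H T S L S_norm rfl (by
    intro x
    rw [← tendsto_add_atTop_iff_nat 1]
    simp only [T_pow]
    exact tendsto_const_nhds)
  have h1 : (2 : ℝ) ≤ ‖(↑L : H →L[ℂ] H)‖ := by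
    have h := (↑L : H →L[ℂ] H).le_opNorm (lp.single 2 1 (1 : ℂ))
    have e : (↑L : H →L[ℂ] H) (lp.single 2 1 (1 : ℂ)) = (2 : ℂ) • lp.single 2 1 (1 : ℂ) := by
      apply ext'
      intro n
      show l n * (lp.single 2 1 (1 : ℂ) : H) n = 2 * (lp.single 2 1 (1 : ℂ) : H) n
      by_cases hn : n = 1
      · subst hn; simp [l]
      · rw [lp.single_apply_ne _ _ _ hn]; simp
    rw [e, norm_smul, lp.norm_single (by norm_num)] at h
    simpa using h
  have h2 : (2 : ℝ) ≤ ‖(↑L⁻¹ : H →L[ℂ] H)‖ := by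
    have h := (↑L⁻¹ : H →L[ℂ] H).le_opNorm (lp.single 2 0 (1 : ℂ))
    have e : (↑L⁻¹ : H →L[ℂ] H) (lp.single 2 0 (1 : ℂ)) = (2 : ℂ) • lp.single 2 0 (1 : ℂ) := by
      apply ext'
      intro n
      show li n * (lp.single 2 0 (1 : ℂ) : H) n = 2 * (lp.single 2 0 (1 : ℂ) : H) n
      by_cases hn : n = 0
      · subst hn; simp [li]
      · rw [lp.single_apply_ne _ _ _ hn]; simp
    rw [e, norm_smul, lp.norm_single (by norm_num)] at h
    simpa using h
  have h3 : sInf {r : ℝ | ∃ (M : (H →L[ℂ] H)ˣ) (S' : H →L[ℂ] H),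
          (∀ x : H, ‖S' x‖ = ‖x‖) ∧
          T = (↑M⁻¹ : H →L[ℂ] H) * S' * (↑M : H →L[ℂ] H) ∧
          r = ‖(↑M : H →L[ℂ] H)‖ * ‖(↑M⁻¹ : H →L[ℂ] H)‖} ≤ 
          ‖(↑M : H →L[ℂ] H)‖ * ‖(↑M⁻¹ : H →L[ℂ] H)‖ := by
    apply csInf_le
    · refine ⟨0, ?_⟩
      rintro r ⟨M', S', -, -, rfl⟩
      positivity
    · exact ⟨M, S, S_norm, T_M, rfl⟩
  have h4 : ‖(↑M : H →L[ℂ] H)‖ ≤ 2 := diag_norm m 2 hm
  have h5 : ‖(↑M⁻¹ : H →L[ℂ] H)‖ ≤ 1 := diag_norm mi 1 hmi
  rw [← key] at h3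
  have h6 : ‖(↑M : H →L[ℂ] H)‖ * ‖(↑M⁻¹ : H →L[ℂ] H)‖ ≤ 2 * 1 :=
    mul_le_mul h4 h5 (norm_nonneg _) (by norm_num)
  nlinarith [norm_nonneg (↑L : H →L[ℂ] H), norm_nonneg (↑L⁻¹ : H →L[ℂ] H)]

end Pool.Agent.SimIsom
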