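import Mathlib

set_option autoImplicit false

namespace Pool.Agent.Sperner17

open Finset

/-- 66 of the 68 blocks of the inversive plane `S(3,5,17)`, as bit masks. -/
def L : List ℕ := [661, 1828, 2149, 2840, 3457, 3650, 4262, 4929, 5169, 5196, 6155, 6352, 8281,
  9090, 9223, 9440, 10290, 10380, 12564, 12840, 16553, 16659, 16836, 16910, 17008, 19476, 22144,
  22816, 25864, 27137, 28738, 32854, 33037, 33200, 33315, 33480, 35880, 38146, 39428, 42512,
  43328, 45185, 50241, 51330, 53272, 57380, 65596, 65731, 66896, 67081, 67846, 68256, 70024,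
  70162, 74017, 74308, 80896, 82978, 84040, 86021, 90256, 99460, 100369, 102496, 106506, 115456]

/-- the block with mask `m`. -/
def blk (m : ℕ) : Finset (Fin 17) := univ.filter (fun x => m.testBit x.val = true)

/-- the two deleted blocks -/
def K1 : Finset (Fin 17) := blk 362
def K2 : Finset (Fin 17) := blk 1178

lemma mem_blk {m : ℕ} {x : Fin 17} : x ∈ blk m ↔ m.testBit x.val = true := by
  simp [blk]

def has (m : ℕ) (a b c : Fin 17) : Bool := m.testBit a.val && m.testBit b.val && m.testBit c.val

/-- Number of remaining blocks containing a triple. -/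
def cnt (a b c : Fin 17) : ℕ := (L.filter (fun m => has m a b c)).length

lemma key : ∀ a b c : Fin 17, a ≠ b → a ≠ c → b ≠ c →
    cnt a b c = if (has 362 a b c || has 1178 a b c) then 0 else 1 := by
  decide +kernel

end Pool.Agent.Sperner17
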