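import Mathlib
import Pool.Agent.Lib.Sperner17

set_option autoImplicit false

namespace Pool.Agent.Sperner17

open Finset

lemma has_iff {m : ℕ} {a b c : Fin 17} : has m a b c = true ↔ ({a, b, c} : Finset (Fin 17)) ⊆ blk m := by
  simp [has, Finset.insert_subset_iff, mem_blk, and_assoc]

lemma uniq {I : Finset (Fin 17)} (hI : I.card = 3) {m m' : ℕ} (hm : m ∈ L) (hm' : m' ∈ L)
    (h : I ⊆ blk m) (h' : I ⊆ blk m') : m = m' := by
  obtain ⟨a, b, c, hab, hac, hbc, rfl⟩ := Finset.card_eq_three.1 hI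
  have k := key a b c hab hac hbc
  have hle : (L.filter (fun m => has m a b c)).length ≤ 1 := by
    change cnt a b c ≤ 1
    rw [k]; split <;> omega
  have h1 : m ∈ L.filter (fun m => has m a b c) := by
    simp [List.mem_filter, hm, has_iff.2 h]
  have h2 : m' ∈ L.filter (fun m => has m a b c) := by
    simp [List.mem_filter, hm', has_iff.2 h']
  generalize L.filter (fun m => has m a b c) = l at hle h1 h2
  match l, hle, h1, h2 with
  | [], _, h1, _ => simp at h1
  | [x], _, h1, h2 => simp at h1 h2; rw [h1, h2]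
  | x :: y :: t, hle, _, _ => simp at hle

lemma cover {I : Finset (Fin 17)} (hI : I.card = 3) (h : ∀ m ∈ L, ¬ I ⊆ blk m) :
    I ⊆ K1 ∨ I ⊆ K2 := by
  obtain ⟨a, b, c, hab, hac, hbc, rfl⟩ := Finset.card_eq_three.1 hI
  have k := key a b c hab hac hbc
  by_contra hcon
  push Not at hcon
  have h1 : has 362 a b c = false := by
    rw [Bool.eq_false_iff]; intro h; exact hcon.1 (has_iff.1 h)
  have h2 : has 1178 a b c = false := by
    rw [Bool.eq_false_iff]; intro h; exact hcon.2 (has_iff.1 h)
  simp only [h1, h2, Bool.or_self, Bool.false_eq_true, if_false] at k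
  unfold cnt at k
  obtain ⟨m, hm⟩ := List.length_eq_one_iff.1 k
  have hm' : m ∈ L.filter (fun m => has m a b c) := by rw [hm]; simp
  rw [List.mem_filter] at hm'
  exact h m hm'.1 (has_iff.1 hm'.2)

lemma nocover {I : Finset (Fin 17)} (hI : I.card = 3) (h : I ⊆ K1 ∨ I ⊆ K2) :
    ∀ m ∈ L, ¬ I ⊆ blk m := by
  obtain ⟨a, b, c, hab, hac, hbc, rfl⟩ := Finset.card_eq_three.1 hI
  have k := key a b c hab hac hbc
  have h1 : (has 362 a b c || has 1178 a b c) = true := by
    rcases h with h | h
    · rw [has_iff.2 h]; rfl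
    · rw [(has_iff (m := 1178)).2 h]; simp
  rw [if_pos h1] at k
  unfold cnt at k
  intro m hm hcon
  have hm' : m ∈ L.filter (fun m => has m a b c) := by
    simp [List.mem_filter, hm, has_iff.2 hcon]
  rw [List.length_eq_zero_iff.1 k] at hm'
  simp at hm'

/-- Independent sets of our rank 4 paving matroid. -/
def Ind (I : Finset (Fin 17)) : Prop := I.card ≤ 4 ∧ (I.card = 4 → ∀ m ∈ L, ¬ I ⊆ blk m)

lemma ind_of_le {I : Finset (Fin 17)} (h : I.card ≤ 3) : Ind I := ⟨by omega, by omega⟩

lemma ind_empty : Ind ∅ := ind_of_le (by simp)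

lemma ind_subset : ∀ ⦃I J : Finset (Fin 17)⦄, Ind J → I ⊆ J → Ind I := by
  intro I J hJ hIJ
  have hc := Finset.card_le_card hIJ
  refine ⟨hc.trans hJ.1, fun h4 => ?_⟩
  have : I = J := Finset.eq_of_subset_of_card_le hIJ (by have := hJ.1; omega)
  subst this
  exact hJ.2 h4

lemma ind_aug : ∀ ⦃I J : Finset (Fin 17)⦄, Ind I → Ind J → I.card < J.card →
    ∃ e ∈ J, e ∉ I ∧ Ind (insert e I) := by
  intro I J hI hJ hlt
  by_cases h3 : I.card < 3
  · obtain ⟨e, heJ, heI⟩ := Finset.exists_mem_notMem_of_card_lt_card hlt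
    exact ⟨e, heJ, heI, ind_of_le (by rw [Finset.card_insert_of_notMem heI]; omega)⟩
  · have hJ4 := hJ.1
    have hI3 : I.card = 3 := by omega
    have hJ4' : J.card = 4 := by omega
    by_cases hb : ∃ m ∈ L, I ⊆ blk m
    · obtain ⟨m, hm, hIm⟩ := hb
      have hJm := hJ.2 hJ4' m hm
      obtain ⟨e, heJ, hem⟩ := Finset.not_subset.1 hJm
      have heI : e ∉ I := fun h => hem (hIm h)
      refine ⟨e, heJ, heI, ⟨by rw [Finset.card_insert_of_notMem heI]; omega, fun _ m' hm' hcon => ?_⟩⟩
      have hs := Finset.insert_subset_iff.1 hcon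
      have := uniq hI3 hm hm' hIm hs.2
      subst this
      exact hem hs.1
    · push Not at hb
      obtain ⟨e, heJ, heI⟩ := Finset.exists_mem_notMem_of_card_lt_card hlt
      refine ⟨e, heJ, heI, ⟨by rw [Finset.card_insert_of_notMem heI]; omega, fun _ m' hm' hcon => ?_⟩⟩
      exact hb m' hm' (Finset.insert_subset_iff.1 hcon).2

lemma ind_ground : ∀ ⦃I : Finset (Fin 17)⦄, Ind I → (I : Set (Fin 17)) ⊆ Set.univ := by
  intro I _; simp

def IM : IndepMatroid (Fin 17) :=
  IndepMatroid.ofFinset Set.univ Ind ind_empty ind_subset ind_aug ind_ground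

def M : Matroid (Fin 17) := IM.matroid

lemma M_E : M.E = Set.univ := rfl

lemma M_indep (I : Finset (Fin 17)) : M.Indep (I : Set (Fin 17)) ↔ Ind I :=
  IndepMatroid.ofFinset_indep Set.univ Ind ind_empty ind_subset ind_aug ind_ground

/-- every set is the coercion of a finset -/
lemma ex_finset (X : Set (Fin 17)) : ∃ I : Finset (Fin 17), (I : Set (Fin 17)) = X :=
  ⟨X.toFinite.toFinset, by simp⟩

lemma rank_le (X : Set (Fin 17)) : M.eRk X ≤ 4 := by
  rw [Matroid.eRk_le_iff]
  intro I _ hI
  obtain ⟨J, rfl⟩ := ex_finset I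
  rw [M_indep] at hI
  rw [Set.encard_coe_eq_coe_finsetCard]
  exact_mod_cast hI.1

lemma paving (C : Set (Fin 17)) (hC : M.IsCircuit C) : M.eRk M.E ≤ C.encard := by
  refine (rank_le _).trans ?_
  obtain ⟨J, rfl⟩ := ex_finset C
  have h := hC.not_indep
  rw [M_indep] at h
  rw [Set.encard_coe_eq_coe_finsetCard]
  by_contra hcon
  apply h
  apply ind_of_le
  have : ((J.card : ℕ∞)) < 4 := not_le.1 hcon
  have : J.card < 4 := by exact_mod_cast this
  omega

lemma flat_of (I : Finset (Fin 17)) (hI : Ind I) (h : ∀ x ∉ I, Ind (insert x I)) :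
    M.IsFlat (I : Set (Fin 17)) := by
  rw [Matroid.isFlat_iff_closure_eq]
  apply Set.Subset.antisymm
  · intro x hx
    by_contra hxI
    have hMI : M.Indep (I : Set (Fin 17)) := (M_indep I).2 hI
    rw [hMI.mem_closure_iff_of_notMem hxI] at hx
    apply hx.not_indep
    have := (M_indep (insert x I)).2 (h x (by simpa using hxI))
    simpa using this
  · exact M.subset_closure _ (by rw [M_E]; exact Set.subset_univ _)

lemma flat2 (I : Finset (Fin 17)) (h : I.card = 2) : M.IsFlat (I : Set (Fin 17)) :=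
  flat_of I (ind_of_le (by omega)) (fun x hx => ind_of_le (by
    rw [Finset.card_insert_of_notMem hx]; omega))

lemma flat3 (I : Finset (Fin 17)) (h : I.card = 3) (hK : I ⊆ K1 ∨ I ⊆ K2) :
    M.IsFlat (I : Set (Fin 17)) :=
  flat_of I (ind_of_le (by omega)) (fun x hx => ⟨by
    rw [Finset.card_insert_of_notMem hx]; omega, fun _ m hm hcon =>
      nocover h hK m hm (Finset.insert_subset_iff.1 hcon).2⟩)

/-- closure description -/
lemma mem_cl (I : Finset (Fin 17)) (hI : Ind I) (x : Fin 17) :
    x ∈ M.closure (I : Set (Fin 17)) ↔ (x ∈ I ∨ ¬ Ind (insert x I)) := by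
  have hMI : M.Indep (I : Set (Fin 17)) := (M_indep I).2 hI
  by_cases hx : x ∈ I
  · simp only [hx, true_or, iff_true]
    exact M.subset_closure _ (by rw [M_E]; exact Set.subset_univ _) (by simpa using hx)
  · rw [hMI.mem_closure_iff_of_notMem (by simpa using hx), Matroid.dep_iff]
    have : (insert x (I : Set (Fin 17))) = ((insert x I : Finset (Fin 17)) : Set (Fin 17)) := by simp
    rw [this, M_indep, M_E]
    simp [hx]

/-- every flat of rank `k` is closure of an independent finset of size `k`. -/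
lemma flat_basis (F : Set (Fin 17)) (k : ℕ) (hF : M.IsFlat F) (hk : M.eRk F = (k : ℕ∞)) :
    ∃ I : Finset (Fin 17), I.card = k ∧ Ind I ∧ M.closure (I : Set (Fin 17)) = F := by
  obtain ⟨B, hB⟩ := M.exists_isBasis F (by rw [M_E]; exact Set.subset_univ _)
  obtain ⟨J, rfl⟩ := ex_finset B
  refine ⟨J, ?_, (M_indep J).1 hB.indep, ?_⟩
  · have := hB.encard_eq_eRk
    rw [hk, Set.encard_coe_eq_coe_finsetCard] at this
    exact_mod_cast this
  · rw [hB.closure_eq_closure, hF.closure]

lemma cl3_block (I : Finset (Fin 17)) (h3 : I.card = 3) (m : ℕ) (hm : m ∈ L) (hI : I ⊆ blk m) :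
    M.closure (I : Set (Fin 17)) = (blk m : Set (Fin 17)) := by
  ext x
  rw [mem_cl I (ind_of_le (by omega))]
  constructor
  · rintro (hx | hx)
    · exact_mod_cast hI hx
    · by_contra hxm
      have hxm' : x ∉ blk m := by simpa using hxm
      have hxI : x ∉ I := fun h => hxm' (hI h)
      apply hx
      refine ⟨by rw [Finset.card_insert_of_notMem hxI]; omega, fun _ m' hm' hcon => ?_⟩
      have hs := Finset.insert_subset_iff.1 hcon
      have := uniq h3 hm hm' hI hs.2
      subst this
      exact hxm' hs.1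
  · intro hx
    have hx' : x ∈ blk m := by simpa using hx
    by_cases hxI : x ∈ I
    · exact Or.inl hxI
    · right
      intro hcon
      exact hcon.2 (by rw [Finset.card_insert_of_notMem hxI]; omega) m hm
        (Finset.insert_subset_iff.2 ⟨hx', hI⟩)

lemma flat3_cases (F : Set (Fin 17)) (hF : M.IsFlat F) (hk : M.eRk F = ((3 : ℕ) : ℕ∞)) :
    F ∈ ((fun s : Finset (Fin 17) => (s : Set (Fin 17))) ''
      (((L.map blk).toFinset ∪ (powersetCard 3 K1 ∪ powersetCard 3 K2) :
        Finset (Finset (Fin 17))) : Set (Finset (Fin 17)))) := by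
  obtain ⟨I, hI3, hI, hcl⟩ := flat_basis F 3 hF hk
  by_cases hb : ∃ m ∈ L, I ⊆ blk m
  · obtain ⟨m, hm, hIm⟩ := hb
    refine ⟨blk m, ?_, ?_⟩
    · simp only [Finset.coe_union, Set.mem_union, Finset.mem_coe]
      left
      simp only [List.mem_toFinset, List.mem_map]
      exact ⟨m, hm, rfl⟩
    · rw [← hcl]
      exact (cl3_block I hI3 m hm hIm).symm
  · push Not at hb
    have hc := cover hI3 hb
    refine ⟨I, ?_, ?_⟩
    · simp only [Finset.coe_union, Set.mem_union, Finset.mem_coe, mem_powersetCard]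
      right
      rcases hc with h | h
      · left; exact ⟨h, hI3⟩
      · right; exact ⟨h, hI3⟩
    · rw [← hcl]
      exact (flat3 I hI3 hc).closure.symm

lemma cardK1 : K1.card = 5 := by decide +kernel
lemma cardK2 : K2.card = 5 := by decide +kernel
lemma cardK12 : (K1 ∩ K2).card = 2 := by decide +kernel

lemma lvl3 : {F : Set (Fin 17) | M.IsFlat F ∧ M.eRk F = ((3 : ℕ) : ℕ∞)}.ncard ≤ 136 := by
  refine (Set.ncard_le_ncard (fun F hF => flat3_cases F hF.1 hF.2) (Set.toFinite _)).trans ?_
  refine (Set.ncard_image_le (Set.toFinite _)).trans ?_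
  rw [Set.ncard_coe_finset]
  refine (Finset.card_union_le _ _).trans ?_
  have h1 : (L.map blk).toFinset.card ≤ 66 := (List.toFinset_card_le _).trans (by simp [L])
  have h2 : (powersetCard 3 K1 ∪ powersetCard 3 K2).card ≤ 20 := by
    refine (Finset.card_union_le _ _).trans ?_
    rw [card_powersetCard, card_powersetCard, cardK1, cardK2]
    decide
  omega

lemma lvl_small (k : ℕ) (hk : k ≤ 2) :
    {F : Set (Fin 17) | M.IsFlat F ∧ M.eRk F = (k : ℕ∞)}.ncard ≤ 136 := by
  have hsub : {F : Set (Fin 17) | M.IsFlat F ∧ M.eRk F = (k : ℕ∞)} ⊆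
      (fun I : Finset (Fin 17) => M.closure (I : Set (Fin 17))) ''
        ((powersetCard k univ : Finset (Finset (Fin 17))) : Set (Finset (Fin 17))) := by
    intro F hF
    obtain ⟨I, hI, _, hcl⟩ := flat_basis F k hF.1 hF.2
    exact ⟨I, by simp [mem_powersetCard, hI], hcl⟩
  refine (Set.ncard_le_ncard hsub (Set.toFinite _)).trans ?_
  refine (Set.ncard_image_le (Set.toFinite _)).trans ?_
  rw [Set.ncard_coe_finset, card_powersetCard, Finset.card_univ, Fintype.card_fin]
  interval_cases k <;> decide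

lemma lvl_big (k : ℕ) (hk : 4 ≤ k) :
    {F : Set (Fin 17) | M.IsFlat F ∧ M.eRk F = (k : ℕ∞)}.ncard ≤ 136 := by
  have hsub : {F : Set (Fin 17) | M.IsFlat F ∧ M.eRk F = (k : ℕ∞)} ⊆ {Set.univ} := by
    intro F hF
    obtain ⟨I, hI, hInd, hcl⟩ := flat_basis F k hF.1 hF.2
    have h4 : I.card = 4 := by have := hInd.1; omega
    rw [Set.mem_singleton_iff, ← hcl, Set.eq_univ_iff_forall]
    intro x
    rw [mem_cl I hInd]
    by_cases hx : x ∈ I
    · exact Or.inl hx
    · right
      intro hcon
      have := hcon.1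
      rw [Finset.card_insert_of_notMem hx] at this
      omega
  refine (Set.ncard_le_ncard hsub (Set.toFinite _)).trans ?_
  simp

lemma lvl (k : ℕ) : {F : Set (Fin 17) | M.IsFlat F ∧ M.eRk F = (k : ℕ∞)}.ncard ≤ 136 := by
  rcases Nat.lt_or_ge k 3 with h | h
  · exact lvl_small k (by omega)
  · rcases Nat.lt_or_ge k 4 with h' | h'
    · obtain rfl : k = 3 := by omega
      exact lvl3
    · exact lvl_big k h'

/-- the antichain, as finsets -/
def T3 : Finset (Finset (Fin 17)) := powersetCard 3 K1 ∪ powersetCard 3 K2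
def T2 : Finset (Finset (Fin 17)) :=
  powersetCard 2 univ \ (powersetCard 2 K1 ∪ powersetCard 2 K2)

lemma cardT3 : T3.card = 20 := by
  unfold T3
  rw [Finset.card_union_of_disjoint, card_powersetCard, card_powersetCard, cardK1, cardK2]
  · decide
  · rw [Finset.disjoint_left]
    intro s h1 h2
    rw [mem_powersetCard] at h1 h2
    have : s ⊆ K1 ∩ K2 := Finset.subset_inter h1.1 h2.1
    have := Finset.card_le_card this
    rw [cardK12, h1.2] at this
    omega

lemma cardT2 : 117 ≤ T2.card := by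
  unfold T2
  have hu := Finset.card_union_add_card_inter (powersetCard 2 K1) (powersetCard 2 K2)
  have hi : powersetCard 2 (K1 ∩ K2) ⊆ powersetCard 2 K1 ∩ powersetCard 2 K2 := by
    intro s hs
    rw [mem_powersetCard] at hs
    rw [Finset.mem_inter, mem_powersetCard, mem_powersetCard]
    exact ⟨⟨hs.1.trans Finset.inter_subset_left, hs.2⟩, ⟨hs.1.trans Finset.inter_subset_right, hs.2⟩⟩
  have hi' := Finset.card_le_card hi
  rw [card_powersetCard, cardK12] at hi'
  rw [card_powersetCard, card_powersetCard, cardK1, cardK2] at hu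
  have h10 : Nat.choose 5 2 = 10 := by decide
  have h1 : Nat.choose 2 2 = 1 := by decide
  have h136 : (powersetCard 2 (univ : Finset (Fin 17))).card = 136 := by
    rw [card_powersetCard, Finset.card_univ, Fintype.card_fin]; decide
  have := Finset.le_card_sdiff (powersetCard 2 K1 ∪ powersetCard 2 K2) (powersetCard 2 (univ : Finset (Fin 17)))
  omega

def A : Set (Set (Fin 17)) := (fun s : Finset (Fin 17) => (s : Set (Fin 17))) ''
  ((T3 ∪ T2 : Finset (Finset (Fin 17))) : Set (Finset (Fin 17)))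

lemma cardA : 137 ≤ A.ncard := by
  unfold A
  rw [Set.ncard_image_of_injective _ Finset.coe_injective, Set.ncard_coe_finset,
    Finset.card_union_of_disjoint, cardT3]
  · have := cardT2; omega
  · rw [Finset.disjoint_left]
    intro s h1 h2
    unfold T3 at h1
    unfold T2 at h2
    rw [Finset.mem_union, mem_powersetCard, mem_powersetCard] at h1
    rw [Finset.mem_sdiff, mem_powersetCard] at h2
    omega

lemma A_flat (F : Set (Fin 17)) (hF : F ∈ A) : M.IsFlat F := by
  obtain ⟨s, hs, rfl⟩ := hF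
  rw [Finset.mem_coe, Finset.mem_union] at hs
  rcases hs with hs | hs
  · unfold T3 at hs
    rw [Finset.mem_union, mem_powersetCard, mem_powersetCard] at hs
    apply flat3 s
    · omega
    · tauto
  · unfold T2 at hs
    rw [Finset.mem_sdiff, mem_powersetCard] at hs
    exact flat2 s hs.1.2

lemma A_anti : IsAntichain (· ⊆ ·) A := by
  rintro _ ⟨s, hs, rfl⟩ _ ⟨t, ht, rfl⟩ hne hsub
  have hsub' : s ⊆ t := by exact_mod_cast hsub
  have hne' : s ≠ t := fun h => hne (by rw [h])
  rw [Finset.mem_coe, Finset.mem_union] at hs ht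
  have hlt : s.card < t.card := Finset.card_lt_card (hsub'.ssubset_of_ne hne')
  unfold T3 T2 at hs ht
  rw [Finset.mem_union, Finset.mem_sdiff, Finset.mem_union, mem_powersetCard, mem_powersetCard,
    mem_powersetCard, mem_powersetCard, mem_powersetCard] at hs ht
  have ht3 : (t ⊆ K1 ∨ t ⊆ K2) := by
    rcases ht with h | h
    · tauto
    · rcases hs with h' | h' <;> omega
  have hs2 : s.card = 2 := by
    rcases hs with h' | h' <;> rcases ht with h | h <;> omega
  rcases hs with h' | h'
  · omega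
  · apply h'.2
    rcases ht3 with h | h
    · left; exact ⟨hsub'.trans h, hs2⟩
    · right; exact ⟨hsub'.trans h, hs2⟩

theorem main :
    ¬ (∀ (α : Type) [Finite α] (M : Matroid α),
      (∀ C : Set α, M.IsCircuit C → M.eRk M.E ≤ C.encard) →
      ∃ k : ℕ, ∀ A : Set (Set α), (∀ F ∈ A, M.IsFlat F) →
        IsAntichain (· ⊆ ·) A →
        A.ncard ≤ {F : Set α | M.IsFlat F ∧ M.eRk F = (k : ℕ∞)}.ncard) := by
  intro h
  obtain ⟨k, hk⟩ := h (Fin 17) M paving
  have h1 := hk A A_flat A_anti
  have h2 := cardA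
  have h3 := lvl k
  omega

end Pool.Agent.Sperner17
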