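import Mathlib
set_option autoImplicit false
set_option maxHeartbeats 4000000

open Filter Topology

namespace Pool.Agent.SubsumCard

abbrev V := ℕ ⊕ ℕ ⊕ (ℕ × ℕ) ⊕ (ℕ × ℕ)
abbrev W := ℕ ⊕ (ℕ × ℕ) ⊕ (ℕ × ℕ)

def y (i : ℕ) : V := Sum.inl i
def z (i : ℕ) : V := Sum.inr (Sum.inl i)
def s (i k : ℕ) : V := Sum.inr (Sum.inr (Sum.inl (i, k)))
def d (i k : ℕ) : V := Sum.inr (Sum.inr (Sum.inr (i, k)))

def g (i : ℕ) : ℕ := Nat.log 2 i

def L : W → List V
  | Sum.inl i => [y i, z i]
  | Sum.inr (Sum.inl (i, k)) => if g i = g k then [s i k] else [y i, y k, s i k]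
  | Sum.inr (Sum.inr (i, k)) => if g i = g k then [d i k] else [y i, z k, d i k]

lemma L_len (p : W) : (L p).length ≤ 3 := by
  rcases p with i | ⟨i, k⟩ | ⟨i, k⟩ <;> simp only [L] <;> (try split_ifs) <;> simp

def bt (b : Bool) : ℝ := if b = true then 1 else 0

noncomputable def e : W ≃ ℕ := Denumerable.eqv W

noncomputable def wt (p : W) : ℝ := (1 / 10 : ℝ) ^ (e p)

lemma wt_pos (p : W) : 0 < wt p := by unfold wt; positivity

lemma wt_summable : Summable wt := by
  have h : Summable (fun n : ℕ => (1 / 10 : ℝ) ^ n) :=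
    summable_geometric_of_lt_one (by norm_num) (by norm_num)
  exact (e.summable_iff (f := fun n : ℕ => (1 / 10 : ℝ) ^ n)).mpr h

/-- digit sum -/
def D (a : V → Bool) (p : W) : ℝ := ((L p).map (fun u => bt (a u))).sum

def cnt (l : List V) (v : V) : ℝ := (l.map (fun u => if v = u then (1 : ℝ) else 0)).sum

lemma cnt_nonneg (l : List V) (v : V) : 0 ≤ cnt l v := by
  unfold cnt
  apply List.sum_nonneg
  intro x hx
  rw [List.mem_map] at hx
  obtain ⟨u, -, rfl⟩ := hx
  split_ifs <;> norm_num

lemma hasSum_count (a : V → Bool) (l : List V) :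
    HasSum (fun v => bt (a v) * cnt l v) ((l.map (fun u => bt (a u))).sum) := by
  induction l with
  | nil => simp [cnt, hasSum_zero]
  | cons u l ih =>
    have h1 : HasSum (fun v => if v = u then bt (a u) else 0) (bt (a u)) := hasSum_ite_eq u _
    have h2 := h1.add ih
    simp only [List.map_cons, List.sum_cons]
    have h3 : (fun v => bt (a v) * cnt (u :: l) v) =
        fun v => (if v = u then bt (a u) else 0) + bt (a v) * cnt l v := by
      funext v
      simp only [cnt, List.map_cons, List.sum_cons]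
      by_cases h : v = u
      · subst h; simp [mul_add]
      · simp [h]
    rw [h3]
    exact h2

noncomputable def F (v : V) (p : W) : ℝ := cnt (L p) v * wt p

lemma F_nonneg (v : V) (p : W) : 0 ≤ F v p := mul_nonneg (cnt_nonneg _ _) (wt_pos p).le

lemma hasSum_F (a : V → Bool) (p : W) : HasSum (fun v => bt (a v) * F v p) (D a p * wt p) := by
  have := (hasSum_count a (L p)).mul_right (wt p)
  simp only [mul_assoc] at this
  exact this

lemma bt_bd (b : Bool) : 0 ≤ bt b ∧ bt b ≤ 1 := by cases b <;> simp [bt]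

lemma sum_bd (a : V → Bool) (l : List V) : 0 ≤ (l.map (fun u => bt (a u))).sum ∧
    (l.map (fun u => bt (a u))).sum ≤ l.length := by
  induction l with
  | nil => simp
  | cons u l ih =>
    have := bt_bd (a u)
    simp only [List.map_cons, List.sum_cons, List.length_cons]
    push_cast
    constructor <;> linarith [this.1, this.2, ih.1, ih.2]

lemma D_bd (a : V → Bool) (p : W) : 0 ≤ D a p ∧ D a p ≤ 3 := by
  have h := sum_bd a (L p)
  have h2 : ((L p).length : ℝ) ≤ 3 := by exact_mod_cast L_len p
  exact ⟨h.1, h.2.trans h2⟩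

lemma summable_F (a : V → Bool) : Summable (fun q : W × V => bt (a q.2) * F q.2 q.1) := by
  rw [summable_prod_of_nonneg (fun q => mul_nonneg (bt_bd _).1 (F_nonneg _ _))]
  constructor
  · intro p
    exact (hasSum_F a p).summable
  · have : (fun p => ∑' v, bt (a v) * F v p) = fun p => D a p * wt p := by
      funext p; exact (hasSum_F a p).tsum_eq
    show Summable (fun p => ∑' v, bt (a v) * F v p)
    rw [this]
    apply Summable.of_nonneg_of_le _ _ (wt_summable.mul_left 3)
    · intro p; exact mul_nonneg (D_bd a p).1 (wt_pos p).le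
    · intro p; exact mul_le_mul_of_nonneg_right (D_bd a p).2 (wt_pos p).le

noncomputable def xv (v : V) : ℝ := ∑' p, F v p

lemma xv_summable : Summable xv := by
  have h := summable_F (fun _ => true)
  simp only [bt, if_true, one_mul] at h
  have h2 : Summable (fun q : V × W => F q.1 q.2) := h.prod_symm
  exact h2.prod

lemma xv_nonneg (v : V) : 0 ≤ xv v := tsum_nonneg (fun p => F_nonneg v p)

lemma tsum_eq (a : V → Bool) : ∑' v, bt (a v) * xv v = ∑' p, D a p * wt p := by
  have h := summable_F a
  have h1 : ∑' v, bt (a v) * xv v = ∑' v, ∑' p, bt (a v) * F v p := by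
    congr 1; funext v; rw [xv, tsum_mul_left]
  have h2 : ∑' p, D a p * wt p = ∑' p, ∑' v, bt (a v) * F v p := by
    congr 1; funext p; exact (hasSum_F a p).tsum_eq.symm
  rw [h1, h2]
  exact (Summable.tsum_comm (f := fun p v => bt (a v) * F v p) h)

/-- uniqueness of expansions with small digits -/
lemma digits (c : ℕ → ℝ) (hc : ∀ n, c n = 0 ∨ 1 ≤ |c n|) (hb : ∀ n, |c n| ≤ 3)
    (h : ∑' n, c n * (1 / 10 : ℝ) ^ n = 0) : ∀ n, c n = 0 := by
  by_contra hne
  push Not at hne
  classical
  let m := Nat.find hne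
  have hm : c m ≠ 0 := Nat.find_spec hne
  have hlt : ∀ k < m, c k = 0 := fun k hk => by
    by_contra h'; exact Nat.find_min hne hk h'
  have hgeo : Summable (fun n : ℕ => (1 / 10 : ℝ) ^ n) :=
    summable_geometric_of_lt_one (by norm_num) (by norm_num)
  have hs : Summable (fun n => c n * (1 / 10 : ℝ) ^ n) := by
    apply Summable.of_norm_bounded (hgeo.mul_left 3)
    intro n
    rw [norm_mul, Real.norm_eq_abs, Real.norm_of_nonneg (by positivity)]
    exact mul_le_mul_of_nonneg_right (hb n) (by positivity)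
  have h1 := hs.sum_add_tsum_nat_add (m + 1)
  rw [h, Finset.sum_range_succ, Finset.sum_eq_zero, zero_add] at h1
  · have h2 : |∑' n, c (n + (m + 1)) * (1 / 10 : ℝ) ^ (n + (m + 1))| ≤
        ∑' n : ℕ, 3 * (1 / 10 : ℝ) ^ (m + 1) * (1 / 10 : ℝ) ^ n := by
      rw [← Real.norm_eq_abs]
      apply tsum_of_norm_bounded (hgeo.mul_left (3 * (1 / 10 : ℝ) ^ (m + 1))).hasSum
      intro n
      rw [norm_mul, Real.norm_eq_abs, Real.norm_of_nonneg (by positivity), pow_add]
      have := hb (n + (m + 1))
      have h3 : 0 ≤ (1 / 10 : ℝ) ^ n * (1 / 10 : ℝ) ^ (m + 1) := by positivity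
      nlinarith
    rw [tsum_mul_left, tsum_geometric_of_lt_one (by norm_num) (by norm_num)] at h2
    have h4 : |c m * (1 / 10 : ℝ) ^ m| ≤ 3 * (1 / 10 : ℝ) ^ (m + 1) * (1 - 1 / 10)⁻¹ := by
      have : c m * (1 / 10 : ℝ) ^ m = - ∑' n, c (n + (m + 1)) * (1 / 10 : ℝ) ^ (n + (m + 1)) := by
        linarith
      rw [this, abs_neg]
      exact h2
    have h5 : 1 ≤ |c m| := by
      rcases hc m with h | h
      · exact absurd h hm
      · exact h
    rw [abs_mul, abs_of_pos (show (0 : ℝ) < (1 / 10) ^ m by positivity), pow_succ] at h4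
    have h6 : 0 < (1 / 10 : ℝ) ^ m := by positivity
    generalize (1 / 10 : ℝ) ^ m = w at h4 h6
    norm_num at h4
    nlinarith
  · intro k hk
    rw [hlt k (Finset.mem_range.mp hk)]; simp

lemma bt_int (b : Bool) : ∃ n : ℤ, bt b = n := by cases b <;> [exact ⟨0, by simp [bt]⟩; exact ⟨1, by simp [bt]⟩]

lemma sum_int (a : V → Bool) (l : List V) : ∃ n : ℤ, (l.map (fun u => bt (a u))).sum = n := by
  induction l with
  | nil => exact ⟨0, by simp⟩
  | cons u l ih =>
    obtain ⟨n, hn⟩ := ih
    obtain ⟨m, hm⟩ := bt_int (a u)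
    exact ⟨m + n, by simp [hn, hm]⟩

lemma D_eq_of_tsum_eq (a b : V → Bool) (h : ∑' v, bt (a v) * xv v = ∑' v, bt (b v) * xv v) :
    ∀ p, D a p = D b p := by
  rw [tsum_eq, tsum_eq] at h
  have hsum : ∀ a : V → Bool, Summable (fun p => D a p * wt p) := by
    intro a
    apply Summable.of_nonneg_of_le _ _ (wt_summable.mul_left 3)
    · intro p; exact mul_nonneg (D_bd a p).1 (wt_pos p).le
    · intro p; exact mul_le_mul_of_nonneg_right (D_bd a p).2 (wt_pos p).le
  have h1 : ∑' p, (D a p - D b p) * wt p = 0 := by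
    have := (hsum a).tsum_sub (hsum b)
    rw [h, sub_self] at this
    rw [← this]
    congr 1; funext p; ring
  have h2 : ∑' n, (D a (e.symm n) - D b (e.symm n)) * (1 / 10 : ℝ) ^ n = 0 := by
    rw [← h1, ← e.tsum_eq (fun n => (D a (e.symm n) - D b (e.symm n)) * (1 / 10 : ℝ) ^ n)]
    congr 1; funext p; simp [wt]
  have h3 := digits _ (fun n => by
    obtain ⟨k, hk⟩ := sum_int a (L (e.symm n))
    obtain ⟨l, hl⟩ := sum_int b (L (e.symm n))
    show D a (e.symm n) - D b (e.symm n) = 0 ∨ 1 ≤ |D a (e.symm n) - D b (e.symm n)|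
    rw [D, D, hk, hl]
    by_cases hkl : k = l
    · left; rw [hkl]; simp
    · right
      have : (1 : ℤ) ≤ |k - l| := Int.one_le_abs (sub_ne_zero.mpr hkl)
      exact_mod_cast this) (fun n => by
    show |D a (e.symm n) - D b (e.symm n)| ≤ 3
    rw [abs_le]
    have h1 := D_bd a (e.symm n)
    have h2 := D_bd b (e.symm n)
    constructor <;> linarith [h1.1, h1.2, h2.1, h2.2]) h2
  intro p
  have := h3 (e p)
  simp only [Equiv.symm_apply_apply] at this
  linarith


/-! ### combinatorics of the fibres -/

lemma D_R (a : V → Bool) (i : ℕ) : D a (Sum.inl i) = bt (a (y i)) + bt (a (z i)) := by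
  simp [D, L]

lemma D_P (a : V → Bool) (i k : ℕ) : D a (Sum.inr (Sum.inl (i, k))) =
    if g i = g k then bt (a (s i k)) else bt (a (y i)) + bt (a (y k)) + bt (a (s i k)) := by
  simp only [D, L]; split_ifs <;> simp; ring

lemma D_Q (a : V → Bool) (i k : ℕ) : D a (Sum.inr (Sum.inr (i, k))) =
    if g i = g k then bt (a (d i k)) else bt (a (y i)) + bt (a (z k)) + bt (a (d i k)) := by
  simp only [D, L]; split_ifs <;> simp; ring

/-- two solutions cannot differ in two groups -/
lemma pair (a b : V → Bool) (h : ∀ p, D a p = D b p) (i k : ℕ) (hik : g i ≠ g k)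
    (h1 : a (y i) ≠ b (y i)) (h2 : a (y k) ≠ b (y k)) : False := by
  have r := h (Sum.inl k)
  have p := h (Sum.inr (Sum.inl (i, k)))
  have q := h (Sum.inr (Sum.inr (i, k)))
  rw [D_R, D_R] at r
  rw [D_P, D_P, if_neg hik, if_neg hik] at p
  rw [D_Q, D_Q, if_neg hik, if_neg hik] at q
  generalize a (y i) = a1 at *
  generalize a (y k) = a2 at *
  generalize a (z k) = a3 at *
  generalize a (s i k) = a4 at *
  generalize a (d i k) = a5 at *
  generalize b (y i) = b1 at *
  generalize b (y k) = b2 at *
  generalize b (z k) = b3 at *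
  generalize b (s i k) = b4 at *
  generalize b (d i k) = b5 at *
  cases a1 <;> cases b1 <;> simp at h1 <;> cases a2 <;> cases b2 <;> simp at h2 <;>
    cases a3 <;> cases b3 <;> simp [bt] at r <;> (try (norm_num at r; done)) <;>
    cases a4 <;> cases b4 <;> simp [bt] at p <;> (try (norm_num at p; done)) <;>
    cases a5 <;> cases b5 <;> simp [bt] at q <;> (try (norm_num at q; done))

/-- a solution is determined by its `y` values -/
lemma determined (a b : V → Bool) (h : ∀ p, D a p = D b p) (hy : ∀ i, a (y i) = b (y i)) : a = b := by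
  have hbt : ∀ u v : Bool, bt u = bt v → u = v := by
    intro u v; cases u <;> cases v <;> simp [bt]
  have hz : ∀ i, a (z i) = b (z i) := by
    intro i
    have r := h (Sum.inl i)
    rw [D_R, D_R, hy i] at r
    exact hbt _ _ (by linarith)
  funext v
  rcases v with i | i | ⟨i, k⟩ | ⟨i, k⟩
  · exact hy i
  · exact hz i
  · have p := h (Sum.inr (Sum.inl (i, k)))
    rw [D_P, D_P, hy i, hy k] at p
    split_ifs at p
    · exact hbt _ _ p
    · exact hbt _ _ (by simpa [s] using p)
  · have q := h (Sum.inr (Sum.inr (i, k)))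
    rw [D_Q, D_Q, hy i, hz k] at q
    split_ifs at q
    · exact hbt _ _ q
    · exact hbt _ _ (by simpa [d] using q)

lemma group_finite (j : ℕ) : {i : ℕ | g i = j}.Finite := by
  apply (Set.finite_lt_nat (2 ^ (j + 1))).subset
  intro i hi
  have : Nat.log 2 i < j + 1 := by
    have : Nat.log 2 i = j := hi
    omega
  exact Nat.lt_pow_of_log_lt (by norm_num) this

lemma fibre_finite (a0 : V → Bool) : {b : V → Bool | ∀ p, D a0 p = D b p}.Finite := by
  classical
  obtain ⟨I, hI, hag⟩ : ∃ I : Set ℕ, I.Finite ∧ ∀ b : V → Bool, (∀ p, D a0 p = D b p) →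
      ∀ i, i ∉ I → a0 (y i) = b (y i) := by
    by_cases hall : ∀ b : V → Bool, (∀ p, D a0 p = D b p) → ∀ i, a0 (y i) = b (y i)
    · exact ⟨∅, Set.finite_empty, fun b hb i _ => hall b hb i⟩
    · push Not at hall
      obtain ⟨b0, hb0, i0, hi0⟩ := hall
      refine ⟨{i | g i = g i0}, group_finite _, fun b hb i hi => ?_⟩
      by_contra hne
      have hi' : g i ≠ g i0 := hi
      have h1 : a0 (y i) = b0 (y i) := by
        by_contra h'
        exact pair a0 b0 hb0 i i0 hi' h' hi0
      have h2 : a0 (y i0) = b (y i0) := by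
        by_contra h'
        exact pair a0 b hb i i0 hi' hne h'
      apply pair b b0 (fun p => (hb p).symm.trans (hb0 p)) i i0 hi'
      · rw [← h1]; exact fun h => hne h.symm
      · rw [← h2]; exact hi0
  have hfin : Finite I := hI.to_subtype
  have hfin2 : Finite (I → Bool) := inferInstance
  have : Finite ↑{b : V → Bool | ∀ p, D a0 p = D b p} := by
    apply Finite.of_injective (fun (b : {b : V → Bool | ∀ p, D a0 p = D b p}) (i : I) => b.1 (y i.1))
    intro b c hbc
    apply Subtype.ext
    apply determined b.1 c.1 (fun p => (b.2 p).symm.trans (c.2 p))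
    intro i
    by_cases hi : i ∈ I
    · exact congrFun hbc ⟨i, hi⟩
    · rw [← hag b.1 b.2 i hi, ← hag c.1 c.2 i hi]
  exact Set.toFinite _

/-- many solutions with the same digits -/
def sol (j : ℕ) (b : ℕ → Bool) : V → Bool
  | Sum.inl i => if g i = j then b i else false
  | Sum.inr (Sum.inl i) => if g i = j then !b i else false
  | Sum.inr (Sum.inr (Sum.inl (i, k))) =>
      if g i = g k then false else if g i = j then !b i else if g k = j then !b k else false
  | Sum.inr (Sum.inr (Sum.inr (i, k))) =>
      if g i = g k then false else if g i = j then !b i else if g k = j then b k else false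

lemma bt_not (b : Bool) : bt b + bt (!b) = 1 := by cases b <;> simp [bt]

lemma D_sol (j : ℕ) (b c : ℕ → Bool) (p : W) : D (sol j b) p = D (sol j c) p := by
  have hf : bt false = 0 := by simp [bt]
  rcases p with i | ⟨i, k⟩ | ⟨i, k⟩
  · rw [D_R, D_R]
    simp only [sol, y, z]
    split_ifs
    · rw [bt_not, bt_not]
    · rfl
  · rw [D_P, D_P]
    by_cases h : g i = g k
    · simp [h, sol, s]
    · rw [if_neg h, if_neg h]
      simp only [sol, y, s, if_neg h]
      by_cases h1 : g i = j
      · have h2 : ¬ g k = j := fun h2 => h (h1.trans h2.symm)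
        simp only [h1, h2, if_true, if_false, hf, add_zero]
        rw [bt_not, bt_not]
      · by_cases h2 : g k = j
        · simp only [h1, h2, if_true, if_false, hf, zero_add]
          rw [bt_not, bt_not]
        · simp only [h1, h2, if_false]
  · rw [D_Q, D_Q]
    by_cases h : g i = g k
    · simp [h, sol, d]
    · rw [if_neg h, if_neg h]
      simp only [sol, y, z, d, if_neg h]
      by_cases h1 : g i = j
      · have h2 : ¬ g k = j := fun h2 => h (h1.trans h2.symm)
        simp only [h1, h2, if_true, if_false, hf, add_zero]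
        rw [bt_not, bt_not]
      · by_cases h2 : g k = j
        · simp only [h1, h2, if_true, if_false, hf, zero_add]
          rw [add_comm, bt_not, add_comm, bt_not]
        · simp only [h1, h2, if_false]

noncomputable def ev : V ≃ ℕ := Denumerable.eqv V

noncomputable def x (n : ℕ) : ℝ := xv (ev.symm n)

lemma x_sum (ε : ℕ → Bool) : ∑' n, (if ε n = true then x n else 0) = ∑' v, bt (ε (ev v)) * xv v := by
  rw [← ev.tsum_eq]
  congr 1
  funext v
  simp only [x, Equiv.symm_apply_apply, bt]
  split_ifs <;> simp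

lemma fin_fibre (t : ℝ) : Finite {ε : ℕ → Bool // ∑' n, (if ε n = true then x n else 0) = t} := by
  rcases isEmpty_or_nonempty {ε : ℕ → Bool // ∑' n, (if ε n = true then x n else 0) = t} with h | ⟨⟨ε0, h0⟩⟩
  · infer_instance
  · have := (fibre_finite (fun v => ε0 (ev v))).to_subtype
    apply Finite.of_injective (β := {b : V → Bool | ∀ p, D (fun v => ε0 (ev v)) p = D b p})
      (fun ε => ⟨fun v => ε.1 (ev v), D_eq_of_tsum_eq _ _ (by
        rw [← x_sum, ← x_sum, h0, ε.2])⟩)
    intro ε ε' h
    apply Subtype.ext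
    funext n
    have h1 := congrFun (congrArg Subtype.val h) (ev.symm n)
    simpa using h1

theorem main : ∃ x : ℕ → ℝ, Summable (fun n => |x n|) ∧
      (∀ N : ℕ, ∃ t : ℝ, ∃ k : ℕ, N ≤ k ∧
        Cardinal.mk {ε : ℕ → Bool // ∑' n, (if ε n = true then x n else 0) = t} = (k : Cardinal)) ∧
      (∀ t : ℝ,
        Cardinal.mk {ε : ℕ → Bool // ∑' n, (if ε n = true then x n else 0) = t} ≠ Cardinal.aleph0 ∧
        Cardinal.mk {ε : ℕ → Bool // ∑' n, (if ε n = true then x n else 0) = t} ≠ Cardinal.continuum) := by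
  refine ⟨x, ?_, ?_, ?_⟩
  · have h1 : Summable x := (ev.symm.summable_iff (f := xv)).mpr xv_summable
    refine h1.congr (fun n => ?_)
    exact (abs_of_nonneg (xv_nonneg _)).symm
  · intro N
    let f : Fin N → (ℕ → Bool) := fun c n => sol N (fun i => decide (i = 2 ^ N + c.val)) (ev.symm n)
    let f0 : ℕ → Bool := fun n => sol N (fun _ => false) (ev.symm n)
    have hfin := fin_fibre (∑' n, (if f0 n = true then x n else 0))
    refine ⟨∑' n, (if f0 n = true then x n else 0), Nat.card _, ?_, (Nat.cast_card (α := {ε : ℕ → Bool //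
      ∑' n, (if ε n = true then x n else 0) = ∑' n, (if f0 n = true then x n else 0)})).symm⟩
    have hle := Nat.card_le_card_of_injective (α := Fin N)
      (β := {ε : ℕ → Bool //
        ∑' n, (if ε n = true then x n else 0) = ∑' n, (if f0 n = true then x n else 0)})
      (fun c => ⟨f c, by
        rw [x_sum, x_sum, tsum_eq, tsum_eq]
        congr 1
        funext p
        congr 1
        have e1 : (fun v => f c (ev v)) = sol N (fun i => decide (i = 2 ^ N + c.val)) := by
          funext v; simp [f]
        have e2 : (fun v => f0 (ev v)) = sol N (fun _ => false) := by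
          funext v; simp [f0]
        rw [e1, e2]
        exact D_sol _ _ _ _⟩) (by
        intro c c' h
        have h1 := congrFun (congrArg Subtype.val h) (ev (y (2 ^ N + c.val)))
        have hg : g (2 ^ N + c.val) = N := by
          apply Nat.log_eq_of_pow_le_of_lt_pow
          · omega
          · have h2 : c.val < N := c.2
            have h3 : N < 2 ^ N := Nat.lt_two_pow_self
            rw [pow_succ]; omega
        simp only [f, Equiv.symm_apply_apply, y, sol, hg, if_true, decide_true] at h1
        have h2 : 2 ^ N + c.val = 2 ^ N + c'.val := by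
          simpa using h1.symm
        exact Fin.ext (by omega))
    simpa using hle
  · intro t
    have hfin := fin_fibre t
    have h1 := Cardinal.lt_aleph0_of_finite {ε : ℕ → Bool // ∑' n, (if ε n = true then x n else 0) = t}
    exact ⟨h1.ne, (h1.trans Cardinal.aleph0_lt_continuum).ne⟩

end Pool.Agent.SubsumCard
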