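import Mathlib

set_option autoImplicit false

namespace Pool.Agent.SymCol

section Local
variable {T : Type} [Finite T] [Encodable T] (inv : T → T)

/-- the word read on `[s,e]`. -/
def word (a : ℤ → T) (s e : ℤ) : List T := (List.range (e + 1 - s).toNat).map (fun i : ℕ => a (s + (i : ℤ)))

/-- the formal inverse of the word read on `[s,e]`. -/
def wordR (a : ℤ → T) (s e : ℤ) : List T :=
  (List.range (e + 1 - s).toNat).map (fun i : ℕ => inv (a (e - (i : ℤ))))

lemma word_rev {a b : ℤ → T} {σ s e : ℤ}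
    (h : ∀ j, σ - e ≤ j → j ≤ σ - s → b j = inv (a (σ - j))) :
    word b (σ - e) (σ - s) = wordR inv a s e := by
  unfold word wordR
  have h1 : (σ - s + 1 - (σ - e)).toNat = (e + 1 - s).toNat := by congr 1; ring
  rw [h1]
  apply List.map_congr_left
  intro i hi
  rw [List.mem_range] at hi
  rw [h _ (by omega) (by omega)]
  congr 2
  ring

lemma wordR_rev (hinv : ∀ x, inv (inv x) = x) {a b : ℤ → T} {σ s e : ℤ}
    (h : ∀ j, σ - e ≤ j → j ≤ σ - s → b j = inv (a (σ - j))) :
    wordR inv b (σ - e) (σ - s) = word a s e := by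
  unfold word wordR
  have h1 : (σ - s + 1 - (σ - e)).toNat = (e + 1 - s).toNat := by congr 1; ring
  rw [h1]
  apply List.map_congr_left
  intro i hi
  rw [List.mem_range] at hi
  rw [h _ (by omega) (by omega), hinv]
  congr 1
  ring

/-- reducedness on an interval -/
def Red (a : ℤ → T) (s e : ℤ) : Prop := ∀ i, s ≤ i → i ≤ e → a i ≠ inv (a i) ∧ a i ≠ inv (a (i+1))

/-- Two overlapping windows of a reduced sequence are never mutually inverse. -/
lemma word_ne {a : ℤ → T} {s e s' e' : ℤ} (hlen : e' - s' = e - s) (h1 : s' ≤ e) (h2 : s ≤ e')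
    (hr : Red inv a (min s s') (max e e')) : word a s e ≠ wordR inv a s' e' := by
  intro h
  unfold word wordR at h
  have h3 : (e' + 1 - s').toNat = (e + 1 - s).toNat := by congr 1; linarith
  rw [h3] at h
  have key : ∀ i : ℕ, (i : ℤ) < e + 1 - s → a (s + i) = inv (a (e' - i)) := by
    intro i hi
    have hi' : i ∈ List.range (e + 1 - s).toNat := by rw [List.mem_range]; omega
    exact (List.map_inj_left.1 h) i hi'
  -- the sum of indices is s + e'
  have hk := key ((s + e') / 2 - s).toNat (by omega)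
  have e1 : s + (((s + e') / 2 - s).toNat : ℤ) = (s + e') / 2 := by omega
  rw [e1] at hk
  rcases Int.emod_two_eq_zero_or_one (s + e') with h0 | h0
  · have e2 : e' - (((s + e') / 2 - s).toNat : ℤ) = (s + e') / 2 := by omega
    rw [e2] at hk
    exact (hr _ (by omega) (by omega)).1 hk
  · have e2 : e' - (((s + e') / 2 - s).toNat : ℤ) = (s + e') / 2 + 1 := by omega
    rw [e2] at hk
    exact (hr _ (by omega) (by omega)).2 hk

def sgn (a : ℤ → T) (s e : ℤ) : Prop :=
  Encodable.encode (word a s e) < Encodable.encode (wordR inv a s e)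

lemma sgn_rev (hinv : ∀ x, inv (inv x) = x) {a b : ℤ → T} {σ s e : ℤ} (hse : s ≤ e)
    (h : ∀ j, σ - e ≤ j → j ≤ σ - s → b j = inv (a (σ - j))) (hr : Red inv a s e) :
    sgn inv b (σ - e) (σ - s) ↔ ¬ sgn inv a s e := by
  unfold sgn
  rw [word_rev inv h, wordR_rev inv hinv h]
  have hne : word a s e ≠ wordR inv a s e :=
    word_ne inv rfl hse hse (by simpa using hr)
  have hne' : Encodable.encode (word a s e) ≠ Encodable.encode (wordR inv a s e) :=
    fun hh => hne (Encodable.encode_injective hh)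
  omega

variable (r D δ R0 : ℤ)

/-- key of the window of radius `r` around `t` -/
def K (a : ℤ → T) (t : ℤ) : ℕ :=
  max (Encodable.encode (word a (t - r) (t + r))) (Encodable.encode (wordR inv a (t - r) (t + r)))

lemma K_rev (hinv : ∀ x, inv (inv x) = x) {a b : ℤ → T} {σ t : ℤ}
    (h : ∀ j, σ - t - r ≤ j → j ≤ σ - t + r → b j = inv (a (σ - j))) :
    K inv r b (σ - t) = K inv r a t := by
  unfold K
  have h' : ∀ j, σ - (t + r) ≤ j → j ≤ σ - (t - r) → b j = inv (a (σ - j)) :=
    fun j h1 h2 => h j (by linarith) (by linarith)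
  have e1 : σ - t - r = σ - (t + r) := by ring
  have e2 : σ - t + r = σ - (t - r) := by ring
  rw [e1, e2, word_rev inv h', wordR_rev inv hinv h', max_comm]

/-- local maxima -/
def isM (a : ℤ → T) (t : ℤ) : Prop := ∀ u, t - D ≤ u → u ≤ t + D → K inv r a u ≤ K inv r a t

lemma isM_rev (hinv : ∀ x, inv (inv x) = x) {a b : ℤ → T} {σ t : ℤ} (hD : 0 ≤ D)
    (h : ∀ j, σ - t - (D + r) ≤ j → j ≤ σ - t + (D + r) → b j = inv (a (σ - j))) :
    isM inv r D b (σ - t) ↔ isM inv r D a t := by
  have hK : ∀ u, t - D ≤ u → u ≤ t + D → K inv r b (σ - u) = K inv r a u := by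
    intro u h1 h2
    exact K_rev inv r hinv (fun j h3 h4 => h j (by linarith) (by linarith))
  unfold isM
  rw [hK t (by linarith) (by linarith)]
  constructor
  · intro H u h1 h2
    rw [← hK u h1 h2]
    exact H (σ - u) (by linarith) (by linarith)
  · intro H u h1 h2
    have := H (σ - u) (by linarith) (by linarith)
    rw [← hK (σ - u) (by linarith) (by linarith)] at this
    simpa using this

/-- nearby local maxima carry the same window -/
lemma isM_eq {a : ℤ → T} {t u : ℤ} (ht : isM inv r D a t) (hu : isM inv r D a u)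
    (h1 : t - D ≤ u) (h2 : u ≤ t + D) (hD : D ≤ r)
    (hr : Red inv a (min t u - r) (max t u + r)) :
    (sgn inv a (t - r) (t + r) ↔ sgn inv a (u - r) (u + r)) := by
  have hK : K inv r a t = K inv r a u := le_antisymm (hu t (by linarith) (by linarith)) (ht u h1 h2)
  have n1 : word a (t - r) (t + r) ≠ wordR inv a (u - r) (u + r) := by
    apply word_ne inv (by ring) (by omega) (by omega)
    intro i h3 h4; exact hr i (by omega) (by omega)
  have n2 : word a (u - r) (u + r) ≠ wordR inv a (t - r) (t + r) := by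
    apply word_ne inv (by ring) (by omega) (by omega)
    intro i h3 h4; exact hr i (by omega) (by omega)
  have n1' := Encodable.encode_injective.ne n1
  have n2' := Encodable.encode_injective.ne n2
  unfold K at hK
  unfold sgn
  have n3 : word a (t - r) (t + r) ≠ wordR inv a (t - r) (t + r) := by
    apply word_ne inv (by ring) (by omega) (by omega)
    intro i h3 h4; exact hr i (by omega) (by omega)
  have n4 : word a (u - r) (u + r) ≠ wordR inv a (u - r) (u + r) := by
    apply word_ne inv (by ring) (by omega) (by omega)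
    intro i h3 h4; exact hr i (by omega) (by omega)
  have n3' := Encodable.encode_injective.ne n3
  have n4' := Encodable.encode_injective.ne n4
  generalize Encodable.encode (word a (t - r) (t + r)) = A at *
  generalize Encodable.encode (word a (u - r) (u + r)) = B at *
  generalize Encodable.encode (wordR inv a (t - r) (t + r)) = A' at *
  generalize Encodable.encode (wordR inv a (u - r) (u + r)) = B' at *
  omega

lemma exists_bound (len : ℕ) : ∃ V : ℕ, ∀ l : List T, l.length = len → Encodable.encode l ≤ V := by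
  have hf : {l : List T | l.length = len}.Finite := List.finite_length_eq T len
  obtain ⟨V, hV⟩ := (hf.image Encodable.encode).bddAbove
  exact ⟨V, fun l hl => hV ⟨l, hl, rfl⟩⟩

lemma dense {V : ℕ} {a : ℤ → T} (hV : ∀ t, K inv r a t ≤ V) (hD : 0 ≤ D) (t0 : ℤ) :
    ∃ t, isM inv r D a t ∧ t0 - V * D ≤ t ∧ t ≤ t0 + V * D := by
  have key : ∀ m : ℕ, ∀ t0, V - K inv r a t0 ≤ m → ∃ t, isM inv r D a t ∧ t0 - m * D ≤ t ∧ t ≤ t0 + m * D := by
    intro m
    induction m with
    | zero =>
      intro t0 h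
      refine ⟨t0, ?_, by simp, by simp⟩
      intro u _ _
      have := hV u
      omega
    | succ m ih =>
      intro t0 h
      by_cases hM : isM inv r D a t0
      · exact ⟨t0, hM, by nlinarith [Nat.zero_le (m+1)], by nlinarith [Nat.zero_le (m+1)]⟩
      · unfold isM at hM
        push Not at hM
        obtain ⟨u, h1, h2, h3⟩ := hM
        obtain ⟨t, ht, h4, h5⟩ := ih u (by have := hV u; omega)
        refine ⟨t, ht, ?_, ?_⟩
        · push_cast; linarith
        · push_cast; linarith
  exact key V t0 (by omega)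

/-- there is a local maximum close to `p` -/
def typ (a : ℤ → T) (p : ℤ) : Prop := ∃ t, p - δ ≤ t ∧ t ≤ p + δ ∧ isM inv r D a t

/-- sign -/
def sg (a : ℤ → T) (p : ℤ) : Prop :=
  (typ inv r D δ a p ∧ ∃ t, p - δ ≤ t ∧ t ≤ p + δ ∧ isM inv r D a t ∧ sgn inv a (t - r) (t + r)) ∨
  (¬ typ inv r D δ a p ∧ ∃ m1 m2, p - R0 ≤ m1 ∧ m1 < p ∧ p < m2 ∧ m2 ≤ p + R0 ∧
    isM inv r D a m1 ∧ isM inv r D a m2 ∧ (∀ t, m1 < t → t < m2 → ¬ isM inv r D a t) ∧
    sgn inv a m1 m2)

lemma exists_gap {V : ℕ} {a : ℤ → T} (hV : ∀ t, K inv r a t ≤ V) (hD : 0 ≤ D) (p : ℤ)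
    (hp : ¬ isM inv r D a p) :
    ∃ m1 m2, p - (2 * V * D + 1) ≤ m1 ∧ m1 < p ∧ p < m2 ∧ m2 ≤ p + (2 * V * D + 1) ∧
    isM inv r D a m1 ∧ isM inv r D a m2 ∧ (∀ t, m1 < t → t < m2 → ¬ isM inv r D a t) := by
  obtain ⟨t1, h1, h2, h3⟩ := dense inv r D hV hD (p - V * D - 1)
  obtain ⟨t2, h4, h5, h6⟩ := dense inv r D hV hD (p + V * D + 1)
  obtain ⟨m1, ⟨h7, h8⟩, h9⟩ := Int.exists_greatest_of_bdd (P := fun t => isM inv r D a t ∧ t < p)
    ⟨p, fun z hz => hz.2.le⟩ ⟨t1, h1, by linarith⟩
  obtain ⟨m2, ⟨h10, h11⟩, h12⟩ := Int.exists_least_of_bdd (P := fun t => isM inv r D a t ∧ p < t)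
    ⟨p, fun z hz => hz.2.le⟩ ⟨t2, h4, by linarith⟩
  refine ⟨m1, m2, ?_, h8, h11, ?_, h7, h10, ?_⟩
  · have := h9 t1 ⟨h1, by linarith⟩
    linarith
  · have := h12 t2 ⟨h4, by linarith⟩
    linarith
  · intro t h13 h14 h15
    rcases lt_trichotomy t p with h | h | h
    · have := h9 t ⟨h15, h⟩; linarith
    · subst h; exact hp h15
    · have := h12 t ⟨h15, h⟩; linarith

lemma gap_unique {a : ℤ → T} {q m1 m2 m1' m2' : ℤ} (h1 : m1 < q) (h2 : q < m2)
    (h1' : m1' < q) (h2' : q < m2') (i1 : isM inv r D a m1) (i2 : isM inv r D a m2)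
    (i1' : isM inv r D a m1') (i2' : isM inv r D a m2')
    (h : ∀ t, m1 < t → t < m2 → ¬ isM inv r D a t)
    (h' : ∀ t, m1' < t → t < m2' → ¬ isM inv r D a t) : m1 = m1' ∧ m2 = m2' := by
  constructor
  · rcases lt_trichotomy m1 m1' with hh | hh | hh
    · exact absurd i1' (h _ hh (by linarith))
    · exact hh
    · exact absurd i1 (h' _ hh (by linarith))
  · rcases lt_trichotomy m2 m2' with hh | hh | hh
    · exact absurd i2 (h' _ (by linarith) hh)
    · exact hh
    · exact absurd i2' (h _ (by linarith) hh)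

open Classical in
theorem local_rule (hinv : ∀ x, inv (inv x) = x) (n : ℕ) :
    ∃ R : ℕ, ∃ c : (ℤ → T) → ℤ → Bool × Bool, ∀ (a b : ℤ → T) (p p' σ : ℤ),
      |σ - p' - p| ≤ n → (∀ j, p' - R ≤ j → j ≤ p' + R → b j = inv (a (σ - j))) →
      Red inv a (p - R) (p + R) → c b p' ≠ c a p := by
  -- parameters
  let δ : ℤ := n
  let D : ℤ := 3 * n
  let r : ℤ := 3 * n
  obtain ⟨V, hV⟩ := exists_bound (T := T) (r + 1 + r).toNat
  let R0 : ℤ := 2 * V * D + 1
  have hδ : 0 ≤ δ := by positivity
  have hD0 : 0 ≤ D := by positivity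
  have hR0 : 0 ≤ R0 := by positivity
  have hKV : ∀ (a : ℤ → T) t, K inv r a t ≤ V := by
    intro a t
    unfold K
    apply max_le
    · apply hV
      simp only [word, List.length_map, List.length_range]
      congr 1; ring
    · apply hV
      simp only [wordR, List.length_map, List.length_range]
      congr 1; ring
  refine ⟨(R0 + D + r + 2 * n + 10).toNat, fun a p => (decide (typ inv r D δ a p), decide (sg inv r D δ R0 a p)), ?_⟩
  intro a b p p' σ hσ hb hred hc
  have hR : (((R0 + D + r + 2 * n + 10).toNat : ℕ) : ℤ) = R0 + D + r + 2 * n + 10 :=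
    Int.toNat_of_nonneg (by positivity)
  rw [hR] at hb hred
  rw [Prod.mk.injEq, decide_eq_decide, decide_eq_decide] at hc
  obtain ⟨hc1, hc2⟩ := hc
  rw [abs_le] at hσ
  obtain ⟨hσ1, hσ2⟩ := hσ
  have hrv : r = 3 * n := rfl
  have hDv : D = 3 * n := rfl
  have hδv : δ = n := rfl
  have hn0 : (0 : ℤ) ≤ n := by positivity
  -- transfer of local maxima
  have hMr : ∀ t, p' - (R0 + n) ≤ t → t ≤ p' + (R0 + n) → (isM inv r D b t ↔ isM inv r D a (σ - t)) := by
    intro t h1 h2
    have := isM_rev inv r D hinv (a := a) (b := b) (σ := σ) (t := σ - t) hD0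
      (fun j h3 h4 => hb j (by linarith) (by linarith))
    rwa [sub_sub_cancel] at this
  by_cases ht : typ inv r D δ a p
  · have ht' : typ inv r D δ b p' := hc1.2 ht
    obtain ⟨t, h1, h2, h3⟩ := ht
    obtain ⟨t', h1', h2', h3'⟩ := ht'
    -- general comparison
    have key : ∀ t t', p - δ ≤ t → t ≤ p + δ → isM inv r D a t → p' - δ ≤ t' → t' ≤ p' + δ →
        isM inv r D b t' → (sgn inv b (t' - r) (t' + r) ↔ ¬ sgn inv a (t - r) (t + r)) := by
      intro t t' h1 h2 h3 h1' h2' h3'
      have hu : isM inv r D a (σ - t') := (hMr t' (by linarith) (by linarith)).1 h3'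
      have e1 := isM_eq inv r D h3 hu (by linarith) (by linarith) (by linarith)
        (by intro i h5 h6; exact hred i (by omega) (by omega))
      rw [e1]
      have := sgn_rev inv hinv (a := a) (b := b) (σ := σ) (s := σ - t' - r) (e := σ - t' + r) (by linarith)
        (fun j h3 h4 => hb j (by linarith) (by linarith))
        (by intro i h5 h6; exact hred i (by linarith) (by linarith))
      rw [← this]
      have e3 : σ - (σ - t' + r) = t' - r := by ring
      have e4 : σ - (σ - t' - r) = t' + r := by ring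
      rw [e3, e4]
    by_cases hs : sg inv r D δ R0 a p
    · have hs' := hc2.2 hs
      rcases hs with ⟨_, t, g1, g2, g3, g4⟩ | ⟨hn, _⟩
      · rcases hs' with ⟨_, t', g1', g2', g3', g4'⟩ | ⟨hn', _⟩
        · exact (key t t' g1 g2 g3 g1' g2' g3').1 g4' g4
        · exact hn' ⟨t', h1', h2', h3'⟩
      · exact hn ⟨t, h1, h2, h3⟩
    · have hs' : ¬ sg inv r D δ R0 b p' := fun h => hs (hc2.1 h)
      have k := key t t' h1 h2 h3 h1' h2' h3'
      by_cases hh : sgn inv a (t - r) (t + r)
      · exact hs (Or.inl ⟨⟨t, h1, h2, h3⟩, t, h1, h2, h3, hh⟩)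
      · exact hs' (Or.inl ⟨⟨t', h1', h2', h3'⟩, t', h1', h2', h3', k.2 hh⟩)
  · have ht' : ¬ typ inv r D δ b p' := fun h => ht (hc1.1 h)
    have hpM : ¬ isM inv r D a p := fun h => ht ⟨p, by linarith, by linarith, h⟩
    have hpM' : ¬ isM inv r D b p' := fun h => ht' ⟨p', by linarith, by linarith, h⟩
    have key : ∀ m1 m2 m1' m2', p - R0 ≤ m1 → m1 < p → p < m2 → m2 ≤ p + R0 →
      isM inv r D a m1 → isM inv r D a m2 → (∀ t, m1 < t → t < m2 → ¬ isM inv r D a t) →
      p' - R0 ≤ m1' → m1' < p' → p' < m2' → m2' ≤ p' + R0 →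
      isM inv r D b m1' → isM inv r D b m2' → (∀ t, m1' < t → t < m2' → ¬ isM inv r D b t) →
      (sgn inv b m1' m2' ↔ ¬ sgn inv a m1 m2) := by
      intro m1 m2 m1' m2' g1 g2 g3 g4 g5 g6 g7 g1' g2' g3' g4' g5' g6' g7'
      have u1 : isM inv r D a (σ - m1') := (hMr m1' (by linarith) (by linarith)).1 g5'
      have u2 : isM inv r D a (σ - m2') := (hMr m2' (by linarith) (by linarith)).1 g6'
      have u3 : ∀ t, σ - m2' < t → t < σ - m1' → ¬ isM inv r D a t := by
        intro t h1 h2 h3
        have h4 := (hMr (σ - t) (by linarith) (by linarith))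
        rw [sub_sub_cancel] at h4
        exact g7' (σ - t) (by linarith) (by linarith) (h4.2 h3)
      -- markers are far from p
      have f1 : m1 < p - δ := by
        by_contra hcon; push Not at hcon
        exact ht ⟨m1, hcon, by linarith, g5⟩
      have f2 : p + δ < m2 := by
        by_contra hcon; push Not at hcon
        exact ht ⟨m2, by linarith, hcon, g6⟩
      have f3 : σ - m2' < σ - p' := by linarith
      have f4 : σ - p' < σ - m1' := by linarith
      obtain ⟨e1, e2⟩ := gap_unique inv r D (q := σ - p') (by linarith) (by linarith) f3 f4 g5 g6 u2 u1 g7 u3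
      have := sgn_rev inv hinv (a := a) (b := b) (σ := σ) (s := m1) (e := m2) (by linarith)
        (fun j h3 h4 => hb j (by linarith) (by linarith))
        (by intro i h5 h6; exact hred i (by linarith) (by linarith))
      rw [← this]
      have e3 : σ - m2 = m1' := by linarith
      have e4 : σ - m1 = m2' := by linarith
      rw [e3, e4]
    obtain ⟨m1, m2, g1, g2, g3, g4, g5, g6, g7⟩ := exists_gap inv r D (hKV a) hD0 p hpM
    obtain ⟨m1', m2', g1', g2', g3', g4', g5', g6', g7'⟩ := exists_gap inv r D (hKV b) hD0 p' hpM'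
    by_cases hs : sg inv r D δ R0 a p
    · have hs' := hc2.2 hs
      rcases hs with ⟨hn, _⟩ | ⟨_, m1, m2, g1, g2, g3, g4, g5, g6, g7, g8⟩
      · exact ht hn
      · rcases hs' with ⟨hn', _⟩ | ⟨_, m1', m2', g1', g2', g3', g4', g5', g6', g7', g8'⟩
        · exact ht' hn'
        · exact (key m1 m2 m1' m2' g1 g2 g3 g4 g5 g6 g7 g1' g2' g3' g4' g5' g6' g7').1 g8' g8
    · have hs' : ¬ sg inv r D δ R0 b p' := fun h => hs (hc2.1 h)
      have k := key m1 m2 m1' m2' g1 g2 g3 g4 g5 g6 g7 g1' g2' g3' g4' g5' g6' g7'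
      by_cases hh : sgn inv a m1 m2
      · exact hs (Or.inr ⟨ht, m1, m2, g1, g2, g3, g4, g5, g6, g7, hh⟩)
      · exact hs' (Or.inr ⟨ht', m1', m2', g1', g2', g3', g4', g5', g6', g7', k.2 hh⟩)

end Local
end Pool.Agent.SymCol
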