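import Mathlib
import Pool.Agent.Lib.SymCol

set_option autoImplicit false

namespace Pool.Agent.SymCol

abbrev G := FreeGroup (Fin 2)
abbrev T := Option (Fin 2 × Bool)

def iv : T → T := Option.map (fun p => (p.1, !p.2))

lemma iv_iv (x : T) : iv (iv x) = x := by
  cases x <;> simp [iv]

/-- the bi-infinite sequence of letters of a group element -/
def sq (x : G) : ℤ → T := fun i => if 0 ≤ i then x.toWord[i.toNat]? else none

lemma sq_nonneg (x : G) {i : ℤ} (h : 0 ≤ i) : sq x i = x.toWord[i.toNat]? := by simp [sq, h]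

lemma sq_neg (x : G) {i : ℤ} (h : i < 0) : sq x i = none := by
  have : ¬ (0 ≤ i) := by omega
  simp [sq, this]

lemma sq_ge (x : G) {i : ℤ} (h : (x.norm : ℤ) ≤ i) : sq x i = none := by
  have h0 : 0 ≤ i := by have : (0:ℤ) ≤ x.norm := by positivity
                        omega
  rw [sq_nonneg x h0]
  apply List.getElem?_eq_none
  have : x.norm = x.toWord.length := rfl
  omega

lemma sq_inv (x : G) (j : ℤ) : sq x⁻¹ j = iv (sq x ((x.norm : ℤ) - 1 - j)) := by
  by_cases h0 : 0 ≤ j
  · by_cases h1 : j < x.norm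
    · rw [sq_nonneg _ h0, sq_nonneg _ (by omega), FreeGroup.toWord_inv]
      unfold FreeGroup.invRev
      have hn : x.norm = x.toWord.length := rfl
      rw [List.getElem?_reverse (by simp; omega)]
      simp only [List.length_map, List.getElem?_map, iv]
      congr 2
      omega
    · push Not at h1
      rw [sq_ge x⁻¹ (by rw [FreeGroup.norm_inv_eq]; exact h1), sq_neg x (by omega)]
      rfl
  · push Not at h0
    rw [sq_neg _ h0, sq_ge x (by omega)]
    rfl

def Sim (m : ℕ) (x y : G) : Prop :=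
  ((y.norm : ℤ) - x.norm ≤ m ∧ (x.norm : ℤ) - y.norm ≤ m) ∧
  ∃ τ : ℤ, (-m ≤ τ ∧ τ ≤ m) ∧ ∀ j : ℤ, 2 * m ≤ j → j < y.norm - 2 * m → sq y j = sq x (j + τ)

lemma Sim.refl (x : G) : Sim 0 x x := by
  refine ⟨by simp, 0, by simp, ?_⟩
  intro j _ _; simp

lemma Sim.trans {m n : ℕ} {x y z : G} (h1 : Sim m x y) (h2 : Sim n y z) : Sim (m + n) x z := by
  obtain ⟨⟨a1, a2⟩, τ, ⟨a3, a4⟩, a5⟩ := h1
  obtain ⟨⟨b1, b2⟩, τ', ⟨b3, b4⟩, b5⟩ := h2
  refine ⟨⟨by push_cast; linarith, by push_cast; linarith⟩, τ + τ', ⟨by push_cast; linarith, by push_cast; linarith⟩, ?_⟩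
  intro j h3 h4
  push_cast at h3 h4
  have hm : (0 : ℤ) ≤ m := by positivity
  have hn : (0 : ℤ) ≤ n := by positivity
  rw [b5 j (by linarith) (by linarith), a5 (j + τ') (by linarith) (by linarith)]
  congr 1
  ring

lemma Sim.inv {m : ℕ} {x y : G} (h : Sim m x y) : Sim (2 * m) x⁻¹ y⁻¹ := by
  obtain ⟨⟨a1, a2⟩, τ, ⟨a3, a4⟩, a5⟩ := h
  have hm : (0 : ℤ) ≤ m := by positivity
  refine ⟨?_, (x.norm : ℤ) - y.norm - τ, ⟨by push_cast; linarith, by push_cast; linarith⟩, ?_⟩
  · rw [FreeGroup.norm_inv_eq, FreeGroup.norm_inv_eq]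
    exact ⟨by push_cast; linarith, by push_cast; linarith⟩
  intro j h3 h4
  rw [FreeGroup.norm_inv_eq] at h4
  push_cast at h3 h4
  rw [sq_inv, sq_inv, a5 _ (by linarith) (by linarith)]
  congr 2
  ring

lemma sim_letter (l : Fin 2 × Bool) (x : G) : Sim 1 x (FreeGroup.mk [l] * x) := by
  have h : (FreeGroup.mk [l] * x).toWord = FreeGroup.reduce (l :: x.toWord) := by
    rw [FreeGroup.toWord_mul]; rfl
  rw [FreeGroup.reduce.cons, FreeGroup.reduce_toWord] at h
  have hn : x.norm = x.toWord.length := rfl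
  have hn' : (FreeGroup.mk [l] * x).norm = (FreeGroup.mk [l] * x).toWord.length := rfl
  cases hx : x.toWord with
  | nil =>
    rw [hx] at h hn
    simp only at h
    rw [h] at hn'
    simp only [List.length_cons, List.length_nil] at hn hn'
    refine ⟨by omega, 0, by omega, ?_⟩
    intro j h1 h2
    omega
  | cons hd tl =>
    rw [hx] at h hn
    simp only at h
    by_cases hc : l.1 = hd.1 ∧ l.2 = !hd.2
    · rw [if_pos hc] at h
      rw [h] at hn'
      simp only [List.length_cons] at hn
      refine ⟨by omega, 1, by omega, ?_⟩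
      intro j h1 h2
      have e : (j + 1).toNat = j.toNat + 1 := by omega
      rw [sq_nonneg _ (by omega), sq_nonneg _ (by omega), h, hx, e, List.getElem?_cons_succ]
    · rw [if_neg hc] at h
      rw [h] at hn'
      simp only [List.length_cons] at hn hn'
      refine ⟨by omega, -1, by omega, ?_⟩
      intro j h1 h2
      have e : j.toNat = (j + -1).toNat + 1 := by omega
      rw [sq_nonneg _ (by omega), sq_nonneg _ (by omega), h, hx, e, List.getElem?_cons_succ]

lemma sim_mk (L : List (Fin 2 × Bool)) (x : G) : Sim L.length x (FreeGroup.mk L * x) := by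
  induction L with
  | nil =>
    have : (FreeGroup.mk ([] : List (Fin 2 × Bool))) * x = x := by
      rw [← FreeGroup.one_eq_mk, one_mul]
    rw [this]; exact Sim.refl x
  | cons l L ih =>
    have : FreeGroup.mk (l :: L) * x = FreeGroup.mk [l] * (FreeGroup.mk L * x) := by
      rw [← mul_assoc, FreeGroup.mul_mk]; rfl
    rw [this]
    exact Sim.trans ih (sim_letter l _)

lemma sim_mul (g x : G) : Sim g.norm x (g * x) := by
  have := sim_mk g.toWord x
  rwa [FreeGroup.mk_toWord] at this

lemma sim_T (g x : G) : Sim (3 * g.norm) x⁻¹ (g * x⁻¹ * g) := by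
  have h1 := (sim_mul g⁻¹ x).inv
  rw [FreeGroup.norm_inv_eq, mul_inv_rev, inv_inv] at h1
  have h2 := Sim.trans h1 (sim_mul g (x⁻¹ * g))
  rw [← mul_assoc] at h2
  have e : 2 * g.norm + g.norm = 3 * g.norm := by ring
  rwa [e] at h2

lemma red_sq (x : G) (s e : ℤ) (hs : 0 ≤ s) (he : e + 1 < x.norm) : Red iv (sq x) s e := by
  intro i h1 h2
  have hn : x.norm = x.toWord.length := rfl
  have hlt : i.toNat + 1 < x.toWord.length := by omega
  have e1 : sq x i = some (x.toWord[i.toNat]'(by omega)) := by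
    rw [sq_nonneg x (by omega)]
    exact List.getElem?_eq_getElem (by omega)
  have e2 : sq x (i + 1) = some (x.toWord[i.toNat + 1]'(by omega)) := by
    rw [sq_nonneg x (by omega)]
    have : (i + 1).toNat = i.toNat + 1 := by omega
    rw [this]
    exact List.getElem?_eq_getElem (by omega)
  have hred := FreeGroup.isReduced_toWord (x := x)
  unfold FreeGroup.IsReduced at hred
  rw [List.isChain_iff_getElem] at hred
  have hch := hred i.toNat hlt
  rw [e1, e2]
  generalize x.toWord[i.toNat]'(by omega) = l1 at *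
  generalize x.toWord[i.toNat + 1]'(by omega) = l2 at *
  constructor
  · intro h
    simp only [iv, Option.map_some, Option.some.injEq] at h
    have := congrArg Prod.snd h
    simp at this
  · intro h
    simp only [iv, Option.map_some, Option.some.injEq] at h
    have h3 := congrArg Prod.fst h
    have h4 := congrArg Prod.snd h
    simp only at h3 h4
    have h5 := hch h3
    rw [h5] at h4
    simp at h4

theorem main_aux : ∃ col : G → Bool × Bool × Bool, ∀ g : G, ∃ N : ℕ, ∀ x : G, N ≤ x.norm →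
    col (g * x⁻¹ * g) ≠ col x := by
  choose R c hc using fun K : ℕ => local_rule iv iv_iv (6 * K + 5)
  -- scales
  let N : ℕ → ℕ := fun K => Nat.rec 0 (fun K r => r + 2 * R (K + 1) + 20 * (K + 1) + 20) K
  have N0 : N 0 = 0 := rfl
  have Ns : ∀ K, N (K + 1) = N K + 2 * R (K + 1) + 20 * (K + 1) + 20 := fun K => rfl
  have Nlt : ∀ K, N K < N (K + 1) := fun K => by rw [Ns]; omega
  have Nmono : StrictMono N := strictMono_nat_of_lt_succ Nlt
  have Nge : ∀ K, K ≤ N K := fun K => Nmono.id_le K
  let level : ℕ → ℕ := fun l => @Nat.findGreatest (fun K => N K ≤ l) (fun K => Nat.decLe _ _) l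
  have lev1 : ∀ l, N (level l) ≤ l := fun l =>
    @Nat.findGreatest_spec 0 (fun K => N K ≤ l) (fun K => Nat.decLe _ _) l (Nat.zero_le _) (by simp [N0])
  have lev2 : ∀ K l, N K ≤ l → K ≤ level l := fun K l h =>
    @Nat.le_findGreatest K (fun K => N K ≤ l) (fun K => Nat.decLe _ _) l ((Nge K).trans h) h
  have lev3 : ∀ l, l < N (level l + 1) := by
    intro l
    by_contra h
    push Not at h
    have := lev2 (level l + 1) l h
    omega
  let col : G → Bool × Bool × Bool := fun x =>
    (decide (level x.norm % 2 = 0), c (level x.norm) (sq x) ((x.norm / 2 : ℕ) : ℤ))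
  refine ⟨col, ?_⟩
  intro g
  refine ⟨N (g.norm + 1) + 3 * g.norm, ?_⟩
  intro x hx heq
  obtain ⟨⟨a1, a2⟩, τ, ⟨a3, a4⟩, a5⟩ := sim_T g x
  rw [FreeGroup.norm_inv_eq] at a1 a2
  set y := g * x⁻¹ * g with hy
  have hyN : N (g.norm + 1) ≤ y.norm := by push_cast at a1 a2; omega
  have hxN : N (g.norm + 1) ≤ x.norm := by omega
  have hky := lev2 (g.norm + 1) y.norm hyN
  have hkx := lev2 (g.norm + 1) x.norm hxN
  have heq1 : decide (level y.norm % 2 = 0) = decide (level x.norm % 2 = 0) := congrArg Prod.fst heq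
  have heq2 : c (level y.norm) (sq y) ((y.norm / 2 : ℕ) : ℤ) = c (level x.norm) (sq x) ((x.norm / 2 : ℕ) : ℤ) :=
    congrArg Prod.snd heq
  rw [decide_eq_decide] at heq1
  have l1x := lev1 x.norm
  have l1y := lev1 y.norm
  have l3x := lev3 x.norm
  have l3y := lev3 y.norm
  have hlev : level y.norm = level x.norm := by
    rcases lt_trichotomy (level y.norm) (level x.norm) with h | h | h
    · exfalso
      have h2 : level y.norm + 2 ≤ level x.norm := by omega
      have h3 := Nmono.monotone h2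
      have h4 := Ns (level y.norm + 1)
      have h5 : N (level y.norm + 2) = N (level y.norm + 1 + 1) := rfl
      push_cast at a1 a2
      omega
    · exact h
    · exfalso
      have h2 : level x.norm + 2 ≤ level y.norm := by omega
      have h3 := Nmono.monotone h2
      have h4 := Ns (level x.norm + 1)
      have h5 : N (level x.norm + 2) = N (level x.norm + 1 + 1) := rfl
      push_cast at a1 a2
      omega
  rw [hlev] at heq2 l1y l3y
  obtain ⟨k, hk⟩ : ∃ k, level x.norm = k + 1 := ⟨level x.norm - 1, by omega⟩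
  rw [hk] at heq2 l1x l1y l3x l3y hkx
  have hNs := Ns k
  push_cast at a1 a2 a3 a4
  refine hc (k + 1) (sq x) (sq y) ((x.norm / 2 : ℕ) : ℤ) ((y.norm / 2 : ℕ) : ℤ) ((x.norm : ℤ) - 1 - τ) ?_ ?_ ?_ heq2
  · rw [abs_le]
    push_cast
    constructor <;> omega
  · intro j h1 h2
    rw [a5 j (by push_cast at *; omega) (by push_cast at *; omega), sq_inv]
    congr 2
    ring
  · apply red_sq
    · push_cast at *; omega
    · push_cast at *; omega

theorem main :
    ∃ k : ℕ, ∃ c : FreeGroup (Fin 2) → Fin k,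
      ∀ A : Set (FreeGroup (Fin 2)), A.Infinite →
        (∃ g : FreeGroup (Fin 2), A = (fun a => g * a⁻¹ * g) '' A) →
          ¬ ∃ i : Fin k, ∀ a ∈ A, c a = i := by
  obtain ⟨col, hcol⟩ := main_aux
  refine ⟨Fintype.card (Bool × Bool × Bool), fun x => Fintype.equivFin _ (col x), ?_⟩
  rintro A hA ⟨g, hg⟩ ⟨i, hi⟩
  obtain ⟨N, hN⟩ := hcol g
  have hfin : {x : G | x.norm < N}.Finite := by
    have h := (List.finite_length_lt (Fin 2 × Bool) N).preimage
      (f := FreeGroup.toWord) (FreeGroup.toWord_injective.injOn)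
    exact h
  obtain ⟨x, hxA, hx⟩ := (hA.sdiff hfin).nonempty
  simp only [Set.mem_ofPred_eq, not_lt] at hx
  have hyA : g * x⁻¹ * g ∈ A := by
    rw [hg]
    exact ⟨x, hxA, rfl⟩
  apply hN x hx
  apply (Fintype.equivFin (Bool × Bool × Bool)).injective
  have h1 := hi _ hyA
  have h2 := hi _ hxA
  simp only at h1 h2
  rw [h1, h2]

end Pool.Agent.SymCol
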