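import Mathlib

set_option autoImplicit false
set_option maxHeartbeats 4000000
open Filter Topology Set
open scoped Pointwise

namespace Pool.Agent.TopLGroup
noncomputable section

def G : Type := (ℕ →₀ ℤ) × (ℕ →₀ ℤ)
instance : CommGroup G := inferInstanceAs (CommGroup (Multiplicative ((ℕ →₀ ℤ) × (ℕ →₀ ℤ))))
instance : Lattice G := inferInstanceAs (Lattice ((ℕ →₀ ℤ) × (ℕ →₀ ℤ)))

def p1 (x : G) : ℕ →₀ ℤ := Prod.fst (α := ℕ →₀ ℤ) (β := ℕ →₀ ℤ) x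
def p2 (x : G) : ℕ →₀ ℤ := Prod.snd (α := ℕ →₀ ℤ) (β := ℕ →₀ ℤ) x
def mk (f g : ℕ →₀ ℤ) : G := (f, g)
lemma p1_mk (f g : ℕ →₀ ℤ) : p1 (mk f g) = f := rfl
lemma p2_mk (f g : ℕ →₀ ℤ) : p2 (mk f g) = g := rfl
lemma p1_mul (x y : G) (i : ℕ) : p1 (x * y) i = p1 x i + p1 y i := rfl
lemma p2_mul (x y : G) (i : ℕ) : p2 (x * y) i = p2 x i + p2 y i := rfl
lemma p1_one (i : ℕ) : p1 1 i = 0 := rfl
lemma p2_one (i : ℕ) : p2 1 i = 0 := rfl
lemma p1_inv (x : G) (i : ℕ) : p1 x⁻¹ i = - p1 x i := rfl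
lemma p2_inv (x : G) (i : ℕ) : p2 x⁻¹ i = - p2 x i := rfl
lemma p1_sup (x y : G) (i : ℕ) : p1 (x ⊔ y) i = max (p1 x i) (p1 y i) := rfl
lemma p2_sup (x y : G) (i : ℕ) : p2 (x ⊔ y) i = max (p2 x i) (p2 y i) := rfl
lemma p1_inf (x y : G) (i : ℕ) : p1 (x ⊓ y) i = min (p1 x i) (p1 y i) := rfl
lemma p2_inf (x y : G) (i : ℕ) : p2 (x ⊓ y) i = min (p2 x i) (p2 y i) := rfl

lemma G_ext {x y : G} (h1 : ∀ i, p1 x i = p1 y i) (h2 : ∀ i, p2 x i = p2 y i) : x = y :=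
  Prod.ext (Finsupp.ext h1) (Finsupp.ext h2)

lemma le_iff {x y : G} : x ≤ y ↔ (∀ i, p1 x i ≤ p1 y i) ∧ (∀ i, p2 x i ≤ p2 y i) := Iff.rfl

instance : MulLeftMono G := ⟨fun a b c h => by
  rw [le_iff] at h ⊢
  refine ⟨fun i => ?_, fun i => ?_⟩
  · show p1 (a * b) i ≤ p1 (a * c) i
    rw [p1_mul, p1_mul]; linarith [h.1 i]
  · show p2 (a * b) i ≤ p2 (a * c) i
    rw [p2_mul, p2_mul]; linarith [h.2 i]⟩

instance : MulRightMono G := ⟨fun a b c h => by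
  rw [le_iff] at h ⊢
  refine ⟨fun i => ?_, fun i => ?_⟩
  · show p1 (b * a) i ≤ p1 (c * a) i
    rw [p1_mul, p1_mul]; linarith [h.1 i]
  · show p2 (b * a) i ≤ p2 (c * a) i
    rw [p2_mul, p2_mul]; linarith [h.2 i]⟩

def U (n : ℕ) : Set G := {u | ∀ i, p1 u i = p2 u i ∧ (i < n → p1 u i = 0)}

lemma mem_U {n : ℕ} {u : G} : u ∈ U n ↔ ∀ i, p1 u i = p2 u i ∧ (i < n → p1 u i = 0) := Iff.rfl

def FB : GroupFilterBasis G := groupFilterBasisOfComm (Set.range U) ⟨U 0, ⟨0, rfl⟩⟩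
  (by
    rintro _ _ ⟨n, rfl⟩ ⟨m, rfl⟩
    refine ⟨U (max n m), ⟨_, rfl⟩, fun u hu => ⟨fun i => ⟨(hu i).1, fun hi => (hu i).2 (lt_max_of_lt_left hi)⟩,
      fun i => ⟨(hu i).1, fun hi => (hu i).2 (lt_max_of_lt_right hi)⟩⟩⟩)
  (by
    rintro _ ⟨n, rfl⟩ i
    exact ⟨rfl, fun _ => rfl⟩)
  (by
    rintro _ ⟨n, rfl⟩
    refine ⟨U n, ⟨n, rfl⟩, ?_⟩
    rintro _ ⟨a, ha, b, hb, rfl⟩ i
    show p1 (a * b) i = p2 (a * b) i ∧ (i < n → p1 (a * b) i = 0)
    rw [p1_mul, p2_mul, (ha i).1, (hb i).1]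
    refine ⟨rfl, fun hi => ?_⟩
    rw [← (ha i).1, ← (hb i).1, (ha i).2 hi, (hb i).2 hi, add_zero])
  (by
    rintro _ ⟨n, rfl⟩
    refine ⟨U n, ⟨n, rfl⟩, fun a ha i => ?_⟩
    show p1 a⁻¹ i = p2 a⁻¹ i ∧ (i < n → p1 a⁻¹ i = 0)
    rw [p1_inv, p2_inv, (ha i).1]
    refine ⟨rfl, fun hi => ?_⟩
    rw [← (ha i).1, (ha i).2 hi, neg_zero])

instance : TopologicalSpace G := FB.topology
instance : IsTopologicalGroup G := FB.isTopologicalGroup

lemma mem_nhds {x : G} {s : Set G} : s ∈ 𝓝 x ↔ ∃ n, ∀ u ∈ U n, x * u ∈ s := by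
  rw [(FB.nhds_hasBasis x).mem_iff]
  constructor
  · rintro ⟨V, ⟨n, rfl⟩, hV⟩
    exact ⟨n, fun u hu => hV ⟨u, hu, rfl⟩⟩
  · rintro ⟨n, hn⟩
    refine ⟨U n, ⟨n, rfl⟩, ?_⟩
    rintro _ ⟨u, hu, rfl⟩
    exact hn u hu

/-- bound for support -/
lemma supp_bound (x : G) : ∃ N, ∀ i, N ≤ i → p1 x i = 0 ∧ p2 x i = 0 := by
  obtain ⟨N1, h1⟩ := (p1 x).support.exists_nat_subset_range
  obtain ⟨N2, h2⟩ := (p2 x).support.exists_nat_subset_range
  refine ⟨max N1 N2, fun i hi => ⟨?_, ?_⟩⟩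
  · by_contra h
    have := h1 (Finsupp.mem_support_iff.2 h)
    rw [Finset.mem_range] at this
    have := le_max_left N1 N2
    omega
  · by_contra h
    have := h2 (Finsupp.mem_support_iff.2 h)
    rw [Finset.mem_range] at this
    have := le_max_right N1 N2
    omega

lemma cont_op (op : G → G → G) (f : ℤ → ℤ → ℤ) (hf0 : f 0 0 = 0)
    (h1 : ∀ x y i, p1 (op x y) i = f (p1 x i) (p1 y i)) (h2 : ∀ x y i, p2 (op x y) i = f (p2 x i) (p2 y i)) :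
    Continuous (fun p : G × G => op p.1 p.2) := by
  rw [continuous_iff_continuousAt]
  rintro ⟨x, y⟩
  intro s hs
  simp only at hs
  rw [mem_nhds] at hs
  obtain ⟨n, hn⟩ := hs
  obtain ⟨N1, hN1⟩ := supp_bound x
  obtain ⟨N2, hN2⟩ := supp_bound y
  let m := max n (max N1 N2)
  have hm1 : n ≤ m := le_max_left _ _
  have hm2 : N1 ≤ m := (le_max_left _ _).trans (le_max_right _ _)
  have hm3 : N2 ≤ m := (le_max_right _ _).trans (le_max_right _ _)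
  rw [Filter.mem_map, nhds_prod_eq]
  have hX : {x' : G | ∃ u ∈ U m, x' = x * u} ∈ 𝓝 x := mem_nhds.2 ⟨m, fun u hu => ⟨u, hu, rfl⟩⟩
  have hY : {y' : G | ∃ u ∈ U m, y' = y * u} ∈ 𝓝 y := mem_nhds.2 ⟨m, fun u hu => ⟨u, hu, rfl⟩⟩
  refine Filter.mem_of_superset (Filter.prod_mem_prod hX hY) ?_
  rintro ⟨x', y'⟩ ⟨⟨u, hu, hx⟩, ⟨v, hv, hy⟩⟩
  simp only at hx hy
  subst hx hy
  show op (x * u) (y * v) ∈ s
  have e : op (x * u) (y * v) = op x y * ((op x y)⁻¹ * op (x * u) (y * v)) := by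
    rw [mul_inv_cancel_left]
  rw [e]
  apply hn
  intro i
  rw [p1_mul, p2_mul, p1_inv, p2_inv, h1, h2, h1, h2, p1_mul, p1_mul, p2_mul, p2_mul, ← (hu i).1, ← (hv i).1]
  by_cases hi : i < m
  · rw [(hu i).2 hi, (hv i).2 hi]; simp
  · have hi' : m ≤ i := not_lt.1 hi
    rw [(hN1 i (hm2.trans hi')).1, (hN1 i (hm2.trans hi')).2, (hN2 i (hm3.trans hi')).1, (hN2 i (hm3.trans hi')).2]
    refine ⟨rfl, fun h => ?_⟩
    omega

instance : ContinuousSup G := ⟨cont_op (fun x y => x ⊔ y) max (by simp) p1_sup p2_sup⟩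
instance : ContinuousInf G := ⟨cont_op (fun x y => x ⊓ y) min (by simp) p1_inf p2_inf⟩
instance : TopologicalLattice G := {}

def A : Subgroup G where
  carrier := {x | ∀ i, p2 x i = 0}
  mul_mem' := fun {a b} ha hb i => by rw [p2_mul, ha i, hb i, add_zero]
  one_mem' := fun i => rfl
  inv_mem' := fun {a} ha i => by rw [p2_inv, ha i, neg_zero]

def B : Subgroup G where
  carrier := {x | ∀ i, p1 x i = 0}
  mul_mem' := fun {a b} ha hb i => by rw [p1_mul, ha i, hb i, add_zero]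
  one_mem' := fun i => rfl
  inv_mem' := fun {a} ha i => by rw [p1_inv, ha i, neg_zero]

lemma mem_A {x : G} : x ∈ A ↔ ∀ i, p2 x i = 0 := Iff.rfl
lemma mem_B {x : G} : x ∈ B ↔ ∀ i, p1 x i = 0 := Iff.rfl

lemma A_closed : IsClosed (A : Set G) := by
  rw [← isOpen_compl_iff, isOpen_iff_mem_nhds]
  intro x hx
  have hx' : ¬ ∀ i, p2 x i = 0 := hx
  push Not at hx'
  obtain ⟨i, hi⟩ := hx'
  rw [mem_nhds]
  refine ⟨i+1, fun u hu h => hi ?_⟩
  have h2 := mem_A.1 h i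
  rw [p2_mul, ← (hu i).1, (hu i).2 (Nat.lt_succ_self i), add_zero] at h2
  exact h2

lemma B_closed : IsClosed (B : Set G) := by
  rw [← isOpen_compl_iff, isOpen_iff_mem_nhds]
  intro x hx
  have hx' : ¬ ∀ i, p1 x i = 0 := hx
  push Not at hx'
  obtain ⟨i, hi⟩ := hx'
  rw [mem_nhds]
  refine ⟨i+1, fun u hu h => hi ?_⟩
  have h2 := mem_B.1 h i
  rw [p1_mul, (hu i).2 (Nat.lt_succ_self i), add_zero] at h2
  exact h2

theorem main :
    ¬ (∀ (G : Type) [Group G] [Lattice G] [MulLeftMono G] [MulRightMono G]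
      [TopologicalSpace G] [IsTopologicalGroup G] [TopologicalLattice G]
      (A B : Subgroup G),
      A.Normal → B.Normal →
      IsClosed (A : Set G) → IsClosed (B : Set G) →
      (∀ x ∈ A, ∀ y ∈ A, x ⊔ y ∈ A ∧ x ⊓ y ∈ A) →
      (∀ x ∈ B, ∀ y ∈ B, x ⊔ y ∈ B ∧ x ⊓ y ∈ B) →
      ∀ φ : (↥A × ↥B) → G, (∀ p, φ p = (p.1 : G) * (p.2 : G)) →
      Function.Bijective φ →
      (∀ p q : ↥A × ↥B, p ≤ q ↔ φ p ≤ φ q) →
      ∃ e : (↥A × ↥B) ≃ₜ G, ∀ p, e p = φ p) := by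
  intro H
  have h1 : A.Normal := inferInstance
  have h2 : B.Normal := inferInstance
  obtain ⟨e, he⟩ := H G A B h1 h2 A_closed B_closed
    (fun x hx y hy => ⟨fun i => by rw [p2_sup, hx i, hy i, max_self], fun i => by rw [p2_inf, hx i, hy i, min_self]⟩)
    (fun x hx y hy => ⟨fun i => by rw [p1_sup, hx i, hy i, max_self], fun i => by rw [p1_inf, hx i, hy i, min_self]⟩)
    (fun p => (p.1 : G) * (p.2 : G)) (fun p => rfl)
    (by
      constructor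
      · rintro ⟨a, b⟩ ⟨a', b'⟩ h
        simp only at h
        have ha : a = a' := by
          apply Subtype.ext
          apply G_ext
          · intro i
            have h3 := congrArg (fun z => p1 z i) h
            rw [p1_mul, p1_mul, mem_B.1 b.2 i, mem_B.1 b'.2 i, add_zero, add_zero] at h3
            exact h3
          · intro i
            rw [mem_A.1 a.2 i, mem_A.1 a'.2 i]
        subst ha
        rw [mul_right_inj] at h
        rw [Subtype.ext h]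
      · intro x
        refine ⟨(⟨mk (p1 x) 0, fun i => rfl⟩, ⟨mk 0 (p2 x), fun i => rfl⟩), ?_⟩
        apply G_ext
        · intro i
          show p1 (mk (p1 x) 0 * mk 0 (p2 x)) i = _
          rw [p1_mul, p1_mk, p1_mk]; simp
        · intro i
          show p2 (mk (p1 x) 0 * mk 0 (p2 x)) i = _
          rw [p2_mul, p2_mk, p2_mk]; simp)
    (by
      rintro ⟨a, b⟩ ⟨a', b'⟩
      simp only
      rw [Prod.mk_le_mk, ← Subtype.coe_le_coe, ← Subtype.coe_le_coe, le_iff, le_iff, le_iff]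
      constructor
      · rintro ⟨⟨h1, h2⟩, ⟨h3, h4⟩⟩
        refine ⟨fun i => ?_, fun i => ?_⟩
        · rw [p1_mul, p1_mul]; linarith [h1 i, h3 i]
        · rw [p2_mul, p2_mul]; linarith [h2 i, h4 i]
      · rintro ⟨h1, h2⟩
        refine ⟨⟨fun i => ?_, fun i => ?_⟩, ⟨fun i => ?_, fun i => ?_⟩⟩
        · have := h1 i
          rw [p1_mul, p1_mul, mem_B.1 b.2 i, mem_B.1 b'.2 i] at this
          linarith
        · rw [mem_A.1 a.2 i, mem_A.1 a'.2 i]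
        · rw [mem_B.1 b.2 i, mem_B.1 b'.2 i]
        · have := h2 i
          rw [p2_mul, p2_mul, mem_A.1 a.2 i, mem_A.1 a'.2 i] at this
          linarith)
  have hU0 : U 0 ∈ 𝓝 (1 : G) := mem_nhds.2 ⟨0, fun u hu => by rwa [one_mul]⟩
  have hA1 : ({1} : Set A) ∈ 𝓝 (1 : A) := by
    have h3 : Subtype.val ⁻¹' (U 0) ∈ 𝓝 (1 : A) := (continuous_subtype_val.tendsto (1 : A)) hU0
    refine Filter.mem_of_superset h3 ?_
    intro a ha
    apply Subtype.ext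
    apply G_ext
    · intro i
      rw [(ha i).1, mem_A.1 a.2 i]; rfl
    · intro i
      rw [mem_A.1 a.2 i]; rfl
  have hB1 : ({1} : Set B) ∈ 𝓝 (1 : B) := by
    have h3 : Subtype.val ⁻¹' (U 0) ∈ 𝓝 (1 : B) := (continuous_subtype_val.tendsto (1 : B)) hU0
    refine Filter.mem_of_superset h3 ?_
    intro a ha
    apply Subtype.ext
    apply G_ext
    · intro i
      rw [mem_B.1 a.2 i]; rfl
    · intro i
      rw [← (ha i).1, mem_B.1 a.2 i]; rfl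
  have h3 := prod_mem_nhds hA1 hB1
  have h4 := e.isOpenMap.image_mem_nhds h3
  have h5 : e (1, 1) = 1 := by rw [he]; simp
  rw [h5, mem_nhds] at h4
  obtain ⟨n, hn⟩ := h4
  have h6 : mk (Finsupp.single n 1) (Finsupp.single n 1) ∈ U n := by
    intro i
    refine ⟨rfl, fun hi => ?_⟩
    rw [p1_mk, Finsupp.single_apply, if_neg (by omega)]
  obtain ⟨⟨a, b⟩, ⟨ha, hb⟩, hab⟩ := hn _ h6
  simp only [mem_singleton_iff] at ha hb
  subst ha hb
  rw [h5, one_mul] at hab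
  have h7 := congrArg (fun z => p1 z n) hab
  rw [p1_one, p1_mk, Finsupp.single_eq_same] at h7
  exact zero_ne_one h7

end
end Pool.Agent.TopLGroup
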