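import Mathlib

set_option autoImplicit false
set_option maxHeartbeats 4000000
open scoped ComplexOrder

namespace Pool.Agent.TraceWords

def a : Fin 3 → ℝ := ![0, 1, 2]
def x : Fin 3 → ℝ := ![1, 0, 2]
def y : Fin 3 → ℝ := ![0, 2, 1]

noncomputable def D (v : Fin 3 → ℝ) : Matrix (Fin 3) (Fin 3) ℂ := Matrix.diagonal (fun i => ((v i : ℝ) : ℂ))

lemma D_psd (v : Fin 3 → ℝ) (hv : ∀ i, 0 ≤ v i) : (D v).PosSemidef := by
  unfold D
  apply Matrix.PosSemidef.diagonal
  intro i
  simp only [Pi.zero_apply]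
  exact_mod_cast hv i

lemma D_add (v w : Fin 3 → ℝ) : D v + D w = D (fun i => v i + w i) := by
  unfold D
  rw [Matrix.diagonal_add]
  congr 1
  ext i
  push_cast
  rfl

lemma sum_eig (v : Fin 3 → ℝ) (M : Matrix (Fin 3) (Fin 3) ℂ) (hM : M.IsHermitian) (hv : M = D v) (p : ℝ) :
    ∑ i, (hM.eigenvalues i) ^ p = ∑ i, (v i) ^ p := by
  have h1 : M.charpoly.roots = Finset.univ.val.map (fun i => ((v i : ℝ) : ℂ)) := by
    rw [hv, D, Matrix.charpoly_diagonal]
    rw [Polynomial.roots_prod _ _ (Finset.prod_ne_zero_iff.2 fun i _ => Polynomial.X_sub_C_ne_zero _)]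
    simp
  have h2 := hM.roots_charpoly_eq_eigenvalues
  have h3 : (M.charpoly.roots.map (fun z : ℂ => z.re ^ p)).sum = ∑ i, (hM.eigenvalues i) ^ p := by
    rw [h2, Multiset.map_map]
    simp [Finset.sum]
  have h4 : (M.charpoly.roots.map (fun z : ℂ => z.re ^ p)).sum = ∑ i, (v i) ^ p := by
    rw [h1, Multiset.map_map]
    simp [Finset.sum]
  rw [← h3, h4]

lemma prod_word (v w : Fin 3 → ℝ) (s : List Bool) :
    (s.map (fun b => cond b (D w) (D v))).prod = D (fun i => v i ^ (s.count false) * w i ^ (s.count true)) := by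
  induction s with
  | nil => simp [D]
  | cons b s ih =>
    rw [List.map_cons, List.prod_cons, ih]
    cases b
    · simp only [cond_false, D]
      rw [Matrix.diagonal_mul_diagonal]
      congr 1
      ext i
      simp
      ring
    · simp only [cond_true, D]
      rw [Matrix.diagonal_mul_diagonal]
      congr 1
      ext i
      simp
      ring

lemma trace_D (v : Fin 3 → ℝ) : (D v).trace = ((∑ i, v i : ℝ) : ℂ) := by
  unfold D
  rw [Matrix.trace_diagonal]
  push_cast
  rfl

theorem main :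
    ¬ (∀ (n : ℕ) (A₀ A₁ B₀ B₁ : Matrix (Fin n) (Fin n) ℂ)
      (hA₀ : A₀.PosSemidef) (hA₁ : A₁.PosSemidef)
      (hB₀ : B₀.PosSemidef) (hB₁ : B₁.PosSemidef),
      A₀.charpoly = B₀.charpoly →
      A₁.charpoly = B₁.charpoly →
      (∀ s : List Bool,
        ((‖((s.map (fun b => cond b B₁ B₀)).prod).trace‖ : ℝ) : ℂ) ≤
          ((s.map (fun b => cond b A₁ A₀)).prod).trace) →
      ∀ p : ℝ, 1 ≤ p →
        ∑ i, ((hB₀.add hB₁).isHermitian.eigenvalues i) ^ p ≤
          ∑ i, ((hA₀.add hA₁).isHermitian.eigenvalues i) ^ p) := by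
  intro H
  have ha : ∀ i, 0 ≤ a i := by intro i; fin_cases i <;> simp [a]
  have hx : ∀ i, 0 ≤ x i := by intro i; fin_cases i <;> simp [x]
  have hy : ∀ i, 0 ≤ y i := by intro i; fin_cases i <;> simp [y]
  have h := H 3 (D a) (D x) (D a) (D y) (D_psd a ha) (D_psd x hx) (D_psd a ha) (D_psd y hy) rfl ?_ ?_ (3/2) (by norm_num)
  · rw [sum_eig (fun i => a i + y i) _ _ (D_add a y), sum_eig (fun i => a i + x i) _ _ (D_add a x)] at h
    simp only [a, x, y, Fin.sum_univ_three] at h
    simp at h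
    norm_num at h
    have h4 : (4:ℝ) ^ (3/2 : ℝ) = 8 := by
      rw [show (4:ℝ) = 2 ^ (2:ℝ) by norm_num, ← Real.rpow_mul (by norm_num)]
      norm_num
    have h3 : (3:ℝ) ^ (3/2 : ℝ) * (3:ℝ) ^ (3/2 : ℝ) = 27 := by
      rw [← Real.rpow_add (by norm_num)]
      norm_num
    have h3p : 0 ≤ (3:ℝ) ^ (3/2 : ℝ) := by positivity
    nlinarith
  · unfold D
    rw [Matrix.charpoly_diagonal, Matrix.charpoly_diagonal, Fin.prod_univ_three, Fin.prod_univ_three]
    simp [x, y]
    ring
  · intro s
    rw [prod_word, prod_word, trace_D, trace_D, Complex.norm_real]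
    have h0 : 0 ≤ ∑ i, a i ^ (s.count false) * y i ^ (s.count true) :=
      Finset.sum_nonneg fun i _ => mul_nonneg (pow_nonneg (ha i) _) (pow_nonneg (hy i) _)
    rw [Real.norm_of_nonneg h0]
    have key : ∑ i, a i ^ (s.count false) * y i ^ (s.count true) ≤ ∑ i, a i ^ (s.count false) * x i ^ (s.count true) := by
      generalize s.count false = k
      generalize s.count true = l
      rw [Fin.sum_univ_three, Fin.sum_univ_three]
      simp only [a, x, y]
      rcases Nat.eq_zero_or_pos k with hk | hk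
      · subst hk
        simp
        rcases Nat.eq_zero_or_pos l with hl | hl
        · subst hl; simp
        · rw [zero_pow hl.ne']; linarith
      · rcases Nat.eq_zero_or_pos l with hl | hl
        · subst hl; simp
        · have h1 : (2:ℝ) ≤ 2 ^ k := by
            calc (2:ℝ) = 2 ^ 1 := by norm_num
              _ ≤ 2 ^ k := pow_le_pow_right₀ (by norm_num) hk
          have h2 : (2:ℝ) ≤ 2 ^ l := by
            calc (2:ℝ) = 2 ^ 1 := by norm_num
              _ ≤ 2 ^ l := pow_le_pow_right₀ (by norm_num) hl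
          simp [zero_pow hk.ne', zero_pow hl.ne']
          nlinarith
    exact_mod_cast key

end Pool.Agent.TraceWords
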