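import Mathlib
import Pool.Prelude.Def_F_cfb2a9ca

set_option autoImplicit false
set_option maxHeartbeats 4000000
open Filter Asymptotics Topology
open N41f07a28

namespace Pool.Agent.TransPrimes

lemma count_bad (p c S : ℕ) (hp : p.Prime) (hc : ¬ p ∣ c) :
    ((Finset.range S).filter (fun s => p ∣ 1 + c * (s+1))).card ≤ S / p + 1 := by
  have hmap : ∀ s ∈ (Finset.range S).filter (fun s => p ∣ 1 + c * (s+1)), s / p ∈ Finset.range (S/p+1) := by
    intro s hs
    rw [Finset.mem_filter, Finset.mem_range] at hs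
    rw [Finset.mem_range]
    exact Nat.lt_succ_of_le (Nat.div_le_div_right hs.1.le)
  rw [← Finset.card_range (S/p+1)]
  refine Finset.card_le_card_of_injOn (fun s => s/p) hmap ?_
  intro s hs s' hs' h
  have hs2 := (Finset.mem_filter.1 (Finset.mem_coe.1 hs)).2
  have hs2' := (Finset.mem_filter.1 (Finset.mem_coe.1 hs')).2
  have hmod : s ≡ s' [MOD p] := by
    have h1 : 1 + c*(s+1) ≡ 1 + c*(s'+1) [MOD p] :=
      (Nat.modEq_zero_iff_dvd.2 hs2).trans (Nat.modEq_zero_iff_dvd.2 hs2').symm
    have h2 : c*(s+1) ≡ c*(s'+1) [MOD p] := Nat.ModEq.add_left_cancel' 1 h1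
    have hcop : Nat.gcd p c = 1 := (Nat.Prime.coprime_iff_not_dvd hp).2 hc
    have h3 : s+1 ≡ s'+1 [MOD p] := Nat.ModEq.cancel_left_of_coprime hcop h2
    exact Nat.ModEq.add_right_cancel' 1 h3
  have h3 : s % p = s' % p := hmod
  have h4 : s / p = s' / p := h
  rw [← Nat.div_add_mod s p, ← Nat.div_add_mod s' p, h3, h4]

lemma card_primes (Y : ℕ) : ((Finset.range (Y+1)).filter Nat.Prime).card = Nat.primeCounting Y := by
  rw [Nat.primeCounting, Nat.primeCounting', Nat.count_eq_card_filter_range]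

lemma comb (N z Y S : ℕ) (hNz : N ≤ z) (hz : 0 < z)
    (hS : N * Nat.primeCounting Y * (S / z + 1) < S) :
    ∃ t : ℕ, 1 ≤ t ∧ t ≤ N.factorial * 4^z * S ∧ ∀ a, 1 ≤ a → a ≤ N → a ∣ t ∧
      ∀ p : ℕ, p.Prime → p ∣ 1 + t / a → Y < p := by
  classical
  set c : ℕ → ℕ := fun a => (N.factorial / a) * primorial z with hc
  let I := ((Finset.range (Y+1)).filter Nat.Prime).filter (fun p => z < p) ×ˢ Finset.Icc 1 N
  let bad := I.biUnion (fun x => (Finset.range S).filter (fun s => x.1 ∣ 1 + c x.2 * (s+1)))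
  have hcop : ∀ p a : ℕ, p.Prime → z < p → 1 ≤ a → a ≤ N → ¬ p ∣ c a := by
    intro p a hp hpz ha haN hd
    rcases (Nat.Prime.dvd_mul hp).1 hd with h | h
    · have h1 : p ∣ N.factorial := h.trans (Nat.div_dvd_of_dvd (Nat.dvd_factorial (by omega) haN))
      have := (Nat.Prime.dvd_factorial hp).1 h1
      omega
    · have := (Nat.Prime.dvd_primorial_iff hp).1 h
      omega
  have hbad : bad.card < S := by
    refine lt_of_le_of_lt ?_ hS
    refine Finset.card_biUnion_le.trans ?_
    have h1 : ∀ x ∈ I, ((Finset.range S).filter (fun s => x.1 ∣ 1 + c x.2 * (s+1))).card ≤ S / z + 1 := by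
      rintro ⟨p, a⟩ hx
      simp only [I, Finset.mem_product, Finset.mem_filter, Finset.mem_Icc] at hx
      obtain ⟨⟨⟨_, hp⟩, hzp⟩, ha, haN⟩ := hx
      refine (count_bad p (c a) S hp (hcop p a hp hzp ha haN)).trans ?_
      have h9 : S / p ≤ S / z := Nat.div_le_div_left hzp.le hz
      exact Nat.add_le_add_right h9 1
    refine (Finset.sum_le_card_nsmul _ _ _ h1).trans ?_
    rw [smul_eq_mul]
    refine Nat.mul_le_mul_right _ ?_
    simp only [I]
    rw [Finset.card_product, Nat.card_Icc, mul_comm]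
    have h2 : (((Finset.range (Y+1)).filter Nat.Prime).filter (fun p => z < p)).card ≤ Nat.primeCounting Y := by
      rw [← card_primes]
      exact Finset.card_filter_le _ _
    have h3 : N + 1 - 1 = N := by omega
    rw [h3]
    exact Nat.mul_le_mul_left _ h2
  obtain ⟨s, hs, hsb⟩ := Finset.exists_mem_notMem_of_card_lt_card
    (s := bad) (t := Finset.range S) (by rwa [Finset.card_range])
  rw [Finset.mem_range] at hs
  refine ⟨N.factorial * primorial z * (s+1), ?_, ?_, ?_⟩
  · have h1 := Nat.factorial_pos N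
    have h2 := primorial_pos z
    exact Nat.mul_pos (Nat.mul_pos h1 h2) (by omega)
  · exact Nat.mul_le_mul (Nat.mul_le_mul_left _ (primorial_le_four_pow z)) (by omega)
  · intro a ha haN
    have hdvd : a ∣ N.factorial := Nat.dvd_factorial (by omega) haN
    have heq : N.factorial * primorial z * (s+1) = a * (c a * (s+1)) := by
      simp only [hc]
      conv_lhs => rw [← Nat.mul_div_cancel' hdvd]
      ring
    have hdiv : N.factorial * primorial z * (s+1) / a = c a * (s+1) := by
      rw [heq, Nat.mul_div_cancel_left _ (by omega)]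
    refine ⟨⟨_, heq⟩, ?_⟩
    intro p hp hpd
    rw [hdiv] at hpd
    by_contra hpY
    push Not at hpY
    by_cases hpz : p ≤ z
    · have h1 : p ∣ c a * (s+1) := by
        apply Dvd.dvd.mul_right
        simp only [hc]
        exact Dvd.dvd.mul_left ((Nat.Prime.dvd_primorial_iff hp).2 hpz) _
      have h2 : p ∣ 1 := (Nat.dvd_add_left h1).1 hpd
      exact hp.one_lt.ne' (Nat.dvd_one.1 h2)
    · apply hsb
      simp only [bad, I]
      rw [Finset.mem_biUnion]
      refine ⟨(p, a), ?_, ?_⟩
      · simp only [Finset.mem_product, Finset.mem_filter, Finset.mem_Icc, Finset.mem_range]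
        exact ⟨⟨⟨by omega, hp⟩, by omega⟩, ha, haN⟩
      · rw [Finset.mem_filter, Finset.mem_range]
        exact ⟨hs, hpd⟩

lemma card_pf (u Y : ℕ) (hu : u ≠ 0) (h : ∀ p : ℕ, p.Prime → p ∣ u → Y < p) :
    Y ^ u.primeFactors.card ≤ u := by
  have h1 : Y ^ u.primeFactors.card ≤ ∏ p ∈ u.primeFactors, p := by
    apply Finset.pow_card_le_prod
    intro p hp
    exact (h p (Nat.prime_of_mem_primeFactors hp) (Nat.dvd_of_mem_primeFactors hp)).le
  exact h1.trans (Nat.le_of_dvd (Nat.pos_of_ne_zero hu) (Nat.prod_primeFactors_dvd u))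

/-- primes introduced -/
def W (N t : ℕ) : Finset ℕ := (Finset.Icc 1 N).biUnion (fun a => (1 + t/a).primeFactors)

lemma W_card (N t Y : ℕ) (hY : 2 ≤ Y) (h : ∀ a, 1 ≤ a → a ≤ N → ∀ p : ℕ, p.Prime → p ∣ 1 + t / a → Y < p) :
    ((W N t).card : ℝ) * Real.log Y ≤ N * Real.log (1 + t) := by
  have hYl : 0 ≤ Real.log Y := Real.log_nonneg (by exact_mod_cast (by omega : 1 ≤ Y))
  have h1 : ((W N t).card : ℝ) ≤ ∑ a ∈ Finset.Icc 1 N, (((1 + t/a).primeFactors.card : ℕ) : ℝ) := by
    have := Finset.card_biUnion_le (s := Finset.Icc 1 N) (t := fun a => (1 + t/a).primeFactors)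
    exact_mod_cast this
  calc ((W N t).card : ℝ) * Real.log Y ≤ (∑ a ∈ Finset.Icc 1 N, (((1 + t/a).primeFactors.card : ℕ) : ℝ)) * Real.log Y :=
        mul_le_mul_of_nonneg_right h1 hYl
    _ = ∑ a ∈ Finset.Icc 1 N, (((1 + t/a).primeFactors.card : ℕ) : ℝ) * Real.log Y := Finset.sum_mul _ _ _
    _ ≤ ∑ a ∈ Finset.Icc 1 N, Real.log (1 + t) := by
        apply Finset.sum_le_sum
        intro a ha
        rw [Finset.mem_Icc] at ha
        have h2 := card_pf (1 + t/a) Y (by positivity) (h a ha.1 ha.2)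
        have h3 : ((Y : ℝ)) ^ (1 + t/a).primeFactors.card ≤ 1 + t := by
          have h4 : Y ^ (1 + t/a).primeFactors.card ≤ 1 + t :=
            h2.trans (Nat.add_le_add_left (Nat.div_le_self t a) 1)
          exact_mod_cast h4
        have h5 := Real.log_le_log (by positivity) h3
        rwa [Real.log_pow] at h5
    _ = N * Real.log (1 + t) := by
        rw [Finset.sum_const, Nat.card_Icc, nsmul_eq_mul]
        congr 2

lemma choice (N : ℕ) (hN : 1 ≤ N) (ε : ℝ) (hε : 0 < ε) :
    ∃ Y t : ℕ, 1 ≤ t ∧ (∀ a, 1 ≤ a → a ≤ N → a ∣ t ∧ ∀ p : ℕ, p.Prime → p ∣ 1 + t / a → Y < p) ∧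
      ((W N t).card : ℝ) ≤ ε * Nat.primeCounting Y := by
  obtain ⟨K, hK⟩ := exists_nat_gt (4 * N / ε)
  have hNR : (1:ℝ) ≤ N := by exact_mod_cast hN
  have hKpos : (0:ℝ) < K := lt_trans (by positivity) hK
  have hK1 : 1 ≤ K := by exact_mod_cast hKpos
  set A : ℝ := Real.log 2 + Real.log (N.factorial) + Real.log (4 * N) with hA
  -- eventual facts
  have hlog0 : Tendsto (fun Y : ℕ => Real.log Y / Y) atTop (𝓝 0) := by
    have h1 := Real.isLittleO_log_id_atTop.tendsto_div_nhds_zero
    exact h1.comp tendsto_natCast_atTop_atTop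
  have hloginf : Tendsto (fun Y : ℕ => Real.log Y) atTop atTop :=
    Real.tendsto_log_atTop.comp tendsto_natCast_atTop_atTop
  have e1 : ∀ᶠ Y : ℕ in atTop, (Nat.primeCounting Y : ℝ) ≤ 2 * Y / Real.log Y := by
    have h1 := Chebyshev.eventually_primeCounting_le (ε := 1/2) (by norm_num)
    have h2 := tendsto_natCast_atTop_atTop (R := ℝ) |>.eventually h1
    filter_upwards [h2, eventually_ge_atTop 2] with Y hY hY2
    rw [Nat.floor_natCast] at hY
    refine hY.trans ?_
    have hl4 : Real.log 4 ≤ 3/2 := by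
      have : (4:ℝ) = 2^2 := by norm_num
      rw [this, Real.log_pow]
      have := Real.log_two_lt_d9
      push_cast
      linarith
    have hlY : 0 < Real.log Y := Real.log_pos (by exact_mod_cast (by omega : 1 < Y))
    have : (Real.log 4 + 1/2) * (Y:ℝ) ≤ 2 * Y := mul_le_mul_of_nonneg_right (by linarith) (Nat.cast_nonneg _)
    exact div_le_div_of_nonneg_right this hlY.le
  have e1' : ∀ᶠ Y : ℕ in atTop, 8 * N * K ≤ Real.log Y := hloginf.eventually_ge_atTop _
  have e2 : ∀ᶠ Y : ℕ in atTop, Real.log Y / Y < 1/100 := hlog0.eventually_lt_const (by norm_num)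
  have e3 : ∀ᶠ Y : ℕ in atTop, Real.log Y / Y < 1/(10 * K) := hlog0.eventually_lt_const (by positivity)
  have e4 : ∀ᶠ Y : ℕ in atTop, 10 * K * A ≤ (Y:ℝ) := tendsto_natCast_atTop_atTop.eventually_ge_atTop _
  obtain ⟨Y, h1, h1', h2, h3, h4, h5, h6⟩ := (e1.and (e1'.and (e2.and (e3.and (e4.and
    ((eventually_ge_atTop (2 * K * (N+1))).and (eventually_ge_atTop 100))))))).exists
  have hYR : (100:ℝ) ≤ Y := by exact_mod_cast h6
  have hYpos : (0:ℝ) < Y := by linarith
  have hlY : 0 < Real.log Y := Real.log_pos (by linarith)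
  rw [div_lt_iff₀ hYpos] at h2 h3
  -- π(Y) bounds
  have hpiU : 2 * (N:ℝ) * Nat.primeCounting Y ≤ Y / (2 * K) := by
    have h7 : (Nat.primeCounting Y : ℝ) ≤ Y / (4 * N * K) := by
      refine h1.trans ?_
      rw [div_le_div_iff₀ hlY (by positivity)]
      nlinarith
    calc 2 * (N:ℝ) * Nat.primeCounting Y ≤ 2 * N * (Y / (4 * N * K)) :=
          mul_le_mul_of_nonneg_left h7 (by positivity)
      _ = Y / (2 * K) := by field_simp; ring
  have hpiL : (Y:ℝ)/2 ≤ Nat.primeCounting Y * Real.log Y := by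
    have h7 := Chebyshev.pi_ge Y
    rw [div_le_iff₀ hlY] at h7
    have h8 : Real.log (Y + 1) ≤ Real.log Y + Real.log 2 := by
      rw [← Real.log_mul (by positivity) (by norm_num)]
      exact Real.log_le_log (by positivity) (by linarith)
    have h9 := Real.log_two_gt_d9
    have h10 := Real.log_two_lt_d9
    nlinarith
  set z := Y / K with hz
  set S := 4 * N * Y with hS
  have hzge : Y / K ≥ 2 * (N+1) := by
    rw [ge_iff_le, Nat.le_div_iff_mul_le hK1]
    calc 2 * (N+1) * K = 2 * K * (N+1) := by ring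
      _ ≤ Y := h5
  have hzR : (Y:ℝ) / (2*K) ≤ z := by
    have h7 : (Y:ℝ) / K < z + 1 := by
      rw [div_lt_iff₀ hKpos]
      have h8 : Y < K * (Y / K + 1) := Nat.lt_mul_div_succ Y hK1
      have h9 : (Y:ℝ) < K * ((Y / K : ℕ) + 1) := by exact_mod_cast h8
      rw [hz]
      linarith
    have h8 : (1:ℝ) ≤ z := by
      have : 1 ≤ z := by omega
      exact_mod_cast this
    have h9 : (Y:ℝ) / (2*K) = (Y:ℝ)/K/2 := by field_simp
    rw [h9]; linarith
  have hNpi : 2 * N * Nat.primeCounting Y ≤ z := by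
    have : 2 * (N:ℝ) * Nat.primeCounting Y ≤ z := hpiU.trans hzR
    exact_mod_cast this
  have hzpos : 0 < z := by omega
  have hcond : N * Nat.primeCounting Y * (S / z + 1) < S := by
    have h7 : z * (S / z) ≤ S := Nat.mul_div_le S z
    have h8 : 2 * N * Nat.primeCounting Y * (S / z) ≤ z * (S / z) := Nat.mul_le_mul_right _ hNpi
    have h9 : z ≤ Y := Nat.div_le_self _ _
    have h10 : 2 * (N * Nat.primeCounting Y * (S / z + 1)) = 2 * N * Nat.primeCounting Y * (S/z) + 2 * N * Nat.primeCounting Y := by ring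
    have h11 : Y ≤ N * Y := Nat.le_mul_of_pos_left _ hN
    have h12 : S = 4 * (N * Y) := by rw [hS]; ring
    omega
  obtain ⟨t, ht1, htb, ht⟩ := comb N z Y S (by omega) hzpos hcond
  refine ⟨Y, t, ht1, ht, ?_⟩
  have hWc := W_card N t Y (by omega) (fun a ha haN => (ht a ha haN).2)
  -- log bound
  have hlogt : Real.log (1 + t) ≤ 2 * Y / K := by
    have h7 : (1 + t : ℝ) ≤ 2 * (N.factorial * 4^z * (4 * N * Y)) := by
      have h8 : (t:ℝ) ≤ N.factorial * 4^z * (4 * N * Y) := by
        have : t ≤ N.factorial * 4^z * (4 * N * Y) := htb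
        exact_mod_cast this
      have h9 : (1:ℝ) ≤ t := by exact_mod_cast ht1
      linarith
    have hf : (0:ℝ) < N.factorial := by exact_mod_cast Nat.factorial_pos N
    have h8 := Real.log_le_log (by positivity) h7
    have h9 : Real.log (2 * (N.factorial * 4^z * (4 * N * Y))) = A + z * Real.log 4 + Real.log Y := by
      rw [Real.log_mul (by norm_num) (by positivity), Real.log_mul (by positivity) (by positivity),
        Real.log_mul (by positivity) (by positivity), Real.log_mul (by positivity) (by positivity),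
        Real.log_pow, hA]
      ring
    rw [h9] at h8
    have hzY : (z:ℝ) ≤ Y / K := Nat.cast_div_le
    have hl4 : Real.log 4 ≤ 1.4 := by
      have : (4:ℝ) = 2^2 := by norm_num
      rw [this, Real.log_pow]
      have := Real.log_two_lt_d9
      push_cast
      linarith
    have hl40 : 0 ≤ Real.log 4 := Real.log_nonneg (by norm_num)
    have h10 : (z:ℝ) * Real.log 4 ≤ (Y/K) * 1.4 := mul_le_mul hzY hl4 hl40 (by positivity)
    have h11 : A ≤ (Y/K) * 0.1 := by
      have : A ≤ Y / (10 * K) := by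
        rw [le_div_iff₀ (by positivity)]
        linarith
      have h12 : (Y:ℝ) / (10 * K) = (Y/K) * 0.1 := by
        field_simp
        norm_num
      linarith
    have h13 : Real.log Y ≤ (Y/K) * 0.1 := by
      have : 1/(10 * (K:ℝ)) * Y = (Y/K) * 0.1 := by
        field_simp
        norm_num
      linarith
    have h14 : 2 * (Y:ℝ) / K = (Y/K) * 2 := by ring
    have h15 : (0:ℝ) ≤ Y/K := by positivity
    rw [h14]
    nlinarith
  have hfin : ((W N t).card : ℝ) * Real.log Y ≤ ε * Nat.primeCounting Y * Real.log Y := by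
    calc ((W N t).card : ℝ) * Real.log Y ≤ N * Real.log (1+t) := hWc
      _ ≤ N * (2 * Y / K) := mul_le_mul_of_nonneg_left hlogt (by positivity)
      _ ≤ ε * (Y/2) := by
          rw [div_lt_iff₀ hε] at hK
          rw [← mul_div_assoc, div_le_iff₀ hKpos]
          nlinarith
      _ ≤ ε * (Nat.primeCounting Y * Real.log Y) := mul_le_mul_of_nonneg_left hpiL hε.le
      _ = ε * Nat.primeCounting Y * Real.log Y := by ring
  exact le_of_mul_le_mul_right hfin hlY

/-- counting primes by parity of index -/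
lemma parity_count (x : ℕ) :
    ((Finset.range (x+1)).filter (fun p => p.Prime ∧ Even (Nat.primeCounting p))).card = Nat.primeCounting x / 2 ∧
    ((Finset.range (x+1)).filter (fun p => p.Prime ∧ ¬ Even (Nat.primeCounting p))).card = (Nat.primeCounting x + 1) / 2 := by
  induction x with
  | zero =>
    constructor <;> decide
  | succ x ih =>
    obtain ⟨h1, h2⟩ := ih
    rw [Finset.range_add_one (n := x+1), Finset.filter_insert, Finset.filter_insert]
    have hpc : Nat.primeCounting (x+1) = Nat.primeCounting x + if (x+1).Prime then 1 else 0 := by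
      rw [Nat.primeCounting, Nat.primeCounting', Nat.count_succ]
      rfl
    by_cases hp : (x+1).Prime
    · rw [if_pos hp] at hpc
      by_cases he : Even (Nat.primeCounting (x+1))
      · rw [if_pos ⟨hp, he⟩, if_neg (fun h => h.2 he), Finset.card_insert_of_notMem (by simp), h1, h2, hpc]
        rw [hpc] at he
        obtain ⟨k, hk⟩ := he
        omega
      · rw [if_neg (fun h => he h.2), if_pos ⟨hp, he⟩, Finset.card_insert_of_notMem (by simp), h1, h2, hpc]
        rw [hpc, Nat.not_even_iff_odd] at he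
        obtain ⟨k, hk⟩ := he
        omega
    · rw [if_neg hp] at hpc
      rw [if_neg (fun h => hp h.1), if_neg (fun h => hp h.1), h1, h2, hpc]
      omega

lemma bigO_of (f : ℕ → ℕ) (h : ∀ᶠ x : ℕ in atTop, (Nat.primeCounting x : ℝ) / 8 ≤ f x) :
    (fun x : ℕ ↦ (x : ℝ) / Real.log x) =O[atTop] (fun x ↦ (f x : ℝ)) := by
  apply IsBigO.of_bound 16
  have hlog0 : Tendsto (fun Y : ℕ => Real.log Y / Y) atTop (𝓝 0) := by
    have h1 := Real.isLittleO_log_id_atTop.tendsto_div_nhds_zero
    exact h1.comp tendsto_natCast_atTop_atTop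
  have e2 : ∀ᶠ Y : ℕ in atTop, Real.log Y / Y < 1/100 := hlog0.eventually_lt_const (by norm_num)
  filter_upwards [h, e2, eventually_ge_atTop 100] with Y hY h2 h6
  have hYR : (100:ℝ) ≤ Y := by exact_mod_cast h6
  have hYpos : (0:ℝ) < Y := by linarith
  have hlY : 0 < Real.log Y := Real.log_pos (by linarith)
  rw [div_lt_iff₀ hYpos] at h2
  have hpiL : (Y:ℝ)/2 ≤ Nat.primeCounting Y * Real.log Y := by
    have h7 := Chebyshev.pi_ge Y
    rw [div_le_iff₀ hlY] at h7
    have h8 : Real.log (Y + 1) ≤ Real.log Y + Real.log 2 := by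
      rw [← Real.log_mul (by positivity) (by norm_num)]
      exact Real.log_le_log (by positivity) (by linarith)
    have h9 := Real.log_two_gt_d9
    have h10 := Real.log_two_lt_d9
    nlinarith
  rw [Real.norm_of_nonneg (by positivity), Real.norm_of_nonneg (by positivity), div_le_iff₀ hlY]
  have h3 : (Nat.primeCounting Y : ℝ) / 8 * Real.log Y ≤ f Y * Real.log Y :=
    mul_le_mul_of_nonneg_right hY hlY.le
  nlinarith

theorem main :
    ∃ P : Set ℕ, P ⊆ {p : ℕ | p.Prime} ∧ (fun x : ℕ ↦ (x : ℝ) / Real.log x) =O[atTop] (fun x ↦ ((P ∩ Set.Iic x).ncard : ℝ)) ∧ (fun x : ℕ ↦ (x : ℝ) / Real.log x) =O[atTop] (fun x ↦ ((({p : ℕ | p.Prime} \ P) ∩ Set.Iic x).ncard : ℝ)) ∧ HasTranslationProperty (composedOf P) := by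
  classical
  have hch := fun n : ℕ => choice (n+1) (by omega) ((1/8) * (1/2)^n) (by positivity)
  choose Y t ht1 ht hW using hch
  set P : Set ℕ := {p | p.Prime ∧ (¬ Even (Nat.primeCounting p) ∨ ∃ n, p ∈ W (n+1) (t n))} with hP
  refine ⟨P, fun p hp => hp.1, ?_, ?_, ?_⟩
  · apply bigO_of
    filter_upwards with x
    have h1 := (parity_count x).2
    have h2 : (((Finset.range (x+1)).filter (fun p => p.Prime ∧ ¬ Even (Nat.primeCounting p)) : Finset ℕ) : Set ℕ) ⊆ P ∩ Set.Iic x := by
      intro p hp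
      rw [Finset.mem_coe, Finset.mem_filter, Finset.mem_range] at hp
      refine ⟨⟨hp.2.1, Or.inl hp.2.2⟩, ?_⟩
      rw [Set.mem_Iic]
      omega
    have h3 := Set.ncard_le_ncard h2 ((Set.finite_Iic x).subset Set.inter_subset_right)
    rw [Set.ncard_coe_finset, h1] at h3
    have h4 : (Nat.primeCounting x) ≤ 2 * (P ∩ Set.Iic x).ncard := by omega
    have h5 : (Nat.primeCounting x : ℝ) ≤ 2 * (P ∩ Set.Iic x).ncard := by exact_mod_cast h4
    have h6 : (0:ℝ) ≤ (P ∩ Set.Iic x).ncard := Nat.cast_nonneg _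
    linarith
  · apply bigO_of
    filter_upwards [Nat.tendsto_primeCounting.eventually_ge_atTop 8] with x hx
    have h1 := (parity_count x).1
    set D := (Finset.range (x+1)).filter (fun p => p.Prime ∧ Even (Nat.primeCounting p)) with hD
    set V := D.filter (fun p => ∃ n, p ∈ W (n+1) (t n)) with hV
    have hVc : (V.card : ℝ) ≤ Nat.primeCounting x / 4 := by
      have hex : ∀ p, p ∈ V → ∃ n, p ∈ W (n+1) (t n) := fun p hp => (Finset.mem_filter.1 hp).2
      choose! idx hidx using hex
      have hsub : V ⊆ (V.image idx).biUnion (fun n => W (n+1) (t n)) := by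
        intro p hp
        rw [Finset.mem_biUnion]
        exact ⟨idx p, Finset.mem_image_of_mem _ hp, hidx p hp⟩
      have hc1 : (V.card : ℝ) ≤ ∑ n ∈ V.image idx, ((W (n+1) (t n)).card : ℝ) := by
        have := (Finset.card_le_card hsub).trans Finset.card_biUnion_le
        exact_mod_cast this
      refine hc1.trans ?_
      have hc2 : ∀ n ∈ V.image idx, ((W (n+1) (t n)).card : ℝ) ≤ ((1/8) * (1/2)^n) * Nat.primeCounting x := by
        intro n hn
        rw [Finset.mem_image] at hn
        obtain ⟨p, hp, rfl⟩ := hn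
        refine (hW _).trans ?_
        refine mul_le_mul_of_nonneg_left ?_ (by positivity)
        have hpW := hidx p hp
        unfold W at hpW
        rw [Finset.mem_biUnion] at hpW
        obtain ⟨a, ha, hpa⟩ := hpW
        rw [Finset.mem_Icc] at ha
        have hlt := (ht (idx p) a ha.1 ha.2).2 p (Nat.prime_of_mem_primeFactors hpa)
          (Nat.dvd_of_mem_primeFactors hpa)
        have hpx : p ≤ x := by
          have := (Finset.mem_filter.1 (Finset.mem_filter.1 hp).1).1
          rw [Finset.mem_range] at this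
          omega
        exact_mod_cast Nat.monotone_primeCounting (by omega : Y (idx p) ≤ x)
      refine (Finset.sum_le_sum hc2).trans ?_
      rw [← Finset.sum_mul, ← Finset.mul_sum]
      have hgeo : ∑ n ∈ V.image idx, ((1:ℝ)/2)^n ≤ 2 := by
        have h9 := summable_geometric_two.sum_le_tsum (V.image idx) (fun n _ => by positivity)
        rwa [tsum_geometric_two] at h9
      have hpx0 : (0:ℝ) ≤ Nat.primeCounting x := Nat.cast_nonneg _
      nlinarith
    have h2 : ((D \ V : Finset ℕ) : Set ℕ) ⊆ ({p : ℕ | p.Prime} \ P) ∩ Set.Iic x := by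
      intro p hp
      rw [Finset.mem_coe, Finset.mem_sdiff] at hp
      obtain ⟨hpD, hpV⟩ := hp
      have hpD2 := Finset.mem_filter.1 hpD
      rw [Finset.mem_range] at hpD2
      refine ⟨⟨hpD2.2.1, ?_⟩, ?_⟩
      · rintro ⟨_, h | h⟩
        · exact h hpD2.2.2
        · exact hpV (Finset.mem_filter.2 ⟨hpD, h⟩)
      · rw [Set.mem_Iic]; omega
    have h3 := Set.ncard_le_ncard h2 ((Set.finite_Iic x).subset Set.inter_subset_right)
    rw [Set.ncard_coe_finset] at h3
    have h4 : D.card ≤ (D \ V).card + V.card := by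
      have := Finset.card_sdiff_add_card D V
      have h5 := Finset.card_le_card (Finset.subset_union_left (s₁ := D) (s₂ := V))
      omega
    have h5 : (D.card : ℝ) ≤ (({p : ℕ | p.Prime} \ P) ∩ Set.Iic x).ncard + V.card := by
      have : D.card ≤ (({p : ℕ | p.Prime} \ P) ∩ Set.Iic x).ncard + V.card := by omega
      exact_mod_cast this
    have h6 : (Nat.primeCounting x : ℝ) ≤ 2 * D.card + 1 := by
      have : Nat.primeCounting x ≤ 2 * D.card + 1 := by rw [h1]; omega
      exact_mod_cast this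
    have h7 : (8:ℝ) ≤ Nat.primeCounting x := by exact_mod_cast hx
    linarith
  · intro n
    refine ⟨t n, ht1 n, ?_⟩
    intro a ha han
    obtain ⟨hdvd, hbig⟩ := ht n a ha (by omega)
    have hfac : a + t n = a * (1 + t n / a) := by
      rw [mul_add, mul_one, Nat.mul_div_cancel' hdvd]
    constructor
    · rintro ⟨_, h⟩
      refine ⟨by omega, ?_⟩
      intro p hp hpd
      rw [hfac] at hpd
      rcases (Nat.Prime.dvd_mul hp).1 hpd with h1 | h1
      · exact h p hp h1
      · refine ⟨hp, Or.inr ⟨n, ?_⟩⟩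
        unfold W
        rw [Finset.mem_biUnion]
        exact ⟨a, Finset.mem_Icc.2 ⟨ha, by omega⟩, Nat.mem_primeFactors.2 ⟨hp, h1, by positivity⟩⟩
    · rintro ⟨_, h⟩
      refine ⟨by omega, ?_⟩
      intro p hp hpd
      apply h p hp
      rw [hfac]
      exact Dvd.dvd.mul_right hpd _

end Pool.Agent.TransPrimes
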