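import Mathlib
set_option autoImplicit false
set_option maxHeartbeats 4000000
set_option maxRecDepth 100000

open Matrix Polynomial

namespace Pool.Agent.TreeEnergy

/-! ### generic facts -/

section
variable {n : ℕ} {A : Matrix (Fin n) (Fin n) ℝ}

lemma pow_conj (hA : A.IsHermitian) (k : ℕ) :
    (star (hA.eigenvectorUnitary : Matrix (Fin n) (Fin n) ℝ)) * A ^ k *
      (hA.eigenvectorUnitary : Matrix (Fin n) (Fin n) ℝ) = diagonal (fun i => hA.eigenvalues i ^ k) := by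
  have h1 : (star (hA.eigenvectorUnitary : Matrix (Fin n) (Fin n) ℝ)) * A *
      (hA.eigenvectorUnitary : Matrix (Fin n) (Fin n) ℝ) = diagonal (fun i => hA.eigenvalues i) := by
    have := hA.conjStarAlgAut_star_eigenvectorUnitary
    simpa [Unitary.conjStarAlgAut_apply, Function.comp_def] using this
  have h2 : (hA.eigenvectorUnitary : Matrix (Fin n) (Fin n) ℝ) *
      (star (hA.eigenvectorUnitary : Matrix (Fin n) (Fin n) ℝ)) = 1 := by
    simp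
  have h3 : (star (hA.eigenvectorUnitary : Matrix (Fin n) (Fin n) ℝ)) *
      (hA.eigenvectorUnitary : Matrix (Fin n) (Fin n) ℝ) = 1 := by
    simp
  induction k with
  | zero => simp
  | succ k ih =>
    have : (star (hA.eigenvectorUnitary : Matrix (Fin n) (Fin n) ℝ)) * A ^ (k + 1) *
      (hA.eigenvectorUnitary : Matrix (Fin n) (Fin n) ℝ) =
      ((star (hA.eigenvectorUnitary : Matrix (Fin n) (Fin n) ℝ)) * A ^ k *
      (hA.eigenvectorUnitary : Matrix (Fin n) (Fin n) ℝ)) *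
      ((star (hA.eigenvectorUnitary : Matrix (Fin n) (Fin n) ℝ)) * A *
      (hA.eigenvectorUnitary : Matrix (Fin n) (Fin n) ℝ)) := by
      calc _ = (star (hA.eigenvectorUnitary : Matrix (Fin n) (Fin n) ℝ)) * A ^ k * 1 * A *
            (hA.eigenvectorUnitary : Matrix (Fin n) (Fin n) ℝ) := by
              rw [pow_succ]; simp only [mul_one, mul_assoc]
        _ = _ := by rw [← h2]; simp only [mul_assoc]
    rw [this, ih, h1, diagonal_mul_diagonal]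
    congr 1

lemma trace_pow (hA : A.IsHermitian) (k : ℕ) : (A ^ k).trace = ∑ i, hA.eigenvalues i ^ k := by
  have h := congrArg Matrix.trace (pow_conj hA k)
  rw [trace_mul_cycle, trace_diagonal] at h
  rw [← h]
  congr 1
  have h2 : (hA.eigenvectorUnitary : Matrix (Fin n) (Fin n) ℝ) *
      (star (hA.eigenvectorUnitary : Matrix (Fin n) (Fin n) ℝ)) = 1 := by
    simp
  rw [h2, one_mul]

lemma root_of_vec (t : ℝ) (v : Fin n → ℝ) (hv : v ≠ 0) (h : A *ᵥ v = t • v) :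
    t ∈ A.charpoly.roots := by
  rw [Polynomial.mem_roots A.charpoly_monic.ne_zero, Polynomial.IsRoot.def, Matrix.eval_charpoly]
  rw [← Matrix.exists_mulVec_eq_zero_iff]
  refine ⟨v, hv, ?_⟩
  rw [Matrix.sub_mulVec, h]
  simp

end

/-! ### the trees -/

def parT : Fin 12 → Fin 12 := ![0, 0, 0, 1, 0, 2, 4, 0, 7, 0, 9, 0]

def T : SimpleGraph (Fin 12) := SimpleGraph.fromRel (fun i j => parT i = j)

instance : DecidableRel T.Adj := by unfold T; infer_instance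

lemma T_tree : T.IsTree := by
  rw [SimpleGraph.isTree_iff_connected_and_card]
  constructor
  · have hstep : ∀ v : Fin 12, v ≠ 0 → T.Adj v (parT v) ∧ parT v < v := by decide +kernel
    have h : ∀ m : ℕ, ∀ v : Fin 12, v.val ≤ m → T.Reachable v 0 := by
      intro m
      induction m with
      | zero => 
        intro v hv
        have : v = 0 := Fin.ext (by simpa using hv)
        subst this
        exact SimpleGraph.Reachable.refl _
      | succ m ih =>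
        intro v hv
        by_cases h0 : v = 0
        · subst h0; exact SimpleGraph.Reachable.refl _
        · obtain ⟨h1, h2⟩ := hstep v h0
          exact (SimpleGraph.Adj.reachable h1).trans (ih _ (by have := Fin.lt_def.mp h2; omega))
    have h' : ∀ v : Fin 12, T.Reachable v 0 := fun v => h 12 v (by omega)
    exact { preconnected := fun u v => (h' u).trans (h' v).symm, nonempty := ⟨0⟩ }
  · rw [Nat.card_eq_fintype_card, ← SimpleGraph.edgeFinset_card, Nat.card_eq_fintype_card, Fintype.card_fin]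
    decide +kernel

def parS : Fin 12 → Fin 12 := ![0, 0, 0, 1, 2, 3, 4, 5, 0, 8, 9, 7]

def S : SimpleGraph (Fin 12) := SimpleGraph.fromRel (fun i j => parS i = j)

instance : DecidableRel S.Adj := by unfold S; infer_instance

lemma S_tree : S.IsTree := by
  rw [SimpleGraph.isTree_iff_connected_and_card]
  constructor
  · have hstep : ∀ v : Fin 12, v ≠ 0 → S.Adj v (parS v) ∧ parS v < v := by decide +kernel
    have h : ∀ m : ℕ, ∀ v : Fin 12, v.val ≤ m → S.Reachable v 0 := by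
      intro m
      induction m with
      | zero => 
        intro v hv
        have : v = 0 := Fin.ext (by simpa using hv)
        subst this
        exact SimpleGraph.Reachable.refl _
      | succ m ih =>
        intro v hv
        by_cases h0 : v = 0
        · subst h0; exact SimpleGraph.Reachable.refl _
        · obtain ⟨h1, h2⟩ := hstep v h0
          exact (SimpleGraph.Adj.reachable h1).trans (ih _ (by have := Fin.lt_def.mp h2; omega))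
    have h' : ∀ v : Fin 12, S.Reachable v 0 := fun v => h 12 v (by omega)
    exact { preconnected := fun u v => (h' u).trans (h' v).symm, nonempty := ⟨0⟩ }
  · rw [Nat.card_eq_fintype_card, ← SimpleGraph.edgeFinset_card, Nat.card_eq_fintype_card, Fintype.card_fin]
    decide +kernel


def A2 : Matrix (Fin 12) (Fin 12) ℤ := !![6, 0, 0, 1, 0, 1, 1, 0, 1, 0, 1, 0; 0, 2, 1, 0, 1, 0, 0, 1, 0, 1, 0, 1; 0, 1, 2, 0, 1, 0, 0, 1, 0, 1, 0, 1; 1, 0, 0, 1, 0, 0, 0, 0, 0, 0, 0, 0; 0, 1, 1, 0, 2, 0, 0, 1, 0, 1, 0, 1; 1, 0, 0, 0, 0, 1, 0, 0, 0, 0, 0, 0; 1, 0, 0, 0, 0, 0, 1, 0, 0, 0, 0, 0; 0, 1, 1, 0, 1, 0, 0, 2, 0, 1, 0, 1; 1, 0, 0, 0, 0, 0, 0, 0, 1, 0, 0, 0; 0, 1, 1, 0, 1, 0, 0, 1, 0, 2, 0, 1; 1, 0, 0, 0, 0, 0, 0, 0, 0, 0, 1, 0; 0, 1, 1, 0, 1, 0, 0, 1, 0, 1, 0, 1]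
def A4 : Matrix (Fin 12) (Fin 12) ℤ := !![41, 0, 0, 7, 0, 7, 7, 0, 7, 0, 7, 0; 0, 9, 8, 0, 8, 0, 0, 8, 0, 8, 0, 7; 0, 8, 9, 0, 8, 0, 0, 8, 0, 8, 0, 7; 7, 0, 0, 2, 0, 1, 1, 0, 1, 0, 1, 0; 0, 8, 8, 0, 9, 0, 0, 8, 0, 8, 0, 7; 7, 0, 0, 1, 0, 2, 1, 0, 1, 0, 1, 0; 7, 0, 0, 1, 0, 1, 2, 0, 1, 0, 1, 0; 0, 8, 8, 0, 8, 0, 0, 9, 0, 8, 0, 7; 7, 0, 0, 1, 0, 1, 1, 0, 2, 0, 1, 0; 0, 8, 8, 0, 8, 0, 0, 8, 0, 9, 0, 7; 7, 0, 0, 1, 0, 1, 1, 0, 1, 0, 2, 0; 0, 7, 7, 0, 7, 0, 0, 7, 0, 7, 0, 6]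
def CC : Matrix (Fin 12) (Fin 12) ℤ := !![0, 0, 0, 0, 0, 0, 0, 0, 0, 0, 0, 1; 0, 0, 0, 1, 0, 0, 0, 0, 0, 0, 0, 0; 0, 0, 0, 0, 0, 1, 0, 0, 0, 0, 0, 0; 0, 1, 0, 0, 0, 0, 0, 0, 0, 0, 0, -1; 0, 0, 0, 0, 0, 0, 1, 0, 0, 0, 0, 0; 0, 0, 1, 0, 0, 0, 0, 0, 0, 0, 0, -1; 0, 0, 0, 0, 1, 0, 0, 0, 0, 0, 0, -1; 0, 0, 0, 0, 0, 0, 0, 0, 1, 0, 0, 0; 0, 0, 0, 0, 0, 0, 0, 1, 0, 0, 0, -1; 0, 0, 0, 0, 0, 0, 0, 0, 0, 0, 1, 0; 0, 0, 0, 0, 0, 0, 0, 0, 0, 1, 0, -1; 1, 0, 0, -1, 0, -1, -1, 0, -1, 0, -1, 0]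

lemma hA2 : T.adjMatrix ℤ * T.adjMatrix ℤ = A2 := by decide +kernel
lemma hA4 : A2 * A2 = A4 := by decide +kernel
lemma hA6 : A4 * A2 = 8 • A4 - 8 • A2 + 1 := by decide +kernel
lemma hC : T.adjMatrix ℤ * CC = 1 := by decide +kernel
lemma tr2 : A2.trace = 22 := by decide +kernel
lemma tr4 : A4.trace = 102 := by decide +kernel


lemma map_adj (G : SimpleGraph (Fin 12)) [DecidableRel G.Adj] :
    (G.adjMatrix ℤ).map (Int.cast : ℤ → ℝ) = G.adjMatrix ℝ := by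
  ext i j
  simp [SimpleGraph.adjMatrix_apply]

abbrev φ : Matrix (Fin 12) (Fin 12) ℤ →+* Matrix (Fin 12) (Fin 12) ℝ := (Int.castRingHom ℝ).mapMatrix

lemma φ_T : φ (T.adjMatrix ℤ) = T.adjMatrix ℝ := map_adj T

lemma T2 : T.adjMatrix ℝ ^ 2 = φ A2 := by rw [pow_two, ← φ_T, ← map_mul, hA2]
lemma T4 : T.adjMatrix ℝ ^ 4 = φ A4 := by
  rw [show (4 : ℕ) = 2 * 2 by norm_num, pow_mul, T2, pow_two, ← map_mul, hA4]
lemma T6 : T.adjMatrix ℝ ^ 6 = 8 • (T.adjMatrix ℝ) ^ 4 - 8 • T.adjMatrix ℝ ^ 2 + 1 := by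
  rw [show (6 : ℕ) = 4 + 2 by norm_num, pow_add, T4, T2, ← map_mul, hA6, map_add, map_sub,
    map_nsmul, map_nsmul, map_one]

lemma hT : (T.adjMatrix ℝ).IsHermitian := by
  rw [Matrix.IsHermitian, Matrix.conjTranspose_eq_transpose_of_trivial]
  exact SimpleGraph.transpose_adjMatrix _

lemma eig (i : Fin 12) : hT.eigenvalues i ^ 6 - 8 * hT.eigenvalues i ^ 4 + 8 * hT.eigenvalues i ^ 2 - 1 = 0 := by
  have h6 := pow_conj hT 6
  have h4 := pow_conj hT 4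
  have h2 := pow_conj hT 2
  have h0 := pow_conj hT 0
  rw [T6, mul_add, mul_sub, add_mul, sub_mul, mul_smul_comm, mul_smul_comm, smul_mul_assoc,
    smul_mul_assoc, h4, h2] at h6
  rw [pow_zero] at h0
  rw [h0] at h6
  have := congrFun (congrFun h6 i) i
  simp only [Matrix.add_apply, Matrix.sub_apply, Matrix.smul_apply, Matrix.diagonal_apply_eq] at this
  simp only [nsmul_eq_mul, pow_zero, Nat.cast_ofNat] at this
  linarith

lemma tr2' : ∑ i, hT.eigenvalues i ^ 2 = 22 := by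
  rw [← trace_pow hT 2, T2]
  have := congrArg (Int.cast : ℤ → ℝ) tr2
  simpa [Matrix.trace] using this

lemma tr4' : ∑ i, hT.eigenvalues i ^ 4 = 102 := by
  rw [← trace_pow hT 4, T4]
  have := congrArg (Int.cast : ℤ → ℝ) tr4
  simpa [Matrix.trace] using this

lemma abs_eig (x : ℝ) (h : x ^ 6 - 8 * x ^ 4 + 8 * x ^ 2 - 1 = 0) :
    |x| = (x ^ 2 + 1) / 3 - (x ^ 4 - 7 * x ^ 2 + 1) / 15 := by
  have h1 : (x ^ 2 - 1) * (x ^ 4 - 7 * x ^ 2 + 1) = 0 := by linear_combination h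
  have h2 : |x| ^ 2 = x ^ 2 := sq_abs x
  have h3 : 0 ≤ |x| := abs_nonneg x
  rcases mul_eq_zero.mp h1 with h4 | h4
  · have h5 : |x| ^ 2 = 1 := by linarith
    have h6 : |x| = 1 := by nlinarith
    rw [h6]
    have h7 : x ^ 2 = 1 := by linarith
    rw [show x ^ 4 = (x ^ 2) ^ 2 by ring, h7]
    norm_num
  · rw [h4]
    have h5 : (|x| - (x ^ 2 + 1) / 3) * (|x| + (x ^ 2 + 1) / 3) = 0 := by
      have : (|x| - (x ^ 2 + 1) / 3) * (|x| + (x ^ 2 + 1) / 3) = |x| ^ 2 - ((x ^ 2 + 1) / 3) ^ 2 := by ring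
      rw [this, h2]
      linear_combination -(1 / 9 : ℝ) * h4
    rcases mul_eq_zero.mp h5 with h6 | h6
    · linarith
    · have : 0 ≤ x ^ 2 := sq_nonneg x
      nlinarith

lemma T_sum : ((T.adjMatrix ℝ).charpoly.roots.map (fun x : ℝ => |x|)).sum = 14 := by
  rw [hT.roots_charpoly_eq_eigenvalues, Multiset.map_map]
  have : (Multiset.map ((fun x : ℝ => |x|) ∘ (RCLike.ofReal ∘ hT.eigenvalues)) Finset.univ.val).sum =
      ∑ i, |hT.eigenvalues i| := by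
    rfl
  rw [this, Finset.sum_congr rfl (fun i _ => abs_eig _ (eig i))]
  have : ∑ i, ((hT.eigenvalues i ^ 2 + 1) / 3 - (hT.eigenvalues i ^ 4 - 7 * hT.eigenvalues i ^ 2 + 1) / 15)
      = ((∑ i, hT.eigenvalues i ^ 2) + 12) / 3 - ((∑ i, hT.eigenvalues i ^ 4) - 7 * (∑ i, hT.eigenvalues i ^ 2) + 12) / 15 := by
    rw [Finset.sum_sub_distrib, ← Finset.sum_div, ← Finset.sum_div, Finset.sum_add_distrib,
      Finset.sum_add_distrib, Finset.sum_sub_distrib, ← Finset.mul_sum]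
    simp
  rw [this, tr2', tr4']
  norm_num

lemma T_prod : ((T.adjMatrix ℝ).charpoly.roots.map (fun x : ℝ => |x|)).prod = 1 := by
  have h1 : ((T.adjMatrix ℝ).charpoly.roots.map (fun x : ℝ => |x|)).prod = |(T.adjMatrix ℝ).det| := by
    rw [hT.det_eq_prod_eigenvalues, hT.roots_charpoly_eq_eigenvalues, Multiset.map_map, Finset.abs_prod]
    rfl
  have h2 : (T.adjMatrix ℝ).det = (((T.adjMatrix ℤ).det : ℤ) : ℝ) := by
    rw [← map_adj, Int.cast_det]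
  have h3 : (T.adjMatrix ℤ).det * CC.det = 1 := by rw [← Matrix.det_mul, hC, Matrix.det_one]
  have h4 : IsUnit (T.adjMatrix ℤ).det := IsUnit.of_mul_eq_one _ h3
  rw [h1, h2]
  rcases Int.isUnit_iff.mp h4 with h | h <;> rw [h] <;> norm_num

/-! ### the tree `S` -/

noncomputable def vec (t : ℝ) : Fin 12 → ℝ :=
  ![(t ^ 2 - 2) * (t ^ 5 - 4 * t ^ 3 + 3 * t), (t ^ 2 - 2) * (t ^ 4 - 3 * t ^ 2 + 1),
    (t ^ 2 - 1) * (t ^ 4 - 4 * t ^ 2 + 3), (t ^ 2 - 2) * (t ^ 3 - 2 * t),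
    t * (t ^ 4 - 4 * t ^ 2 + 3), (t ^ 2 - 2) * (t ^ 2 - 1), t ^ 4 - 4 * t ^ 2 + 3, (t ^ 2 - 2) * t,
    (t ^ 2 - 1) * (t ^ 4 - 4 * t ^ 2 + 3), t * (t ^ 4 - 4 * t ^ 2 + 3), t ^ 4 - 4 * t ^ 2 + 3, t ^ 2 - 2]

def nb : Fin 12 → List (Fin 12) :=
  ![[1,2,8],[0,3],[0,4],[1,5],[2,6],[3,7],[4],[5,11],[0,9],[8,10],[9],[7]]

lemma S_nb : ∀ i, S.neighborFinset i = (nb i).toFinset := by decide +kernel

lemma S_mulVec (v : Fin 12 → ℝ) : S.adjMatrix ℝ *ᵥ v =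
    ![v 1 + v 2 + v 8, v 0 + v 3, v 0 + v 4, v 1 + v 5, v 2 + v 6, v 3 + v 7, v 4, v 5 + v 11,
      v 0 + v 9, v 8 + v 10, v 9, v 7] := by
  funext i
  rw [SimpleGraph.adjMatrix_mulVec_apply, S_nb]
  fin_cases i <;> simp [nb] <;> ring

lemma vec_eig (t : ℝ) (ht : t ^ 8 - 9 * t ^ 6 + 26 * t ^ 4 - 27 * t ^ 2 + 8 = 0) :
    S.adjMatrix ℝ *ᵥ vec t = t • vec t := by
  rw [S_mulVec]
  funext i
  fin_cases i <;> simp [vec] <;> first | ring1 | linear_combination (-1 : ℝ) * ht | linear_combination ht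

lemma mem_of_root (t : ℝ) (ht : t ^ 8 - 9 * t ^ 6 + 26 * t ^ 4 - 27 * t ^ 2 + 8 = 0) (h2 : t ^ 2 ≠ 2) :
    t ∈ (S.adjMatrix ℝ).charpoly.roots := by
  apply root_of_vec t (vec t) ?_ (vec_eig t ht)
  intro h
  have := congrFun h 11
  simp [vec] at this
  exact h2 (by linarith)

lemma mem_sqrt2 (t : ℝ) (ht : t ^ 2 = 2) : t ∈ (S.adjMatrix ℝ).charpoly.roots := by
  apply root_of_vec t ![0, 0, 1, 0, t, 0, 1, 0, -1, -t, -1, 0] ?_ ?_
  · intro h
    have := congrFun h 2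
    simp at this
  · rw [S_mulVec]
    funext i
    fin_cases i <;> simp <;> linarith

lemma mem_zero : (0 : ℝ) ∈ (S.adjMatrix ℝ).charpoly.roots := by
  apply root_of_vec 0 ![0, 0, 1, 0, 0, 0, -1, 0, -1, 0, 1, 0] ?_ ?_
  · intro h
    have := congrFun h 2
    simp at this
  · rw [S_mulVec]
    funext i
    fin_cases i <;> simp

lemma S_prod : ((S.adjMatrix ℝ).charpoly.roots.map (fun x : ℝ => |x|)).prod = 0 := by
  apply Multiset.prod_eq_zero
  rw [Multiset.mem_map]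
  exact ⟨0, mem_zero, by simp⟩

lemma ivt (a b : ℝ) (hab : a ≤ b) (f : ℝ → ℝ) (hf : Continuous f)
    (h : (f a ≤ 0 ∧ 0 ≤ f b) ∨ (0 ≤ f a ∧ f b ≤ 0)) : ∃ t, a ≤ t ∧ t ≤ b ∧ f t = 0 := by
  rcases h with h | h
  · obtain ⟨t, ht, h0⟩ := intermediate_value_Icc hab hf.continuousOn (Set.mem_Icc.mpr h)
    exact ⟨t, ht.1, ht.2, h0⟩
  · obtain ⟨t, ht, h0⟩ := intermediate_value_Icc' hab hf.continuousOn (Set.mem_Icc.mpr ⟨h.2, h.1⟩)
    exact ⟨t, ht.1, ht.2, h0⟩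

lemma S_sum : 14 ≤ ((S.adjMatrix ℝ).charpoly.roots.map (fun x : ℝ => |x|)).sum := by
  classical
  have hc : Continuous (fun t : ℝ => t ^ 8 - 9 * t ^ 6 + 26 * t ^ 4 - 27 * t ^ 2 + 8) := by fun_prop
  obtain ⟨t1, l1, u1, z1⟩ := ivt 0.70 0.71 (by norm_num) _ hc (by norm_num)
  obtain ⟨t2, l2, u2, z2⟩ := ivt 1.14 1.15 (by norm_num) _ hc (by norm_num)
  obtain ⟨t3, l3, u3, z3⟩ := ivt 1.68 1.69 (by norm_num) _ hc (by norm_num)
  obtain ⟨t4, l4, u4, z4⟩ := ivt 2.08 2.09 (by norm_num) _ hc (by norm_num)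
  try simp only at z1 z2 z3 z4
  have hs : (1.414 : ℝ) ≤ Real.sqrt 2 := by
    apply Real.le_sqrt_of_sq_le; norm_num
  have hs2 : Real.sqrt 2 ≤ 1.415 := by
    rw [Real.sqrt_le_left (by norm_num)]; norm_num
  have hsq : Real.sqrt 2 ^ 2 = 2 := Real.sq_sqrt (by norm_num)
  have hneg : ∀ t : ℝ, t ^ 8 - 9 * t ^ 6 + 26 * t ^ 4 - 27 * t ^ 2 + 8 = 0 →
      (-t) ^ 8 - 9 * (-t) ^ 6 + 26 * (-t) ^ 4 - 27 * (-t) ^ 2 + 8 = 0 := by
    intro t ht; rw [← ht]; ring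
  norm_num at l1 l2 l3 l4 u1 u2 u3 u4 hs hs2
  let s : List ℝ := [t1, t2, t3, t4, Real.sqrt 2, -t1, -t2, -t3, -t4, -Real.sqrt 2]
  have hnd : s.Nodup := by
    simp only [s, List.nodup_cons, List.mem_cons, List.not_mem_nil, or_false, not_or, not_false_eq_true,
      List.nodup_nil, and_true]
    refine ⟨⟨?_, ?_, ?_, ?_, ?_, ?_, ?_, ?_, ?_⟩, ⟨?_, ?_, ?_, ?_, ?_, ?_, ?_, ?_⟩,
      ⟨?_, ?_, ?_, ?_, ?_, ?_, ?_⟩, ⟨?_, ?_, ?_, ?_, ?_, ?_⟩, ⟨?_, ?_, ?_, ?_, ?_⟩,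
      ⟨?_, ?_, ?_, ?_⟩, ⟨?_, ?_, ?_⟩, ⟨?_, ?_⟩, ?_⟩ <;> intro h <;> linarith
  have hsum : (s.map (fun x : ℝ => |x|)).sum = 2 * (t1 + t2 + t3 + t4 + Real.sqrt 2) := by
    simp only [s, List.map_cons, List.map_nil, List.sum_cons, List.sum_nil, abs_neg]
    rw [abs_of_pos (show 0 < t1 by linarith), abs_of_pos (show 0 < t2 by linarith),
      abs_of_pos (show 0 < t3 by linarith), abs_of_pos (show 0 < t4 by linarith),
      abs_of_pos (show 0 < Real.sqrt 2 by linarith)]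
    ring
  have hsub : ∀ x ∈ s, x ∈ (S.adjMatrix ℝ).charpoly.roots := by
    intro x hx
    simp only [s, List.mem_cons, List.not_mem_nil, or_false] at hx
    rcases hx with rfl | rfl | rfl | rfl | rfl | rfl | rfl | rfl | rfl | rfl
    · exact mem_of_root _ z1 (by nlinarith)
    · exact mem_of_root _ z2 (by nlinarith)
    · exact mem_of_root _ z3 (by nlinarith)
    · exact mem_of_root _ z4 (by nlinarith)
    · exact mem_sqrt2 _ hsq
    · exact mem_of_root _ (hneg _ z1) (by nlinarith)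
    · exact mem_of_root _ (hneg _ z2) (by nlinarith)
    · exact mem_of_root _ (hneg _ z3) (by nlinarith)
    · exact mem_of_root _ (hneg _ z4) (by nlinarith)
    · exact mem_sqrt2 _ (by rw [neg_sq]; exact hsq)
  have hle : (s : Multiset ℝ) ≤ (S.adjMatrix ℝ).charpoly.roots := by
    rw [Multiset.le_iff_subset (Multiset.coe_nodup.mpr hnd)]
    intro x hx
    exact hsub x (by simpa using hx)
  obtain ⟨u, hu⟩ := Multiset.le_iff_exists_add.mp hle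
  rw [hu, Multiset.map_add, Multiset.sum_add]
  have h1 : ((s : Multiset ℝ).map (fun x : ℝ => |x|)).sum = (s.map (fun x : ℝ => |x|)).sum := by
    rw [Multiset.map_coe, Multiset.sum_coe]
  have h2 : 0 ≤ (u.map (fun x : ℝ => |x|)).sum := by
    apply Multiset.sum_nonneg
    intro x hx
    rw [Multiset.mem_map] at hx
    obtain ⟨y, -, rfl⟩ := hx
    exact abs_nonneg y
  rw [h1, hsum]
  linarith

theorem main : ¬ (∀ (n : ℕ) (T S : SimpleGraph (Fin n)) [DecidableRel T.Adj] [DecidableRel S.Adj],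
      Even n → T.IsTree → S.IsTree →
      ((T.adjMatrix ℝ).charpoly.roots.map (fun x : ℝ => |x|)).prod = 1 →
      ((S.adjMatrix ℝ).charpoly.roots.map (fun x : ℝ => |x|)).prod = 0 →
      ((S.adjMatrix ℝ).charpoly.roots.map (fun x : ℝ => |x|)).sum <
        ((T.adjMatrix ℝ).charpoly.roots.map (fun x : ℝ => |x|)).sum) := by
  intro h
  have := h 12 T S ⟨6, rfl⟩ T_tree S_tree T_prod S_prod
  rw [T_sum] at this
  exact absurd this (not_lt.mpr S_sum)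

end Pool.Agent.TreeEnergy
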