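import Mathlib
set_option autoImplicit false
set_option maxHeartbeats 4000000

open Filter Topology

namespace Pool.Agent.TriFun

/-- unit step at `c` -/
noncomputable def st (c : ℝ) : ℝ → ℝ := fun x => if c < x then (1 : ℝ) else 0

def D : Set (ℝ → ℝ) := {F : ℝ → ℝ | Monotone F ∧ (∀ x, 0 ≤ F x ∧ F x ≤ 1) ∧ (∀ x : ℝ, x ≤ 0 → F x = 0) ∧
            ∀ x : ℝ, ContinuousWithinAt F (Set.Iio x) x}

lemma st_cont (c x : ℝ) : ContinuousWithinAt (st c) (Set.Iio x) x := by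
  unfold ContinuousWithinAt
  by_cases h : c < x
  · have h1 : st c x = 1 := by simp [st, h]
    rw [h1]
    apply tendsto_const_nhds.congr'
    have : ∀ᶠ y in 𝓝[<] x, c < y := by
      apply Filter.Eventually.filter_mono nhdsWithin_le_nhds
      exact lt_mem_nhds h
    filter_upwards [this] with y hy
    simp [st, hy]
  · have h1 : st c x = 0 := by simp [st, h]
    rw [h1]
    apply tendsto_const_nhds.congr'
    filter_upwards [self_mem_nhdsWithin] with y hy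
    have : ¬ c < y := by
      have : y < x := hy
      linarith
    simp [st, this]

lemma st_mono (c : ℝ) : Monotone (st c) := by
  intro x y hxy
  unfold st
  split_ifs with h1 h2 <;> try norm_num
  linarith

lemma st_bd (c x : ℝ) : 0 ≤ st c x ∧ st c x ≤ 1 := by
  unfold st; split_ifs <;> norm_num

lemma st_mem (c : ℝ) (hc : 0 ≤ c) : st c ∈ D := by
  refine ⟨st_mono c, st_bd c, ?_, st_cont c⟩
  intro x hx
  simp [st, show ¬ c < x by linarith]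

lemma zero_mem : (0 : ℝ → ℝ) ∈ D := by
  refine ⟨monotone_const, fun x => by simp, fun x _ => rfl, fun x => continuousWithinAt_const⟩

lemma le_e (F : ℝ → ℝ) (hF : F ∈ D) : F ≤ st 0 := by
  intro x
  unfold st
  split_ifs with h
  · exact (hF.2.1 x).2
  · rw [hF.2.2.1 x (by linarith)]

lemma zero_le' (F : ℝ → ℝ) (hF : F ∈ D) : 0 ≤ F := fun x => (hF.2.1 x).1

lemma inf_mem (F G : ℝ → ℝ) (hF : F ∈ D) (hG : G ∈ D) : F ⊓ G ∈ D := by
  refine ⟨hF.1.inf hG.1, fun x => ⟨le_inf (hF.2.1 x).1 (hG.2.1 x).1, inf_le_left.trans (hF.2.1 x).2⟩,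
    fun x hx => ?_, fun x => ?_⟩
  · simp [hF.2.2.1 x hx, hG.2.2.1 x hx]
  · exact (hF.2.2.2 x).inf (hG.2.2.2 x)

open Classical in
noncomputable def τ (F G : ℝ → ℝ) : ℝ → ℝ :=
  if F = st 0 then G else if G = st 0 then F else if st 2 ≤ F ∧ st 2 ≤ G then F ⊓ G else 0

lemma τ_mem (F : ℝ → ℝ) (hF : F ∈ D) (G : ℝ → ℝ) (hG : G ∈ D) : τ F G ∈ D := by
  unfold τ
  split_ifs
  · exact hG
  · exact hF
  · exact inf_mem F G hF hG
  · exact zero_mem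

lemma τ_left (G : ℝ → ℝ) : τ (st 0) G = G := by
  unfold τ; rw [if_pos rfl]

lemma τ_right (F : ℝ → ℝ) : τ F (st 0) = F := by
  unfold τ
  by_cases h : F = st 0
  · rw [if_pos h, h]
  · rw [if_neg h, if_pos rfl]

lemma τ_pos (F G : ℝ → ℝ) (h1 : F ≠ st 0) (h2 : G ≠ st 0) (h3 : st 2 ≤ F ∧ st 2 ≤ G) :
    τ F G = F ⊓ G := by
  unfold τ; rw [if_neg h1, if_neg h2, if_pos h3]

lemma τ_neg (F G : ℝ → ℝ) (h1 : F ≠ st 0) (h2 : G ≠ st 0) (h3 : ¬ (st 2 ≤ F ∧ st 2 ≤ G)) :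
    τ F G = 0 := by
  unfold τ; rw [if_neg h1, if_neg h2, if_neg h3]

lemma τ_comm (F G : ℝ → ℝ) : τ F G = τ G F := by
  by_cases h1 : F = st 0
  · rw [h1, τ_left, τ_right]
  by_cases h2 : G = st 0
  · rw [h2, τ_left, τ_right]
  by_cases h3 : st 2 ≤ F ∧ st 2 ≤ G
  · rw [τ_pos F G h1 h2 h3, τ_pos G F h2 h1 h3.symm, inf_comm]
  · rw [τ_neg F G h1 h2 h3, τ_neg G F h2 h1 (fun h => h3 h.symm)]

lemma st2_not_le_zero : ¬ (st 2 ≤ (0 : ℝ → ℝ)) := by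
  intro h
  have := h 3
  simp [st] at this
  norm_num at this

lemma zero_ne : (0 : ℝ → ℝ) ≠ st 0 := by
  intro h
  have := congrFun h 1
  simp [st] at this

lemma inf_ne (F G : ℝ → ℝ) (hF : F ∈ D) (h : F ≠ st 0) : F ⊓ G ≠ st 0 := by
  intro h1
  apply h
  apply le_antisymm (le_e F hF)
  rw [← h1]
  exact inf_le_left

lemma τ_assoc (F : ℝ → ℝ) (hF : F ∈ D) (G : ℝ → ℝ) (hG : G ∈ D) (H : ℝ → ℝ) :
    τ (τ F G) H = τ F (τ G H) := by
  by_cases h1 : F = st 0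
  · rw [h1, τ_left, τ_left]
  by_cases h2 : G = st 0
  · rw [h2, τ_left, τ_right]
  by_cases h3 : H = st 0
  · rw [h3, τ_right, τ_right]
  have n1 := inf_ne F G hF h1
  have n2 := inf_ne G H hG h2
  by_cases a1 : st 2 ≤ F
  · by_cases a2 : st 2 ≤ G
    · by_cases a3 : st 2 ≤ H
      · rw [τ_pos F G h1 h2 ⟨a1, a2⟩, τ_pos G H h2 h3 ⟨a2, a3⟩, τ_pos _ _ n1 h3 ⟨le_inf a1 a2, a3⟩,
          τ_pos _ _ h1 n2 ⟨a1, le_inf a2 a3⟩, inf_assoc]
      · rw [τ_pos F G h1 h2 ⟨a1, a2⟩, τ_neg G H h2 h3 (fun h => a3 h.2), τ_neg _ _ n1 h3 (fun h => a3 h.2),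
          τ_neg _ _ h1 zero_ne (fun h => st2_not_le_zero h.2)]
    · rw [τ_neg F G h1 h2 (fun h => a2 h.2), τ_neg G H h2 h3 (fun h => a2 h.1),
        τ_neg _ _ zero_ne h3 (fun h => st2_not_le_zero h.1),
        τ_neg _ _ h1 zero_ne (fun h => st2_not_le_zero h.2)]
  · rw [τ_neg F G h1 h2 (fun h => a1 h.1), τ_neg _ _ zero_ne h3 (fun h => st2_not_le_zero h.1)]
    by_cases a2 : st 2 ≤ G ∧ st 2 ≤ H
    · rw [τ_pos G H h2 h3 a2, τ_neg _ _ h1 n2 (fun h => a1 h.1)]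
    · rw [τ_neg G H h2 h3 a2, τ_neg _ _ h1 zero_ne (fun h => a1 h.1)]

lemma τ_mono (F₁ : ℝ → ℝ) (hF1 : F₁ ∈ D) (F₂ : ℝ → ℝ) (hF2 : F₂ ∈ D) (G : ℝ → ℝ) (hG : G ∈ D)
    (h : F₁ ≤ F₂) : τ F₁ G ≤ τ F₂ G := by
  by_cases h1 : F₁ = st 0
  · have : F₂ = st 0 := le_antisymm (le_e _ hF2) (h1 ▸ h)
    rw [h1, this]
  by_cases h3 : G = st 0
  · rw [h3, τ_right, τ_right]; exact h
  by_cases h2 : F₂ = st 0
  · rw [h2, τ_left]
    by_cases h4 : st 2 ≤ F₁ ∧ st 2 ≤ G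
    · rw [τ_pos _ _ h1 h3 h4]; exact inf_le_right
    · rw [τ_neg _ _ h1 h3 h4]; exact zero_le' _ hG
  by_cases h4 : st 2 ≤ F₁ ∧ st 2 ≤ G
  · have h5 : st 2 ≤ F₂ ∧ st 2 ≤ G := ⟨h4.1.trans h, h4.2⟩
    rw [τ_pos _ _ h1 h3 h4, τ_pos _ _ h2 h3 h5]
    exact inf_le_inf_right _ h
  · rw [τ_neg _ _ h1 h3 h4]
    exact zero_le' _ (τ_mem _ hF2 _ hG)

noncomputable def A : ℝ → ℝ := fun x => 1 / 2 * st 0 x + 1 / 2 * st 2 x
noncomputable def B : ℝ → ℝ := fun x => 1 / 2 * st 0 x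

lemma A_mem : A ∈ D := by
  refine ⟨?_, fun x => ?_, fun x hx => ?_, fun x => ?_⟩
  · intro x y h
    have h1 := st_mono 0 h
    have h2 := st_mono 2 h
    simp only [A]; linarith
  · have h1 := st_bd 0 x
    have h2 := st_bd 2 x
    simp only [A]; constructor <;> linarith [h1.1, h1.2, h2.1, h2.2]
  · simp [A, st, show ¬ (0 < x) by linarith, show ¬ (2 < x) by linarith]
  · exact (continuousWithinAt_const.mul (st_cont 0 x)).add (continuousWithinAt_const.mul (st_cont 2 x))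

lemma B_mem : B ∈ D := by
  refine ⟨?_, fun x => ?_, fun x hx => ?_, fun x => ?_⟩
  · intro x y h
    have h1 := st_mono 0 h
    simp only [B]; linarith
  · have h1 := st_bd 0 x
    simp only [B]; constructor <;> linarith [h1.1, h1.2]
  · simp [B, st, show ¬ (0 < x) by linarith]
  · exact (continuousWithinAt_const.mul (st_cont 0 x))

theorem main : ¬ (∀ D : Set (ℝ → ℝ),
      D = {F : ℝ → ℝ | Monotone F ∧ (∀ x, 0 ≤ F x ∧ F x ≤ 1) ∧ (∀ x : ℝ, x ≤ 0 → F x = 0) ∧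
            ∀ x : ℝ, ContinuousWithinAt F (Set.Iio x) x} →
      ∀ τ : (ℝ → ℝ) → (ℝ → ℝ) → (ℝ → ℝ),
        (∀ F ∈ D, ∀ G ∈ D, τ F G ∈ D) →
        (∀ F ∈ D, ∀ G ∈ D, τ F G = τ G F) →
        (∀ F ∈ D, ∀ G ∈ D, ∀ H ∈ D, τ (τ F G) H = τ F (τ G H)) →
        (∀ F ∈ D, τ F (fun x : ℝ => if 0 < x then (1 : ℝ) else 0) = F) →
        (∀ F₁ ∈ D, ∀ F₂ ∈ D, ∀ G ∈ D, F₁ ≤ F₂ → τ F₁ G ≤ τ F₂ G) →
        ∀ a : ℝ, 0 < a →
          ∀ F₁ ∈ D, ∀ F₂ ∈ D, ∀ G₁ ∈ D, ∀ G₂ ∈ D,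
            (∀ x : ℝ, x ≤ a → F₁ x ≤ F₂ x) →
            (∀ x : ℝ, x ≤ a → G₁ x ≤ G₂ x) →
            ∀ x : ℝ, x ≤ a → τ F₁ G₁ x ≤ τ F₂ G₂ x) := by
  intro hyp
  have hAB : ∀ x : ℝ, x ≤ 1 → A x ≤ B x := by
    intro x hx
    simp [A, B, st, show ¬ (2 < x) by linarith]
  have key := hyp D rfl τ τ_mem (fun F _ G _ => τ_comm F G) (fun F hF G hG H _ => τ_assoc F hF G hG H)
    (fun F hF => by
      exact τ_right F) τ_mono 1 one_pos A A_mem B B_mem A A_mem B B_mem hAB hAB 1 le_rfl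
  have hA0 : A ≠ st 0 := by
    intro h
    have := congrFun h 1
    simp [A, st] at this
    try norm_num at this
  have hB0 : B ≠ st 0 := by
    intro h
    have := congrFun h 1
    simp [B, st] at this
  have hA2 : st 2 ≤ A := by
    intro x
    have h1 := st_bd 2 x
    by_cases h : 2 < x
    · simp [A, st, h, show 0 < x by linarith]
      norm_num
    · have h3 : st 2 x = 0 := by simp [st, h]
      rw [h3]; exact (A_mem.2.1 x).1
  have hB2 : ¬ (st 2 ≤ B) := by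
    intro h
    have := h 3
    simp [B, st] at this
    norm_num at this
  have e1 : τ A A 1 = 1 / 2 := by
    rw [τ_pos A A hA0 hA0 ⟨hA2, hA2⟩, inf_idem]
    simp [A, st]
    try (intro h; norm_num at h)
  have e2 : τ B B 1 = 0 := by
    rw [τ_neg B B hB0 hB0 (fun h => hB2 h.1)]
    rfl
  rw [e1, e2] at key
  norm_num at key

end Pool.Agent.TriFun
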