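import Mathlib

set_option autoImplicit false

namespace Pool.Agent.Unicoh

/-- up-set masks of the 22 element poset -/
def UP : List ℕ := [3412355, 2, 82958, 8, 1843512, 32, 165088, 128, 256, 63266, 1024, 3083400, 4354,
  8480, 17410, 33824, 66568, 132224, 262144, 786440, 1310976, 2359424]

/-- down-set masks -/
def DN : List ℕ := [1, 20999, 4, 591900, 16, 41584, 64, 2230465, 1061649, 512, 249412, 2048, 4609,
  8720, 16900, 33344, 67588, 133184, 3934225, 526352, 1048593, 2099201]

def leB (a b : ℕ) : Bool := (UP.getD a 0).testBit b

lemma dn_spec : ∀ a < 22, ∀ b < 22, (DN.getD b 0).testBit a = leB a b := by decide +kernel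

/-- union of the sets `L[v]` over the bits `v` of `m` -/
def uni (L : List ℕ) (m : ℕ) : ℕ :=
  (List.range 22).foldl (fun acc v => if m.testBit v then acc ||| L.getD v 0 else acc) 0

lemma foldl_or_mono (L : List ℕ) (m : ℕ) (l : List ℕ) (acc i : ℕ) (h : acc.testBit i = true) :
    (l.foldl (fun acc v => if m.testBit v then acc ||| L.getD v 0 else acc) acc).testBit i = true := by
  induction l generalizing acc with
  | nil => simpa using h
  | cons v l ih =>
    rw [List.foldl_cons]
    apply ih
    split
    · rw [Nat.testBit_or, h]; rfl
    · exact h

lemma foldl_or_mem (L : List ℕ) (m : ℕ) (l : List ℕ) (acc i v : ℕ) (hv : v ∈ l)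
    (hm : m.testBit v = true) (h : (L.getD v 0).testBit i = true) :
    (l.foldl (fun acc v => if m.testBit v then acc ||| L.getD v 0 else acc) acc).testBit i = true := by
  induction l generalizing acc with
  | nil => simp at hv
  | cons w l ih =>
    rw [List.foldl_cons]
    rcases List.mem_cons.1 hv with rfl | hv
    · apply foldl_or_mono
      rw [if_pos hm, Nat.testBit_or, h, Bool.or_true]
    · exact ih _ hv

lemma uni_spec (L : List ℕ) (m i v : ℕ) (hv : v < 22) (hm : m.testBit v = true)
    (h : (L.getD v 0).testBit i = true) : (uni L m).testBit i = true :=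
  foldl_or_mem L m _ 0 i v (List.mem_range.2 hv) hm h

/-- one sweep of arc consistency -/
def sweep (D : List ℕ) : List ℕ :=
  let U := D.map (uni UP)
  let L := D.map (uni DN)
  (List.range 22).map (fun x => (List.range 22).foldl (fun d y =>
    if leB x y then d &&& L.getD y 0 else if leB y x then d &&& U.getD y 0 else d) (D.getD x 0))

/-- `f` respects the domains `D` -/
def Resp (f : ℕ → ℕ) (D : List ℕ) : Prop := ∀ x < 22, (D.getD x 0).testBit (f x) = true

structure Good (f : ℕ → ℕ) : Prop where
  lt : ∀ x < 22, f x < 22
  mono : ∀ x < 22, ∀ y < 22, leB x y = true → leB (f x) (f y) = true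

lemma foldl_and {α : Type} (l : List α) (g : ℕ → α → ℕ) (d i : ℕ)
    (hg : ∀ y ∈ l, ∀ d : ℕ, d.testBit i = true → (g d y).testBit i = true)
    (h : d.testBit i = true) : (l.foldl g d).testBit i = true := by
  induction l generalizing d with
  | nil => simpa using h
  | cons y l ih =>
    rw [List.foldl_cons]
    exact ih _ (fun z hz => hg z (List.mem_cons_of_mem _ hz)) (hg y List.mem_cons_self _ h)

lemma getD_map_zero (D : List ℕ) (g : ℕ → ℕ) (y i : ℕ) (hy : (D.getD y 0).testBit i = true) :
    (D.map g).getD y 0 = g (D.getD y 0) := by
  by_cases h : y < D.length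
  · simp [List.getD_eq_getElem?_getD, h]
  · rw [List.getD_eq_getElem?_getD, List.getElem?_eq_none (by omega)] at hy
    simp at hy

lemma sweep_sound {f : ℕ → ℕ} (hf : Good f) {D : List ℕ} (h : Resp f D) : Resp f (sweep D) := by
  intro x hx
  have e : (sweep D).getD x 0 = (List.range 22).foldl (fun d y =>
    if leB x y then d &&& (D.map (uni DN)).getD y 0 else
      if leB y x then d &&& (D.map (uni UP)).getD y 0 else d) (D.getD x 0) := by
    unfold sweep
    simp [List.getD_eq_getElem?_getD, hx]
  rw [e]
  apply foldl_and
  · intro y hy d hd
    rw [List.mem_range] at hy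
    have hy' := h y hy
    have hx' := h x hx
    split
    · rename_i hxy
      rw [Nat.testBit_and, hd, Bool.true_and, getD_map_zero D _ y _ hy']
      apply uni_spec DN _ _ (f y) (hf.lt y hy) hy'
      rw [dn_spec _ (hf.lt x hx) _ (hf.lt y hy)]
      exact hf.mono x hx y hy hxy
    · split
      · rename_i hyx
        rw [Nat.testBit_and, hd, Bool.true_and, getD_map_zero D _ y _ hy']
        apply uni_spec UP _ _ (f y) (hf.lt y hy) hy'
        exact hf.mono y hy x hx hyx
      · exact hd
  · exact h x hx

def popc (m : ℕ) : ℕ := (List.range 22).foldl (fun acc v => if m.testBit v then acc + 1 else acc) 0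

/-- index of a smallest domain with at least two elements -/
def choose (D : List ℕ) : ℕ :=
  ((List.range 22).foldl (fun (p : ℕ × ℕ) x => let c := popc (D.getD x 0)
    if 1 < c ∧ c < p.2 then (x, c) else p) (0, 100)).1

def refute : ℕ → List ℕ → Bool
  | 0, _ => false
  | k + 1, D =>
    if (List.range 22).any (fun x => D.getD x 0 == 0) then true
    else
      let D' := sweep D
      if D' == D then
        let b := choose D
        decide (b < 22) && (List.range 22).all (fun v => !((D.getD b 0).testBit v) || refute k (D.set b (2 ^ v)))
      else refute k D'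

lemma refute_sound {f : ℕ → ℕ} (hf : Good f) : ∀ (k : ℕ) (D : List ℕ), refute k D = true → ¬ Resp f D := by
  intro k
  induction k with
  | zero => intro D h; simp [refute] at h
  | succ k ih =>
    intro D h hR
    unfold refute at h
    split at h
    · rename_i hz
      rw [List.any_eq_true] at hz
      obtain ⟨x, hx, hz⟩ := hz
      rw [List.mem_range] at hx
      have := hR x hx
      rw [beq_iff_eq] at hz
      rw [hz] at this
      simp at this
    · simp only at h
      split at h
      · rw [Bool.and_eq_true, decide_eq_true_eq, List.all_eq_true] at h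
        obtain ⟨hb, hall⟩ := h
        have hv := hall (f (choose D)) (List.mem_range.2 (hf.lt _ hb))
        rw [hR _ hb] at hv
        simp only [Bool.not_true, Bool.false_or] at hv
        apply ih _ hv
        intro x hx
        rw [List.getD_eq_getElem?_getD, List.getElem?_set]
        by_cases hxb : choose D = x
        · subst hxb
          have hlen : choose D < D.length := by
            by_contra hcon
            have := hR _ hb
            rw [List.getD_eq_getElem?_getD, List.getElem?_eq_none (by omega)] at this
            simp at this
          simp [hlen, Nat.testBit_two_pow_self]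
        · rw [if_neg hxb]
          have := hR x hx
          rwa [List.getD_eq_getElem?_getD] at this
      · exact ih _ h (sweep_sound hf hR)

def D0 : List ℕ := (List.range 22).map (fun x => (2 ^ 22 - 1) - 2 ^ x)

lemma refute_D0 : refute 60 D0 = true := by decide +kernel

end Pool.Agent.Unicoh
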