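import Mathlib
import Pool.Agent.Lib.Unicoh

set_option autoImplicit false

namespace Pool.Agent.Unicoh

/-- the 22 element poset -/
def P : Type := Fin 22

instance : Fintype P := inferInstanceAs (Fintype (Fin 22))
instance : DecidableEq P := inferInstanceAs (DecidableEq (Fin 22))

/-- underlying element of `Fin 22` -/
def P.v (x : P) : Fin 22 := x
/-- element of `P` with a given index -/
def mkP (x : Fin 22) : P := x

instance : LE P := ⟨fun a b => leB a.v.val b.v.val = true⟩

instance : DecidableRel (α := P) (· ≤ ·) := fun a b => inferInstanceAs (Decidable (leB a.v.val b.v.val = true))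

lemma P_refl : ∀ a : P, a ≤ a := by decide +kernel
lemma P_trans : ∀ a b c : P, a ≤ b → b ≤ c → a ≤ c := by decide +kernel
lemma P_antisymm : ∀ a b : P, a ≤ b → b ≤ a → a = b := by decide +kernel

instance : PartialOrder P where
  le_refl := P_refl
  le_trans := P_trans
  le_antisymm := P_antisymm

instance : TopologicalSpace P := Topology.upperSet P
instance : Topology.IsUpperSet P := ⟨rfl⟩

lemma D0_spec : ∀ x < 22, ∀ v < 22, v ≠ x → (D0.getD x 0).testBit v = true := by decide +kernel

theorem fpp (f : P →o P) : ∃ x, f x = x := by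
  by_contra hcon
  push Not at hcon
  let g : ℕ → ℕ := fun x => if h : x < 22 then (f (mkP ⟨x, h⟩)).v.val else 0
  have gdef : ∀ x (h : x < 22), g x = (f (mkP ⟨x, h⟩)).v.val := fun x h => by simp [g, h]
  have hg : Good g := by
    refine ⟨?_, ?_⟩
    · intro x hx
      rw [gdef x hx]
      exact (f (mkP ⟨x, hx⟩)).v.isLt
    · intro x hx y hy hxy
      rw [gdef x hx, gdef y hy]
      have : (mkP ⟨x, hx⟩ : P) ≤ mkP ⟨y, hy⟩ := hxy
      exact f.monotone this
  apply refute_sound hg 60 D0 refute_D0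
  intro x hx
  apply D0_spec x hx _ (hg.lt x hx)
  rw [gdef x hx]
  intro h
  apply hcon (mkP ⟨x, hx⟩)
  exact Fin.ext h

lemma preconn_Iic (m : P) : IsPreconnected (Set.Iic m) := by
  rw [← Topology.IsUpperSet.closure_singleton]
  exact isPreconnected_singleton.closure

/-- finite unions of principal down-sets -/
def dset : List P → Set P
  | [] => ∅
  | m :: l => dset l ∪ Set.Iic m

instance decDset : ∀ (l : List P) (x : P), Decidable (x ∈ dset l)
  | [], x => isFalse (fun h => h)
  | m :: l, x => by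
    have := decDset l x
    have : Decidable (x ∈ Set.Iic m) := inferInstanceAs (Decidable (x ≤ m))
    exact inferInstanceAs (Decidable (x ∈ dset l ∨ x ∈ Set.Iic m))

lemma dset_closed (l : List P) : IsClosed (dset l) := by
  induction l with
  | nil => exact isClosed_empty
  | cons m l ih =>
    refine ih.union ?_
    rw [← Topology.IsUpperSet.closure_singleton]
    exact isClosed_closure

/-- chain condition -/
def chainOK : List P → Prop
  | [] => True
  | m :: l => (l = [] ∨ ∃ x : P, x ∈ dset l ∧ x ≤ m) ∧ chainOK l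

lemma dset_preconn (l : List P) (h : chainOK l) : IsPreconnected (dset l) := by
  induction l with
  | nil => exact isPreconnected_empty
  | cons m l ih =>
    obtain ⟨h1, h2⟩ := h
    rcases h1 with rfl | ⟨x, hx, hxm⟩
    · have : dset [m] = Set.Iic m := by simp [dset]
      rw [this]
      exact preconn_Iic m
    · exact IsPreconnected.union x hx hxm (ih h2) (preconn_Iic m)

def lA : List P := [mkP 5, mkP 8, mkP 1]
def lB : List P := [mkP 3, mkP 18, mkP 7, mkP 10]

lemma chainA : chainOK lA := by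
  refine ⟨Or.inr ?_, Or.inr ?_, Or.inl rfl, trivial⟩
  · decide +kernel
  · decide +kernel

lemma chainB : chainOK lB := by
  refine ⟨Or.inr ?_, Or.inr ?_, Or.inr ?_, Or.inl rfl, trivial⟩
  · decide +kernel
  · decide +kernel
  · decide +kernel

lemma cover : dset lA ∪ dset lB = Set.univ := by
  rw [Set.eq_univ_iff_forall]
  have : ∀ x : P, x ∈ dset lA ∨ x ∈ dset lB := by decide +kernel
  exact this

/-- the two pieces of the intersection -/
def c1 (x : P) : Bool := (1048593 : ℕ).testBit x.v.val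
def c2 (x : P) : Bool := (49732 : ℕ).testBit x.v.val

lemma notconn : ¬ IsPreconnected (dset lA ∩ dset lB) := by
  intro h
  let U : Set P := {y | ∃ x : P, c1 x = true ∧ x ≤ y}
  let V : Set P := {y | ∃ x : P, c2 x = true ∧ x ≤ y}
  have hU : IsOpen U := by
    rw [Topology.IsUpperSet.isOpen_iff_isUpperSet]
    rintro a b hab ⟨x, hx, hxa⟩
    exact ⟨x, hx, hxa.trans hab⟩
  have hV : IsOpen V := by
    rw [Topology.IsUpperSet.isOpen_iff_isUpperSet]
    rintro a b hab ⟨x, hx, hxa⟩
    exact ⟨x, hx, hxa.trans hab⟩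
  have h1 : ∀ x : P, (x ∈ dset lA ∧ x ∈ dset lB) → (c1 x = true ∨ c2 x = true) := by decide +kernel
  have h2 : ∀ z : P, (z ∈ dset lA ∧ z ∈ dset lB) →
      ¬ ((∃ x : P, c1 x = true ∧ x ≤ z) ∧ (∃ x : P, c2 x = true ∧ x ≤ z)) := by decide +kernel
  have h3 : ∃ x : P, (x ∈ dset lA ∧ x ∈ dset lB) ∧ c1 x = true := by decide +kernel
  have h4 : ∃ x : P, (x ∈ dset lA ∧ x ∈ dset lB) ∧ c2 x = true := by decide +kernel
  obtain ⟨z, ⟨hzA, hzB⟩, hzU, hzV⟩ := h U V hU hV (by
    intro x hx
    rcases h1 x hx with hx' | hx'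
    · exact Or.inl ⟨x, hx', le_refl x⟩
    · exact Or.inr ⟨x, hx', le_refl x⟩)
    (by obtain ⟨x, hx, hx'⟩ := h3; exact ⟨x, hx, x, hx', le_refl x⟩)
    (by obtain ⟨x, hx, hx'⟩ := h4; exact ⟨x, hx, x, hx', le_refl x⟩)
  exact h2 z ⟨hzA, hzB⟩ ⟨hzU, hzV⟩

theorem main :
    ¬ (∀ (X : Type) [PartialOrder X] [Fintype X] [TopologicalSpace X] [Topology.IsUpperSet X],
      (∀ f : X →o X, ∃ x, f x = x) →
        (ConnectedSpace X ∧
          ∀ A B : Set X, IsClosed A → IsClosed B → IsConnected A → IsConnected B →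
            A ∪ B = Set.univ → IsConnected (A ∩ B))) := by
  intro h
  obtain ⟨_, h2⟩ := h P fpp
  have := h2 (dset lA) (dset lB) (dset_closed _) (dset_closed _)
    ⟨⟨mkP 5, Or.inr (Set.mem_Iic.2 (le_refl _))⟩, dset_preconn _ chainA⟩
    ⟨⟨mkP 3, Or.inr (Set.mem_Iic.2 (le_refl _))⟩, dset_preconn _ chainB⟩ cover
  exact notconn this.isPreconnected

end Pool.Agent.Unicoh
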