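import Mathlib
import Pool.Agent.Lib.ProjApprox

set_option autoImplicit false
set_option maxHeartbeats 4000000
open MeasureTheory Filter Topology Set

namespace Pool.Agent.VecRange
open Pool.Agent.ProjApprox (C0 abs_le' norm_le' tend ev0 ev0_apply)

section gen
variable {α : Type} [MeasurableSpace α] {E : Type} [NormedAddCommGroup E] (ν : VectorMeasure α E)

lemma L0 (C : ℕ → Set α) (hm : ∀ i, MeasurableSet (C i)) (hd : Pairwise (Function.onFun Disjoint C)) :
    Tendsto (fun i => ν (C i)) atTop (𝓝 0) :=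
  (ν.hasSum_of_disjoint_iUnion hm hd).summable.tendsto_atTop_zero

lemma split (A B : Set α) (hA : MeasurableSet A) (hB : MeasurableSet B) :
    ν A = ν (A ∩ B) + ν (A \ B) := by
  rw [← ν.of_union _ (hA.inter hB) (hA.diff hB), Set.inter_union_sdiff]
  exact Set.disjoint_sdiff_right.mono_left Set.inter_subset_right

lemma disj_of_antitone (s : ℕ → Set α) (hs : Antitone s) :
    Pairwise (Function.onFun Disjoint (fun n => s n \ s (n+1))) := by
  have key : ∀ i j, i < j → Disjoint (s i \ s (i+1)) (s j \ s (j+1)) := by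
    intro i j hij
    rw [Set.disjoint_left]
    rintro x ⟨-, h2⟩ ⟨h3, -⟩
    exact h2 (hs (show i + 1 ≤ j from hij) h3)
  intro i j hij
  rcases lt_or_gt_of_ne hij with h | h
  · exact key i j h
  · exact (key j i h).symm

lemma disj_mono {C D : ℕ → Set α} (h : ∀ n, C n ⊆ D n) (hD : Pairwise (Function.onFun Disjoint D)) :
    Pairwise (Function.onFun Disjoint C) := fun i j hij => (hD hij).mono (h i) (h j)

lemma not_tendsto (C : ℕ → Set α) (hm : ∀ i, MeasurableSet (C i)) (hd : Pairwise (Function.onFun Disjoint C))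
    (η : ℝ) (hη : 0 < η) (h : ∀ i, η ≤ ‖ν (C i)‖) : False := by
  have h1 := (L0 ν C hm hd).norm
  rw [norm_zero] at h1
  have h2 := h1.eventually (gt_mem_nhds hη)
  obtain ⟨i, hi⟩ := h2.exists
  exact absurd (h i) (not_le.2 hi)

/-- boundedness of the range -/
lemma bdd : ∃ C : ℝ, ∀ A, MeasurableSet A → ‖ν A‖ ≤ C := by
  by_contra hcon
  push Not at hcon
  let U : Set α → Prop := fun A => MeasurableSet A ∧ ∀ C : ℝ, ∃ B, B ⊆ A ∧ MeasurableSet B ∧ C < ‖ν B‖
  have step : ∀ A, U A → ∃ B, B ⊆ A ∧ U B ∧ 1 ≤ ‖ν (A \ B)‖ := by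
    rintro A ⟨hA, hU⟩
    obtain ⟨B, hBA, hB, hBn⟩ := hU (‖ν A‖ + 1)
    have h1 : ν A = ν B + ν (A \ B) := by
      have := split ν A B hA hB
      rwa [Set.inter_eq_self_of_subset_right hBA] at this
    have h2 : 1 ≤ ‖ν (A \ B)‖ := by
      have : ν B = ν A - ν (A \ B) := by rw [h1]; abel
      have h3 := norm_sub_le (ν A) (ν (A \ B))
      rw [← this] at h3
      linarith
    by_cases hUB : U B
    · exact ⟨B, hBA, hUB, h2⟩
    · refine ⟨A \ B, Set.sdiff_subset, ⟨hA.diff hB, ?_⟩, ?_⟩
      · -- U B fails so bounded on B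
        have : ∃ C : ℝ, ∀ D, D ⊆ B → MeasurableSet D → ‖ν D‖ ≤ C := by
          by_contra hc
          push Not at hc
          exact hUB ⟨hB, hc⟩
        obtain ⟨C0', hC0⟩ := this
        intro C
        obtain ⟨D, hDA, hD, hDn⟩ := hU (C + C0')
        refine ⟨D \ B, Set.sdiff_subset_sdiff_left hDA, hD.diff hB, ?_⟩
        have h4 := split ν D B hD hB
        have h5 := norm_add_le (ν (D ∩ B)) (ν (D \ B))
        rw [← h4] at h5
        have h6 := hC0 (D ∩ B) Set.inter_subset_right (hD.inter hB)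
        linarith
      · rw [Set.sdiff_sdiff_cancel_left hBA]
        linarith [norm_nonneg (ν A)]
  have hU0 : U Set.univ := ⟨MeasurableSet.univ, fun C => by
    obtain ⟨A, hA, hAn⟩ := hcon C
    exact ⟨A, Set.subset_univ _, hA, hAn⟩⟩
  choose! nxt h1 h2 h3 using step
  let s : ℕ → Set α := fun n => nxt^[n] Set.univ
  have hs : ∀ n, U (s n) := by
    intro n
    induction n with
    | zero => exact hU0
    | succ n ih =>
      show U (nxt^[n+1] Set.univ)
      rw [Function.iterate_succ_apply']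
      exact h2 _ ih
  have hss : ∀ n, s (n+1) = nxt (s n) := fun n => Function.iterate_succ_apply' _ _ _
  have hanti : Antitone s := antitone_nat_of_succ_le (fun n => by rw [hss]; exact h1 _ (hs n))
  refine not_tendsto ν (fun n => s n \ s (n+1)) (fun n => (hs n).1.diff (hs (n+1)).1)
    (disj_of_antitone s hanti) 1 one_pos ?_
  intro n
  rw [hss]
  exact h3 _ (hs n)

end gen

section c0
variable {α : Type} [MeasurableSpace α] (ν : VectorMeasure α C0)

noncomputable def co (j : ℕ) : SignedMeasure α :=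
  ν.mapRange (ev0 j : C0 →ₗ[ℝ] ℝ).toAddMonoidHom (ev0 j).continuous

lemma co_apply (j : ℕ) (A : Set α) : co ν j A = ν A j := rfl

noncomputable def tv (j : ℕ) : Measure α := (co ν j).totalVariation

instance (j : ℕ) : IsFiniteMeasure (tv ν j) := by unfold tv; infer_instance

lemma LC (η : ℝ) (hη : 0 < η) : ∃ N : ℕ, ∃ δ : ℝ, 0 < δ ∧ ∀ B, MeasurableSet B →
    (∀ j ≤ N, tv ν j B < ENNReal.ofReal δ) → ‖ν B‖ < η := by
  by_contra hcon
  push Not at hcon
  have h0 : ∀ k : ℕ, ∃ B, MeasurableSet B ∧ (∀ j ≤ k, tv ν j B < ENNReal.ofReal ((1/2)^k)) ∧ η ≤ ‖ν B‖ := by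
    intro k
    exact hcon k ((1/2)^k) (by positivity)
  choose B hB hBt hBn using h0
  let Dk : ℕ → Set α := fun n => ⋃ i, B (i + n)
  have hDkm : ∀ n, MeasurableSet (Dk n) := fun n => MeasurableSet.iUnion fun i => hB _
  have hDanti : Antitone Dk := by
    apply antitone_nat_of_succ_le
    intro n x hx
    simp only [Dk, Set.mem_iUnion] at hx ⊢
    obtain ⟨i, hi⟩ := hx
    exact ⟨i + 1, by convert hi using 2; omega⟩
  let D : Set α := ⋂ n, Dk n
  have hDm : MeasurableSet D := MeasurableSet.iInter hDkm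
  have hD0 : ∀ j, tv ν j D = 0 := by
    intro j
    have h1 : tv ν j (limsup (fun i => B (i + j)) atTop) = 0 := by
      apply measure_limsup_atTop_eq_zero
      have h2 : ∑' i, tv ν j (B (i + j)) ≤ ∑' i : ℕ, ENNReal.ofReal ((1/2)^i) := by
        apply ENNReal.tsum_le_tsum
        intro i
        refine (hBt (i + j) j (by omega)).le.trans ?_
        apply ENNReal.ofReal_le_ofReal
        exact pow_le_pow_of_le_one (by norm_num) (by norm_num) (by omega)
      refine ne_top_of_le_ne_top ?_ h2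
      rw [← ENNReal.ofReal_tsum_of_nonneg (fun n => by positivity) summable_geometric_two]
      exact ENNReal.ofReal_ne_top
    refine measure_mono_null ?_ h1
    intro x hx
    rw [Filter.limsup_eq_iInf_iSup_of_nat]
    simp only [Set.iInf_eq_iInter, Set.iSup_eq_iUnion, Set.mem_iInter, Set.mem_iUnion]
    intro n
    have := Set.mem_iInter.1 hx (n + j)
    simp only [Dk, Set.mem_iUnion] at this
    obtain ⟨i, hi⟩ := this
    exact ⟨i + n, by omega, by convert hi using 2; omega⟩
  have hν0 : ∀ S, S ⊆ D → ν S = 0 := by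
    intro S hS
    apply ZeroAtInftyContinuousMap.ext
    intro j
    have h1 := SignedMeasure.norm_le_totalVariation (co ν j) S
    have h2 : (co ν j).totalVariation.real S = 0 := by
      rw [measureReal_def]
      have : (co ν j).totalVariation S = 0 := measure_mono_null hS (hD0 j)
      rw [this]; rfl
    rw [h2, co_apply] at h1
    have := norm_le_zero_iff.1 h1
    rw [this]; rfl
  let Ek : ℕ → Set α := fun n => Dk n \ D
  have hEm : ∀ n, MeasurableSet (Ek n) := fun n => (hDkm n).diff hDm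
  have hEanti : Antitone Ek := fun i j hij => Set.sdiff_subset_sdiff_left (hDanti hij)
  have hEe : ⋂ n, Ek n = ∅ := by
    ext x
    simp only [Ek, Set.mem_iInter, Set.mem_sdiff, Set.mem_empty_iff_false, iff_false]
    intro h
    exact (h 0).2 (Set.mem_iInter.2 fun n => (h n).1)
  let B' : ℕ → Set α := fun k => B k \ D
  have hB'm : ∀ k, MeasurableSet (B' k) := fun k => (hB k).diff hDm
  have hB'E : ∀ k, B' k ⊆ Ek k := by
    intro k x hx
    refine ⟨Set.mem_iUnion.2 ⟨0, by simpa using hx.1⟩, hx.2⟩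
  have hB'n : ∀ k, η ≤ ‖ν (B' k)‖ := by
    intro k
    have h1 := split ν (B k) D (hB k) hDm
    rw [hν0 _ Set.inter_subset_right, zero_add] at h1
    rw [← h1]; exact hBn k
  have hm : ∀ k, ∃ m, k < m ∧ ‖ν (B' k ∩ Ek m)‖ < η / 2 := by
    intro k
    have h1 : Tendsto (fun m => ν (B' k ∩ Ek m)) atTop (𝓝 (ν (⋂ m, B' k ∩ Ek m))) :=
      VectorMeasure.tendsto_vectorMeasure_iInter_atTop_nat
        (fun i j hij => Set.inter_subset_inter_right _ (hEanti hij)) (fun m => (hB'm k).inter (hEm m))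
    rw [← Set.inter_iInter, hEe, Set.inter_empty, ν.empty] at h1
    have h2 := h1.norm
    rw [norm_zero] at h2
    have h3 := h2.eventually (gt_mem_nhds (show 0 < η/2 by linarith))
    obtain ⟨m, hm1, hm2⟩ := (h3.and (eventually_gt_atTop k)).exists
    exact ⟨m, hm2, hm1⟩
  choose m hmk hmn using hm
  let kk : ℕ → ℕ := fun i => m^[i] 0
  have hkk : ∀ i, kk (i+1) = m (kk i) := fun i => Function.iterate_succ_apply' _ _ _
  have hkkm : Monotone kk := monotone_nat_of_le_succ (fun i => by rw [hkk]; exact (hmk _).le)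
  let s : ℕ → Set α := fun i => Ek (kk i)
  have hsanti : Antitone s := fun i j hij => hEanti (hkkm hij)
  refine not_tendsto ν (fun i => B' (kk i) \ Ek (kk (i+1))) (fun i => (hB'm _).diff (hEm _))
    (disj_mono (fun i => Set.sdiff_subset_sdiff_left (hB'E _)) (disj_of_antitone s hsanti)) (η/2) (by linarith) ?_
  intro i
  have h1 := split ν (B' (kk i)) (Ek (kk (i+1))) (hB'm _) (hEm _)
  have h2 := norm_add_le (ν (B' (kk i) ∩ Ek (kk (i+1)))) (ν (B' (kk i) \ Ek (kk (i+1))))
  rw [← h1] at h2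
  have h3 := hmn (kk i)
  rw [← hkk] at h3
  have h4 := hB'n (kk i)
  linarith

end c0

end Pool.Agent.VecRange
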