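import Mathlib

set_option autoImplicit false
set_option maxHeartbeats 4000000
open Finset

namespace Pool.Agent.VecRange

def sg (b : Bool) : ℝ := if b then 1 else -1

lemma sg_not (b : Bool) : sg (!b) = - sg b := by cases b <;> simp [sg]
lemma sg_sq (b : Bool) : sg b * sg b = 1 := by cases b <;> simp [sg]
lemma sg_abs (b : Bool) : |sg b| = 1 := by cases b <;> simp [sg]

def flip {n : ℕ} (i : Fin n) (ε : Fin n → Bool) : Fin n → Bool := fun k => if k = i then !ε k else ε k

lemma flip_inv {n : ℕ} (i : Fin n) : Function.Involutive (flip i) := by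
  intro ε
  ext k
  unfold flip
  split_ifs <;> simp

lemma orth {n : ℕ} (i j : Fin n) : ∑ ε : Fin n → Bool, sg (ε i) * sg (ε j) = if i = j then (2:ℝ)^n else 0 := by
  split_ifs with h
  · subst h
    simp [sg_sq]
  · have h1 := Equiv.sum_comp (Function.Involutive.toPerm (flip i) (flip_inv i)) (fun ε : Fin n → Bool => sg (ε i) * sg (ε j))
    have h2 : ∀ ε : Fin n → Bool, sg (((Function.Involutive.toPerm (flip i) (flip_inv i)) ε) i) * sg (((Function.Involutive.toPerm (flip i) (flip_inv i)) ε) j) = - (sg (ε i) * sg (ε j)) := by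
      intro ε
      show sg (flip i ε i) * sg (flip i ε j) = _
      have e1 : flip i ε i = !ε i := by simp [flip]
      have e2 : flip i ε j = ε j := by simp [flip, Ne.symm h]
      rw [e1, e2, sg_not]; ring
    simp_rw [h2] at h1
    rw [Finset.sum_neg_distrib] at h1
    linarith

lemma sum_sq {n : ℕ} (v : Fin n → ℝ) :
    ∑ ε : Fin n → Bool, (∑ j, sg (ε j) * v j)^2 = 2^n * ∑ j, v j ^2 := by
  have h1 : ∀ ε : Fin n → Bool, (∑ j, sg (ε j) * v j)^2 = ∑ i, ∑ j, (v i * v j) * (sg (ε i) * sg (ε j)) := by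
    intro ε
    rw [sq, Finset.sum_mul_sum]
    apply Finset.sum_congr rfl; intro i _
    apply Finset.sum_congr rfl; intro j _
    ring
  simp_rw [h1]
  rw [Finset.sum_comm]
  rw [Finset.mul_sum]
  apply Finset.sum_congr rfl; intro i _
  rw [Finset.sum_comm]
  simp_rw [← Finset.mul_sum, orth]
  simp
  ring

lemma R_le {n : ℕ} (v : Fin n → ℝ) (a : ℝ) (ha : 0 ≤ a) (hv : ∀ i, |v i| ≤ a) :
    ∑ ε : Fin n → Bool, |∑ j, sg (ε j) * v j| ≤ 2^n * (√n * a) := by
  have h1 : (∑ ε : Fin n → Bool, |∑ j, sg (ε j) * v j|)^2 ≤ (2^n * (√n * a))^2 := by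
    have h2 := sq_sum_le_card_mul_sum_sq (s := (Finset.univ : Finset (Fin n → Bool))) (f := fun ε => |∑ j, sg (ε j) * v j|)
    simp only [sq_abs] at h2
    rw [sum_sq] at h2
    refine h2.trans ?_
    have h3 : ∑ j, v j ^ 2 ≤ n * a^2 := by
      calc ∑ j, v j ^ 2 ≤ ∑ j : Fin n, a^2 := by
            apply Finset.sum_le_sum
            intro j _
            rw [← sq_abs]
            exact pow_le_pow_left₀ (abs_nonneg _) (hv j) 2
        _ = n * a^2 := by simp
    have h4 : ((Finset.univ : Finset (Fin n → Bool)).card : ℝ) = 2^n := by simp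
    rw [h4]
    have h5 : (2^n * (√n * a))^2 = 2^n * (2^n * (n * a^2)) := by
      rw [mul_pow, mul_pow, Real.sq_sqrt (by positivity)]; ring
    rw [h5]
    apply mul_le_mul_of_nonneg_left _ (by positivity)
    apply mul_le_mul_of_nonneg_left h3 (by positivity)
  exact (abs_le_of_sq_le_sq' h1 (by positivity)).2

lemma comb {n : ℕ} {T : Type} [Fintype T] (v : T → Fin n → ℝ) (τ : T → ℝ) (C δ M t0 : ℝ)
    (hτ : ∀ t, 0 ≤ τ t) (hδ : 0 < δ) (hM : 0 < M) (hMC : C < M * δ)
    (F1 : ∀ i, ∀ S : Finset T, |∑ t ∈ S, v t i| ≤ C)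
    (F2 : ∀ i, ∀ S : Finset T, ∑ t ∈ S, τ t < δ → |∑ t ∈ S, v t i| < 1/8)
    (F3 : ∑ t, τ t ≤ t0)
    (F4 : ∀ ε : Fin n → Bool, ∃ S : Finset T, ∀ i, ∑ t ∈ S, v t i = sg (ε i)) :
    (n : ℝ) ≤ √n * (M * t0) + n / 4 := by
  classical
  -- step 1
  have s1 : ∀ ε : Fin n → Bool, (n:ℝ) ≤ ∑ t, |∑ i, sg (ε i) * v t i| := by
    intro ε
    obtain ⟨S, hS⟩ := F4 ε
    calc (n:ℝ) = ∑ i : Fin n, sg (ε i) * sg (ε i) := by simp [sg_sq]
      _ = ∑ i : Fin n, sg (ε i) * ∑ t ∈ S, v t i := by simp_rw [hS]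
      _ = ∑ t ∈ S, ∑ i, sg (ε i) * v t i := by
          simp_rw [Finset.mul_sum]; rw [Finset.sum_comm]
      _ ≤ ∑ t ∈ S, |∑ i, sg (ε i) * v t i| := Finset.sum_le_sum fun t _ => le_abs_self _
      _ ≤ ∑ t, |∑ i, sg (ε i) * v t i| := Finset.sum_le_sum_of_subset_of_nonneg (Finset.subset_univ _) (fun _ _ _ => abs_nonneg _)
  have s2 : (2:ℝ)^n * n ≤ ∑ t, ∑ ε : Fin n → Bool, |∑ i, sg (ε i) * v t i| := by
    rw [Finset.sum_comm]
    calc (2:ℝ)^n * n = ∑ ε : Fin n → Bool, (n:ℝ) := by simp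
      _ ≤ _ := Finset.sum_le_sum fun ε _ => s1 ε
  -- splitting
  let g : T → Fin n → ℝ := fun t i => if |v t i| ≤ M * τ t then v t i else 0
  let b : T → Fin n → ℝ := fun t i => if |v t i| ≤ M * τ t then 0 else v t i
  have hgb : ∀ t i, v t i = g t i + b t i := by
    intro t i; simp only [g, b]; split_ifs <;> simp
  have s3 : ∀ t, ∑ ε : Fin n → Bool, |∑ i, sg (ε i) * v t i| ≤ 2^n * (√n * (M * τ t)) + 2^n * ∑ i, |b t i| := by
    intro t
    have h1 := R_le (g t) (M * τ t) (mul_nonneg hM.le (hτ t)) (by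
      intro i; simp only [g]; split_ifs with h
      · exact h
      · rw [abs_zero]; exact mul_nonneg hM.le (hτ t))
    have h2 : ∑ ε : Fin n → Bool, |∑ i, sg (ε i) * v t i| ≤ ∑ ε : Fin n → Bool, (|∑ i, sg (ε i) * g t i| + ∑ i, |b t i|) := by
      apply Finset.sum_le_sum
      intro ε _
      have e1 : ∑ i, sg (ε i) * v t i = ∑ i, sg (ε i) * g t i + ∑ i, sg (ε i) * b t i := by
        rw [← Finset.sum_add_distrib]
        apply Finset.sum_congr rfl; intro i _; rw [hgb t i]; ring
      rw [e1]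
      refine (abs_add_le _ _).trans ?_
      have e2 : |∑ i, sg (ε i) * b t i| ≤ ∑ i, |b t i| := by
        refine (Finset.abs_sum_le_sum_abs _ _).trans ?_
        apply Finset.sum_le_sum; intro i _
        rw [abs_mul, sg_abs, one_mul]
      linarith
    rw [Finset.sum_add_distrib] at h2
    simp only [Finset.sum_const, Finset.card_univ, nsmul_eq_mul] at h2
    have h4 : ((Fintype.card (Fin n → Bool) : ℕ) : ℝ) = 2^n := by simp
    rw [h4] at h2
    linarith
  have s4 : ∀ i, ∑ t, |b t i| ≤ 1/4 := by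
    intro i
    have hp : ∀ (σ : ℝ), |σ| = 1 → ∑ t ∈ Finset.univ.filter (fun t => M * τ t < σ * v t i), σ * v t i ≤ 1/8 := by
      intro σ hσ
      have h1 : ∑ t ∈ Finset.univ.filter (fun t => M * τ t < σ * v t i), τ t < δ := by
        have h2 : M * ∑ t ∈ Finset.univ.filter (fun t => M * τ t < σ * v t i), τ t ≤ C := by
          rw [Finset.mul_sum]
          calc _ ≤ ∑ t ∈ Finset.univ.filter (fun t => M * τ t < σ * v t i), σ * v t i := by
                apply Finset.sum_le_sum
                intro t ht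
                exact (Finset.mem_filter.1 ht).2.le
            _ = σ * ∑ t ∈ Finset.univ.filter (fun t => M * τ t < σ * v t i), v t i := by rw [Finset.mul_sum]
            _ ≤ |σ * ∑ t ∈ Finset.univ.filter (fun t => M * τ t < σ * v t i), v t i| := le_abs_self _
            _ ≤ C := by rw [abs_mul, hσ, one_mul]; exact F1 i _
        by_contra hc
        push Not at hc
        nlinarith
      have h3 := F2 i _ h1
      rw [← Finset.mul_sum]
      refine (le_abs_self _).trans ?_
      rw [abs_mul, hσ, one_mul]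
      exact h3.le
    have h1 := hp 1 (by simp)
    have h2 := hp (-1) (by simp)
    have h3 : ∀ t, |b t i| = (if M * τ t < 1 * v t i then 1 * v t i else 0) + (if M * τ t < (-1) * v t i then (-1) * v t i else 0) := by
      intro t
      have hnn := mul_nonneg hM.le (hτ t)
      simp only [b]
      split_ifs with ha hb hc hc
      · exfalso; rw [abs_le] at ha; linarith [ha.2]
      · exfalso; rw [abs_le] at ha; linarith [ha.2]
      · exfalso; rw [abs_le] at ha; linarith [ha.1]
      · simp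
      · exfalso; linarith
      · rw [abs_of_pos (by linarith)]; ring
      · rw [abs_of_neg (by linarith)]; ring
      · exfalso
        apply ha
        rw [abs_le]; constructor <;> linarith
    simp_rw [h3]
    rw [Finset.sum_add_distrib, ← Finset.sum_filter, ← Finset.sum_filter]
    linarith
  have s5 : (2:ℝ)^n * n ≤ 2^n * (√n * (M * t0) + n / 4) := by
    refine s2.trans ?_
    refine (Finset.sum_le_sum fun t _ => s3 t).trans ?_
    rw [Finset.sum_add_distrib, ← Finset.mul_sum, ← Finset.mul_sum, ← Finset.mul_sum, ← Finset.mul_sum, ← mul_add]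
    apply mul_le_mul_of_nonneg_left _ (by positivity)
    have h1 : √n * (M * ∑ t, τ t) ≤ √n * (M * t0) := by
      apply mul_le_mul_of_nonneg_left _ (Real.sqrt_nonneg _)
      exact mul_le_mul_of_nonneg_left F3 hM.le
    have h2 : ∑ t, ∑ i, |b t i| ≤ n / 4 := by
      rw [Finset.sum_comm]
      calc ∑ i, ∑ t, |b t i| ≤ ∑ i : Fin n, (1/4 : ℝ) := Finset.sum_le_sum fun i _ => s4 i
        _ = n / 4 := by simp; ring
    linarith
  exact le_of_mul_le_mul_left s5 (by positivity)

end Pool.Agent.VecRange
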