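import Mathlib
import Pool.Agent.Lib.VecRange1
import Pool.Agent.Lib.VecRange2

set_option autoImplicit false
set_option maxHeartbeats 4000000
open MeasureTheory Filter Topology Set

namespace Pool.Agent.VecRange
open Pool.Agent.ProjApprox (C0 abs_le' norm_le' tend ev0 ev0_apply)

lemma weak_tendsto {ι : Type} {l : Filter ι} {f : ι → C0} {x : C0}
    (h : ∀ φ : C0 →L[ℝ] ℝ, Tendsto (fun i => φ (f i)) l (𝓝 (φ x))) :
    Tendsto (fun i => toWeakSpace ℝ C0 (f i)) l (𝓝 (toWeakSpace ℝ C0 x)) := by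
  have hinj : Function.Injective ((topDualPairing ℝ C0).flip) := by
    intro x y hxy
    apply ZeroAtInftyContinuousMap.ext
    intro n
    have := congrArg (fun B : (C0 →L[ℝ] ℝ) →ₗ[ℝ] ℝ => B (ev0 n)) hxy
    exact this
  exact (WeakBilin.tendsto_iff_forall_eval_tendsto _ hinj).2 h

abbrev I : Type := Σ n : ℕ, (Fin n → Bool)

noncomputable def xf (p : I) (m : ℕ) : ℝ := if h : p.1^2 ≤ m ∧ m < p.1^2 + p.1 then sg (p.2 ⟨m - p.1^2, by omega⟩) else 0

noncomputable def x (p : I) : C0 :=
  { toFun := xf p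
    continuous_toFun := continuous_of_discreteTopology
    zero_at_infty' := by
      rw [cocompact_eq_atTop (α := ℕ)]
      apply tendsto_const_nhds.congr'
      filter_upwards [eventually_gt_atTop (p.1^2 + p.1)] with m hm
      unfold xf
      rw [dif_neg]
      omega }

lemma x_apply (p : I) (m : ℕ) : x p m = xf p m := rfl

lemma x_val (n : ℕ) (ε : Fin n → Bool) (i : Fin n) : x ⟨n, ε⟩ (n^2 + i) = sg (ε i) := by
  rw [x_apply]
  unfold xf
  have h := i.2
  rw [dif_pos (by constructor <;> simp)]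
  have h2 : (⟨n ^ 2 + (i : ℕ) - n ^ 2, by omega⟩ : Fin n) = i := by
    apply Fin.ext; simp
  exact congrArg (fun k => sg (ε k)) h2

lemma xf_abs (p : I) (m : ℕ) : |xf p m| ≤ 1 := by
  unfold xf
  split_ifs
  · rw [sg_abs]
  · simp

lemma xf_zero (p : I) (m : ℕ) (h : ¬ (p.1^2 ≤ m ∧ m < p.1^2 + p.1)) : xf p m = 0 := by
  unfold xf; rw [dif_neg h]

lemma block_unique {a b m : ℕ} (ha : a^2 ≤ m ∧ m < a^2 + a) (hb : b^2 ≤ m ∧ m < b^2 + b) : a = b := by
  rcases lt_trichotomy a b with h | h | h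
  · exfalso
    have : (a+1)^2 ≤ b^2 := Nat.pow_le_pow_left h 2
    nlinarith [ha.2, hb.1]
  · exact h
  · exfalso
    have : (b+1)^2 ≤ a^2 := Nat.pow_le_pow_left h 2
    nlinarith [hb.2, ha.1]

lemma dual_small (φ : C0 →L[ℝ] ℝ) (η : ℝ) (hη : 0 < η) : {p : I | η ≤ |φ (x p)|}.Finite := by
  by_contra hinf
  set S := {p : I | η ≤ |φ (x p)|} with hS
  have hinf' : (Sigma.fst '' S : Set ℕ).Infinite := by
    intro hfin
    apply hinf
    have : S ⊆ ⋃ n ∈ (Sigma.fst '' S : Set ℕ), (Set.range (fun ε : Fin n → Bool => (⟨n, ε⟩ : I))) := by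
      intro p hp
      simp only [Set.mem_iUnion]
      exact ⟨p.1, ⟨p, hp, rfl⟩, ⟨p.2, rfl⟩⟩
    exact (hfin.biUnion fun n _ => Set.finite_range _).subset this
  obtain ⟨m, hm⟩ := exists_nat_gt (‖φ‖ / η)
  obtain ⟨T, hTS, hTc⟩ := hinf'.exists_subset_card_eq m
  have hch : ∀ t : ℕ, ∃ p : I, t ∈ T → (p ∈ S ∧ p.1 = t) := by
    intro t
    by_cases ht : t ∈ T
    · obtain ⟨p, hp, hpt⟩ := hTS ht
      exact ⟨p, fun _ => ⟨hp, hpt⟩⟩
    · exact ⟨⟨0, fun _ => true⟩, fun h => absurd h ht⟩
  choose r hr using hch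
  let θ : ℕ → ℝ := fun t => if 0 ≤ φ (x (r t)) then 1 else -1
  have hθ : ∀ t, |θ t| = 1 := by intro t; simp only [θ]; split_ifs <;> simp
  have hθφ : ∀ t, θ t * φ (x (r t)) = |φ (x (r t))| := by
    intro t; simp only [θ]
    split_ifs with h
    · rw [abs_of_nonneg h, one_mul]
    · rw [abs_of_neg (not_le.1 h)]; ring
  let z : C0 := ∑ t ∈ T, θ t • x (r t)
  have hz : ‖z‖ ≤ 1 := by
    apply norm_le' _ zero_le_one
    intro k
    have hzk : z k = ∑ t ∈ T, θ t * xf (r t) k := by
      have : z k = ev0 k z := rfl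
      rw [this, map_sum]
      apply Finset.sum_congr rfl
      intro t _
      rw [map_smul]; rfl
    rw [hzk]
    by_cases hex : ∃ t ∈ T, t^2 ≤ k ∧ k < t^2 + t
    · obtain ⟨t, ht, htk⟩ := hex
      rw [Finset.sum_eq_single t]
      · rw [abs_mul, hθ, one_mul]; exact xf_abs _ _
      · intro t' ht' hne
        rw [xf_zero, mul_zero]
        rw [(hr t' ht').2]
        intro h
        exact hne (block_unique h htk)
      · intro h; exact absurd ht h
    · rw [Finset.sum_eq_zero]
      · simp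
      · intro t ht
        rw [xf_zero, mul_zero]
        rw [(hr t ht).2]
        intro h
        exact hex ⟨t, ht, h⟩
  have hφz : (m : ℝ) * η ≤ φ z := by
    have : φ z = ∑ t ∈ T, |φ (x (r t))| := by
      rw [map_sum]
      apply Finset.sum_congr rfl
      intro t _
      rw [map_smul, smul_eq_mul, hθφ]
    rw [this]
    calc (m : ℝ) * η = ∑ t ∈ T, η := by rw [Finset.sum_const, hTc, nsmul_eq_mul]
      _ ≤ _ := Finset.sum_le_sum fun t ht => (hr t ht).1
  have h1 : φ z ≤ ‖φ‖ := by
    refine (le_abs_self _).trans ?_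
    refine (φ.le_opNorm z).trans ?_
    exact mul_le_of_le_one_right (norm_nonneg _) hz
  rw [div_lt_iff₀ hη] at hm
  linarith

lemma x_tendsto : Tendsto (fun p => toWeakSpace ℝ C0 (x p)) cofinite (𝓝 (toWeakSpace ℝ C0 0)) := by
  apply weak_tendsto
  intro φ
  rw [map_zero, Metric.tendsto_nhds]
  intro η hη
  rw [Filter.eventually_cofinite]
  refine (dual_small φ η hη).subset ?_
  intro p hp
  simp only [Set.mem_ofPred_eq, not_lt] at hp ⊢
  rwa [Real.dist_eq, sub_zero] at hp

def K : Set C0 := insert 0 (Set.range x)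

lemma K_compact : IsCompact ((toWeakSpace ℝ C0) '' K) := by
  have h := x_tendsto.isCompact_insert_range_of_cofinite
  have e : (toWeakSpace ℝ C0) '' K = insert (toWeakSpace ℝ C0 0) (Set.range fun p => toWeakSpace ℝ C0 (x p)) := by
    unfold K
    rw [Set.image_insert_eq, ← Set.range_comp]
    rfl
  rw [e]; exact h

lemma not_range {α : Type} [MeasurableSpace α] (ν : VectorMeasure α C0)
    (hK : K ⊆ Set.range (fun s : Set α => ν s)) : False := by
  classical
  obtain ⟨C, hC⟩ := bdd ν
  have hC0 : 0 ≤ C := (norm_nonneg _).trans (hC ∅ MeasurableSet.empty)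
  obtain ⟨N, δ, hδ, hLC⟩ := LC ν (1/8) (by norm_num)
  -- finite control functional
  let τ' : Set α → ℝ := fun B => ∑ j ∈ Finset.range (N+1), (tv ν j).real B
  set t0 := τ' Set.univ with ht0
  set M : ℝ := (C + 1) / δ with hM
  have hMpos : 0 < M := by positivity
  have hMC : C < M * δ := by rw [hM, div_mul_cancel₀ _ hδ.ne']; linarith
  have ht00 : 0 ≤ t0 := Finset.sum_nonneg fun j _ => measureReal_nonneg
  obtain ⟨n0, hn0⟩ := exists_nat_gt (16 * (M * t0)^2 + 1)
  set n := n0 with hn
  -- sets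
  have hA : ∀ ε : Fin n → Bool, ∃ A : Set α, MeasurableSet A ∧ ν A = x ⟨n, ε⟩ := by
    intro ε
    obtain ⟨A, hA⟩ := hK (Set.mem_insert_of_mem _ ⟨⟨n, ε⟩, rfl⟩)
    simp only at hA
    by_cases hm : MeasurableSet A
    · exact ⟨A, hm, hA⟩
    · refine ⟨∅, MeasurableSet.empty, ?_⟩
      rw [ν.empty, ← hA, ν.not_measurable hm]
  choose A hAm hAv using hA
  let T := (Fin n → Bool) → Bool
  let Φ : α → T := fun a ε => decide (a ∈ A ε)
  let B : T → Set α := fun t => Φ ⁻¹' {t}
  have hBm : ∀ t, MeasurableSet (B t) := by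
    intro t
    have : B t = ⋂ ε, (if t ε = true then A ε else (A ε)ᶜ) := by
      ext a
      simp only [B, Φ, Set.mem_preimage, Set.mem_singleton_iff, Set.mem_iInter]
      constructor
      · intro h ε
        have := congrFun h ε
        split_ifs with h2
        · rw [h2] at this; exact of_decide_eq_true this
        · simp only [Bool.not_eq_true] at h2
          rw [h2] at this; exact of_decide_eq_false this
      · intro h
        funext ε
        have := h ε
        split_ifs at this with h2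
        · rw [h2]; exact decide_eq_true this
        · simp only [Bool.not_eq_true] at h2
          rw [h2]; exact decide_eq_false this
    rw [this]
    apply MeasurableSet.iInter
    intro ε
    split_ifs
    · exact hAm ε
    · exact (hAm ε).compl
  have hBd : ∀ S : Finset T, Set.PairwiseDisjoint (↑S : Set T) B := by
    intro S s _ t _ hst
    rw [Function.onFun, Set.disjoint_left]
    intro a ha hb
    exact hst ((Set.mem_preimage.1 ha).symm.trans (Set.mem_preimage.1 hb))
  have hG : ∀ S : Finset T, ν (⋃ t ∈ S, B t) = ∑ t ∈ S, ν (B t) := fun S =>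
    ν.of_biUnion_finset (hBd S) (fun t _ => hBm t)
  have hGm : ∀ S : Finset T, MeasurableSet (⋃ t ∈ S, B t) := fun S => Finset.measurableSet_biUnion S fun t _ => hBm t
  have hτG : ∀ S : Finset T, τ' (⋃ t ∈ S, B t) = ∑ t ∈ S, τ' (B t) := by
    intro S
    simp only [τ']
    rw [Finset.sum_comm]
    apply Finset.sum_congr rfl
    intro j _
    exact measureReal_biUnion_finset (hBd S) (fun t _ => hBm t)
  let v : T → Fin n → ℝ := fun t i => ν (B t) (n^2 + i)
  have hv : ∀ (S : Finset T) (i : Fin n), ∑ t ∈ S, v t i = ν (⋃ t ∈ S, B t) (n^2 + i) := by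
    intro S i
    rw [hG S]
    have : (∑ t ∈ S, ν (B t)) (n^2 + i) = ev0 (n^2 + i) (∑ t ∈ S, ν (B t)) := rfl
    rw [this, map_sum]
    rfl
  have hcomb := comb (n := n) v (fun t => τ' (B t)) C δ M t0
    (fun t => Finset.sum_nonneg fun j _ => measureReal_nonneg) hδ hMpos hMC
    (by
      intro i S
      rw [hv]
      exact (abs_le' _ _).trans (hC _ (hGm S)))
    (by
      intro i S hS
      rw [hv]
      refine (abs_le' _ _).trans_lt (hLC _ (hGm S) ?_)
      intro j hj
      rw [← hτG] at hS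
      have h1 : (tv ν j).real (⋃ t ∈ S, B t) ≤ τ' (⋃ t ∈ S, B t) := by
        apply Finset.single_le_sum (f := fun j => (tv ν j).real (⋃ t ∈ S, B t)) (fun j _ => measureReal_nonneg)
        rw [Finset.mem_range]; omega
      have h2 : (tv ν j).real (⋃ t ∈ S, B t) < δ := h1.trans_lt hS
      rw [measureReal_def] at h2
      rw [← ENNReal.ofReal_toReal (measure_ne_top (tv ν j) _)]
      exact (ENNReal.ofReal_lt_ofReal_iff hδ).2 h2)
    (by
      rw [← hτG]
      apply Finset.sum_le_sum
      intro j _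
      exact measureReal_mono (Set.subset_univ _))
    (by
      intro ε
      refine ⟨Finset.univ.filter (fun t : T => t ε = true), fun i => ?_⟩
      rw [hv]
      have : (⋃ t ∈ Finset.univ.filter (fun t : T => t ε = true), B t) = A ε := by
        ext a
        simp only [Set.mem_iUnion, Finset.mem_filter, Finset.mem_univ, true_and, B, Set.mem_preimage, Set.mem_singleton_iff, Φ]
        constructor
        · rintro ⟨t, ht, hat⟩
          have := congrFun hat ε
          rw [ht] at this
          exact of_decide_eq_true this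
        · intro ha
          exact ⟨_, decide_eq_true ha, rfl⟩
      rw [this, hAv, x_val])
  -- numeric contradiction
  have hn1 : (16 * (M * t0)^2 + 1) < (n : ℝ) := hn0
  have hnp : (0:ℝ) < n := by have := sq_nonneg (M * t0); linarith
  have hsq : √(n:ℝ) * √(n:ℝ) = n := Real.mul_self_sqrt hnp.le
  have hsp : 0 < √(n:ℝ) := Real.sqrt_pos.2 hnp
  have h1 : 3/4 * (√(n:ℝ) * √(n:ℝ)) ≤ √(n:ℝ) * (M * t0) := by rw [hsq]; linarith
  have h2 : 3/4 * √(n:ℝ) ≤ M * t0 := by
    by_contra hc
    push Not at hc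
    nlinarith
  have h3 : (3/4 * √(n:ℝ))^2 ≤ (M * t0)^2 := pow_le_pow_left₀ (by positivity) h2 2
  have h4 : (3/4 * √(n:ℝ))^2 = 9/16 * n := by rw [mul_pow, Real.sq_sqrt hnp.le]; ring
  rw [h4] at h3
  nlinarith [sq_nonneg (M * t0)]

theorem main :
    ¬ (∀ K : Set (ZeroAtInftyContinuousMap ℕ ℝ),
      IsCompact ((toWeakSpace ℝ (ZeroAtInftyContinuousMap ℕ ℝ)) '' K) →
      ∃ (α : Type) (_ : MeasurableSpace α)
        (μ : MeasureTheory.VectorMeasure α (ZeroAtInftyContinuousMap ℕ ℝ)),
        K ⊆ Set.range (fun s : Set α => μ s)) := by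
  intro H
  obtain ⟨α, _, μ, h⟩ := H K K_compact
  exact not_range μ h

end Pool.Agent.VecRange
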