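import Mathlib

set_option autoImplicit false
set_option maxHeartbeats 4000000
open Filter Topology

namespace Pool.Agent.Winding

noncomputable section

def HasW (φ : ℝ → ℂ) (n : ℤ) : Prop :=
  ∃ L : ℝ → ℂ, Continuous L ∧ (∀ θ, φ θ = Complex.exp (L θ)) ∧
    ∀ θ, L (θ + 2 * Real.pi) = L θ + n * (2 * Real.pi * Complex.I)

lemma HasW.unique {φ : ℝ → ℂ} {n m : ℤ} (h1 : HasW φ n) (h2 : HasW φ m) : n = m := by
  obtain ⟨L, hL, hL1, hL2⟩ := h1
  obtain ⟨M, hM, hM1, hM2⟩ := h2
  have hD : ∀ θ, ∃ j : ℤ, L θ = M θ + j * (2 * Real.pi * Complex.I) := by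
    intro θ
    have : Complex.exp (L θ) = Complex.exp (M θ) := by rw [← hL1, ← hM1]
    exact Complex.exp_eq_exp_iff_exists_int.1 this
  choose j hj using hD
  have hjc : Continuous j := by
    rw [Int.isClosedEmbedding_coe_real.isEmbedding.continuous_iff]
    have h3 : (Int.cast ∘ j : ℝ → ℝ) = fun θ => ((L θ - M θ) / (2 * Real.pi * Complex.I)).re := by
      funext θ
      have h4 : (L θ - M θ) / (2 * Real.pi * Complex.I) = (j θ : ℂ) := by
        rw [hj θ, add_sub_cancel_left, mul_div_assoc, div_self Complex.two_pi_I_ne_zero, mul_one]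
      rw [h4]
      simp
    rw [h3]
    exact Complex.continuous_re.comp ((hL.sub hM).div_const _)
  have hconst : j (0 + 2 * Real.pi) = j 0 := PreconnectedSpace.constant inferInstance hjc
  have e1 := hj (0 + 2 * Real.pi)
  rw [hL2, hM2, hconst, hj 0] at e1
  have e2 : ((n : ℂ) - m) * (2 * Real.pi * Complex.I) = 0 := by linear_combination e1
  rcases mul_eq_zero.1 e2 with h | h
  · exact_mod_cast sub_eq_zero.1 h
  · exact absurd h Complex.two_pi_I_ne_zero

lemma HasW.perturb {φ ψ : ℝ → ℂ} {n : ℤ} (h : HasW φ n) (hψ : Continuous ψ)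
    (hper : ∀ θ, ψ (θ + 2 * Real.pi) = ψ θ) (hlt : ∀ θ, ‖ψ θ - φ θ‖ < ‖φ θ‖) : HasW ψ n := by
  obtain ⟨L, hL, hL1, hL2⟩ := h
  have hφper : ∀ θ, φ (θ + 2 * Real.pi) = φ θ := by
    intro θ
    rw [hL1, hL1 θ, hL2]
    exact Complex.exp_eq_exp_iff_exists_int.2 ⟨n, rfl⟩
  have hφc : Continuous φ := by
    have : φ = fun θ => Complex.exp (L θ) := funext hL1
    rw [this]
    exact Complex.continuous_exp.comp hL
  have hφ0 : ∀ θ, φ θ ≠ 0 := fun θ => by rw [hL1]; exact Complex.exp_ne_zero _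
  have hslit : ∀ θ, ψ θ / φ θ ∈ Complex.slitPlane := by
    intro θ
    left
    have h1 : ‖ψ θ / φ θ - 1‖ < 1 := by
      have : ψ θ / φ θ - 1 = (ψ θ - φ θ) / φ θ := by
        rw [sub_div, div_self (hφ0 θ)]
      rw [this, norm_div, div_lt_one (norm_pos_iff.2 (hφ0 θ))]
      exact hlt θ
    have h2 := (Complex.abs_re_le_norm (ψ θ / φ θ - 1)).trans_lt h1
    rw [Complex.sub_re, Complex.one_re, abs_lt] at h2
    linarith [h2.1]
  refine ⟨fun θ => L θ + Complex.log (ψ θ / φ θ), ?_, ?_, ?_⟩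
  · exact hL.add ((hψ.div hφc hφ0).clog hslit)
  · intro θ
    rw [Complex.exp_add, Complex.exp_log (Complex.slitPlane_ne_zero (hslit θ)), ← hL1,
      mul_div_cancel₀ _ (hφ0 θ)]
  · intro θ
    simp only [hL2, hper, hφper]
    ring

lemma HasW.mul {φ ψ : ℝ → ℂ} {n m : ℤ} (h1 : HasW φ n) (h2 : HasW ψ m) :
    HasW (fun θ => φ θ * ψ θ) (n + m) := by
  obtain ⟨L, hL, hL1, hL2⟩ := h1
  obtain ⟨M, hM, hM1, hM2⟩ := h2
  refine ⟨fun θ => L θ + M θ, hL.add hM, fun θ => ?_, fun θ => ?_⟩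
  · show φ θ * ψ θ = Complex.exp (L θ + M θ)
    rw [hL1, hM1, Complex.exp_add]
  · simp only [hL2, hM2]
    push_cast
    ring

lemma hasW_const {c : ℂ} (hc : c ≠ 0) : HasW (fun _ => c) 0 :=
  ⟨fun _ => Complex.log c, continuous_const, fun _ => (Complex.exp_log hc).symm, fun _ => by simp⟩

def zz (θ : ℝ) : ℂ := Complex.exp (θ * Complex.I)

lemma zz_norm (θ : ℝ) : ‖zz θ‖ = 1 := Complex.norm_exp_ofReal_mul_I θ

lemma zz_cont : Continuous zz := by unfold zz; fun_prop

lemma zz_per (θ : ℝ) : zz (θ + 2 * Real.pi) = zz θ := by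
  unfold zz
  refine Complex.exp_eq_exp_iff_exists_int.2 ⟨1, ?_⟩
  push_cast
  ring

lemma hasW_pow (k : ℕ) : HasW (fun θ => zz θ ^ k) k := by
  refine ⟨fun θ => k * (θ * Complex.I), by fun_prop, fun θ => ?_, fun θ => ?_⟩
  · show zz θ ^ k = Complex.exp (k * (θ * Complex.I))
    unfold zz
    rw [← Complex.exp_nat_mul]
  · push_cast
    ring

lemma hasW_factor (a : ℂ) (ha : ∀ θ, zz θ ≠ a) : ∃ m : ℕ, HasW (fun θ => zz θ - a) m := by
  have hn : ‖a‖ ≠ 1 := by
    intro h
    apply ha (Complex.arg a)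
    unfold zz
    have := Complex.norm_mul_exp_arg_mul_I a
    rw [h] at this
    simpa using this
  rcases lt_or_gt_of_ne hn with h | h
  · refine ⟨1, ?_⟩
    refine (hasW_pow 1).perturb (zz_cont.sub continuous_const) (fun θ => by rw [zz_per]) (fun θ => ?_)
    rw [pow_one, zz_norm]
    have : zz θ - a - zz θ = -a := by ring
    rw [this, norm_neg]
    exact h
  · refine ⟨0, ?_⟩
    have ha0 : -a ≠ 0 := by
      intro h0
      rw [neg_eq_zero] at h0
      rw [h0, norm_zero] at h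
      linarith
    refine (hasW_const ha0).perturb (zz_cont.sub continuous_const) (fun θ => by rw [zz_per]) (fun θ => ?_)
    have : zz θ - a - -a = zz θ := by ring
    rw [this, zz_norm, norm_neg]
    exact h

lemma hasW_multiset (S : Multiset ℂ) : (∀ a ∈ S, ∀ θ, zz θ ≠ a) →
    ∃ m : ℕ, HasW (fun θ => (S.map (fun a => zz θ - a)).prod) m := by
  induction S using Multiset.induction with
  | empty =>
    intro _
    exact ⟨0, by simpa using hasW_const one_ne_zero⟩
  | cons a S ih =>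
    intro h
    obtain ⟨m, hm⟩ := ih (fun b hb => h b (Multiset.mem_cons_of_mem hb))
    obtain ⟨k, hk⟩ := hasW_factor a (h a (Multiset.mem_cons_self a S))
    refine ⟨k + m, ?_⟩
    have := hk.mul hm
    simpa using this

lemma hasW_poly (p : Polynomial ℂ) (hp : ∀ θ, p.eval (zz θ) ≠ 0) :
    ∃ m : ℕ, HasW (fun θ => p.eval (zz θ)) m := by
  have hp0 : p ≠ 0 := by
    rintro rfl
    exact hp 0 (by simp)
  have hs : p.Splits := IsAlgClosed.splits p
  have hfac : ∀ z, p.eval z = p.leadingCoeff * (p.roots.map (fun a => z - a)).prod := by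
    intro z
    exact hs.eval_eq_prod_roots z
  obtain ⟨m, hm⟩ := hasW_multiset p.roots (by
    intro a ha θ h
    apply hp θ
    rw [h]
    exact (Polynomial.mem_roots hp0).1 ha)
  refine ⟨m, ?_⟩
  have := (hasW_const (c := p.leadingCoeff) (by simpa using hp0)).mul hm
  rw [zero_add] at this
  convert this using 2
  exact hfac _

/-- absolutely convergent series -/
def ser (d : ℕ → ℂ) (θ : ℝ) : ℂ := ∑' k, d k * zz θ ^ k

lemma term_norm (d : ℕ → ℂ) (θ : ℝ) (k : ℕ) : ‖d k * zz θ ^ k‖ = ‖d k‖ := by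
  rw [norm_mul, norm_pow, zz_norm, one_pow, mul_one]

lemma ser_summ {d : ℕ → ℂ} (hd : Summable (fun k => ‖d k‖)) (θ : ℝ) :
    Summable (fun k => d k * zz θ ^ k) := by
  apply Summable.of_norm
  simpa only [term_norm] using hd

lemma ser_cont {d : ℕ → ℂ} (hd : Summable (fun k => ‖d k‖)) : Continuous (ser d) := by
  unfold ser
  exact continuous_tsum (fun k => continuous_const.mul (zz_cont.pow k)) hd
    (fun k θ => (term_norm d θ k).le)

lemma ser_per (d : ℕ → ℂ) (θ : ℝ) : ser d (θ + 2 * Real.pi) = ser d θ := by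
  unfold ser
  rw [zz_per]

lemma hasW_ser {d : ℕ → ℂ} (hd : Summable (fun k => ‖d k‖)) {δ : ℝ} (hδ : 0 < δ)
    (h : ∀ θ, δ ≤ ‖ser d θ‖) : ∃ m : ℕ, HasW (ser d) m := by
  have ht := tendsto_sum_nat_add (fun k => ‖d k‖)
  obtain ⟨M, hM⟩ := (ht.eventually_lt_const (show (0:ℝ) < δ/2 by linarith)).exists
  let p : Polynomial ℂ := ∑ k ∈ Finset.range M, Polynomial.C (d k) * Polynomial.X ^ k
  have hp : ∀ z, p.eval z = ∑ k ∈ Finset.range M, d k * z ^ k := by
    intro z
    simp [p, Polynomial.eval_finsetSum]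
  have hdiff : ∀ θ, ‖ser d θ - p.eval (zz θ)‖ < δ/2 := by
    intro θ
    have h1 : ser d θ - p.eval (zz θ) = ∑' k, d (k + M) * zz θ ^ (k + M) := by
      rw [hp]
      unfold ser
      rw [← (ser_summ hd θ).sum_add_tsum_nat_add M]
      ring
    rw [h1]
    refine lt_of_le_of_lt ?_ hM
    have h2 : Summable (fun k => ‖d (k + M)‖) := (summable_nat_add_iff M).2 hd
    refine (norm_tsum_le_tsum_norm ?_).trans ?_
    · simpa only [norm_mul, norm_pow, zz_norm, one_pow, mul_one] using h2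
    · simp only [norm_mul, norm_pow, zz_norm, one_pow, mul_one]
      exact le_rfl
  have hpl : ∀ θ, δ/2 < ‖p.eval (zz θ)‖ := by
    intro θ
    have h1 := h θ
    have h2 := hdiff θ
    have h3 := norm_sub_norm_le (ser d θ) (p.eval (zz θ))
    linarith
  obtain ⟨m, hm⟩ := hasW_poly p (fun θ h0 => by
    have := hpl θ
    rw [h0, norm_zero] at this
    linarith)
  exact ⟨m, hm.perturb (ser_cont hd) (ser_per d) (fun θ => (hdiff θ).trans (hpl θ))⟩

/-- damped coefficients -/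
def dd (c : ℕ → ℂ) (s : ℝ) (k : ℕ) : ℂ := c k * (Real.exp (-(s / (k + 1))) : ℂ)

lemma dd_norm (c : ℕ → ℂ) (s : ℝ) (k : ℕ) : ‖dd c s k‖ = ‖c k‖ * Real.exp (-(s / (k + 1))) := by
  unfold dd
  rw [norm_mul, Complex.norm_real, Real.norm_of_nonneg (Real.exp_pos _).le]

lemma dd_summ {c : ℕ → ℂ} (hc : Summable (fun k => ‖c k‖)) {s : ℝ} (hs : 0 ≤ s) :
    Summable (fun k => ‖dd c s k‖) := by
  refine Summable.of_nonneg_of_le (fun k => norm_nonneg _) (fun k => ?_) hc
  rw [dd_norm]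
  refine mul_le_of_le_one_right (norm_nonneg _) ?_
  rw [Real.exp_le_one_iff]
  have : 0 ≤ s/((k:ℝ)+1) := by positivity
  linarith

lemma xexp (x : ℝ) : x * Real.exp (-x) ≤ 1 := by
  have h1 : x ≤ Real.exp x := by linarith [Real.add_one_le_exp x]
  have h2 : Real.exp x * Real.exp (-x) = 1 := by rw [← Real.exp_add]; simp
  calc x * Real.exp (-x) ≤ Real.exp x * Real.exp (-x) :=
        mul_le_mul_of_nonneg_right h1 (Real.exp_pos _).le
    _ = 1 := h2

lemma exp_lip {s t u : ℝ} (hs : 0 < s) (hst : s ≤ t) (hu : 0 < u) :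
    |Real.exp (-(s * u)) - Real.exp (-(t * u))| ≤ (t - s) / s := by
  have h1 : Real.exp (-(t*u)) = Real.exp (-(s*u)) * Real.exp (-((t-s)*u)) := by
    rw [← Real.exp_add]; congr 1; ring
  have h2 : 1 - Real.exp (-((t-s)*u)) ≤ (t-s)*u := by
    linarith [Real.add_one_le_exp (-((t-s)*u))]
  have h3 : 0 ≤ 1 - Real.exp (-((t-s)*u)) := by
    have : Real.exp (-((t-s)*u)) ≤ 1 := by
      rw [Real.exp_le_one_iff]
      have : 0 ≤ (t-s)*u := mul_nonneg (by linarith) hu.le
      linarith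
    linarith
  have h4 : Real.exp (-(s*u)) - Real.exp (-(t*u)) = Real.exp (-(s*u)) * (1 - Real.exp (-((t-s)*u))) := by
    rw [h1]; ring
  rw [h4, abs_of_nonneg (mul_nonneg (Real.exp_pos _).le h3)]
  have h5 := xexp (s*u)
  calc Real.exp (-(s*u)) * (1 - Real.exp (-((t-s)*u))) ≤ Real.exp (-(s*u)) * ((t-s)*u) :=
        mul_le_mul_of_nonneg_left h2 (Real.exp_pos _).le
    _ = (s*u * Real.exp (-(s*u))) * ((t - s)/s) := by field_simp
    _ ≤ 1 * ((t-s)/s) := mul_le_mul_of_nonneg_right h5 (div_nonneg (by linarith) hs.le)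
    _ = (t-s)/s := one_mul _

lemma G_lip {c : ℕ → ℂ} (hc : Summable (fun k => ‖c k‖)) {s t : ℝ} (hs : 0 < s) (hst : s ≤ t) (θ : ℝ) :
    ‖ser (dd c s) θ - ser (dd c t) θ‖ ≤ (∑' k, ‖c k‖) * ((t - s) / s) := by
  unfold ser
  rw [← (ser_summ (dd_summ hc hs.le) θ).tsum_sub (ser_summ (dd_summ hc (hs.le.trans hst)) θ)]
  have hb : ∀ k, ‖dd c s k * zz θ ^ k - dd c t k * zz θ ^ k‖ ≤ ‖c k‖ * ((t-s)/s) := by
    intro k
    rw [← sub_mul, norm_mul, norm_pow, zz_norm, one_pow, mul_one]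
    unfold dd
    rw [← mul_sub, norm_mul]
    refine mul_le_mul_of_nonneg_left ?_ (norm_nonneg _)
    rw [← Complex.ofReal_sub, Complex.norm_real, Real.norm_eq_abs]
    have := exp_lip hs hst (u := 1/((k:ℝ)+1)) (by positivity)
    simpa only [mul_one_div] using this
  have hsum : Summable (fun k => ‖c k‖ * ((t-s)/s)) := hc.mul_right _
  have h2 : Summable (fun k => ‖dd c s k * zz θ ^ k - dd c t k * zz θ ^ k‖) :=
    Summable.of_nonneg_of_le (fun k => norm_nonneg _) hb hsum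
  calc _ ≤ ∑' k, ‖dd c s k * zz θ ^ k - dd c t k * zz θ ^ k‖ := norm_tsum_le_tsum_norm h2
    _ ≤ ∑' k, ‖c k‖ * ((t-s)/s) := h2.tsum_le_tsum hb hsum
    _ = _ := tsum_mul_right

lemma rate (K : ℝ) : ∃ s1 : ℝ, 0 < s1 ∧ ∀ s, s1 ≤ s → K / s < 1 / (2 * Real.sqrt (1 + s + 2 * Real.pi)) := by
  refine ⟨1 + 2 * Real.pi + 8 * K^2, by positivity, fun s hs => ?_⟩
  have hpi := Real.pi_pos
  have hs0 : 0 < s := lt_of_lt_of_le (by positivity) hs
  have hr0 : 0 < Real.sqrt (1 + s + 2 * Real.pi) := Real.sqrt_pos.2 (by positivity)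
  have hr2 : Real.sqrt (1 + s + 2 * Real.pi) ^ 2 = 1 + s + 2 * Real.pi := Real.sq_sqrt (by positivity)
  set r := Real.sqrt (1 + s + 2 * Real.pi)
  rw [div_lt_div_iff₀ hs0 (by positivity), one_mul]
  by_contra h
  push Not at h
  have h1 : s^2 ≤ (K * (2*r))^2 := by
    apply pow_le_pow_left₀ hs0.le h
  have h2 : (K * (2*r))^2 = 4 * K^2 * r^2 := by ring
  rw [h2, hr2] at h1
  have hK : 0 ≤ K^2 := sq_nonneg K
  have h3 : 1 + s + 2 * Real.pi ≤ 2 * s := by linarith
  have h4 : 4 * K^2 * (1 + s + 2 * Real.pi) ≤ 4 * K^2 * (2 * s) :=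
    mul_le_mul_of_nonneg_left h3 (by positivity)
  have h5 : s * s ≤ 8 * K^2 * s := by nlinarith
  have h6 : s ≤ 8 * K^2 := le_of_mul_le_mul_right h5 hs0
  linarith

theorem core (c : ℕ → ℂ) (hc : Summable (fun k => ‖c k‖))
    (h : ∀ t : ℝ, 0 ≤ t → 1 / Real.sqrt (1 + t) ≤ ‖ser (dd c t) t‖) : False := by
  set C := ∑' k, ‖c k‖ with hC
  have hC0 : 0 ≤ C := tsum_nonneg (fun k => norm_nonneg _)
  have hpi := Real.pi_pos
  obtain ⟨s0, hs0, hs0'⟩ := rate (C * (2 * Real.pi))
  -- lower bound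
  have hlow : ∀ s, s0 ≤ s → ∀ θ, 1 / (2 * Real.sqrt (1 + s + 2 * Real.pi)) ≤ ‖ser (dd c s) θ‖ := by
    intro s hs θ
    have hspos : 0 < s := hs0.trans_le hs
    have hmem := toIcoMod_mem_Ico Real.two_pi_pos s θ
    set t := toIcoMod Real.two_pi_pos s θ with ht
    have h1 : ser (dd c s) θ = ser (dd c s) t := by
      have hp : Function.Periodic (ser (dd c s)) (2 * Real.pi) := fun θ => ser_per _ θ
      have : t = θ - toIcoDiv Real.two_pi_pos s θ • (2 * Real.pi) := rfl
      rw [this, hp.sub_zsmul_eq]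
    rw [h1]
    have h2 := h t (hspos.le.trans hmem.1)
    have h3 := G_lip hc hspos hmem.1 t
    have h4 : C * ((t - s)/s) ≤ C * (2 * Real.pi) / s := by
      rw [mul_div_assoc]
      refine mul_le_mul_of_nonneg_left ?_ hC0
      exact div_le_div_of_nonneg_right (by linarith [hmem.2]) hspos.le
    have h5 := hs0' s hs
    have h6 : 1 / Real.sqrt (1 + s + 2 * Real.pi) ≤ 1 / Real.sqrt (1 + t) := by
      refine one_div_le_one_div_of_le (Real.sqrt_pos.2 (by linarith [hmem.1])) ?_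
      exact Real.sqrt_le_sqrt (by linarith [hmem.2])
    have h7 : 1 / (2 * Real.sqrt (1 + s + 2 * Real.pi)) = (1 / Real.sqrt (1 + s + 2 * Real.pi)) / 2 := by
      rw [mul_comm, div_div]
    have h8 := norm_sub_norm_le (ser (dd c t) t) (ser (dd c s) t)
    rw [norm_sub_rev] at h8
    rw [h7] at h5 ⊢
    linarith
  have hex : ∀ s : Set.Ici s0, ∃ m : ℕ, HasW (ser (dd c s)) m := by
    rintro ⟨s, hs⟩
    have hs' : s0 ≤ s := hs
    refine hasW_ser (dd_summ hc (hs0.le.trans hs')) (δ := 1 / (2 * Real.sqrt (1 + s + 2 * Real.pi))) ?_ (hlow s hs')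
    have : 0 < Real.sqrt (1 + s + 2 * Real.pi) := Real.sqrt_pos.2 (by linarith)
    positivity
  choose n hn using hex
  have hloc : IsLocallyConstant n := by
    rw [IsLocallyConstant.iff_eventually_eq]
    rintro ⟨s, hs⟩
    have hs' : s0 ≤ s := hs
    set δ := 1 / (2 * Real.sqrt (1 + s + 2 * Real.pi)) with hδ
    have hδ0 : 0 < δ := by
      have : 0 < Real.sqrt (1 + s + 2 * Real.pi) := Real.sqrt_pos.2 (by linarith)
      positivity
    have hev : ∀ᶠ y : Set.Ici s0 in 𝓝 (⟨s, hs⟩ : Set.Ici s0), |(y : ℝ) - s| < δ * s0 / (C + 1) := by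
      have hcont : Continuous (fun y : Set.Ici s0 => |(y : ℝ) - s|) := by fun_prop
      have := hcont.tendsto (⟨s, hs⟩ : Set.Ici s0)
      simp only [sub_self, abs_zero] at this
      exact this.eventually_lt_const (by positivity)
    filter_upwards [hev] with y hy
    obtain ⟨y, hy0⟩ := y
    have hy0' : s0 ≤ y := hy0
    simp only at hy
    have hb : ∀ θ, ‖ser (dd c y) θ - ser (dd c s) θ‖ < δ := by
      intro θ
      have hlt : C * (|y - s| / s0) < δ := by
        have h1 : C * (|y - s| / s0) ≤ (C+1) * (|y-s|/s0) := by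
          refine mul_le_mul_of_nonneg_right (by linarith) (by positivity)
        have h2 : (C+1) * (|y-s|/s0) < (C+1) * ((δ * s0 / (C+1)) / s0) := by
          refine mul_lt_mul_of_pos_left ?_ (by positivity)
          exact div_lt_div_of_pos_right hy hs0
        have h3 : (C+1) * ((δ * s0 / (C+1)) / s0) = δ := by
          have : C + 1 ≠ 0 := by positivity
          field_simp
        linarith
      rcases le_total s y with h1 | h1
      · have h2 := G_lip hc (hs0.trans_le hs') h1 θ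
        rw [norm_sub_rev] at h2
        refine lt_of_le_of_lt (h2.trans ?_) hlt
        refine mul_le_mul_of_nonneg_left ?_ hC0
        rw [abs_of_nonneg (by linarith)]
        exact div_le_div_of_nonneg_left (by linarith) hs0 hs'
      · have h2 := G_lip hc (hs0.trans_le hy0') h1 θ
        refine lt_of_le_of_lt (h2.trans ?_) hlt
        refine mul_le_mul_of_nonneg_left ?_ hC0
        rw [abs_sub_comm, abs_of_nonneg (by linarith)]
        exact div_le_div_of_nonneg_left (by linarith) hs0 hy0'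
    have h3 := (hn ⟨s, hs⟩).perturb (ser_cont (dd_summ hc (hs0.le.trans hy0'))) (ser_per _)
      (fun θ => (hb θ).trans_le (hlow s hs' θ))
    have h4 := (hn ⟨y, hy0⟩).unique h3
    exact_mod_cast h4
  have hpc : PreconnectedSpace (Set.Ici s0) := Subtype.preconnectedSpace isPreconnected_Ici
  have hconst : ∀ s : Set.Ici s0, n s = n ⟨s0, Set.mem_Ici.2 le_rfl⟩ :=
    fun s => hloc.apply_eq_of_preconnectedSpace s _
  set N := n ⟨s0, Set.mem_Ici.2 le_rfl⟩ with hN
  obtain ⟨s1, hs1, hs1'⟩ := rate (C * (N + 1))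
  set s := max s0 s1 with hs
  have hs0s : s0 ≤ s := le_max_left _ _
  have hspos : 0 < s := hs0.trans_le hs0s
  have hr := hs1' s (le_max_right _ _)
  have hW : HasW (ser (dd c s)) N := by
    have := hn ⟨s, Set.mem_Ici.2 hs0s⟩
    rwa [hconst] at this
  -- finite part
  set b := 1 / (2 * Real.sqrt (1 + s + 2 * Real.pi)) with hb
  have hsplit : ∀ θ, ser (dd c s) θ - zz θ ^ (N+1) * ser (fun k => dd c s (k + (N+1))) θ
      = ∑ k ∈ Finset.range (N+1), dd c s k * zz θ ^ k := by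
    intro θ
    have h1 := (ser_summ (dd_summ hc hspos.le) θ).sum_add_tsum_nat_add (N+1)
    have h2 : ∑' k, dd c s (k + (N+1)) * zz θ ^ (k + (N+1)) = zz θ ^ (N+1) * ser (fun k => dd c s (k + (N+1))) θ := by
      unfold ser
      rw [← tsum_mul_left]
      congr 1
      funext k
      rw [pow_add]; ring
    rw [h2] at h1
    rw [sub_eq_iff_eq_add]
    exact h1.symm
  have hPb : ∀ θ, ‖∑ k ∈ Finset.range (N+1), dd c s k * zz θ ^ k‖ ≤ C * (N+1) / s := by
    intro θ
    refine (norm_sum_le _ _).trans ?_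
    have h1 : ∀ k ∈ Finset.range (N+1), ‖dd c s k * zz θ ^ k‖ ≤ ‖c k‖ * ((N+1)/s) := by
      intro k hk
      rw [term_norm, dd_norm]
      refine mul_le_mul_of_nonneg_left ?_ (norm_nonneg _)
      have hk' : (k:ℝ) + 1 ≤ N + 1 := by
        have : k ≤ N := Nat.lt_succ_iff.1 (Finset.mem_range.1 hk)
        have : (k:ℝ) ≤ N := by exact_mod_cast this
        linarith
      have h2 := xexp (s/((k:ℝ)+1))
      have hk0 : (0:ℝ) < (k:ℝ)+1 := by positivity
      have h3 : Real.exp (-(s/((k:ℝ)+1))) ≤ ((k:ℝ)+1)/s := by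
        rw [le_div_iff₀ hspos]
        have h4 : Real.exp (-(s/((k:ℝ)+1))) * s = (s/((k:ℝ)+1) * Real.exp (-(s/((k:ℝ)+1)))) * ((k:ℝ)+1) := by
          field_simp
        rw [h4]
        calc _ ≤ 1 * ((k:ℝ)+1) := mul_le_mul_of_nonneg_right h2 hk0.le
          _ = _ := one_mul _
      exact h3.trans (div_le_div_of_nonneg_right hk' hspos.le)
    refine (Finset.sum_le_sum h1).trans ?_
    rw [← Finset.sum_mul, mul_div_assoc]
    refine mul_le_mul_of_nonneg_right ?_ (by positivity)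
    exact hc.sum_le_tsum _ (fun k _ => norm_nonneg _)
  have hsummQ : Summable (fun k => ‖dd c s (k + (N+1))‖) :=
    (summable_nat_add_iff (N+1)).2 (dd_summ hc hspos.le)
  have hlowR : ∀ θ, b - C * (N+1) / s ≤ ‖ser (fun k => dd c s (k + (N+1))) θ‖ := by
    intro θ
    have h1 := norm_sub_norm_le (ser (dd c s) θ) (zz θ ^ (N+1) * ser (fun k => dd c s (k + (N+1))) θ)
    rw [hsplit θ, norm_mul (zz θ ^ (N+1)), norm_pow, zz_norm, one_pow, one_mul] at h1
    have h2 := hPb θ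
    have h3 := hlow s hs0s θ
    linarith
  obtain ⟨m, hm⟩ := hasW_ser hsummQ (sub_pos.2 hr) hlowR
  have hR1 := (hasW_pow (N+1)).mul hm
  have hR2 : HasW (fun θ => zz θ ^ (N+1) * ser (fun k => dd c s (k + (N+1))) θ) N := by
    refine hW.perturb ((zz_cont.pow _).mul (ser_cont hsummQ)) (fun θ => by rw [zz_per, ser_per]) (fun θ => ?_)
    rw [norm_sub_rev, hsplit θ]
    exact (hPb θ).trans_lt (hr.trans_le (hlow s hs0s θ))
  have := hR1.unique hR2
  push_cast at this
  omega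

end

end Pool.Agent.Winding
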