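import Mathlib
import Pool.Agent.Lib.Winding

set_option autoImplicit false
set_option maxHeartbeats 4000000
open Filter Topology NNReal

namespace Pool.Agent.WeakOrbit

noncomputable section

abbrev X1 := lp (fun _ : ℕ => ℂ) 1

lemma one_pos' : 0 < (1 : ENNReal).toReal := by simp

lemma norm1 (x : X1) : ‖x‖ = ∑' k, ‖x k‖ := by
  rw [lp.norm_eq_tsum_rpow one_pos']
  simp

lemma summ1 (x : X1) : Summable (fun k => ‖x k‖) := by
  have := (lp.memℓp x).summable one_pos'
  simpa using this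

def mk1 (g : ℕ → ℂ) (hg : Summable (fun k => ‖g k‖)) : X1 :=
  ⟨g, (memℓp_gen_iff one_pos').2 (by simpa using hg)⟩

def mulSeq (u : ℕ → ℂ) (hu : ∀ k, ‖u k‖ ≤ 1) : X1 →L[ℂ] X1 :=
  LinearMap.mkContinuous
    { toFun := fun x => mk1 (fun k => u k * x k) (by
        refine Summable.of_nonneg_of_le (fun k => norm_nonneg _) (fun k => ?_) (summ1 x)
        rw [norm_mul]
        exact mul_le_of_le_one_left (norm_nonneg _) (hu k))
      map_add' := fun x y => by
        apply Subtype.ext; funext k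
        exact mul_add _ _ _
      map_smul' := fun c x => by
        apply Subtype.ext; funext k
        show u k * (c * x k) = c * (u k * x k)
        ring }
    1 (fun x => by
      rw [one_mul, norm1, norm1]
      refine Summable.tsum_le_tsum (fun k => ?_) ?_ (summ1 x)
      · show ‖u k * x k‖ ≤ ‖x k‖
        rw [norm_mul]
        exact mul_le_of_le_one_left (norm_nonneg _) (hu k)
      · exact summ1 _)

lemma mulSeq_apply (u : ℕ → ℂ) (hu : ∀ k, ‖u k‖ ≤ 1) (x : X1) (k : ℕ) :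
    mulSeq u hu x k = u k * x k := rfl

def uu (t : ℝ) (k : ℕ) : ℂ := Complex.exp (((-(t / (k+1)) : ℝ) : ℂ) + ((k * t : ℝ) : ℂ) * Complex.I)

lemma uu_norm (t : ℝ) (k : ℕ) : ‖uu t k‖ = Real.exp (-(t/(k+1))) := by
  unfold uu
  rw [Complex.norm_exp, Complex.add_re, Complex.ofReal_re, Complex.re_ofReal_mul, Complex.I_re]
  simp

lemma uu_le {t : ℝ} (ht : 0 ≤ t) (k : ℕ) : ‖uu t k‖ ≤ 1 := by
  rw [uu_norm, Real.exp_le_one_iff]
  have : 0 ≤ t/(k+1) := by positivity
  linarith

lemma uu_cont (k : ℕ) : Continuous (fun t => uu t k) := by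
  unfold uu
  fun_prop

def T (t : ℝ≥0) : X1 →L[ℂ] X1 := mulSeq (uu t) (fun k => uu_le t.2 k)

lemma T_apply (t : ℝ≥0) (x : X1) (k : ℕ) : T t x k = uu t k * x k := rfl

lemma T_zero : T 0 = 1 := by
  apply ContinuousLinearMap.ext
  intro x
  apply Subtype.ext; funext k
  show uu ((0 : ℝ≥0) : ℝ) k * x k = x k
  unfold uu
  simp

lemma T_add (s t : ℝ≥0) : T (s + t) = T s * T t := by
  apply ContinuousLinearMap.ext
  intro x
  apply Subtype.ext; funext k
  show uu ((s + t : ℝ≥0) : ℝ) k * x k = uu s k * (uu t k * x k)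
  have : uu ((s + t : ℝ≥0) : ℝ) k = uu s k * uu t k := by
    unfold uu
    rw [← Complex.exp_add]
    congr 1
    push_cast
    ring
  rw [this, mul_assoc]

def e (k : ℕ) : X1 := lp.single 1 k (1 : ℂ)

lemma e_norm (k : ℕ) : ‖e k‖ = 1 := by
  unfold e
  rw [lp.norm_single (by simp)]
  simp

lemma hasSum_T (t : ℝ≥0) (x : X1) : HasSum (fun k => (uu t k * x k) • e k) (T t x) := by
  have h := lp.hasSum_single (p := 1) (by simp) (T t x)
  have h2 : (fun k => (uu t k * x k) • e k) = fun i => lp.single 1 i ((T t x : X1) i) := by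
    funext k
    unfold e
    rw [← lp.single_smul]
    simp [T_apply]
  rw [h2]
  exact h

lemma T_cont (x : X1) : Continuous (fun t : ℝ≥0 => T t x) := by
  have h : (fun t : ℝ≥0 => T t x) = fun t : ℝ≥0 => ∑' k, (uu t k * x k) • e k := by
    funext t
    exact (hasSum_T t x).tsum_eq.symm
  rw [h]
  refine continuous_tsum (u := fun k => ‖x k‖) (fun k => ?_) (summ1 x) (fun k t => ?_)
  · have := uu_cont k
    have h2 : Continuous (fun t : ℝ≥0 => uu (t : ℝ) k) := this.comp NNReal.continuous_coe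
    exact (h2.mul continuous_const).smul continuous_const
  · rw [norm_smul, e_norm, mul_one, norm_mul]
    exact mul_le_of_le_one_left (norm_nonneg _) (uu_le t.2 k)

lemma orbit (t : ℝ≥0) (x : X1) (y : X1 →L[ℂ] ℂ) :
    HasSum (fun k => (x k * y (e k)) * uu t k) (y (T t x)) := by
  have h := (hasSum_T t x).mapL y
  convert h using 1
  funext k
  rw [map_smul, smul_eq_mul]
  ring

lemma coef_summ (x : X1) (y : X1 →L[ℂ] ℂ) : Summable (fun k => ‖x k * y (e k)‖) := by
  refine Summable.of_nonneg_of_le (fun k => norm_nonneg _) (fun k => ?_) ((summ1 x).mul_right ‖y‖)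
  rw [norm_mul]
  refine mul_le_mul_of_nonneg_left ?_ (norm_nonneg _)
  have := y.le_opNorm (e k)
  rwa [e_norm, mul_one] at this

lemma weakly_stable (x : X1) (y : X1 →L[ℂ] ℂ) : Tendsto (fun t : ℝ≥0 => y (T t x)) atTop (𝓝 0) := by
  have h : (fun t : ℝ≥0 => y (T t x)) = fun t : ℝ≥0 => ∑' k, (x k * y (e k)) * uu t k := by
    funext t
    exact (orbit t x y).tsum_eq.symm
  rw [h]
  have h0 : (0 : ℂ) = ∑' k : ℕ, (0 : ℂ) := by simp
  rw [h0]
  refine tendsto_tsum_of_dominated_convergence (bound := fun k => ‖x k * y (e k)‖) (coef_summ x y) ?_ ?_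
  · intro k
    have h1 : Tendsto (fun t : ℝ≥0 => Real.exp (-((t : ℝ)/(k+1)))) atTop (𝓝 0) := by
      refine Real.tendsto_exp_neg_atTop_nhds_zero.comp ?_
      exact (NNReal.tendsto_coe_atTop.2 tendsto_id).atTop_div_const (by positivity)
    have h2 : Tendsto (fun t : ℝ≥0 => uu t k) atTop (𝓝 0) := by
      rw [tendsto_zero_iff_norm_tendsto_zero]
      simpa only [uu_norm] using h1
    have := h2.const_mul (x k * y (e k))
    simpa using this
  · filter_upwards with t
    intro k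
    rw [norm_mul]
    exact mul_le_of_le_one_right (norm_nonneg _) (uu_le t.2 k)

lemma not_exp : ¬ ∃ M ω : ℝ, 0 < ω ∧ ∀ t : ℝ≥0, ‖T t‖ ≤ M * Real.exp (-ω * (t : ℝ)) := by
  rintro ⟨M, ω, hω, h⟩
  have h1 : ∀ t : ℝ≥0, ∀ k : ℕ, Real.exp (-((t:ℝ)/(k+1))) ≤ M * Real.exp (-ω * (t : ℝ)) := by
    intro t k
    refine le_trans ?_ (h t)
    have h2 : T t (e k) = uu t k • e k := by
      apply Subtype.ext; funext j
      show uu t j * (e k) j = uu t k * (e k) j
      by_cases hj : j = k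
      · rw [hj]
      · have : (e k) j = 0 := by
          unfold e
          rw [lp.single_apply_ne _ _ _ hj]
        rw [this]; simp
    have h3 := (T t).le_opNorm (e k)
    rwa [h2, norm_smul, e_norm, mul_one, mul_one, uu_norm] at h3
  have h4 : ∀ t : ℝ≥0, 1 ≤ M * Real.exp (-ω * (t : ℝ)) := by
    intro t
    have h5 : Tendsto (fun k : ℕ => Real.exp (-((t:ℝ)/(k+1)))) atTop (𝓝 1) := by
      have h6 : Tendsto (fun k : ℕ => (t:ℝ)/((k:ℝ)+1)) atTop (𝓝 0) := by
        exact Tendsto.const_div_atTop (tendsto_atTop_add_const_right _ _ tendsto_natCast_atTop_atTop) _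
      have h7 := (Real.continuous_exp.tendsto (-0)).comp h6.neg
      simpa [Function.comp_def] using h7
    exact le_of_tendsto' h5 (h1 t)
  have h8 : Tendsto (fun t : ℝ => M * Real.exp (-ω * t)) atTop (𝓝 (M * 0)) := by
    refine Tendsto.const_mul M ?_
    have : Tendsto (fun t : ℝ => ω * t) atTop atTop := tendsto_id.const_mul_atTop hω
    have := Real.tendsto_exp_neg_atTop_nhds_zero.comp this
    refine this.congr (fun t => ?_)
    simp
  rw [mul_zero] at h8
  have h9 := (h8.eventually_lt_const (show (0:ℝ) < 1 by norm_num)).and (eventually_ge_atTop 0)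
  obtain ⟨t, ht, ht0⟩ := h9.exists
  have := h4 ⟨t, ht0⟩
  exact absurd ht (not_lt.2 this)

lemma orbit_eq (t : ℝ≥0) (x : X1) (y : X1 →L[ℂ] ℂ) :
    y (T t x) = Winding.ser (Winding.dd (fun k => x k * y (e k)) t) t := by
  rw [← (orbit t x y).tsum_eq]
  unfold Winding.ser
  congr 1
  funext k
  unfold Winding.dd uu Winding.zz
  rw [Complex.exp_add, ← Complex.ofReal_exp, ← Complex.exp_nat_mul]
  have : (((k * (t:ℝ) : ℝ) : ℂ) * Complex.I) = (k : ℂ) * (((t : ℝ) : ℂ) * Complex.I) := by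
    push_cast; ring
  rw [this]
  ring

theorem main :
    ¬ (∀ (X : Type) [NormedAddCommGroup X] [NormedSpace ℂ X] [CompleteSpace X]
      (T : ℝ≥0 → (X →L[ℂ] X)),
      T 0 = 1 →
      (∀ s t : ℝ≥0, T (s + t) = T s * T t) →
      (∀ x : X, Continuous (fun t : ℝ≥0 => T t x)) →
      (∀ (x : X) (y : X →L[ℂ] ℂ), Tendsto (fun t : ℝ≥0 => y (T t x)) atTop (𝓝 0)) →
      (¬ ∃ M ω : ℝ, 0 < ω ∧ ∀ t : ℝ≥0, ‖T t‖ ≤ M * Real.exp (-ω * (t : ℝ))) →
      ∀ a : ℝ≥0 → ℝ, (∀ t, 0 < a t) → Antitone a → Tendsto a atTop (𝓝 0) →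
        ∃ (x : X) (y : X →L[ℂ] ℂ), ∀ t : ℝ≥0, a t ≤ ‖y (T t x)‖) := by
  intro H
  obtain ⟨x, y, h⟩ := H X1 T T_zero T_add T_cont weakly_stable not_exp
    (fun t => 1 / Real.sqrt (1 + (t : ℝ)))
    (fun t => by
      have : 0 < Real.sqrt (1 + (t : ℝ)) := Real.sqrt_pos.2 (by positivity)
      positivity)
    (fun s t hst => by
      have h0 : 0 < Real.sqrt (1 + (s : ℝ)) := Real.sqrt_pos.2 (by positivity)
      refine one_div_le_one_div_of_le h0 (Real.sqrt_le_sqrt ?_)
      have : (s : ℝ) ≤ t := by exact_mod_cast hst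
      linarith)
    (by
      have h1 : Tendsto (fun t : ℝ≥0 => Real.sqrt (1 + (t : ℝ))) atTop atTop :=
        Real.tendsto_sqrt_atTop.comp (tendsto_atTop_add_const_left _ _
          (NNReal.tendsto_coe_atTop.2 tendsto_id))
      refine h1.inv_tendsto_atTop.congr (fun t => ?_)
      simp)
  refine Winding.core (fun k => x k * y (e k)) (coef_summ x y) (fun t ht => ?_)
  have h1 : 1 / Real.sqrt (1 + ((⟨t, ht⟩ : ℝ≥0) : ℝ)) ≤ ‖y (T ⟨t, ht⟩ x)‖ := h ⟨t, ht⟩
  have h2 := orbit_eq ⟨t, ht⟩ x y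
  rw [h2] at h1
  exact h1

end

end Pool.Agent.WeakOrbit
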