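import Mathlib

set_option autoImplicit false
set_option maxHeartbeats 4000000
open MeasureTheory ProbabilityTheory Set

namespace Pool.Agent.XyzIndep
noncomputable section

def m : Measure Bool := (PMF.uniformOfFintype Bool).toMeasure
instance : IsProbabilityMeasure m := inferInstanceAs (IsProbabilityMeasure (PMF.uniformOfFintype Bool).toMeasure)

lemma m_sing (b : Bool) : m {b} = 1/2 := by
  unfold m
  rw [PMF.toMeasure_apply_singleton _ _ (measurableSet_singleton b), PMF.uniformOfFintype_apply]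
  simp

abbrev Om := Fin 3 → Bool
def P : Measure Om := Measure.pi (fun _ => m)
instance : IsProbabilityMeasure P := inferInstanceAs (IsProbabilityMeasure (Measure.pi (fun _ => m)))

def Z : Fin 3 → Bool → ℝ := ![fun b => if b then 1 else 0, fun b => if b then 2 else 0, fun _ => 1]
def X (i : Fin 3) (ω : Om) : ℝ := Z i (ω i)

lemma X_meas (i : Fin 3) : Measurable (X i) :=
  (measurable_of_finite (Z i)).comp (measurable_pi_apply i)

lemma X_indep : iIndepFun X P :=
  iIndepFun_pi (μ := fun _ => m) (X := Z) (fun i => (measurable_of_finite (Z i)).aemeasurable)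

lemma X0 (ω : Om) : X 0 ω = if ω 0 then 1 else 0 := rfl
lemma X1 (ω : Om) : X 1 ω = if ω 1 then 2 else 0 := rfl
lemma X2 (ω : Om) : X 2 ω = 1 := rfl

lemma P_pi (s : Fin 3 → Set Bool) : P (Set.pi univ s) = m (s 0) * m (s 1) * m (s 2) := by
  unfold P
  rw [Measure.pi_pi, Fin.prod_univ_three]

theorem main :
    ¬ (∀ (Ω : Type) [MeasurableSpace Ω] (μ : Measure Ω) [IsProbabilityMeasure μ]
      (n : ℕ) (X : Fin n → Ω → ℝ),
      (∀ i, Measurable (X i)) →
      iIndepFun X μ →
      ∀ (a b c : Fin n), a ≠ b → a ≠ c → b ≠ c →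
      ∀ (S W : Finset (Fin n × Fin n)),
        μ ({ω | (∀ p ∈ S, X p.1 ω < X p.2 ω) ∧ (∀ p ∈ W, X p.1 ω ≤ X p.2 ω)}
            ∩ {ω | X a ω < X c ω}) ≠ 0 →
        ProbabilityTheory.cond μ
            {ω | (∀ p ∈ S, X p.1 ω < X p.2 ω) ∧ (∀ p ∈ W, X p.1 ω ≤ X p.2 ω)}
            {ω | X a ω < X b ω}
          ≤ ProbabilityTheory.cond μ
            ({ω | (∀ p ∈ S, X p.1 ω < X p.2 ω) ∧ (∀ p ∈ W, X p.1 ω ≤ X p.2 ω)}
              ∩ {ω | X a ω < X c ω})
            {ω | X a ω < X b ω}) := by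
  intro H
  have h := H Om P 3 X X_meas X_indep 0 1 2 (by decide) (by decide) (by decide) ∅ {(0, 1)}
  have hA : {ω : Om | (∀ p ∈ (∅ : Finset (Fin 3 × Fin 3)), X p.1 ω < X p.2 ω) ∧ (∀ p ∈ ({(0, 1)} : Finset (Fin 3 × Fin 3)), X p.1 ω ≤ X p.2 ω)}
      = (Set.pi univ ![{true}, {false}, univ])ᶜ := by
    ext ω
    simp only [Finset.notMem_empty, false_implies, implies_true, true_and, Finset.mem_singleton, forall_eq,
      X0, X1, mem_ofPred_eq, mem_compl_iff, mem_pi, mem_univ, true_implies, Fin.forall_fin_succ, IsEmpty.forall_iff, and_true]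
    rcases h0 : ω 0 <;> rcases h1 : ω 1 <;> simp [h0, h1]
  have hAc : {ω : Om | (∀ p ∈ (∅ : Finset (Fin 3 × Fin 3)), X p.1 ω < X p.2 ω) ∧ (∀ p ∈ ({(0, 1)} : Finset (Fin 3 × Fin 3)), X p.1 ω ≤ X p.2 ω)} ∩ {ω | X 0 ω < X 2 ω}
      = (Set.pi univ ![{false}, univ, univ]) := by
    ext ω
    simp only [Finset.notMem_empty, false_implies, implies_true, true_and, Finset.mem_singleton, forall_eq,
      X0, X1, X2, mem_ofPred_eq, mem_inter_iff, mem_pi, mem_univ, true_implies, Fin.forall_fin_succ, IsEmpty.forall_iff, and_true]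
    rcases h0 : ω 0 <;> rcases h1 : ω 1 <;> simp [h0, h1]
  have hB : {ω : Om | X 0 ω < X 1 ω} = Set.pi univ ![univ, {true}, univ] := by
    ext ω
    simp only [X0, X1, mem_ofPred_eq, mem_pi, mem_univ, true_implies, Fin.forall_fin_succ, IsEmpty.forall_iff, and_true]
    rcases h0 : ω 0 <;> rcases h1 : ω 1 <;> simp [h0, h1]
  have hAB : (Set.pi univ ![{true}, {false}, univ])ᶜ ∩ Set.pi univ ![univ, {true}, univ] = (Set.pi univ ![univ, {true}, univ] : Set Om) := by
    ext ω
    simp only [mem_compl_iff, mem_inter_iff, mem_pi, mem_univ, true_implies, Fin.forall_fin_succ, IsEmpty.forall_iff, and_true]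
    rcases h0 : ω 0 <;> rcases h1 : ω 1 <;> simp [h0, h1]
  have hCB : Set.pi univ ![{false}, univ, univ] ∩ Set.pi univ ![univ, {true}, univ] = (Set.pi univ ![{false}, {true}, univ] : Set Om) := by
    ext ω
    simp only [mem_inter_iff, mem_pi, mem_univ, true_implies, Fin.forall_fin_succ, IsEmpty.forall_iff, and_true]
    rcases h0 : ω 0 <;> rcases h1 : ω 1 <;> simp [h0, h1]
  have p1 : P (Set.pi univ ![{true}, {false}, univ])ᶜ = 3/4 := by
    rw [prob_compl_eq_one_sub (MeasurableSet.of_discrete), P_pi]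
    simp only [Matrix.cons_val_zero, Matrix.cons_val_one, Matrix.cons_val, m_sing, measure_univ, mul_one]
    have hne : (1/2 * (1/2) : ENNReal) ≠ ⊤ := ENNReal.mul_ne_top (by simp) (by simp)
    rw [← ENNReal.toReal_eq_toReal_iff' (by simp) (by simp [ENNReal.div_eq_top])]
    rw [ENNReal.toReal_sub_of_le (by
      rw [← ENNReal.toReal_le_toReal hne (by simp)]
      simp; norm_num) (by simp)]
    simp; norm_num
  have p2 : P (Set.pi univ ![univ, {true}, univ]) = 1/2 := by
    rw [P_pi]
    simp only [Matrix.cons_val_zero, Matrix.cons_val_one, Matrix.cons_val, m_sing, measure_univ, mul_one, one_mul]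
  have p3 : P (Set.pi univ ![{false}, univ, univ]) = 1/2 := by
    rw [P_pi]
    simp only [Matrix.cons_val_zero, Matrix.cons_val_one, Matrix.cons_val, m_sing, measure_univ, mul_one, one_mul]
  have p4 : P (Set.pi univ ![{false}, {true}, univ]) = 1/2 * (1/2) := by
    rw [P_pi]
    simp only [Matrix.cons_val_zero, Matrix.cons_val_one, Matrix.cons_val, m_sing, measure_univ, mul_one, one_mul]
  rw [hAc, hA, hB, cond_apply (MeasurableSet.of_discrete), cond_apply (MeasurableSet.of_discrete), hAB, hCB, p1, p2, p3, p4] at h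
  have h2 := h (by simp)
  rw [← ENNReal.toReal_le_toReal (by simp [ENNReal.mul_eq_top, ENNReal.div_eq_top]) (by simp [ENNReal.mul_eq_top])] at h2
  simp at h2
  norm_num at h2

end
end Pool.Agent.XyzIndep
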